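import Pool.Agent.H19.UT.SpB

/-!
Project UT, blocks C, D and M (surfaces, comparison of coordinates, main theorem for `K(t)`):
statements (helper19).
-/

set_option autoImplicit false
set_option maxHeartbeats 400000

open Polynomial Pool.Agent.K1

namespace Pool.Agent.H19.UT

section defs

/-- The residue field of `s` contains an element which is transcendental over `k`. -/
def Tr1 (k : Type) {K : Type} [Field k] [Field K] [Algebra k K] (s : ValuationSubring K) : Prop :=
  ∃ z : K, ∀ P : k[X], P ≠ 0 → aeval z P ∈ s ∧ aeval z P ∉ s.nonunits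

/-- The residue field of `W` contains two elements algebraically independent over `k`. -/
def Tr2 (k : Type) {L : Type} [Field k] [Field L] [Algebra k L] (W : ValuationSubring L) : Prop :=
  ∃ z : Fin 2 → L, ∀ P : MvPolynomial (Fin 2) k, P ≠ 0 →
    MvPolynomial.aeval z P ∈ W ∧ MvPolynomial.aeval z P ∉ W.nonunits

/-- `k` is algebraically closed and all its units are roots of unity. -/
structure Base (p : ℕ) (k : Type) [Field k] : Prop where
  prime : p.Prime
  char : CharP k p
  closed : IsAlgClosed k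
  tors : ∀ c : k, c ≠ 0 → ∃ n : ℕ, 0 < n ∧ c ^ n = 1

/-- `K` is a finitely generated field over `k` of transcendence degree at most two. -/
structure Fg2 (k K : Type) [Field k] [Field K] [Algebra k K] : Prop where
  fg : ∃ S : Finset K, ∀ E : Subfield K, (∀ c : k, algebraMap k K c ∈ E) → (∀ a ∈ S, a ∈ E) →
    E = ⊤
  dim : ∀ z : Fin 3 → K, ∃ P : MvPolynomial (Fin 3) k, P ≠ 0 ∧ MvPolynomial.aeval z P = 0

/-- The local ring `R` is dominated by the valuation ring `s`. -/
def Dom {K : Type} [Field K] (R : Subring K) (s : ValuationSubring K) : Prop :=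
  ∀ r : R, (r : K) ∈ s ∧ (¬ IsUnit r → (r : K) ∈ s.nonunits)

/-- The residue field of the local ring `R` is `k`. -/
def ResK (k : Type) {K : Type} [Field k] [Field K] [Algebra k K] (R : Subring K) : Prop :=
  ∀ r : R, ∃ c : k, ∃ r' : R, (r' : K) = r - algebraMap k K c ∧ ¬ IsUnit r'

/-- What is used of a regular projective surface with function field `K`. -/
structure Surf (k K : Type) [Field k] [Field K] [Algebra k K] where
  S1 : Set (ValuationSubring K)
  S2 : Set (Subring K)
  disc : ∀ s ∈ S1, IsDiscV s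
  reg : ∀ R ∈ S2, Reg2 k R
  res : ∀ R ∈ S2, ResK k R
  on : ∀ R ∈ S2, ∀ s, On R s → s ∈ S1
  ctr : ∀ v : ValuationSubring K, v ≠ ⊤ → v ∈ S1 ∨ ∃ R ∈ S2, Dom R v
  fin : ∀ f : Kˣ, {s : ValuationSubring K | s ∈ S1 ∧ ¬ UnitIn s f}.Finite
  kill : ∀ g : ValuationSubring K → Kˣ, (∀ s ∈ S1, UnitIn s (g s)) →
    {s : ValuationSubring K | s ∈ S1 ∧ ¬ TorsV s (g s)}.Finite →
    (∀ R ∈ S2, ∑ᶠ (s : ValuationSubring K) (_ : On R s), oD R s (g s) = 0) →
    ∃ (N : ℕ) (γ : Sy K), 0 < N ∧ ∀ s ∈ S1, TorsV s (sm s γ * (g s ^ N)⁻¹)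

/-- The symbols `g` are units and form a cycle on `K`. -/
structure CycK (k : Type) {K : Type} [Field k] [Field K] [Algebra k K]
    (g : ValuationSubring K → Kˣ) : Prop where
  unit : ∀ s : ValuationSubring K, IsDiscV s → UnitIn s (g s)
  fin : ∀ R : Subring K, Reg2 k R → {s : ValuationSubring K | On R s ∧ ¬ TorsV s (g s)}.Finite
  sum : ∀ R : Subring K, Reg2 k R →
    ∑ᶠ (s : ValuationSubring K) (_ : On R s), oD R s (g s) = 0

/-- The curves on `R` are torsion for `g`. -/
def Tz {K : Type} [Field K] (g : ValuationSubring K → Kˣ) (R : Subring K) : Prop :=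
  ∀ s : ValuationSubring K, On R s → TorsV s (g s)

/-- The value of the data for the coordinate `τ` at `s`, as a function of `s`. -/
def IsGf {K L : Type} [Field K] [Field L] [Algebra K L] (d : Dat L) (τ : L)
    (g : ValuationSubring K → Kˣ) : Prop :=
  ∀ s : ValuationSubring K, IsDiscV s → IsG d τ s (g s)

/-- The comparison property: for all finite extensions of `K` the data are trivial at the Gauss
valuations for all affine coordinates. -/
def CoordTriv (k : Type) {K L : Type} [Field k] [Field K] [Field L] [Algebra k K] [Algebra K L]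
    (d : Dat L) (τ : L) : Prop :=
  ∀ (K2 L2 : Type) [Field K2] [Field L2] [Algebra k K2] [Algebra K K2] [IsScalarTower k K K2]
    [FiniteDimensional K K2] [Algebra K2 L2] (φ : L →+* L2),
    (∀ a : K, φ (algebraMap K L a) = algebraMap K2 L2 (algebraMap K K2 a)) →
    Coord K2 L2 (φ τ) → ∀ a c : K2, c ≠ 0 → ∀ s : ValuationSubring K2, IsDiscV s → Tr1 k s →
    ∀ E : ValuationSubring L2,
      IsGauss s ((φ τ - algebraMap K2 L2 a) / algebraMap K2 L2 c) E → (d.map φ).Triv E

end defs

/-- C01: constants on the exceptional curve. -/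
def SpCE : Prop := ∀ (p : ℕ) (k K : Type) [Field k] [Field K] [Algebra k K], Base p k →
  ∀ g : ValuationSubring K → Kˣ, CycK k g → ∀ R : Subring K, Reg2 k R → ResK k R → Tz g R →
  ∀ bl : Blow R, (∀ E : ValuationSubring K, bl.IsE E → TorsV E (g E)) ∧
    ∀ π : bl.κ[X], bl.Pt π → Reg2 k (bl.loc π) ∧ ResK k (bl.loc π) ∧ Tz g (bl.loc π)

/-- C02: one step along a valuation ring. -/
def SpCStep : Prop := ∀ (p : ℕ) (k K : Type) [Field k] [Field K] [Algebra k K], Base p k →
  ∀ R : Subring K, Reg2 k R → ResK k R → ∀ s : ValuationSubring K, IsDiscV s → Dom R s →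
  ∃ bl : Blow R, ordV s (bl.x : K) ≤ ordV s (bl.y : K) ∧ (bl.y : K) ≠ 0 ∧
    (bl.IsE s ∨ ∃ π : bl.κ[X], bl.Pt π ∧ Dom (bl.loc π) s)

/-- C03: descending along the quadratic transforms. -/
def SpCDesc : Prop := ∀ (p : ℕ) (k K : Type) [Field k] [Field K] [Algebra k K], Base p k →
  ∀ g : ValuationSubring K → Kˣ, CycK k g → ∀ R : Subring K, Reg2 k R → ResK k R → Tz g R →
  ∀ s : ValuationSubring K, IsDiscV s → Dom R s → Tr1 k s → TorsV s (g s)

/-- C04: the values for a coordinate form a cycle. -/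
def SpGf : Prop := ∀ (p : ℕ) (k K L : Type) [Field k] [Field K] [Field L]
  [Algebra k K] [Algebra k L] [Algebra K L] [IsScalarTower k K L], Base p k → ∀ τ : L,
  Coord K L τ → ∀ d : Dat L, HDat (K := K) τ d →
  (∃ g : ValuationSubring K → Kˣ, IsGf d τ g) ∧
  ∀ g : ValuationSubring K → Kˣ, IsGf d τ g → CycK k g

/-- C05: finiteness on a surface. -/
def SpGfFin : Prop := ∀ (p : ℕ) (k K L : Type) [Field k] [Field K] [Field L]
  [Algebra k K] [Algebra k L] [Algebra K L] [IsScalarTower k K L], Base p k → ∀ (S : Surf k K)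
  (τ : L), Coord K L τ → ∀ d : Dat L, ∀ g : ValuationSubring K → Kˣ, IsGf d τ g →
  {s : ValuationSubring K | s ∈ S.S1 ∧ ¬ TorsV s (g s)}.Finite

/-- C06: the theorem on surfaces applied to the data. -/
def SpKill : Prop := ∀ (p : ℕ) (k K L : Type) [Field k] [Field K] [Field L]
  [Algebra k K] [Algebra k L] [Algebra K L] [IsScalarTower k K L], Base p k → ∀ (S : Surf k K)
  (τ : L), Coord K L τ → ∀ d : Dat L, HDat (K := K) τ d →
  ∃ (N : ℕ) (γ : Sy K), 0 < N ∧ HDat (K := K) τ (d.tw N (Sy.map (algebraMap K L) γ)) ∧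
    ∀ g : ValuationSubring K → Kˣ, IsGf (d.tw N (Sy.map (algebraMap K L) γ)) τ g →
      ∀ s ∈ S.S1, TorsV s (g s)

/-- C07: all divisorial valuations of `K`. -/
def SpAllK : Prop := ∀ (p : ℕ) (k K L : Type) [Field k] [Field K] [Field L]
  [Algebra k K] [Algebra k L] [Algebra K L] [IsScalarTower k K L], Base p k → ∀ (S : Surf k K)
  (τ : L), Coord K L τ → ∀ d : Dat L, HDat (K := K) τ d →
  ∀ g : ValuationSubring K → Kˣ, IsGf d τ g → (∀ s ∈ S.S1, TorsV s (g s)) →
  ∀ s : ValuationSubring K, IsDiscV s → Tr1 k s → TorsV s (g s)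

/-- D01: charts adapted to a curve and to a unit on it (the conclusion of the RB lemma). -/
def SpRB : Prop := ∀ (p : ℕ) (k K : Type) [Field k] [Field K] [Algebra k K], Base p k →
  Fg2 k K → ∀ s : ValuationSubring K, IsDiscV s → Tr1 k s → ∀ u : Kˣ, UnitIn s u →
  ¬ TorsV s u → ∃ (R : Subring K) (f : R), Reg2 k R ∧ OnR R f s ∧ oD R s u ≠ 0

/-- D02: comparison of the coordinates `τ` and `τ / c`. -/
def SpCmp : Prop := ∀ (p : ℕ) (k K L : Type) [Field k] [Field K] [Field L]
  [Algebra k K] [Algebra k L] [Algebra K L] [IsScalarTower k K L], Base p k → Fg2 k K →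
  ∀ τ : L, Coord K L τ → ∀ d : Dat L, HDat (K := K) τ d → ∀ s : ValuationSubring K, IsDiscV s →
  Tr1 k s → ∀ c : K, ordV s c = 1 → c ≠ 0 → ∀ g g' : Kˣ, IsG d τ s g →
  IsG d (τ / algebraMap K L c) s g' → TorsV s (g * g'⁻¹)

/-- D03: all affine coordinates, for fixed `K`. -/
def SpAff : Prop := ∀ (p : ℕ) (k K L : Type) [Field k] [Field K] [Field L]
  [Algebra k K] [Algebra k L] [Algebra K L] [IsScalarTower k K L], Base p k → Fg2 k K →
  ∀ τ : L, Coord K L τ → ∀ d : Dat L, HDat (K := K) τ d → ∀ s : ValuationSubring K, IsDiscV s →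
  Tr1 k s → (∀ E : ValuationSubring L, IsGauss s τ E → d.Triv E) → ∀ a c : K, c ≠ 0 →
  ∀ E : ValuationSubring L, IsGauss s ((τ - algebraMap K L a) / algebraMap K L c) E → d.Triv E

/-- D04: `Fg2` and `Tr1` under finite extensions. -/
def SpFgExt : Prop := ∀ (k K K2 : Type) [Field k] [Field K] [Field K2] [Algebra k K]
  [Algebra k K2] [Algebra K K2] [IsScalarTower k K K2] [FiniteDimensional K K2],
  (Fg2 k K → Fg2 k K2) ∧ ∀ s : ValuationSubring K2, IsDiscV s →
    IsDiscV (s.comap (algebraMap K K2)) ∧ (Tr1 k s → Tr1 k (s.comap (algebraMap K K2)))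

/-- D05: Gauss valuations restrict to Gauss valuations. -/
def SpGaussRes : Prop := ∀ (K L K2 L2 : Type) [Field K] [Field L] [Field K2] [Field L2]
  [Algebra K L] [Algebra K K2] [Algebra K2 L2] (φ : L →+* L2) (τ : L),
  (∀ a : K, φ (algebraMap K L a) = algebraMap K2 L2 (algebraMap K K2 a)) →
  ∀ (s : ValuationSubring K2) (E : ValuationSubring L2), IsGauss s (φ τ) E →
  IsGauss (s.comap (algebraMap K K2)) τ (E.comap φ)

/-- D06: the comparison property. -/
def SpCT : Prop := ∀ (p : ℕ) (k K L : Type) [Field k] [Field K] [Field L]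
  [Algebra k K] [Algebra k L] [Algebra K L] [IsScalarTower k K L], Base p k → Fg2 k K →
  ∀ τ : L, Coord K L τ → ∀ d : Dat L, HDat (K := K) τ d →
  (∀ s : ValuationSubring K, IsDiscV s → Tr1 k s → ∀ E : ValuationSubring L, IsGauss s τ E →
    d.Triv E) → CoordTriv k (K := K) d τ

/-- Block E: all divisorial valuation rings of `K(t)`. -/
def SpAllDiv : Prop := ∀ (p : ℕ) (k K L : Type) [Field k] [Field K] [Field L]
  [Algebra k K] [Algebra k L] [Algebra K L] [IsScalarTower k K L], Base p k → Fg2 k K →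
  ∀ τ : L, Coord K L τ → ∀ d : Dat L, HDat (K := K) τ d →
  (∀ D : ValuationSubring L, IsDiscV D → (∀ a : K, algebraMap K L a ∈ D) → τ⁻¹ ∈ D.nonunits →
    d.Triv D) → CoordTriv k (K := K) d τ →
  ∀ W : ValuationSubring L, IsDiscV W → Tr2 k W → d.Triv W

/-- M01: the main theorem for `K(t)`. -/
def SpMain : Prop := ∀ (p : ℕ) (k K L : Type) [Field k] [Field K] [Field L]
  [Algebra k K] [Algebra k L] [Algebra K L] [IsScalarTower k K L], Base p k → Fg2 k K →
  Surf k K → ∀ τ : L, Coord K L τ → ∀ d : Dat L,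
  ∃ (N : ℕ) (β : Sy L), 0 < N ∧ ∀ W : ValuationSubring L, IsDiscV W → Tr2 k W →
    TorsV W (sm W β * (d.val W ^ N)⁻¹)

/-- M02: the main theorem for subfields of `K(t)`. -/
def SpMainF : Prop := ∀ (p : ℕ) (k K L F : Type) [Field k] [Field K] [Field L] [Field F]
  [Algebra k K] [Algebra k L] [Algebra K L] [IsScalarTower k K L] [Algebra F L]
  [FiniteDimensional F L], Base p k → Fg2 k K → Surf k K → ∀ τ : L, Coord K L τ → ∀ d : Dat F,
  ∃ (N : ℕ) (β : Sy F), 0 < N ∧ ∀ D : ValuationSubring F, IsDiscV D →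
    (∀ D' : ValuationSubring L, IsDiscV D' → D'.comap (algebraMap F L) = D → Tr2 k D') →
    TorsV D (sm D β * (d.val D ^ N)⁻¹)

end Pool.Agent.H19.UT
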