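import Pool.Agent.H19.UT.SpF
import Pool.Agent.H19.UT.SpC

/-!
Project UT, block E (all divisors of `K(t)` with a residue field of transcendence degree two):
statements (helper51). The definitions of `Tr1`, `Tr2`, `CoordTriv` are in SpC.lean.
-/

set_option autoImplicit false
set_option maxHeartbeats 400000

open Polynomial Pool.Agent.K1

namespace Pool.Agent.H19.UT

/-- E01: base change of the coefficients of the rational function field to an algebraic
extension. -/
def SpEbc : Prop := ∀ (K L Ω : Type) [Field K] [Field L] [Field Ω] [Algebra K L] [Algebra K Ω]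
  [Algebra.IsAlgebraic K Ω] (τ : L), Coord K L τ →
  ∃ (M : Type) (_ : Field M) (_ : Algebra Ω M) (φ : L →+* M),
    (∀ a : K, φ (algebraMap K L a) = algebraMap Ω M (algebraMap K Ω a)) ∧ Coord Ω M (φ τ) ∧
    ∀ x : M, ∃ P : L[X], P ≠ 0 ∧ P.eval₂ φ x = 0

/-- E02: any two elements of `L = K(τ)` are algebraically dependent over `K`; the relation can be
scaled. -/
def SpErelK : Prop := ∀ (K L : Type) [Field K] [Field L] [Algebra K L] (τ : L), Coord K L τ →
  ∀ (s : ValuationSubring K) (z : Fin 2 → L), ∃ P : MvPolynomial (Fin 2) K,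
    (∀ m, P.coeff m ∈ s) ∧ (∃ m, P.coeff m ∉ s.nonunits) ∧ MvPolynomial.aeval z P = 0

/-- E03: a nontrivial valuation ring whose residue field has transcendence degree two: the field
has transcendence degree three. -/
def SpErelS : Prop := ∀ (k K : Type) [Field k] [Field K] [Algebra k K] (s : ValuationSubring K),
  s ≠ ⊤ → Tr2 k s → ∃ x : Fin 3 → K, AlgebraicIndependent k x

/-- E04: the residue fields of `W` and of `W ∩ K`. -/
def SpEres : Prop := ∀ (k K L : Type) [Field k] [Field K] [Field L] [Algebra k K] [Algebra K L]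
  [Algebra k L] [IsScalarTower k K L] (W : ValuationSubring L), Tr2 k W →
  ¬ Tr2 k (W.comap (algebraMap K L)) →
  (∀ z : Fin 2 → L, ∃ P : MvPolynomial (Fin 2) K,
    (∀ m, P.coeff m ∈ W.comap (algebraMap K L)) ∧
    (∃ m, P.coeff m ∉ (W.comap (algebraMap K L)).nonunits) ∧ MvPolynomial.aeval z P = 0) →
  Tr1 k (W.comap (algebraMap K L)) ∧ ∃ z : L, IsGauss (W.comap (algebraMap K L)) z W

/-- E05: extension of `W` to `M = Ω(t)`, with rational values; all values are values of elements of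
the algebraically closed field `Ω`. -/
def SpEext : Prop := ∀ (K L Ω M : Type) [Field K] [Field L] [Field Ω] [Field M] [Algebra K L]
  [Algebra K Ω] [Algebra Ω M] [IsAlgClosed Ω] (φ : L →+* M),
  (∀ a : K, φ (algebraMap K L a) = algebraMap Ω M (algebraMap K Ω a)) →
  (∀ x : M, ∃ P : L[X], P ≠ 0 ∧ P.eval₂ φ x = 0) →
  ∀ W : ValuationSubring L, IsDiscV W → (∃ a : K, algebraMap K L a ∉ W) →
  ∃ (V : ValuationSubring M) (v : Mˣ → ℚ), V.comap φ = W ∧ (∀ a b, v (a * b) = v a + v b) ∧
    (∀ a : Mˣ, (a : M) ∈ V ↔ 0 ≤ v a) ∧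
    (∀ f : Lˣ, v (Units.map (φ : L →* M) f) = (ordV W (f : L) : ℚ)) ∧
    ∀ f : Mˣ, ∃ c : Ωˣ, UnitIn V (f * (Units.map (algebraMap Ω M : Ω →* M) c)⁻¹)

/-- E06: a coordinate which is not immediate. -/
def SpEpseudo : Prop := ∀ (Ω M : Type) [Field Ω] [Field M] [IsAlgClosed Ω] [Algebra Ω M] (t : M),
  Coord Ω M t → ∀ V : ValuationSubring M,
  (∀ f : Mˣ, ∃ c : Ωˣ, UnitIn V (f * (Units.map (algebraMap Ω M : Ω →* M) c)⁻¹)) →
  ∀ z ∈ V, (∀ b : Ω, z - algebraMap Ω M b ∉ V.nonunits) →
  ∃ a c : Ω, c ≠ 0 ∧ (t - algebraMap Ω M a) / algebraMap Ω M c ∈ V ∧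
    ∀ b : Ω, (t - algebraMap Ω M a) / algebraMap Ω M c - algebraMap Ω M b ∉ V.nonunits

/-- E07: over an algebraically closed field, an element whose residue is new has a transcendental
residue. -/
def SpEgal : Prop := ∀ (Ω M : Type) [Field Ω] [Field M] [IsAlgClosed Ω] [Algebra Ω M]
  (V : ValuationSubring M) (u : M), u ∈ V → (∀ b : Ω, u - algebraMap Ω M b ∉ V.nonunits) →
  IsGauss (V.comap (algebraMap Ω M)) u V

/-- E08: an element with transcendental residue over `K` is not congruent to an algebraic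
element. -/
def SpEnc : Prop := ∀ (K L Ω M : Type) [Field K] [Field L] [Field Ω] [Field M] [Algebra K L]
  [Algebra K Ω] [Algebra Ω M] [Algebra.IsAlgebraic K Ω] (φ : L →+* M),
  (∀ a : K, φ (algebraMap K L a) = algebraMap Ω M (algebraMap K Ω a)) →
  ∀ (W : ValuationSubring L) (V : ValuationSubring M), V.comap φ = W →
  ∀ z : L, IsGauss (W.comap (algebraMap K L)) z W →
  ∀ b : Ω, φ z - algebraMap Ω M b ∉ V.nonunits

/-- E09: affine changes of the coordinate; Gauss valuations over discrete valuation rings are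
discrete. -/
def SpEgd : Prop := ∀ (K L : Type) [Field K] [Field L] [Algebra K L] (τ : L), Coord K L τ →
  (∀ a c : K, c ≠ 0 → Coord K L ((τ - algebraMap K L a) / algebraMap K L c)) ∧
  ∀ (s : ValuationSubring K) (E : ValuationSubring L), IsDiscV s → IsGauss s τ E → IsDiscV E

/-- E10: the restriction to a finite extension `K2` of `K` is discrete. -/
def SpEdisc : Prop := ∀ (k K L Ω M K2 : Type) [Field k] [Field K] [Field L] [Field Ω] [Field M]
  [Field K2] [Algebra k K] [Algebra K L] [Algebra K Ω] [Algebra Ω M] [Algebra K K2]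
  [Algebra K2 Ω] [IsScalarTower K K2 Ω] [Algebra k K2] [IsScalarTower k K K2]
  [FiniteDimensional K K2] (φ : L →+* M),
  (∀ a : K, φ (algebraMap K L a) = algebraMap Ω M (algebraMap K Ω a)) →
  ∀ (W : ValuationSubring L), IsDiscV W → (∃ a : K, algebraMap K L a ∉ W) →
  ∀ (V : ValuationSubring M) (v : Mˣ → ℚ), V.comap φ = W → (∀ a b, v (a * b) = v a + v b) →
    (∀ a : Mˣ, (a : M) ∈ V ↔ 0 ≤ v a) →
    (∀ f : Lˣ, v (Units.map (φ : L →* M) f) = (ordV W (f : L) : ℚ)) →
    IsDiscV ((V.comap (algebraMap Ω M)).comap (algebraMap K2 Ω)) ∧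
    (Tr1 k (W.comap (algebraMap K L)) →
      Tr1 k ((V.comap (algebraMap Ω M)).comap (algebraMap K2 Ω)))

/-- E11: the field `K2(t)` between `L = K(t)` and `M = Ω(t)`. -/
def SpEmid : Prop := ∀ (K L Ω M K2 : Type) [Field K] [Field L] [Field Ω] [Field M]
  [Field K2] [Algebra K L] [Algebra K Ω] [Algebra Ω M] [Algebra K K2]
  [Algebra K2 Ω] [IsScalarTower K K2 Ω] (φ : L →+* M),
  (∀ a : K, φ (algebraMap K L a) = algebraMap Ω M (algebraMap K Ω a)) →
  ∀ τ : L, Coord K L τ → Coord Ω M (φ τ) →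
  ∃ (L2 : Type) (_ : Field L2) (_ : Algebra K2 L2) (φ2 : L →+* L2) (ψ : L2 →+* M),
    (∀ x, ψ (φ2 x) = φ x) ∧
    (∀ a : K2, ψ (algebraMap K2 L2 a) = algebraMap Ω M (algebraMap K2 Ω a)) ∧
    (∀ a : K, φ2 (algebraMap K L a) = algebraMap K2 L2 (algebraMap K K2 a)) ∧
    Coord K2 L2 (φ2 τ)

/-- E12: the data are trivial at all discrete valuation rings of `L = K(τ)` whose residue field has
transcendence degree two over `k`. -/
def SpEall : Prop := ∀ (k K L : Type) [Field k] [Field K] [Field L] [Algebra k K] [Algebra K L]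
  [Algebra k L] [IsScalarTower k K L] (d : Dat L) (τ : L), Coord K L τ →
  (∀ x : Fin 3 → K, ¬ AlgebraicIndependent k x) → HDat (K := K) τ d →
  (∀ D : ValuationSubring L, IsDiscV D → (∀ a : K, algebraMap K L a ∈ D) →
    τ⁻¹ ∈ D.nonunits → d.Triv D) →
  CoordTriv k (K := K) d τ → ∀ W : ValuationSubring L, IsDiscV W → Tr2 k W → d.Triv W

end Pool.Agent.H19.UT
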