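import Pool.Agent.H19.UT.SpA

/-!
Project UT: basic facts on `sm`, torsion, data (helper19). Row A00.
-/

set_option autoImplicit false
set_option maxHeartbeats 400000

open Polynomial Pool.Agent.K1

namespace Pool.Agent.H19.UT

section a00

variable {L : Type} [Field L] {D : ValuationSubring L}

theorem smb_of (D : ValuationSubring L) (p : Lˣ × Lˣ) :
    smb D (FreeAbelianGroup.of p) =
      Additive.ofMul (p.1 ^ ordV D (p.2 : L) * p.2 ^ (-(ordV D (p.1 : L)))) :=
  FreeAbelianGroup.lift_apply_of _ _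

theorem sm_of (D : ValuationSubring L) (f g : Lˣ) :
    sm D (FreeAbelianGroup.of (f, g)) = f ^ ordV D (g : L) * g ^ (-(ordV D (f : L))) := by
  unfold sm
  rw [smb_of]
  rfl

theorem sm_add (D : ValuationSubring L) (β β' : Sy L) :
    sm D (β + β') = sm D β * sm D β' := by
  unfold sm
  rw [map_add]
  rfl

theorem sm_zero (D : ValuationSubring L) : sm D (0 : Sy L) = 1 := by
  unfold sm
  rw [map_zero]
  rfl

theorem sm_neg (D : ValuationSubring L) (β : Sy L) : sm D (-β) = (sm D β)⁻¹ := by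
  unfold sm
  rw [map_neg]
  rfl

theorem sm_sub (D : ValuationSubring L) (β β' : Sy L) :
    sm D (β - β') = sm D β * (sm D β')⁻¹ := by
  rw [sub_eq_add_neg, sm_add, sm_neg]

theorem sm_nsmul (D : ValuationSubring L) (n : ℕ) (β : Sy L) :
    sm D (n • β) = sm D β ^ n := by
  unfold sm
  rw [map_nsmul]
  rfl

theorem ordV_pow_nat (hD : IsDiscV D) (f : Lˣ) (n : ℕ) :
    ordV D ((f ^ n : Lˣ) : L) = n * ordV D (f : L) := by
  induction n with
  | zero =>
    rw [pow_zero]
    have h : UnitIn D (1 : Lˣ) := ⟨by rw [Units.val_one]; exact D.one_mem,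
      by rw [inv_one, Units.val_one]; exact D.one_mem⟩
    rw [(unitIn_iff_ordV hD 1).1 h]
    simp
  | succ n ih =>
    rw [pow_succ, Units.val_mul, ordV_mul hD (Units.ne_zero _) (Units.ne_zero _), ih]
    push_cast
    ring

theorem ordV_zpow (hD : IsDiscV D) (f : Lˣ) (n : ℤ) :
    ordV D ((f ^ n : Lˣ) : L) = n * ordV D (f : L) := by
  cases n with
  | ofNat m => rw [Int.ofNat_eq_natCast, zpow_natCast]; exact ordV_pow_nat hD f m
  | negSucc m =>
    rw [zpow_negSucc, Units.val_inv_eq_inv_val, ordV_inv hD (Units.ne_zero _),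
      ordV_pow_nat hD f (m + 1), Int.negSucc_eq]
    push_cast
    ring

theorem unitIn_sm (hD : IsDiscV D) (β : Sy L) : UnitIn D (sm D β) := by
  induction β using FreeAbelianGroup.induction_on with
  | zero =>
    rw [sm_zero]
    exact ⟨by rw [Units.val_one]; exact D.one_mem, by rw [inv_one, Units.val_one]; exact D.one_mem⟩
  | of p =>
    obtain ⟨f, g⟩ := p
    rw [sm_of, unitIn_iff_ordV hD, Units.val_mul, ordV_mul hD (Units.ne_zero _)
      (Units.ne_zero _), ordV_zpow hD, ordV_zpow hD]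
    ring
  | neg p hp =>
    rw [sm_neg]
    exact tord_unitIn_inv hp
  | add x y hx hy =>
    rw [sm_add]
    exact tord_unitIn_mul hx hy

theorem torsV_unitIn {u : Lˣ} (h : TorsV D u) : UnitIn D u := by
  obtain ⟨n, hn, h1⟩ := h
  have h2 : ((u : L) ^ n) ∈ D := by
    have h3 : (u : L) ^ n = ((u : L) ^ n - 1) + 1 := by ring
    rw [h3]
    exact D.add_mem _ _ (ValuationSubring.nonunits_subset h1) D.one_mem
  have h4 : D.valuation (u : L) ^ n = 1 := by
    rw [← map_pow]
    have h5 : D.valuation ((u : L) ^ n) ≤ 1 := (D.valuation_le_one_iff _).2 h2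
    rcases lt_or_eq_of_le h5 with h6 | h6
    · exfalso
      have h7 : (u : L) ^ n ∈ D.nonunits := (D.mem_nonunits_iff).2 h6
      have h8 : (1 : L) ∈ D.nonunits := by
        have h9 := D.nonunits.sub_mem h7 h1
        have h10 : (u : L) ^ n - ((u : L) ^ n - 1) = 1 := by ring
        rwa [h10] at h9
      have h11 := (D.mem_nonunits_iff).1 h8
      rw [map_one] at h11
      exact lt_irrefl _ h11
    · exact h6
  have h5 : D.valuation (u : L) = 1 := by
    rcases lt_trichotomy (D.valuation (u : L)) 1 with h6 | h6 | h6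
    · exact absurd h4 (pow_lt_one₀ zero_le' h6 hn.ne').ne
    · exact h6
    · exact absurd h4 (one_lt_pow₀ h6 hn.ne').ne'
  refine ⟨(D.valuation_le_one_iff _).1 h5.le, (D.valuation_le_one_iff _).1 ?_⟩
  rw [Units.val_inv_eq_inv_val, map_inv₀, h5, inv_one]

theorem nonunits_mul {x y : L} (hx : x ∈ D) (hy : y ∈ D.nonunits) : x * y ∈ D.nonunits := by
  rw [D.mem_nonunits_iff, map_mul]
  have h1 := (D.valuation_le_one_iff x).2 hx
  have h2 := (D.mem_nonunits_iff).1 hy
  calc D.valuation x * D.valuation y ≤ 1 * D.valuation y := by gcongr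
    _ < 1 := by rw [one_mul]; exact h2

/-- if `a ≡ 1` then `a^m ≡ 1` -/
theorem pow_sub_one {a : L} (ha : a ∈ D) (h : a - 1 ∈ D.nonunits) (m : ℕ) :
    a ^ m - 1 ∈ D.nonunits := by
  induction m with
  | zero => rw [pow_zero, sub_self]; exact D.nonunits.zero_mem
  | succ m ih =>
    have h1 : a ^ (m + 1) - 1 = a * (a ^ m - 1) + (a - 1) := by ring
    rw [h1]
    exact D.nonunits.add_mem (nonunits_mul ha ih) h

theorem torsV_mul {u v : Lˣ} (hu : TorsV D u) (hv : TorsV D v) : TorsV D (u * v) := by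
  have hu' := torsV_unitIn hu
  have hv' := torsV_unitIn hv
  obtain ⟨n, hn, h1⟩ := hu
  obtain ⟨m, hm, h2⟩ := hv
  refine ⟨n * m, Nat.mul_pos hn hm, ?_⟩
  have h3 := pow_sub_one (D.pow_mem hu'.1 n) h1 m
  have h4 := pow_sub_one (D.pow_mem hv'.1 m) h2 n
  have h5 : (((u * v : Lˣ) : L)) ^ (n * m) - 1 =
      ((v : L) ^ m) ^ n * (((u : L) ^ n) ^ m - 1) + (((v : L) ^ m) ^ n - 1) := by
    rw [Units.val_mul, mul_pow, ← pow_mul, ← pow_mul, mul_comm m n]
    ring
  rw [h5]
  exact D.nonunits.add_mem (nonunits_mul (D.pow_mem (D.pow_mem hv'.1 m) n) h3) h4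

theorem torsV_inv {u : Lˣ} (hu : TorsV D u) : TorsV D u⁻¹ := by
  have hu' := torsV_unitIn hu
  obtain ⟨n, hn, h1⟩ := hu
  refine ⟨n, hn, ?_⟩
  have h2 : (((u⁻¹ : Lˣ) : L)) ^ n - 1 = (-(((u⁻¹ : Lˣ) : L) ^ n)) * ((u : L) ^ n - 1) := by
    have h3 : ((u⁻¹ : Lˣ) : L) ^ n * (u : L) ^ n = 1 := by
      rw [← mul_pow, Units.inv_mul, one_pow]
    linear_combination h3
  rw [h2]
  exact nonunits_mul (D.neg_mem _ (D.pow_mem hu'.2 n)) h1

theorem torsV_one : TorsV D (1 : Lˣ) := by
  refine ⟨1, one_pos, ?_⟩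
  rw [Units.val_one, one_pow, sub_self]
  exact D.nonunits.zero_mem

theorem torsV_pow {u : Lˣ} (hu : TorsV D u) (n : ℕ) : TorsV D (u ^ n) := by
  induction n with
  | zero => rw [pow_zero]; exact torsV_one
  | succ n ih => rw [pow_succ]; exact torsV_mul ih hu

theorem torsV_zpow {u : Lˣ} (hu : TorsV D u) (n : ℤ) : TorsV D (u ^ n) := by
  cases n with
  | ofNat m => rw [Int.ofNat_eq_natCast, zpow_natCast]; exact torsV_pow hu m
  | negSucc m => rw [zpow_negSucc]; exact torsV_inv (torsV_pow hu _)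

theorem torsV_of_pow {u : Lˣ} {n : ℕ} (hn : 0 < n) (h : TorsV D (u ^ n)) : TorsV D u := by
  obtain ⟨m, hm, h1⟩ := h
  refine ⟨n * m, Nat.mul_pos hn hm, ?_⟩
  rw [Units.val_pow_eq_pow_val, ← pow_mul] at h1
  exact h1

theorem torsV_of_div {u v : Lˣ} (h : TorsV D (u * v⁻¹)) (hv : TorsV D v) : TorsV D u := by
  have h1 := torsV_mul h hv
  rwa [inv_mul_cancel_right] at h1

theorem val_tors (hD : IsDiscV D) (d : Dat L) (i : Fin d.m) (hi : ∀ a ∈ d.A i, a ∈ D) :
    TorsV D (d.val D * (sm D (d.β i))⁻¹) := by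
  have h1 := d.compat D hD (d.idx D) i (d.idx_spec D) hi
  rw [sm_sub] at h1
  exact h1

theorem triv_iff (hD : IsDiscV D) (d : Dat L) (i : Fin d.m) (hi : ∀ a ∈ d.A i, a ∈ D) :
    d.Triv D ↔ TorsV D (sm D (d.β i)) := by
  have h1 := val_tors hD d i hi
  constructor
  · intro h
    have h2 := torsV_mul (torsV_inv h1) h
    have h3 : (d.val D * (sm D (d.β i))⁻¹)⁻¹ * d.val D = sm D (d.β i) := by group
    rwa [h3] at h2
  · intro h
    exact torsV_of_div h1 h

theorem sp_sm : SpSm := by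
  intro L _ D hD
  exact ⟨unitIn_sm hD, sm_add D, sm_neg D, fun n β => sm_nsmul D n β,
    fun u v hu hv => torsV_mul hu hv, fun u hu => torsV_inv hu, fun u hu => torsV_unitIn hu,
    fun u n hn => ⟨torsV_of_pow hn, fun h => torsV_pow h n⟩,
    fun d i hi => ⟨val_tors hD d i hi, triv_iff hD d i hi⟩⟩

end a00

end Pool.Agent.H19.UT
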