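import Pool.Agent.H19.UT.SpC

/-!
Project UT, C04: the values for a coordinate form a cycle (helper9).
-/

set_option autoImplicit false
set_option maxHeartbeats 400000

open Polynomial Pool.Agent.K1

namespace Pool.Agent.H19.UT

/-- Roots of unity are in every valuation ring. -/
theorem c04_mem {K : Type} [Field K] (V : ValuationSubring K) {x : K} {n : ℕ} (hn : 0 < n)
    (hx : x ^ n = 1) : x ∈ V := by
  rcases V.mem_or_inv_mem x with h | h
  · exact h
  · obtain ⟨m, rfl⟩ : ∃ m, n = m + 1 := ⟨n - 1, by omega⟩
    have hx0 : x ≠ 0 := by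
      rintro rfl
      rw [zero_pow (Nat.succ_ne_zero m)] at hx
      exact zero_ne_one hx
    have e : x = x⁻¹ ^ m := by
      have h1 : x * x ^ m = 1 := by
        rw [← pow_succ']
        exact hx
      rw [inv_pow]
      exact eq_inv_of_mul_eq_one_left h1
    rw [e]
    exact pow_mem h m

/-- The constants are in every valuation ring. -/
theorem c04_const {p : ℕ} {k K : Type} [Field k] [Field K] [Algebra k K] (hb : Base p k)
    (V : ValuationSubring K) (c : k) : algebraMap k K c ∈ V := by
  by_cases hc : c = 0
  · subst hc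
    rw [map_zero]
    exact V.zero_mem
  · obtain ⟨n, hn, h1⟩ := hb.tors c hc
    refine c04_mem V hn ?_
    rw [← map_pow, h1, map_one]

theorem sp_gf (h1 : SpOnFacts) (hk : SpConst) (hc : SpCycK) : SpGf := by
  intro p k K L _ _ _ _ _ _ _ hb τ hτ d hd
  have := hb.closed
  have : Infinite k := IsAlgClosed.instInfinite
  constructor
  · classical
    have h : ∀ s : ValuationSubring K, IsDiscV s → ∃ g : Kˣ, IsG d τ s g := fun s hs =>
      hk k K L τ hτ d hd s hs (c04_const hb s)
    refine ⟨fun s => if hs : IsDiscV s then (h s hs).choose else 1, fun s hs => ?_⟩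
    simp only [hs, dif_pos]
    exact (h s hs).choose_spec
  · intro g hg
    have key : ∀ R : Subring K, Reg2 k R → ∀ s : ValuationSubring K, On R s →
        IsG d τ s (g s) := by
      rintro R hR s ⟨f, hf⟩
      exact hg s (((h1 k K R hR).2.2.2.1 f s hf).1)
    exact ⟨fun s hs => (hg s hs).1, fun R hR => (hc k K L τ hτ d hd g R hR (key R hR)).1,
      fun R hR => (hc k K L τ hτ d hd g R hR (key R hR)).2⟩

end Pool.Agent.H19.UT
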