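import Pool.Agent.H19.UT.SpC

/-!
Project UT, row D04: `Fg2` and `Tr1` under finite extensions (helper56).
-/

set_option autoImplicit false
set_option maxHeartbeats 400000

open Polynomial Pool.Agent.K1

namespace Pool.Agent.H19.UT

section d04

theorem d04_fg (k K K2 : Type) [Field k] [Field K] [Field K2] [Algebra k K]
    [Algebra k K2] [Algebra K K2] [IsScalarTower k K K2] [FiniteDimensional K K2]
    (h : ∃ S : Finset K, ∀ E : Subfield K, (∀ c : k, algebraMap k K c ∈ E) → (∀ a ∈ S, a ∈ E) →
      E = ⊤) :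
    ∃ S : Finset K2, ∀ E : Subfield K2, (∀ c : k, algebraMap k K2 c ∈ E) → (∀ a ∈ S, a ∈ E) →
      E = ⊤ := by
  classical
  obtain ⟨S, hS⟩ := h
  obtain ⟨T, hT⟩ := (Module.Finite.fg_top : (⊤ : Submodule K K2).FG)
  refine ⟨S.image (algebraMap K K2) ∪ T, fun E hk hE => ?_⟩
  have h1 : E.comap (algebraMap K K2) = ⊤ := by
    refine hS _ (fun c => ?_) (fun a ha => ?_)
    · rw [Subfield.mem_comap, ← IsScalarTower.algebraMap_apply]
      exact hk c
    · rw [Subfield.mem_comap]
      exact hE _ (Finset.mem_union_left _ (Finset.mem_image_of_mem _ ha))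
  have h2 : ∀ a : K, algebraMap K K2 a ∈ E := by
    intro a
    have h3 : a ∈ E.comap (algebraMap K K2) := by rw [h1]; exact Subfield.mem_top a
    exact h3
  rw [eq_top_iff]
  intro x _
  have hx : x ∈ Submodule.span K (T : Set K2) := by rw [hT]; exact Submodule.mem_top
  induction hx using Submodule.span_induction with
  | mem y hy => exact hE _ (Finset.mem_union_right _ hy)
  | zero => exact E.zero_mem
  | add y z _ _ hy hz => exact E.add_mem (hy (Subfield.mem_top _)) (hz (Subfield.mem_top _))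
  | smul a y _ hy =>
    rw [Algebra.smul_def]
    exact E.mul_mem (h2 a) (hy (Subfield.mem_top _))

theorem d04_dim (k K K2 : Type) [Field k] [Field K] [Field K2] [Algebra k K]
    [Algebra k K2] [Algebra K K2] [IsScalarTower k K K2] [FiniteDimensional K K2]
    (h : ∀ z : Fin 3 → K, ∃ P : MvPolynomial (Fin 3) k, P ≠ 0 ∧ MvPolynomial.aeval z P = 0)
    (z : Fin 3 → K2) : ∃ P : MvPolynomial (Fin 3) k, P ≠ 0 ∧ MvPolynomial.aeval z P = 0 := by
  by_contra hcon
  push Not at hcon
  have hz : AlgebraicIndependent k z := by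
    rw [algebraicIndependent_iff]
    intro P hP
    by_contra hne
    exact hcon P hne hP
  have h1 := hz.cardinalMk_le_trdeg
  have h2 := trdeg_add_eq k K (A := K2)
  have h3 : Algebra.trdeg K K2 = 0 := trdeg_eq_zero
  rw [h3, add_zero] at h2
  obtain ⟨s, hs⟩ := exists_isTranscendenceBasis k K
  rw [← h2, ← hs.cardinalMk_eq_trdeg, Cardinal.le_def] at h1
  obtain ⟨f⟩ := h1
  have h4 := hs.1.comp f f.injective
  obtain ⟨P, hP, hP'⟩ := h (fun i => ((f i : s) : K))
  rw [algebraicIndependent_iff] at h4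
  exact hP (h4 P hP')

theorem d04_alg {k F F' : Type} [Field k] [Field F] [Field F'] (i : k →+* F) (j : F →+* F')
    (h1 : ∀ y : F, ∃ P : k[X], P ≠ 0 ∧ P.eval₂ i y = 0)
    (h2 : ∀ w : F', ∃ P : F[X], P ≠ 0 ∧ P.eval₂ j w = 0) (w : F') :
    ∃ P : k[X], P ≠ 0 ∧ P.eval₂ (j.comp i) w = 0 := by
  let : Algebra k F := i.toAlgebra
  let : Algebra F F' := j.toAlgebra
  let : Algebra k F' := (j.comp i).toAlgebra
  have : IsScalarTower k F F' := IsScalarTower.of_algebraMap_eq (fun _ => rfl)
  have : Algebra.IsAlgebraic k F := ⟨fun y => h1 y⟩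
  have : Algebra.IsAlgebraic F F' := ⟨fun y => h2 y⟩
  exact (Algebra.IsAlgebraic.trans k F F').isAlgebraic w

/-- the inclusion of the restricted valuation ring -/
def d04_inc {K K2 : Type} [Field K] [Field K2] (φ : K →+* K2) (s : ValuationSubring K2) :
    (s.comap φ) →+* s :=
  (φ.comp (s.comap φ).subtype).codRestrict s (fun x => x.2)

theorem d04_inc_val {K K2 : Type} [Field K] [Field K2] (φ : K →+* K2) (s : ValuationSubring K2)
    (x : s.comap φ) : ((d04_inc φ s x : s) : K2) = φ (x : K) := rfl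

instance d04_local {K K2 : Type} [Field K] [Field K2] (φ : K →+* K2)
    (s : ValuationSubring K2) : IsLocalHom (d04_inc φ s) := by
  refine ⟨fun x hx => ?_⟩
  obtain ⟨h1, h2⟩ := tord_isUnit_iff.1 hx
  rw [d04_inc_val] at h1 h2
  refine tord_isUnit_iff.2 ⟨fun h0 => h1 (by rw [h0, map_zero]), ?_⟩
  rw [ValuationSubring.mem_comap, map_inv₀]
  exact h2

theorem d04_res {K : Type} [Field K] (s : ValuationSubring K) (x : s) :
    IsLocalRing.residue s x = 0 ↔ (x : K) ∈ s.nonunits := by
  rw [IsLocalRing.residue_eq_zero_iff, IsLocalRing.mem_maximalIdeal, mem_nonunits_iff,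
    tord_isUnit_iff, tord_nonunits_iff]
  constructor
  · intro h
    by_cases h0 : (x : K) = 0
    · exact Or.inl h0
    · exact Or.inr ⟨x.2, fun h1 => h ⟨h0, h1⟩⟩
  · rintro (h | h) ⟨h1, h2⟩
    · exact h1 h
    · exact h.2 h2

/-- the residue field of `s` is algebraic over the one of the restriction. -/
theorem d04_resalg {K K2 : Type} [Field K] [Field K2] [Algebra K K2]
    [FiniteDimensional K K2] (s : ValuationSubring K2)
    (w : IsLocalRing.ResidueField s) :
    ∃ P : (IsLocalRing.ResidueField (s.comap (algebraMap K K2)))[X], P ≠ 0 ∧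
      P.eval₂ (IsLocalRing.ResidueField.map (d04_inc (algebraMap K K2) s)) w = 0 := by
  classical
  obtain ⟨b, rfl⟩ := IsLocalRing.residue_surjective w
  obtain ⟨p, hp, hpb⟩ := Algebra.IsAlgebraic.isAlgebraic (R := K) (b : K2)
  obtain ⟨i, hi, hmax⟩ := p.support.exists_max_image
    (fun i => (s.comap (algebraMap K K2)).valuation (p.coeff i))
    (Polynomial.support_nonempty.2 hp)
  have hc : p.coeff i ≠ 0 := mem_support_iff.1 hi
  set s0 := s.comap (algebraMap K K2) with hs0
  have hmem : ∀ j, (p.coeff i)⁻¹ * p.coeff j ∈ s0 := by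
    intro j
    rw [← s0.valuation_le_one_iff, map_mul, map_inv₀]
    have h0 : s0.valuation (p.coeff i) ≠ 0 := (Valuation.ne_zero_iff _).2 hc
    by_cases hj : j ∈ p.support
    · calc (s0.valuation (p.coeff i))⁻¹ * s0.valuation (p.coeff j)
          ≤ (s0.valuation (p.coeff i))⁻¹ * s0.valuation (p.coeff i) := by
            gcongr
            exact hmax j hj
        _ = 1 := inv_mul_cancel₀ h0
    · have hj0 : p.coeff j = 0 := by
        by_contra h
        exact hj (mem_support_iff.2 h)
      rw [hj0, map_zero, mul_zero]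
      exact zero_le_one
  let q : s0[X] := ∑ j ∈ p.support, Polynomial.monomial j (⟨_, hmem j⟩ : s0)
  have hq : ∀ j, ((q.coeff j : s0) : K) = (p.coeff i)⁻¹ * p.coeff j := by
    intro j
    have h1 : q.coeff j = ∑ l ∈ p.support, (Polynomial.monomial l (⟨_, hmem l⟩ : s0)).coeff j :=
      Polynomial.finsetSum_coeff _ _ _
    rw [h1]
    by_cases hj : j ∈ p.support
    · rw [Finset.sum_eq_single j]
      · rw [coeff_monomial, if_pos rfl]
      · intro l _ hl
        rw [coeff_monomial, if_neg hl]
      · intro h; exact absurd hj h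
    · have hj0 : p.coeff j = 0 := by
        by_contra h
        exact hj (mem_support_iff.2 h)
      rw [Finset.sum_eq_zero, hj0, mul_zero]
      · rfl
      · intro l hl
        rw [coeff_monomial, if_neg]
        rintro rfl
        exact hj hl
  have hqmap : q.map (s0.subtype) = C (p.coeff i)⁻¹ * p := by
    ext j
    rw [coeff_map, coeff_C_mul]
    exact hq j
  refine ⟨q.map (IsLocalRing.residue s0), ?_, ?_⟩
  · intro h0
    have h1 : (q.map (IsLocalRing.residue s0)).coeff i = 0 := by rw [h0, coeff_zero]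
    rw [coeff_map] at h1
    have h2 : q.coeff i = 1 := by
      apply Subtype.ext
      rw [hq i, inv_mul_cancel₀ hc]
      rfl
    rw [h2, map_one] at h1
    exact one_ne_zero h1
  · rw [eval₂_map]
    have h3 : (IsLocalRing.ResidueField.map (d04_inc (algebraMap K K2) s)).comp
        (IsLocalRing.residue s0) = (IsLocalRing.residue s).comp (d04_inc (algebraMap K K2) s) :=
      IsLocalRing.ResidueField.map_comp_residue _
    rw [h3, ← hom_eval₂]
    have h4 : q.eval₂ (d04_inc (algebraMap K K2) s) b = 0 := by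
      apply Subtype.ext
      have h5 : ((q.eval₂ (d04_inc (algebraMap K K2) s) b : s) : K2) =
          s.subtype (q.eval₂ (d04_inc (algebraMap K K2) s) b) := rfl
      rw [h5, hom_eval₂]
      have h6 : s.subtype.comp (d04_inc (algebraMap K K2) s) =
          (algebraMap K K2).comp s0.subtype := rfl
      rw [h6, ← eval₂_map, hqmap, eval₂_mul, eval₂_C]
      have h7 : p.eval₂ (algebraMap K K2) (s.subtype b) = 0 := hpb
      rw [h7, mul_zero]
      rfl
    rw [h4, map_zero]

theorem d04_disc {K K2 : Type} [Field K] [Field K2] [Algebra K K2]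
    [FiniteDimensional K K2] (s : ValuationSubring K2) (hs : IsDiscV s) :
    IsDiscV (s.comap (algebraMap K K2)) := by
  rcases ram (algebraMap K K2) hs with h | h
  · exfalso
    apply discV_ne_top hs
    rw [eq_top_iff]
    intro x _
    have hK : ∀ a : K, algebraMap K K2 a ∈ s := by
      intro a
      by_cases ha : a = 0
      · rw [ha, map_zero]; exact s.zero_mem
      · rw [mem_iff_ordV hs ((_root_.map_ne_zero (algebraMap K K2)).2 ha)]
        exact (h (Units.mk0 a ha)).ge
    have hint : IsIntegral K x := Algebra.IsIntegral.isIntegral x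
    obtain ⟨p, hp, hpx⟩ := hint
    have h1 : IsIntegral s x := by
      refine ⟨p.map ((algebraMap K K2).codRestrict s hK), hp.map _, ?_⟩
      rw [eval₂_map]
      exact hpx
    obtain ⟨y, hy⟩ := IsIntegrallyClosed.isIntegral_iff.1 h1
    rw [← hy]
    exact y.2
  · exact h.1

theorem d04_tr (k K K2 : Type) [Field k] [Field K] [Field K2] [Algebra k K]
    [Algebra k K2] [Algebra K K2] [IsScalarTower k K K2] [FiniteDimensional K K2]
    (s : ValuationSubring K2) (h : Tr1 k s) : Tr1 k (s.comap (algebraMap K K2)) := by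
  obtain ⟨z, hz⟩ := h
  by_contra hcon
  unfold Tr1 at hcon
  push Not at hcon
  set s0 := s.comap (algebraMap K K2) with hs0
  have hk : ∀ c : k, algebraMap k K c ∈ s0 := by
    intro c
    by_cases hc : c = 0
    · rw [hc, map_zero]; exact s0.zero_mem
    · have h1 := (hz (C c) (C_ne_zero.2 hc)).1
      rw [aeval_C] at h1
      rw [hs0, ValuationSubring.mem_comap, ← IsScalarTower.algebraMap_apply]
      exact h1
  let ι : k →+* s0 := (algebraMap k K).codRestrict s0 hk
  have hι : s0.subtype.comp ι = algebraMap k K := rfl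
  have hzs : z ∈ s := by
    have h1 := (hz X X_ne_zero).1
    rwa [aeval_X] at h1
  have h1 : ∀ y : IsLocalRing.ResidueField s0, ∃ P : k[X], P ≠ 0 ∧
      P.eval₂ ((IsLocalRing.residue s0).comp ι) y = 0 := by
    intro y
    obtain ⟨a, rfl⟩ := IsLocalRing.residue_surjective y
    obtain ⟨P, hP, hP'⟩ := hcon (a : K)
    have h2 : ((P.eval₂ ι a : s0) : K) = aeval (a : K) P := by
      have h3 : ((P.eval₂ ι a : s0) : K) = s0.subtype (P.eval₂ ι a) := rfl
      rw [h3, hom_eval₂, hι]
      rfl
    refine ⟨P, hP, ?_⟩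
    rw [← hom_eval₂, d04_res, h2]
    exact hP' (by rw [← h2]; exact (P.eval₂ ι a).2)
  obtain ⟨P, hP, hP'⟩ := d04_alg _ _ h1 (d04_resalg (K := K) s) (IsLocalRing.residue s ⟨z, hzs⟩)
  have h3 : (IsLocalRing.ResidueField.map (d04_inc (algebraMap K K2) s)).comp
      ((IsLocalRing.residue s0).comp ι) =
      (IsLocalRing.residue s).comp ((d04_inc (algebraMap K K2) s).comp ι) := by
    rw [← RingHom.comp_assoc, IsLocalRing.ResidueField.map_comp_residue, RingHom.comp_assoc]
  rw [h3, ← hom_eval₂, d04_res] at hP'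
  apply (hz P hP).2
  have h4 : ((P.eval₂ ((d04_inc (algebraMap K K2) s).comp ι) ⟨z, hzs⟩ : s) : K2) =
      aeval z P := by
    have h5 : ((P.eval₂ ((d04_inc (algebraMap K K2) s).comp ι) ⟨z, hzs⟩ : s) : K2) =
      s.subtype (P.eval₂ ((d04_inc (algebraMap K K2) s).comp ι) ⟨z, hzs⟩) := rfl
    rw [h5, hom_eval₂]
    have h6 : s.subtype.comp ((d04_inc (algebraMap K K2) s).comp ι) = algebraMap k K2 := by
      rw [IsScalarTower.algebraMap_eq k K K2]
      rfl
    rw [h6]
    rfl
  rw [← h4]
  exact hP'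

end d04

theorem sp_fgext : SpFgExt := by
  intro k K K2 _ _ _ _ _ _ _ _
  exact ⟨fun h => ⟨d04_fg k K K2 h.fg, d04_dim k K K2 h.dim⟩,
    fun s hs => ⟨d04_disc s hs, d04_tr k K K2 s⟩⟩

end Pool.Agent.H19.UT
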