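import Pool.Agent.H19.UT.Basic

/-!
Project UT: twists and pull back of data (helper19).
-/

set_option autoImplicit false
set_option maxHeartbeats 400000

open Polynomial Pool.Agent.K1

namespace Pool.Agent.H19.UT

section tw

variable {L : Type} [Field L]

/-- The data `β_i ↦ N β_i - α`. -/
def Dat.tw (d : Dat L) (N : ℕ) (α : Sy L) : Dat L where
  m := d.m
  A := d.A
  β i := N • d.β i - α
  cover := d.cover
  compat D hD i j hi hj := by
    have h1 : N • d.β i - α - (N • d.β j - α) = N • (d.β i - d.β j) := by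
      rw [nsmul_sub]; abel
    rw [h1, sm_nsmul]
    exact torsV_pow (d.compat D hD i j hi hj) N

theorem Dat.val_tw (d : Dat L) (N : ℕ) (α : Sy L) (D : ValuationSubring L) :
    (d.tw N α).val D = d.val D ^ N * (sm D α)⁻¹ := by
  change sm D (N • d.β (d.idx D) - α) = _
  rw [sm_sub, sm_nsmul]
  rfl

end tw

section ram

variable {L L' : Type} [Field L] [Field L']

/-- Ramification: the restriction of a discrete valuation ring. -/
theorem ram (φ : L →+* L') {D' : ValuationSubring L'} (hD' : IsDiscV D') :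
    (∀ f : Lˣ, ordV D' (φ f) = 0) ∨
      (IsDiscV (D'.comap φ) ∧ ∃ e : ℕ, 0 < e ∧
        ∀ f : Lˣ, ordV D' (φ f) = e * ordV (D'.comap φ) (f : L)) := by
  classical
  by_cases h : ∀ f : Lˣ, ordV D' (φ f) = 0
  · exact Or.inl h
  right
  push Not at h
  obtain ⟨f₀, hf₀⟩ := h
  have hne : ∀ f : Lˣ, φ (f : L) ≠ 0 := fun f => (map_ne_zero φ).2 (Units.ne_zero f)
  have hmul : ∀ f g : Lˣ, ordV D' (φ ((f * g : Lˣ) : L)) = ordV D' (φ f) + ordV D' (φ g) := by
    intro f g
    rw [Units.val_mul, map_mul, ordV_mul hD' (hne f) (hne g)]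
  have hinv : ∀ f : Lˣ, ordV D' (φ ((f⁻¹ : Lˣ) : L)) = - ordV D' (φ f) := by
    intro f
    rw [Units.val_inv_eq_inv_val, map_inv₀, ordV_inv hD' (hne f)]
  have hpow : ∀ (f : Lˣ) (n : ℤ), ordV D' (φ ((f ^ n : Lˣ) : L)) = n * ordV D' (φ f) := by
    intro f n
    have h1 := ordV_zpow hD' (Units.map (φ : L →* L') f) n
    rw [← map_zpow] at h1
    exact h1
  have hex : ∃ n : ℕ, 0 < n ∧ ∃ f : Lˣ, ordV D' (φ f) = n := by
    rcases lt_or_gt_of_ne hf₀ with h1 | h1
    · refine ⟨(ordV D' (φ (f₀⁻¹ : Lˣ))).toNat, ?_, f₀⁻¹, ?_⟩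
      · rw [hinv]; omega
      · rw [hinv]; omega
    · refine ⟨(ordV D' (φ f₀)).toNat, ?_, f₀, ?_⟩
      · omega
      · omega
  obtain ⟨he, π, hπ⟩ := Nat.find_spec hex
  set e := Nat.find hex with hedef
  have hmin : ∀ n : ℕ, 0 < n → (∃ f : Lˣ, ordV D' (φ f) = n) → e ≤ n := fun n hn hf =>
    Nat.find_min' hex ⟨hn, hf⟩
  have hdvd : ∀ f : Lˣ, (e : ℤ) ∣ ordV D' (φ f) := by
    intro f
    by_contra hnd
    have he' : (0 : ℤ) < e := by exact_mod_cast he
    have h1 : 0 ≤ ordV D' (φ f) % e := Int.emod_nonneg _ he'.ne'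
    have h2 : ordV D' (φ f) % e < e := Int.emod_lt_of_pos _ he'
    have h3 : ordV D' (φ f) % e ≠ 0 := fun h => hnd (Int.dvd_of_emod_eq_zero h)
    have h4 := hmin (ordV D' (φ f) % e).toNat (by omega)
      ⟨f * π ^ (-(ordV D' (φ f) / e)), by
        rw [hmul, hpow, hπ]
        have h5 := Int.emod_add_mul_ediv (ordV D' (φ f)) e
        have h6 : ((ordV D' (φ f) % e).toNat : ℤ) = ordV D' (φ f) % e := Int.toNat_of_nonneg h1
        rw [h6]
        linarith⟩
    omega
  have he' : (0 : ℤ) < e := by exact_mod_cast he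
  have hmem : ∀ f : Lˣ, (f : L) ∈ D'.comap φ ↔ 0 ≤ ordV D' (φ f) := by
    intro f
    rw [ValuationSubring.mem_comap, mem_iff_ordV hD' (hne f)]
  have hunit : ∀ f : Lˣ, UnitIn (D'.comap φ) f ↔ ordV D' (φ f) = 0 := by
    intro f
    unfold UnitIn
    rw [hmem, hmem, hinv]
    constructor
    · rintro ⟨h1, h2⟩; omega
    · intro h1; omega
  have hunif : IsUnifV (D'.comap φ) (π : L) := by
    refine ⟨Units.ne_zero π, fun x => ?_⟩
    by_cases hx : x = 0
    · subst hx
      constructor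
      · intro _; exact ⟨0, (D'.comap φ).zero_mem, by rw [mul_zero]⟩
      · intro _; exact (D'.comap φ).nonunits.zero_mem
    · rw [tord_nonunits_iff]
      have h1 : ((Units.mk0 x hx : Lˣ) : L) = x := rfl
      constructor
      · rintro (h | ⟨h2, h3⟩)
        · exact absurd h hx
        · refine ⟨x * (π : L)⁻¹, ?_, ?_⟩
          · have h4 := hmem (Units.mk0 x hx * π⁻¹)
            rw [Units.val_mul, Units.val_inv_eq_inv_val, h1] at h4
            rw [h4]
            have h5 := hmul (Units.mk0 x hx) π⁻¹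
            rw [Units.val_mul, Units.val_inv_eq_inv_val, h1] at h5
            rw [h5]
            have h6 := hinv π
            rw [Units.val_inv_eq_inv_val] at h6
            rw [h6, hπ]
            have h7 : 0 < ordV D' (φ x) := by
              have h8 := (hmem (Units.mk0 x hx)).1 h2
              have h9 : ¬ 0 ≤ ordV D' (φ ((Units.mk0 x hx)⁻¹ : Lˣ)) := by
                rw [← hmem]; exact h3
              rw [hinv] at h9
              rw [h1] at h8 h9
              omega
            have h10 := hdvd (Units.mk0 x hx)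
            rw [h1] at h10
            have h11 := Int.le_of_dvd h7 h10
            omega
          · field_simp
      · rintro ⟨c, hc, rfl⟩
        right
        have hc0 : c ≠ 0 := fun h => hx (by rw [h, mul_zero])
        have h2 : 0 ≤ ordV D' (φ c) := (hmem (Units.mk0 c hc0)).1 hc
        have h3 := hmul π (Units.mk0 c hc0)
        rw [Units.val_mul, hπ] at h3
        have h4 : ((Units.mk0 c hc0 : Lˣ) : L) = c := rfl
        rw [h4] at h3
        constructor
        · exact (hmem (Units.mk0 _ hx)).2 (by rw [h1, h3]; omega)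
        · intro h5
          have h6 := (hmem (Units.mk0 _ hx)⁻¹).1 h5
          rw [hinv, h1, h3] at h6
          omega
  have hdisc : ∀ t : L, t ≠ 0 → ∃ (n : ℤ) (u : Lˣ), UnitIn (D'.comap φ) u ∧
      t = (π : L) ^ n * u ∧ ordV D' (φ t) = e * n := by
    intro t ht
    obtain ⟨n, hn⟩ := hdvd (Units.mk0 t ht)
    refine ⟨n, Units.mk0 t ht * π ^ (-n), (hunit _).2 ?_, ?_, hn⟩
    · rw [hmul, hpow, hn, hπ]; ring
    · rw [Units.val_mul, Units.val_zpow_eq_zpow_val, Units.val_mk0, zpow_neg]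
      have h1 : (π : L) ^ n ≠ 0 := zpow_ne_zero n (Units.ne_zero π)
      field_simp
  refine ⟨⟨π, hunif, fun t ht => ?_⟩, e, he, fun f => ?_⟩
  · obtain ⟨n, u, h1, h2, _⟩ := hdisc t ht
    exact ⟨n, u, h1, h2⟩
  · obtain ⟨n, u, h1, h2, h3⟩ := hdisc f (Units.ne_zero f)
    rw [h3, h2, ordV_eq hunif h1]

theorem Sy.map_of (φ : L →+* L') (f g : Lˣ) :
    Sy.map φ (FreeAbelianGroup.of (f, g)) =
      FreeAbelianGroup.of (Units.map (φ : L →* L') f, Units.map (φ : L →* L') g) := by
  unfold Sy.map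
  rw [FreeAbelianGroup.map_of_apply]
  rfl

/-- Symbols at `D'` of elements of the small field: unramified symbols. -/
theorem sm_map_one (φ : L →+* L') {D' : ValuationSubring L'}
    (h : ∀ f : Lˣ, ordV D' (φ f) = 0) (β : Sy L) : sm D' (Sy.map φ β) = 1 := by
  induction β using FreeAbelianGroup.induction_on with
  | zero => rw [map_zero, sm_zero]
  | of p =>
    obtain ⟨f, g⟩ := p
    rw [Sy.map_of, sm_of]
    have h1 : ((Units.map (φ : L →* L') g : L'ˣ) : L') = φ g := rfl
    have h2 : ((Units.map (φ : L →* L') f : L'ˣ) : L') = φ f := rfl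
    rw [h1, h2, h, h]
    simp
  | neg p hp => rw [map_neg, sm_neg, hp, inv_one]
  | add x y hx hy => rw [map_add, sm_add, hx, hy, one_mul]

/-- Symbols at `D'` of elements of the small field: ramification. -/
theorem sm_map_pow (φ : L →+* L') {D' : ValuationSubring L'} (e : ℕ)
    (h : ∀ f : Lˣ, ordV D' (φ f) = e * ordV (D'.comap φ) (f : L)) (β : Sy L) :
    sm D' (Sy.map φ β) = Units.map (φ : L →* L') (sm (D'.comap φ) β) ^ e := by
  induction β using FreeAbelianGroup.induction_on with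
  | zero => rw [map_zero, sm_zero, sm_zero, map_one, one_pow]
  | of p =>
    obtain ⟨f, g⟩ := p
    rw [Sy.map_of, sm_of, sm_of]
    have h1 : ((Units.map (φ : L →* L') g : L'ˣ) : L') = φ g := rfl
    have h2 : ((Units.map (φ : L →* L') f : L'ˣ) : L') = φ f := rfl
    rw [h1, h2, h, h, map_mul, map_zpow, map_zpow, mul_pow, ← zpow_natCast, ← zpow_natCast,
      ← zpow_mul, ← zpow_mul]
    congr 2
    · ring
    · ring
  | neg p hp => rw [map_neg, sm_neg, hp, sm_neg, map_inv, inv_pow]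
  | add x y hx hy => rw [map_add, sm_add, hx, hy, sm_add, map_mul, mul_pow]

theorem comap_nonunits (φ : L →+* L') (D' : ValuationSubring L') (x : L) :
    x ∈ (D'.comap φ).nonunits ↔ φ x ∈ D'.nonunits := by
  rw [tord_nonunits_iff, tord_nonunits_iff, ValuationSubring.mem_comap,
    ValuationSubring.mem_comap, map_inv₀, map_eq_zero]

theorem torsV_map (φ : L →+* L') (D' : ValuationSubring L') (u : Lˣ) :
    TorsV D' (Units.map (φ : L →* L') u) ↔ TorsV (D'.comap φ) u := by
  unfold TorsV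
  have h1 : ∀ n : ℕ, (((Units.map (φ : L →* L') u : L'ˣ) : L') ^ n - 1) = φ ((u : L) ^ n - 1) := by
    intro n
    rw [map_sub, map_pow, map_one]
    rfl
  simp only [h1, comap_nonunits]

theorem torsV_sm_map (φ : L →+* L') {D' : ValuationSubring L'} (hD' : IsDiscV D') (β : Sy L)
    (h : IsDiscV (D'.comap φ) → TorsV (D'.comap φ) (sm (D'.comap φ) β)) :
    TorsV D' (sm D' (Sy.map φ β)) := by
  rcases ram φ hD' with h1 | ⟨h1, e, he, h2⟩
  · rw [sm_map_one φ h1]; exact torsV_one
  · rw [sm_map_pow φ e h2]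
    exact torsV_pow ((torsV_map φ D' _).2 (h h1)) e

theorem torsV_sm_map_iff (φ : L →+* L') {D' : ValuationSubring L'} (hD' : IsDiscV D')
    (β : Sy L) (h : IsDiscV (D'.comap φ)) :
    TorsV D' (sm D' (Sy.map φ β)) ↔ TorsV (D'.comap φ) (sm (D'.comap φ) β) := by
  rcases ram φ hD' with h1 | ⟨_, e, he, h2⟩
  · exfalso
    obtain ⟨π, hπ, _⟩ := h
    have h3 := (tord_unif_mem hπ).2
    rw [ValuationSubring.mem_comap, map_inv₀, mem_iff_ordV hD' (inv_ne_zero
      ((map_ne_zero φ).2 hπ.1)), ordV_inv hD' ((map_ne_zero φ).2 hπ.1)] at h3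
    have h4 := h1 (Units.mk0 π hπ.1)
    rw [Units.val_mk0] at h4
    rw [h4] at h3
    exact h3 (by simp)
  · rw [sm_map_pow φ e h2]
    constructor
    · intro h3
      exact (torsV_map φ D' _).1 (torsV_of_pow he h3)
    · intro h3
      exact torsV_pow ((torsV_map φ D' _).2 h3) e

open Classical in
/-- Pull back of data. -/
noncomputable def Dat.map (φ : L →+* L') (d : Dat L) : Dat L' where
  m := d.m
  A i := (d.A i).image φ
  β i := Sy.map φ (d.β i)
  cover V := by
    obtain ⟨i, hi⟩ := d.cover (V.comap φ)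
    refine ⟨i, fun a ha => ?_⟩
    obtain ⟨b, hb, rfl⟩ := Finset.mem_image.1 ha
    exact hi b hb
  compat D' hD' i j hi hj := by
    rw [← map_sub]
    refine torsV_sm_map φ hD' _ fun h => d.compat _ h i j (fun a ha => ?_) (fun a ha => ?_)
    · exact hi _ (Finset.mem_image_of_mem _ ha)
    · exact hj _ (Finset.mem_image_of_mem _ ha)

theorem Dat.triv_map (φ : L →+* L') (d : Dat L) {D' : ValuationSubring L'} (hD' : IsDiscV D')
    (h : IsDiscV (D'.comap φ)) : (d.map φ).Triv D' ↔ d.Triv (D'.comap φ) := by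
  have h1 := d.idx_spec (D'.comap φ)
  rw [triv_iff hD' (d.map φ) (d.idx (D'.comap φ)) (fun a ha => by
    classical
    obtain ⟨b, hb, rfl⟩ := Finset.mem_image.1 ha
    exact h1 b hb), triv_iff h d (d.idx (D'.comap φ)) h1]
  exact torsV_sm_map_iff φ hD' _ h

theorem Dat.triv_map_of_le (φ : L →+* L') (d : Dat L) {D' : ValuationSubring L'}
    (hD' : IsDiscV D') (h : ∀ f : L, φ f ∈ D') : (d.map φ).Triv D' := by
  rw [triv_iff hD' (d.map φ) ((d.map φ).idx D') ((d.map φ).idx_spec D')]
  have h1 : ∀ f : Lˣ, ordV D' (φ f) = 0 := by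
    intro f
    have h2 := (mem_iff_ordV hD' ((map_ne_zero φ).2 (Units.ne_zero f))).1 (h f)
    have h3 := (mem_iff_ordV hD' ((map_ne_zero φ).2 (Units.ne_zero f⁻¹))).1 (h _)
    rw [Units.val_inv_eq_inv_val, map_inv₀, ordV_inv hD' ((map_ne_zero φ).2
      (Units.ne_zero f))] at h3
    omega
  change TorsV D' (sm D' (Sy.map φ (d.β _)))
  rw [sm_map_one φ h1]
  exact torsV_one

end ram

end Pool.Agent.H19.UT
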