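import Pool.Agent.H19.UT.SpR

/-!
Project UT, row R08: the valuation ring `s` is a localisation of a finitely generated ring
(helper25).
-/

set_option autoImplicit false
set_option maxHeartbeats 400000

open Polynomial Pool.Agent.K1

namespace Pool.Agent.H19.UT

theorem r08_lift {R1 R2 K : Type} [CommRing R1] [CommRing R2] [Field K] [Algebra R1 K]
    [Algebra R2 K] (f : R1 →+* R2) (hf : ∀ x, algebraMap R2 K (f x) = algebraMap R1 K x) {z : K}
    (h : IsIntegral R1 z) : IsIntegral R2 z := by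
  obtain ⟨p, hp, h1⟩ := h
  refine ⟨p.map f, hp.map f, ?_⟩
  rw [eval₂_map]
  have h2 : (algebraMap R2 K).comp f = algebraMap R1 K := RingHom.ext hf
  rw [h2]
  exact h1

/-- Transitivity of integrality. -/
theorem r08_trans {R1 R2 K : Type} [CommRing R1] [CommRing R2] [Field K] [Algebra R1 K]
    [Algebra R2 K] (h : ∀ a : R2, IsIntegral R1 (algebraMap R2 K a)) {z : K}
    (hz : IsIntegral R2 z) : IsIntegral R1 z := by
  let f : R2 →+* integralClosure R1 K :=
    (algebraMap R2 K).codRestrict (integralClosure R1 K) (fun a => h a)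
  have h1 : IsIntegral (integralClosure R1 K) z := r08_lift f (fun x => rfl) hz
  exact isIntegral_trans (A := integralClosure R1 K) z h1

theorem r08_val {K : Type} [Field K] (s : ValuationSubring K) {z : K} (h : IsIntegral s z) :
    z ∈ s := by
  obtain ⟨y, hy⟩ := (IsIntegrallyClosed.isIntegral_iff (R := s) (K := K)).1 h
  rw [← hy]
  exact y.2

theorem sp_ra1 (h1 : SpRTr) (h2 : SpRInd) (h3 : SpRA0) (h4 : SpRIC) (h5 : SpRDvr) (h6 : SpRMin)
    (h7 : SpRInt) : SpRA1 := by
  intro p k K _ _ _ hB hF s hs u hu hPu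
  have hk := (h1 p k K hB s).1
  obtain ⟨c, hc, -⟩ := id hs
  obtain ⟨ha, hX⟩ := h2 k K s hs hk c u hc hu hPu
  have hcn : c ∈ s.nonunits := tord_unif_nonunit hc
  obtain ⟨A0, hfg0, hc0, hu0, hfr0, hint0⟩ := h3 k K hF c u ha
  have := hB.closed
  obtain ⟨A1, hfg1, hA1⟩ := h4 k K A0 hfg0 hfr0
  have h01 : ∀ a ∈ A0, a ∈ A1 := by
    intro a haA
    rw [hA1]
    exact isIntegral_algebraMap (R := A0) (A := K) (x := ⟨a, haA⟩)
  have hintB : ∀ a ∈ A1, IsIntegral (Algebra.adjoin k ({c, u} : Set K)) a := by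
    intro a haA
    exact r08_trans (R2 := A0) (fun b => hint0 b b.2) ((hA1 a).1 haA)
  have hBs : ∀ b ∈ Algebra.adjoin k ({c, u} : Set K), b ∈ s := by
    intro b hb
    induction hb using Algebra.adjoin_induction with
    | mem x hx =>
      rcases hx with rfl | rfl
      · exact (tord_unif_mem hc).1
      · exact hu
    | algebraMap r => exact hk r
    | add x y _ _ hx hy => exact s.add_mem _ _ hx hy
    | mul x y _ _ hx hy => exact s.mul_mem _ _ hx hy
  have hAs : ∀ a ∈ A1, a ∈ s := by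
    intro a haA
    apply r08_val
    let f : Algebra.adjoin k ({c, u} : Set K) →+* s :=
      { toFun := fun b => ⟨b, hBs b b.2⟩
        map_one' := rfl
        map_mul' := fun _ _ => rfl
        map_zero' := rfl
        map_add' := fun _ _ => rfl }
    exact r08_lift f (fun x => rfl) (hintB a haA)
  let g : A1.toSubring →+* s :=
    { toFun := fun b => ⟨b, hAs b b.2⟩
      map_one' := rfl
      map_mul' := fun _ _ => rfl
      map_zero' := rfl
      map_add' := fun _ _ => rfl }
  let Q : Ideal A1.toSubring := (IsLocalRing.maximalIdeal s).comap g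
  have hQ : ∀ a : A1.toSubring, a ∈ Q ↔ (a : K) ∈ s.nonunits := by
    intro a
    rw [Ideal.mem_comap, ← ValuationSubring.coe_mem_nonunits_iff]
    rfl
  have hQp : Q.IsPrime := Ideal.IsPrime.comap g
  have hQ0 : Q ≠ ⊥ := by
    intro h0
    have h8 : (⟨c, h01 c hc0⟩ : A1.toSubring) ∈ Q := (hQ _).2 hcn
    rw [h0, Ideal.mem_bot] at h8
    exact hc.1 (congrArg Subtype.val h8)
  have hmin := h6 k K s c u hcn ha hX A1.toSubring (fun a => A1.algebraMap_mem a)
    (h01 c hc0) (h01 u hu0) hAs hintB Q hQ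
  have hnoe : IsNoetherianRing A1.toSubring := by
    have h8 : Algebra.FiniteType k A1 := A1.fg_iff_finiteType.1 hfg1
    exact Algebra.FiniteType.isNoetherianRing k A1
  have hcl : ∀ z : K, IsIntegral A1.toSubring z → z ∈ A1.toSubring := by
    intro z hz
    change z ∈ A1
    rw [hA1]
    exact r08_trans (R2 := A1.toSubring) (fun b => (hA1 b).1 b.2) hz
  have hfr : ∀ z : K, ∃ a ∈ A1.toSubring, ∃ d ∈ A1.toSubring, d ≠ 0 ∧ z * d = a := by
    intro z
    obtain ⟨a, haA, d, hdA, hd, h8⟩ := hfr0 z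
    exact ⟨a, h01 a haA, d, h01 d hdA, hd, h8⟩
  obtain ⟨D, hD, hAD, hDQ, hDfr⟩ := h5 K A1.toSubring hnoe hcl hfr Q hQp hQ0 hmin
  have hDs : ∀ z ∈ D, z ∈ s := by
    intro z hz
    obtain ⟨a, d, hd, h8⟩ := hDfr z hz
    have hdn : (d : K) ∉ s.nonunits := fun h9 => hd ((hQ d).2 h9)
    have hd0 : (d : K) ≠ 0 := by
      intro h9
      rw [h9] at hdn
      exact hdn (tord_nonunits_iff.2 (Or.inl rfl))
    have hdi : (d : K)⁻¹ ∈ s := by
      by_contra h9
      exact hdn (tord_nonunits_iff.2 (Or.inr ⟨hAs d d.2, h9⟩))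
    have h9 : z = a * (d : K)⁻¹ := by
      rw [← h8, mul_assoc, mul_inv_cancel₀ hd0, mul_one]
    rw [h9]
    exact s.mul_mem _ _ (hAs a a.2) hdi
  have hsD : s = D := by
    rcases discV_maximal hD hDs with h8 | h8
    · exact h8
    · exact absurd h8 (discV_ne_top hs)
  refine ⟨A1, hfg1, h01 u hu0, hAs, ?_, ?_⟩
  · intro z hz
    rw [hsD] at hz
    obtain ⟨a, d, hd, h8⟩ := hDfr z hz
    exact ⟨a, a.2, d, d.2, fun h9 => hd ((hQ d).2 h9), h8⟩
  · intro a haA
    exact h7 k K s hk c u hcn hu a (hAs a haA) (hintB a haA)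

end Pool.Agent.H19.UT
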