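import Pool.Agent.H19.UT.SpR

/-!
Project UT, row R11: the local ring of a point on the curve.
-/

set_option autoImplicit false
set_option maxHeartbeats 400000

open Polynomial Pool.Agent.K1

namespace Pool.Agent.H19.UT

/-- The constants in the valuation ring. -/
def r11_j {k K : Type} [Field k] [Field K] [Algebra k K] (s : ValuationSubring K)
    (hk : ∀ c : k, algebraMap k K c ∈ s) : k →+* s := (algebraMap k K).codRestrict s hk

theorem r11_residue {K : Type} [Field K] {s : ValuationSubring K} (x : s) :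
    IsLocalRing.residue s x = 0 ↔ (x : K) ∈ s.nonunits := by
  rw [IsLocalRing.residue_eq_zero_iff, ValuationSubring.coe_mem_nonunits_iff]

theorem r11_ev {k K : Type} [Field k] [Field K] [Algebra k K] (s : ValuationSubring K)
    (hk : ∀ c : k, algebraMap k K c ∈ s) (u : s) (P : k[X]) :
    ((P.eval₂ (r11_j s hk) u : s) : K) = aeval (u : K) P := by
  have h := Polynomial.hom_eval₂ P (r11_j s hk) s.subtype u
  rw [Polynomial.aeval_def]
  exact h

theorem r11_ev2 {k K : Type} [Field k] [Field K] [Algebra k K] (s : ValuationSubring K)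
    (hk : ∀ c : k, algebraMap k K c ∈ s) (u a : s) (F : k[X][X]) :
    ((F.eval₂ (eval₂RingHom (r11_j s hk) u) a : s) : K) =
      F.eval₂ ((aeval (u : K) : k[X] →ₐ[k] K) : k[X] →+* K) (a : K) := by
  have h := Polynomial.hom_eval₂ F (eval₂RingHom (r11_j s hk) u) s.subtype a
  have h2 : s.subtype.comp (eval₂RingHom (r11_j s hk) u) =
      ((aeval (u : K) : k[X] →ₐ[k] K) : k[X] →+* K) := by
    apply RingHom.ext
    intro P
    exact r11_ev s hk u P
  rw [h2] at h
  exact h

theorem sp_rpre (h1 : SpRTr) (h8 : SpRA1) (h9 : SpRCur) (h10 : SpRLift) : SpRPre := by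
  intro p k K _ _ _ hB hF s hs u hu hP
  have := hB.closed
  obtain ⟨A, hAfg, huA, hAs, hfrac, hint⟩ := h8 p k K hB hF s hs u hu hP
  have hk := (h1 p k K hB s).1
  let : Algebra k (IsLocalRing.ResidueField s) :=
    ((IsLocalRing.residue s).comp (r11_j s hk)).toAlgebra
  have halg : ∀ a : k, algebraMap k (IsLocalRing.ResidueField s) a =
      IsLocalRing.residue s ⟨algebraMap k K a, hk a⟩ := fun a => rfl
  have halg' : algebraMap k (IsLocalRing.ResidueField s) =
      (IsLocalRing.residue s).comp (r11_j s hk) := rfl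
  -- the map from `A` to the residue field
  let ι : A →+* s :=
    { toFun := fun a => ⟨(a : K), hAs a a.2⟩
      map_one' := rfl
      map_mul' := fun _ _ => rfl
      map_zero' := rfl
      map_add' := fun _ _ => rfl }
  let ρ : A →ₐ[k] IsLocalRing.ResidueField s :=
    { toRingHom := (IsLocalRing.residue s).comp ι
      commutes' := fun c => rfl }
  have hρ : ∀ a : s, (a : K) ∈ A → IsLocalRing.residue s a ∈ ρ.range := by
    intro a ha
    exact ⟨⟨(a : K), ha⟩, rfl⟩
  have hρ' : ∀ z ∈ ρ.range, ∃ a : s, (a : K) ∈ A ∧ IsLocalRing.residue s a = z := by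
    rintro z ⟨a, rfl⟩
    exact ⟨ι a, a.2, rfl⟩
  have hDfg : ρ.range.FG := by
    rw [← Algebra.map_top]
    exact Subalgebra.FG.map _ ((Subalgebra.fg_top A).2 hAfg)
  have hDfr : ∀ z : IsLocalRing.ResidueField s, ∃ a ∈ ρ.range, ∃ d ∈ ρ.range, d ≠ 0 ∧
      z * d = a := by
    intro z
    obtain ⟨x, rfl⟩ := IsLocalRing.residue_surjective z
    obtain ⟨a, ha, d, hd, hdn, hxd⟩ := hfrac x x.2
    refine ⟨_, hρ ⟨a, hAs a ha⟩ ha, _, hρ ⟨d, hAs d hd⟩ hd, ?_, ?_⟩
    · intro h0
      exact hdn ((r11_residue _).1 h0)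
    · rw [← map_mul]
      congr 1
      exact Subtype.ext hxd
  have htr : Transcendental k (IsLocalRing.residue s ⟨u, hu⟩) := by
    rintro ⟨P, hP0, hPt⟩
    apply hP P hP0
    rw [Polynomial.aeval_def, halg', ← Polynomial.hom_eval₂, r11_residue, r11_ev] at hPt
    exact hPt
  have hDint : ∀ a ∈ ρ.range, ∃ F : k[X][X], F.Monic ∧
      F.eval₂ ((aeval (IsLocalRing.residue s ⟨u, hu⟩) :
        k[X] →ₐ[k] IsLocalRing.ResidueField s) : k[X] →+* IsLocalRing.ResidueField s) a = 0 := by
    intro z hz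
    obtain ⟨a, haA, rfl⟩ := hρ' z hz
    obtain ⟨F, hFm, hFn⟩ := hint a haA
    refine ⟨F, hFm, ?_⟩
    have h2 : ((aeval (IsLocalRing.residue s ⟨u, hu⟩) :
        k[X] →ₐ[k] IsLocalRing.ResidueField s) : k[X] →+* IsLocalRing.ResidueField s) =
        (IsLocalRing.residue s).comp (eval₂RingHom (r11_j s hk) ⟨u, hu⟩) := by
      apply RingHom.ext
      intro P
      change aeval (IsLocalRing.residue s ⟨u, hu⟩) P =
        IsLocalRing.residue s (P.eval₂ (r11_j s hk) ⟨u, hu⟩)
      rw [Polynomial.aeval_def, halg', ← Polynomial.hom_eval₂]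
    rw [h2, ← Polynomial.hom_eval₂, r11_residue, r11_ev2]
    exact hFn
  obtain ⟨C, b, hCfg, hDC, hb, hCb, htb, hbfr⟩ := h9 k (IsLocalRing.ResidueField s) ρ.range hDfg
    hDfr _ (hρ ⟨u, hu⟩ huA) htr hDint
  exact h10 k K s hk hs halg A C b ⟨u, hu⟩ hAfg hAs hfrac huA hCfg
    (fun a ha => hDC (hρ a ha)) hb hCb htb hbfr

end Pool.Agent.H19.UT
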