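import Pool.Agent.H19.UT.SpE2
import Mathlib.RingTheory.AlgebraicIndependent.AlgebraicClosure
import Mathlib.RingTheory.AlgebraicIndependent.TranscendenceBasis
import Mathlib.RingTheory.AlgebraicIndependent.Transcendental

/-!
Project UT, row E04: the residue fields of `W` and of `W ∩ K` (helper89).
-/

set_option autoImplicit false
set_option maxHeartbeats 400000

open Polynomial Pool.Agent.K1

namespace Pool.Agent.H19.UT

open Cardinal in
/-- The field theoretic part. -/
theorem e04_fields (k F G : Type) [Field k] [Field F] [Field G] [Algebra k F] [Algebra F G]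
    [Algebra k G] [IsScalarTower k F G] (z : Fin 2 → G) (hz : AlgebraicIndependent k z)
    (hF : ¬ ∃ x : Fin 2 → F, AlgebraicIndependent k x) (hd : ¬ AlgebraicIndependent F z) :
    (∃ x : F, Transcendental k x) ∧ ∃ y : G, Transcendental F y := by
  constructor
  · by_contra h
    push Not at h
    have halg : Algebra.IsAlgebraic k F := ⟨fun x => by
      have := h x
      rwa [Transcendental, not_not] at this⟩
    exact hd (hz.extendScalars F)
  · by_contra h
    push Not at h
    have halg : Algebra.IsAlgebraic F G := ⟨fun x => by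
      have := h x
      rwa [Transcendental, not_not] at this⟩
    have h0 : Algebra.trdeg F G = 0 := trdeg_eq_zero
    have h1 : Algebra.trdeg k F = Algebra.trdeg k G := by
      rw [← trdeg_add_eq k F (A := G), h0, add_zero]
    have h2 : (2 : Cardinal) ≤ Algebra.trdeg k G := by
      have := hz.cardinalMk_le_trdeg
      simpa using this
    obtain ⟨s, hs⟩ := exists_isTranscendenceBasis k F
    have h3 : (2 : Cardinal) ≤ #s := by
      rw [hs.cardinalMk_eq_trdeg, h1]; exact h2
    have h4 : #(Fin 2) ≤ #s := by simpa using h3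
    obtain ⟨f⟩ := Cardinal.le_def _ _ |>.1 h4
    exact hF ⟨fun i => ((f i : s) : F), hs.1.comp f f.injective⟩

section residue

variable {k K : Type} [Field k] [Field K] [Algebra k K] (A : ValuationSubring K)

/-- The constants of `A`. -/
theorem e04_aeval {σ : Type} (i : k →+* A) (hi : ∀ c, ((i c : A) : K) = algebraMap k K c)
    (x : σ → A) (P : MvPolynomial σ k) :
    MvPolynomial.aeval (fun j => (x j : K)) P = ((MvPolynomial.eval₂ i x P : A) : K) := by
  rw [MvPolynomial.aeval_def]
  have h1 : (algebraMap k K) = A.subtype.comp i := RingHom.ext (fun c => (hi c).symm)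
  rw [h1]
  have := MvPolynomial.eval₂_comp_left A.subtype i x P
  exact this.symm

omit [Algebra k K] in
theorem e04_res {σ : Type} (i : k →+* A) (x : σ → A) (P : MvPolynomial σ k) :
    IsLocalRing.residue A (MvPolynomial.eval₂ i x P) =
      MvPolynomial.eval₂ ((IsLocalRing.residue A).comp i)
        (fun j => IsLocalRing.residue A (x j)) P :=
  MvPolynomial.eval₂_comp_left (IsLocalRing.residue A) i x P

theorem e04_non (a : A) : (a : K) ∈ A.nonunits ↔ IsLocalRing.residue A a = 0 := by
  rw [ValuationSubring.coe_mem_nonunits_iff, IsLocalRing.residue_eq_zero_iff]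

end residue

theorem e_res : SpEres := by
  intro k K L _ _ _ _ _ _ _ W hW hs hrel
  obtain ⟨z, hz⟩ := hW
  set s : ValuationSubring K := W.comap (algebraMap K L) with hsdef
  -- constants
  have hkW : ∀ c : k, algebraMap k L c ∈ W := by
    intro c
    by_cases hc : c = 0
    · rw [hc, map_zero]; exact W.zero_mem
    · have := (hz (MvPolynomial.C c) (by simpa using hc)).1
      simpa using this
  have hks : ∀ c : k, algebraMap k K c ∈ s := by
    intro c
    rw [hsdef, ValuationSubring.mem_comap, ← IsScalarTower.algebraMap_apply k K L]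
    exact hkW c
  have hzW : ∀ j, z j ∈ W := by
    intro j
    have := (hz (MvPolynomial.X j) (MvPolynomial.X_ne_zero j)).1
    simpa using this
  let ik : k →+* s := (algebraMap k K).codRestrict s.toSubring hks
  let js : s →+* W := ((algebraMap K L).comp s.subtype).codRestrict W.toSubring
    (fun a => ValuationSubring.mem_comap.1 a.2)
  have hik : ∀ c, ((ik c : s) : K) = algebraMap k K c := fun c => rfl
  have hjs : ∀ a : s, ((js a : W) : L) = algebraMap K L (a : K) := fun a => rfl
  have hloc : IsLocalHom js := by
    refine ⟨fun a ha => ?_⟩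
    by_contra hna
    have h1 : a ∈ IsLocalRing.maximalIdeal s := (IsLocalRing.mem_maximalIdeal _).2 hna
    have h2 : (a : K) ∈ s.nonunits := (ValuationSubring.coe_mem_nonunits_iff).2 h1
    have h3 : ((js a : W) : L) ∈ W.nonunits := (comap_nonunits (algebraMap K L) W (a : K)).1 h2
    have h4 := (ValuationSubring.coe_mem_nonunits_iff).1 h3
    exact (IsLocalRing.mem_maximalIdeal _).1 h4 ha
  let F := IsLocalRing.ResidueField s
  let G := IsLocalRing.ResidueField W
  let rs : s →+* F := IsLocalRing.residue s
  let rW : W →+* G := IsLocalRing.residue W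
  let jF : F →+* G := IsLocalRing.ResidueField.map js
  have hjF : ∀ a : s, jF (rs a) = rW (js a) := fun a => IsLocalRing.ResidueField.map_residue js a
  let aF : Algebra k F := (rs.comp ik).toAlgebra
  let aG : Algebra F G := jF.toAlgebra
  let akG : Algebra k G := ((rW.comp js).comp ik).toAlgebra
  have : IsScalarTower k F G := IsScalarTower.of_algebraMap_eq (fun c => (hjF (ik c)).symm)
  -- z over k
  have hind : AlgebraicIndependent k (fun j => rW ⟨z j, hzW j⟩) := by
    rw [algebraicIndependent_iff]
    intro P hP
    by_contra hne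
    obtain ⟨h1, h2⟩ := hz P hne
    apply h2
    have h3 := e04_aeval W (js.comp ik) (fun c => by
      rw [RingHom.comp_apply, hjs, hik, ← IsScalarTower.algebraMap_apply k K L])
      (fun j => (⟨z j, hzW j⟩ : W)) P
    rw [h3, e04_non, e04_res]
    exact hP
  have hF : ¬ ∃ x : Fin 2 → F, AlgebraicIndependent k x := by
    rintro ⟨x, hx⟩
    apply hs
    choose y hy using fun j => IsLocalRing.residue_surjective (x j)
    refine ⟨fun j => (y j : K), fun P hP => ?_⟩
    rw [e04_aeval s ik hik y P]
    refine ⟨SetLike.coe_mem _, ?_⟩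
    rw [e04_non, e04_res]
    intro h0
    apply hP
    rw [algebraicIndependent_iff] at hx
    apply hx P
    have h5 : (fun j => IsLocalRing.residue s (y j)) = x := funext hy
    rw [h5] at h0
    exact h0
  have hd : ¬ AlgebraicIndependent F (fun j => rW ⟨z j, hzW j⟩) := by
    intro hx
    obtain ⟨P, hP1, ⟨m, hm⟩, hP3⟩ := hrel z
    -- the polynomial over s
    obtain ⟨Q, hQ⟩ : ∃ Q : MvPolynomial (Fin 2) s, MvPolynomial.map s.subtype Q = P := by
      have : P ∈ Set.range (MvPolynomial.map (σ := Fin 2) s.subtype) := by
        rw [MvPolynomial.mem_range_map_iff_coeffs_subset]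
        intro c hc
        simp only [MvPolynomial.coeffs, Finset.coe_image, Set.mem_image] at hc
        obtain ⟨m', -, rfl⟩ := hc
        exact ⟨⟨_, hP1 m'⟩, rfl⟩
      exact this
    have hcQ : ∀ m', ((Q.coeff m' : s) : K) = P.coeff m' := by
      intro m'
      rw [← hQ, MvPolynomial.coeff_map]; rfl
    have h0 : MvPolynomial.eval₂ js (fun j => (⟨z j, hzW j⟩ : W)) Q = 0 := by
      apply Subtype.ext
      have h1 : ((MvPolynomial.eval₂ js (fun j => (⟨z j, hzW j⟩ : W)) Q : W) : L) =
          MvPolynomial.aeval z P := by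
        have h2 := MvPolynomial.eval₂_comp_left W.subtype js (fun j => (⟨z j, hzW j⟩ : W)) Q
        rw [MvPolynomial.aeval_def, ← hQ, MvPolynomial.eval₂_map]
        exact h2
      rw [h1, hP3]; rfl
    have h1 : MvPolynomial.aeval (fun j => rW ⟨z j, hzW j⟩) (MvPolynomial.map rs Q) = 0 := by
      have h2 := MvPolynomial.eval₂_comp_left rW js (fun j => (⟨z j, hzW j⟩ : W)) Q
      rw [h0, map_zero] at h2
      rw [MvPolynomial.aeval_def, MvPolynomial.eval₂_map]
      have h3 : (algebraMap F G).comp rs = rW.comp js := RingHom.ext hjF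
      rw [h3]
      exact h2.symm
    have h2 : MvPolynomial.map rs Q = 0 := by
      rw [algebraicIndependent_iff] at hx
      exact hx _ h1
    apply hm
    rw [← hcQ, e04_non]
    have := congrArg (MvPolynomial.coeff m) h2
    rw [MvPolynomial.coeff_map, MvPolynomial.coeff_zero] at this
    exact this
  obtain ⟨⟨x, hx⟩, ⟨y, hy⟩⟩ := e04_fields k F G _ hind hF hd
  constructor
  · obtain ⟨x', hx'⟩ := IsLocalRing.residue_surjective x
    refine ⟨(x' : K), fun P hP => ?_⟩
    have h1 : aeval (x' : K) P = ((eval₂ ik x' P : s) : K) := by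
      have h2 := Polynomial.hom_eval₂ P ik s.subtype x'
      rw [aeval_def]
      exact h2.symm
    rw [h1]
    refine ⟨SetLike.coe_mem _, ?_⟩
    rw [e04_non]
    intro h0
    have h3 := Polynomial.hom_eval₂ P ik rs x'
    have h4 : rs (eval₂ ik x' P) = 0 := h0
    rw [h4] at h3
    apply (transcendental_iff.1 hx) P |>.mt hP
    rw [aeval_def]
    have h5 : rs x' = x := hx'
    rw [h5] at h3
    exact h3.symm
  · obtain ⟨y', hy'⟩ := IsLocalRing.residue_surjective y
    refine ⟨(y' : L), fun P hP => ?_⟩
    obtain ⟨Q, hQ⟩ : ∃ Q : s[X], Q.map s.subtype = P := by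
      have : P ∈ Polynomial.lifts s.subtype := by
        rw [Polynomial.lifts_iff_coeff_lifts]
        intro n
        exact ⟨⟨_, hP n⟩, rfl⟩
      rwa [Polynomial.mem_lifts] at this
    have hcQ : ∀ n, ((Q.coeff n : s) : K) = P.coeff n := by
      intro n
      rw [← hQ, coeff_map]; rfl
    have h1 : aeval (y' : L) P = ((eval₂ js y' Q : W) : L) := by
      have h2 := Polynomial.hom_eval₂ Q js W.subtype y'
      rw [aeval_def, ← hQ, eval₂_map]
      exact h2.symm
    have h2 : rW (eval₂ js y' Q) = aeval y (Q.map rs) := by
      have h3 := Polynomial.hom_eval₂ Q js rW y'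
      have h5 : rW y' = y := hy'
      have h6 : (algebraMap F G).comp rs = rW.comp js := RingHom.ext hjF
      rw [h3, aeval_def, eval₂_map, h6, h5]
    rw [h1]
    refine ⟨SetLike.coe_mem _, ?_⟩
    rw [e04_non]
    change rW (eval₂ js y' Q) = 0 ↔ _
    rw [h2]
    constructor
    · intro h0 n
      have h3 := (transcendental_iff.1 hy) _ h0
      rw [← hcQ, e04_non]
      have h7 : (Q.map rs).coeff n = (0 : F[X]).coeff n := by rw [h3]
      rw [coeff_map, coeff_zero] at h7
      exact h7
    · intro h0
      have h3 : Q.map rs = 0 := by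
        ext n
        rw [coeff_map, coeff_zero]
        have := h0 n
        rw [← hcQ, e04_non] at this
        exact this
      rw [h3, map_zero]

end Pool.Agent.H19.UT
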