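import Pool.Agent.H19.UT.SpE2

/-!
Project UT, row E01: base change of the coefficients (helper76).
-/

set_option autoImplicit false
set_option maxHeartbeats 400000

open Polynomial Pool.Agent.K1

namespace Pool.Agent.H19.UT

/-- the rational function field is the fraction field of the polynomial ring -/
theorem e01_frac {K L : Type} [Field K] [Field L] [Algebra K L] {τ : L} (h : Coord K L τ) :
    letI : Algebra K[X] L := (aeval τ : K[X] →ₐ[K] L).toRingHom.toAlgebra
    IsFractionRing K[X] L := by
  letI : Algebra K[X] L := (aeval τ : K[X] →ₐ[K] L).toRingHom.toAlgebra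
  have hinj : Function.Injective (algebraMap K[X] L) :=
    transcendental_iff_injective.1 h.1
  haveI : FaithfulSMul K[X] L := (faithfulSMul_iff_algebraMap_injective K[X] L).2 hinj
  apply IsFractionRing.of_field
  intro f
  obtain ⟨P, Q, hQ, hPQ⟩ := h.2 f
  refine ⟨P, Q, ?_⟩
  change f = aeval τ P / aeval τ Q
  rw [eq_div_iff hQ]
  exact hPQ

theorem e01_aeval {Ω : Type} [Field Ω] (P : (Polynomial Ω)) :
    aeval (RatFunc.X : RatFunc Ω) P = algebraMap (Polynomial Ω) (RatFunc Ω) P := by
  have h : (aeval (RatFunc.X : RatFunc Ω) : (Polynomial Ω) →ₐ[Ω] RatFunc Ω) =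
      IsScalarTower.toAlgHom Ω (Polynomial Ω) (RatFunc Ω) := by
    apply Polynomial.algHom_ext
    rw [aeval_X, IsScalarTower.toAlgHom_apply, RatFunc.algebraMap_X]
  rw [h]
  rfl

theorem e01_coord (Ω : Type) [Field Ω] : Coord Ω (RatFunc Ω) RatFunc.X := by
  refine ⟨RatFunc.transcendental_X, fun f => ⟨f.num, f.denom, ?_, ?_⟩⟩
  · rw [e01_aeval]
    intro h0
    exact f.denom_ne_zero ((map_eq_zero_iff _ (RatFunc.algebraMap_injective Ω)).1 h0)
  · rw [e01_aeval, e01_aeval]
    have h1 : algebraMap (Polynomial Ω) (RatFunc Ω) f.denom ≠ 0 := by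
      intro h0
      exact f.denom_ne_zero ((map_eq_zero_iff _ (RatFunc.algebraMap_injective Ω)).1 h0)
    have h2 := RatFunc.num_div_denom f
    rw [div_eq_iff h1] at h2
    exact h2.symm

/-- E01 -/
theorem e_bc : SpEbc := by
  intro K L Ω _ _ _ _ _ _ τ h
  letI : Algebra K[X] L := (aeval τ : K[X] →ₐ[K] L).toRingHom.toAlgebra
  haveI : IsFractionRing K[X] L := e01_frac h
  set g : K[X] →+* RatFunc Ω :=
    (algebraMap (Polynomial Ω) (RatFunc Ω)).comp (Polynomial.mapRingHom (algebraMap K Ω)) with hg
  have hginj : Function.Injective g := by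
    rw [hg, RingHom.coe_comp]
    exact (RatFunc.algebraMap_injective Ω).comp
      (Polynomial.map_injective _ (algebraMap K Ω).injective)
  set φ : L →+* RatFunc Ω := IsFractionRing.lift hginj with hφ
  have hφg : ∀ P : K[X], φ (aeval τ P) = g P := fun P => IsFractionRing.lift_algebraMap hginj P
  have hφK : ∀ a : K, φ (algebraMap K L a) = algebraMap Ω (RatFunc Ω) (algebraMap K Ω a) := by
    intro a
    have h1 := hφg (C a)
    rw [aeval_C] at h1
    rw [h1, hg, RingHom.comp_apply, coe_mapRingHom, map_C, RatFunc.algebraMap_C]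
    rfl
  have hφτ : φ τ = RatFunc.X := by
    have h1 := hφg X
    rw [aeval_X] at h1
    rw [h1, hg, RingHom.comp_apply, coe_mapRingHom, map_X, RatFunc.algebraMap_X]
  refine ⟨RatFunc Ω, inferInstance, inferInstance, φ, hφK, ?_, ?_⟩
  · rw [hφτ]
    exact e01_coord Ω
  · letI : Algebra L (RatFunc Ω) := φ.toAlgebra
    have hX : IsAlgebraic L (RatFunc.X : RatFunc Ω) := by
      rw [← hφτ]
      exact isAlgebraic_algebraMap τ
    have hC : ∀ c : Ω, IsAlgebraic L (algebraMap Ω (RatFunc Ω) c) := by
      intro c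
      obtain ⟨p, hp, hp0⟩ := Algebra.IsAlgebraic.isAlgebraic (R := K) c
      refine ⟨p.map (algebraMap K L), ?_, ?_⟩
      · rw [Ne, Polynomial.map_eq_zero]
        exact hp
      · rw [aeval_def, eval₂_map]
        have h1 : (algebraMap L (RatFunc Ω)).comp (algebraMap K L) =
            (algebraMap Ω (RatFunc Ω)).comp (algebraMap K Ω) := by
          ext a
          exact hφK a
        rw [h1, ← hom_eval₂, ← aeval_def, hp0, map_zero]
    have hP : ∀ P : (Polynomial Ω), IsAlgebraic L (algebraMap (Polynomial Ω) (RatFunc Ω) P) := by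
      intro P
      induction P using Polynomial.induction_on' with
      | add p q hp hq =>
        rw [map_add]
        exact hp.add hq
      | monomial n a =>
        rw [← C_mul_X_pow_eq_monomial, map_mul, map_pow, RatFunc.algebraMap_X,
          RatFunc.algebraMap_C]
        exact (hC a).mul (hX.pow n)
    intro x
    have hx : IsAlgebraic L x := by
      rw [← RatFunc.num_div_denom x, div_eq_mul_inv]
      exact (hP _).mul (hP _).inv
    obtain ⟨P, hP0, hPx⟩ := hx
    exact ⟨P, hP0, hPx⟩

end Pool.Agent.H19.UT
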