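import Pool.Agent.H19.UT.SpE2

/-!
Project UT, row E10: the restriction to a finite extension `K2` of `K` is discrete (helper84).
-/

set_option autoImplicit false
set_option maxHeartbeats 400000

open Polynomial Pool.Agent.K1

namespace Pool.Agent.H19.UT

section e10

/-- The ultrametric inequality. -/
theorem e10_um {M : Type} [Field M] (V : ValuationSubring M) (v : Mˣ → ℚ)
    (hmul : ∀ a b, v (a * b) = v a + v b) (hmem : ∀ a : Mˣ, (a : M) ∈ V ↔ 0 ≤ v a)
    (a b c : Mˣ) (h : (a : M) + b = c) : v a ≤ v c ∨ v b ≤ v c := by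
  have key : ∀ a b c : Mˣ, (a : M) + b = c → v a ≤ v b → v a ≤ v c := by
    intro a b c h hab
    have hd : ∀ x : Mˣ, v (x * a⁻¹) = v x - v a := by
      intro x
      have h1 := hmul (x * a⁻¹) a
      rw [inv_mul_cancel_right] at h1
      linarith
    have h1 : ((b * a⁻¹ : Mˣ) : M) ∈ V := (hmem _).2 (by rw [hd]; linarith)
    have h2 : ((c * a⁻¹ : Mˣ) : M) = 1 + ((b * a⁻¹ : Mˣ) : M) := by
      rw [Units.val_mul, Units.val_mul, ← h, add_mul, Units.mul_inv]
    have h3 : ((c * a⁻¹ : Mˣ) : M) ∈ V := by
      rw [h2]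
      exact V.add_mem _ _ V.one_mem h1
    have h4 := (hmem _).1 h3
    rw [hd] at h4
    linarith
  rcases le_total (v a) (v b) with h1 | h1
  · exact Or.inl (key a b c h h1)
  · exact Or.inr (key b a c (by rw [add_comm]; exact h) h1)

/-- The two-valuation with second component zero. -/
noncomputable def e10_tv {M : Type} [Field M] (V : ValuationSubring M) (v : Mˣ → ℚ)
    (hmul : ∀ a b, v (a * b) = v a + v b) (hmem : ∀ a : Mˣ, (a : M) ∈ V ↔ 0 ≤ v a)
    (e : ℚ) (he : 0 < e) : TwoVal M where
  w1 a := v a / e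
  w2 _ := 0
  mul1 a b := by rw [hmul, add_div]
  mul2 a b := by rw [add_zero]
  add a b c h := by
    rcases e10_um V v hmul hmem a b c h with h1 | h1
    · left
      rcases lt_or_eq_of_le h1 with h2 | h2
      · left
        exact div_lt_div_of_pos_right h2 he
      · right
        exact ⟨by rw [h2], le_refl _⟩
    · right
      rcases lt_or_eq_of_le h1 with h2 | h2
      · left
        exact div_lt_div_of_pos_right h2 he
      · right
        exact ⟨by rw [h2], le_refl _⟩

theorem e_disc (h : SpExtDisc) : SpEdisc := by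
  intro k K L Ω M K2 _ _ _ _ _ _ _ _ _ _ _ _ _ _ _ _ φ hφ W hW hWK V v hVW hmul hmem hv
  rcases ram (algebraMap K L) hW with h1 | ⟨hs, e, he, h2⟩
  · exfalso
    obtain ⟨a, ha⟩ := hWK
    by_cases ha0 : a = 0
    · subst ha0
      exact ha (by rw [map_zero]; exact W.zero_mem)
    · have h3 := h1 (Units.mk0 a ha0)
      rw [Units.val_mk0] at h3
      exact ha ((mem_iff_ordV hW ((map_ne_zero (algebraMap K L)).2 ha0)).2 (by rw [h3]))
  · have he' : (0 : ℚ) < (e : ℚ) := by exact_mod_cast he
    let ι : K2 →+* M := (algebraMap Ω M).comp (algebraMap K2 Ω)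
    let w : TwoVal K2 := (e10_tv V v hmul hmem (e : ℚ) he').comap ι
    have hw : ∀ f : Kˣ, w.w1 (Units.map (algebraMap K K2 : K →* K2) f) =
        (ordV (W.comap (algebraMap K L)) (f : K) : ℚ) := by
      intro f
      change v (Units.map (ι : K2 →* M) (Units.map (algebraMap K K2 : K →* K2) f)) / (e : ℚ) = _
      have h3 : Units.map (ι : K2 →* M) (Units.map (algebraMap K K2 : K →* K2) f) =
          Units.map (φ : L →* M) (Units.map (algebraMap K L : K →* L) f) := by
        ext
        change algebraMap Ω M (algebraMap K2 Ω (algebraMap K K2 (f : K))) =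
          φ (algebraMap K L (f : K))
        rw [hφ, ← IsScalarTower.algebraMap_apply K K2 Ω]
      rw [h3, hv]
      have h4 : ((Units.map (algebraMap K L : K →* L) f : Lˣ) : L) = algebraMap K L (f : K) := rfl
      rw [h4, h2 f]
      push_cast
      field_simp
    obtain ⟨D', e', hD', hcomap, he'0, hw1⟩ := h K K2 (W.comap (algebraMap K L)) hs w hw
    have hDD : D' = (V.comap (algebraMap Ω M)).comap (algebraMap K2 Ω) := by
      ext x
      by_cases hx : x = 0
      · subst hx
        exact ⟨fun _ => ((V.comap (algebraMap Ω M)).comap (algebraMap K2 Ω)).zero_mem,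
          fun _ => D'.zero_mem⟩
      · have h3 := hw1 (Units.mk0 x hx)
        have h4 : w.w1 (Units.mk0 x hx) = v (Units.map (ι : K2 →* M) (Units.mk0 x hx)) / (e : ℚ) :=
          rfl
        have h5 := hmem (Units.map (ι : K2 →* M) (Units.mk0 x hx))
        have h6 : ((Units.map (ι : K2 →* M) (Units.mk0 x hx) : Mˣ) : M) =
          algebraMap Ω M (algebraMap K2 Ω x) := rfl
        rw [h6] at h5
        rw [ValuationSubring.mem_comap, ValuationSubring.mem_comap, h5, mem_iff_ordV hD' hx]
        rw [h4, Units.val_mk0] at h3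
        have h7 : v (Units.map (ι : K2 →* M) (Units.mk0 x hx)) =
            (e' * (e : ℚ)) * (ordV D' x : ℚ) := by
          field_simp at h3
          linarith
        rw [h7]
        have h8 : (0 : ℚ) < e' * (e : ℚ) := mul_pos he'0 he'
        rw [mul_nonneg_iff_of_pos_left h8]
        exact_mod_cast Iff.rfl
    rw [← hDD]
    refine ⟨hD', ?_⟩
    rintro ⟨z, hz⟩
    refine ⟨algebraMap K K2 z, fun P hP => ?_⟩
    obtain ⟨h3, h4⟩ := hz P hP
    rw [← hcomap] at h3 h4
    have h5 : aeval (algebraMap K K2 z) P = algebraMap K K2 (aeval z P) :=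
      Polynomial.aeval_algebraMap_apply K2 z P
    rw [h5]
    rw [comap_nonunits] at h4
    exact ⟨h3, h4⟩

end e10

end Pool.Agent.H19.UT
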