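import Pool.Agent.H19.UT.SpF

/-!
Project UT, row F06: a rational valuation on a finite extension of a discretely valued field is
discrete (helper88).
-/

set_option autoImplicit false
set_option maxHeartbeats 400000

open Polynomial Pool.Agent.K1

namespace Pool.Agent.H19.UT

section

variable {E : Type} [Field E] (w : TwoVal E)

theorem f06_one : w.w1 1 = 0 := by
  have h := w.mul1 1 1
  rw [mul_one] at h
  linarith

theorem f06_inv (a : Eˣ) : w.w1 a⁻¹ = - w.w1 a := by
  have h := w.mul1 a a⁻¹
  rw [mul_inv_cancel, f06_one] at h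
  linarith

theorem f06_pow (a : Eˣ) (n : ℕ) : w.w1 (a ^ n) = n * w.w1 a := by
  induction n with
  | zero => simp [f06_one]
  | succ n ih => rw [pow_succ, w.mul1, ih]; push_cast; ring

theorem f06_zpow (a : Eˣ) (n : ℤ) : w.w1 (a ^ n) = n * w.w1 a := by
  cases n with
  | ofNat n => simpa using f06_pow w a n
  | negSucc n =>
    rw [zpow_negSucc, f06_inv, f06_pow]
    push_cast
    ring

theorem f06_neg (a : Eˣ) : w.w1 (-a) = w.w1 a := by
  have h1 : w.w1 ((-1 : Eˣ) * (-1 : Eˣ)) = w.w1 (-1) + w.w1 (-1) := w.mul1 _ _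
  have h2 : ((-1 : Eˣ) * (-1 : Eˣ)) = 1 := by simp
  rw [h2, f06_one] at h1
  have h3 : (-a : Eˣ) = (-1) * a := by simp
  rw [h3, w.mul1]
  linarith

/-- All the values of `x` are greater than `c` (no condition for `x = 0`). -/
def F06G (c : ℚ) (x : E) : Prop := ∀ u : Eˣ, (u : E) = x → c < w.w1 u

theorem f06_add {c : ℚ} {x y : E} (hx : F06G w c x) (hy : F06G w c y) : F06G w c (x + y) := by
  intro u hu
  by_cases hx0 : x = 0
  · exact hy u (by rw [hu, hx0, zero_add])
  by_cases hy0 : y = 0
  · exact hx u (by rw [hu, hy0, add_zero])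
  have h := w.add (Units.mk0 x hx0) (Units.mk0 y hy0) u (by simp [hu])
  have h1 := hx (Units.mk0 x hx0) rfl
  have h2 := hy (Units.mk0 y hy0) rfl
  rcases h with (h | h) | (h | h)
  · linarith
  · linarith [h.1]
  · linarith
  · linarith [h.1]

theorem f06_sum {ι : Type} {c : ℚ} (s : Finset ι) (t : ι → E) (h : ∀ i ∈ s, F06G w c (t i)) :
    F06G w c (∑ i ∈ s, t i) := by
  classical
  induction s using Finset.induction_on with
  | empty =>
    intro u hu
    rw [Finset.sum_empty] at hu
    exact absurd hu u.ne_zero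
  | insert a s ha ih =>
    rw [Finset.sum_insert ha]
    exact f06_add w (h a (Finset.mem_insert_self a s))
      (ih fun i hi => h i (Finset.mem_insert_of_mem hi))

/-- In a vanishing sum two terms have the same value. -/
theorem f06_two {ι : Type} (s : Finset ι) (hs : s.Nonempty) (t : ι → Eˣ)
    (h : ∑ i ∈ s, (t i : E) = 0) : ∃ i ∈ s, ∃ j ∈ s, i ≠ j ∧ w.w1 (t i) = w.w1 (t j) := by
  classical
  obtain ⟨i, hi, hmin⟩ := Finset.exists_min_image s (fun i => w.w1 (t i)) hs
  by_contra hcon
  push Not at hcon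
  have h1 : F06G w (w.w1 (t i)) (∑ j ∈ s.erase i, (t j : E)) := by
    refine f06_sum w _ _ fun j hj u hu => ?_
    have hj' := Finset.mem_erase.1 hj
    have hu' : u = t j := Units.ext hu
    rw [hu']
    exact lt_of_le_of_ne (hmin j hj'.2) (hcon i hi j hj'.2 (Ne.symm hj'.1))
  have h2 : ((-(t i) : Eˣ) : E) = ∑ j ∈ s.erase i, (t j : E) := by
    rw [← Finset.add_sum_erase s _ hi] at h
    rw [Units.val_neg]
    linear_combination -h
  have h3 := h1 (-(t i)) h2
  rw [f06_neg] at h3
  exact lt_irrefl _ h3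

/-- The valuation ring of `w1`. -/
def f06D : ValuationSubring E where
  carrier := {x | ∀ u : Eˣ, (u : E) = x → 0 ≤ w.w1 u}
  mul_mem' := by
    intro x y hx hy u hu
    have hx0 : x ≠ 0 := fun h0 => u.ne_zero (by rw [hu, h0, zero_mul])
    have hy0 : y ≠ 0 := fun h0 => u.ne_zero (by rw [hu, h0, mul_zero])
    have h1 := hx (Units.mk0 x hx0) rfl
    have h2 := hy (Units.mk0 y hy0) rfl
    have h3 : u = Units.mk0 x hx0 * Units.mk0 y hy0 := Units.ext (by simp [hu])
    rw [h3, w.mul1]
    linarith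
  one_mem' := by
    intro u hu
    have : u = 1 := Units.ext (by simpa using hu)
    rw [this, f06_one]
  add_mem' := by
    intro x y hx hy u hu
    by_cases hx0 : x = 0
    · exact hy u (by rw [hu, hx0, zero_add])
    by_cases hy0 : y = 0
    · exact hx u (by rw [hu, hy0, add_zero])
    have h := w.add (Units.mk0 x hx0) (Units.mk0 y hy0) u (by simp [hu])
    have h1 := hx (Units.mk0 x hx0) rfl
    have h2 := hy (Units.mk0 y hy0) rfl
    rcases h with (h | h) | (h | h)
    · linarith
    · linarith [h.1]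
    · linarith
    · linarith [h.1]
  zero_mem' := fun u hu => absurd hu u.ne_zero
  neg_mem' := by
    intro x hx u hu
    have h := hx (-u) (by rw [Units.val_neg, hu, neg_neg])
    rwa [f06_neg] at h
  mem_or_inv_mem' := by
    intro x
    by_cases hx : x = 0
    · left
      intro u hu
      exact absurd (hu.trans hx) u.ne_zero
    rcases le_total 0 (w.w1 (Units.mk0 x hx)) with h | h
    · left
      intro u hu
      have : u = Units.mk0 x hx := Units.ext hu
      rw [this]
      exact h
    · right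
      intro u hu
      have : u = (Units.mk0 x hx)⁻¹ := Units.ext (by simp [hu])
      rw [this, f06_inv]
      linarith

theorem f06_mem (u : Eˣ) : (u : E) ∈ f06D w ↔ 0 ≤ w.w1 u := by
  constructor
  · intro h
    exact h u rfl
  · intro h v hv
    have : v = u := Units.ext hv
    rw [this]
    exact h

theorem f06_nonunits (u : Eˣ) : (u : E) ∈ (f06D w).nonunits ↔ 0 < w.w1 u := by
  rw [tord_nonunits_iff]
  have h1 : ((u : E)⁻¹ ∈ f06D w) ↔ 0 ≤ w.w1 u⁻¹ := by
    rw [← f06_mem, Units.val_inv_eq_inv_val]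
  rw [h1, f06_mem, f06_inv]
  constructor
  · rintro (h | ⟨_, h⟩)
    · exact absurd h u.ne_zero
    · rw [not_le] at h
      linarith
  · intro h
    right
    constructor
    · exact h.le
    · rw [not_le]
      linarith

end

theorem ext_disc : SpExtDisc := by
  intro F E _ _ _ _ D hD w hw
  classical
  set N : ℕ := (Module.finrank F E).factorial with hN
  have hN0 : (0 : ℚ) < N := by
    have := Nat.factorial_pos (Module.finrank F E)
    exact_mod_cast this
  -- the values are in (1/N) Z
  have key : ∀ f : Eˣ, ∃ m : ℤ, (N : ℚ) * w.w1 f = m := by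
    intro f
    have hdep : ¬ LinearIndependent F
        (fun i : Fin (Module.finrank F E + 1) => (f : E) ^ (i : ℕ)) := by
      intro hli
      have := hli.fintype_card_le_finrank
      simp at this
    rw [Fintype.not_linearIndependent_iff] at hdep
    obtain ⟨a, ha, i0, hi0⟩ := hdep
    set s : Finset (Fin (Module.finrank F E + 1)) := Finset.univ.filter fun i => a i ≠ 0 with hs
    have hsne : s.Nonempty := ⟨i0, by simp [hs, hi0]⟩
    set t : Fin (Module.finrank F E + 1) → Eˣ := fun i =>
      if h : a i = 0 then 1 else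
        Units.map (algebraMap F E : F →* E) (Units.mk0 (a i) h) * f ^ (i : ℕ) with ht
    have hsum : ∑ i ∈ s, (t i : E) = 0 := by
      rw [← ha, hs, Finset.sum_filter]
      refine Finset.sum_congr rfl fun i _ => ?_
      by_cases h : a i = 0
      · simp [h]
      · simp only [ne_eq, h, not_false_eq_true, if_true, ht, dif_neg, Units.val_mul,
          Units.coe_map, MonoidHom.coe_coe, Units.val_mk0, Units.val_pow_eq_pow_val]
        rw [Algebra.smul_def]
    obtain ⟨i, hi, j, hj, hij, hval⟩ := f06_two w s hsne t hsum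
    have hai : a i ≠ 0 := by simpa [hs] using hi
    have haj : a j ≠ 0 := by simpa [hs] using hj
    have hti : w.w1 (t i) = (ordV D (a i) : ℚ) + i * w.w1 f := by
      simp only [ht, dif_neg hai]
      rw [w.mul1, hw, f06_pow, Units.val_mk0]
    have htj : w.w1 (t j) = (ordV D (a j) : ℚ) + j * w.w1 f := by
      simp only [ht, dif_neg haj]
      rw [w.mul1, hw, f06_pow, Units.val_mk0]
    rw [hti, htj] at hval
    -- the difference of i and j divides n!
    have hd : ((j : ℕ) : ℤ) - ((i : ℕ) : ℤ) ≠ 0 := by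
      intro h
      apply hij
      apply Fin.ext
      omega
    have hdiv : (((j : ℕ) : ℤ) - ((i : ℕ) : ℤ)) ∣ (N : ℤ) := by
      have h1 : (((j : ℕ) : ℤ) - ((i : ℕ) : ℤ)).natAbs ∣ N := by
        apply Nat.dvd_factorial
        · exact Int.natAbs_pos.2 hd
        · have h2 := i.isLt
          have h3 := j.isLt
          omega
      exact Int.natAbs_dvd.1 (Int.natCast_dvd_natCast.2 h1)
    obtain ⟨c, hc⟩ := hdiv
    refine ⟨c * (ordV D (a i) - ordV D (a j)), ?_⟩
    have hcQ : (N : ℚ) = (((j : ℕ) : ℚ) - ((i : ℕ) : ℚ)) * c := by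
      exact_mod_cast hc
    rw [hcQ]
    push_cast
    linear_combination (-(c : ℚ)) * hval
  -- a uniformizer below
  have hDD := hD
  obtain ⟨ϖ, hϖ, -⟩ := hDD
  have hϖ0 : ϖ ≠ 0 := hϖ.1
  have hϖ1 : ordV D ϖ = 1 := (isUnifV_iff hD hϖ0).1 hϖ
  -- the subgroup of the values
  let H : AddSubgroup ℤ :=
    { carrier := {m | ∃ f : Eˣ, (N : ℚ) * w.w1 f = m}
      add_mem' := by
        rintro x y ⟨f, hf⟩ ⟨g, hg⟩
        exact ⟨f * g, by rw [w.mul1, mul_add, hf, hg]; push_cast; rfl⟩
      zero_mem' := ⟨1, by rw [f06_one]; simp⟩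
      neg_mem' := by
        rintro x ⟨f, hf⟩
        exact ⟨f⁻¹, by rw [f06_inv, mul_neg, hf]; push_cast; rfl⟩ }
  obtain ⟨g, hg⟩ := Int.subgroup_cyclic H
  have hNH : (N : ℤ) ∈ H := by
    refine ⟨Units.map (algebraMap F E : F →* E) (Units.mk0 ϖ hϖ0), ?_⟩
    rw [hw, Units.val_mk0, hϖ1]
    simp
  have hgne : g ≠ 0 := by
    rintro rfl
    rw [hg, AddSubgroup.mem_closure_singleton] at hNH
    obtain ⟨n, hn⟩ := hNH
    rw [smul_zero] at hn
    have : (0 : ℚ) = N := by exact_mod_cast hn
    linarith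
  have hgH : (|g| : ℤ) ∈ H := by
    have h1 : g ∈ H := by
      rw [hg]
      exact AddSubgroup.subset_closure rfl
    rcases abs_choice g with h | h
    · rw [h]; exact h1
    · rw [h]; exact H.neg_mem h1
  obtain ⟨f0, hf0⟩ := hgH
  have hg0 : 0 < |g| := abs_pos.2 hgne
  have hg0Q : (0 : ℚ) < ((|g| : ℤ) : ℚ) := by exact_mod_cast hg0
  set e : ℚ := ((|g| : ℤ) : ℚ) / N with he
  have he0 : 0 < e := div_pos hg0Q hN0
  have hf0e : w.w1 f0 = e := by
    rw [he, eq_div_iff hN0.ne', mul_comm]
    exact hf0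
  have hmul : ∀ f : Eˣ, ∃ k : ℤ, w.w1 f = e * k := by
    intro f
    obtain ⟨m, hm⟩ := key f
    have h1 : m ∈ H := ⟨f, hm⟩
    rw [hg, AddSubgroup.mem_closure_singleton] at h1
    obtain ⟨k, hk⟩ := h1
    have h2 : ∃ k' : ℤ, m = k' * |g| := by
      rcases abs_choice g with h | h
      · exact ⟨k, by rw [h, ← hk, smul_eq_mul]⟩
      · exact ⟨-k, by rw [h, ← hk, smul_eq_mul]; ring⟩
    obtain ⟨k', hk'⟩ := h2
    refine ⟨k', ?_⟩
    have h3 : (N : ℚ) * w.w1 f = k' * ((|g| : ℤ) : ℚ) := by
      rw [hm, hk']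
      push_cast
      rfl
    rw [he]
    field_simp
    linear_combination h3
  have hunif : IsUnifV (f06D w) (f0 : E) := by
    refine ⟨f0.ne_zero, fun x => ?_⟩
    by_cases hx : x = 0
    · subst hx
      constructor
      · intro _
        exact ⟨0, (f06D w).zero_mem, by rw [mul_zero]⟩
      · intro _
        rw [tord_nonunits_iff]
        exact Or.inl rfl
    · have h1 := f06_nonunits w (Units.mk0 x hx)
      rw [Units.val_mk0] at h1
      rw [h1]
      obtain ⟨k, hk⟩ := hmul (Units.mk0 x hx)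
      constructor
      · intro h
        refine ⟨((Units.mk0 x hx * f0⁻¹ : Eˣ) : E), ?_, ?_⟩
        · rw [f06_mem, w.mul1, f06_inv, hf0e, hk]
          rw [hk] at h
          have h2 : (0 : ℚ) < k := by
            by_contra h3
            push Not at h3
            nlinarith
          have h4 : (1 : ℤ) ≤ k := by
            have : (0 : ℤ) < k := by exact_mod_cast h2
            omega
          have h5 : (1 : ℚ) ≤ k := by exact_mod_cast h4
          nlinarith
        · rw [Units.val_mul, Units.val_mk0, Units.val_inv_eq_inv_val]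
          field_simp
      · rintro ⟨c, hc, hxc⟩
        have hc0 : c ≠ 0 := fun h0 => hx (by rw [hxc, h0, mul_zero])
        have h2 : 0 ≤ w.w1 (Units.mk0 c hc0) := by
          rw [← f06_mem, Units.val_mk0]
          exact hc
        have h3 : Units.mk0 x hx = f0 * Units.mk0 c hc0 := Units.ext (by simp [hxc])
        rw [h3, w.mul1, hf0e]
        linarith
  have hunit : ∀ u : Eˣ, w.w1 u = 0 → UnitIn (f06D w) u := by
    intro u hu
    constructor
    · rw [f06_mem, hu]
    · rw [f06_mem, f06_inv, hu, neg_zero]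
  have hdec : ∀ (f : Eˣ) (k : ℤ), w.w1 f = e * k →
      UnitIn (f06D w) (f * (f0 ^ k)⁻¹) ∧ (f : E) = (f0 : E) ^ k * ((f * (f0 ^ k)⁻¹ : Eˣ) : E) := by
    intro f k hk
    constructor
    · apply hunit
      rw [w.mul1, f06_inv, f06_zpow, hf0e, hk]
      ring
    · have h : f = f0 ^ k * (f * (f0 ^ k)⁻¹) := by
        rw [mul_comm f, mul_inv_cancel_left]
      have h2 := congrArg Units.val h
      rw [Units.val_mul, Units.val_zpow_eq_zpow_val] at h2
      exact h2
  have hdisc : IsDiscV (f06D w) := by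
    refine ⟨f0, hunif, fun t ht => ?_⟩
    obtain ⟨k, hk⟩ := hmul (Units.mk0 t ht)
    have h := hdec _ k hk
    exact ⟨k, _, h.1, h.2⟩
  refine ⟨f06D w, e, hdisc, ?_, he0, ?_⟩
  · ext x
    rw [ValuationSubring.mem_comap]
    by_cases hx : x = 0
    · subst hx
      rw [map_zero]
      exact ⟨fun _ => D.zero_mem, fun _ => (f06D w).zero_mem⟩
    · rw [mem_iff_ordV hD hx]
      have h1 := f06_mem w (Units.map (algebraMap F E : F →* E) (Units.mk0 x hx))
      rw [hw, Units.val_mk0] at h1
      have h2 : ((Units.map (algebraMap F E : F →* E) (Units.mk0 x hx) : Eˣ) : E) =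
          algebraMap F E x := rfl
      rw [h2] at h1
      rw [h1]
      exact_mod_cast Iff.rfl
  · intro f
    obtain ⟨k, hk⟩ := hmul f
    have h := hdec f k hk
    rw [hk, h.2, ordV_eq hunif h.1]

end Pool.Agent.H19.UT
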