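import Pool.Agent.H19.UT.SpF

/-!
Project UT, row F07: extension of a discrete valuation to an algebraic extension, with rational
values.
-/

set_option autoImplicit false
set_option maxHeartbeats 400000

open Polynomial Pool.Agent.K1

namespace Pool.Agent.H19.UT

section f07

variable {M N : Type} [Field M] [Field N] [Algebra M N]

/-- A valuation ring of the field below extends. -/
theorem f07_exists (D : ValuationSubring M) :
    ∃ V : ValuationSubring N, V.comap (algebraMap M N) = D := by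
  let R : LocalSubring N := LocalSubring.map (algebraMap M N) D.toLocalSubring
  obtain ⟨V, hV⟩ := R.exists_le_valuationSubring
  obtain ⟨h1, h2⟩ := LocalSubring.le_def.1 hV
  refine ⟨V, ?_⟩
  ext x
  rw [ValuationSubring.mem_comap]
  constructor
  · intro hx
    by_contra hxD
    have hx0 : x ≠ 0 := by
      rintro rfl
      exact hxD D.zero_mem
    have hinv : x⁻¹ ∈ D := (D.mem_or_inv_mem x).resolve_left hxD
    have hm : algebraMap M N x⁻¹ ∈ R.toSubring := ⟨x⁻¹, hinv, rfl⟩
    have hu : IsUnit (⟨algebraMap M N x⁻¹, hm⟩ : R.toSubring) := by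
      apply h2.map_nonunit
      refine ⟨⟨⟨algebraMap M N x⁻¹, h1 hm⟩, ⟨algebraMap M N x, hx⟩, ?_, ?_⟩, rfl⟩
      · apply Subtype.ext
        change algebraMap M N x⁻¹ * algebraMap M N x = 1
        rw [← map_mul, inv_mul_cancel₀ hx0, map_one]
      · apply Subtype.ext
        change algebraMap M N x * algebraMap M N x⁻¹ = 1
        rw [← map_mul, mul_inv_cancel₀ hx0, map_one]
    obtain ⟨⟨a, b, hab, hba⟩, hu'⟩ := hu
    obtain ⟨y, hy, hyb⟩ := b.2
    have h3 : (a : N) = algebraMap M N x⁻¹ := congrArg Subtype.val hu'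
    have h4 : (a : N) * (b : N) = 1 := congrArg Subtype.val hab
    rw [h3, ← hyb] at h4
    have h5 : algebraMap M N (x⁻¹ * y) = algebraMap M N 1 := by
      rw [map_mul, map_one]
      exact h4
    have h6 : x⁻¹ * y = 1 := (algebraMap M N).injective h5
    have h7 : y = x := by
      field_simp at h6
      exact h6
    exact hxD (h7 ▸ hy)
  · intro hx
    exact h1 ⟨x, hx, rfl⟩

/-- In a vanishing sum, the largest value is attained twice. -/
theorem f07_two {V : ValuationSubring N} {s : Finset ℕ} {f : ℕ → N}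
    (hs : ∑ i ∈ s, f i = 0) (hne : ∃ i ∈ s, f i ≠ 0) :
    ∃ i ∈ s, ∃ j ∈ s, i < j ∧ V.valuation (f i) = V.valuation (f j) ∧ f i ≠ 0 := by
  obtain ⟨i0, hi0, hf0⟩ := hne
  obtain ⟨i, hi, hmax⟩ := s.exists_max_image (fun i => V.valuation (f i)) ⟨i0, hi0⟩
  have hfi : f i ≠ 0 := by
    intro h0
    have h1 := hmax i0 hi0
    simp only [h0, map_zero] at h1
    exact hf0 ((map_eq_zero _).1 (le_antisymm h1 zero_le))
  by_contra hcon
  push Not at hcon
  have hlt : ∀ j ∈ s, j ≠ i → V.valuation (f j) < V.valuation (f i) := by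
    intro j hj hji
    refine lt_of_le_of_ne (hmax j hj) ?_
    intro heq
    rcases lt_or_gt_of_ne hji with h | h
    · have hfj : f j ≠ 0 := by
        intro h0
        rw [h0, map_zero] at heq
        exact hfi ((map_eq_zero _).1 heq.symm)
      exact hfj (hcon j hj i hi h heq)
    · exact hfi (hcon i hi j hj h heq.symm)
  have h1 : ∑ j ∈ s.erase i, f j = - f i := by
    have h2 := Finset.add_sum_erase s f hi
    rw [hs] at h2
    exact (neg_eq_of_add_eq_zero_right h2).symm
  have h3 : V.valuation (∑ j ∈ s.erase i, f j) < V.valuation (f i) := by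
    apply Valuation.map_sum_lt
    · exact (_root_.map_ne_zero _).2 hfi
    · intro j hj
      exact hlt j (Finset.mem_of_mem_erase hj) (Finset.ne_of_mem_erase hj)
  rw [h1, Valuation.map_neg] at h3
  exact lt_irrefl _ h3

/-- A power of an algebraic element is an element of the field below times a unit. -/
theorem f07_pow [Algebra.IsAlgebraic M N] (V : ValuationSubring N) (a : N) (ha : a ≠ 0) :
    ∃ (n : ℕ) (m : Mˣ), 0 < n ∧ V.valuation a ^ n = V.valuation (algebraMap M N (m : M)) := by
  obtain ⟨P, hP0, hP⟩ := Algebra.IsAlgebraic.isAlgebraic (R := M) a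
  rw [aeval_eq_sum_range] at hP
  have hne : ∃ i ∈ Finset.range (P.natDegree + 1), P.coeff i • a ^ i ≠ 0 := by
    refine ⟨P.natDegree, Finset.self_mem_range_succ _, ?_⟩
    rw [Algebra.smul_def]
    refine mul_ne_zero ?_ (pow_ne_zero _ ha)
    rw [Ne, map_eq_zero]
    exact leadingCoeff_ne_zero.2 hP0
  obtain ⟨i, -, j, -, hij, heq, hi⟩ := f07_two (V := V) hP hne
  rw [Algebra.smul_def] at hi
  rw [Algebra.smul_def, Algebra.smul_def, map_mul, map_mul, map_pow, map_pow] at heq
  have hva : V.valuation a ≠ 0 := (_root_.map_ne_zero _).2 ha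
  have hci : P.coeff i ≠ 0 := by
    intro h0
    rw [h0, map_zero, zero_mul] at hi
    exact hi rfl
  have hvi : V.valuation (algebraMap M N (P.coeff i)) ≠ 0 := by
    rw [Ne, map_eq_zero, map_eq_zero]
    exact hci
  have hcj : P.coeff j ≠ 0 := by
    intro h0
    rw [h0, map_zero, map_zero, zero_mul] at heq
    exact mul_ne_zero hvi (pow_ne_zero _ hva) heq
  have hvj : V.valuation (algebraMap M N (P.coeff j)) ≠ 0 := by
    rw [Ne, map_eq_zero, map_eq_zero]
    exact hcj
  refine ⟨j - i, Units.mk0 (P.coeff i / P.coeff j) (div_ne_zero hci hcj), by omega, ?_⟩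
  rw [Units.val_mk0, map_div₀, map_div₀]
  have h1 : V.valuation a ^ j = V.valuation a ^ i * V.valuation a ^ (j - i) := by
    rw [← pow_add]
    congr 1
    omega
  rw [h1] at heq
  have hai : V.valuation a ^ i ≠ 0 := pow_ne_zero _ hva
  rw [eq_div_iff hvj]
  have h2 : V.valuation a ^ i * (V.valuation a ^ (j - i) * V.valuation (algebraMap M N (P.coeff j)))
      = V.valuation a ^ i * V.valuation (algebraMap M N (P.coeff i)) := by
    rw [mul_comm (V.valuation a ^ i) (V.valuation ((algebraMap M N) (P.coeff i))), heq]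
    ac_rfl
  exact mul_left_cancel₀ hai h2

/-- The value of `a` is `q`. -/
def F07R (V : ValuationSubring N) (D : ValuationSubring M) (a : N) (q : ℚ) : Prop :=
  ∃ (n : ℕ) (m : Mˣ), 0 < n ∧ V.valuation a ^ n = V.valuation (algebraMap M N (m : M)) ∧
    q = (ordV D (m : M) : ℚ) / n

theorem f07_unit {V : ValuationSubring N} {D : ValuationSubring M}
    (hVD : V.comap (algebraMap M N) = D) (hD : IsDiscV D) (m : Mˣ)
    (h : V.valuation (algebraMap M N (m : M)) = 1) : ordV D (m : M) = 0 := by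
  rw [← unitIn_iff_ordV hD, ← hVD]
  constructor
  · rw [ValuationSubring.mem_comap, ← ValuationSubring.valuation_le_one_iff, h]
  · rw [ValuationSubring.mem_comap, ← ValuationSubring.valuation_le_one_iff,
      Units.val_inv_eq_inv_val, map_inv₀, map_inv₀, h, inv_one]

theorem f07_eq {V : ValuationSubring N} {D : ValuationSubring M}
    (hVD : V.comap (algebraMap M N) = D) (hD : IsDiscV D) (m m' : Mˣ)
    (h : V.valuation (algebraMap M N (m : M)) = V.valuation (algebraMap M N (m' : M))) :
    ordV D (m : M) = ordV D (m' : M) := by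
  have h1 : V.valuation (algebraMap M N ((m * m'⁻¹ : Mˣ) : M)) = 1 := by
    rw [Units.val_mul, Units.val_inv_eq_inv_val, map_mul, map_mul, map_inv₀, map_inv₀, h]
    apply mul_inv_cancel₀
    rw [Ne, map_eq_zero, map_eq_zero]
    exact m'.ne_zero
  have h2 := f07_unit hVD hD _ h1
  rw [Units.val_mul, Units.val_inv_eq_inv_val, ordV_mul hD m.ne_zero (inv_ne_zero m'.ne_zero),
    ordV_inv hD m'.ne_zero] at h2
  linarith

theorem f07_ordpow {D : ValuationSubring M} (hD : IsDiscV D) (m : Mˣ) (n : ℕ) :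
    ordV D ((m ^ n : Mˣ) : M) = n * ordV D (m : M) := by
  have h := ordV_zpow hD m (n : ℤ)
  rw [zpow_natCast] at h
  exact h

theorem f07_unique {V : ValuationSubring N} {D : ValuationSubring M}
    (hVD : V.comap (algebraMap M N) = D) (hD : IsDiscV D) {a : N} {q q' : ℚ}
    (h : F07R V D a q) (h' : F07R V D a q') : q = q' := by
  obtain ⟨n, m, hn, h1, rfl⟩ := h
  obtain ⟨n', m', hn', h1', rfl⟩ := h'
  have h2 : V.valuation (algebraMap M N ((m ^ n' : Mˣ) : M)) =
      V.valuation (algebraMap M N ((m' ^ n : Mˣ) : M)) := by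
    rw [Units.val_pow_eq_pow_val, Units.val_pow_eq_pow_val, map_pow, map_pow, map_pow, map_pow,
      ← h1, ← h1', ← pow_mul, ← pow_mul, mul_comm]
  have h3 := f07_eq hVD hD _ _ h2
  rw [f07_ordpow hD, f07_ordpow hD] at h3
  have hn0 : (n : ℚ) ≠ 0 := by exact_mod_cast hn.ne'
  have hn0' : (n' : ℚ) ≠ 0 := by exact_mod_cast hn'.ne'
  rw [div_eq_div_iff hn0 hn0']
  have h4 : (((n' : ℤ) * ordV D (m : M) : ℤ) : ℚ) = (((n : ℤ) * ordV D (m' : M) : ℤ) : ℚ) := by
    rw [h3]
  push_cast at h4
  linarith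

theorem f07_mul {V : ValuationSubring N} {D : ValuationSubring M} (hD : IsDiscV D)
    {a b : N} {q r : ℚ} (h : F07R V D a q) (h' : F07R V D b r) : F07R V D (a * b) (q + r) := by
  obtain ⟨n, m, hn, h1, rfl⟩ := h
  obtain ⟨n', m', hn', h1', rfl⟩ := h'
  refine ⟨n * n', m ^ n' * m' ^ n, Nat.mul_pos hn hn', ?_, ?_⟩
  · rw [Units.val_mul, Units.val_pow_eq_pow_val, Units.val_pow_eq_pow_val, map_mul, map_mul,
      map_mul, map_pow, map_pow, map_pow, map_pow, ← h1, ← h1', mul_pow, ← pow_mul, ← pow_mul,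
      mul_comm n' n]
  · have hn0 : (n : ℚ) ≠ 0 := by exact_mod_cast hn.ne'
    have hn0' : (n' : ℚ) ≠ 0 := by exact_mod_cast hn'.ne'
    rw [Units.val_mul, ordV_mul hD (Units.ne_zero _) (Units.ne_zero _), f07_ordpow hD,
      f07_ordpow hD]
    push_cast
    field_simp

theorem f07_nonneg {V : ValuationSubring N} {D : ValuationSubring M}
    (hVD : V.comap (algebraMap M N) = D) (hD : IsDiscV D)
    {a : N} {q : ℚ} (h : F07R V D a q) : a ∈ V ↔ 0 ≤ q := by
  obtain ⟨n, m, hn, h1, rfl⟩ := h
  have hn0 : (0 : ℚ) < n := by exact_mod_cast hn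
  rw [le_div_iff₀ hn0, zero_mul, Int.cast_nonneg_iff, ← mem_iff_ordV hD m.ne_zero, ← hVD,
    ValuationSubring.mem_comap, ← ValuationSubring.valuation_le_one_iff,
    ← ValuationSubring.valuation_le_one_iff, ← h1, pow_le_one_iff hn.ne']

end f07

theorem ext_q : SpExtQ := by
  intro M N _ _ _ _ D hD
  obtain ⟨V, hVD⟩ := f07_exists (N := N) D
  have hex : ∀ a : Nˣ, ∃ q : ℚ, F07R V D (a : N) q := by
    intro a
    obtain ⟨n, m, hn, h⟩ := f07_pow (M := M) V (a : N) a.ne_zero
    exact ⟨_, n, m, hn, h, rfl⟩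
  choose v hv using hex
  refine ⟨V, v, hVD, ?_, ?_, ?_⟩
  · intro a b
    apply f07_unique hVD hD (hv (a * b))
    rw [Units.val_mul]
    exact f07_mul hD (hv a) (hv b)
  · intro a
    exact f07_nonneg hVD hD (hv a)
  · intro m
    apply f07_unique hVD hD (hv _)
    refine ⟨1, m, one_pos, ?_, ?_⟩
    · rw [pow_one]
      rfl
    · simp

end Pool.Agent.H19.UT
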