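import Pool.Agent.H19.UT.SpE2

/-!
Project UT, row E05: extension of a discrete valuation ring of `L` to `M = Ω(t)`.
-/

set_option autoImplicit false
set_option maxHeartbeats 400000

open Polynomial Pool.Agent.K1

namespace Pool.Agent.H19.UT

/-- A multiplicative rational function on the units, as a homomorphism. -/
def e05_hom {M : Type} [Field M] (v : Mˣ → ℚ) (h : ∀ a b, v (a * b) = v a + v b) :
    Mˣ →* Multiplicative ℚ :=
  MonoidHom.mk' (fun a => Multiplicative.ofAdd (v a)) fun a b => by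
    rw [h]
    rfl

theorem e05_zpow {M : Type} [Field M] (v : Mˣ → ℚ) (h : ∀ a b, v (a * b) = v a + v b)
    (a : Mˣ) (n : ℤ) : v (a ^ n) = n * v a := by
  have h1 := congrArg Multiplicative.toAdd (map_zpow (e05_hom v h) a n)
  have h2 : Multiplicative.toAdd ((e05_hom v h a) ^ n) = n • Multiplicative.toAdd (e05_hom v h a) :=
    rfl
  rw [h2, zsmul_eq_mul] at h1
  exact h1

theorem e05_inv {M : Type} [Field M] (v : Mˣ → ℚ) (h : ∀ a b, v (a * b) = v a + v b)
    (a : Mˣ) : v a⁻¹ = - v a := by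
  have h1 := e05_zpow v h a (-1)
  rw [zpow_neg_one] at h1
  rw [h1]
  push_cast
  ring

theorem e05_main {K L Ω M : Type} [Field K] [Field L] [Field Ω] [Field M] [Algebra K L]
    [Algebra K Ω] [Algebra Ω M] [IsAlgClosed Ω] (φ : L →+* M)
    (hφ : ∀ a : K, φ (algebraMap K L a) = algebraMap Ω M (algebraMap K Ω a))
    (W : ValuationSubring L) (hW : IsDiscV W) (hK : ∃ a : K, algebraMap K L a ∉ W)
    (v : Mˣ → ℚ) (hv : ∀ a b, v (a * b) = v a + v b)
    (hL : ∀ f : Lˣ, v (Units.map (φ : L →* M) f) = (ordV W (f : L) : ℚ)) (f : Mˣ) :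
    ∃ c : Ωˣ, v (Units.map (algebraMap Ω M : Ω →* M) c) = v f := by
  obtain ⟨a, ha⟩ := hK
  have ha0 : a ≠ 0 := by
    rintro rfl
    exact ha (by rw [map_zero]; exact W.zero_mem)
  have haL : algebraMap K L a ≠ 0 := by
    rw [Ne, map_eq_zero]
    exact ha0
  have he : ordV W (algebraMap K L a) < 0 := by
    by_contra hcon
    exact ha ((mem_iff_ordV hW haL).2 (not_lt.1 hcon))
  set e : ℚ := (ordV W (algebraMap K L a) : ℚ) with hedef
  have he' : e ≠ 0 := by
    have : (ordV W (algebraMap K L a) : ℚ) < 0 := by exact_mod_cast he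
    exact this.ne
  have haΩ : algebraMap K Ω a ≠ 0 := by
    rw [Ne, map_eq_zero]
    exact ha0
  -- the value of the element of `K`
  have hva : v (Units.map (algebraMap Ω M : Ω →* M) (Units.mk0 _ haΩ)) = e := by
    have h1 := hL (Units.mk0 _ haL)
    have h2 : Units.map (φ : L →* M) (Units.mk0 _ haL) =
        Units.map (algebraMap Ω M : Ω →* M) (Units.mk0 _ haΩ) := by
      ext
      exact hφ a
    rw [h2] at h1
    exact h1
  set q : ℚ := v f / e with hq
  have hn : 0 < q.den := q.den_pos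
  obtain ⟨c, hc⟩ := IsAlgClosed.exists_pow_nat_eq ((algebraMap K Ω a) ^ q.num) hn
  have hc0 : c ≠ 0 := by
    rintro rfl
    rw [zero_pow hn.ne'] at hc
    exact zpow_ne_zero _ haΩ hc.symm
  refine ⟨Units.mk0 c hc0, ?_⟩
  have h3 : (Units.mk0 c hc0) ^ (q.den : ℤ) = (Units.mk0 _ haΩ : Ωˣ) ^ q.num := by
    ext
    rw [zpow_natCast, Units.val_pow_eq_pow_val, Units.val_zpow_eq_zpow_val]
    exact hc
  have h4 := congrArg (fun x => v (Units.map (algebraMap Ω M : Ω →* M) x)) h3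
  simp only [map_zpow] at h4
  rw [e05_zpow v hv, e05_zpow v hv, hva] at h4
  have h5 : (q.den : ℚ) ≠ 0 := by exact_mod_cast hn.ne'
  have h6 : (q.num : ℚ) = q * q.den := (Rat.mul_den_eq_num q).symm
  rw [h6] at h4
  push_cast at h4
  have h7 : v f = q * e := by
    rw [hq, div_mul_cancel₀ _ he']
  rw [h7]
  apply mul_left_cancel₀ h5
  rw [h4]
  ring

theorem e_ext (hQ : SpExtQ) : SpEext := by
  intro K L Ω M _ _ _ _ _ _ _ _ φ hφ halg W hW hK
  let _ : Algebra L M := φ.toAlgebra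
  have : Algebra.IsAlgebraic L M := ⟨fun x => by
    obtain ⟨P, hP, h0⟩ := halg x
    exact ⟨P, hP, h0⟩⟩
  obtain ⟨V, v, h1, h2, h3, h4⟩ := hQ L M W hW
  refine ⟨V, v, h1, h2, h3, h4, ?_⟩
  intro f
  obtain ⟨c, hc⟩ := e05_main φ hφ W hW hK v h2 h4 f
  refine ⟨c, ?_, ?_⟩
  · rw [h3, h2, e05_inv v h2, hc]
    simp
  · rw [h3, e05_inv v h2, h2, e05_inv v h2, hc]
    simp

end Pool.Agent.H19.UT
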