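import Pool.Agent.H19.UT.SpE2
import Pool.Agent.H19.UT.Ops

/-!
Project UT, row E07: over an algebraically closed field, an element whose residue is new has a
transcendental residue.
-/

set_option autoImplicit false
set_option maxHeartbeats 400000

open Polynomial Pool.Agent.K1

namespace Pool.Agent.H19.UT

theorem e07_key {Ω M Γ : Type*} [Field Ω] [Field M] [Algebra Ω M]
    [LinearOrderedCommGroupWithZero Γ] (v : Valuation M Γ) (u : M) (hu : v u ≤ 1)
    (h : ∀ b : Ω, 1 ≤ v (u - algebraMap Ω M b)) (S : Multiset Ω) :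
    ∀ n, v (algebraMap Ω M ((S.map fun a => X - C a).prod.coeff n)) ≤
      v (aeval u (S.map fun a => X - C a).prod) := by
  induction S using Multiset.induction_on with
  | empty =>
    intro n
    simp only [Multiset.map_zero, Multiset.prod_zero, map_one, coeff_one]
    split_ifs
    · simp
    · simp
  | cons a S ih =>
    have h1 : v (algebraMap Ω M a) ≤ v (u - algebraMap Ω M a) := by
      have h2 : algebraMap Ω M a = u - (u - algebraMap Ω M a) := by ring
      calc v (algebraMap Ω M a) = v (u - (u - algebraMap Ω M a)) := by rw [← h2]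
        _ ≤ max (v u) (v (u - algebraMap Ω M a)) := v.map_sub _ _
        _ ≤ v (u - algebraMap Ω M a) := max_le (hu.trans (h a)) le_rfl
    have h3 : aeval u ((a ::ₘ S).map fun a => X - C a).prod =
        (u - algebraMap Ω M a) * aeval u (S.map fun a => X - C a).prod := by
      rw [Multiset.map_cons, Multiset.prod_cons, map_mul, map_sub, aeval_X, aeval_C]
    set Q := (S.map fun a => X - C a).prod with hQ
    have h4 : ∀ x : M, v x ≤ v (aeval u Q) → v x ≤ v ((u - algebraMap Ω M a) * aeval u Q) := by
      intro x hx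
      rw [map_mul]
      calc v x ≤ 1 * v (aeval u Q) := by rwa [one_mul]
        _ ≤ _ := mul_le_mul' (h a) le_rfl
    have h5 : ∀ x : M, v x ≤ v (aeval u Q) →
        v (algebraMap Ω M a * x) ≤ v ((u - algebraMap Ω M a) * aeval u Q) := by
      intro x hx
      rw [map_mul, map_mul]
      exact mul_le_mul' h1 hx
    intro n
    rw [h3, Multiset.map_cons, Multiset.prod_cons, ← hQ, sub_mul, coeff_sub, coeff_C_mul]
    rcases n with _ | n
    · rw [coeff_X_mul_zero, zero_sub, map_neg, Valuation.map_neg, map_mul (algebraMap Ω M)]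
      exact h5 _ (ih 0)
    · rw [coeff_X_mul, map_sub, map_mul (algebraMap Ω M)]
      exact (v.map_sub _ _).trans (max_le (h4 _ (ih n)) (h5 _ (ih (n + 1))))

theorem e_galg : SpEgal := by
  intro Ω M _ _ _ _ V u hu hb P hP
  have hnon : ∀ x : M, x ∈ V.nonunits ↔ V.valuation x < 1 := fun x => Iff.rfl
  have hmem : ∀ x : M, x ∈ V ↔ V.valuation x ≤ 1 := fun x => (V.valuation_le_one_iff x).symm
  have hcom : ∀ x : Ω, x ∈ (V.comap (algebraMap Ω M)).nonunits ↔
      V.valuation (algebraMap Ω M x) < 1 := fun x => by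
    rw [comap_nonunits]
    exact hnon _
  have hPm : ∀ n, V.valuation (algebraMap Ω M (P.coeff n)) ≤ 1 := fun n =>
    (hmem _).1 (hP n)
  have hu1 : V.valuation u ≤ 1 := (hmem u).1 hu
  have hb1 : ∀ b : Ω, 1 ≤ V.valuation (u - algebraMap Ω M b) := fun b =>
    not_lt.1 fun h => hb b h
  have hev : aeval u P = ∑ i ∈ Finset.range (P.natDegree + 1), algebraMap Ω M (P.coeff i) * u ^ i := by
    rw [aeval_eq_sum_range]
    simp only [Algebra.smul_def]
  refine ⟨?_, ?_, ?_⟩
  · rw [hev]
    exact sum_mem fun i _ => mul_mem (hP i) (pow_mem hu i)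
  · intro h n
    rw [hcom]
    rw [hnon] at h
    have h1 : P = C P.leadingCoeff * (P.roots.map fun a => X - C a).prod :=
      (IsAlgClosed.splits P).eq_prod_roots
    refine lt_of_le_of_lt ?_ h
    rw [h1, coeff_C_mul, map_mul, map_mul, map_mul, aeval_C, map_mul]
    exact mul_le_mul' le_rfl (e07_key V.valuation u hu1 hb1 _ n)
  · intro h
    rw [hnon, hev]
    refine V.valuation.map_sum_lt one_ne_zero fun i _ => ?_
    rw [map_mul, map_pow]
    exact mul_lt_one_of_lt_of_le ((hcom _).1 (h i)) (pow_le_one' hu1 i)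

end Pool.Agent.H19.UT
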