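import Pool.Agent.H19.UT.SpE2

/-!
Project UT, row E09: affine changes of the coordinate; Gauss valuations over discrete valuation
rings are discrete (helper39).
-/

set_option autoImplicit false
set_option maxHeartbeats 400000

open Polynomial Pool.Agent.K1

namespace Pool.Agent.H19.UT

theorem e09_aff {K L : Type} [Field K] [Field L] [Algebra K L] {τ : L} {a c : K} (hc : c ≠ 0)
    (P : K[X]) : aeval τ P =
      aeval ((τ - algebraMap K L a) / algebraMap K L c) (P.comp (C c * X + C a)) := by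
  have hc' : algebraMap K L c ≠ 0 := (_root_.map_ne_zero _).2 hc
  rw [aeval_comp]
  congr 1
  rw [map_add, map_mul, aeval_C, aeval_X, aeval_C]
  congr 1
  field_simp
  ring

theorem e09_inv {K L : Type} [Field K] [Field L] [Algebra K L] {τ : L} {a c : K} (hc : c ≠ 0)
    (P : K[X]) : aeval ((τ - algebraMap K L a) / algebraMap K L c) P =
      aeval τ (P.comp (C c⁻¹ * (X - C a))) := by
  have hc' : algebraMap K L c ≠ 0 := (_root_.map_ne_zero _).2 hc
  rw [aeval_comp]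
  congr 1
  rw [map_mul, map_sub, aeval_C, aeval_X, aeval_C, map_inv₀]
  field_simp

theorem e09_coord {K L : Type} [Field K] [Field L] [Algebra K L] {τ : L} (hτ : Coord K L τ)
    {a c : K} (hc : c ≠ 0) : Coord K L ((τ - algebraMap K L a) / algebraMap K L c) := by
  refine ⟨?_, fun f => ?_⟩
  · rw [transcendental_iff]
    intro P hP
    rw [e09_inv hc] at hP
    have h1 := (transcendental_iff.1 hτ.1) _ hP
    have h2 : (P.comp (C c⁻¹ * (X - C a))).comp (C c * X + C a) = P := by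
      rw [comp_assoc]
      have h3 : (C c⁻¹ * (X - C a) : K[X]).comp (C c * X + C a) = X := by
        rw [mul_comp, sub_comp, C_comp, X_comp, C_comp, add_sub_cancel_right, ← mul_assoc,
          ← C_mul, inv_mul_cancel₀ hc, C_1, one_mul]
      rw [h3, comp_X]
    rw [← h2, h1, zero_comp]
  · obtain ⟨P, Q, h1, h2⟩ := hτ.2 f
    refine ⟨P.comp (C c * X + C a), Q.comp (C c * X + C a), ?_, ?_⟩
    · rw [← e09_aff hc]; exact h1
    · rw [← e09_aff hc, ← e09_aff hc]; exact h2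

theorem e09_ordpow {K : Type} [Field K] {s : ValuationSubring K} {π : K}
    (hπ : IsUnifV s π) (m : ℤ) : ordV s (π ^ m) = m := by
  have h := ordV_eq (n := m) (u := 1) hπ ⟨by simp, by simp⟩
  simpa using h

theorem e09_prim {K : Type} [Field K] {s : ValuationSubring K} (hs : IsDiscV s) {π : K}
    (hπ : IsUnifV s π) {P : K[X]} (hP : P ≠ 0) : ∃ (m : ℤ) (P0 : K[X]),
      (∀ n, P0.coeff n ∈ s) ∧ (∃ n, P0.coeff n ∉ s.nonunits) ∧ P = C (π ^ m) * P0 := by
  obtain ⟨n0, hn0, hmin⟩ := Finset.exists_min_image P.support (fun n => ordV s (P.coeff n))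
    (support_nonempty.2 hP)
  have hpm : ∀ m : ℤ, π ^ m ≠ 0 := fun m => zpow_ne_zero m hπ.1
  refine ⟨ordV s (P.coeff n0), C (π ^ (-ordV s (P.coeff n0))) * P, fun n => ?_, ⟨n0, ?_⟩, ?_⟩
  · rw [coeff_C_mul]
    by_cases h0 : P.coeff n = 0
    · rw [h0, mul_zero]; exact s.zero_mem
    · rw [mem_iff_ordV hs (mul_ne_zero (hpm _) h0), ordV_mul hs (hpm _) h0, e09_ordpow hπ]
      have := hmin n (mem_support_iff.2 h0)
      omega
  · rw [coeff_C_mul]
    have h0 : P.coeff n0 ≠ 0 := mem_support_iff.1 hn0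
    rw [nonunits_iff_ordV hs (mul_ne_zero (hpm _) h0), ordV_mul hs (hpm _) h0, e09_ordpow hπ]
    omega
  · rw [← mul_assoc, ← C_mul, ← zpow_add₀ hπ.1, add_neg_cancel, zpow_zero, C_1, one_mul]

theorem e09_unit {K L : Type} [Field K] [Field L] [Algebra K L] {τ : L}
    {s : ValuationSubring K} {E : ValuationSubring L} (hE : IsGauss s τ E) {P : K[X]}
    (h1 : ∀ n, P.coeff n ∈ s) (h2 : ∃ n, P.coeff n ∉ s.nonunits) :
    aeval τ P ≠ 0 ∧ aeval τ P ∈ E ∧ (aeval τ P)⁻¹ ∈ E := by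
  obtain ⟨h3, h4⟩ := hE P h1
  have h5 : aeval τ P ∉ E.nonunits := by
    rw [h4]
    rintro h
    obtain ⟨n, hn⟩ := h2
    exact hn (h n)
  rw [tord_nonunits_iff, not_or, not_and, not_not] at h5
  exact ⟨h5.1, h3, h5.2 h3⟩

theorem e_gd : SpEgd := by
  intro K L _ _ _ τ hτ
  refine ⟨fun a c hc => e09_coord hτ hc, fun s E hs hE => ?_⟩
  obtain ⟨π, hπ, -⟩ := id hs
  set ϖ : L := algebraMap K L π with hϖ
  have hϖ0 : ϖ ≠ 0 := (_root_.map_ne_zero _).2 hπ.1
  -- every nonzero element is a power of the uniformizer times a unit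
  have key : ∀ t : L, t ≠ 0 → ∃ (n : ℤ) (u : Lˣ), UnitIn E u ∧ t = ϖ ^ n * u := by
    intro t ht
    obtain ⟨P, Q, hQ, hPQ⟩ := hτ.2 t
    have hQ0 : Q ≠ 0 := by rintro rfl; exact hQ (map_zero _)
    have hP0 : P ≠ 0 := by
      rintro rfl
      rw [map_zero] at hPQ
      exact (mul_ne_zero ht hQ) hPQ
    obtain ⟨m, P0, hp1, hp2, hp3⟩ := e09_prim hs hπ hP0
    obtain ⟨l, Q0, hq1, hq2, hq3⟩ := e09_prim hs hπ hQ0
    obtain ⟨a1, a2, a3⟩ := e09_unit hE hp1 hp2
    obtain ⟨b1, b2, b3⟩ := e09_unit hE hq1 hq2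
    have hP : aeval τ P = ϖ ^ m * aeval τ P0 := by
      rw [hp3, map_mul, aeval_C, map_zpow₀]
    have hQ' : aeval τ Q = ϖ ^ l * aeval τ Q0 := by
      rw [hq3, map_mul, aeval_C, map_zpow₀]
    refine ⟨m - l, Units.mk0 (aeval τ P0 * (aeval τ Q0)⁻¹) (mul_ne_zero a1 (inv_ne_zero b1)),
      ⟨?_, ?_⟩, ?_⟩
    · exact E.mul_mem _ _ a2 b3
    · rw [Units.val_inv_eq_inv_val, Units.val_mk0, mul_inv, inv_inv]
      exact E.mul_mem _ _ a3 b2
    · rw [Units.val_mk0, zpow_sub₀ hϖ0]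
      rw [hP, hQ'] at hPQ
      have h1 : ϖ ^ l ≠ 0 := zpow_ne_zero l hϖ0
      field_simp
      rw [← hPQ]
      ring
  have hmem : ϖ ∈ E ∧ ϖ ∈ E.nonunits := by
    have h1 := hE (C π) (fun n => by
      rw [coeff_C]
      split_ifs
      · exact (tord_unif_mem hπ).1
      · exact s.zero_mem)
    rw [aeval_C] at h1
    refine ⟨h1.1, h1.2.2 fun n => ?_⟩
    rw [coeff_C]
    split_ifs
    · exact tord_unif_nonunit hπ
    · exact tord_nonunits_iff.2 (Or.inl rfl)
  have hinv : ϖ⁻¹ ∉ E := by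
    rcases tord_nonunits_iff.1 hmem.2 with h | h
    · exact absurd h hϖ0
    · exact h.2
  refine ⟨ϖ, ⟨hϖ0, fun x => ?_⟩, key⟩
  constructor
  · intro hx
    rcases tord_nonunits_iff.1 hx with h0 | ⟨h1, h2⟩
    · exact ⟨0, E.zero_mem, by rw [h0, mul_zero]⟩
    · have hx0 : x ≠ 0 := by
        rintro rfl
        rw [inv_zero] at h2
        exact h2 E.zero_mem
      obtain ⟨n, u, hu, hn⟩ := key x hx0
      have hpos : 0 < n := by
        by_contra hle
        push Not at hle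
        apply h2
        obtain ⟨m, rfl⟩ : ∃ m : ℕ, n = -(m : ℤ) := ⟨(-n).toNat, by omega⟩
        rw [hn, mul_inv, zpow_neg, inv_inv, zpow_natCast, ← Units.val_inv_eq_inv_val]
        exact E.mul_mem _ _ (pow_mem hmem.1 m) hu.2
      obtain ⟨m, rfl⟩ : ∃ m : ℕ, n = (m : ℤ) + 1 := ⟨(n - 1).toNat, by omega⟩
      refine ⟨ϖ ^ m * u, E.mul_mem _ _ (pow_mem hmem.1 m) hu.1, ?_⟩
      rw [hn, zpow_add₀ hϖ0, zpow_natCast, zpow_one]
      ring
  · rintro ⟨c, hc, rfl⟩
    by_cases h0 : c = 0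
    · exact tord_nonunits_iff.2 (Or.inl (by rw [h0, mul_zero]))
    · refine tord_nonunits_iff.2 (Or.inr ⟨E.mul_mem _ _ hmem.1 hc, fun h => hinv ?_⟩)
      have h1 := E.mul_mem _ _ h hc
      rwa [mul_inv, mul_assoc, inv_mul_cancel₀ h0, mul_one] at h1

end Pool.Agent.H19.UT
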