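import Pool.Agent.H19.UT.SpE2

/-!
Project UT, row E11: the field `K2(t)` between `L = K(t)` and `M = Ω(t)`.
-/

set_option autoImplicit false
set_option maxHeartbeats 400000

open Polynomial Pool.Agent.K1

namespace Pool.Agent.H19.UT

theorem e_mid : SpEmid := by
  intro K L Ω M K2 _ _ _ _ _ _ _ _ _ _ _ φ hφ τ hτ ht
  let _ : Algebra K2 M := ((algebraMap Ω M).comp (algebraMap K2 Ω)).toAlgebra
  have hK2 : ∀ a : K2, algebraMap K2 M a = algebraMap Ω M (algebraMap K2 Ω a) := fun _ => rfl
  set t : M := φ τ with htdef
  -- polynomials over `K`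
  have hP : ∀ P : K[X], φ (aeval τ P) = aeval t (P.map (algebraMap K K2)) := by
    intro P
    rw [aeval_def, aeval_def, hom_eval₂, eval₂_map]
    congr 1
    refine RingHom.ext fun a => ?_
    rw [RingHom.comp_apply, RingHom.comp_apply, hφ, hK2, IsScalarTower.algebraMap_apply K K2 Ω a]
  -- polynomials over `K2`
  have hP2 : ∀ P : K2[X], aeval t P = aeval t (P.map (algebraMap K2 Ω)) := by
    intro P
    rw [aeval_def, aeval_def, eval₂_map]
    rfl
  have hpoly : ∀ P : K2[X], aeval t P ∈ IntermediateField.adjoin K2 {t} := fun P =>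
    IntermediateField.algebra_adjoin_le_adjoin K2 {t} (aeval_mem_adjoin_singleton K2 t)
  have hmem : ∀ x : L, φ x ∈ IntermediateField.adjoin K2 {t} := by
    intro x
    obtain ⟨P, Q, hQ, h⟩ := hτ.2 x
    have hQ' : φ (aeval τ Q) ≠ 0 := (map_ne_zero φ).2 hQ
    have h1 : φ x = φ (aeval τ P) / φ (aeval τ Q) := by
      rw [← h, map_mul]
      field_simp
    rw [h1, hP, hP]
    exact div_mem (hpoly _) (hpoly _)
  refine ⟨↥(IntermediateField.adjoin K2 {t}), inferInstance, inferInstance,
    φ.codRestrict (IntermediateField.adjoin K2 {t}) hmem,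
    (IntermediateField.adjoin K2 {t}).val.toRingHom, fun x => rfl, fun a => ?_, fun a => ?_, ?_⟩
  · rw [← hK2]
    rfl
  · apply Subtype.ext
    change φ (algebraMap K L a) = algebraMap K2 M (algebraMap K K2 a)
    rw [hφ, hK2, IsScalarTower.algebraMap_apply K K2 Ω a]
  · set t2 : ↥(IntermediateField.adjoin K2 {t}) :=
      φ.codRestrict (IntermediateField.adjoin K2 {t}) hmem τ with ht2
    have hval : ∀ P : K2[X], ((aeval t2 P : ↥(IntermediateField.adjoin K2 {t})) : M) =
        aeval t P := by
      intro P
      have := aeval_algHom_apply (IntermediateField.adjoin K2 {t}).val t2 P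
      exact this.symm
    refine ⟨?_, fun f => ?_⟩
    · rw [transcendental_iff]
      intro P h
      have h1 : aeval t P = 0 := by
        rw [← hval, h]
        rfl
      rw [hP2] at h1
      have h2 := transcendental_iff.1 ht.1 _ h1
      exact (Polynomial.map_eq_zero _).1 h2
    · obtain ⟨r, s, hrs⟩ := IntermediateField.mem_adjoin_simple_iff K2 (f : M) |>.1 f.2
      by_cases hs : aeval t s = 0
      · refine ⟨0, 1, ?_, ?_⟩
        · rw [map_one]
          exact one_ne_zero
        · have : f = 0 := by
            apply Subtype.ext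
            rw [hrs, hs, div_zero]
            rfl
          rw [this, zero_mul, map_zero]
      · refine ⟨r, s, ?_, ?_⟩
        · intro h
          apply hs
          rw [← hval, h]
          rfl
        · apply Subtype.ext
          change (f : M) * ((aeval t2 s : ↥(IntermediateField.adjoin K2 {t})) : M) =
            ((aeval t2 r : ↥(IntermediateField.adjoin K2 {t})) : M)
          rw [hval, hval, hrs]
          field_simp

end Pool.Agent.H19.UT
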