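import Pool.Agent.H19.UT.SpE2

/-!
Project UT, row E08: an element with transcendental residue over `K` is not congruent to an
algebraic element.
-/

set_option autoImplicit false
set_option maxHeartbeats 400000

open Polynomial Pool.Agent.K1

namespace Pool.Agent.H19.UT

/-- Scaling a nonzero polynomial to be primitive. -/
theorem e08_scale {K : Type} [Field K] (s : ValuationSubring K) {P : K[X]} (hP : P ≠ 0) :
    ∃ c : K, (∀ n, (C c * P).coeff n ∈ s) ∧ ∃ n, (C c * P).coeff n ∉ s.nonunits := by
  obtain ⟨n, hn, hmax⟩ := Finset.exists_max_image P.support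
    (fun n => s.valuation (P.coeff n)) (Polynomial.nonempty_support_iff.2 hP)
  have hn0 : P.coeff n ≠ 0 := Polynomial.mem_support_iff.1 hn
  have hv0 : s.valuation (P.coeff n) ≠ 0 := (Valuation.ne_zero_iff _).2 hn0
  refine ⟨(P.coeff n)⁻¹, fun m => ?_, n, ?_⟩
  · rw [Polynomial.coeff_C_mul, ← ValuationSubring.valuation_le_one_iff, map_mul, map_inv₀]
    by_cases hm : m ∈ P.support
    · rw [← mul_inv_cancel₀ hv0, mul_comm]
      exact mul_le_mul_left (hmax m hm) _
    · rw [Polynomial.notMem_support_iff.1 hm, map_zero, mul_zero]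
      exact zero_le
  · rw [Polynomial.coeff_C_mul, ValuationSubring.mem_nonunits_iff, inv_mul_cancel₀ hn0, map_one]
    exact lt_irrefl _

/-- Values of a polynomial at congruent elements are congruent. -/
theorem e08_eval {K M : Type} [Field K] [Field M] (V : ValuationSubring M) (i : K →+* M)
    (Q : K[X]) (hQ : ∀ n, i (Q.coeff n) ∈ V) {x y : M} (hx : x ∈ V) (hy : y ∈ V)
    (hxy : x - y ∈ V.nonunits) : Q.eval₂ i x - Q.eval₂ i y ∈ V.nonunits := by
  have hpow : ∀ n : ℕ, x ^ n - y ^ n ∈ V.nonunits := by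
    intro n
    induction n with
    | zero =>
      rw [pow_zero, pow_zero, sub_self]
      exact V.nonunits.zero_mem
    | succ n ih =>
      have h1 : x ^ (n + 1) - y ^ (n + 1) = x ^ n * (x - y) + y * (x ^ n - y ^ n) := by ring
      rw [h1]
      exact V.nonunits.add_mem (nonunits_mul (pow_mem hx n) hxy) (nonunits_mul hy ih)
  rw [Polynomial.eval₂_eq_sum, Polynomial.eval₂_eq_sum, Polynomial.sum_def, Polynomial.sum_def,
    ← Finset.sum_sub_distrib]
  refine sum_mem fun n _ => ?_
  rw [← mul_sub]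
  exact nonunits_mul (hQ n) (hpow n)

theorem e_nc : SpEnc := by
  intro K L Ω M _ _ _ _ _ _ _ _ φ hφ W V hVW z hz b hb
  obtain ⟨P, hP0, hPb⟩ := Algebra.IsAlgebraic.isAlgebraic (R := K) b
  obtain ⟨c, hc1, n, hc2⟩ := e08_scale (W.comap (algebraMap K L)) hP0
  have hX : z ∈ W := by
    have h1 := (hz X (fun m => by
      rw [Polynomial.coeff_X]
      split_ifs
      · exact one_mem _
      · exact zero_mem _)).1
    rwa [aeval_X] at h1
  have hzV : φ z ∈ V := by
    rw [← hVW] at hX
    exact hX
  have hbV : algebraMap Ω M b ∈ V := by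
    have h1 : algebraMap Ω M b = φ z - (φ z - algebraMap Ω M b) := by ring
    rw [h1]
    exact sub_mem hzV (ValuationSubring.nonunits_subset hb)
  have hcV : ∀ m, ((algebraMap Ω M).comp (algebraMap K Ω)) ((C c * P).coeff m) ∈ V := by
    intro m
    have h1 := hc1 m
    rw [← hVW] at h1
    have h2 : φ (algebraMap K L ((C c * P).coeff m)) ∈ V := h1
    rw [hφ] at h2
    exact h2
  have h1 := e08_eval V ((algebraMap Ω M).comp (algebraMap K Ω)) (C c * P) hcV hzV hbV hb
  have h2 : (C c * P).eval₂ ((algebraMap Ω M).comp (algebraMap K Ω)) (algebraMap Ω M b) = 0 := by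
    rw [← Polynomial.hom_eval₂, ← Polynomial.aeval_def, map_mul, hPb, mul_zero, map_zero]
  have h3 : (C c * P).eval₂ ((algebraMap Ω M).comp (algebraMap K Ω)) (φ z) =
      φ (aeval z (C c * P)) := by
    have h4 : (algebraMap Ω M).comp (algebraMap K Ω) = φ.comp (algebraMap K L) := by
      ext a
      exact (hφ a).symm
    rw [h4, ← Polynomial.hom_eval₂, Polynomial.aeval_def]
  rw [h2, sub_zero, h3] at h1
  have h5 : aeval z (C c * P) ∈ W.nonunits := by
    rw [← hVW]
    exact (comap_nonunits φ V _).2 h1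
  exact hc2 ((hz (C c * P) hc1).2.1 h5 n)

end Pool.Agent.H19.UT
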