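import Pool.Agent.H19.UT.SpE2

/-!
Project UT, row E06: a coordinate which is not immediate (helper48).
-/

set_option autoImplicit false
set_option maxHeartbeats 400000

open Polynomial Pool.Agent.K1

namespace Pool.Agent.H19.UT

section e06

variable {Ω M : Type} [Field Ω] [Field M] [Algebra Ω M]

/-- `x = y (1 + nonunit)`. -/
def e06Sim (V : ValuationSubring M) (x y : M) : Prop := V.valuation (x - y) < V.valuation y

theorem e06_sim_val {V : ValuationSubring M} {x y : M} (h : e06Sim V x y) :
    V.valuation x = V.valuation y := by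
  have h1 := Valuation.map_add_eq_of_lt_left V.valuation h
  rwa [add_sub_cancel] at h1

theorem e06_sim_mul {V : ValuationSubring M} {x y x' y' : M} (h : e06Sim V x y)
    (h' : e06Sim V x' y') : e06Sim V (x * x') (y * y') := by
  have e : x * x' - y * y' = (x - y) * x' + y * (x' - y') := by ring
  have hx' := e06_sim_val h'
  have hy : 0 < V.valuation y := lt_of_le_of_lt zero_le h
  have hy' : 0 < V.valuation y' := lt_of_le_of_lt zero_le h'
  unfold e06Sim
  rw [e]
  refine Valuation.map_add_lt V.valuation ?_ ?_
  · rw [map_mul, map_mul, hx']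
    exact mul_lt_mul_of_pos_right h hy'
  · rw [map_mul, map_mul]
    exact mul_lt_mul_of_pos_left h' hy

theorem e06_sim_refl {V : ValuationSubring M} {x : M} (h : x ≠ 0) : e06Sim V x x := by
  unfold e06Sim
  rw [sub_self, map_zero]
  exact zero_lt_iff.2 ((_root_.map_ne_zero _).2 h)

theorem e06_prod {V : ValuationSubring M} {t : M} {a : Ω} (S : Multiset Ω)
    (h : ∀ r ∈ S, V.valuation (t - algebraMap Ω M a) < V.valuation (t - algebraMap Ω M r)) :
    e06Sim V ((S.map fun r => t - algebraMap Ω M r).prod)
      (algebraMap Ω M ((S.map fun r => a - r).prod)) := by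
  induction S using Multiset.induction_on with
  | empty =>
    simp only [Multiset.map_zero, Multiset.prod_zero, map_one]
    exact e06_sim_refl one_ne_zero
  | cons r S ih =>
    rw [Multiset.map_cons, Multiset.prod_cons, Multiset.map_cons, Multiset.prod_cons, map_mul]
    refine e06_sim_mul ?_ (ih fun s hs => h s (Multiset.mem_cons_of_mem hs))
    have h1 := h r (Multiset.mem_cons_self r S)
    unfold e06Sim
    have e : t - algebraMap Ω M r - algebraMap Ω M (a - r) = t - algebraMap Ω M a := by
      rw [map_sub]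
      ring
    have e2 : algebraMap Ω M (a - r) =
        -(t - algebraMap Ω M a) + (t - algebraMap Ω M r) := by
      rw [map_sub]
      ring
    rw [e]
    have h2 : V.valuation (algebraMap Ω M (a - r)) = V.valuation (t - algebraMap Ω M r) := by
      rw [e2]
      refine Valuation.map_add_eq_of_lt_right V.valuation ?_
      rwa [Valuation.map_neg]
    rwa [h2]

theorem e06_poly [IsAlgClosed Ω] {V : ValuationSubring M} {t : M} {a : Ω} {P : Polynomial Ω} (hP : P ≠ 0)
    (h : ∀ r ∈ P.roots,
      V.valuation (t - algebraMap Ω M a) < V.valuation (t - algebraMap Ω M r)) :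
    e06Sim V (aeval t P) (algebraMap Ω M (P.eval a)) := by
  have hs : P = C P.leadingCoeff * (P.roots.map fun r => X - C r).prod :=
    (IsAlgClosed.splits P).eq_prod_roots
  have h1 : aeval t P = algebraMap Ω M P.leadingCoeff *
      (P.roots.map fun r => t - algebraMap Ω M r).prod := by
    conv_lhs => rw [hs]
    rw [map_mul, aeval_C, map_multiset_prod, Multiset.map_map]
    congr 2
    refine Multiset.map_congr rfl fun r _ => ?_
    simp
  have h2 : P.eval a = P.leadingCoeff * (P.roots.map fun r => a - r).prod := by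
    conv_lhs => rw [hs]
    rw [eval_mul, eval_C, eval_multiset_prod, Multiset.map_map]
    congr 2
    refine Multiset.map_congr rfl fun r _ => ?_
    simp
  rw [h1, h2, map_mul]
  exact e06_sim_mul (e06_sim_refl ((_root_.map_ne_zero _).2 (leadingCoeff_ne_zero.2 hP)))
    (e06_prod _ h)

theorem e06_better {V : ValuationSubring M} {t : M} (S : Multiset Ω)
    (h : ∀ a : Ω, ∃ a' : Ω,
      V.valuation (t - algebraMap Ω M a') < V.valuation (t - algebraMap Ω M a)) :
    ∃ a : Ω, ∀ r ∈ S,
      V.valuation (t - algebraMap Ω M a) < V.valuation (t - algebraMap Ω M r) := by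
  induction S using Multiset.induction_on with
  | empty => exact ⟨0, fun r hr => absurd hr (Multiset.notMem_zero r)⟩
  | cons s S ih =>
    obtain ⟨a1, h1⟩ := ih
    obtain ⟨a2, h2⟩ := h s
    rcases le_total (V.valuation (t - algebraMap Ω M a1))
      (V.valuation (t - algebraMap Ω M a2)) with hle | hle
    · refine ⟨a1, fun r hr => ?_⟩
      rcases Multiset.mem_cons.1 hr with rfl | hr
      · exact lt_of_le_of_lt hle h2
      · exact h1 r hr
    · refine ⟨a2, fun r hr => ?_⟩
      rcases Multiset.mem_cons.1 hr with rfl | hr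
      · exact h2
      · exact lt_of_le_of_lt hle (h1 r hr)

end e06

theorem e_pseudo : SpEpseudo := by
  intro Ω M _ _ _ _ t ht V hV z hz hzb
  by_contra hno
  push Not at hno
  have hne : ∀ a : Ω, t - algebraMap Ω M a ≠ 0 := by
    intro a h0
    refine ht.1 ?_
    rw [sub_eq_zero.1 h0]
    exact isAlgebraic_algebraMap a
  have step : ∀ a : Ω, ∃ a' : Ω,
      V.valuation (t - algebraMap Ω M a') < V.valuation (t - algebraMap Ω M a) := by
    intro a
    obtain ⟨c, hc1, hc2⟩ := hV (Units.mk0 _ (hne a))
    have hc0 : (c : Ω) ≠ 0 := c.ne_zero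
    have hic0 : algebraMap Ω M (c : Ω) ≠ 0 := (_root_.map_ne_zero _).2 hc0
    have e1 : ((Units.mk0 (t - algebraMap Ω M a) (hne a) *
        (Units.map (algebraMap Ω M : Ω →* M) c)⁻¹ : Mˣ) : M) =
        (t - algebraMap Ω M a) / algebraMap Ω M (c : Ω) := by
      rw [Units.val_mul, Units.val_mk0, Units.val_inv_eq_inv_val, div_eq_mul_inv]
      rfl
    have hmem : (t - algebraMap Ω M a) / algebraMap Ω M (c : Ω) ∈ V := by
      rw [← e1]
      exact hc1
    have hinv : ((t - algebraMap Ω M a) / algebraMap Ω M (c : Ω))⁻¹ ∈ V := by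
      rw [← e1, ← Units.val_inv_eq_inv_val]
      exact hc2
    have hval : V.valuation (t - algebraMap Ω M a) = V.valuation (algebraMap Ω M (c : Ω)) := by
      have hle := (V.valuation_le_one_iff _).2 hmem
      have hle' := (V.valuation_le_one_iff _).2 hinv
      have hpos : 0 < V.valuation (algebraMap Ω M (c : Ω)) := zero_lt_iff.2 ((_root_.map_ne_zero _).2 hic0)
      have hpos' : 0 < V.valuation (t - algebraMap Ω M a) :=
        zero_lt_iff.2 ((_root_.map_ne_zero _).2 (hne a))
      rw [map_div₀, div_le_one₀ hpos] at hle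
      rw [inv_div, map_div₀, div_le_one₀ hpos'] at hle'
      exact le_antisymm hle hle'
    obtain ⟨b, hb⟩ := hno a c hc0 hmem
    refine ⟨a + c * b, ?_⟩
    have e2 : t - algebraMap Ω M (a + c * b) = algebraMap Ω M (c : Ω) *
        ((t - algebraMap Ω M a) / algebraMap Ω M (c : Ω) - algebraMap Ω M b) := by
      rw [map_add, map_mul]
      field_simp
      ring
    rw [e2, map_mul, hval]
    have hb' : V.valuation ((t - algebraMap Ω M a) / algebraMap Ω M (c : Ω) -
        algebraMap Ω M b) < 1 := V.mem_nonunits_iff.1 hb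
    calc V.valuation (algebraMap Ω M (c : Ω)) *
        V.valuation ((t - algebraMap Ω M a) / algebraMap Ω M (c : Ω) - algebraMap Ω M b)
        < V.valuation (algebraMap Ω M (c : Ω)) * 1 :=
          mul_lt_mul_of_pos_left hb' (zero_lt_iff.2 ((_root_.map_ne_zero _).2 hic0))
      _ = V.valuation (algebraMap Ω M (c : Ω)) := mul_one _
  obtain ⟨P, Q, hQ, hPQ⟩ := ht.2 z
  have hQ0 : Q ≠ 0 := by
    rintro rfl
    exact hQ (map_zero _)
  by_cases hP0 : P = 0
  · rw [hP0, map_zero] at hPQ
    have hz0 : z = 0 := (mul_eq_zero.1 hPQ).resolve_right hQ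
    refine hzb 0 ?_
    rw [hz0, map_zero, sub_zero]
    exact V.mem_nonunits_iff.2 (by rw [map_zero]; exact zero_lt_one)
  · obtain ⟨a, ha⟩ := e06_better (V := V) (t := t) (P.roots + Q.roots) step
    have hsP : e06Sim V (aeval t P) (algebraMap Ω M (P.eval a)) :=
      e06_poly hP0 fun r hr => ha r (Multiset.mem_add.2 (Or.inl hr))
    have hsQ : e06Sim V (aeval t Q) (algebraMap Ω M (Q.eval a)) :=
      e06_poly hQ0 fun r hr => ha r (Multiset.mem_add.2 (Or.inr hr))
    have hp : algebraMap Ω M (P.eval a) ≠ 0 := by
      intro h0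
      have := e06_sim_val hsP
      rw [h0, map_zero] at this
      have h3 : V.valuation (aeval t P - algebraMap Ω M (P.eval a)) <
        V.valuation (algebraMap Ω M (P.eval a)) := hsP
      rw [h0, map_zero] at h3
      exact not_lt_zero h3
    have hq : algebraMap Ω M (Q.eval a) ≠ 0 := by
      intro h0
      have h3 : V.valuation (aeval t Q - algebraMap Ω M (Q.eval a)) <
        V.valuation (algebraMap Ω M (Q.eval a)) := hsQ
      rw [h0, map_zero] at h3
      exact not_lt_zero h3
    refine hzb (P.eval a / Q.eval a) (V.mem_nonunits_iff.2 ?_)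
    have hz1 : z = aeval t P / aeval t Q := (eq_div_iff hQ).2 hPQ
    have e3 : z - algebraMap Ω M (P.eval a / Q.eval a) =
        ((aeval t P - algebraMap Ω M (P.eval a)) * algebraMap Ω M (Q.eval a) -
          algebraMap Ω M (P.eval a) * (aeval t Q - algebraMap Ω M (Q.eval a))) /
        (aeval t Q * algebraMap Ω M (Q.eval a)) := by
      rw [hz1, map_div₀]
      field_simp
      ring
    have hposp : 0 < V.valuation (algebraMap Ω M (P.eval a)) :=
      zero_lt_iff.2 ((_root_.map_ne_zero _).2 hp)
    have hposq : 0 < V.valuation (algebraMap Ω M (Q.eval a)) :=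
      zero_lt_iff.2 ((_root_.map_ne_zero _).2 hq)
    have hnum : V.valuation ((aeval t P - algebraMap Ω M (P.eval a)) *
        algebraMap Ω M (Q.eval a) -
        algebraMap Ω M (P.eval a) * (aeval t Q - algebraMap Ω M (Q.eval a))) <
        V.valuation (algebraMap Ω M (P.eval a)) * V.valuation (algebraMap Ω M (Q.eval a)) := by
      refine Valuation.map_sub_lt V.valuation ?_ ?_
      · rw [map_mul]
        exact mul_lt_mul_of_pos_right hsP hposq
      · rw [map_mul]
        exact mul_lt_mul_of_pos_left hsQ hposp
    have hzle : V.valuation z ≤ 1 := (V.valuation_le_one_iff z).2 hz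
    rw [e3, map_div₀, map_mul (f := V.valuation) (aeval t Q), e06_sim_val hsQ]
    have hden : 0 < V.valuation (algebraMap Ω M (Q.eval a)) *
        V.valuation (algebraMap Ω M (Q.eval a)) := mul_pos hposq hposq
    rw [div_lt_one₀ hden]
    refine lt_of_lt_of_le hnum ?_
    refine mul_le_mul_left ?_ _
    rw [hz1, map_div₀, e06_sim_val hsP, e06_sim_val hsQ, div_le_one₀ hposq] at hzle
    exact hzle

end Pool.Agent.H19.UT
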