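import Pool.Agent.H19.UT.SpE2

/-!
Project UT, row E02 (helper40): any two elements of `K(τ)` are algebraically dependent over `K`,
and the relation can be scaled to have coefficients in a given valuation ring, one of them a unit.
-/

set_option autoImplicit false
set_option maxHeartbeats 400000

open Polynomial Pool.Agent.K1

namespace Pool.Agent.H19.UT

/-- `L = K(τ)` is algebraic over `K[τ]`. -/
lemma e02_alg (K L : Type) [Field K] [Field L] [Algebra K L] (τ : L) (h : Coord K L τ) :
    Algebra.IsAlgebraic (Algebra.adjoin K ({τ} : Set L)) L := by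
  constructor
  intro f
  obtain ⟨P, Q, hQ, hf⟩ := h.2 f
  have hm : ∀ R : K[X], aeval τ R ∈ Algebra.adjoin K ({τ} : Set L) := fun R =>
    Polynomial.aeval_mem_adjoin_singleton K τ
  let q : Algebra.adjoin K ({τ} : Set L) := ⟨aeval τ Q, hm Q⟩
  let p : Algebra.adjoin K ({τ} : Set L) := ⟨aeval τ P, hm P⟩
  have hq : q ≠ 0 := fun h0 => hQ (congrArg Subtype.val h0)
  refine ⟨C q * X - C p, ?_, ?_⟩
  · intro h0
    have h1 := congrArg (fun R => R.coeff 1) h0
    simp only [coeff_sub, coeff_C_mul, coeff_X_one, mul_one, coeff_C_of_ne_zero one_ne_zero, sub_zero,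
      coeff_zero] at h1
    exact hq h1
  · simp only [map_sub, map_mul, aeval_C, aeval_X]
    have h1 : algebraMap (Algebra.adjoin K ({τ} : Set L)) L q = aeval τ Q := rfl
    have h2 : algebraMap (Algebra.adjoin K ({τ} : Set L)) L p = aeval τ P := rfl
    rw [h1, h2, ← hf]
    ring

/-- Any two elements of `K(τ)` are algebraically dependent over `K`. -/
lemma e02_dep (K L : Type) [Field K] [Field L] [Algebra K L] (τ : L) (h : Coord K L τ)
    (z : Fin 2 → L) : ¬ AlgebraicIndependent K z := by
  intro hz
  have := e02_alg K L τ h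
  have h1 := hz.cardinalMk_le_trdeg
  have h2 := Algebra.IsAlgebraic.trdeg_le_cardinalMk K (A := L) ({τ} : Set L)
  have h3 := h1.trans h2
  simp at h3

theorem e_relK : SpErelK := by
  intro K L _ _ _ τ hτ s z
  have hz := e02_dep K L τ hτ z
  rw [algebraicIndependent_iff] at hz
  push Not at hz
  obtain ⟨P, hP, hP0⟩ := hz
  have hne : P.support.Nonempty := by
    rwa [Finset.nonempty_iff_ne_empty, Ne, MvPolynomial.support_eq_empty]
  obtain ⟨m0, hm0, hmax⟩ := Finset.exists_max_image P.support (fun m => s.valuation (P.coeff m)) hne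
  have hc : P.coeff m0 ≠ 0 := MvPolynomial.mem_support_iff.1 hm0
  refine ⟨MvPolynomial.C (P.coeff m0)⁻¹ * P, ?_, ⟨m0, ?_⟩, ?_⟩
  · intro m
    rw [MvPolynomial.coeff_C_mul, ← ValuationSubring.valuation_le_one_iff, map_mul, map_inv₀]
    have hle : s.valuation (P.coeff m) ≤ s.valuation (P.coeff m0) := by
      by_cases hm : m ∈ P.support
      · exact hmax m hm
      · rw [MvPolynomial.notMem_support_iff.1 hm, map_zero]
        exact zero_le
    have hv : s.valuation (P.coeff m0) ≠ 0 := by
      rwa [Valuation.ne_zero_iff]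
    calc (s.valuation (P.coeff m0))⁻¹ * s.valuation (P.coeff m)
        ≤ (s.valuation (P.coeff m0))⁻¹ * s.valuation (P.coeff m0) :=
          mul_le_mul_right hle _
      _ = 1 := inv_mul_cancel₀ hv
  · rw [MvPolynomial.coeff_C_mul, inv_mul_cancel₀ hc, ValuationSubring.mem_nonunits_iff, map_one]
    exact lt_irrefl _
  · rw [map_mul, hP, mul_zero]

end Pool.Agent.H19.UT
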