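import Pool.Agent.H19.UT.Big
import Pool.Agent.H19.UT.Bc
import Pool.Agent.H19.UT.RelK
import Pool.Agent.H19.UT.RelS
import Pool.Agent.H19.UT.ResTr
import Pool.Agent.H19.UT.ExtW
import Pool.Agent.H19.UT.Pseudo
import Pool.Agent.H19.UT.GaussAlg
import Pool.Agent.H19.UT.NotCong
import Pool.Agent.H19.UT.GaussD
import Pool.Agent.H19.UT.Disc2
import Pool.Agent.H19.UT.Mid
import Pool.Agent.H19.UT.ExtQ
import Pool.Agent.H19.UT.ExtDisc

/-!
Project UT, block E complete: `SpAllDiv` without hypotheses (helper51).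
-/

set_option autoImplicit false
set_option maxHeartbeats 400000

open Polynomial Pool.Agent.K1

namespace Pool.Agent.H19.UT

theorem sp_eall_full : SpEall :=
  e_all e_bc e_relK e_relS e_res (e_ext ext_q) e_pseudo e_galg e_nc e_gd (e_disc ext_disc) e_mid

theorem sp_alldiv_full : SpAllDiv := sp_alldiv sp_eall_full

end Pool.Agent.H19.UT
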