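import Pool.Agent.H19.UT.SpC

/-!
Project UT, row C07: all divisorial valuations of `K` (helper82).
-/

set_option autoImplicit false
set_option maxHeartbeats 400000

open Polynomial Pool.Agent.K1

namespace Pool.Agent.H19.UT

/-- C07 -/
theorem sp_allk (h4 : SpGf) (hd : SpCDesc) : SpAllK := by
  intro p k K L _ _ _ _ _ _ _ hb S τ hτ d hh g hg hS s hs htr
  have hcyc : CycK k g := (h4 p k K L hb τ hτ d hh).2 g hg
  have hne : s ≠ ⊤ := discV_ne_top hs
  rcases S.ctr s hne with h | ⟨R, hR, hdom⟩
  · exact hS s h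
  · exact hd p k K hb g hcyc R (S.reg R hR) (S.res R hR)
      (fun s' hs' => hS s' (S.on R hR s' hs')) s hs hdom htr

end Pool.Agent.H19.UT
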