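import Pool.Agent.H19.UT.SpA

/-!
Project UT, row A04: the cycle condition if the ring contains a chart (helper36).
-/

set_option autoImplicit false
set_option maxHeartbeats 400000

open Pool.Agent.K1

namespace Pool.Agent.H19.UT

section a04

theorem a04_sm_of {L : Type} [Field L] (D : ValuationSubring L) (u v : Lˣ) :
    sm D (FreeAbelianGroup.of (u, v)) =
      u ^ ordV D (v : L) * v ^ (-(ordV D (u : L))) := by
  unfold sm smb
  rw [FreeAbelianGroup.lift_apply_of]
  rfl

theorem a04_sm_add {L : Type} [Field L] (D : ValuationSubring L) (β β' : Sy L) :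
    sm D (β + β') = sm D β * sm D β' := by
  unfold sm
  rw [map_add]
  rfl

theorem a04_sm_neg {L : Type} [Field L] (D : ValuationSubring L) (β : Sy L) :
    sm D (-β) = (sm D β)⁻¹ := by
  unfold sm
  rw [map_neg]
  rfl

theorem a04_mul_left {L : Type} [Field L] {D : ValuationSubring L} (hD : IsDiscV D)
    (u u' v : Lˣ) : sm D (FreeAbelianGroup.of (u * u', v)) =
      sm D (FreeAbelianGroup.of (u, v) + FreeAbelianGroup.of (u', v)) := by
  rw [a04_sm_add, a04_sm_of, a04_sm_of, a04_sm_of, Units.val_mul,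
    ordV_mul hD u.ne_zero u'.ne_zero, neg_add, zpow_add, mul_zpow, mul_mul_mul_comm]

theorem a04_mul_right {L : Type} [Field L] {D : ValuationSubring L} (hD : IsDiscV D)
    (u v v' : Lˣ) : sm D (FreeAbelianGroup.of (u, v * v')) =
      sm D (FreeAbelianGroup.of (u, v) + FreeAbelianGroup.of (u, v')) := by
  rw [a04_sm_add, a04_sm_of, a04_sm_of, a04_sm_of, Units.val_mul,
    ordV_mul hD v.ne_zero v'.ne_zero, zpow_add, mul_zpow, mul_mul_mul_comm]

theorem a04_inv_left {L : Type} [Field L] {D : ValuationSubring L} (hD : IsDiscV D)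
    (u v : Lˣ) : sm D (FreeAbelianGroup.of (u⁻¹, v)) =
      sm D (-FreeAbelianGroup.of (u, v)) := by
  rw [a04_sm_neg, a04_sm_of, a04_sm_of, Units.val_inv_eq_inv_val, ordV_inv hD u.ne_zero,
    inv_zpow, mul_inv, zpow_neg v (ordV D (u : L)), zpow_neg v (-(ordV D (u : L))), zpow_neg]

theorem a04_inv_right {L : Type} [Field L] {D : ValuationSubring L} (hD : IsDiscV D)
    (u v : Lˣ) : sm D (FreeAbelianGroup.of (u, v⁻¹)) =
      sm D (-FreeAbelianGroup.of (u, v)) := by
  rw [a04_sm_neg, a04_sm_of, a04_sm_of, Units.val_inv_eq_inv_val, ordV_inv hD v.ne_zero,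
    zpow_neg u, inv_zpow, mul_inv]

/-- Every unit is a quotient of products of units and primes of `R`. -/
theorem a04_gen {L : Type} [Field L] {R : Subring L} (hU : UniqueFactorizationMonoid R)
    (hfr : ∀ f : L, ∃ a b : R, (b : L) ≠ 0 ∧ f * b = a) (p : Lˣ → Prop)
    (hmul : ∀ u v, p u → p v → p (u * v)) (hinv : ∀ u, p u → p u⁻¹)
    (hb : ∀ (r : R) (u : Lˣ), (u : L) = r → (IsUnit r ∨ Prime r) → p u) (u : Lˣ) : p u := by
  have key : ∀ a : R, a ≠ 0 → ∀ w : Lˣ, (w : L) = a → p w := by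
    intro a
    induction a using UniqueFactorizationMonoid.induction_on_prime with
    | h₁ => intro h; exact absurd rfl h
    | h₂ x hx => intro _ w hw; exact hb x w hw (Or.inl hx)
    | h₃ a q ha hq ih =>
      intro _ w hw
      have ha' : (a : L) ≠ 0 := fun h => ha (Subtype.ext h)
      have hq' : (q : L) ≠ 0 := fun h => hq.ne_zero (Subtype.ext h)
      have h1 : w = Units.mk0 (q : L) hq' * Units.mk0 (a : L) ha' := by
        apply Units.ext
        rw [hw, Units.val_mul, Units.val_mk0, Units.val_mk0]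
        rfl
      rw [h1]
      exact hmul _ _ (hb q _ rfl (Or.inr hq)) (ih ha _ rfl)
  obtain ⟨a, b, hb0, hab⟩ := hfr (u : L)
  have ha0 : (a : L) ≠ 0 := by
    rw [← hab]
    exact mul_ne_zero u.ne_zero hb0
  have h1 : u = Units.mk0 (a : L) ha0 * (Units.mk0 (b : L) hb0)⁻¹ := by
    rw [eq_mul_inv_iff_mul_eq]
    apply Units.ext
    rw [Units.val_mul, Units.val_mk0, Units.val_mk0, hab]
  rw [h1]
  exact hmul _ _ (key a (fun h => ha0 (by rw [h]; rfl)) _ rfl)
    (hinv _ (key b (fun h => hb0 (by rw [h]; rfl)) _ rfl))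

open Classical in
/-- The term of the cycle at `D`. -/
noncomputable def a04G {L : Type} [Field L] (R : Subring L) (β : Sy L)
    (D : ValuationSubring L) : ℤ := if On R D then oD R D (sm D β) else 0

/-- The cycle condition for `β`. -/
def A04P {L : Type} [Field L] (R : Subring L) (β : Sy L) : Prop :=
  (Function.support (a04G R β)).Finite ∧ ∑ᶠ D, a04G R β D = 0

variable {k L : Type} [Field k] [Field L] [Algebra k L] {R : Subring L}

theorem a04_torsV_one (D : ValuationSubring L) : TorsV D 1 := by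
  refine ⟨1, one_pos, ?_⟩
  rw [Units.val_one, pow_one, sub_self]
  exact tord_nonunits_iff.2 (Or.inl rfl)

theorem a04_G_add (h0 : SpSm) (h1 : SpOnFacts) (h2 : SpOD) (hR : Reg2 k R) (β β' : Sy L)
    (D : ValuationSubring L) : a04G R (β + β') D = a04G R β D + a04G R β' D := by
  unfold a04G
  by_cases h : On R D
  · rw [if_pos h, if_pos h, if_pos h, a04_sm_add]
    obtain ⟨f, hf⟩ := h
    have hD := ((h1 k L R hR).2.2.2.1 f D hf).1
    exact (h2 k L R hR f D hf).2.2.2.1 _ _ ((h0 L D hD).1 β) ((h0 L D hD).1 β')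
  · rw [if_neg h, if_neg h, if_neg h, add_zero]

theorem a04_G_zero (h0 : SpSm) (h1 : SpOnFacts) (h2 : SpOD) (hR : Reg2 k R)
    (D : ValuationSubring L) : a04G R (0 : Sy L) D = 0 := by
  have h := a04_G_add h0 h1 h2 hR (0 : Sy L) 0 D
  rw [add_zero] at h
  omega

theorem a04_G_neg (h0 : SpSm) (h1 : SpOnFacts) (h2 : SpOD) (hR : Reg2 k R) (β : Sy L)
    (D : ValuationSubring L) : a04G R (-β) D = -a04G R β D := by
  have h := a04_G_add h0 h1 h2 hR β (-β) D
  rw [add_neg_cancel, a04_G_zero h0 h1 h2 hR] at h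
  omega

theorem a04_G_congr (h1 : SpOnFacts) (hR : Reg2 k R) (β β' : Sy L)
    (h : ∀ D, IsDiscV D → sm D β = sm D β') : a04G R β = a04G R β' := by
  funext D
  unfold a04G
  by_cases hD : On R D
  · rw [if_pos hD, if_pos hD]
    obtain ⟨f, hf⟩ := hD
    rw [h D ((h1 k L R hR).2.2.2.1 f D hf).1]
  · rw [if_neg hD, if_neg hD]

theorem a04_P_congr (h1 : SpOnFacts) (hR : Reg2 k R) (β β' : Sy L)
    (h : ∀ D, IsDiscV D → sm D β = sm D β') (hP : A04P R β') : A04P R β := by
  unfold A04P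
  rw [a04_G_congr h1 hR β β' h]
  exact hP

theorem a04_P_zero (h0 : SpSm) (h1 : SpOnFacts) (h2 : SpOD) (hR : Reg2 k R) :
    A04P R (0 : Sy L) := by
  have h : a04G R (0 : Sy L) = 0 := funext fun D => a04_G_zero h0 h1 h2 hR D
  unfold A04P
  rw [h]
  refine ⟨?_, ?_⟩
  · rw [Function.support_zero]
    exact Set.finite_empty
  · exact finsum_zero

theorem a04_P_add (h0 : SpSm) (h1 : SpOnFacts) (h2 : SpOD) (hR : Reg2 k R) (β β' : Sy L)
    (hP : A04P R β) (hP' : A04P R β') : A04P R (β + β') := by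
  have h : a04G R (β + β') = fun D => a04G R β D + a04G R β' D :=
    funext fun D => a04_G_add h0 h1 h2 hR β β' D
  unfold A04P
  rw [h]
  refine ⟨?_, ?_⟩
  · exact (hP.1.union hP'.1).subset (Function.support_add _ _)
  · rw [finsum_add_distrib hP.1 hP'.1, hP.2, hP'.2, add_zero]

theorem a04_P_neg (h0 : SpSm) (h1 : SpOnFacts) (h2 : SpOD) (hR : Reg2 k R) (β : Sy L)
    (hP : A04P R β) : A04P R (-β) := by
  have h : a04G R (-β) = fun D => -a04G R β D :=
    funext fun D => a04_G_neg h0 h1 h2 hR β D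
  unfold A04P
  rw [h]
  refine ⟨?_, ?_⟩
  · have h3 : (Function.support fun D => -a04G R β D) = Function.support (a04G R β) := by
      ext D
      simp
    rw [h3]
    exact hP.1
  · rw [finsum_neg_distrib, hP.2, neg_zero]

/-- Generators of the same curve. -/
theorem a04_onR (h1 : SpOnFacts) (hR : Reg2 k R) {h r : R} {D : ValuationSubring L}
    (hD : OnR R h D) (hr : Prime r) (hd : h ∣ r) : OnR R r D := by
  have hA : Associated h r := hD.1.associated_of_dvd hr hd
  obtain ⟨D', hD'⟩ := (h1 k L R hR).2.2.1 r hr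
  have h3 := ((h1 k L R hR).2.2.2.2 h r D D' hD hD').2 hA
  rw [h3]
  exact hD'

theorem a04_ord_dvd (h1 : SpOnFacts) (hR : Reg2 k R) {h r : R} {D : ValuationSubring L}
    (hD : OnR R h D) (hr : Prime r) (hd : h ∣ r) : ordV D (r : L) = 1 := by
  have h3 := (h1 k L R hR).2.2.2.1 r D (a04_onR h1 hR hD hr hd)
  exact (isUnifV_iff h3.1 h3.2.1.1).1 h3.2.1

theorem a04_unitIn (h1 : SpOnFacts) (hR : Reg2 k R) {h r : R} {D : ValuationSubring L}
    (hD : OnR R h D) (hd : ¬ h ∣ r) {u : Lˣ} (hu : (u : L) = r) : UnitIn D u := by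
  have h3 := (h1 k L R hR).2.2.2.1 h D hD
  have h4 : (r : L) ∈ D := h3.2.2.1 r
  have h5 : (r : L) ∉ D.nonunits := fun h => hd ((h3.2.2.2 r).1 h)
  refine ⟨hu ▸ h4, ?_⟩
  rw [Units.val_inv_eq_inv_val, hu]
  by_contra h6
  exact h5 (tord_nonunits_iff.2 (Or.inr ⟨h4, h6⟩))

theorem a04_ord_ndvd (h1 : SpOnFacts) (hR : Reg2 k R) {h r : R} {D : ValuationSubring L}
    (hD : OnR R h D) (hd : ¬ h ∣ r) {u : Lˣ} (hu : (u : L) = r) : ordV D (u : L) = 0 :=
  (unitIn_iff_ordV ((h1 k L R hR).2.2.2.1 h D hD).1 u).1 (a04_unitIn h1 hR hD hd hu)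

theorem a04_oD_elt (h2 : SpOD) (hR : Reg2 k R) {h r : R} {D : ValuationSubring L}
    (hD : OnR R h D) (hd : ¬ h ∣ r) {u : Lˣ} (hu : (u : L) = r) :
    oD R D u = ((len h r).toNat : ℤ) := by
  refine (h2 k L R hR h D hD).2.2.1 u _ ⟨r, 1, hd, ?_, ?_, ?_⟩
  · intro h3
    exact hD.1.not_isUnit (isUnit_of_dvd_one h3)
  · rw [hu]
    exact mul_one _
  · rw [len_unit h isUnit_one]
    simp

theorem a04_oD_one (h2 : SpOD) (hR : Reg2 k R) {h : R} {D : ValuationSubring L}
    (hD : OnR R h D) : oD R D 1 = 0 :=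
  (h2 k L R hR h D hD).2.2.2.2 1 (a04_torsV_one D)

theorem a04_oD_inv (h2 : SpOD) (hR : Reg2 k R) {h : R} {D : ValuationSubring L}
    (hD : OnR R h D) {u : Lˣ} (hu : UnitIn D u) : oD R D u⁻¹ = -oD R D u := by
  have h3 := (h2 k L R hR h D hD).2.2.2.1 u u⁻¹ hu (tord_unitIn_inv hu)
  rw [mul_inv_cancel, a04_oD_one h2 hR hD] at h3
  omega

theorem a04_G_of {β : Sy L} {D : ValuationSubring L} (hD : On R D) :
    a04G R β D = oD R D (sm D β) := by
  unfold a04G
  rw [if_pos hD]

theorem a04_G_not {β : Sy L} {D : ValuationSubring L} (hD : ¬ On R D) :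
    a04G R β D = 0 := by
  unfold a04G
  rw [if_neg hD]

/-- Neither `a` nor `b` vanishes on the curve. -/
theorem a04_nn (h1 : SpOnFacts) (h2 : SpOD) (hR : Reg2 k R) {h a b : R}
    {D : ValuationSubring L} (hD : OnR R h D) {u v : Lˣ} (hu : (u : L) = a) (hv : (v : L) = b)
    (ha : ¬ h ∣ a) (hb : ¬ h ∣ b) : a04G R (FreeAbelianGroup.of (u, v)) D = 0 := by
  rw [a04_G_of ⟨h, hD⟩, a04_sm_of, a04_ord_ndvd h1 hR hD ha hu, a04_ord_ndvd h1 hR hD hb hv,
    zpow_zero, neg_zero, zpow_zero, mul_one, a04_oD_one h2 hR hD]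

/-- `a` vanishes on the curve, but `b` does not. -/
theorem a04_yn (h1 : SpOnFacts) (h2 : SpOD) (hR : Reg2 k R) {h a b : R}
    {D : ValuationSubring L} (hD : OnR R h D) {u v : Lˣ} (hu : (u : L) = a) (hv : (v : L) = b)
    (ha : Prime a) (hda : h ∣ a) (hb : ¬ h ∣ b) :
    a04G R (FreeAbelianGroup.of (u, v)) D = -((len h b).toNat : ℤ) := by
  rw [a04_G_of ⟨h, hD⟩, a04_sm_of, a04_ord_ndvd h1 hR hD hb hv, hu,
    a04_ord_dvd h1 hR hD ha hda, zpow_zero, one_mul, zpow_neg, zpow_one,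
    a04_oD_inv h2 hR hD (a04_unitIn h1 hR hD hb hv), a04_oD_elt h2 hR hD hb hv]

/-- `b` vanishes on the curve, but `a` does not. -/
theorem a04_ny (h1 : SpOnFacts) (h2 : SpOD) (hR : Reg2 k R) {h a b : R}
    {D : ValuationSubring L} (hD : OnR R h D) {u v : Lˣ} (hu : (u : L) = a) (hv : (v : L) = b)
    (hb : Prime b) (hdb : h ∣ b) (ha : ¬ h ∣ a) :
    a04G R (FreeAbelianGroup.of (u, v)) D = ((len h a).toNat : ℤ) := by
  rw [a04_G_of ⟨h, hD⟩, a04_sm_of, a04_ord_ndvd h1 hR hD ha hu, hv,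
    a04_ord_dvd h1 hR hD hb hdb, neg_zero, zpow_zero, mul_one, zpow_one,
    a04_oD_elt h2 hR hD ha hu]

/-- Both vanish on the curve. -/
theorem a04_yy (h1 : SpOnFacts) (h2 : SpOD) (hR : Reg2 k R) {h a b : R}
    {D : ValuationSubring L} (hD : OnR R h D) {u v : Lˣ} (hu : (u : L) = a) (hv : (v : L) = b)
    (ha : Prime a) (hb : Prime b) (hda : h ∣ a) (hdb : h ∣ b) :
    a04G R (FreeAbelianGroup.of (u, v)) D = 0 := by
  have hA : Associated b a := (hD.1.associated_of_dvd hb hdb).symm.trans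
    (hD.1.associated_of_dvd ha hda)
  obtain ⟨w, hw⟩ := hA
  have h3 : ((u * v⁻¹ : Lˣ) : L) = ((w : R) : L) := by
    rw [Units.val_mul, Units.val_inv_eq_inv_val, hu, hv, mul_inv_eq_iff_eq_mul₀ ?_, ← hw, mul_comm]
    · rfl
    · rw [← hv]
      exact v.ne_zero
  have h4 : ¬ h ∣ (w : R) := fun h5 => hD.1.not_isUnit (isUnit_of_dvd_unit h5 w.isUnit)
  rw [a04_G_of ⟨h, hD⟩, a04_sm_of, hv, hu, a04_ord_dvd h1 hR hD ha hda,
    a04_ord_dvd h1 hR hD hb hdb, zpow_neg, zpow_one, zpow_one,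
    a04_oD_elt h2 hR hD h4 h3, len_unit h w.isUnit]
  rfl

theorem a04_P_of_zero {β : Sy L} (h : ∀ D, a04G R β D = 0) : A04P R β := by
  have h' : a04G R β = 0 := funext h
  unfold A04P
  rw [h']
  refine ⟨?_, ?_⟩
  · rw [Function.support_zero]
    exact Set.finite_empty
  · exact finsum_zero

/-- The cycle condition for two elements of `R` which are units or primes. -/
theorem a04_pair (h1 : SpOnFacts) (h2 : SpOD) (hR : Reg2 k R) (a b : R) (u v : Lˣ)
    (hu : (u : L) = a) (hv : (v : L) = b) (ha : IsUnit a ∨ Prime a) (hb : IsUnit b ∨ Prime b) :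
    A04P R (FreeAbelianGroup.of (u, v)) := by
  classical
  have hnu : ∀ {h r : R} {D : ValuationSubring L}, OnR R h D → IsUnit r → ¬ h ∣ r :=
    fun hD hr h5 => hD.1.not_isUnit (isUnit_of_dvd_unit h5 hr)
  by_cases hcase : Prime a ∧ Prime b ∧ ¬ Associated a b
  · obtain ⟨ha', hb', hab⟩ := hcase
    obtain ⟨Da, hDa⟩ := (h1 k L R hR).2.2.1 a ha'
    obtain ⟨Db, hDb⟩ := (h1 k L R hR).2.2.1 b hb'
    have hne : Da ≠ Db := fun h => hab (((h1 k L R hR).2.2.2.2 a b Da Db hDa hDb).1 h)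
    have hab' : ¬ a ∣ b := fun h => hab (ha'.associated_of_dvd hb' h)
    have hba' : ¬ b ∣ a := fun h => hab (hb'.associated_of_dvd ha' h).symm
    have hsup : Function.support (a04G R (FreeAbelianGroup.of (u, v))) ⊆
        (({Da, Db} : Finset (ValuationSubring L)) : Set (ValuationSubring L)) := by
      intro D hD
      by_contra hD2
      apply hD
      rw [Finset.coe_insert, Finset.coe_singleton, Set.mem_insert_iff, Set.mem_singleton_iff,
        not_or] at hD2
      by_cases hon : On R D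
      · obtain ⟨h, hh⟩ := hon
        refine a04_nn h1 h2 hR hh hu hv ?_ ?_
        · intro h3
          exact hD2.1 (((h1 k L R hR).2.2.2.2 a a D Da (a04_onR h1 hR hh ha' h3) hDa).2
            (Associated.refl a))
        · intro h3
          exact hD2.2 (((h1 k L R hR).2.2.2.2 b b D Db (a04_onR h1 hR hh hb' h3) hDb).2
            (Associated.refl b))
      · exact a04_G_not hon
    refine ⟨(Finset.finite_toSet _).subset hsup, ?_⟩
    rw [finsum_eq_sum_of_support_subset _ hsup, Finset.sum_pair hne,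
      a04_yn h1 h2 hR hDa hu hv ha' dvd_rfl hab', a04_ny h1 h2 hR hDb hu hv hb' dvd_rfl hba',
      len_symm]
    omega
  · apply a04_P_of_zero
    intro D
    by_cases hon : On R D
    · obtain ⟨h, hh⟩ := hon
      rcases ha with ha | ha <;> rcases hb with hb | hb
      · exact a04_nn h1 h2 hR hh hu hv (hnu hh ha) (hnu hh hb)
      · by_cases hd : h ∣ b
        · rw [a04_ny h1 h2 hR hh hu hv hb hd (hnu hh ha), len_unit h ha]
          rfl
        · exact a04_nn h1 h2 hR hh hu hv (hnu hh ha) hd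
      · by_cases hd : h ∣ a
        · rw [a04_yn h1 h2 hR hh hu hv ha hd (hnu hh hb), len_unit h hb]
          rfl
        · exact a04_nn h1 h2 hR hh hu hv hd (hnu hh hb)
      · have hA : Associated a b := by
          by_contra h3
          exact hcase ⟨ha, hb, h3⟩
        by_cases hd : h ∣ a
        · exact a04_yy h1 h2 hR hh hu hv ha hb hd (hd.trans hA.dvd)
        · exact a04_nn h1 h2 hR hh hu hv hd (fun h3 => hd (h3.trans hA.symm.dvd))
    · exact a04_G_not hon

/-- The cycle condition for every sum of symbols. -/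
theorem a04_all (h0 : SpSm) (h1 : SpOnFacts) (h2 : SpOD) (hR : Reg2 k R) (β : Sy L) :
    A04P R β := by
  have hof : ∀ u v : Lˣ, A04P R (FreeAbelianGroup.of (u, v)) := by
    intro u v
    refine a04_gen (h1 k L R hR).1 hR.frac (fun u => A04P R (FreeAbelianGroup.of (u, v)))
      ?_ ?_ ?_ u
    · intro u u' hu hu'
      exact a04_P_congr h1 hR _ _ (fun D hD => a04_mul_left hD u u' v)
        (a04_P_add h0 h1 h2 hR _ _ hu hu')
    · intro u hu
      exact a04_P_congr h1 hR _ _ (fun D hD => a04_inv_left hD u v)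
        (a04_P_neg h0 h1 h2 hR _ hu)
    · intro a u hu ha
      refine a04_gen (h1 k L R hR).1 hR.frac (fun v => A04P R (FreeAbelianGroup.of (u, v)))
        ?_ ?_ ?_ v
      · intro v v' hv hv'
        exact a04_P_congr h1 hR _ _ (fun D hD => a04_mul_right hD u v v')
          (a04_P_add h0 h1 h2 hR _ _ hv hv')
      · intro v hv
        exact a04_P_congr h1 hR _ _ (fun D hD => a04_inv_right hD u v)
          (a04_P_neg h0 h1 h2 hR _ hv)
      · intro b v hv hb
        exact a04_pair h1 h2 hR a b u v hu hv ha hb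
  induction β using FreeAbelianGroup.induction_on with
  | zero => exact a04_P_zero h0 h1 h2 hR
  | of p => exact hof p.1 p.2
  | neg p hp => exact a04_P_neg h0 h1 h2 hR _ hp
  | add x y hx hy => exact a04_P_add h0 h1 h2 hR x y hx hy

end a04

theorem base_cycle (h0 : SpSm) (h1 : SpOnFacts) (h2 : SpOD) : SpBase := by
  classical
  intro k L _ _ _ d R hR i hi
  have hkey : ∀ D : ValuationSubring L,
      (∑ᶠ (_ : On R D), oD R D (d.val D)) = a04G R (d.β i) D := by
    intro D
    by_cases hon : On R D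
    · rw [finsum_eq_if, if_pos hon, a04_G_of hon]
      obtain ⟨f, hf⟩ := hon
      have h3 := (h1 k L R hR).2.2.2.1 f D hf
      have h4 := h0 L D h3.1
      obtain ⟨s1, s2, s3, s4, s5, s6, s7, s8, s9⟩ := h4
      have h5 : ∀ a ∈ d.A i, a ∈ D := fun a ha => h3.2.2.1 ⟨a, hi a ha⟩
      have h6 := (s9 d i h5).1
      have h7 := (h2 k L R hR f D hf).2.2.2.1 _ _ (s7 _ h6) (s1 (d.β i))
      rw [inv_mul_cancel_right, (h2 k L R hR f D hf).2.2.2.2 _ h6, zero_add] at h7
      exact h7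
    · rw [finsum_eq_if, if_neg hon, a04_G_not hon]
  rw [finsum_congr hkey]
  exact (a04_all h0 h1 h2 hR (d.β i)).2

end Pool.Agent.H19.UT
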