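import Pool.Agent.H19.UT.SpE2

/-!
Project UT, row E12: assembly of block E (helper51).
-/

set_option autoImplicit false
set_option maxHeartbeats 400000

open Polynomial Pool.Agent.K1

namespace Pool.Agent.H19.UT

/-- Descent of the Gauss property along an embedding. -/
theorem e12_gauss {Ω M K2 L2 : Type} [Field Ω] [Field M] [Field K2] [Field L2] [Algebra Ω M]
    [Algebra K2 Ω] [Algebra K2 L2] (ψ : L2 →+* M)
    (hψ : ∀ a : K2, ψ (algebraMap K2 L2 a) = algebraMap Ω M (algebraMap K2 Ω a))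
    (V : ValuationSubring M) (u : M) (u2 : L2) (hu : ψ u2 = u)
    (hG : IsGauss (V.comap (algebraMap Ω M)) u V) :
    IsGauss ((V.comap (algebraMap Ω M)).comap (algebraMap K2 Ω)) u2 (V.comap ψ) := by
  intro P hP
  have h1 : ψ (aeval u2 P) = aeval u (P.map (algebraMap K2 Ω)) := by
    rw [← hu, aeval_def, aeval_def, Polynomial.hom_eval₂, Polynomial.eval₂_map]
    congr 1
    ext x
    exact hψ x
  have h2 : ∀ n, (P.map (algebraMap K2 Ω)).coeff n ∈ V.comap (algebraMap Ω M) := by
    intro n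
    rw [coeff_map]
    exact hP n
  obtain ⟨h3, h4⟩ := hG _ h2
  constructor
  · rw [ValuationSubring.mem_comap, h1]
    exact h3
  · rw [comap_nonunits, h1, h4]
    refine forall_congr' fun n => ?_
    rw [coeff_map]
    exact (comap_nonunits (algebraMap K2 Ω) (V.comap (algebraMap Ω M)) _).symm

theorem e_all (hbc : SpEbc) (hrk : SpErelK) (hrs : SpErelS) (hres : SpEres) (hext : SpEext)
    (hps : SpEpseudo) (hga : SpEgal) (hnc : SpEnc) (hgd : SpEgd) (hdi : SpEdisc)
    (hmid : SpEmid) : SpEall := by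
  intro k K L _ _ _ _ _ _ _ d τ hτ h3 hH hinf hct W hW hTr
  by_cases hK : ∀ a : K, algebraMap K L a ∈ W
  · by_cases ht : τ ∈ W
    · exact hH W hW hK ht
    · refine hinf W hW hK ?_
      rw [tord_nonunits_iff]
      right
      exact ⟨(W.mem_or_inv_mem τ).resolve_left ht, by rwa [inv_inv]⟩
  push Not at hK
  have hsT : W.comap (algebraMap K L) ≠ ⊤ := by
    intro h
    obtain ⟨a, ha⟩ := hK
    apply ha
    rw [← ValuationSubring.mem_comap, h]
    trivial
  have hnot : ¬ Tr2 k (W.comap (algebraMap K L)) := by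
    intro h
    obtain ⟨x, hx⟩ := hrs k K _ hsT h
    exact h3 x hx
  obtain ⟨hT1, z, hz⟩ := hres k K L W hTr hnot (fun z => hrk K L τ hτ _ z)
  have hzW : z ∈ W := by
    have h1 := (hz X (fun n => by
      rw [coeff_X]
      split_ifs
      · exact one_mem _
      · exact zero_mem _)).1
    rwa [aeval_X] at h1
  obtain ⟨M, fM, aM, φ, hφ, hMc, hMalg⟩ := hbc K L (AlgebraicClosure K) τ hτ
  obtain ⟨V, v, hVW, hmul, hmem, hord, hcl⟩ :=
    hext K L (AlgebraicClosure K) M φ hφ hMalg W hW hK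
  have hzV : φ z ∈ V := by
    rw [← ValuationSubring.mem_comap, hVW]
    exact hzW
  obtain ⟨a, c, hc, huV, hu⟩ := hps (AlgebraicClosure K) M (φ τ) hMc V hcl (φ z) hzV
    (hnc K L (AlgebraicClosure K) M φ hφ W V hVW z hz)
  have hG := hga (AlgebraicClosure K) M V _ huV hu
  have hfin : FiniteDimensional K (IntermediateField.adjoin K ({a, c} : Set (AlgebraicClosure K))) := by
    apply IntermediateField.finiteDimensional_adjoin
    intro x _
    exact Algebra.IsIntegral.isIntegral x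
  have ha2 : a ∈ IntermediateField.adjoin K ({a, c} : Set (AlgebraicClosure K)) :=
    IntermediateField.subset_adjoin _ _ (by simp)
  have hc2 : c ∈ IntermediateField.adjoin K ({a, c} : Set (AlgebraicClosure K)) :=
    IntermediateField.subset_adjoin _ _ (by simp)
  obtain ⟨L2, fL2, aL2, φ2, ψ, hψφ, hψ, hφ2, hL2⟩ := hmid K L (AlgebraicClosure K) M
    (IntermediateField.adjoin K ({a, c} : Set (AlgebraicClosure K))) φ hφ τ hτ hMc
  obtain ⟨hD2, hT2⟩ := hdi k K L (AlgebraicClosure K) M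
    (IntermediateField.adjoin K ({a, c} : Set (AlgebraicClosure K))) φ hφ W hW hK V v hVW hmul
    hmem hord
  have hc2' : (⟨c, hc2⟩ : IntermediateField.adjoin K ({a, c} : Set (AlgebraicClosure K))) ≠ 0 := by
    intro h
    exact hc (congrArg Subtype.val h)
  have hcoord := (hgd _ L2 (φ2 τ) hL2).1 ⟨a, ha2⟩ ⟨c, hc2⟩ hc2'
  have hG2 := e12_gauss ψ hψ V _
    ((φ2 τ - algebraMap (IntermediateField.adjoin K ({a, c} : Set (AlgebraicClosure K))) L2
      ⟨a, ha2⟩) /
      algebraMap (IntermediateField.adjoin K ({a, c} : Set (AlgebraicClosure K))) L2 ⟨c, hc2⟩)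
    (by
      rw [map_div₀, map_sub, hψφ, hψ, hψ]
      rfl) hG
  have hDW2 : IsDiscV (V.comap ψ) := (hgd _ L2 _ hcoord).2 _ _ hD2 hG2
  have h4 := hct _ L2 φ2 hφ2 hL2 ⟨a, ha2⟩ ⟨c, hc2⟩ hc2' _ hD2 (hT2 hT1) (V.comap ψ) hG2
  have h5 : (V.comap ψ).comap φ2 = W := by
    ext x
    rw [ValuationSubring.mem_comap, ValuationSubring.mem_comap, hψφ, ← hVW,
      ValuationSubring.mem_comap]
  have h6 := (Dat.triv_map φ2 d hDW2 (by rw [h5]; exact hW)).1 h4
  rwa [h5] at h6

/-- Block E in the form used by the main theorem. -/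
theorem sp_alldiv (h : SpEall) : SpAllDiv := by
  intro p k K L _ _ _ _ _ _ _ _ hF τ hτ d hH hinf hct W hW hTr
  refine h k K L d τ hτ (fun x hx => ?_) hH hinf hct W hW hTr
  obtain ⟨P, hP, hP0⟩ := hF.dim x
  exact hP ((map_eq_zero_iff _ (algebraicIndependent_iff_injective_aeval.1 hx)).1 hP0)

end Pool.Agent.H19.UT
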