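import Pool.Agent.H19.UT.SpA

/-!
Project UT, row A07b: blow-ups in general coordinates.
-/

set_option autoImplicit false
set_option maxHeartbeats 400000

open Polynomial Pool.Agent.K1 IsLocalRing

namespace Pool.Agent.H19.UT

section A07b

/-- `f` is a form of degree `r` in `x`, `y`, and `e` is the coefficient of `y ^ r`. -/
def A07bQ {R : Type*} [CommRing R] (x y : R) (r : ℕ) (f e : R) : Prop :=
  ∃ c : ℕ → R, f = ∑ i ∈ Finset.range (r + 1), c i * x ^ (r - i) * y ^ i ∧ c r = e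

variable {R : Type*} [CommRing R] {x y : R}

theorem a07b_zero (r : ℕ) : A07bQ x y r 0 0 :=
  ⟨fun _ => 0, by simp, rfl⟩

theorem a07b_add {r : ℕ} {f g e e' : R} (h : A07bQ x y r f e) (h' : A07bQ x y r g e') :
    A07bQ x y r (f + g) (e + e') := by
  obtain ⟨c, hc, he⟩ := h
  obtain ⟨c', hc', he'⟩ := h'
  refine ⟨fun i => c i + c' i, ?_, by show c r + c' r = _; rw [he, he']⟩
  rw [hc, hc', ← Finset.sum_add_distrib]
  exact Finset.sum_congr rfl fun i _ => by ring

theorem a07b_smul {r : ℕ} {f e : R} (a : R) (h : A07bQ x y r f e) :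
    A07bQ x y r (a * f) (a * e) := by
  obtain ⟨c, hc, he⟩ := h
  refine ⟨fun i => a * c i, ?_, by show a * c r = _; rw [he]⟩
  rw [hc, Finset.mul_sum]
  exact Finset.sum_congr rfl fun i _ => by ring

theorem a07b_x {r : ℕ} {f e : R} (h : A07bQ x y r f e) : A07bQ x y (r + 1) (x * f) 0 := by
  obtain ⟨c, hc, he⟩ := h
  refine ⟨fun i => if i ≤ r then c i else 0, ?_, by simp⟩
  rw [Finset.sum_range_succ]
  simp only [add_le_iff_nonpos_right, nonpos_iff_eq_zero, one_ne_zero, if_false, zero_mul,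
    add_zero]
  rw [hc, Finset.mul_sum]
  refine Finset.sum_congr rfl fun i hi => ?_
  have h1 : i ≤ r := Nat.lt_succ_iff.1 (Finset.mem_range.1 hi)
  have h2 : r + 1 - i = (r - i) + 1 := by omega
  rw [if_pos h1, h2, pow_succ]
  ring

theorem a07b_y {r : ℕ} {f e : R} (h : A07bQ x y r f e) : A07bQ x y (r + 1) (y * f) e := by
  obtain ⟨c, hc, he⟩ := h
  refine ⟨fun i => if i = 0 then 0 else c (i - 1), ?_, by simp [he]⟩
  rw [Finset.sum_range_succ']
  simp only [if_true, zero_mul, add_zero, Nat.add_eq_zero_iff, one_ne_zero, and_false, if_false,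
    Nat.add_sub_cancel]
  rw [hc, Finset.mul_sum]
  refine Finset.sum_congr rfl fun i _ => ?_
  have h2 : r + 1 - (i + 1) = r - i := by omega
  rw [h2, pow_succ]
  ring

theorem a07b_sub_pow (l : R) (n : ℕ) : A07bQ x y n ((x - l * y) ^ n) ((-l) ^ n) := by
  induction n with
  | zero => exact ⟨fun _ => 1, by simp, by simp⟩
  | succ n ih =>
    have h := a07b_add (a07b_x ih) (a07b_smul (-l) (a07b_y ih))
    have e1 : x * (x - l * y) ^ n + -l * (y * (x - l * y) ^ n) = (x - l * y) ^ (n + 1) := by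
      ring
    have e2 : 0 + -l * (-l) ^ n = (-l) ^ (n + 1) := by ring
    rwa [e1, e2] at h

theorem a07b_ypow {r : ℕ} {f e : R} (h : A07bQ x y r f e) (i : ℕ) :
    A07bQ x y (r + i) (y ^ i * f) e := by
  induction i with
  | zero => simpa using h
  | succ i ih =>
    have h1 := a07b_y ih
    have e1 : y * (y ^ i * f) = y ^ (i + 1) * f := by ring
    rw [e1] at h1
    exact h1

theorem a07b_term (l : R) {r i : ℕ} (hi : i ≤ r) :
    A07bQ x y r ((x - l * y) ^ (r - i) * y ^ i) ((-l) ^ (r - i)) := by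
  have h := a07b_ypow (a07b_sub_pow (x := x) (y := y) l (r - i)) i
  rw [Nat.sub_add_cancel hi] at h
  rwa [mul_comm]

theorem a07b_subst (l : R) (r : ℕ) (c : ℕ → R) :
    A07bQ x y r (∑ i ∈ Finset.range (r + 1), c i * (x - l * y) ^ (r - i) * y ^ i)
      (∑ i ∈ Finset.range (r + 1), c i * (-l) ^ (r - i)) := by
  have key : ∀ s : Finset ℕ, (∀ i ∈ s, i ≤ r) →
      A07bQ x y r (∑ i ∈ s, c i * (x - l * y) ^ (r - i) * y ^ i)
        (∑ i ∈ s, c i * (-l) ^ (r - i)) := by
    intro s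
    induction s using Finset.induction_on with
    | empty => intro _; simpa using a07b_zero r
    | insert a s ha ih =>
      intro h
      rw [Finset.sum_insert ha, Finset.sum_insert ha, mul_assoc]
      exact a07b_add (a07b_smul _ (a07b_term l (h a (Finset.mem_insert_self _ _))))
        (ih fun i hi => h i (Finset.mem_insert_of_mem hi))
  exact key _ fun i hi => Nat.lt_succ_iff.1 (Finset.mem_range.1 hi)

/-- two generators of the maximal ideal -/
theorem a07b_gens (R : Type*) [CommRing R] [IsRegularLocalRing R] (hd : ringKrullDim R = 2) :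
    ∃ x y : R, maximalIdeal R = Ideal.span {x, y} := by
  classical
  have h := IsRegularLocalRing.spanFinrank_maximalIdeal (R := R)
  rw [hd] at h
  have h2 : (maximalIdeal R).spanFinrank = 2 := by exact_mod_cast h
  obtain ⟨s, hs, hs'⟩ := Submodule.FG.exists_span_finset_card_eq_spanFinrank
    (IsNoetherian.noetherian (maximalIdeal R))
  rw [h2] at hs
  obtain ⟨x, y, -, rfl⟩ := Finset.card_eq_two.1 hs
  refine ⟨x, y, ?_⟩
  rw [← hs']
  simp [Ideal.span]

/-- the elements of the powers of the maximal ideal -/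
theorem a07b_mem_pow {I : Ideal R} (hI : I = Ideal.span {x, y}) (r : ℕ) :
    ∀ f ∈ I ^ r, ∃ c : ℕ → R, f = ∑ i ∈ Finset.range (r + 1), c i * x ^ (r - i) * y ^ i := by
  induction r with
  | zero => intro f _; exact ⟨fun _ => f, by simp⟩
  | succ r ih =>
    intro f hf
    rw [pow_succ] at hf
    refine Submodule.mul_induction_on hf ?_ ?_
    · intro g hg m hm
      rw [hI, Ideal.mem_span_pair] at hm
      obtain ⟨a, b, rfl⟩ := hm
      obtain ⟨c, hc⟩ := ih g hg
      have h0 : A07bQ x y r g (c r) := ⟨c, hc, rfl⟩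
      obtain ⟨c', hc', -⟩ := a07b_add (a07b_smul a (a07b_x h0)) (a07b_smul b (a07b_y h0))
      refine ⟨c', ?_⟩
      rw [← hc']
      ring
    · rintro g h ⟨c, hc⟩ ⟨c', hc'⟩
      obtain ⟨c'', hc'', -⟩ := a07b_add (x := x) (y := y) ⟨c, hc, rfl⟩ ⟨c', hc', rfl⟩
      exact ⟨c'', hc''⟩

/-- the order of a nonzero element -/
theorem a07b_order [IsLocalRing R] [IsNoetherianRing R] (hI : maximalIdeal R = Ideal.span {x, y})
    {f : R} (hf : f ≠ 0) :
    ∃ (r : ℕ) (c : ℕ → R), f = ∑ i ∈ Finset.range (r + 1), c i * x ^ (r - i) * y ^ i ∧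
      ∃ i ≤ r, residue R (c i) ≠ 0 := by
  classical
  have h1 : ∃ r, f ∉ maximalIdeal R ^ r := by
    by_contra hcon
    push Not at hcon
    have h2 : f ∈ ⨅ i : ℕ, maximalIdeal R ^ i := by
      rw [Submodule.mem_iInf]
      exact hcon
    rw [Ideal.iInf_pow_eq_bot_of_isLocalRing _ (Ideal.IsPrime.ne_top inferInstance)] at h2
    exact hf ((Submodule.mem_bot R).1 h2)
  obtain ⟨r0, hr0⟩ : ∃ r0, r0 = Nat.find h1 := ⟨_, rfl⟩
  have h2 : f ∉ maximalIdeal R ^ r0 := hr0 ▸ Nat.find_spec h1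
  have h3 : r0 ≠ 0 := by
    rintro rfl
    exact h2 (by simp)
  obtain ⟨r, rfl⟩ := Nat.exists_eq_succ_of_ne_zero h3
  have h4 : f ∈ maximalIdeal R ^ r := by
    by_contra hcon
    have := Nat.find_min' h1 hcon
    omega
  obtain ⟨c, hc⟩ := a07b_mem_pow hI r f h4
  refine ⟨r, c, hc, ?_⟩
  by_contra hcon
  push Not at hcon
  apply h2
  rw [hc]
  have hx : x ∈ maximalIdeal R := by rw [hI]; exact Ideal.subset_span (by simp)
  have hy : y ∈ maximalIdeal R := by rw [hI]; exact Ideal.subset_span (by simp)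
  refine Ideal.sum_mem _ fun i hi => ?_
  have hir : i ≤ r := Nat.lt_succ_iff.1 (Finset.mem_range.1 hi)
  have h5 : c i ∈ maximalIdeal R := (residue_eq_zero_iff _).1 (hcon i hir)
  have h6 : c i * x ^ (r - i) * y ^ i ∈
      maximalIdeal R * (maximalIdeal R ^ (r - i) * maximalIdeal R ^ i) := by
    rw [mul_assoc]
    exact Ideal.mul_mem_mul h5 (Ideal.mul_mem_mul (Ideal.pow_mem_pow hx _) (Ideal.pow_mem_pow hy _))
  rw [← pow_add, Nat.sub_add_cancel hir, ← pow_succ'] at h6
  exact h6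

/-- the leading form, dehomogenised -/
theorem a07b_poly {κ : Type*} [Field κ] (r : ℕ) (c : ℕ → κ) (h : ∃ i ≤ r, c i ≠ 0) :
    ∃ q : κ[X], q ≠ 0 ∧ ∀ l : κ, q.eval l = ∑ i ∈ Finset.range (r + 1), c i * (-l) ^ (r - i) := by
  obtain ⟨i0, hi0, hc⟩ := h
  refine ⟨∑ i ∈ Finset.range (r + 1), C (c i * (-1) ^ (r - i)) * X ^ (r - i), ?_, ?_⟩
  · intro h0
    have h1 := congrArg (fun p : κ[X] => p.coeff (r - i0)) h0
    simp only [finsetSum_coeff, coeff_C_mul_X_pow, coeff_zero] at h1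
    rw [Finset.sum_eq_single i0] at h1
    · rw [if_pos rfl] at h1
      rcases mul_eq_zero.1 h1 with h1 | h1
      · exact hc h1
      · exact absurd h1 (pow_ne_zero _ (by simp))
    · intro i hi hne
      have hir : i ≤ r := Nat.lt_succ_iff.1 (Finset.mem_range.1 hi)
      rw [if_neg (by omega)]
    · intro h2
      exact absurd (Finset.mem_range.2 (by omega)) h2
  · intro l
    rw [eval_finsetSum]
    refine Finset.sum_congr rfl fun i _ => ?_
    rw [eval_mul, eval_C, eval_pow, eval_X, mul_assoc, ← mul_pow]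
    congr 2
    ring

end A07b

theorem blow_generic (hx : SpBlowX) (_h1 : SpOnFacts) : SpBlow := by
  intro k L _ _ _ _ R hR F hF
  classical
  have : IsRegularLocalRing R := hR.reg
  obtain ⟨x0, y0, hm⟩ := a07b_gens R hR.dim
  -- the map from `k`
  let ψ : k →+* R := (algebraMap k L).codRestrict R hR.k_mem
  let ρ : k →+* ResidueField R := (residue R).comp ψ
  have hρ : Function.Injective ρ := ρ.injective
  choose! r c hc hu using fun (f : R) (hf : f ≠ 0) => a07b_order hm hf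
  have hq : ∀ f : R, f ≠ 0 → ∃ q : (ResidueField R)[X], q ≠ 0 ∧ ∀ l, q.eval l =
      ∑ i ∈ Finset.range (r f + 1), residue R (c f i) * (-l) ^ (r f - i) := fun f hf =>
    a07b_poly (r f) (fun i => residue R (c f i)) (hu f hf)
  choose! q hq0 hqe using hq
  -- a good `λ`
  have hP : ∏ f ∈ F, q f ≠ 0 := Finset.prod_ne_zero_iff.2 fun f hf => hq0 f (hF f hf)
  obtain ⟨l, hl⟩ := Infinite.exists_notMem_finset
    (((∏ f ∈ F, q f).roots.toFinset).preimage ρ hρ.injOn)
  have hl2 : ∀ f ∈ F, (q f).eval (ρ l) ≠ 0 := by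
    intro f hf h0
    apply hl
    rw [Finset.mem_preimage, Multiset.mem_toFinset, mem_roots hP, IsRoot.def, eval_prod]
    exact Finset.prod_eq_zero hf h0
  -- the blow-up
  have hgen : ∀ s : R, ¬ IsUnit s ↔ ∃ a b : R, s = a * (x0 + ψ l * y0) + b * y0 := by
    intro s
    have e1 : ¬ IsUnit s ↔ s ∈ maximalIdeal R := by rw [mem_maximalIdeal, mem_nonunits_iff]
    rw [e1, hm, Ideal.mem_span_pair]
    constructor
    · rintro ⟨a, b, h⟩
      exact ⟨a, b - a * ψ l, by rw [← h]; ring⟩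
    · rintro ⟨a, b, h⟩
      exact ⟨a, a * ψ l + b, by rw [h]; ring⟩
  obtain ⟨bl, hbx, hby⟩ := hx k L R hR _ _ hgen
  refine ⟨bl, fun f hf => ⟨r f, ?_⟩⟩
  have hf0 := hF f hf
  obtain ⟨c', hc', hr'⟩ := a07b_subst (x := bl.x) (y := bl.y) (ψ l) (r f) (c f)
  refine ⟨c', ?_, ?_⟩
  · rw [← hc', hbx, hby, add_sub_cancel_right]
    exact hc f hf0
  · rw [hr', ← residue_ne_zero_iff_isUnit, map_sum]
    have h2 := hl2 f hf
    rw [hqe f hf0] at h2
    simpa [ρ, map_mul, map_pow, map_neg] using h2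

end Pool.Agent.H19.UT
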