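import Pool.Agent.H19.UT.SpA
import Pool.Agent.K1.Ufd2

/-!
Project UT, row A07a: blow-up charts exist (helper3).
-/

set_option autoImplicit false
set_option maxHeartbeats 400000

open Polynomial Pool.Agent.K1

namespace Pool.Agent.H19.UT

/-- The maximal ideal of a two-dimensional regular local ring is not generated by one element. -/
theorem a07a_not_principal {O : Type*} [CommRing O] [IsRegularLocalRing O]
    (hd : ringKrullDim O = 2) (z : O) (hu : ¬ IsUnit z)
    (hz : ∀ r : O, ¬ IsUnit r → z ∣ r) : False := by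
  have h1 : ((IsLocalRing.maximalIdeal O).spanFinrank : WithBot ℕ∞) = ringKrullDim O :=
    IsRegularLocalRing.spanFinrank_maximalIdeal
  rw [hd] at h1
  have h2 : IsLocalRing.maximalIdeal O = Ideal.span {z} := by
    apply le_antisymm
    · intro r hr
      rw [Ideal.mem_span_singleton]
      exact hz r (by simpa using hr)
    · rw [Ideal.span_singleton_le_iff_mem]
      simpa using hu
  have h3 : (IsLocalRing.maximalIdeal O).spanFinrank ≤ 1 := by
    rw [h2]
    have := Submodule.spanFinrank_span_le_ncard_of_finite (R := O) (M := O) (s := {z})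
      (Set.finite_singleton z)
    simpa using this
  have h4 : ((IsLocalRing.maximalIdeal O).spanFinrank : WithBot ℕ∞) ≤ 1 := by
    exact_mod_cast h3
  rw [h1] at h4
  exact absurd h4 (by decide)

/-- `x` is prime, `y` is not divisible by `x`. -/
theorem a07a_params {O : Type*} [CommRing O] [IsDomain O] [IsRegularLocalRing O]
    (hd : ringKrullDim O = 2) (x y : O)
    (h : ∀ r : O, ¬ IsUnit r ↔ ∃ a b : O, r = a * x + b * y) :
    Prime x ∧ ¬ x ∣ y ∧ ¬ IsUnit y := by
  have hufd : UniqueFactorizationMonoid O := ufd_of_regular2 hd.le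
  have hx : ¬ IsUnit x := (h x).2 ⟨1, 0, by ring⟩
  have hy : ¬ IsUnit y := (h y).2 ⟨0, 1, by ring⟩
  have hxy : ¬ x ∣ y := by
    rintro ⟨c, hc⟩
    refine a07a_not_principal hd x hx fun r hr => ?_
    obtain ⟨a, b, rfl⟩ := (h r).1 hr
    exact ⟨a + b * c, by rw [hc]; ring⟩
  have hyx : ¬ y ∣ x := by
    rintro ⟨c, hc⟩
    refine a07a_not_principal hd y hy fun r hr => ?_
    obtain ⟨a, b, rfl⟩ := (h r).1 hr
    exact ⟨a * c + b, by rw [hc]; ring⟩
  refine ⟨?_, hxy, hy⟩
  rw [← UniqueFactorizationMonoid.irreducible_iff_prime]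
  refine ⟨hx, fun a b hab => ?_⟩
  by_contra hcon
  push Not at hcon
  obtain ⟨ha, hb⟩ := hcon
  obtain ⟨a1, a2, ha'⟩ := (h a).1 ha
  obtain ⟨b1, b2, hb'⟩ := (h b).1 hb
  have hu : IsUnit (1 - (a1 * b1 * x + a1 * b2 * y + a2 * b1 * y)) := by
    have hn : ¬ IsUnit (a1 * b1 * x + a1 * b2 * y + a2 * b1 * y) :=
      (h _).2 ⟨a1 * b1, a1 * b2 + a2 * b1, by ring⟩
    exact IsLocalRing.isUnit_one_sub_self_of_mem_nonunits _ hn
  apply hyx
  have h5 : x * (1 - (a1 * b1 * x + a1 * b2 * y + a2 * b1 * y)) = y * (a2 * b2 * y) := by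
    have : x = (a1 * x + a2 * y) * (b1 * x + b2 * y) := by rw [← ha', ← hb']; exact hab
    linear_combination this
  have h6 : y ∣ x * (1 - (a1 * b1 * x + a1 * b2 * y + a2 * b1 * y)) := ⟨_, h5⟩
  exact (IsUnit.dvd_mul_right hu).1 h6

/-- Polynomials which vanish at `y / x` have coefficients in the maximal ideal. -/
theorem a07a_ker {L : Type} [Field L] (R : Subring L) (κ : Type) [Field κ] (res : R →+* κ)
    (x y : R) (hxp : Prime x) (hxy : ¬ x ∣ y) (hrx : res x = 0)
    (hry : res y = 0) (t : L) (ht : (x : L) * t = y) (n : ℕ) :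
    ∀ P : R[X], P.natDegree ≤ n → P.eval₂ R.subtype t = 0 → P.map res = 0 := by
  induction n with
  | zero =>
    intro P hP h0
    rw [Polynomial.eq_C_of_natDegree_le_zero hP] at h0 ⊢
    rw [eval₂_C] at h0
    have : P.coeff 0 = 0 := Subtype.ext h0
    rw [this, C_0, Polynomial.map_zero]
  | succ n ih =>
    intro P hP h0
    have h1 : x ∣ P.coeff (n + 1) := by
      have h2 : P.coeff (n + 1) * y ^ (n + 1)
          = x * (- ∑ i ∈ Finset.range (n + 1), P.coeff i * x ^ (n - i) * y ^ i) := by
        have h3 := h0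
        rw [eval₂_eq_sum_range' _ (Nat.lt_succ_of_le hP), Finset.sum_range_succ] at h3
        apply Subtype.ext
        push_cast
        have h4 : (x : L) ^ (n + 1) * (∑ i ∈ Finset.range (n + 1),
            R.subtype (P.coeff i) * t ^ i)
            = x * ∑ i ∈ Finset.range (n + 1), (P.coeff i : L) * (x : L) ^ (n - i) * (y : L) ^ i := by
          rw [Finset.mul_sum, Finset.mul_sum]
          refine Finset.sum_congr rfl fun i hi => ?_
          have hi' : i ≤ n := Nat.lt_succ_iff.1 (Finset.mem_range.1 hi)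
          rw [← ht, mul_pow, Subring.subtype_apply]
          have : (x : L) ^ (n + 1) = x * (x ^ (n - i) * x ^ i) := by
            rw [← pow_add, Nat.sub_add_cancel hi', pow_succ]; ring
          rw [this]; ring
        have h5 : (x : L) ^ (n + 1) * (R.subtype (P.coeff (n + 1)) * t ^ (n + 1))
            = (P.coeff (n + 1) : L) * (y : L) ^ (n + 1) := by
          rw [← ht, mul_pow, Subring.subtype_apply]; ring
        have h6 := congrArg (fun z => (x : L) ^ (n + 1) * z) h3
        simp only [mul_add, mul_zero] at h6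
        rw [h4, h5] at h6
        linear_combination h6
      have h3 : x ∣ P.coeff (n + 1) * y ^ (n + 1) := ⟨_, h2⟩
      rcases hxp.dvd_or_dvd h3 with h4 | h4
      · exact h4
      · exact absurd (hxp.dvd_of_dvd_pow h4) hxy
    obtain ⟨a, ha⟩ := h1
    set Q : R[X] := C (a * x) * X ^ (n + 1) - C (a * y) * X ^ n with hQ
    have hQe : Q.eval₂ R.subtype t = 0 := by
      rw [hQ]
      simp only [eval₂_sub, eval₂_mul, eval₂_C, eval₂_X_pow, Subring.subtype_apply]
      push_cast
      rw [← ht]; ring
    have hQm : Q.map res = 0 := by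
      rw [hQ]
      simp only [Polynomial.map_sub, Polynomial.map_mul, map_C, map_mul, hrx, hry, mul_zero, C_0,
        zero_mul, sub_self]
    have h2 : (P - Q).natDegree ≤ n := by
      rw [natDegree_le_iff_coeff_eq_zero]
      intro N hN
      rw [hQ, coeff_sub, coeff_sub, coeff_C_mul, coeff_C_mul, coeff_X_pow, coeff_X_pow,
        if_neg (by omega : ¬ N = n)]
      by_cases hN1 : N = n + 1
      · rw [if_pos hN1, hN1, ha]; ring
      · rw [if_neg hN1, coeff_eq_zero_of_natDegree_lt (by omega)]; ring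
    have h3 := ih (P - Q) h2 (by rw [eval₂_sub, h0, hQe, sub_zero])
    rw [Polynomial.map_sub, hQm, sub_zero] at h3
    exact h3

/-- Row A07a. -/
theorem blow_exists (_h1 : SpOnFacts) : SpBlowX := by
  intro k L _ _ _ R hR x y h
  have hreg := hR.reg
  obtain ⟨hxp, hxy, hyu⟩ := a07a_params hR.dim x y h
  have hx0 : (x : L) ≠ 0 := fun h0 => hxp.ne_zero (Subtype.ext h0)
  let res : R →+* IsLocalRing.ResidueField R := IsLocalRing.residue R
  have hres : ∀ r : R, res r = 0 ↔ ∃ a b : R, r = a * x + b * y := by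
    intro r
    rw [← h r, ← not_iff_not, not_not]
    exact IsLocalRing.residue_ne_zero_iff_isUnit r
  have hrx : res x = 0 := (hres x).2 ⟨1, 0, by ring⟩
  have hry : res y = 0 := (hres y).2 ⟨0, 1, by ring⟩
  let t : L := (y : L) / x
  have ht : (x : L) * t = y := mul_div_cancel₀ _ hx0
  let φ : R[X] →+* L := eval₂RingHom R.subtype t
  let ψ : R[X] →+* (IsLocalRing.ResidueField R)[X] := mapRingHom res
  have hker : RingHom.ker φ.rangeRestrict ≤ RingHom.ker ψ := by
    intro P hP
    rw [RingHom.mem_ker] at hP ⊢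
    refine a07a_ker R _ res x y hxp hxy hrx hry t ht _ P le_rfl ?_
    exact congrArg Subtype.val hP
  let θ : φ.range →+* (IsLocalRing.ResidueField R)[X] :=
    φ.rangeRestrict.liftOfSurjective φ.rangeRestrict_surjective ⟨ψ, hker⟩
  have hθ : ∀ P : R[X], θ (φ.rangeRestrict P) = ψ P := fun P =>
    RingHom.liftOfRightInverse_comp_apply _ _ _ ⟨ψ, hker⟩ P
  refine ⟨{
    κ := IsLocalRing.ResidueField R
    fκ := inferInstance
    res := res
    surj := IsLocalRing.residue_surjective
    unit := fun r => (IsLocalRing.residue_ne_zero_iff_isUnit r).symm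
    x := x
    y := y
    x0 := hx0
    hm := hres
    B := φ.range
    RB := fun r => ⟨C r, by simp [φ]⟩
    t := ⟨t, ⟨X, by simp [φ]⟩⟩
    ht := ht
    gen := ?_
    θ := θ
    θR := ?_
    θt := ?_
    θker := ?_ }, rfl, rfl⟩
  · rintro ⟨b, P, hP⟩
    exact ⟨P, hP.symm⟩
  · intro r
    have h1 : (⟨(r : L), ⟨C r, by simp [φ]⟩⟩ : φ.range) = φ.rangeRestrict (C r) := by
      apply Subtype.ext; simp [φ]
    rw [h1, hθ]
    simp [ψ]
  · have h1 : (⟨t, ⟨X, by simp [φ]⟩⟩ : φ.range) = φ.rangeRestrict X := by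
      apply Subtype.ext; simp [φ]
    rw [h1, hθ]
    simp [ψ]
  · intro b
    constructor
    · intro hb
      obtain ⟨P, hP⟩ := φ.rangeRestrict_surjective b
      rw [← hP, hθ] at hb
      have hc : ∀ i, ∃ a c : R, P.coeff i = a * x + c * y := by
        intro i
        rw [← hres]
        have := congrArg (fun Q => Q.coeff i) hb
        simpa [ψ] using this
      choose a c hac using hc
      let Q : R[X] := ∑ i ∈ Finset.range (P.natDegree + 1), (C (a i) + C (c i) * X) * X ^ i
      refine ⟨φ.rangeRestrict Q, ?_⟩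
      have h1 : (b : L) = φ P := by rw [← hP]; rfl
      have h2 : ((φ.rangeRestrict Q : φ.range) : L) = φ Q := rfl
      rw [h1, h2]
      have h3 : φ P = ∑ i ∈ Finset.range (P.natDegree + 1), (P.coeff i : L) * t ^ i := by
        change P.eval₂ R.subtype t = _
        rw [eval₂_eq_sum_range]
        rfl
      have h4 : φ Q = ∑ i ∈ Finset.range (P.natDegree + 1), ((a i : L) + (c i : L) * t) * t ^ i := by
        change Q.eval₂ R.subtype t = _
        rw [eval₂_finsetSum]
        refine Finset.sum_congr rfl fun i _ => ?_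
        simp
      rw [h3, h4, Finset.mul_sum]
      refine Finset.sum_congr rfl fun i _ => ?_
      rw [hac i]
      push_cast
      rw [← ht]; ring
    · rintro ⟨c, hc⟩
      have h1 : b = φ.rangeRestrict (C x) * c := by
        apply Subtype.ext
        rw [hc]
        simp [φ]
      rw [h1, map_mul, hθ]
      have h2 : ψ (C x) = 0 := by simp [ψ, hrx]
      rw [h2, zero_mul]

end Pool.Agent.H19.UT
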