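import Pool.Agent.H19.UT.SpC

/-!
Project UT, row C03: descending along the quadratic transforms (helper39).
-/

set_option autoImplicit false
set_option maxHeartbeats 400000

open Polynomial Pool.Agent.K1

namespace Pool.Agent.H19.UT

theorem c03_memloc {L : Type} [Field L] {R : Subring L} (bl : Blow R) {π : bl.κ[X]}
    (hπ : bl.Pt π) (b : bl.B) : (b : L) ∈ bl.loc π := by
  refine Subring.subset_closure ⟨b, 1, ?_, by rw [Subring.coe_one, mul_one]⟩
  rw [map_one]
  exact fun h => hπ.2.not_isUnit (isUnit_of_dvd_one h)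

theorem c03_div {L : Type} [Field L] {R : Subring L} (bl : Blow R) {r : R}
    (hr : ¬ IsUnit r) : ∃ b : bl.B, (r : L) = (bl.x : L) * b := by
  rw [bl.unit, not_not] at hr
  obtain ⟨a, b, h⟩ := (bl.hm r).1 hr
  refine ⟨⟨a, bl.RB a⟩ + ⟨b, bl.RB b⟩ * bl.t, ?_⟩
  rw [h, Subring.coe_add, Subring.coe_mul, Subring.coe_add, Subring.coe_mul, Subring.coe_mul,
    ← bl.ht]
  ring

theorem c03_x {L : Type} [Field L] {R : Subring L} (bl : Blow R) : ¬ IsUnit bl.x := by
  rw [bl.unit, not_not]
  exact (bl.hm bl.x).2 ⟨1, 0, by ring⟩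

theorem c03_main (hs : SpCStep) (hc : SpCE) (p : ℕ) (k K : Type) [Field k] [Field K]
    [Algebra k K] (hk : Base p k) (g : ValuationSubring K → Kˣ) (hg : CycK k g)
    (s : ValuationSubring K) (hd : IsDiscV s) (z : K)
    (hz : ∀ P : k[X], P ≠ 0 → aeval z P ∈ s ∧ aeval z P ∉ s.nonunits) :
    ∀ (n : ℕ) (R : Subring K), Reg2 k R → ResK k R → Tz g R → Dom R s → ∀ a b : R,
      (b : K) ≠ 0 → z * b = a → (ordV s (b : K)).toNat ≤ n → TorsV s (g s) := by
  intro n
  induction n with
  | zero =>
    intro R hR hres hT hD a b hb hab hn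
    have hu : IsUnit b := by
      by_contra h
      have h1 := (nonunits_iff_ordV hd hb).1 ((hD b).2 h)
      omega
    obtain ⟨c, r', h1, h2⟩ := hres (a * (hu.unit⁻¹ : Rˣ))
    exfalso
    have h3 : aeval z (X - C c : k[X]) ∈ s.nonunits := by
      have h4 : aeval z (X - C c : k[X]) = (r' : K) := by
        have h5 : ((hu.unit⁻¹ : Rˣ) : R) * b = 1 := hu.val_inv_mul
        have h6 : (((hu.unit⁻¹ : Rˣ) : R) : K) * b = 1 := by
          rw [← Subring.coe_mul, h5, Subring.coe_one]
        rw [map_sub, aeval_X, aeval_C, h1, Subring.coe_mul, ← hab]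
        rw [mul_assoc, mul_comm (b : K), h6, mul_one]
      rw [h4]
      exact (hD r').2 h2
    exact (hz _ (X_sub_C_ne_zero c)).2 h3
  | succ n ih =>
    intro R hR hres hT hD a b hb hab hn
    by_cases hu : IsUnit b
    · obtain ⟨c, r', h1, h2⟩ := hres (a * (hu.unit⁻¹ : Rˣ))
      exfalso
      have h3 : aeval z (X - C c : k[X]) ∈ s.nonunits := by
        have h4 : aeval z (X - C c : k[X]) = (r' : K) := by
          have h5 : ((hu.unit⁻¹ : Rˣ) : R) * b = 1 := hu.val_inv_mul
          have h6 : (((hu.unit⁻¹ : Rˣ) : R) : K) * b = 1 := by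
            rw [← Subring.coe_mul, h5, Subring.coe_one]
          rw [map_sub, aeval_X, aeval_C, h1, Subring.coe_mul, ← hab]
          rw [mul_assoc, mul_comm (b : K), h6, mul_one]
        rw [h4]
        exact (hD r').2 h2
      exact (hz _ (X_sub_C_ne_zero c)).2 h3
    · have hbs := (nonunits_iff_ordV hd hb).1 ((hD b).2 hu)
      have hzs : z ∈ s := by
        have := (hz X X_ne_zero).1
        rwa [aeval_X] at this
      have hua : ¬ IsUnit a := by
        intro h
        have h1 : ((a : K))⁻¹ ∈ s := by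
          have h5 : ((h.unit⁻¹ : Rˣ) : R) * a = 1 := h.val_inv_mul
          have h6 : (((h.unit⁻¹ : Rˣ) : R) : K) * a = 1 := by
            rw [← Subring.coe_mul, h5, Subring.coe_one]
          rw [← eq_inv_of_mul_eq_one_left h6]
          exact (hD _).1
        have h0 : (a : K) ≠ 0 := by
          intro h0
          have h7 : a = 0 := Subtype.ext h0
          rw [h7] at h
          have h8 : (1 : R) = 0 := (isUnit_zero_iff.1 h).symm
          exact one_ne_zero (congrArg (Subtype.val) h8)
        have h2 := (mem_iff_ordV hd (inv_ne_zero h0)).1 h1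
        rw [ordV_inv hd h0] at h2
        have hz0 : z ≠ 0 := by
          rintro rfl
          rw [zero_mul] at hab
          exact h0 hab.symm
        have h3 : ordV s (a : K) = ordV s z + ordV s (b : K) := by
          rw [← hab, ordV_mul hd hz0 hb]
        have h4 := (mem_iff_ordV hd hz0).1 hzs
        omega
      obtain ⟨bl, -, -, hbl⟩ := hs p k K hk R hR hres s hd hD
      obtain ⟨hE, hloc⟩ := hc p k K hk g hg R hR hres hT bl
      rcases hbl with h | ⟨π, hπ, hdom⟩
      · exact hE s h
      · obtain ⟨hR', hres', hT'⟩ := hloc π hπ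
        obtain ⟨a', ha'⟩ := c03_div bl hua
        obtain ⟨b', hb'⟩ := c03_div bl hu
        have hb0 : (b' : K) ≠ 0 := by
          intro h0
          rw [h0, mul_zero] at hb'
          exact hb hb'
        have hx : 0 < ordV s (bl.x : K) :=
          (nonunits_iff_ordV hd bl.x0).1 ((hD bl.x).2 (c03_x bl))
        have ho : ordV s (b : K) = ordV s (bl.x : K) + ordV s (b' : K) := by
          rw [hb', ordV_mul hd bl.x0 hb0]
        refine ih (bl.loc π) hR' hres' hT' hdom ⟨a', c03_memloc bl hπ a'⟩
          ⟨b', c03_memloc bl hπ b'⟩ hb0 ?_ ?_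
        · change z * (b' : K) = (a' : K)
          refine mul_left_cancel₀ bl.x0 ?_
          rw [← ha', ← hab, hb']
          ring
        · change (ordV s (b' : K)).toNat ≤ n
          omega

theorem sp_cdesc (hs : SpCStep) (hc : SpCE) : SpCDesc := by
  intro p k K _ _ _ hk g hg R hR hres hT s hd hD hTr
  obtain ⟨z, hz⟩ := hTr
  obtain ⟨a, b, hb, hab⟩ := hR.frac z
  exact c03_main hs hc p k K hk g hg s hd z hz _ R hR hres hT hD a b hb hab le_rfl

end Pool.Agent.H19.UT
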