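import Pool.Agent.H19.UT.SpC

/-!
Project UT, row C01: constants on the exceptional curve (helper3).
-/

set_option autoImplicit false
set_option maxHeartbeats 400000

open Polynomial Pool.Agent.K1

namespace Pool.Agent.H19.UT

/-- Polynomials with the same multiplicities over an algebraically closed field. -/
theorem c01_poly (κ : Type) [Field κ] [IsAlgClosed κ] (p q : κ[X]) (hp : p ≠ 0) (hq : q ≠ 0)
    (h : ∀ π : κ[X], π.Monic → Irreducible π → multiplicity π p = multiplicity π q) :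
    ∃ u : κ, u ≠ 0 ∧ p = C u * q := by
  classical
  have hr : p.roots = q.roots := by
    ext a
    rw [count_roots, count_roots, rootMultiplicity_eq_multiplicity,
      rootMultiplicity_eq_multiplicity, if_neg hp, if_neg hq]
    exact h _ (monic_X_sub_C a) (irreducible_X_sub_C a)
  have e1 := (IsAlgClosed.splits p).eq_prod_roots
  have e2 := (IsAlgClosed.splits q).eq_prod_roots
  have lp : p.leadingCoeff ≠ 0 := leadingCoeff_ne_zero.2 hp
  have lq : q.leadingCoeff ≠ 0 := leadingCoeff_ne_zero.2 hq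
  refine ⟨p.leadingCoeff * q.leadingCoeff⁻¹, mul_ne_zero lp (inv_ne_zero lq), ?_⟩
  have e3 : C (p.leadingCoeff * q.leadingCoeff⁻¹) * q =
      C (p.leadingCoeff * q.leadingCoeff⁻¹) *
        (C q.leadingCoeff * (q.roots.map fun a => X - C a).prod) := by
    rw [← e2]
  rw [e3, ← mul_assoc, ← C_mul, mul_assoc, inv_mul_cancel₀ lq, mul_one, ← hr]
  exact e1

section

variable {k K : Type} [Field k] [Field K] [Algebra k K] {R : Subring K}

/-- The map from `k` to the residue field. -/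
noncomputable def c01_phi (hR : Reg2 k R) (bl : Blow R) : k →+* bl.κ :=
  bl.res.comp ((algebraMap k K).codRestrict R hR.k_mem)

theorem c01_phi_apply (hR : Reg2 k R) (bl : Blow R) (c : k) :
    c01_phi hR bl c = bl.res ⟨algebraMap k K c, hR.k_mem c⟩ := rfl

theorem c01_phi_surj (hR : Reg2 k R) (hk : ResK k R) (bl : Blow R) :
    Function.Surjective (c01_phi hR bl) := by
  intro x
  obtain ⟨r, rfl⟩ := bl.surj x
  obtain ⟨c, r', h1, h2⟩ := hk r
  refine ⟨c, ?_⟩
  have h3 : bl.res r' = 0 := by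
    by_contra h
    exact h2 ((bl.unit r').2 h)
  have h4 : r = r' + ⟨algebraMap k K c, hR.k_mem c⟩ := by
    apply Subtype.ext
    change (r : K) = r' + algebraMap k K c
    rw [h1]
    ring
  rw [c01_phi_apply]
  conv_rhs => rw [h4, map_add, h3, zero_add]

theorem c01_closed (hR : Reg2 k R) (hk : ResK k R) (bl : Blow R) [IsAlgClosed k] :
    IsAlgClosed bl.κ :=
  IsAlgClosed.of_ringEquiv k bl.κ
    (RingEquiv.ofBijective (c01_phi hR bl) ⟨(c01_phi hR bl).injective, c01_phi_surj hR hk bl⟩)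

theorem c01_tors (hR : Reg2 k R) (hk : ResK k R) (bl : Blow R)
    (ht : ∀ c : k, c ≠ 0 → ∃ n : ℕ, 0 < n ∧ c ^ n = 1) (u : bl.κ) (hu : u ≠ 0) :
    ∃ n : ℕ, 0 < n ∧ u ^ n = 1 := by
  obtain ⟨c, rfl⟩ := c01_phi_surj hR hk bl u
  obtain ⟨n, hn, h⟩ := ht c (by rintro rfl; exact hu (map_zero _))
  exact ⟨n, hn, by rw [← map_pow, h, map_one]⟩

theorem c01_coe_ne (bl : Blow R) (b : bl.B) (hb : bl.θ b ≠ 0) : (b : K) ≠ 0 := by
  intro h
  apply hb
  have : b = 0 := Subtype.ext h
  rw [this, map_zero]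

theorem c01_isE_unique (bl : Blow R) (E E' : ValuationSubring K) (h : bl.IsE E)
    (h' : bl.IsE E') : E = E' := by
  ext z
  rw [h z, h' z]

end

/-- Row C01. -/
theorem sp_ce (_h1 : SpOnFacts) (h2 : SpOD) (h8 : SpE) (h9 : SpLoc) (h10 : SpCl)
    (h11 : SpOE) : SpCE := by
  classical
  intro p k K _ _ _ hb g hg R hR hk htz bl
  haveI := hb.closed
  haveI : IsAlgClosed bl.κ := c01_closed hR hk bl
  obtain ⟨-, hE, -⟩ := h8 k K R hR bl
  have key : ∀ E : ValuationSubring K, bl.IsE E → TorsV E (g E) := by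
    intro E hIE
    obtain ⟨hEd, -, hBE, hBn⟩ := hE E hIE
    have hu := hg.unit E hEd
    obtain ⟨a, b, hb0, hab⟩ := (hIE _).1 hu.1
    have hbn : (b : K) ≠ 0 := c01_coe_ne bl b hb0
    have ha0 : bl.θ a ≠ 0 := by
      intro h
      have h3 : (a : K) ∈ E.nonunits := (hBn a).2 h
      have h4 : ((g E)⁻¹ : Kˣ) * (a : K) ∈ E.nonunits := by
        have := E.nonunits_subset h3
        rw [ValuationSubring.mem_nonunits_iff_exists_mem_maximalIdeal] at h3 ⊢
        obtain ⟨h5, h6⟩ := h3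
        exact ⟨E.mul_mem _ _ hu.2 h5, Ideal.mul_mem_left _ (⟨_, hu.2⟩ : E) h6⟩
      have h5 : (((g E)⁻¹ : Kˣ) : K) * (a : K) = b := by
        rw [← hab]
        rw [← mul_assoc, Units.inv_mul, one_mul]
      rw [h5] at h4
      exact hb0 ((hBn b).1 h4)
    have hm : ∀ π : bl.κ[X], π.Monic → Irreducible π →
        multiplicity π (bl.θ a) = multiplicity π (bl.θ b) := by
      intro π hπ1 hπ2
      have hπ : bl.Pt π := ⟨hπ1, hπ2⟩
      obtain ⟨-, hreg⟩ := h9 k K R hR bl π hπ
      have hs := hg.sum _ hreg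
      have hone : ∑ᶠ (s : ValuationSubring K) (_ : On (bl.loc π) s), oD (bl.loc π) s (g s) =
          oD (bl.loc π) E (g E) := by
        rw [finsum_eq_single _ E]
        · rw [finsum_eq_if]
          rw [if_pos ((h10 k K R hR bl π hπ E).2 hIE).1]
        · intro s hs
          rw [finsum_eq_if]
          split_ifs with hon
          · rcases (h10 k K R hR bl π hπ s).1 hon with h | h
            · exact absurd (c01_isE_unique bl _ _ h hIE) hs
            · obtain ⟨f, hf⟩ := hon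
              exact (h2 k K _ hreg f s hf).2.2.2.2 _ (htz s h)
          · rfl
      rw [hone, h11 k K R hR bl π hπ E hIE a b (g E) ha0 hb0 hab] at hs
      omega
    obtain ⟨u, hu0, hu1⟩ := c01_poly bl.κ _ _ ha0 hb0 hm
    obtain ⟨n, hn, hun⟩ := c01_tors hR hk bl hb.tors u hu0
    refine ⟨n, hn, ?_⟩
    have h3 : ((a ^ n - b ^ n : bl.B) : K) ∈ E.nonunits := by
      rw [hBn, map_sub, map_pow, map_pow, hu1, mul_pow, ← C_pow, hun, C_1, one_mul, sub_self]
    have h4 : ((b : K)⁻¹) ∈ E := by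
      rw [hIE]
      refine ⟨1, b, hb0, ?_⟩
      rw [inv_mul_cancel₀ hbn]
      rfl
    have h5 : ((g E : Kˣ) : K) ^ n - 1 = ((b : K)⁻¹) ^ n * ((a ^ n - b ^ n : bl.B) : K) := by
      have : ((a ^ n - b ^ n : bl.B) : K) = (a : K) ^ n - (b : K) ^ n := rfl
      have hbn' : (b : K) ^ n ≠ 0 := pow_ne_zero _ hbn
      rw [this, ← hab, mul_pow, inv_pow]
      field_simp
    rw [h5]
    rw [ValuationSubring.mem_nonunits_iff_exists_mem_maximalIdeal] at h3 ⊢
    obtain ⟨h7, h8⟩ := h3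
    have h9 : ((b : K)⁻¹) ^ n ∈ E := pow_mem h4 n
    exact ⟨E.mul_mem _ _ h9 h7, Ideal.mul_mem_left _ (⟨_, h9⟩ : E) h8⟩
  refine ⟨key, fun π hπ => ?_⟩
  obtain ⟨hloc, hreg⟩ := h9 k K R hR bl π hπ
  refine ⟨hreg, ?_, ?_⟩
  · intro r
    obtain ⟨a, b, hb0, hab⟩ := (hloc _).1 r.2
    obtain ⟨c', rfl⟩ : ∃ c', π = X - C c' := by
      have hd : π.degree = 1 := IsAlgClosed.degree_eq_one_of_irreducible _ hπ.2
      have h3 := hπ.1
      refine ⟨-π.coeff 0, ?_⟩
      have h4 := eq_X_add_C_of_degree_eq_one hd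
      rw [h3.leadingCoeff, C_1, one_mul] at h4
      rw [C_neg, sub_neg_eq_add]
      exact h4
    have hev : (bl.θ b).eval c' ≠ 0 := by
      intro h
      exact hb0 (dvd_iff_isRoot.2 h)
    obtain ⟨c, hc⟩ := c01_phi_surj hR hk bl ((bl.θ a).eval c' / (bl.θ b).eval c')
    have hcm : algebraMap k K c ∈ bl.loc (X - C c') := hreg.k_mem c
    refine ⟨c, r - ⟨algebraMap k K c, hcm⟩, rfl, ?_⟩
    set cc : bl.B := ⟨algebraMap k K c, bl.RB ⟨algebraMap k K c, hR.k_mem c⟩⟩ with hcc
    have hθc : bl.θ cc = C (c01_phi hR bl c) := bl.θR ⟨algebraMap k K c, hR.k_mem c⟩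
    have hroot : (X - C c') ∣ bl.θ (a - cc * b) := by
      rw [dvd_iff_isRoot, IsRoot.def, map_sub, map_mul, eval_sub, eval_mul, hθc, eval_C, hc,
        div_mul_cancel₀ _ hev, sub_self]
    intro hunit
    obtain ⟨s, hs⟩ := hunit.exists_right_inv
    obtain ⟨a2, b2, hb2, hab2⟩ := (hloc _).1 s.2
    have e0 : ((r : K) - algebraMap k K c) * (s : K) = 1 := congrArg Subtype.val hs
    have e1 : (a - cc * b) * a2 = b * b2 := by
      apply Subtype.ext
      change ((a : K) - algebraMap k K c * (b : K)) * (a2 : K) = (b : K) * (b2 : K)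
      rw [← hab, ← hab2]
      calc ((r : K) * b - algebraMap k K c * b) * ((s : K) * b2)
          = (((r : K) - algebraMap k K c) * (s : K)) * (b * b2) := by ring
        _ = b * b2 := by rw [e0, one_mul]
    have e2 : (X - C c') ∣ bl.θ b * bl.θ b2 := by
      rw [← map_mul, ← e1, map_mul]
      exact Dvd.dvd.mul_right hroot _
    rcases hπ.2.prime.dvd_or_dvd e2 with h | h
    · exact hb0 h
    · exact hb2 h
  · intro s hs
    rcases (h10 k K R hR bl π hπ s).1 hs with h | h
    · exact key s h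
    · exact htz s h

end Pool.Agent.H19.UT
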