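import Pool.Agent.H19.UT.SpA

/-!
Project UT, block A: the local rings of the blow-up (A09).
-/

set_option autoImplicit false
set_option maxHeartbeats 400000

open Polynomial Pool.Agent.K1

namespace Pool.Agent.H19.UT

section a10

variable {L : Type} [Field L] {R : Subring L}

theorem a10_theta_surj (bl : Blow R) : Function.Surjective bl.θ := by
  intro p
  induction p using Polynomial.induction_on' with
  | add p q hp hq =>
    obtain ⟨a, ha⟩ := hp
    obtain ⟨b, hb⟩ := hq
    exact ⟨a + b, by rw [map_add, ha, hb]⟩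
  | monomial n c =>
    obtain ⟨r, hr⟩ := bl.surj c
    refine ⟨⟨r, bl.RB r⟩ * bl.t ^ n, ?_⟩
    rw [map_mul, map_pow, bl.θR, bl.θt, hr, C_mul_X_pow_eq_monomial]

/-- The local ring as a subring. -/
def a10_sub (bl : Blow R) (π : bl.κ[X]) (hπ : Prime π) : Subring L where
  carrier := {z : L | ∃ a b : bl.B, ¬ π ∣ bl.θ b ∧ z * b = a}
  mul_mem' := by
    rintro z w ⟨a, b, hb, h⟩ ⟨a', b', hb', h'⟩
    refine ⟨a * a', b * b', ?_, ?_⟩
    · rw [map_mul]
      exact fun h => (hπ.dvd_or_dvd h).elim hb hb'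
    · push_cast
      rw [← h, ← h']
      ring
  one_mem' := ⟨1, 1, by rw [map_one]; exact hπ.not_dvd_one, by simp⟩
  add_mem' := by
    rintro z w ⟨a, b, hb, h⟩ ⟨a', b', hb', h'⟩
    refine ⟨a * b' + a' * b, b * b', ?_, ?_⟩
    · rw [map_mul]
      exact fun h => (hπ.dvd_or_dvd h).elim hb hb'
    · push_cast
      rw [← h, ← h']
      ring
  zero_mem' := ⟨0, 1, by rw [map_one]; exact hπ.not_dvd_one, by simp⟩
  neg_mem' := by
    rintro z ⟨a, b, hb, h⟩
    exact ⟨-a, b, hb, by push_cast; rw [← h]; ring⟩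

theorem a10_loc_eq (bl : Blow R) (π : bl.κ[X]) (hπ : Prime π) :
    bl.loc π = a10_sub bl π hπ := by
  have h : bl.loc π = Subring.closure ((a10_sub bl π hπ : Subring L) : Set L) := rfl
  rw [h, Subring.closure_eq]

theorem a10_isLoc (bl : Blow R) (π : bl.κ[X]) (hπ : Prime π) : bl.IsLoc π (bl.loc π) := by
  intro z
  rw [a10_loc_eq bl π hπ]
  exact Iff.rfl

theorem a10_ne_zero (bl : Blow R) (π : bl.κ[X]) (b : bl.B) (h : ¬ π ∣ bl.θ b) : (b : L) ≠ 0 := by
  intro h0
  apply h
  have : b = 0 := Subtype.ext h0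
  rw [this, map_zero]
  exact dvd_zero _

/-- The prime ideal of the point. -/
noncomputable def a10_P (bl : Blow R) (π : bl.κ[X]) : Ideal bl.B := Ideal.comap bl.θ (Ideal.span {π})

theorem a10_mem (bl : Blow R) (π : bl.κ[X]) (b : bl.B) : b ∈ a10_P bl π ↔ π ∣ bl.θ b := by
  rw [a10_P, Ideal.mem_comap, Ideal.mem_span_singleton]

theorem a10_prime (bl : Blow R) (π : bl.κ[X]) (hπ : Prime π) : (a10_P bl π).IsPrime := by
  have : (Ideal.span {π} : Ideal bl.κ[X]).IsPrime :=
    (Ideal.span_singleton_prime hπ.ne_zero).mpr hπ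
  exact Ideal.IsPrime.comap _

theorem a10_B_le (bl : Blow R) (π : bl.κ[X]) (hπ : Prime π) : bl.B ≤ bl.loc π := by
  intro z hz
  rw [a10_isLoc bl π hπ z]
  exact ⟨⟨z, hz⟩, 1, by rw [map_one]; exact hπ.not_dvd_one, by simp⟩

/-- The algebra structure. -/
@[reducible] noncomputable def a10_alg (bl : Blow R) (π : bl.κ[X]) (hπ : Prime π) : Algebra bl.B (bl.loc π) :=
  (Subring.inclusion (a10_B_le bl π hπ)).toAlgebra

theorem a10_isLocalization (bl : Blow R) (π : bl.κ[X]) (hπ : Prime π) :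
    letI := a10_alg bl π hπ
    haveI := a10_prime bl π hπ
    IsLocalization.AtPrime (bl.loc π) (a10_P bl π) := by
  let _ := a10_alg bl π hπ
  have := a10_prime bl π hπ
  have hmap : ∀ b : bl.B, ((algebraMap bl.B (bl.loc π) b : bl.loc π) : L) = b := fun b => rfl
  refine (isLocalization_iff _ _).mpr ⟨?_, ?_, ?_⟩
  · rintro ⟨b, hb⟩
    have hb' : ¬ π ∣ bl.θ b := fun h => hb ((a10_mem bl π b).mpr h)
    have h0 := a10_ne_zero bl π b hb'
    have hinv : (b : L)⁻¹ ∈ bl.loc π := by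
      rw [a10_isLoc bl π hπ]
      exact ⟨1, b, hb', by simp [inv_mul_cancel₀ h0]⟩
    refine IsUnit.of_mul_eq_one ⟨(b : L)⁻¹, hinv⟩ ?_
    apply Subtype.ext
    change (b : L) * (b : L)⁻¹ = 1
    exact mul_inv_cancel₀ h0
  · rintro ⟨z, hz⟩
    obtain ⟨a, b, hb, h⟩ := (a10_isLoc bl π hπ z).mp hz
    refine ⟨(a, ⟨b, fun h' => hb ((a10_mem bl π b).mp h')⟩), ?_⟩
    apply Subtype.ext
    exact h
  · intro x y h
    refine ⟨1, ?_⟩
    have h' : (x : L) = y := by
      rw [← hmap x, ← hmap y, h]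
    have : x = y := Subtype.ext h'
    rw [this]

theorem a10_noeth (bl : Blow R) (hR : IsNoetherianRing R) : IsNoetherianRing bl.B := by
  let f : R[X] →+* bl.B := Polynomial.eval₂RingHom bl.inc bl.t
  have hf : Function.Surjective f := by
    intro b
    obtain ⟨P, hP⟩ := bl.gen b
    refine ⟨P, ?_⟩
    apply Subtype.ext
    rw [hP]
    have h1 : bl.B.subtype (f P) = P.eval₂ (bl.B.subtype.comp bl.inc) (bl.B.subtype bl.t) := by
      change bl.B.subtype (P.eval₂ bl.inc bl.t) = _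
      rw [Polynomial.hom_eval₂]
    exact h1
  exact isNoetherianRing_of_surjective _ _ f hf

theorem a10_theta_x (bl : Blow R) : bl.θ (bl.inc bl.x) = 0 := by
  have h : bl.res bl.x = 0 := (bl.hm bl.x).mpr ⟨1, 0, by ring⟩
  have h2 := bl.θR bl.x
  rw [h, map_zero] at h2
  exact h2

theorem a10_gens (bl : Blow R) (π : bl.κ[X]) (p : bl.B) (hp : bl.θ p = π) :
    a10_P bl π = Ideal.span {bl.inc bl.x, p} := by
  apply le_antisymm
  · intro b hb
    rw [a10_mem] at hb
    obtain ⟨q, hq⟩ := hb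
    obtain ⟨c, hc⟩ := a10_theta_surj bl q
    have h0 : bl.θ (b - p * c) = 0 := by
      rw [map_sub, map_mul, hp, hc, hq, sub_self]
    obtain ⟨d, hd⟩ := (bl.θker _).mp h0
    rw [Ideal.mem_span_pair]
    refine ⟨d, c, ?_⟩
    apply Subtype.ext
    have hd' : ((b : L)) - p * c = bl.x * d := by
      rw [← hd]
      push_cast
      ring
    have hx : ((bl.inc bl.x : bl.B) : L) = bl.x := rfl
    push_cast
    rw [hx]
    linear_combination -hd'
  · rw [Ideal.span_le]
    intro b hb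
    rcases hb with rfl | hb
    · rw [SetLike.mem_coe, a10_mem, a10_theta_x]
      exact dvd_zero _
    · rw [Set.mem_singleton_iff] at hb
      rw [hb, SetLike.mem_coe, a10_mem, hp]

theorem a10_height (bl : Blow R) (π : bl.κ[X]) (hπ : Prime π) : 2 ≤ (a10_P bl π).height := by
  have := a10_prime bl π hπ
  have hb : (⊥ : Ideal bl.B).IsPrime := Ideal.isPrime_bot
  have hk : (RingHom.ker bl.θ).IsPrime := RingHom.ker_isPrime _
  have h1 : (⊥ : Ideal bl.B) < RingHom.ker bl.θ := by
    rw [bot_lt_iff_ne_bot]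
    intro h
    have hx : bl.inc bl.x ∈ RingHom.ker bl.θ := by
      rw [RingHom.mem_ker]
      exact a10_theta_x bl
    rw [h, Ideal.mem_bot] at hx
    have h3 : ((bl.inc bl.x : bl.B) : L) = 0 := by rw [hx]; rfl
    exact bl.x0 h3
  have h2 : RingHom.ker bl.θ < a10_P bl π := by
    refine lt_of_le_of_ne ?_ ?_
    · intro b hb
      rw [RingHom.mem_ker] at hb
      rw [a10_mem, hb]
      exact dvd_zero _
    · intro h
      obtain ⟨p, hp⟩ := a10_theta_surj bl π
      have hm : p ∈ a10_P bl π := by rw [a10_mem, hp]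
      rw [← h, RingHom.mem_ker, hp] at hm
      exact hπ.ne_zero hm
  have h3 := Ideal.height_add_one_le_of_lt_of_isPrime h1
  have h4 := Ideal.height_add_one_le_of_lt_of_isPrime h2
  calc (2 : ℕ∞) = 0 + 1 + 1 := by norm_num
    _ ≤ (⊥ : Ideal bl.B).height + 1 + 1 := by gcongr; exact zero_le
    _ ≤ (RingHom.ker bl.θ).height + 1 := by gcongr
    _ ≤ _ := h4

theorem a10_reg (bl : Blow R) (π : bl.κ[X]) (hπ : Prime π) (hR : IsNoetherianRing R) :
    IsRegularLocalRing (bl.loc π) ∧ ringKrullDim (bl.loc π) = 2 := by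
  let _ := a10_alg bl π hπ
  have := a10_prime bl π hπ
  have hloc : IsLocalization.AtPrime (bl.loc π) (a10_P bl π) := a10_isLocalization bl π hπ
  have := a10_noeth bl hR
  have hN : IsNoetherianRing (bl.loc π) :=
    IsLocalization.isNoetherianRing (a10_P bl π).primeCompl _ inferInstance
  have hL : IsLocalRing (bl.loc π) := IsLocalization.AtPrime.isLocalRing _ (a10_P bl π)
  obtain ⟨p, hp⟩ := a10_theta_surj bl π
  have hmax : IsLocalRing.maximalIdeal (bl.loc π) =
      Ideal.span {algebraMap bl.B (bl.loc π) (bl.inc bl.x), algebraMap bl.B (bl.loc π) p} := by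
    rw [← IsLocalization.AtPrime.map_eq_maximalIdeal (a10_P bl π) (bl.loc π), a10_gens bl π p hp,
      Ideal.map_span, Set.image_pair]
  have hspan : (IsLocalRing.maximalIdeal (bl.loc π)).spanFinrank ≤ 2 := by
    rw [hmax]
    refine (Submodule.spanFinrank_span_le_ncard_of_finite (Set.toFinite _)).trans ?_
    exact (Set.ncard_insert_le _ _).trans (by simp)
  have hdim : ringKrullDim (bl.loc π) = (a10_P bl π).height :=
    IsLocalization.AtPrime.ringKrullDim_eq_height (a10_P bl π) (bl.loc π)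
  have hge : (2 : WithBot ℕ∞) ≤ ringKrullDim (bl.loc π) := by
    rw [hdim]
    exact WithBot.coe_le_coe.mpr (a10_height bl π hπ)
  have hle : ringKrullDim (bl.loc π) ≤ 2 :=
    (ringKrullDim_le_spanFinrank_maximalIdeal _).trans (by exact_mod_cast hspan)
  refine ⟨IsRegularLocalRing.of_spanFinrank_maximalIdeal_le _ ?_, le_antisymm hle hge⟩
  refine le_trans ?_ hge
  exact_mod_cast hspan

end a10

theorem loc_facts : SpLoc := by
  intro k L _ _ _ R hR bl π hπ
  have hp : Prime π := hπ.2.prime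
  refine ⟨a10_isLoc bl π hp, ?_, ?_, ?_, ?_⟩
  · intro c
    exact a10_B_le bl π hp (bl.RB ⟨_, hR.k_mem c⟩)
  · intro f
    obtain ⟨a, b, hb, h⟩ := hR.frac f
    exact ⟨⟨a, a10_B_le bl π hp (bl.RB a)⟩, ⟨b, a10_B_le bl π hp (bl.RB b)⟩, hb, h⟩
  · have := hR.reg
    exact (a10_reg bl π hp inferInstance).1
  · have := hR.reg
    exact (a10_reg bl π hp inferInstance).2

end Pool.Agent.H19.UT
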