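import Pool.Agent.H19.UT.SpC
import Pool.Agent.H19.UT.BlowX
import Pool.Agent.H19.UT.BlowF
import Pool.Agent.H19.UT.LocF

/-!
Project UT, row C02: one step along a valuation ring (helper29).
-/

set_option autoImplicit false
set_option maxHeartbeats 400000

open Polynomial Pool.Agent.K1

namespace Pool.Agent.H19.UT

section c02

/-- Parameters, ordered by their values. -/
theorem c02_params {k K : Type} [Field k] [Field K] [Algebra k K] (R : Subring K)
    (hR : Reg2 k R) (s : ValuationSubring K) :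
    ∃ x y : R, (∀ r : R, ¬ IsUnit r ↔ ∃ a b : R, r = a * x + b * y) ∧
      ordV s (x : K) ≤ ordV s (y : K) := by
  have := hR.reg
  obtain ⟨x, y, hxy⟩ := a07b_gens R hR.dim
  have h1 : ∀ r : R, ¬ IsUnit r ↔ ∃ a b : R, r = a * x + b * y := by
    intro r
    have h2 : ¬ IsUnit r ↔ r ∈ IsLocalRing.maximalIdeal R := by simp
    rw [h2, hxy, Ideal.mem_span_pair]
    constructor
    · rintro ⟨a, b, h⟩
      exact ⟨a, b, h.symm⟩
    · rintro ⟨a, b, h⟩
      exact ⟨a, b, h.symm⟩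
  rcases le_total (ordV s (x : K)) (ordV s (y : K)) with h | h
  · exact ⟨x, y, h1, h⟩
  · refine ⟨y, x, ?_, h⟩
    intro r
    rw [h1 r]
    constructor
    · rintro ⟨a, b, h⟩
      exact ⟨b, a, by rw [h]; ring⟩
    · rintro ⟨a, b, h⟩
      exact ⟨b, a, by rw [h]; ring⟩

variable {k K : Type} [Field k] [Field K] [Algebra k K] {R : Subring K}

/-- The map from the constants to the residue field. -/
def c02_rho (hR : Reg2 k R) (bl : Blow R) : k →+* bl.κ where
  toFun c := bl.res ⟨algebraMap k K c, hR.k_mem c⟩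
  map_one' := by
    have h : (⟨algebraMap k K 1, hR.k_mem 1⟩ : R) = 1 := Subtype.ext (map_one _)
    rw [h, map_one]
  map_mul' a b := by
    have h : (⟨algebraMap k K (a * b), hR.k_mem (a * b)⟩ : R) =
        ⟨algebraMap k K a, hR.k_mem a⟩ * ⟨algebraMap k K b, hR.k_mem b⟩ :=
      Subtype.ext (map_mul _ _ _)
    rw [h, map_mul]
  map_zero' := by
    have h : (⟨algebraMap k K 0, hR.k_mem 0⟩ : R) = 0 := Subtype.ext (map_zero _)
    rw [h, map_zero]
  map_add' a b := by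
    have h : (⟨algebraMap k K (a + b), hR.k_mem (a + b)⟩ : R) =
        ⟨algebraMap k K a, hR.k_mem a⟩ + ⟨algebraMap k K b, hR.k_mem b⟩ :=
      Subtype.ext (map_add _ _ _)
    rw [h, map_add]

/-- The constants in the chart. -/
def c02_cst (hR : Reg2 k R) (bl : Blow R) (c : k) : bl.B :=
  ⟨algebraMap k K c, bl.RB ⟨algebraMap k K c, hR.k_mem c⟩⟩

theorem c02_theta_cst (hR : Reg2 k R) (bl : Blow R) (c : k) :
    bl.θ (c02_cst hR bl c) = C (c02_rho hR bl c) :=
  bl.θR ⟨algebraMap k K c, hR.k_mem c⟩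

theorem c02_rho_surj (hR : Reg2 k R) (hres : ResK k R) (bl : Blow R) :
    Function.Surjective (c02_rho hR bl) := by
  intro a
  obtain ⟨r, rfl⟩ := bl.surj a
  obtain ⟨c, r', h1, h2⟩ := hres r
  refine ⟨c, ?_⟩
  have h3 : bl.res r' = 0 := by
    by_contra h
    exact h2 ((bl.unit r').2 h)
  have h4 : r' = r - ⟨algebraMap k K c, hR.k_mem c⟩ := Subtype.ext h1
  rw [h4, map_sub, sub_eq_zero] at h3
  exact h3.symm

/-- An element with given reduction. -/
theorem c02_lift (hR : Reg2 k R) (bl : Blow R) (b b₁ : bl.B) (c c₀ : k) (q : bl.κ[X])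
    (hb₁ : bl.θ b₁ = q)
    (h : bl.θ b = (X - C (c02_rho hR bl c)) * q + C (c02_rho hR bl c₀)) :
    ∃ b₂ : bl.B, (b : K) = ((bl.t : K) - algebraMap k K c) * b₁ + algebraMap k K c₀ +
      (bl.x : K) * b₂ := by
  have h0 : bl.θ (b - (bl.t - c02_cst hR bl c) * b₁ - c02_cst hR bl c₀) = 0 := by
    rw [map_sub, map_sub, map_mul, map_sub, c02_theta_cst, c02_theta_cst, bl.θt, hb₁, h]
    ring
  obtain ⟨b₂, hb₂⟩ := (bl.θker _).1 h0
  refine ⟨b₂, ?_⟩
  have h1 : ((b - (bl.t - c02_cst hR bl c) * b₁ - c02_cst hR bl c₀ : bl.B) : K) =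
      b - ((bl.t : K) - algebraMap k K c) * b₁ - algebraMap k K c₀ := rfl
  rw [h1] at hb₂
  linear_combination hb₂

variable {s : ValuationSubring K}

theorem c02_add {a b : K} (ha : a ∈ s.nonunits) (hb : b ∈ s.nonunits) : a + b ∈ s.nonunits := by
  rw [ValuationSubring.mem_nonunits_iff] at ha hb ⊢
  exact (s.valuation.map_add_lt ha hb)

theorem c02_neg {a : K} (ha : a ∈ s.nonunits) : -a ∈ s.nonunits := by
  rw [ValuationSubring.mem_nonunits_iff] at ha ⊢
  rwa [Valuation.map_neg]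

theorem c02_mem {a : K} (ha : a ∈ s.nonunits) : a ∈ s := by
  rw [ValuationSubring.mem_nonunits_iff] at ha
  exact (s.valuation_le_one_iff a).1 ha.le

theorem c02_inv {a : K} (ha : a ∈ s) (h : a ∉ s.nonunits) : a ≠ 0 ∧ a⁻¹ ∈ s := by
  rw [tord_nonunits_iff, not_or, not_and, not_not] at h
  exact ⟨h.1, h.2 ha⟩

theorem c02_mul {a b : K} (ha : a ∈ s) (hb : b ∈ s) (ha' : a ∉ s.nonunits)
    (hb' : b ∉ s.nonunits) : a * b ∉ s.nonunits := by
  obtain ⟨ha0, hai⟩ := c02_inv ha ha'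
  obtain ⟨hb0, hbi⟩ := c02_inv hb hb'
  intro h
  rw [tord_nonunits_iff] at h
  rcases h with h | ⟨_, h⟩
  · exact mul_ne_zero ha0 hb0 h
  · apply h
    rw [mul_inv]
    exact s.mul_mem _ _ hai hbi

theorem c02_one : (1 : K) ∉ s.nonunits := by
  rw [ValuationSubring.mem_nonunits_iff, map_one]
  exact lt_irrefl _

/-- Nonzero constants are units. -/
theorem c02_cst_unit (hR : Reg2 k R) (hd : Dom R s) {c : k} (hc : c ≠ 0) :
    algebraMap k K c ∉ s.nonunits := by
  intro h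
  have h1 : algebraMap k K c⁻¹ ∈ s := (hd ⟨_, hR.k_mem c⁻¹⟩).1
  have h2 := nonunits_mul h1 h
  rw [← map_mul, inv_mul_cancel₀ hc, map_one] at h2
  exact c02_one h2

/-- The chart is in `s`. -/
theorem c02_B (hs : IsDiscV s) (hd : Dom R s) (bl : Blow R)
    (hxy : ordV s (bl.x : K) ≤ ordV s (bl.y : K)) (hy : (bl.y : K) ≠ 0) (b : bl.B) :
    (b : K) ∈ s := by
  have ht0 : (bl.t : K) ≠ 0 := by
    intro h
    apply hy
    rw [← bl.ht, h, mul_zero]
  have ht : (bl.t : K) ∈ s := by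
    rw [mem_iff_ordV hs ht0]
    have h1 := ordV_mul hs bl.x0 ht0
    rw [bl.ht] at h1
    omega
  obtain ⟨P, hP⟩ := bl.gen b
  rw [hP, eval₂_eq_sum_range]
  exact sum_mem fun i _ => s.mul_mem _ _ (hd _).1 (pow_mem ht i)

theorem c02_dom (hR : Reg2 k R) (hres : ResK k R) (hd : Dom R s) (bl : Blow R)
    (hB : ∀ b : bl.B, (b : K) ∈ s) (hx : (bl.x : K) ∈ s.nonunits) (c : k)
    (hc : (bl.t : K) - algebraMap k K c ∈ s.nonunits) (b : bl.B) :
    (X - C (c02_rho hR bl c)) ∣ bl.θ b ↔ (b : K) ∈ s.nonunits := by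
  set a := c02_rho hR bl c with ha
  obtain ⟨c₀, hc₀⟩ := c02_rho_surj hR hres bl ((bl.θ b).eval a)
  obtain ⟨q, hq⟩ : (X - C a) ∣ bl.θ b - C ((bl.θ b).eval a) := by
    rw [dvd_iff_isRoot, IsRoot.def, eval_sub, eval_C, sub_self]
  obtain ⟨b₁, hb₁⟩ := a10_theta_surj bl q
  obtain ⟨b₂, hb₂⟩ := c02_lift hR bl b b₁ c c₀ q hb₁ (by
    rw [← ha, hc₀, ← hq]; ring)
  have h1 : ((bl.t : K) - algebraMap k K c) * b₁ ∈ s.nonunits := by
    rw [mul_comm]
    exact nonunits_mul (hB b₁) hc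
  have h2 : (bl.x : K) * b₂ ∈ s.nonunits := by
    rw [mul_comm]
    exact nonunits_mul (hB b₂) hx
  have h3 : (X - C a) ∣ bl.θ b ↔ c₀ = 0 := by
    rw [dvd_iff_isRoot, IsRoot.def, ← hc₀]
    exact map_eq_zero _
  rw [h3]
  constructor
  · intro h
    rw [h, map_zero, add_zero] at hb₂
    rw [hb₂]
    exact c02_add h1 h2
  · intro h
    by_contra h4
    apply c02_cst_unit hR hd h4
    have h5 : algebraMap k K c₀ =
        (b : K) + -(((bl.t : K) - algebraMap k K c) * b₁ + (bl.x : K) * b₂) := by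
      rw [hb₂]; ring
    rw [h5]
    exact c02_add h (c02_neg (c02_add h1 h2))

/-- All elements with nonzero reduction are units. -/
theorem c02_units (hR : Reg2 k R) (hres : ResK k R) (hk : IsAlgClosed k) (hd : Dom R s)
    (bl : Blow R) (hB : ∀ b : bl.B, (b : K) ∈ s) (hx : (bl.x : K) ∈ s.nonunits)
    (hc : ∀ c : k, (bl.t : K) - algebraMap k K c ∉ s.nonunits) (n : ℕ) :
    ∀ b : bl.B, bl.θ b ≠ 0 → (bl.θ b).natDegree = n → (b : K) ∉ s.nonunits := by
  have e : k ≃+* bl.κ := RingEquiv.ofBijective (c02_rho hR bl)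
    ⟨(c02_rho hR bl).injective, c02_rho_surj hR hres bl⟩
  have hκ : IsAlgClosed bl.κ := IsAlgClosed.of_ringEquiv k bl.κ e
  induction n with
  | zero =>
    intro b hb hn h
    rw [natDegree_eq_zero] at hn
    obtain ⟨r, hr⟩ := hn
    obtain ⟨c₀, hc₀⟩ := c02_rho_surj hR hres bl r
    obtain ⟨b₂, hb₂⟩ := c02_lift hR bl b 0 0 c₀ 0 (map_zero _) (by
      rw [← hr, hc₀]; ring)
    have h1 : c₀ ≠ 0 := by
      rintro rfl
      rw [map_zero] at hc₀
      rw [← hr, ← hc₀, C_0] at hb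
      exact hb rfl
    apply c02_cst_unit hR hd h1
    have h2 : (bl.x : K) * b₂ ∈ s.nonunits := by
      rw [mul_comm]
      exact nonunits_mul (hB b₂) hx
    have h5 : algebraMap k K c₀ = (b : K) + -((bl.x : K) * b₂) := by
      rw [hb₂]
      push_cast
      ring
    rw [h5]
    exact c02_add h (c02_neg h2)
  | succ n ih =>
    intro b hb hn h
    have hdeg : (bl.θ b).degree ≠ 0 := by
      intro h0
      have h00 := natDegree_eq_zero_iff_degree_le_zero.2 h0.le
      omega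
    obtain ⟨a, ha⟩ := IsAlgClosed.exists_root (bl.θ b) hdeg
    obtain ⟨c, rfl⟩ := c02_rho_surj hR hres bl a
    obtain ⟨q, hq⟩ := dvd_iff_isRoot.2 ha
    obtain ⟨b₁, hb₁⟩ := a10_theta_surj bl q
    obtain ⟨b₂, hb₂⟩ := c02_lift hR bl b b₁ c 0 q hb₁ (by
      rw [map_zero, C_0, add_zero, hq])
    have hq0 : q ≠ 0 := by
      rintro rfl
      rw [mul_zero] at hq
      exact hb hq
    have h1 : (b₁ : K) ∉ s.nonunits := by
      refine ih b₁ (by rw [hb₁]; exact hq0) ?_
      rw [hb₁]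
      rw [hq, natDegree_mul (X_sub_C_ne_zero _) hq0, natDegree_X_sub_C] at hn
      omega
    have h2 : (bl.x : K) * b₂ ∈ s.nonunits := by
      rw [mul_comm]
      exact nonunits_mul (hB b₂) hx
    have htm : (bl.t : K) - algebraMap k K c ∈ s :=
      sub_mem (hB bl.t) (hB (c02_cst hR bl c))
    apply c02_mul htm (hB b₁) (hc c) h1
    have h5 : ((bl.t : K) - algebraMap k K c) * b₁ = (b : K) + -((bl.x : K) * b₂) := by
      rw [hb₂, map_zero]; ring
    rw [h5]
    exact c02_add h (c02_neg h2)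

end c02

/-- Row C02: one step along a valuation ring. -/
theorem sp_cstep (hx : SpBlowX) (_h1 : SpOnFacts) (h8 : SpE) (h9 : SpLoc) : SpCStep := by
  intro p k K _ _ _ hk R hR hres s hs hd
  have hreg := hR.reg
  obtain ⟨x, y, hm, hle⟩ := c02_params R hR s
  obtain ⟨hxp, hxy, hyu⟩ := a07a_params hR.dim x y hm
  obtain ⟨bl, hblx, hbly⟩ := hx k K R hR x y hm
  have hy0 : (bl.y : K) ≠ 0 := by
    rw [hbly]
    intro h0
    apply hxy
    have : y = 0 := Subtype.ext h0
    rw [this]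
    exact dvd_zero _
  have hle' : ordV s (bl.x : K) ≤ ordV s (bl.y : K) := by rw [hblx, hbly]; exact hle
  have hB := c02_B hs hd bl hle' hy0
  have hxn : (bl.x : K) ∈ s.nonunits := by
    rw [hblx]
    exact (hd x).2 hxp.not_isUnit
  refine ⟨bl, hle', hy0, ?_⟩
  by_cases hc : ∃ c : k, (bl.t : K) - algebraMap k K c ∈ s.nonunits
  · right
    obtain ⟨c, hc⟩ := hc
    have hdiv := c02_dom hR hres hd bl hB hxn c hc
    have hPt : bl.Pt (X - C (c02_rho hR bl c)) := ⟨monic_X_sub_C _, irreducible_X_sub_C _⟩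
    have hloc := (h9 k K R hR bl _ hPt).1
    refine ⟨X - C (c02_rho hR bl c), hPt, ?_⟩
    rintro ⟨r, hr⟩
    obtain ⟨a, b, hb, hab⟩ := (hloc r).1 hr
    have hb1 : (b : K) ∉ s.nonunits := fun h => hb ((hdiv b).2 h)
    obtain ⟨hb0, hbi⟩ := c02_inv (hB b) hb1
    have hra : r = (b : K)⁻¹ * a := by
      rw [← hab]
      field_simp
    refine ⟨?_, fun hu => ?_⟩
    · change r ∈ s
      rw [hra]
      exact s.mul_mem _ _ hbi (hB a)
    · change r ∈ s.nonunits
      rw [hra]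
      refine nonunits_mul hbi ((hdiv a).1 ?_)
      by_contra ha
      apply hu
      have ha1 : (a : K) ∉ s.nonunits := fun h => ha ((hdiv a).2 h)
      obtain ⟨ha0, -⟩ := c02_inv (hB a) ha1
      have hri : r⁻¹ ∈ bl.loc (X - C (c02_rho hR bl c)) := by
        rw [hloc]
        refine ⟨b, a, ha, ?_⟩
        rw [hra]
        field_simp
      have hr0 : r ≠ 0 := by
        rw [hra]
        exact mul_ne_zero (inv_ne_zero hb0) ha0
      refine IsUnit.of_mul_eq_one ⟨r⁻¹, hri⟩ ?_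
      apply Subtype.ext
      exact mul_inv_cancel₀ hr0
  · left
    push Not at hc
    obtain ⟨⟨E, hE⟩, hE2, -⟩ := h8 k K R hR bl
    obtain ⟨hEd, -⟩ := hE2 E hE
    have hle2 : ∀ z ∈ E, z ∈ s := by
      intro z hz
      obtain ⟨a, b, hb, hab⟩ := (hE z).1 hz
      have hb1 := c02_units hR hres hk.closed hd bl hB hxn hc _ b hb rfl
      obtain ⟨hb0, hbi⟩ := c02_inv (hB b) hb1
      have hra : z = (b : K)⁻¹ * a := by
        rw [← hab]
        field_simp
      rw [hra]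
      exact s.mul_mem _ _ hbi (hB a)
    rcases discV_maximal hEd hle2 with h | h
    · rw [h]
      exact hE
    · exact absurd h (discV_ne_top hs)

end Pool.Agent.H19.UT
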