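import Pool.Agent.H19.UT.SpA

/-!
Project UT, row A06: if all fractions of the charts are principal, then the ring contains a
chart.
-/

set_option autoImplicit false
set_option maxHeartbeats 400000

open Polynomial Pool.Agent.K1

namespace Pool.Agent.H19.UT

/-- A local subring of a field is dominated by a valuation ring. -/
theorem a06_dom {L : Type} [Field L] (R : Subring L) (hR : IsLocalRing R) :
    ∃ V : ValuationSubring L, (∀ r : R, (r : L) ∈ V) ∧
      ∀ r : R, ¬ IsUnit r → (r : L) ∈ V.nonunits := by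
  obtain ⟨V, hV⟩ := (LocalSubring.mk R).exists_le_valuationSubring
  obtain ⟨h1, h2⟩ := LocalSubring.le_def.1 hV
  refine ⟨V, fun r => h1 r.2, fun r hr => ?_⟩
  rw [ValuationSubring.mem_nonunits_iff_exists_mem_maximalIdeal]
  refine ⟨h1 r.2, ?_⟩
  rw [IsLocalRing.mem_maximalIdeal, mem_nonunits_iff]
  intro hu
  exact hr (h2.map_nonunit r hu)

theorem chart_in (h5 : SpDl) : SpChart := by
  intro k L _ _ _ d R hR hd
  have hloc : IsLocalRing R := by
    have := hR.reg
    infer_instance
  obtain ⟨V, hV1, hV2⟩ := a06_dom R hloc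
  obtain ⟨i, hi⟩ := d.cover V
  refine ⟨i, fun a ha => ?_⟩
  rcases (h5 k L R hR).2.2.2 a (hd i a ha) with h | h
  · exact h
  · by_contra hna
    have hnu : ¬ IsUnit (⟨a⁻¹, h⟩ : R) := by
      rintro ⟨u, hu⟩
      apply hna
      have h1 : ((u : R) : L) * ((u⁻¹ : Rˣ) : R) = 1 := by
        exact congrArg (Subtype.val) (u.mul_inv)
      have h2 : ((u : R) : L) = a⁻¹ := by rw [hu]
      rw [h2] at h1
      have h3 : a = (((u⁻¹ : Rˣ) : R) : L) := by
        have ha0 : a ≠ 0 := by
          rintro rfl
          simp at h1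
        field_simp at h1
        exact h1.symm
      rw [h3]
      exact ((u⁻¹ : Rˣ) : R).2
    have h4 := hV2 _ hnu
    have h5' : a ∈ V := hi a ha
    have h6 : V.valuation a⁻¹ < 1 := (V.mem_nonunits_iff).1 h4
    have h7 : V.valuation a ≤ 1 := (V.valuation_le_one_iff a).2 h5'
    rw [map_inv₀] at h6
    have ha0 : a ≠ 0 := by
      rintro rfl
      exact hna R.zero_mem
    have h8 : V.valuation a ≠ 0 := (V.valuation.ne_zero_iff).2 ha0
    have h9 : (1 : V.ValueGroup) < V.valuation a := by
      rwa [inv_lt_one₀ (zero_lt_iff.2 h8)] at h6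
    exact absurd h7 (not_le.2 h9)

end Pool.Agent.H19.UT
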