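import Pool.Agent.H19.UT.SpA

/-!
Project UT, row A11: the curves on the local rings of the blow-up (helper72).
-/

set_option autoImplicit false
set_option maxHeartbeats 400000

open Polynomial Pool.Agent.K1

namespace Pool.Agent.H19.UT

theorem a11_nu_mul {L : Type} [Field L] (D : ValuationSubring L) {x y : L} (hx : x ∈ D)
    (hy : y ∈ D.nonunits) : x * y ∈ D.nonunits := by
  rw [ValuationSubring.mem_nonunits_iff] at *
  rw [map_mul]
  have h1 := (D.valuation_le_one_iff x).2 hx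
  calc D.valuation x * D.valuation y ≤ 1 * D.valuation y := by gcongr
    _ < 1 := by rwa [one_mul]

theorem a11_unit {L : Type} [Field L] (D : ValuationSubring L) {x : L}
    (hx : x ∉ D.nonunits) : x ≠ 0 ∧ x⁻¹ ∈ D := by
  rw [ValuationSubring.mem_nonunits_iff_or] at hx
  push Not at hx
  exact hx

theorem a11_not {L : Type} [Field L] (D : ValuationSubring L) {x : L}
    (hx : x ≠ 0) (hx' : x⁻¹ ∈ D) : x ∉ D.nonunits := by
  rw [ValuationSubring.mem_nonunits_iff_or]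
  push Not
  exact ⟨hx, hx'⟩

theorem a11_one {L : Type} [Field L] (D : ValuationSubring L) : (1 : L) ∉ D.nonunits :=
  a11_not D one_ne_zero (by rw [inv_one]; exact D.one_mem)

theorem a11_mul {L : Type} [Field L] (D : ValuationSubring L) {x y : L}
    (hx : x ∉ D.nonunits) (hy : y ∉ D.nonunits) : x * y ∉ D.nonunits := by
  obtain ⟨h1, h2⟩ := a11_unit D hx
  obtain ⟨h3, h4⟩ := a11_unit D hy
  exact a11_not D (mul_ne_zero h1 h3) (by rw [mul_inv]; exact D.mul_mem _ _ h2 h4)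

theorem a11_pow {L : Type} [Field L] (D : ValuationSubring L) {x : L}
    (hx : x ∉ D.nonunits) (n : ℕ) : x ^ n ∉ D.nonunits := by
  induction n with
  | zero => rw [pow_zero]; exact a11_one D
  | succ n ih => rw [pow_succ]; exact a11_mul D ih hx

section

variable {L : Type} [Field L] {R : Subring L}

theorem a11_BS (bl : Blow R) (π : bl.κ[X]) (hπ : bl.Pt π) (S : Subring L)
    (hS : bl.IsLoc π S) (b : bl.B) : (b : L) ∈ S :=
  (hS b).2 ⟨b, 1, by rw [map_one]; exact hπ.2.not_dvd_one, by simp⟩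

theorem a11_ne (bl : Blow R) (π : bl.κ[X]) (b : bl.B) (hb : ¬ π ∣ bl.θ b) : (b : L) ≠ 0 := by
  intro h
  have : b = 0 := Subtype.ext h
  rw [this, map_zero] at hb
  exact hb (dvd_zero _)

theorem a11_inv (bl : Blow R) (π : bl.κ[X]) (S : Subring L)
    (hS : bl.IsLoc π S) (b : bl.B) (hb : ¬ π ∣ bl.θ b) : (b : L)⁻¹ ∈ S :=
  (hS _).2 ⟨1, b, hb, by
    rw [inv_mul_cancel₀ (a11_ne bl π b hb)]
    rfl⟩

theorem a11_onE (bl : Blow R) (π : bl.κ[X]) (hπ : bl.Pt π) (S : Subring L)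
    (hS : bl.IsLoc π S) (E : ValuationSubring L) (hE : bl.IsE E) (hx : IsUnifV E (bl.x : L))
    (hB : ∀ b : bl.B, (b : L) ∈ E) (hn : ∀ b : bl.B, (b : L) ∈ E.nonunits ↔ bl.θ b = 0) :
    ∃ xS : S, (xS : L) = bl.x ∧ OnR S xS E := by
  have hBS := a11_BS bl π hπ S hS
  have hSE : ∀ s ∈ S, s ∈ E := by
    intro s hs
    obtain ⟨a, b, hb, h⟩ := (hS s).1 hs
    exact (hE s).2 ⟨a, b, fun h0 => hb (h0 ▸ dvd_zero _), h⟩
  have hxn : (bl.x : L) ∈ E.nonunits := (hx.2 _).2 ⟨1, E.one_mem, by rw [mul_one]⟩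
  have hxS : (bl.x : L) ∈ S := hBS ⟨bl.x, bl.RB bl.x⟩
  have key : ∀ s : S, (s : L) ∈ E.nonunits ↔ (⟨bl.x, hxS⟩ : S) ∣ s := by
    intro s
    constructor
    · intro hs
      obtain ⟨a, b, hb, h⟩ := (hS s).1 s.2
      have h1 : (a : L) ∈ E.nonunits := by
        rw [← h, mul_comm]
        exact a11_nu_mul E (hB b) hs
      obtain ⟨c, hc⟩ := (bl.θker a).1 ((hn a).1 h1)
      have hb0 := a11_ne bl π b hb
      have hw : (c : L) * (b : L)⁻¹ ∈ S := (hS _).2 ⟨c, b, hb, by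
        rw [mul_assoc, inv_mul_cancel₀ hb0, mul_one]⟩
      refine ⟨⟨_, hw⟩, Subtype.ext ?_⟩
      show (s : L) = (bl.x : L) * ((c : L) * (b : L)⁻¹)
      rw [← mul_assoc, ← hc, ← h, mul_assoc, mul_inv_cancel₀ hb0, mul_one]
    · rintro ⟨w, rfl⟩
      show (bl.x : L) * (w : L) ∈ E.nonunits
      rw [mul_comm]
      exact a11_nu_mul E (hSE _ w.2) hxn
  refine ⟨⟨bl.x, hxS⟩, rfl, ⟨?_, ?_, ?_⟩, ?_⟩
  · intro h0
    exact hx.1 (congrArg Subtype.val h0)
  · intro hu
    have h1 := (key 1).2 hu.dvd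
    exact a11_one E h1
  · intro a b hab
    have h1 := (key (a * b)).2 hab
    by_contra hcon
    push Not at hcon
    have h2 : (a : L) ∉ E.nonunits := fun h => hcon.1 ((key a).1 h)
    have h3 : (b : L) ∉ E.nonunits := fun h => hcon.2 ((key b).1 h)
    exact a11_mul E h2 h3 h1
  · intro z
    constructor
    · intro hz
      obtain ⟨a, b, hb, h⟩ := (hE z).1 hz
      exact ⟨⟨a, hBS a⟩, ⟨b, hBS b⟩, fun hd => hb ((hn b).1 ((key ⟨b, hBS b⟩).2 hd)), h⟩
    · rintro ⟨a, b, hb, h⟩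
      obtain ⟨hb0, hb1⟩ := a11_unit E (fun h => hb ((key b).1 h))
      have : z = (a : L) * (b : L)⁻¹ := by
        rw [← h, mul_assoc, mul_inv_cancel₀ hb0, mul_one]
      rw [this]
      exact E.mul_mem _ _ (hSE _ a.2) hb1

theorem a11_notR (bl : Blow R) (E : ValuationSubring L)
    (hx : IsUnifV E (bl.x : L)) (hB : ∀ b : bl.B, (b : L) ∈ E) (g : R) (hg : Prime g)
    (hgn : ∀ r : R, (r : L) ∈ E.nonunits ↔ g ∣ r) : False := by
  have hxn : (bl.x : L) ∈ E.nonunits := (hx.2 _).2 ⟨1, E.one_mem, by rw [mul_one]⟩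
  have hyn : (bl.y : L) ∈ E.nonunits := by
    rw [← bl.ht, mul_comm]
    exact a11_nu_mul E (hB bl.t) hxn
  obtain ⟨x', hx'⟩ := (hgn bl.x).1 hxn
  obtain ⟨y', hy'⟩ := (hgn bl.y).1 hyn
  have hg0 : bl.res g = 0 := by
    by_contra hcon
    exact hg.not_isUnit ((bl.unit g).2 hcon)
  obtain ⟨a, b, hab⟩ := (bl.hm g).1 hg0
  have h1 : a * x' + b * y' = 1 := by
    have h2 : g * (a * x' + b * y') = g * 1 := by
      rw [mul_one]
      calc g * (a * x' + b * y') = a * (g * x') + b * (g * y') := by ring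
        _ = a * bl.x + b * bl.y := by rw [← hx', ← hy']
        _ = g := hab.symm
    exact mul_left_cancel₀ hg.ne_zero h2
  have h3 : (bl.t : L) * (x' : L) = y' := by
    have h4 : (bl.x : L) ≠ 0 := hx.1
    have h5 : (bl.x : L) = (g : L) * (x' : L) := congrArg Subtype.val hx'
    have h6 : (bl.y : L) = (g : L) * (y' : L) := congrArg Subtype.val hy'
    have h7 : (bl.x : L) * ((bl.t : L) * (x' : L)) = (bl.x : L) * (y' : L) := by
      rw [← mul_assoc, bl.ht, h6, h5]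
      ring
    exact mul_left_cancel₀ h4 h7
  have h8 : bl.t * (⟨x', bl.RB x'⟩ : bl.B) = ⟨y', bl.RB y'⟩ := Subtype.ext h3
  have h9 := congrArg bl.θ h8
  rw [map_mul, bl.θt, bl.θR, bl.θR] at h9
  have h10 : bl.res x' = 0 := by
    have := congrArg (fun p => Polynomial.coeff p 1) h9
    simpa [Polynomial.coeff_X_mul, Polynomial.coeff_C] using this
  have h11 : bl.res y' = 0 := by
    have := congrArg (fun p => Polynomial.coeff p 0) h9
    simpa [Polynomial.coeff_C] using this.symm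
  have h12 := congrArg bl.res h1
  rw [map_add, map_mul, map_mul, h10, h11, mul_zero, mul_zero, add_zero, map_one] at h12
  exact zero_ne_one h12

theorem a11_clear (bl : Blow R) (b : bl.B) : ∃ (n : ℕ) (r : R), (b : L) * (bl.x : L) ^ n = r := by
  obtain ⟨P, hP⟩ := bl.gen b
  rw [hP]
  clear hP
  induction P using Polynomial.induction_on' with
  | add p q hp hq =>
    obtain ⟨n, r, hr⟩ := hp
    obtain ⟨m, s, hs⟩ := hq
    refine ⟨n + m, r * bl.x ^ m + s * bl.x ^ n, ?_⟩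
    rw [Polynomial.eval₂_add]
    push_cast
    rw [← hr, ← hs]
    ring
  | monomial n a =>
    refine ⟨n, a * bl.y ^ n, ?_⟩
    rw [Polynomial.eval₂_monomial]
    push_cast
    rw [← bl.ht]
    show (a : L) * (bl.t : L) ^ n * (bl.x : L) ^ n = _
    ring

theorem a11_onR (bl : Blow R) (π : bl.κ[X]) (hπ : bl.Pt π) (S : Subring L)
    (hS : bl.IsLoc π S) (hU : UniqueFactorizationMonoid R) (D : ValuationSubring L) (f : S)
    (hf : OnR S f D) (hSD : ∀ s : S, (s : L) ∈ D)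
    (hfn : ∀ s : S, (s : L) ∈ D.nonunits ↔ f ∣ s) (hx : (bl.x : L) ∉ D.nonunits) : On R D := by
  have hBS := a11_BS bl π hπ S hS
  have hRD : ∀ r : R, (r : L) ∈ D := fun r => hSD ⟨_, hBS ⟨r, bl.RB r⟩⟩
  have hunit : ∀ v : bl.B, ¬ π ∣ bl.θ v → (v : L) ∉ D.nonunits := fun v hv =>
    a11_not D (a11_ne bl π v hv) (hSD ⟨_, a11_inv bl π S hS v hv⟩)
  -- fractions
  have key : ∀ z ∈ D, ∃ a b : R, (b : L) ∉ D.nonunits ∧ z * b = a := by
    intro z hz
    obtain ⟨a, b, hb, h⟩ := (hf.2 z).1 hz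
    obtain ⟨ua, va, hva, hua⟩ := (hS a).1 a.2
    obtain ⟨ub, vb, hvb, hub⟩ := (hS b).1 b.2
    have hb' : (b : L) ∉ D.nonunits := fun h => hb ((hfn b).1 h)
    have h1 : (ub : L) ∉ D.nonunits := by
      rw [← hub]
      exact a11_mul D hb' (hunit vb hvb)
    obtain ⟨n, r, hr⟩ := a11_clear bl (ua * vb)
    obtain ⟨m, s, hs⟩ := a11_clear bl (ub * va)
    push_cast at hr hs
    refine ⟨r * bl.x ^ m, s * bl.x ^ n, ?_, ?_⟩
    · push_cast
      rw [← hs]
      exact a11_mul D (a11_mul D (a11_mul D h1 (hunit va hva)) (a11_pow D hx m)) (a11_pow D hx n)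
    · push_cast
      rw [← hs, ← hr, ← hub, ← hua, ← h]
      ring
  -- the prime ideal
  let p : Ideal R :=
    { carrier := {r : R | (r : L) ∈ D.nonunits}
      add_mem' := fun {a b} ha hb => D.nonunits.add_mem ha hb
      zero_mem' := D.nonunits.zero_mem
      smul_mem' := fun c x hx => a11_nu_mul D (hRD c) hx }
  have hpmem : ∀ r : R, r ∈ p ↔ (r : L) ∈ D.nonunits := fun r => Iff.rfl
  have hp : p.IsPrime := by
    refine ⟨fun h => ?_, fun {a b} hab => ?_⟩
    · have : (1 : R) ∈ p := by rw [h]; trivial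
      exact a11_one D ((hpmem 1).1 this)
    · by_contra hcon
      push Not at hcon
      exact a11_mul D hcon.1 hcon.2 ((hpmem _).1 hab)
  have hfmem : (f : L) ∈ D.nonunits := (hfn f).2 dvd_rfl
  have hp0 : p ≠ ⊥ := by
    intro h0
    obtain ⟨a, b, hb, hab⟩ := key f (hSD f)
    have ha : a ∈ p := by
      rw [hpmem, ← hab, mul_comm]
      exact a11_nu_mul D (hRD b) hfmem
    rw [h0, Ideal.mem_bot] at ha
    rw [ha] at hab
    have h1 : (f : L) ≠ 0 := fun h => hf.1.ne_zero (Subtype.ext h)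
    exact mul_ne_zero h1 (a11_unit D hb).1 (by rw [hab]; rfl)
  obtain ⟨g, hgp, hg⟩ := hp.exists_mem_prime_of_ne_bot hp0
  have hgn : (g : L) ∈ D.nonunits := hgp
  have hdn : ∀ r : R, g ∣ r → (r : L) ∈ D.nonunits := by
    rintro r ⟨c, rfl⟩
    show (g : L) * (c : L) ∈ D.nonunits
    rw [mul_comm]
    exact a11_nu_mul D (hRD c) hgn
  have hg0 : (g : L) ≠ 0 := fun h => hg.ne_zero (Subtype.ext h)
  have hnd : ∀ r : R, (r : L) ∈ D.nonunits → g ∣ r := by
    intro r hr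
    by_cases hr0 : r = 0
    · rw [hr0]; exact dvd_zero _
    have hr0' : (r : L) ≠ 0 := fun h => hr0 (Subtype.ext h)
    rcases D.mem_or_inv_mem ((r : L) * (g : L)⁻¹) with hz | hz
    · obtain ⟨a, b, hb, hab⟩ := key _ hz
      have h1 : r * b = g * a := by
        apply Subtype.ext
        show (r : L) * (b : L) = (g : L) * (a : L)
        rw [← hab]
        field_simp
      rcases hg.dvd_or_dvd (Dvd.intro a h1.symm) with h2 | h2
      · exact h2
      · exact absurd (hdn b h2) hb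
    · obtain ⟨a, b, hb, hab⟩ := key _ hz
      have h1 : g * b = a * r := by
        apply Subtype.ext
        show (g : L) * (b : L) = (a : L) * (r : L)
        rw [← hab]
        field_simp
      rcases hg.dvd_or_dvd (Dvd.intro b h1) with h2 | h2
      · exfalso
        obtain ⟨a', rfl⟩ := h2
        rw [mul_assoc] at h1
        have h3 := mul_left_cancel₀ hg.ne_zero h1
        apply hb
        rw [h3]
        show (a' : L) * (r : L) ∈ D.nonunits
        exact a11_nu_mul D (hRD a') hr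
      · exact h2
  refine ⟨g, hg, fun z => ⟨fun hz => ?_, ?_⟩⟩
  · obtain ⟨a, b, hb, hab⟩ := key z hz
    exact ⟨a, b, fun h => hb (hdn b h), hab⟩
  · rintro ⟨a, b, hb, hab⟩
    obtain ⟨hb0, hb1⟩ := a11_unit D (fun h => hb (hnd b h))
    have : z = (a : L) * (b : L)⁻¹ := by
      rw [← hab, mul_assoc, mul_inv_cancel₀ hb0, mul_one]
    rw [this]
    exact D.mul_mem _ _ (hRD a) hb1

end

/-- A11: the curves on the local rings of the blow-up. -/
theorem cl_facts (h1 : SpOnFacts) (h8 : SpE) (h9 : SpLoc) : SpCl := by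
  intro k L _ _ _ R hR bl π hπ D
  obtain ⟨hU, -, -, hRf, -⟩ := h1 k L R hR
  obtain ⟨⟨E, hE⟩, hEf, -⟩ := h8 k L R hR bl
  obtain ⟨hS, hS2⟩ := h9 k L R hR bl π hπ
  obtain ⟨-, -, -, hSf, hSa⟩ := h1 k L (bl.loc π) hS2
  constructor
  · rintro ⟨f, hf⟩
    obtain ⟨-, -, hSD, hfn⟩ := hSf f D hf
    by_cases hx : (bl.x : L) ∈ D.nonunits
    · left
      obtain ⟨-, hEx, hEB, hEn⟩ := hEf E hE
      obtain ⟨xS, hxS, hxE⟩ := a11_onE bl π hπ _ hS E hE hEx hEB hEn
      have h2 : f ∣ xS := (hfn xS).1 (by rw [hxS]; exact hx)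
      have h3 : D = E := (hSa f xS D E hf hxE).2 (hf.1.associated_of_dvd hxE.1 h2)
      rw [h3]
      exact hE
    · right
      exact a11_onR bl π hπ _ hS hU D f hf hSD hfn hx
  · intro hD
    obtain ⟨-, hEx, hEB, hEn⟩ := hEf D hD
    obtain ⟨xS, hxS, hxE⟩ := a11_onE bl π hπ _ hS D hD hEx hEB hEn
    refine ⟨⟨xS, hxE⟩, ?_⟩
    rintro ⟨g, hg⟩
    obtain ⟨-, -, -, hgn⟩ := hRf g D hg
    exact a11_notR bl D hEx hEB g hg.1 hgn

end Pool.Agent.H19.UT
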