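import Pool.Agent.H19.UT.SpC

/-!
Project UT, row D02: comparison of the coordinates `τ` and `τ / c` (helper71).
-/

set_option autoImplicit false
set_option maxHeartbeats 400000

open Polynomial Pool.Agent.K1

namespace Pool.Agent.H19.UT

section d02

variable {K L : Type} [Field K] [Field L] [Algebra K L]

/-- Division of the coordinate by a unit does not change the Gauss valuation. -/
theorem d02_gauss (h3 : SpGauss) {τ : L} (hτ : Coord K L τ) {s : ValuationSubring K}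
    (hs : IsDiscV s) {c : K} (hc0 : c ≠ 0) (hc : c ∈ s) (hc' : c⁻¹ ∈ s)
    {E : ValuationSubring L} (hE : IsGauss s τ E) : IsGauss s (τ / algebraMap K L c) E := by
  have h := ((h3 K L τ hτ s hs).2.2 E hE).2.2.2.2.2.1 0 c s.zero_mem hc0 hc hc'
  rwa [map_zero, sub_zero] at h

/-- Two values with the same Gauss valuation differ by torsion. -/
theorem d02_eq (h3 : SpGauss) {τ τ' : L} (hτ : Coord K L τ) {s : ValuationSubring K}
    (hs : IsDiscV s) (d : Dat L) {g g' : Kˣ} (hg : IsG d τ s g) (hg' : IsG d τ' s g')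
    {E : ValuationSubring L} (hE : IsGauss s τ E) (hE' : IsGauss s τ' E) :
    TorsV s (g * g'⁻¹) := by
  have h1 := hg.2 E hE
  have h2 := hg'.2 E hE'
  have h4 : E.comap (algebraMap K L) = s := ((h3 K L τ hτ s hs).2.2 E hE).2.1
  have h5 : TorsV E (Units.map (algebraMap K L : K →* L) (g * g'⁻¹)) := by
    have h6 := torsV_mul h2 (torsV_inv h1)
    have h7 : d.val E * (Units.map (algebraMap K L : K →* L) g')⁻¹ *
        (d.val E * (Units.map (algebraMap K L : K →* L) g)⁻¹)⁻¹ =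
        Units.map (algebraMap K L : K →* L) (g * g'⁻¹) := by
      rw [map_mul, map_inv, mul_inv, inv_inv, mul_mul_mul_comm, mul_inv_cancel, one_mul,
        mul_comm]
    rwa [h7] at h6
  have h8 := (torsV_map (algebraMap K L) E (g * g'⁻¹)).1 h5
  rwa [h4] at h8

/-- The data are trivial on the horizontal divisors for the coordinate `τ / c`. -/
theorem d02_hdat {τ : L} {d : Dat L} (hd : HDat (K := K) τ d) {c : K} (hc : c ≠ 0) :
    HDat (K := K) (τ / algebraMap K L c) d := by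
  intro D hD hK hτ
  refine hd D hD hK ?_
  have h1 : τ = τ / algebraMap K L c * algebraMap K L c := by
    rw [div_mul_cancel₀]
    exact (_root_.map_ne_zero _).2 hc
  rw [h1]
  exact D.mul_mem _ _ hτ (hK c)

theorem d02_od {k : Type} [Field k] [Algebra k K] (h2 : SpOD) {R : Subring K} (hR : Reg2 k R)
    {f : R} {s : ValuationSubring K} (hf : OnR R f s) {u v : Kˣ} (hu : UnitIn s u)
    (hv : UnitIn s v) (h : TorsV s (u * v⁻¹)) : oD R s u = oD R s v := by
  have h3 := (h2 k K R hR f s hf).2.2.2.1 (u * v⁻¹) v (torsV_unitIn h) hv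
  rw [(h2 k K R hR f s hf).2.2.2.2 _ h, zero_add] at h3
  rw [← h3]
  congr 1
  group

end d02

theorem sp_cmp (h1 : SpOnFacts) (h2 : SpOD) (h3 : SpGauss) (hco : SpCoord) (h4 : SpGf)
    (hr : SpRB) : SpCmp := by
  classical
  intro p k K L _ _ _ _ _ _ _ hB hF τ hτ d hd s hs hT c hc hc0 g g' hg hg'
  by_contra hnt
  have hug : UnitIn s g := hg.1
  have hug' : UnitIn s g' := hg'.1
  obtain ⟨R, f, hR, hf, ho⟩ := hr p k K hB hF s hs hT (g * g'⁻¹)
    (tord_unitIn_mul hug (tord_unitIn_inv hug')) hnt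
  obtain ⟨hUFD, hNoeth, hex, hfac, hass⟩ := h1 k K R hR
  obtain ⟨-, hunif, hRs, hdv⟩ := hfac f s hf
  have hf0 : (f : K) ≠ 0 := hunif.1
  have hofs : ordV s (f : K) = 1 := (isUnifV_iff hs hf0).1 hunif
  have hτ' : Coord K L (τ / algebraMap K L (f : K)) := by
    have h := (hco K L τ hτ).1 0 (f : K) hf0
    rwa [map_zero, sub_zero] at h
  have hd' : HDat (K := K) (τ / algebraMap K L (f : K)) d := d02_hdat hd hf0
  obtain ⟨⟨g1, hg1⟩, hcyc1⟩ := h4 p k K L hB τ hτ d hd
  obtain ⟨⟨g2, hg2⟩, hcyc2⟩ := h4 p k K L hB _ hτ' d hd'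
  have hc1 := hcyc1 g1 hg1
  have hc2 := hcyc2 g2 hg2
  -- the other curves
  have hother : ∀ s1 : ValuationSubring K, On R s1 → s1 ≠ s →
      oD R s1 (g1 s1) = oD R s1 (g2 s1) := by
    rintro s1 ⟨f1, hf1⟩ hne
    obtain ⟨hs1, -, hRs1, hdv1⟩ := hfac f1 s1 hf1
    have hfs1 : (f : K) ∈ s1 := hRs1 f
    have hfn : (f : K) ∉ s1.nonunits := by
      intro h
      have h5 : f1 ∣ f := (hdv1 f).1 h
      have h6 : Associated f1 f := hf1.1.associated_of_dvd hf.1 h5
      exact hne ((hass f1 f s1 s hf1 hf).2 h6)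
    have hfi : (f : K)⁻¹ ∈ s1 := by
      by_contra h
      exact hfn (tord_nonunits_iff.2 (Or.inr ⟨hfs1, h⟩))
    obtain ⟨E, hE⟩ := (h3 K L τ hτ s1 hs1).1
    have hE' := d02_gauss h3 hτ hs1 hf0 hfs1 hfi hE
    exact d02_od h2 hR hf1 (hc1.unit s1 hs1) (hc2.unit s1 hs1)
      (d02_eq h3 hτ hs1 d (hg1 s1 hs1) (hg2 s1 hs1) hE hE')
  -- the curve `s`
  have hs_1 : oD R s (g1 s) = oD R s g := by
    obtain ⟨E, hE⟩ := (h3 K L τ hτ s hs).1
    exact d02_od h2 hR hf (hc1.unit s hs) hug (d02_eq h3 hτ hs d (hg1 s hs) hg hE hE)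
  have hs_2 : oD R s (g2 s) = oD R s g' := by
    obtain ⟨E, hE⟩ := (h3 K L _ hτ' s hs).1
    have hq0 : c / (f : K) ≠ 0 := div_ne_zero hc0 hf0
    have hq : ordV s (c / (f : K)) = 0 := by
      rw [div_eq_mul_inv, ordV_mul hs hc0 (inv_ne_zero hf0), ordV_inv hs hf0, hc, hofs]
      norm_num
    have hqs : c / (f : K) ∈ s := (mem_iff_ordV hs hq0).2 (by rw [hq])
    have hqi : (c / (f : K))⁻¹ ∈ s :=
      (mem_iff_ordV hs (inv_ne_zero hq0)).2 (by rw [ordV_inv hs hq0, hq]; simp)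
    have hE' := d02_gauss h3 hτ' hs hq0 hqs hqi hE
    have hEq : τ / algebraMap K L (f : K) / algebraMap K L (c / (f : K)) =
        τ / algebraMap K L c := by
      have hcL : algebraMap K L c ≠ 0 := (_root_.map_ne_zero _).2 hc0
      have hfL : algebraMap K L (f : K) ≠ 0 := (_root_.map_ne_zero _).2 hf0
      rw [map_div₀]
      field_simp
    rw [hEq] at hE'
    exact d02_od h2 hR hf (hc2.unit s hs) hug' (d02_eq h3 hτ' hs d (hg2 s hs) hg' hE hE')
  -- the sums
  have hfin : ∀ g : ValuationSubring K → Kˣ, CycK k g →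
      (Function.support fun s1 : ValuationSubring K =>
        ∑ᶠ (_ : On R s1), oD R s1 (g s1)).Finite := by
    intro g hg
    refine (hg.fin R hR).subset ?_
    intro s1 hs1
    rw [Function.mem_support] at hs1
    by_cases hon : On R s1
    · refine ⟨hon, fun ht => hs1 ?_⟩
      obtain ⟨f1, hf1⟩ := hon
      rw [finsum_eq_if, if_pos ⟨f1, hf1⟩]
      exact (h2 k K R hR f1 s1 hf1).2.2.2.2 _ ht
    · exfalso
      apply hs1
      rw [finsum_eq_if, if_neg hon]
  have hsum : ∑ᶠ s1 : ValuationSubring K, ((∑ᶠ (_ : On R s1), oD R s1 (g1 s1)) -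
      ∑ᶠ (_ : On R s1), oD R s1 (g2 s1)) = 0 := by
    rw [finsum_sub_distrib (hfin g1 hc1) (hfin g2 hc2), hc1.sum R hR, hc2.sum R hR, sub_zero]
  rw [finsum_eq_single _ s] at hsum
  · rw [finsum_eq_if, finsum_eq_if, if_pos ⟨f, hf⟩, if_pos ⟨f, hf⟩, hs_1, hs_2] at hsum
    apply ho
    have h5 := (h2 k K R hR f s hf).2.2.2.1 (g * g'⁻¹) g'
      (tord_unitIn_mul hug (tord_unitIn_inv hug')) hug'
    have h6 : g * g'⁻¹ * g' = g := by group
    rw [h6] at h5
    linarith
  · intro s1 hne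
    by_cases hon : On R s1
    · rw [finsum_eq_if, finsum_eq_if, if_pos hon, if_pos hon, hother s1 hon hne, sub_self]
    · rw [finsum_eq_if, finsum_eq_if, if_neg hon, if_neg hon, sub_self]

end Pool.Agent.H19.UT
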