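import Pool.Agent.H19.UT.SpA

/-!
Project UT, row A16: the colength drops under blowing up.
-/

set_option autoImplicit false
set_option maxHeartbeats 400000

open Polynomial Pool.Agent.K1

namespace Pool.Agent.H19.UT

section A16

variable {L : Type} [Field L] {R : Subring L}

theorem a16_res_x (bl : Blow R) : bl.res bl.x = 0 :=
  (bl.hm bl.x).2 ⟨1, 0, by ring⟩

/-- The ideal of the elements of order at least `r`. -/
def a16_J (bl : Blow R) (r : ℕ) : Ideal R where
  carrier := {g : R | ∃ f' : bl.B, (g : L) = (bl.x : L) ^ r * f'}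
  add_mem' := by
    rintro g h ⟨g', hg⟩ ⟨h', hh⟩
    refine ⟨g' + h', ?_⟩
    push_cast
    rw [hg, hh]
    ring
  zero_mem' := ⟨0, by simp⟩
  smul_mem' := by
    rintro c g ⟨g', hg⟩
    refine ⟨bl.inc c * g', ?_⟩
    have h1 : ((bl.inc c : bl.B) : L) = (c : L) := rfl
    rw [smul_eq_mul]
    push_cast
    rw [h1, hg]
    ring

theorem a16_mem_J (bl : Blow R) (r : ℕ) (g : R) :
    g ∈ a16_J bl r ↔ ∃ f' : bl.B, (g : L) = (bl.x : L) ^ r * f' := Iff.rfl

theorem a16_J_ne_top (bl : Blow R) {r : ℕ} (hr : 1 ≤ r) : a16_J bl r ≠ ⊤ := by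
  intro h
  have h1 : (1 : R) ∈ a16_J bl r := by rw [h]; exact Submodule.mem_top
  obtain ⟨f', hf'⟩ := (a16_mem_J bl r 1).1 h1
  have h2 : (1 : bl.B) = bl.inc bl.x ^ r * f' := by
    apply Subtype.ext
    push_cast
    have h3 : ((bl.inc bl.x : bl.B) : L) = (bl.x : L) := rfl
    rw [h3, ← hf']
    norm_num
  have h4 : bl.θ (bl.inc bl.x) = 0 := by
    have h5 : bl.θ (bl.inc bl.x) = C (bl.res bl.x) := bl.θR bl.x
    rw [h5, a16_res_x, C_0]
  have h6 : bl.θ 1 = bl.θ (bl.inc bl.x) ^ r * bl.θ f' := by
    rw [← map_pow, ← map_mul, ← h2]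
  rw [h4, map_one, zero_pow (by omega), zero_mul] at h6
  exact one_ne_zero h6

theorem a16_core (bl : Blow R) (hloc : IsLocalRing R) (a b : R) (r : ℕ) (a' b' : bl.B)
    (hr : 1 ≤ r) (hlen : len a b ≠ ⊤) (ha : (a : L) = (bl.x : L) ^ r * a')
    (hb : (b : L) = (bl.x : L) ^ r * b') (w : R) (w' : bl.B)
    (hw : (w : L) = (bl.x : L) ^ r * w') (hw' : w' ∈ Ideal.span {a', b'})
    (hgood : bl.Good w r) :
    (∃ N : ℕ, (bl.inc bl.x) ^ N ∈ Ideal.span {a', b'}) ∧ bl.lenB a' b' < len a b := by
  have hx0 : (bl.x : L) ≠ 0 := bl.x0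
  have hxr : (bl.x : L) ^ r ≠ 0 := pow_ne_zero _ hx0
  have hinc : ∀ c : R, ((bl.inc c : bl.B) : L) = (c : L) := fun _ => rfl
  constructor
  · have hxm : bl.x ∈ IsLocalRing.maximalIdeal R := by
      rw [IsLocalRing.mem_maximalIdeal]
      intro hu
      exact (bl.unit bl.x).1 hu (a16_res_x bl)
    obtain ⟨n, hn⟩ := exists_pow_mem (Ideal.span {a, b}) hlen hxm
    refine ⟨n, ?_⟩
    rw [Ideal.mem_span_pair] at hn ⊢
    obtain ⟨u, v, huv⟩ := hn
    refine ⟨bl.inc bl.x ^ r * bl.inc u, bl.inc bl.x ^ r * bl.inc v, ?_⟩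
    apply Subtype.ext
    push_cast
    rw [hinc, hinc, hinc]
    have h1 : (u : L) * a + v * b = (bl.x : L) ^ n := by
      have := congrArg (fun z : R => (z : L)) huv
      simpa using this
    rw [← h1, ha, hb]
    ring
  letI alg := bl.inc.toAlgebra
  change Module.length R (bl.B ⧸ Ideal.span {a', b'}) < _
  have hsm : ∀ (c : R) (z : bl.B), c • z = bl.inc c * z := fun c z => Algebra.smul_def c z
  set J : Ideal R := a16_J bl r with hJ
  set I : Ideal R := Ideal.span {a, b} with hI
  set K : Ideal bl.B := Ideal.span {a', b'} with hK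
  have hmemJ : ∀ g : J, ((g : R) : L) / (bl.x : L) ^ r ∈ bl.B := by
    rintro ⟨g, f', hf'⟩
    change (g : L) / _ ∈ _
    rw [hf', mul_div_cancel_left₀ _ hxr]
    exact f'.2
  let φ0 : J →ₗ[R] bl.B :=
    { toFun := fun g => ⟨((g : R) : L) / (bl.x : L) ^ r, hmemJ g⟩
      map_add' := by
        intro g h
        apply Subtype.ext
        push_cast
        rw [add_div]
      map_smul' := by
        intro c g
        rw [hsm, RingHom.id_apply]
        apply Subtype.ext
        push_cast
        rw [hinc]
        simp only [smul_eq_mul, Subring.coe_mul]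
        rw [mul_div_assoc] }
  have hφ0 : ∀ g : J, ((φ0 g : bl.B) : L) = ((g : R) : L) / (bl.x : L) ^ r := fun _ => rfl
  let φ : J →ₗ[R] (bl.B ⧸ K) := (Ideal.Quotient.mkₐ R K).toLinearMap ∘ₗ φ0
  have hφ : ∀ g : J, φ g = Ideal.Quotient.mk K (φ0 g) := fun _ => rfl
  have hIJ : I ≤ J := by
    rw [hI, Ideal.span_le]
    rintro z (rfl | rfl)
    · exact ⟨a', ha⟩
    · exact ⟨b', hb⟩
  let ψ : J →ₗ[R] (R ⧸ I) := (Submodule.mkQ I) ∘ₗ J.subtype
  have hker : LinearMap.ker ψ ≤ LinearMap.ker φ := by
    intro g hg
    rw [LinearMap.mem_ker] at hg ⊢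
    have h1 : (g : R) ∈ I := by
      have h2 : Submodule.mkQ I (g : R) = 0 := hg
      rwa [Submodule.mkQ_apply, Submodule.Quotient.mk_eq_zero] at h2
    rw [hφ, Ideal.Quotient.eq_zero_iff_mem]
    rw [hI, Ideal.mem_span_pair] at h1
    obtain ⟨u, v, huv⟩ := h1
    rw [hK, Ideal.mem_span_pair]
    refine ⟨bl.inc u, bl.inc v, ?_⟩
    apply Subtype.ext
    rw [hφ0]
    push_cast
    rw [hinc, hinc, eq_div_iff hxr]
    have h3 : (u : L) * a + v * b = ((g : R) : L) := by
      have := congrArg (fun z : R => (z : L)) huv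
      simpa using this
    rw [← h3, ha, hb]
    ring
  -- surjectivity
  have hsurj : Function.Surjective φ := by
    have hrange : ∀ z : bl.B, Ideal.Quotient.mk K z ∈ LinearMap.range φ := by
      have hpow : ∀ n : ℕ, Ideal.Quotient.mk K (bl.t ^ n) ∈ LinearMap.range φ := by
        intro n
        induction n using Nat.strong_induction_on with
        | _ n ih =>
        by_cases hn : n < r
        · have hmem : bl.x ^ (r - n) * bl.y ^ n ∈ J := by
            refine ⟨bl.t ^ n, ?_⟩
            push_cast
            rw [← bl.ht, mul_pow, ← mul_assoc, ← pow_add]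
            congr 2
            omega
          refine ⟨⟨_, hmem⟩, ?_⟩
          rw [hφ]
          congr 1
          apply Subtype.ext
          rw [hφ0]
          push_cast
          rw [div_eq_iff hxr, ← bl.ht, mul_pow, ← mul_assoc, ← pow_add,
            show r - n + n = r by omega, mul_comm]
        · obtain ⟨c, hc, hcu⟩ := hgood
          obtain ⟨d, hd⟩ := hcu.exists_left_inv
          have hwt : w' = ∑ i ∈ Finset.range (r + 1), bl.inc (c i) * bl.t ^ i := by
            apply Subtype.ext
            have h1 : (bl.x : L) ^ r * (w' : L) =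
                (bl.x : L) ^ r * ((∑ i ∈ Finset.range (r + 1), bl.inc (c i) * bl.t ^ i : bl.B) : L) := by
              rw [← hw]
              have h2 := congrArg (fun z : R => (z : L)) hc
              rw [h2]
              push_cast
              rw [Finset.mul_sum]
              apply Finset.sum_congr rfl
              intro i hi
              rw [Finset.mem_range] at hi
              rw [hinc, ← bl.ht, mul_pow]
              have h3 : (bl.x : L) ^ r = (bl.x : L) ^ (r - i) * (bl.x : L) ^ i := by
                rw [← pow_add]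
                congr 1
                omega
              rw [h3]
              ring
            exact mul_left_cancel₀ hxr h1
          have htn : bl.t ^ n = bl.inc d * (bl.t ^ (n - r) * w') -
              ∑ i ∈ Finset.range r, (d * c i) • (bl.t ^ (n - r + i)) := by
            have h4 : bl.t ^ n = bl.t ^ (n - r) * bl.t ^ r := by
              rw [← pow_add]
              congr 1
              omega
            have h5 : bl.inc d * bl.inc (c r) = 1 := by
              rw [← map_mul, hd, map_one]
            have h6 : ∑ i ∈ Finset.range r, (d * c i) • (bl.t ^ (n - r + i)) =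
                bl.inc d * (bl.t ^ (n - r) * ∑ i ∈ Finset.range r, bl.inc (c i) * bl.t ^ i) := by
              rw [Finset.mul_sum, Finset.mul_sum]
              apply Finset.sum_congr rfl
              intro i _
              rw [hsm, map_mul, pow_add]
              ring
            rw [h6, hwt, Finset.sum_range_succ, h4]
            linear_combination (-(bl.t ^ (n - r) * bl.t ^ r)) * h5
          rw [htn, map_sub, map_sum]
          apply Submodule.sub_mem
          · have h7 : Ideal.Quotient.mk K (bl.inc d * (bl.t ^ (n - r) * w')) = 0 := by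
              rw [Ideal.Quotient.eq_zero_iff_mem]
              exact Ideal.mul_mem_left _ _ (Ideal.mul_mem_left _ _ hw')
            rw [h7]
            exact Submodule.zero_mem _
          · apply Submodule.sum_mem
            intro i hi
            rw [Finset.mem_range] at hi
            have h8 : Ideal.Quotient.mk K ((d * c i) • bl.t ^ (n - r + i)) =
                (d * c i) • Ideal.Quotient.mk K (bl.t ^ (n - r + i)) := rfl
            rw [h8]
            exact Submodule.smul_mem _ _ (ih _ (by omega))
      intro z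
      obtain ⟨P, hP⟩ := bl.gen z
      have hz : z = ∑ i ∈ P.support, (P.coeff i) • bl.t ^ i := by
        apply Subtype.ext
        rw [hP, eval₂_eq_sum, Polynomial.sum_def]
        push_cast
        apply Finset.sum_congr rfl
        intro i _
        rw [hsm]
        push_cast
        rw [hinc]
        rfl
      rw [hz, map_sum]
      apply Submodule.sum_mem
      intro i _
      have h8 : Ideal.Quotient.mk K ((P.coeff i) • bl.t ^ i) =
          (P.coeff i) • Ideal.Quotient.mk K (bl.t ^ i) := rfl
      rw [h8]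
      exact Submodule.smul_mem _ _ (hpow i)
    intro z
    obtain ⟨z, rfl⟩ := Ideal.Quotient.mk_surjective z
    exact hrange z
  -- lengths
  have hlenIJ : Module.length R (bl.B ⧸ K) ≤ Module.length R (LinearMap.range ψ) := by
    rw [← (LinearMap.quotKerEquivRange ψ).length_eq]
    apply Module.length_le_of_surjective ((LinearMap.ker ψ).liftQ φ hker)
    intro z
    obtain ⟨g, rfl⟩ := hsurj z
    exact ⟨Submodule.Quotient.mk g, rfl⟩
  refine lt_of_le_of_lt hlenIJ ?_
  have hfl : IsFiniteLength R (R ⧸ I) := Module.length_ne_top_iff.1 hlen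
  rw [isFiniteLength_iff_isNoetherian_isArtinian] at hfl
  haveI := hfl.1
  haveI := hfl.2
  apply Submodule.length_lt
  intro htop
  apply a16_J_ne_top bl hr
  rw [Ideal.eq_top_iff_one]
  have h1 : (Submodule.mkQ I) (1 : R) ∈ LinearMap.range ψ := by
    rw [htop]
    exact Submodule.mem_top
  obtain ⟨g, hg⟩ := h1
  have h2 : Submodule.mkQ I (g : R) = Submodule.mkQ I 1 := hg
  rw [Submodule.mkQ_apply, Submodule.mkQ_apply, Submodule.Quotient.eq] at h2
  have h3 := J.sub_mem g.2 (hIJ h2)
  rwa [sub_sub_cancel] at h3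

end A16

theorem colen (_ho : SpOrd) : SpColen := by
  intro k L _ _ _ R hR bl a b r a' b' hr hlen ha hb hgood
  have hloc : IsLocalRing R := hR.reg.toIsLocalRing
  rcases hgood with hg | hg
  · exact a16_core bl hloc a b r a' b' hr hlen ha hb a a' ha (Ideal.subset_span (by simp)) hg
  · exact a16_core bl hloc a b r a' b' hr hlen ha hb b b' hb (Ideal.subset_span (by simp)) hg

end Pool.Agent.H19.UT
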