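import Pool.Agent.H19.UT.SpF

/-!
Project UT, row F09: composition of valuations (helper55).
-/

set_option autoImplicit false
set_option maxHeartbeats 400000

open Polynomial Pool.Agent.K1

namespace Pool.Agent.H19.UT

/-- Extension of the residue homomorphism to the whole multiplicative group. -/
theorem F09_ext (Ω : Type) [Field Ω] (V : ValuationSubring Ω)
    (b : (IsLocalRing.ResidueField V)ˣ → ℚ) (hb : ∀ x y, b (x * y) = b x + b y) :
    ∃ h : Ωˣ → ℚ, (∀ x y, h (x * y) = h x + h y) ∧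
      ∀ (a : Ωˣ) (a' : Vˣ), (a : Ω) = ((a' : V) : Ω) →
        h a = b (Units.map (IsLocalRing.residue V : V →* IsLocalRing.ResidueField V) a') := by
  have hb1 : b 1 = 0 := by
    have := hb 1 1
    rw [mul_one] at this
    linarith
  let g : Additive Vˣ →+ ℚ :=
    { toFun := fun x => b (Units.map (IsLocalRing.residue V : V →* IsLocalRing.ResidueField V)
        x.toMul)
      map_zero' := by
        change b (Units.map (IsLocalRing.residue V : V →* IsLocalRing.ResidueField V) 1) = 0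
        rw [map_one, hb1]
      map_add' := by
        intro x y
        change b (Units.map (IsLocalRing.residue V : V →* IsLocalRing.ResidueField V)
          (x.toMul * y.toMul)) = _
        rw [map_mul, hb] }
  let f : Additive Vˣ →+ Additive Ωˣ :=
    MonoidHom.toAdditive (Units.map (V.subtype : V →* Ω))
  have hf : Function.Injective f := by
    have h1 : Function.Injective (Units.map (V.subtype : V →* Ω)) :=
      Units.map_injective (f := (V.subtype : V →* Ω)) Subtype.val_injective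
    intro x y hxy
    exact h1 hxy
  obtain ⟨h, hh⟩ := (Module.Baer.of_divisible ℚ).extension_property_addMonoidHom f hf g
  refine ⟨fun a => h (Additive.ofMul a), ?_, ?_⟩
  · intro x y
    exact map_add h (Additive.ofMul x) (Additive.ofMul y)
  · intro a a' haa
    have h2 : Additive.ofMul a = f (Additive.ofMul a') := by
      change a = Units.map (V.subtype : V →* Ω) a'
      ext
      exact haa
    have h3 := DFunLike.congr_fun hh (Additive.ofMul a')
    change h (f (Additive.ofMul a')) = g (Additive.ofMul a') at h3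
    change h (Additive.ofMul a) = _
    rw [h2, h3]
    rfl

theorem F09_unit (Ω : Type) [Field Ω] (V : ValuationSubring Ω) (v : Ωˣ → ℚ)
    (hv : ∀ a b, v (a * b) = v a + v b) (hV : ∀ a : Ωˣ, (a : Ω) ∈ V ↔ 0 ≤ v a)
    (a : Ωˣ) (ha : v a = 0) : ∃ a' : Vˣ, (a : Ω) = ((a' : V) : Ω) := by
  have hv1 : v 1 = 0 := by
    have := hv 1 1
    rw [mul_one] at this
    linarith
  have hi : v a⁻¹ = 0 := by
    have := hv a a⁻¹
    rw [mul_inv_cancel, hv1, ha] at this
    linarith
  have m1 : (a : Ω) ∈ V := (hV a).2 (by rw [ha])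
  have m2 : ((a⁻¹ : Ωˣ) : Ω) ∈ V := (hV a⁻¹).2 (by rw [hi])
  exact ⟨⟨⟨a, m1⟩, ⟨((a⁻¹ : Ωˣ) : Ω), m2⟩, by ext; simp, by ext; simp⟩, rfl⟩

theorem F09_small (Ω : Type) [Field Ω] (V : ValuationSubring Ω) (v : Ωˣ → ℚ)
    (hv : ∀ a b, v (a * b) = v a + v b) (hV : ∀ a : Ωˣ, (a : Ω) ∈ V ↔ 0 ≤ v a)
    (a : Ωˣ) (ha : 0 < v a) : ∃ m : (a : Ω) ∈ V, IsLocalRing.residue V ⟨a, m⟩ = 0 := by
  have hv1 : v 1 = 0 := by
    have := hv 1 1
    rw [mul_one] at this
    linarith
  have m1 : (a : Ω) ∈ V := (hV a).2 ha.le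
  refine ⟨m1, ?_⟩
  rw [IsLocalRing.residue_eq_zero_iff, IsLocalRing.mem_maximalIdeal, mem_nonunits_iff]
  intro hu
  obtain ⟨c, hc⟩ := hu
  have h1 : ((a⁻¹ : Ωˣ) : Ω) = (((c⁻¹ : Vˣ) : V) : Ω) := by
    have h2 : (a : Ω) * (((c⁻¹ : Vˣ) : V) : Ω) = 1 := by
      have h3 : (c : V) * ((c⁻¹ : Vˣ) : V) = 1 := c.mul_inv
      have h4 := congrArg (fun z : V => (z : Ω)) h3
      rw [hc] at h4
      simpa using h4
    rw [Units.val_inv_eq_inv_val]
    exact (eq_inv_of_mul_eq_one_right h2).symm
  have h5 : ((a⁻¹ : Ωˣ) : Ω) ∈ V := by rw [h1]; exact (((c⁻¹ : Vˣ) : V)).2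
  have h6 := (hV a⁻¹).1 h5
  have h7 := hv a a⁻¹
  rw [mul_inv_cancel, hv1] at h7
  linarith

/-- F09: composition of valuations. -/
theorem comp_val : SpComp := by
  intro Ω _ V v hv hV b hb1 hb2
  obtain ⟨h, hh1, hh2⟩ := F09_ext Ω V b hb1
  have hv1 : v 1 = 0 := by
    have := hv 1 1
    rw [mul_one] at this
    linarith
  have hvi : ∀ a, v a⁻¹ = - v a := by
    intro a
    have := hv a a⁻¹
    rw [mul_inv_cancel, hv1] at this
    linarith
  have hh11 : h 1 = 0 := by
    have := hh1 1 1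
    rw [mul_one] at this
    linarith
  have hhi : ∀ a, h a⁻¹ = - h a := by
    intro a
    have := hh1 a a⁻¹
    rw [mul_inv_cancel, hh11] at this
    linarith
  have hb11 : b 1 = 0 := by
    have := hb1 1 1
    rw [mul_one] at this
    linarith
  -- the sum of `1` and an element of positive value
  have key1 : ∀ y z : Ωˣ, 0 < v y → (1 : Ω) + y = z → v z = 0 ∧ h z = 0 := by
    intro y z hy hyz
    obtain ⟨my, ry⟩ := F09_small Ω V v hv hV y hy
    have mz : (z : Ω) ∈ V := by rw [← hyz]; exact V.add_mem _ _ V.one_mem my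
    have hz0 : 0 ≤ v z := (hV z).1 mz
    have rz : IsLocalRing.residue V ⟨z, mz⟩ = 1 := by
      have : (⟨z, mz⟩ : V) = 1 + ⟨y, my⟩ := by ext; exact hyz.symm
      rw [this, map_add, map_one, ry, add_zero]
    have hz1 : v z = 0 := by
      rcases hz0.lt_or_eq with h1 | h1
      · obtain ⟨m, hm⟩ := F09_small Ω V v hv hV z h1
        rw [rz] at hm
        exact absurd hm one_ne_zero
      · exact h1.symm
    refine ⟨hz1, ?_⟩
    obtain ⟨z', hz'⟩ := F09_unit Ω V v hv hV z hz1
    rw [hh2 z z' hz']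
    have : Units.map (IsLocalRing.residue V : V →* IsLocalRing.ResidueField V) z' = 1 := by
      ext
      change IsLocalRing.residue V (z' : V) = 1
      rw [← rz]
      congr 1
      ext
      exact hz'.symm
    rw [this, hb11]
  -- the sum of `1` and a unit
  have key2 : ∀ y z : Ωˣ, v y = 0 → (1 : Ω) + y = z →
      0 < v z ∨ (v z = 0 ∧ (0 ≤ h z ∨ h y ≤ h z)) := by
    intro y z hy hyz
    obtain ⟨y', hy'⟩ := F09_unit Ω V v hv hV y hy
    have my : (y : Ω) ∈ V := (hV y).2 (by rw [hy])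
    have mz : (z : Ω) ∈ V := by rw [← hyz]; exact V.add_mem _ _ V.one_mem my
    have hz0 : 0 ≤ v z := (hV z).1 mz
    rcases hz0.lt_or_eq with h1 | h1
    · exact Or.inl h1
    · right
      refine ⟨h1.symm, ?_⟩
      obtain ⟨z', hz'⟩ := F09_unit Ω V v hv hV z h1.symm
      rw [hh2 z z' hz', hh2 y y' hy', ← hb11]
      refine hb2 _ _ _ ?_
      change (1 : IsLocalRing.ResidueField V) + IsLocalRing.residue V (y' : V) =
        IsLocalRing.residue V (z' : V)
      rw [← map_one (IsLocalRing.residue V), ← map_add]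
      congr 1
      ext
      change (1 : Ω) + ((y' : V) : Ω) = ((z' : V) : Ω)
      rw [← hy', ← hz', hyz]
  have key3 : ∀ x y z : Ωˣ, v x ≤ v y → (x : Ω) + y = z →
      (v x < v z ∨ (v x = v z ∧ h x ≤ h z)) ∨ (v y < v z ∨ (v y = v z ∧ h y ≤ h z)) := by
    intro x y z hxy hz
    have h1 : (1 : Ω) + ((y * x⁻¹ : Ωˣ) : Ω) = ((z * x⁻¹ : Ωˣ) : Ω) := by
      rw [Units.val_mul, Units.val_mul, ← hz, add_mul, Units.mul_inv]
    have h2 : v (y * x⁻¹) = v y - v x := by rw [hv, hvi]; ring
    have h3 : v (z * x⁻¹) = v z - v x := by rw [hv, hvi]; ring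
    have h4 : h (y * x⁻¹) = h y - h x := by rw [hh1, hhi]; ring
    have h5 : h (z * x⁻¹) = h z - h x := by rw [hh1, hhi]; ring
    rcases hxy.lt_or_eq with h6 | h6
    · obtain ⟨h7, h8⟩ := key1 _ _ (by rw [h2]; linarith) h1
      left; right
      constructor <;> linarith
    · rcases key2 _ _ (by rw [h2]; linarith) h1 with h7 | ⟨h7, h8 | h8⟩
      · left; left; linarith
      · left; right
        constructor <;> linarith
      · right; right
        constructor <;> linarith
  refine ⟨⟨v, h, hv, hh1, ?_⟩, rfl, fun a a' haa => hh2 a a' haa⟩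
  intro x y z hz
  rcases le_total (v x) (v y) with h1 | h1
  · exact key3 x y z h1 hz
  · exact (key3 y x z h1 (by rw [add_comm]; exact hz)).symm

end Pool.Agent.H19.UT
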