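import Pool.Agent.H19.UT.SpB

/-!
Project UT, row B05: the symbol at a Gauss valuation is constant.
-/

set_option autoImplicit false
set_option maxHeartbeats 400000

open Polynomial Pool.Agent.K1

namespace Pool.Agent.H19.UT

/-- polynomials with the same multiplicities are associated -/
theorem b05_assoc {κ : Type} [Field κ] {p q : κ[X]} (hp : p ≠ 0) (hq : q ≠ 0)
    (h : ∀ ρ : κ[X], ρ.Monic → Irreducible ρ → multiplicity ρ p = multiplicity ρ q) :
    Associated p q := by
  classical
  rw [UniqueFactorizationMonoid.associated_iff_normalizedFactors_eq_normalizedFactors hp hq]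
  have hc : ∀ (ρ r : κ[X]), Irreducible ρ → normalize ρ = ρ → r ≠ 0 →
      multiplicity ρ r = (UniqueFactorizationMonoid.normalizedFactors r).count ρ := by
    intro ρ r hρ hn hr
    have h1 := UniqueFactorizationMonoid.emultiplicity_eq_count_normalizedFactors hρ hr
    rw [hn] at h1
    exact multiplicity_eq_of_emultiplicity_eq_some h1
  ext ρ
  by_cases hρ : Irreducible ρ ∧ normalize ρ = ρ
  · rw [← hc ρ p hρ.1 hρ.2 hp, ← hc ρ q hρ.1 hρ.2 hq]
    refine h ρ ?_ hρ.1
    have h2 := Polynomial.monic_normalize hρ.1.ne_zero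
    rw [hρ.2] at h2
    exact h2
  · have hz : ∀ r : κ[X], (UniqueFactorizationMonoid.normalizedFactors r).count ρ = 0 := by
      intro r
      rw [Multiset.count_eq_zero]
      intro hm
      exact hρ ⟨UniqueFactorizationMonoid.irreducible_of_normalized_factor ρ hm,
        UniqueFactorizationMonoid.normalize_normalized_factor ρ hm⟩
    rw [hz p, hz q]

theorem b05_finsum {α : Type} {p : α → Prop} (E : α) (hE : p E) (f : α → ℤ)
    (h : ∀ D, p D → D ≠ E → f D = 0) : ∑ᶠ (D : α) (_ : p D), f D = f E := by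
  classical
  rw [finsum_eq_single _ E]
  · rw [finsum_eq_if, if_pos hE]
  · intro D hD
    rw [finsum_eq_if]
    by_cases hp : p D
    · rw [if_pos hp, h D hp hD]
    · rw [if_neg hp]

/-- B05: the symbol at a Gauss valuation is constant. -/
theorem sp_const (hc : SpCycle) (_h1 : SpOnFacts) (h2 : SpOD) (h3 : SpGauss) (h4 : SpRingP)
    (h5 : SpRingPD) : SpConst := by
  intro k K L _ _ _ _ _ _ _ _ τ hτ d hd s hs hk
  obtain ⟨⟨E, hE⟩, huniq, hall⟩ := h3 K L τ hτ s hs
  obtain ⟨hED, hEc, -, hEmem, hEnon, -, -⟩ := hall E hE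
  have hu : UnitIn E (d.val E) := unitIn_sm hED _
  set u : Lˣ := d.val E with hudef
  obtain ⟨P, Q, hQ, hPQ⟩ := (hEmem (u : L)).1 hu.1
  have hQE : evR s.toSubring τ Q ∈ E := (hEmem _).2 ⟨Q, 1, by
    rw [map_one]; exact one_ne_zero, by rw [map_one, mul_one]⟩
  have hP : redP s P ≠ 0 := by
    intro h
    have h6 := (hEnon P).2 h
    rw [← hPQ] at h6
    have h7 : evR s.toSubring τ Q ∈ E.nonunits := by
      have h8 := nonunits_mul hu.2 h6
      rw [Units.val_inv_eq_inv_val, inv_mul_cancel_left₀ (Units.ne_zero u)] at h8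
      exact h8
    exact hQ ((hEnon Q).1 h7)
  have hmul : ∀ ρ : (IsLocalRing.ResidueField s)[X], ρ.Monic → Irreducible ρ →
      multiplicity ρ (redP s P) = multiplicity ρ (redP s Q) := by
    intro ρ hρm hρi
    obtain ⟨-, hreg⟩ := h4 k K L τ hτ s hs hk ρ hρm hρi
    obtain ⟨hcur, hg⟩ := h5 k K L τ hτ s hs hk ρ hρm hρi
    obtain ⟨hon, hval⟩ := hg E hE
    have hcy := hc k L d (ringP s τ ρ) hreg
    rw [b05_finsum (p := fun D => On (ringP s τ ρ) D) E hon
      (fun D => oD (ringP s τ ρ) D (d.val D))] at hcy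
    · have h9 : oD (ringP s τ ρ) E u = _ := hval u P Q hP hQ hPQ
      rw [← hudef, h9] at hcy
      omega
    · intro D hD hne
      rcases hcur D hD with h | h
      · exact absurd (huniq D E h hE) hne
      · obtain ⟨f, hf⟩ := hD
        exact (h2 k L (ringP s τ ρ) hreg f D hf).2.2.2.2 _ (hd D h.1 h.2.1 h.2.2)
  obtain ⟨v, hv⟩ := b05_assoc hQ hP (fun ρ h6 h7 => (hmul ρ h6 h7).symm)
  obtain ⟨c, hcu, hcv⟩ := Polynomial.isUnit_iff.1 v.isUnit
  obtain ⟨b, hb⟩ := IsLocalRing.residue_surjective (R := s) c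
  have hbu : IsUnit b := by
    by_contra hnb
    have h6 : IsLocalRing.residue s b = 0 := by
      rw [IsLocalRing.residue_eq_zero_iff, IsLocalRing.mem_maximalIdeal]
      exact hnb
    rw [hb] at h6
    rw [h6] at hcu
    exact not_isUnit_zero hcu
  obtain ⟨b', hb'⟩ := hbu
  let g : Kˣ := Units.map (s.subtype : s →* K) b'
  have hg1 : (g : K) = (b : K) := by
    rw [← hb']
    rfl
  have hgU : UnitIn s g := by
    constructor
    · rw [hg1]; exact b.2
    · have h6 : ((g⁻¹ : Kˣ) : K) = (((b'⁻¹ : sˣ) : s) : K) := rfl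
      rw [h6]
      exact ((b'⁻¹ : sˣ) : s).2
  refine ⟨g, hgU, fun E' hE' => ?_⟩
  obtain rfl := huniq E E' hE hE'
  rw [← hudef]
  refine ⟨1, one_pos, ?_⟩
  -- the numerator
  let bb : s.toSubring := b
  have hredC : redP s (C bb) = C c := by
    unfold redP
    rw [coe_mapRingHom, map_C]
    exact congrArg C hb
  have hnum : redP s (P - C bb * Q) = 0 := by
    rw [map_sub, map_mul, hredC, sub_eq_zero, ← hv, ← hcv]
    ring
  have hev : evR s.toSubring τ (C bb) = algebraMap K L (g : K) := by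
    unfold evR
    rw [coe_eval₂RingHom, eval₂_C, hg1]
    rfl
  have h10 := (hEnon (P - C bb * Q)).2 hnum
  rw [map_sub, map_mul, hev, ← hPQ] at h10
  have hQ0 : evR s.toSubring τ Q ≠ 0 := by
    intro h
    apply hQ
    rw [← hEnon Q, h]
    exact E.nonunits.zero_mem
  have hQi : (evR s.toSubring τ Q)⁻¹ ∈ E := by
    by_contra hni
    exact hQ ((hEnon Q).1 (by
      rw [tord_nonunits_iff]
      exact Or.inr ⟨hQE, hni⟩))
  have hgE : (algebraMap K L (g : K))⁻¹ ∈ E := by
    rw [← map_inv₀, ← Units.val_inv_eq_inv_val]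
    have h11 : ((g⁻¹ : Kˣ) : K) ∈ E.comap (algebraMap K L) := by
      rw [hEc]; exact hgU.2
    rw [ValuationSubring.mem_comap] at h11
    exact h11
  have h12 := nonunits_mul (mul_mem hQi hgE) h10
  have hg0 : algebraMap K L (g : K) ≠ 0 := (_root_.map_ne_zero _).2 (Units.ne_zero g)
  have h13 : ((u * (Units.map (algebraMap K L : K →* L) g)⁻¹ : Lˣ) : L) ^ 1 - 1 =
      ((evR s.toSubring τ Q)⁻¹ * (algebraMap K L (g : K))⁻¹) *
        ((u : L) * evR s.toSubring τ Q - algebraMap K L (g : K) * evR s.toSubring τ Q) := by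
    rw [pow_one, Units.val_mul, Units.val_inv_eq_inv_val]
    have h14 : ((Units.map (algebraMap K L : K →* L) g : Lˣ) : L) = algebraMap K L (g : K) := rfl
    rw [h14]
    field_simp
  rw [h13]
  exact h12

end Pool.Agent.H19.UT
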