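import Pool.Agent.H19.UT.SpB

/-!
Project UT, row B03b: affine changes of the coordinate and inversion (helper49).
-/

set_option autoImplicit false
set_option maxHeartbeats 400000

open Polynomial Pool.Agent.K1

namespace Pool.Agent.H19.UT

theorem b03b_affine {K L : Type} [Field K] [Field L] [Algebra K L] {τ : L} (h : Coord K L τ)
    (a c : K) (hc : c ≠ 0) : Coord K L ((τ - algebraMap K L a) / algebraMap K L c) := by
  have hc' : algebraMap K L c ≠ 0 := by
    rw [Ne, map_eq_zero]
    exact hc
  have hτ : τ = algebraMap K L c * ((τ - algebraMap K L a) / algebraMap K L c) +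
      algebraMap K L a := by
    field_simp
    ring
  refine ⟨fun halg => h.1 ?_, fun f => ?_⟩
  · rw [hτ]
    exact ((isAlgebraic_algebraMap c).mul halg).add (isAlgebraic_algebraMap a)
  · obtain ⟨P, Q, hQ, hPQ⟩ := h.2 f
    have key : ∀ S : K[X], aeval ((τ - algebraMap K L a) / algebraMap K L c)
        (S.comp (C c * X + C a)) = aeval τ S := by
      intro S
      rw [aeval_comp]
      congr 2
      simp only [map_add, map_mul, aeval_C, aeval_X]
      exact hτ.symm
    refine ⟨P.comp (C c * X + C a), Q.comp (C c * X + C a), ?_, ?_⟩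
    · rw [key]
      exact hQ
    · rw [key, key]
      exact hPQ

theorem b03b_inv {K L : Type} [Field K] [Field L] [Algebra K L] {τ : L} (h : Coord K L τ) :
    Coord K L τ⁻¹ := by
  have hτ0 : τ ≠ 0 := by
    rintro rfl
    exact h.1 (isAlgebraic_zero)
  refine ⟨fun halg => h.1 ?_, fun f => ?_⟩
  · have := halg.inv
    rwa [inv_inv] at this
  · obtain ⟨P, Q, hQ, hPQ⟩ := h.2 f
    have key : ∀ (N : ℕ) (S : K[X]), S.natDegree ≤ N →
        aeval τ⁻¹ (reflect N S) * τ ^ N = aeval τ S := by
      intro N S hS
      let _ : Invertible τ := invertibleOfNonzero hτ0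
      have := eval₂_reflect_mul_pow (algebraMap K L) τ N S hS
      rw [invOf_eq_inv] at this
      exact this
    set N := max P.natDegree Q.natDegree with hN
    have hp : τ ^ N ≠ 0 := pow_ne_zero _ hτ0
    refine ⟨reflect N P, reflect N Q, ?_, ?_⟩
    · intro h0
      apply hQ
      rw [← key N Q (le_max_right _ _), h0, zero_mul]
    · apply mul_right_cancel₀ hp
      rw [mul_assoc, key N Q (le_max_right _ _), key N P (le_max_left _ _)]
      exact hPQ

theorem sp_coord : SpCoord := by
  intro K L _ _ _ τ h
  exact ⟨fun a c hc => b03b_affine h a c hc, b03b_inv h⟩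

end Pool.Agent.H19.UT
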