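import Pool.Agent.H19.UT.SpA

/-!
Project UT, row A19: the cycle condition.
-/

set_option autoImplicit false
set_option maxHeartbeats 400000

open Polynomial Pool.Agent.K1

namespace Pool.Agent.H19.UT

section a19

open Classical in
theorem A19_finsum {α : Type*} (P : α → Prop) (f : α → ℤ) (S : Finset α)
    (h : ∀ x, P x → f x ≠ 0 → x ∈ S) :
    ∑ᶠ (x : α) (_ : P x), f x = ∑ x ∈ S, if P x then f x else 0 := by
  have e : ∀ x, (∑ᶠ (_ : P x), f x) = if P x then f x else 0 := fun x => finsum_eq_if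
  simp only [e]
  refine finsum_eq_sum_of_support_subset _ ?_
  intro x hx
  rw [Function.mem_support] at hx
  by_cases hP : P x
  · rw [if_pos hP] at hx
    exact Finset.mem_coe.2 (h x hP hx)
  · rw [if_neg hP] at hx
    exact absurd rfl hx

theorem A19_off {L : Type} [Field L] {R : Subring L} {D : ValuationSubring L} (u : Lˣ)
    (h : ¬ On R D) : oD R D u = 0 := by
  unfold oD
  rw [dif_neg]
  rintro ⟨n, f, hf, -⟩
  exact h ⟨f, hf⟩

theorem A19_isE {L : Type} [Field L] {R : Subring L} {bl : Blow R} {E D : ValuationSubring L}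
    (hE : bl.IsE E) (hD : bl.IsE D) : D = E := by
  refine SetLike.ext fun z => ?_
  rw [hE z, hD z]

theorem A19_good0 {L : Type} [Field L] {R : Subring L} (bl : Blow R) {b : R} (h : IsUnit b) :
    bl.Good b 0 :=
  ⟨fun _ => b, by simp, h⟩

theorem A19_ord0 {L : Type} [Field L] {R : Subring L} (bl : Blow R) (b : R) : bl.OrdGe b 0 :=
  ⟨fun _ => b, by simp⟩

theorem A19_goodOrd {L : Type} [Field L] {R : Subring L} {bl : Blow R} {b : R} {r : ℕ}
    (h : bl.Good b r) : bl.OrdGe b r := by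
  obtain ⟨c, hc, -⟩ := h
  exact ⟨c, hc⟩

/-- the exceptional divisor: the value of the data has degree `0` -/
theorem A19_exc {k L : Type} [Field k] [Field L] [Algebra k L] {R : Subring L} (hR : Reg2 k R)
    (ho : SpOrd) (h8 : SpE) (bl : Blow R) (E : ValuationSubring L) (hE : bl.IsE E) (u : Lˣ)
    (hu : UnitIn E u) (a b : R) (ra rb : ℕ) (ha : bl.Good a ra) (hb : bl.Good b rb)
    (hab : (u : L) * b = a) :
    ∃ a' b' : bl.B, bl.θ a' ≠ 0 ∧ bl.θ b' ≠ 0 ∧ (u : L) * b' = a' ∧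
      (bl.θ a').natDegree = (bl.θ b').natDegree := by
  obtain ⟨-, o2, o3, -⟩ := ho k L R hR bl
  obtain ⟨a', ha'⟩ := (o2 a ra).1 (A19_goodOrd ha)
  obtain ⟨b', hb'⟩ := (o2 b rb).1 (A19_goodOrd hb)
  obtain ⟨ta, da⟩ := o3 a ra a' ha ha'
  obtain ⟨tb, db⟩ := o3 b rb b' hb hb'
  obtain ⟨-, e2, -⟩ := h8 k L R hR bl
  obtain ⟨-, hx, hBE, hnon⟩ := e2 E hE
  have hxE : (bl.x : L) ∈ E := hBE ⟨bl.x, bl.RB bl.x⟩
  have key : (u : L) * ((bl.x : L) ^ rb * b') = (bl.x : L) ^ ra * a' := by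
    rw [← ha', ← hb', hab]
  have hr : ra = rb := by
    rcases lt_trichotomy ra rb with h | h | h
    · exfalso
      obtain ⟨s, rfl⟩ : ∃ s, rb = ra + (s + 1) := ⟨rb - ra - 1, by omega⟩
      have e1 : (a' : L) = (bl.x : L) * ((bl.x : L) ^ s * ((u : L) * b')) := by
        have hx0 : (bl.x : L) ^ ra ≠ 0 := pow_ne_zero _ bl.x0
        apply mul_left_cancel₀ hx0
        rw [← key]
        ring
      have : (a' : L) ∈ E.nonunits :=
        (hx.2 _).2 ⟨_, E.mul_mem _ _ (pow_mem hxE s) (E.mul_mem _ _ hu.1 (hBE b')), e1⟩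
      exact ta ((hnon a').1 this)
    · exact h
    · exfalso
      obtain ⟨s, rfl⟩ : ∃ s, ra = rb + (s + 1) := ⟨ra - rb - 1, by omega⟩
      have e1 : (b' : L) = (bl.x : L) * ((bl.x : L) ^ s * (((u⁻¹ : Lˣ) : L) * a')) := by
        have hx0 : (bl.x : L) ^ rb ≠ 0 := pow_ne_zero _ bl.x0
        apply mul_left_cancel₀ hx0
        apply mul_left_cancel₀ u.ne_zero
        rw [key]
        have hu1 : (u : L) * ((u⁻¹ : Lˣ) : L) = 1 := by
          rw [← Units.val_mul, mul_inv_cancel, Units.val_one]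
        linear_combination (- (bl.x : L) ^ (rb + (s + 1)) * a') * hu1
      have : (b' : L) ∈ E.nonunits :=
        (hx.2 _).2 ⟨_, E.mul_mem _ _ (pow_mem hxE s) (E.mul_mem _ _ hu.2 (hBE a')), e1⟩
      exact tb ((hnon b').1 this)
  subst hr
  refine ⟨a', b', ta, tb, ?_, da.trans db.symm⟩
  have hx0 : (bl.x : L) ^ ra ≠ 0 := pow_ne_zero _ bl.x0
  apply mul_left_cancel₀ hx0
  rw [← key]
  ring

/-- the induction step -/
theorem A19_step {k L : Type} [Field k] [Infinite k] [Field L] [Algebra k L] (h0 : SpSm)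
    (h1 : SpOnFacts) (h2 : SpOD) (h3 : SpFin) (h5 : SpDl) (h7 : SpBlow)
    (ho : SpOrd) (h8 : SpE) (h9 : SpLoc) (h10 : SpCl) (h11 : SpOE) (h12 : SpSum) (h13 : SpDlLt)
    (h14 : SpDeg) (d : Dat L) (R : Subring L) (hR : Reg2 k R)
    (hne : ∃ i, ∃ a ∈ d.A i, dl R a ≠ 0)
    (ih : ∀ R' : Subring L, Reg2 k R' →
      (∑ i, ∑ a ∈ d.A i, dl R' a) < (∑ i, ∑ a ∈ d.A i, dl R a) →
      ∑ᶠ (D : ValuationSubring L) (_ : On R' D), oD R' D (d.val D) = 0) :
    ∑ᶠ (D : ValuationSubring L) (_ : On R D), oD R D (d.val D) = 0 := by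
  classical
  have hval : ∀ D : ValuationSubring L, IsDiscV D → UnitIn D (d.val D) := fun D hD =>
    (h0 L D hD).1 _
  have hS0 := h3 k L d R hR
  set S : Finset (ValuationSubring L) := hS0.toFinset with hS
  have memS : ∀ D, D ∈ S ↔ On R D ∧ ¬ d.Triv D := fun D => by
    rw [hS, Set.Finite.mem_toFinset, Set.mem_ofPred_eq]
  obtain ⟨-, -, -, onF, -⟩ := h1 k L R hR
  have triv0 : ∀ R' : Subring L, Reg2 k R' → ∀ D, On R' D → d.Triv D →
      oD R' D (d.val D) = 0 := by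
    rintro R' hR' D ⟨f, hf⟩ hT
    exact (h2 k L R' hR' f D hf).2.2.2.2 _ hT
  -- the prime generators
  have hSf : ∀ D ∈ S, ∃ f : R, OnR R f D := fun D hD => ((memS D).1 hD).1
  choose! fD hfD using hSf
  -- the exceptional divisor
  obtain ⟨bl0, -⟩ := h7 k L R hR ∅ (by simp)
  obtain ⟨⟨E, hE0⟩, e2, -⟩ := h8 k L R hR bl0
  have hEd : IsDiscV E := (e2 E hE0).1
  -- numerators and denominators
  obtain ⟨dl1, -, -, -⟩ := h5 k L R hR
  choose num den hrel hden hnd using dl1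
  set G : Finset L := (Finset.univ.biUnion fun i => d.A i) ∪ {((d.val E : Lˣ) : L)} with hG
  set F : Finset R := ((G.image num ∪ G.image den) ∪ S.image fD).filter (fun f => f ≠ 0) with hF
  obtain ⟨bl, hbl⟩ := h7 k L R hR F (fun f hf => (Finset.mem_filter.1 hf).2)
  have hE : bl.IsE E := (h8 k L R hR bl0).2.2 bl E hE0
  have den0 : ∀ u, den u ≠ 0 := fun u h => hden u (by rw [h]; rfl)
  have goodDen : ∀ u ∈ G, ∃ r, bl.Good (den u) r := fun u hu =>
    hbl _ (Finset.mem_filter.2 ⟨Finset.mem_union_left _ (Finset.mem_union_right _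
      (Finset.mem_image_of_mem _ hu)), den0 u⟩)
  have goodNum : ∀ u ∈ G, num u ≠ 0 → ∃ r, bl.Good (num u) r := fun u hu h =>
    hbl _ (Finset.mem_filter.2 ⟨Finset.mem_union_left _ (Finset.mem_union_left _
      (Finset.mem_image_of_mem _ hu)), h⟩)
  have goodS : ∀ D ∈ S, ∃ r, bl.Good (fD D) r := fun D hD =>
    hbl _ (Finset.mem_filter.2 ⟨Finset.mem_union_right _ (Finset.mem_image_of_mem _ hD),
      (hfD D hD).1.ne_zero⟩)
  obtain ⟨o1, -, -, -⟩ := ho k L R hR bl
  -- the exceptional divisor has degree zero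
  have hEG : ((d.val E : Lˣ) : L) ∈ G := by
    rw [hG]
    exact Finset.mem_union_right _ (Finset.mem_singleton_self _)
  obtain ⟨rb, hrb⟩ := goodDen _ hEG
  obtain ⟨ra, hra⟩ := goodNum _ hEG (by
    intro h
    have h' := hnd ((d.val E : Lˣ) : L)
    rw [h, ZeroMemClass.coe_zero] at h'
    rcases mul_eq_zero.1 h' with h'' | h''
    · exact (d.val E).ne_zero h''
    · exact hden _ h'')
  obtain ⟨a', b', ta, tb, hab', hdeg⟩ := A19_exc hR ho h8 bl E hE (d.val E) (hval E hEd) _ _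
    ra rb hra hrb (hnd _)
  -- the numbers drop
  have drop : ∀ π, bl.Pt π →
      (∑ i, ∑ a ∈ d.A i, dl (bl.loc π) a) < (∑ i, ∑ a ∈ d.A i, dl R a) := by
    intro π hπ
    have one : ∀ i, ∀ a ∈ d.A i, dl (bl.loc π) a ≤ dl R a ∧
        (dl R a ≠ 0 → dl (bl.loc π) a < dl R a) := by
      intro i a ha
      have haG : a ∈ G := by
        rw [hG]
        exact Finset.mem_union_left _ (Finset.mem_biUnion.2 ⟨i, Finset.mem_univ _, ha⟩)
      have hex : ∃ r, bl.OrdGe (num a) r ∧ bl.OrdGe (den a) r ∧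
          (bl.Good (num a) r ∨ bl.Good (den a) r) := by
        by_cases hn : num a = 0
        · have hu : IsUnit (den a) := hrel a (by rw [hn]; exact dvd_zero _) dvd_rfl
          exact ⟨0, A19_ord0 _ _, A19_ord0 _ _, Or.inr (A19_good0 _ hu)⟩
        · obtain ⟨r1, hr1⟩ := goodNum a haG hn
          obtain ⟨r2, hr2⟩ := goodDen a haG
          rcases le_total r1 r2 with h | h
          · exact ⟨r1, A19_goodOrd hr1, o1 _ _ _ h (A19_goodOrd hr2), Or.inl hr1⟩
          · exact ⟨r2, o1 _ _ _ h (A19_goodOrd hr1), A19_goodOrd hr2, Or.inr hr2⟩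
      obtain ⟨r, g1, g2, g3⟩ := hex
      exact h13 k L R hR bl a (num a) (den a) r (hrel a) (hden a) (hnd a) g1 g2 g3 π hπ
    obtain ⟨i0, a0, ha0, hd0⟩ := hne
    refine Finset.sum_lt_sum (fun i _ => Finset.sum_le_sum fun a ha => (one i a ha).1)
      ⟨i0, Finset.mem_univ _, ?_⟩
    exact Finset.sum_lt_sum (fun a ha => (one i0 a ha).1) ⟨a0, ha0, (one i0 a0 ha0).2 hd0⟩
  -- the local sums
  have hES : E ∉ S := by
    intro h
    have hOn := ((memS E).1 h).1
    -- take any point of the chart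
    have hX : bl.Pt (X : bl.κ[X]) := ⟨monic_X, irreducible_X⟩
    exact ((h10 k L R hR bl X hX E).2 hE).2 hOn
  have loc0 : ∀ π, bl.Pt π → ∑ D ∈ S, oD (bl.loc π) D (d.val D) =
      - ((multiplicity π (bl.θ a') : ℤ) - (multiplicity π (bl.θ b') : ℤ)) := by
    intro π hπ
    have hL := (h9 k L R hR bl π hπ).2
    have hz := ih (bl.loc π) hL (drop π hπ)
    rw [A19_finsum (fun D => On (bl.loc π) D) (fun D => oD (bl.loc π) D (d.val D)) (insert E S)
      ?_] at hz
    · have hz' : ∑ D ∈ insert E S, oD (bl.loc π) D (d.val D) = 0 := by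
        rw [← hz]
        refine Finset.sum_congr rfl fun D _ => ?_
        by_cases hD : On (bl.loc π) D
        · rw [if_pos hD]
        · rw [if_neg hD, A19_off _ hD]
      rw [Finset.sum_insert hES, h11 k L R hR bl π hπ E hE a' b' (d.val E) ta tb hab'] at hz'
      linarith
    · intro D hD hne0
      rcases (h10 k L R hR bl π hπ D).1 hD with h | h
      · rw [A19_isE hE h]
        exact Finset.mem_insert_self _ _
      · refine Finset.mem_insert_of_mem ((memS D).2 ⟨h, fun hT => hne0 ?_⟩)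
        exact triv0 _ hL D hD hT
  -- the sum over the curves of R
  rw [A19_finsum (fun D => On R D) (fun D => oD R D (d.val D)) S ?_]
  swap
  · intro D hD hne0
    exact (memS D).2 ⟨hD, fun hT => hne0 (triv0 R hR D hD hT)⟩
  have hfinD : ∀ D ∈ S, {π : bl.κ[X] | bl.Pt π ∧ On (bl.loc π) D}.Finite ∧
      oD R D (d.val D) = ∑ᶠ (π : bl.κ[X]) (_ : bl.Pt π),
        (π.natDegree : ℤ) * oD (bl.loc π) D (d.val D) := by
    intro D hD
    obtain ⟨r, hr⟩ := goodS D hD
    exact h12 k L R hR bl (fD D) r hr D (hfD D hD) _ (hval D (onF _ _ (hfD D hD)).1)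
  obtain ⟨fa, da⟩ := h14 bl.κ (bl.θ a') ta
  obtain ⟨fb, db⟩ := h14 bl.κ (bl.θ b') tb
  set Q : Finset bl.κ[X] := (S.attach.biUnion fun D => (hfinD D.1 D.2).1.toFinset) ∪
    (fa.toFinset ∪ fb.toFinset) with hQ
  have s1 : ∀ D ∈ S, (if On R D then oD R D (d.val D) else 0) =
      ∑ π ∈ Q, if bl.Pt π then (π.natDegree : ℤ) * oD (bl.loc π) D (d.val D) else 0 := by
    intro D hD
    rw [if_pos ((memS D).1 hD).1, (hfinD D hD).2]
    refine A19_finsum (fun π => bl.Pt π)
      (fun π => (π.natDegree : ℤ) * oD (bl.loc π) D (d.val D)) Q ?_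
    intro π hπ hne0
    rw [hQ]
    refine Finset.mem_union_left _ (Finset.mem_biUnion.2 ⟨⟨D, hD⟩, Finset.mem_attach _ _, ?_⟩)
    rw [Set.Finite.mem_toFinset]
    refine ⟨hπ, ?_⟩
    by_contra hc
    apply hne0
    show (π.natDegree : ℤ) * oD (bl.loc π) D (d.val D) = 0
    rw [A19_off _ hc, mul_zero]
  rw [Finset.sum_congr rfl s1, Finset.sum_comm]
  have s2 : ∀ π ∈ Q, (∑ D ∈ S, if bl.Pt π then (π.natDegree : ℤ) * oD (bl.loc π) D (d.val D)
      else 0) = (if bl.Pt π then (π.natDegree : ℤ) * (multiplicity π (bl.θ b') : ℤ) else 0) -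
        (if bl.Pt π then (π.natDegree : ℤ) * (multiplicity π (bl.θ a') : ℤ) else 0) := by
    intro π _
    by_cases hπ : bl.Pt π
    · simp only [if_pos hπ]
      rw [← Finset.mul_sum, loc0 π hπ]
      ring
    · simp only [if_neg hπ, Finset.sum_const_zero, sub_zero]
  rw [Finset.sum_congr rfl s2, Finset.sum_sub_distrib]
  have ea : (∑ π ∈ Q, if bl.Pt π then (π.natDegree : ℤ) * (multiplicity π (bl.θ a') : ℤ)
      else 0) = ((bl.θ a').natDegree : ℤ) := by
    rw [da]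
    refine (A19_finsum (fun π : bl.κ[X] => π.Monic ∧ Irreducible π)
      (fun π => (π.natDegree : ℤ) * (multiplicity π (bl.θ a') : ℤ)) Q ?_).symm
    intro π hπ hne0
    rw [hQ]
    refine Finset.mem_union_right _ (Finset.mem_union_left _ ?_)
    rw [Set.Finite.mem_toFinset]
    refine ⟨hπ, fun hc => hne0 ?_⟩
    show (π.natDegree : ℤ) * (multiplicity π (bl.θ a') : ℤ) = 0
    rw [hc, Nat.cast_zero, mul_zero]
  have eb : (∑ π ∈ Q, if bl.Pt π then (π.natDegree : ℤ) * (multiplicity π (bl.θ b') : ℤ)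
      else 0) = ((bl.θ b').natDegree : ℤ) := by
    rw [db]
    refine (A19_finsum (fun π : bl.κ[X] => π.Monic ∧ Irreducible π)
      (fun π => (π.natDegree : ℤ) * (multiplicity π (bl.θ b') : ℤ)) Q ?_).symm
    intro π hπ hne0
    rw [hQ]
    refine Finset.mem_union_right _ (Finset.mem_union_right _ ?_)
    rw [Set.Finite.mem_toFinset]
    refine ⟨hπ, fun hc => hne0 ?_⟩
    show (π.natDegree : ℤ) * (multiplicity π (bl.θ b') : ℤ) = 0
    rw [hc, Nat.cast_zero, mul_zero]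
  rw [ea, eb, hdeg, sub_self]

theorem cycle_all (h0 : SpSm) (h1 : SpOnFacts) (h2 : SpOD) (h3 : SpFin) (h4 : SpBase)
    (h5 : SpDl) (h6 : SpChart) (h7 : SpBlow) (ho : SpOrd) (h8 : SpE) (h9 : SpLoc) (h10 : SpCl)
    (h11 : SpOE) (h12 : SpSum) (h13 : SpDlLt) (h14 : SpDeg) : SpCycle := by
  intro k L _ _ _ _ d R hR
  induction hM : (∑ i, ∑ a ∈ d.A i, dl R a) using Nat.strong_induction_on generalizing R with
  | _ M ih =>
    by_cases hz : ∀ i, ∀ a ∈ d.A i, dl R a = 0
    · obtain ⟨i, hi⟩ := h6 k L d R hR hz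
      exact h4 k L d R hR i hi
    · push Not at hz
      refine A19_step h0 h1 h2 h3 h5 h7 ho h8 h9 h10 h11 h12 h13 h14 d R hR hz ?_
      intro R' hR' hlt
      exact ih _ (by rw [← hM]; exact hlt) R' hR' rfl

end a19

end Pool.Agent.H19.UT
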