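import Pool.Agent.H19.UT.SpB

/-!
Project UT, row B07: the values of the data at the Gauss valuations form a cycle on `K`.
-/

set_option autoImplicit false
set_option maxHeartbeats 400000

open Polynomial Pool.Agent.K1

namespace Pool.Agent.H19.UT

theorem b07_unitIn_map {K L : Type} [Field K] [Field L] (φ : K →+* L)
    {s : ValuationSubring K} {E : ValuationSubring L} (h : E.comap φ = s) {g : Kˣ}
    (hg : UnitIn s g) : UnitIn E (Units.map (φ : K →* L) g) := by
  subst h
  refine ⟨?_, ?_⟩
  · exact hg.1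
  · rw [← map_inv]
    exact hg.2

theorem sp_cycK (hc : SpCycle) (hf : SpFin) (h1 : SpOnFacts) (h2 : SpOD) (h3 : SpGauss)
    (h6 : SpRingT) (h7 : SpRingTD) : SpCycK := by
  intro k K L _ _ _ _ _ _ _ _ τ hτ d hd g R hR hg
  classical
  have hT : Reg2 k (ringT R τ) := (h6 k K L τ hτ R hR).2
  obtain ⟨hTD1, hTD2⟩ := h7 k K L τ hτ R hR
  have hdisc : ∀ s : ValuationSubring K, On R s → IsDiscV s := by
    rintro s ⟨f, hs⟩
    exact ((h1 k K R hR).2.2.2.1 f s hs).1
  -- the Gauss valuation over `s`
  let e : ValuationSubring K → ValuationSubring L := fun s =>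
    if h : ∃ E : ValuationSubring L, IsGauss s τ E then h.choose else ⊤
  have he : ∀ s, On R s → IsGauss s τ (e s) := by
    intro s hs
    have h := (h3 K L τ hτ s (hdisc s hs)).1
    have h' : e s = h.choose := dif_pos h
    rw [h']
    exact h.choose_spec
  have heu : ∀ s, On R s → ∀ E, IsGauss s τ E → E = e s := by
    intro s hs E hE
    exact (h3 K L τ hτ s (hdisc s hs)).2.1 E (e s) hE (he s hs)
  have hcomap : ∀ s, On R s → (e s).comap (algebraMap K L) = s := by
    intro s hs
    exact ((h3 K L τ hτ s (hdisc s hs)).2.2 (e s) (he s hs)).2.1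
  have hinj : ∀ s, On R s → ∀ s', On R s' → e s = e s' → s = s' := by
    intro s hs s' hs' h
    rw [← hcomap s hs, ← hcomap s' hs', h]
  have hunit : ∀ s, On R s → UnitIn (e s) (Units.map (algebraMap K L : K →* L) (g s)) := by
    intro s hs
    exact b07_unitIn_map (algebraMap K L) (hcomap s hs) (hg s hs).1
  have hval : ∀ s, On R s →
      TorsV (e s) (d.val (e s) * (Units.map (algebraMap K L : K →* L) (g s))⁻¹) := by
    intro s hs
    exact (hg s hs).2 (e s) (he s hs)
  constructor
  · have hfin := hf k L d (ringT R τ) hT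
    refine Set.Finite.of_injOn (f := e) (t := {D | On (ringT R τ) D ∧ ¬ d.Triv D}) ?_ ?_ hfin
    · rintro s ⟨hs, hns⟩
      refine ⟨(hTD2 s (e s) hs (he s hs)).1, fun htriv => hns ?_⟩
      have h5 := torsV_map (algebraMap K L) (e s) (g s)
      rw [hcomap s hs] at h5
      rw [← h5]
      have h6' : TorsV (e s) (d.val (e s)) := htriv
      have h7' := torsV_mul (torsV_inv (hval s hs)) h6'
      have h8 : (d.val (e s) * (Units.map (algebraMap K L : K →* L) (g s))⁻¹)⁻¹ * d.val (e s) =
          Units.map (algebraMap K L : K →* L) (g s) := by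
        group
      rwa [h8] at h7'
    · intro s hs s' hs' h
      exact hinj s hs.1 s' hs'.1 h
  · have hcyc := hc k L d (ringT R τ) hT
    have hval2 : ∀ s, On R s → oD R s (g s) = oD (ringT R τ) (e s) (d.val (e s)) := by
      intro s hs
      obtain ⟨hon, hord⟩ := hTD2 s (e s) hs (he s hs)
      obtain ⟨f, hfE⟩ := hon
      obtain ⟨-, -, -, hmul, htors⟩ := h2 k L (ringT R τ) hT f (e s) hfE
      have h5 := hmul (d.val (e s) * (Units.map (algebraMap K L : K →* L) (g s))⁻¹)
        (Units.map (algebraMap K L : K →* L) (g s)) (torsV_unitIn (hval s hs)) (hunit s hs)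
      rw [inv_mul_cancel_right, htors _ (hval s hs), zero_add, hord (g s) (hg s hs).1] at h5
      exact h5.symm
    have hstep1 : ∑ᶠ (s : ValuationSubring K) (_ : On R s), oD R s (g s) =
        ∑ᶠ (D : ValuationSubring L) (_ : D ∈ e '' {s | On R s}),
          oD (ringT R τ) D (d.val D) := by
      refine finsum_mem_eq_of_bijOn (s := {s | On R s}) e ?_ ?_
      · exact Set.InjOn.bijOn_image (fun s hs s' hs' h => hinj s hs s' hs' h)
      · intro s hs
        exact hval2 s hs
    have hstep2 : ∑ᶠ (D : ValuationSubring L) (_ : D ∈ e '' {s | On R s}),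
          oD (ringT R τ) D (d.val D) =
        ∑ᶠ (D : ValuationSubring L) (_ : D ∈ {D | On (ringT R τ) D}),
          oD (ringT R τ) D (d.val D) := by
      refine finsum_mem_inter_support_eq _ _ _ ?_
      ext D
      constructor
      · rintro ⟨⟨s, hs, rfl⟩, hD⟩
        exact ⟨(hTD2 s (e s) hs (he s hs)).1, hD⟩
      · rintro ⟨hD, hsup⟩
        refine ⟨?_, hsup⟩
        rcases hTD1 D hD with ⟨s, hs, hE⟩ | hh
        · exact ⟨s, hs, (heu s hs D hE).symm⟩
        · exfalso
          obtain ⟨f, hfD⟩ := hD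
          obtain ⟨-, -, -, -, htors⟩ := h2 k L (ringT R τ) hT f D hfD
          exact hsup (htors _ (hd D hh.1 hh.2.1 hh.2.2))
    rw [hstep1, hstep2]
    exact hcyc

end Pool.Agent.H19.UT
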