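import Pool.Agent.H19.UT.SpA
import Mathlib

/-!
Project UT, row A14 (helper57): lengths of modules on the blow-up are sums of local lengths.
-/

set_option autoImplicit false
set_option maxHeartbeats 400000

open Polynomial Pool.Agent.K1 TensorProduct

namespace Pool.Agent.H19.UT

section general

variable {R B κ : Type} [CommRing R] [CommRing B] [Field κ] [Algebra R B]

/-- Monic irreducible polynomials. -/
def A14Pt (π : κ[X]) : Prop := π.Monic ∧ Irreducible π

/-- The maximal ideal of a point. -/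
noncomputable def A14P (θ : B →+* κ[X]) (π : κ[X]) : Ideal B := (Ideal.span {π}).comap θ

theorem a14_max {θ : B →+* κ[X]} (hθ : Function.Surjective θ) {π : κ[X]} (hπ : A14Pt π) :
    (A14P θ π).IsMaximal := by
  have : (Ideal.span {π}).IsMaximal := PrincipalIdealRing.isMaximal_of_irreducible hπ.2
  exact Ideal.comap_isMaximal_of_surjective θ hθ

theorem a14_mem {θ : B →+* κ[X]} {π : κ[X]} {b : B} : b ∈ A14P θ π ↔ π ∣ θ b := by
  rw [A14P, Ideal.mem_comap, Ideal.mem_span_singleton]

theorem a14_inj {θ : B →+* κ[X]} (hθ : Function.Surjective θ) {π π' : κ[X]} (hπ : A14Pt π)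
    (hπ' : A14Pt π') (h : A14P θ π = A14P θ π') : π = π' := by
  obtain ⟨b, hb⟩ := hθ π
  have h1 : b ∈ A14P θ π := a14_mem.2 (by rw [hb])
  rw [h, a14_mem, hb] at h1
  have h2 := (hπ'.2.associated_of_dvd hπ.2 h1)
  exact (eq_of_monic_of_associated hπ'.1 hπ.1 h2).symm

/-- Maximal ideals that contain `ker θ` are points. -/
theorem a14_pt {θ : B →+* κ[X]} (hθ : Function.Surjective θ) {m : Ideal B} (hm : m.IsMaximal)
    (hk : ∀ b, θ b = 0 → b ∈ m) : ∃ π, A14Pt π ∧ m = A14P θ π := by
  classical
  have hk' : RingHom.ker θ ≤ m := fun b hb => hk b hb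
  have h1 : (m.map θ).IsMaximal := Ideal.IsMaximal.map_of_surjective_of_ker_le hθ hk'
  have h2 : (m.map θ).comap θ = m := by
    rw [Ideal.comap_map_of_surjective θ hθ]
    exact sup_eq_left.2 hk'
  obtain ⟨g, hg⟩ := (IsPrincipalIdealRing.principal (m.map θ)).principal
  rw [Ideal.submodule_span_eq] at hg
  have hg0 : g ≠ 0 := by
    rintro rfl
    rw [hg] at h1
    have h3 : (⊥ : Ideal κ[X]).IsMaximal := by simpa using h1
    exact Polynomial.not_isField κ (Ring.isField_iff_maximal_bot.2 h3)
  have hgi : Irreducible g := by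
    rw [hg] at h1
    exact ((Ideal.span_singleton_prime hg0).1 h1.isPrime).irreducible
  refine ⟨normalize g, ⟨Polynomial.monic_normalize hg0, ?_⟩, ?_⟩
  · exact (normalize_associated g).symm.irreducible hgi
  · rw [A14P, ← h2, hg, Ideal.span_singleton_eq_span_singleton.2 (normalize_associated g)]

/-- The length of the residue field of a point. -/
theorem a14_res {res : R →+* κ} (hres : Function.Surjective res) {θ : B →+* κ[X]}
    (hθ : Function.Surjective θ) (hθR : ∀ r, θ (algebraMap R B r) = C (res r))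
    {π : κ[X]} (hπ : A14Pt π) :
    Module.length R (B ⧸ A14P θ π) = (π.natDegree : ℕ∞) := by
  let := res.toAlgebra
  let Q := κ[X] ⧸ Ideal.span {π}
  let ψ : B →+* Q := (Ideal.Quotient.mk (Ideal.span {π})).comp θ
  have hψ : Function.Surjective ψ := Ideal.Quotient.mk_surjective.comp hθ
  have hψk : ∀ b, b ∈ A14P θ π ↔ ψ b = 0 := fun b => by
    rw [A14P, Ideal.mem_comap]
    exact Ideal.Quotient.eq_zero_iff_mem.symm
  let Ψ : (B ⧸ A14P θ π) →ₗ[R] Q :=
    { toFun := Ideal.Quotient.lift (A14P θ π) ψ (fun b hb => (hψk b).1 hb)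
      map_add' := map_add _
      map_smul' := by
        intro r b
        obtain ⟨b, rfl⟩ := Ideal.Quotient.mk_surjective b
        have h1 : r • (Ideal.Quotient.mk (A14P θ π) b) =
            Ideal.Quotient.mk (A14P θ π) (algebraMap R B r * b) := by
          rw [← Algebra.smul_def]; rfl
        rw [h1, Ideal.Quotient.lift_mk, map_mul, RingHom.id_apply, Ideal.Quotient.lift_mk]
        have h2 : ψ (algebraMap R B r) = algebraMap R Q r := by
          change Ideal.Quotient.mk _ (θ (algebraMap R B r)) = _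
          rw [hθR]; rfl
        rw [h2, ← Algebra.smul_def] }
  have hbij : Function.Bijective Ψ := by
    constructor
    · intro a b hab
      obtain ⟨a, rfl⟩ := Ideal.Quotient.mk_surjective a
      obtain ⟨b, rfl⟩ := Ideal.Quotient.mk_surjective b
      have h3 : ψ a = ψ b := hab
      rw [Ideal.Quotient.eq, hψk, map_sub, h3, sub_self]
    · intro q
      obtain ⟨b, hb⟩ := hψ q
      exact ⟨Ideal.Quotient.mk _ b, hb⟩
  rw [(LinearEquiv.ofBijective Ψ hbij).length_eq,
    Module.length_eq_of_surjective (R := κ) (S := R) (M := Q) hres]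
  have : Module.Finite κ Q := hπ.1.finite_quotient
  rw [Module.length_eq_finrank, finrank_quotient_span_eq_natDegree]

/-- The local length of the residue field of a point. -/
theorem a14_loc {C : Type} [CommRing C] [Algebra B C] {m p : Ideal B} (hm : m.IsMaximal)
    (hp : p.IsMaximal) [hpp : p.IsPrime] [IsLocalization.AtPrime C p] :
    Module.length C (C ⊗[B] (B ⧸ m)) = if m = p then 1 else 0 := by
  rw [← (Algebra.TensorProduct.quotIdealMapEquivTensorQuot C m).toLinearEquiv.length_eq]
  split_ifs with h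
  · subst h
    have : IsLocalRing C := IsLocalization.AtPrime.isLocalRing C m
    rw [IsLocalization.AtPrime.map_eq_maximalIdeal m C]
    rw [Module.length_eq_one_iff, isSimpleModule_iff_quot_maximal]
    exact ⟨_, IsLocalRing.maximalIdeal.isMaximal C, ⟨LinearEquiv.refl _ _⟩⟩
  · have h1 : m.map (algebraMap B C) = ⊤ := by
      have h2 : ¬ m ≤ p := fun hle => h (hm.eq_of_le hp.ne_top hle)
      obtain ⟨s, hs, hs'⟩ := Set.not_subset.1 h2
      exact Ideal.eq_top_of_isUnit_mem _ (Ideal.mem_map_of_mem _ hs)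
        (IsLocalization.map_units C (⟨s, hs'⟩ : p.primeCompl))
    rw [Module.length_eq_zero_iff]
    exact Ideal.Quotient.subsingleton_iff.2 h1

/-- Lengths are additive under base change to a flat algebra. -/
theorem a14_add {C : Type} [CommRing C] [Algebra B C] [Module.Flat B C] {M : Type}
    [AddCommGroup M] [Module B M] (N : Submodule B M) :
    Module.length C (C ⊗[B] M) = Module.length C (C ⊗[B] N) +
      Module.length C (C ⊗[B] (M ⧸ N)) := by
  have hf : Function.Injective N.subtype := N.injective_subtype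
  have hg : Function.Surjective N.mkQ := N.mkQ_surjective
  have hfg : Function.Exact N.subtype N.mkQ := LinearMap.exact_subtype_mkQ N
  exact Module.length_eq_add_of_exact
    (TensorProduct.AlgebraTensorModule.lTensor C C N.subtype)
    (TensorProduct.AlgebraTensorModule.lTensor C C N.mkQ)
    (Module.Flat.lTensor_preserves_injective_linearMap _ hf)
    (LinearMap.lTensor_surjective C hg) (lTensor_exact C hfg hg)

theorem a14_main {res : R →+* κ} (hres : Function.Surjective res) {θ : B →+* κ[X]}
    (hθ : Function.Surjective θ) (hθR : ∀ r, θ (algebraMap R B r) = C (res r))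
    {x : B} (hx : ∀ b, θ b = 0 → ∃ c, b = x * c)
    (K : κ[X] → Type) [∀ π, CommRing (K π)] [∀ π, Algebra B (K π)]
    (hK : ∀ π, A14Pt π → ∀ [(A14P θ π).IsPrime], IsLocalization.AtPrime (K π) (A14P θ π))
    {M : Type} [AddCommGroup M] [Module B M] (hM : IsFiniteLength B M) :
    ∀ [Module R M] [IsScalarTower R B M] (N : ℕ), (∀ m : M, x ^ N • m = 0) →
    (∀ π, A14Pt π → Module.length (K π) (K π ⊗[B] M) ≠ ⊤) ∧
    {π : κ[X] | A14Pt π ∧ Module.length (K π) (K π ⊗[B] M) ≠ 0}.Finite ∧
    Module.length R M = ((∑ᶠ (π : κ[X]) (_ : A14Pt π),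
      π.natDegree * (Module.length (K π) (K π ⊗[B] M)).toNat : ℕ) : ℕ∞) := by
  classical
  induction hM with
  | @of_subsingleton M _ _ _ =>
    intro _ _ N hN
    refine ⟨fun π _ => by simp, ?_, ?_⟩
    · simp
    · simp [Module.length_eq_zero]
  | @of_simple_quotient M _ _ M' hs hM' ih =>
    intro _ _ N hN
    obtain ⟨m, hm, ⟨e⟩⟩ := isSimpleModule_iff_quot_maximal.mp hs
    have hxm : x ∈ m := by
      have h1 : x ^ N • (1 : B ⧸ m) = 0 := by
        obtain ⟨q, hq⟩ := e.surjective 1
        obtain ⟨y, rfl⟩ := M'.mkQ_surjective q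
        rw [← hq, ← map_smul, ← map_smul, hN y, map_zero, map_zero]
      have h2 : Ideal.Quotient.mk m (x ^ N) = 0 := by
        rw [← h1, Algebra.smul_def, mul_one]; rfl
      exact hm.isPrime.mem_of_pow_mem _ (Ideal.Quotient.eq_zero_iff_mem.1 h2)
    obtain ⟨π₀, hπ₀, hmπ⟩ := a14_pt hθ hm (fun b hb => by
      obtain ⟨c, rfl⟩ := hx b hb
      exact m.mul_mem_right c hxm)
    obtain ⟨i1, i2, i3⟩ := ih N (fun y => Subtype.ext (hN y))
    have hq : ∀ π, A14Pt π → Module.length (K π) (K π ⊗[B] (M ⧸ M')) =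
        if π = π₀ then 1 else 0 := by
      intro π hπ
      have hmax := a14_max hθ hπ
      have hpr := hmax.isPrime
      have := hK π hπ
      rw [((TensorProduct.AlgebraTensorModule.congr (LinearEquiv.refl (K π) (K π)) e)).length_eq,
        a14_loc hm hmax]
      congr 1
      rw [eq_iff_iff, hmπ]
      exact ⟨fun h => (a14_inj hθ hπ₀ hπ h).symm, fun h => by rw [h]⟩
    have hadd : ∀ π, A14Pt π → Module.length (K π) (K π ⊗[B] M) =
        Module.length (K π) (K π ⊗[B] M') + if π = π₀ then 1 else 0 := by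
      intro π hπ
      have hpr := (a14_max hθ hπ).isPrime
      have := hK π hπ
      have : Module.Flat B (K π) := IsLocalization.flat (K π) (A14P θ π).primeCompl
      rw [a14_add M', hq π hπ]
    have hR : Module.length R M = Module.length R M' + (π₀.natDegree : ℕ∞) := by
      have h1 := Module.length_eq_add_of_exact (R := R) (M'.subtype.restrictScalars R)
        (M'.mkQ.restrictScalars R) M'.injective_subtype M'.mkQ_surjective
        (LinearMap.exact_subtype_mkQ M')
      rw [h1]
      congr 1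
      rw [(e.restrictScalars R).length_eq, hmπ]
      exact a14_res hres hθ hθR hπ₀
    refine ⟨fun π hπ => ?_, ?_, ?_⟩
    · rw [hadd π hπ]
      refine WithTop.add_ne_top.2 ⟨i1 π hπ, ?_⟩
      split_ifs
      · exact ENat.one_ne_top
      · exact ENat.zero_ne_top
    · refine (i2.union (Set.finite_singleton π₀)).subset ?_
      rintro π ⟨hπ, h⟩
      by_cases h0 : π = π₀
      · exact Or.inr h0
      · refine Or.inl ⟨hπ, ?_⟩
        rw [hadd π hπ, if_neg h0, add_zero] at h
        exact h
    · have hterm : ∀ π : κ[X], (∑ᶠ (_ : A14Pt π),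
          π.natDegree * (Module.length (K π) (K π ⊗[B] M)).toNat) =
          (∑ᶠ (_ : A14Pt π), π.natDegree * (Module.length (K π) (K π ⊗[B] M')).toNat) +
            (if π = π₀ then π₀.natDegree else 0) := by
        intro π
        rw [finsum_eq_if, finsum_eq_if]
        by_cases hπ : A14Pt π
        · rw [if_pos hπ, if_pos hπ, hadd π hπ]
          by_cases h0 : π = π₀
          · rw [if_pos h0, if_pos h0, ENat.toNat_add (i1 π hπ) ENat.one_ne_top, mul_add, h0]
            simp
          · rw [if_neg h0, if_neg h0, add_zero, add_zero]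
        · have h0 : π ≠ π₀ := by
            rintro rfl
            exact hπ hπ₀
          rw [if_neg hπ, if_neg hπ, if_neg h0, add_zero]
      have hfin1 : (Function.support fun π : κ[X] => ∑ᶠ (_ : A14Pt π),
          π.natDegree * (Module.length (K π) (K π ⊗[B] M')).toNat).Finite := by
        refine i2.subset fun π hπ => ?_
        rw [Function.mem_support, finsum_eq_if] at hπ
        by_cases h : A14Pt π
        · refine ⟨h, fun h0 => hπ ?_⟩
          rw [if_pos h, h0]; simp
        · exact absurd (if_neg h) hπ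
      have hfin2 : (Function.support fun π : κ[X] =>
          (if π = π₀ then π₀.natDegree else 0)).Finite := by
        refine (Set.finite_singleton π₀).subset fun π hπ => ?_
        rw [Function.mem_support] at hπ
        by_contra h
        exact hπ (if_neg h)
      rw [hR, i3, finsum_congr hterm, finsum_add_distrib hfin1 hfin2, finsum_eq_single
        (fun π : κ[X] => (if π = π₀ then π₀.natDegree else 0)) π₀ (fun π h => if_neg h),
        if_pos rfl]
      push_cast
      rfl

end general

section blow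

variable {k L : Type} [Field k] [Field L] [Algebra k L] {R : Subring L}

theorem a14_surj (bl : Blow R) : Function.Surjective bl.θ := by
  intro f
  induction f using Polynomial.induction_on' with
  | add p q hp hq =>
    obtain ⟨a, ha⟩ := hp
    obtain ⟨b, hb⟩ := hq
    exact ⟨a + b, by rw [map_add, ha, hb]⟩
  | monomial n c =>
    obtain ⟨r, hr⟩ := bl.surj c
    refine ⟨⟨r, bl.RB r⟩ * bl.t ^ n, ?_⟩
    rw [map_mul, map_pow, bl.θR, bl.θt, hr, C_mul_X_pow_eq_monomial]

/-- **A14.** -/
theorem decomp (h9 : SpLoc) : SpDecomp := by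
  intro k L _ _ _ R hR bl p q hN hlen
  classical
  obtain ⟨N, hN⟩ := hN
  let := bl.inc.toAlgebra
  have hBK : ∀ π, bl.Pt π → ∀ b : bl.B, (b : L) ∈ bl.loc π := by
    intro π hπ b
    rw [(h9 k L R hR bl π hπ).1]
    refine ⟨b, 1, ?_, by simp⟩
    rw [map_one]
    exact fun h => hπ.2.not_isUnit (isUnit_of_dvd_one h)
  let K : bl.κ[X] → Subring L := fun π => bl.loc π ⊔ bl.B
  have hKeq : ∀ π, bl.Pt π → K π = bl.loc π := fun π hπ =>
    sup_eq_left.2 (fun b hb => hBK π hπ ⟨b, hb⟩)
  let : ∀ π, Algebra bl.B (K π) := fun π =>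
    (Subring.inclusion (le_sup_right : bl.B ≤ K π)).toAlgebra
  have hloc : ∀ π, A14Pt π → ∀ [(A14P bl.θ π).IsPrime],
      IsLocalization.AtPrime (K π) (A14P bl.θ π) := by
    intro π hπ hpr
    have hL := (h9 k L R hR bl π hπ).1
    have hmem : ∀ z : L, z ∈ K π ↔ ∃ a b : bl.B, ¬ π ∣ bl.θ b ∧ z * b = a := by
      intro z
      rw [hKeq π hπ]
      exact hL z
    have hne : ∀ b : bl.B, ¬ π ∣ bl.θ b → (b : L) ≠ 0 := by
      intro b hb h0
      apply hb
      have : b = 0 := Subtype.ext h0
      rw [this, map_zero]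
      exact dvd_zero _
    refine ⟨?_, ?_, ?_⟩
    · rintro ⟨b, hb⟩
      have hb' : ¬ π ∣ bl.θ b := fun h => hb (a14_mem.2 h)
      have hb0 := hne b hb'
      have hinv : (b : L)⁻¹ ∈ K π := (hmem _).2 ⟨1, b, hb', by
        rw [inv_mul_cancel₀ hb0]; rfl⟩
      refine isUnit_iff_exists_inv.2 ⟨⟨(b : L)⁻¹, hinv⟩, Subtype.ext ?_⟩
      exact mul_inv_cancel₀ hb0
    · rintro ⟨z, hz⟩
      obtain ⟨a, b, hb, hab⟩ := (hmem z).1 hz
      refine ⟨⟨a, ⟨b, fun h => hb (a14_mem.1 h)⟩⟩, Subtype.ext ?_⟩
      exact hab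
    · intro a b hab
      refine ⟨1, ?_⟩
      have h1 : ((algebraMap bl.B (K π) a : K π) : L) = (algebraMap bl.B (K π) b : K π) := by
        rw [hab]
      have h2 : (a : L) = b := h1
      rw [Subtype.ext h2]
  let M := bl.B ⧸ Ideal.span {p, q}
  have hlenS : ∀ π, A14Pt π → lenS (bl.loc π) (p : L) (q : L) =
      Module.length (K π) (K π ⊗[bl.B] M) := by
    intro π hπ
    rw [← hKeq π hπ, lenS, dif_pos ⟨le_sup_right (a := bl.loc π) p.2,
      le_sup_right (a := bl.loc π) q.2⟩, len,
      ← (Algebra.TensorProduct.quotIdealMapEquivTensorQuot (K π)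
        (Ideal.span {p, q})).toLinearEquiv.length_eq]
    rw [Ideal.map_span, Set.image_pair]
    rfl
  have hfl : IsFiniteLength bl.B M := by
    have h1 : IsFiniteLength R M := Module.length_ne_top_iff.1 hlen
    rw [isFiniteLength_iff_isNoetherian_isArtinian] at h1 ⊢
    exact h1.imp (isNoetherian_of_tower R) (isArtinian_of_tower R)
  have hkill : ∀ m : M, (bl.inc bl.x) ^ N • m = 0 := by
    intro m
    obtain ⟨b, rfl⟩ := Ideal.Quotient.mk_surjective m
    have : (bl.inc bl.x) ^ N • (Ideal.Quotient.mk (Ideal.span {p, q}) b) =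
      Ideal.Quotient.mk _ ((bl.inc bl.x) ^ N * b) := rfl
    rw [this, Ideal.Quotient.eq_zero_iff_mem]
    exact Ideal.mul_mem_right _ _ hN
  obtain ⟨i1, i2, i3⟩ := a14_main (R := R) bl.surj (a14_surj bl) (fun r => bl.θR r)
    (x := bl.inc bl.x) (fun b hb => by
      obtain ⟨c, hc⟩ := (bl.θker b).1 hb
      exact ⟨c, Subtype.ext hc⟩) (fun π => K π) (fun π hπ => hloc π hπ) hfl N hkill
  have hB : bl.lenB p q = Module.length R M := rfl
  have hmain : (bl.lenB p q).toNat = ∑ᶠ (π : bl.κ[X]) (_ : bl.Pt π),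
      π.natDegree * (lenS (bl.loc π) p q).toNat := by
    rw [hB, i3, ENat.toNat_natCast]
    refine finsum_congr fun π => finsum_congr fun hπ => ?_
    rw [hlenS π hπ]
  have hfin : {π : bl.κ[X] | bl.Pt π ∧ lenS (bl.loc π) p q ≠ 0}.Finite := by
    refine i2.subset ?_
    rintro π ⟨hπ, h⟩
    exact ⟨hπ, by rwa [← hlenS π hπ]⟩
  refine ⟨fun π hπ => ⟨by rw [hlenS π hπ]; exact i1 π hπ, ?_⟩, hfin, hmain⟩
  rw [hmain]
  have hs : (Function.support fun π : bl.κ[X] => ∑ᶠ (_ : bl.Pt π),
      π.natDegree * (lenS (bl.loc π) p q).toNat).Finite := by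
    refine hfin.subset fun π' h' => ?_
    rw [Function.mem_support, finsum_eq_if] at h'
    by_cases h : bl.Pt π'
    · refine ⟨h, fun h0 => h' ?_⟩
      rw [if_pos h, h0]; simp
    · exact absurd (if_neg h) h'
  have h1 := single_le_finsum (f := fun π : bl.κ[X] => ∑ᶠ (_ : bl.Pt π),
      π.natDegree * (lenS (bl.loc π) p q).toNat) π hs (fun _ => Nat.zero_le _)
  refine le_trans ?_ h1
  rw [finsum_eq_if, if_pos hπ]
  have hd : 1 ≤ π.natDegree := hπ.2.natDegree_pos
  exact Nat.le_mul_of_pos_left _ hd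

end blow

end Pool.Agent.H19.UT
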