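import Pool.Agent.H19.UT.SpA

/-!
Project UT, row A18: degree of a polynomial as a sum over monic irreducible polynomials (helper10).
-/

set_option autoImplicit false
set_option maxHeartbeats 400000

open Polynomial Pool.Agent.K1

namespace Pool.Agent.H19.UT

open Classical in
theorem a18_mult {κ : Type} [Field κ] {p : κ[X]} (hp : p ≠ 0) {π : κ[X]} (hm : π.Monic)
    (hi : Irreducible π) :
    multiplicity π p = (UniqueFactorizationMonoid.normalizedFactors p).count π := by
  rw [UniqueFactorizationMonoid.multiplicity_eq_count_normalizedFactors hi hp,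
    hm.normalize_eq_self]

open Classical in
theorem a18_fin {κ : Type} [Field κ] {p : κ[X]} (hp : p ≠ 0) :
    {π : κ[X] | (π.Monic ∧ Irreducible π) ∧ multiplicity π p ≠ 0}.Finite := by
  refine Set.Finite.subset
    (UniqueFactorizationMonoid.normalizedFactors p).toFinset.finite_toSet ?_
  rintro π ⟨⟨hm, hi⟩, h⟩
  rw [a18_mult hp hm hi] at h
  rw [Ne, Multiset.count_eq_zero, not_not] at h
  exact Finset.mem_coe.2 (Multiset.mem_toFinset.2 h)

open Classical in
theorem a18_deg {κ : Type} [Field κ] {p : κ[X]} (hp : p ≠ 0) :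
    (p.natDegree : ℤ) = ∑ᶠ (π : κ[X]) (_ : π.Monic ∧ Irreducible π),
      (π.natDegree : ℤ) * (multiplicity π p : ℤ) := by
  have h1 : p.natDegree =
      ((UniqueFactorizationMonoid.normalizedFactors p).map natDegree).sum := by
    rw [← natDegree_multiset_prod]
    · conv_lhs => rw [← leadingCoeff_mul_prod_normalizedFactors p]
      rw [natDegree_C_mul (leadingCoeff_ne_zero.2 hp)]
    · exact UniqueFactorizationMonoid.zero_notMem_normalizedFactors _
  have h2 : (p.natDegree : ℤ) =
      ((UniqueFactorizationMonoid.normalizedFactors p).map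
        (fun π => (natDegree π : ℤ))).sum := by
    rw [h1, Nat.cast_multiset_sum, Multiset.map_map]
    rfl
  rw [h2, Multiset.sum_map_eq_finsum]
  refine finsum_congr fun π => ?_
  by_cases hπ : π.Monic ∧ Irreducible π
  · rw [finsum_eq_if, if_pos hπ, a18_mult hp hπ.1 hπ.2, nsmul_eq_mul, mul_comm]
  · rw [finsum_eq_if, if_neg hπ, Multiset.count_eq_zero_of_notMem, zero_smul]
    intro hmem
    rw [Polynomial.mem_normalizedFactors_iff hp] at hmem
    exact hπ ⟨hmem.2.1, hmem.1⟩

/-- A18: the degree is the sum of the multiplicities. -/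
theorem deg_facts : SpDeg := fun _ _ _ hp => ⟨a18_fin hp, a18_deg hp⟩

end Pool.Agent.H19.UT
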