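import Pool.Agent.H19.UT.SpA

/-!
Project UT, row A05: fractions in lowest terms.
-/

set_option autoImplicit false
set_option maxHeartbeats 400000

open Polynomial Pool.Agent.K1

namespace Pool.Agent.H19.UT

theorem a05_maximal {R : Type*} [CommRing R] [IsDomain R] [IsLocalRing R] [IsNoetherianRing R]
    [UniqueFactorizationMonoid R] (hdim : ringKrullDim R = 2) {a b : R} (hab : IsRelPrime a b)
    (P : Ideal R) (hP : P.IsPrime) (ha : a ∈ P) (hb : b ∈ P) : P.IsMaximal := by
  have hne : P ≠ ⊥ := by
    rintro rfl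
    rw [Ideal.mem_bot] at ha hb
    subst ha
    subst hb
    exact not_isUnit_zero (hab (dvd_refl 0) (dvd_refl 0))
  obtain ⟨q, hqP, hq⟩ := Ideal.IsPrime.exists_mem_prime_of_ne_bot hP hne
  have hqp : (Ideal.span {q} : Ideal R).IsPrime := (Ideal.span_singleton_prime hq.ne_zero).2 hq
  have hle : Ideal.span {q} ≤ P := (Ideal.span_singleton_le_iff_mem _).2 hqP
  have hlt : Ideal.span {q} < P := by
    refine lt_of_le_of_ne hle ?_
    rintro rfl
    exact hq.not_isUnit (hab (Ideal.mem_span_singleton.1 ha) (Ideal.mem_span_singleton.1 hb))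
  have hPm : P ≤ IsLocalRing.maximalIdeal R := IsLocalRing.le_maximalIdeal hP.ne_top
  rcases hPm.lt_or_eq with h | h
  · exfalso
    have hb0 : (⊥ : Ideal R) < Ideal.span {q} := by
      rw [bot_lt_iff_ne_bot, Ne, Ideal.span_singleton_eq_bot]
      exact hq.ne_zero
    have h1 := Ideal.height_add_one_le_of_lt_of_isPrime hb0
    have h2 := Ideal.height_add_one_le_of_lt_of_isPrime hlt
    have h3 := Ideal.height_add_one_le_of_lt_of_isPrime h
    have h4 := IsLocalRing.maximalIdeal_height_eq_ringKrullDim (R := R)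
    rw [Ideal.height_bot, zero_add] at h1
    have h5 : ((IsLocalRing.maximalIdeal R).height : WithBot ℕ∞) = ((2 : ℕ∞) : WithBot ℕ∞) := by
      rw [h4, hdim]
      rfl
    have h6 : (IsLocalRing.maximalIdeal R).height = 2 := WithBot.coe_injective h5
    rw [h6] at h3
    have h7 : (1 : ℕ∞) + 1 + 1 ≤ 2 :=
      (add_le_add_left ((add_le_add_left h1 1).trans h2) 1).trans h3
    exact absurd h7 (by decide)
  · rw [h]
    exact IsLocalRing.maximalIdeal.isMaximal R

theorem a05_len_ne_top {R : Type*} [CommRing R] [IsDomain R] [IsLocalRing R] [IsNoetherianRing R]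
    [UniqueFactorizationMonoid R] (hdim : ringKrullDim R = 2) {a b : R} (hab : IsRelPrime a b) :
    len a b ≠ ⊤ := by
  unfold len
  rw [Module.length_ne_top_iff, isFiniteLength_iff_isNoetherian_isArtinian]
  suffices h : IsArtinianRing (R ⧸ Ideal.span {a, b}) from
    ⟨isNoetherian_quotient (Ideal.span {a, b}),
      isArtinian_of_surjective_algebraMap (Ideal.Quotient.mk_surjective (I := .span {a, b}))⟩
  rw [isArtinianRing_iff_krullDimLE_zero, Ring.krullDimLE_zero_iff]
  intro Q hQ
  have hc : (Q.comap (Ideal.Quotient.mk (Ideal.span {a, b}))).IsPrime := Ideal.comap_isPrime _ Q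
  have hmem : ∀ x ∈ Ideal.span {a, b}, x ∈ Q.comap (Ideal.Quotient.mk (Ideal.span {a, b})) := by
    intro x hx
    rw [Ideal.mem_comap, Ideal.Quotient.eq_zero_iff_mem.2 hx]
    exact Q.zero_mem
  have hmax := a05_maximal hdim hab _ hc (hmem a (Ideal.subset_span (by simp)))
    (hmem b (Ideal.subset_span (by simp)))
  exact Ideal.isMaximal_of_isIntegral_of_isMaximal_comap (R := R) Q hmax

theorem a05_isRelPrime_symm {R : Type*} [CommRing R] {a b : R} (h : IsRelPrime a b) :
    IsRelPrime b a := fun _ h1 h2 => h h2 h1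

/-- Fractions in lowest terms divide all fractions with the same value. -/
theorem a05_dvd {R : Type*} [CommRing R] [IsDomain R] [UniqueFactorizationMonoid R]
    {a b c d : R} (hab : IsRelPrime a b) (hb : b ≠ 0) (h : a * d = c * b) :
    ∃ e, c = e * a ∧ d = e * b := by
  have h1 : b ∣ d := by
    apply UniqueFactorizationMonoid.dvd_of_dvd_mul_right_of_no_prime_factors (b := a) (c := d) hb
    · intro q hqb hqa hq
      exact hq.not_isUnit (hab hqa hqb)
    · exact ⟨c, by rw [h, mul_comm]⟩
  obtain ⟨e, he⟩ := h1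
  refine ⟨e, ?_, by rw [he, mul_comm]⟩
  apply mul_right_cancel₀ hb
  rw [← h, he]
  ring

theorem a05_span_le {R : Type*} [CommRing R] (a b e : R) :
    Ideal.span {e * a, e * b} ≤ Ideal.span {a, b} := by
  rw [Ideal.span_le]
  rintro x (rfl | rfl)
  · exact Ideal.mul_mem_left _ _ (Ideal.subset_span (by simp))
  · exact Ideal.mul_mem_left _ _ (Ideal.subset_span (by simp))

theorem dl_facts (h1 : SpOnFacts) : SpDl := by
  intro k L _ _ _ R hR
  obtain ⟨hufd, hnoeth, -⟩ := h1 k L R hR
  have := hufd
  have := hnoeth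
  have := hR.reg
  have hne : ∀ b : R, (b : L) ≠ 0 ↔ b ≠ 0 := fun b => by
    rw [Ne, Ne, ZeroMemClass.coe_eq_zero]
  have key : ∀ (u : L) (a b : R), IsRelPrime a b → (b : L) ≠ 0 → u * b = a →
      ∀ (c d : R), (d : L) ≠ 0 → u * d = c → ∃ e, c = e * a ∧ d = e * b := by
    intro u a b hab hb hu c d hd hu'
    apply a05_dvd hab ((hne b).1 hb)
    apply Subtype.coe_injective
    change (a : L) * d = c * b
    rw [← hu, ← hu']
    ring
  have hlen : ∀ a b : R, IsRelPrime a b → len a b ≠ ⊤ := fun a b hab =>
    a05_len_ne_top hR.dim hab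
  have hdl : ∀ (u : L) (a b : R), IsRelPrime a b → (b : L) ≠ 0 → u * b = a →
      dl R u = (len a b).toNat := by
    intro u a b hab hb hu
    have hex : ∃ (n : ℕ) (a b : R), IsRelPrime a b ∧ (b : L) ≠ 0 ∧ u * b = a ∧
        n = (len a b).toNat := ⟨_, a, b, hab, hb, hu, rfl⟩
    unfold dl
    rw [dif_pos hex]
    obtain ⟨a', b', hab', hb', hu', hn⟩ := hex.choose_spec
    rw [hn]
    obtain ⟨e, he1, he2⟩ := key u a b hab hb hu a' b' hb' hu'
    obtain ⟨e', he1', he2'⟩ := key u a' b' hab' hb' hu' a b hb hu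
    congr 1
    apply le_antisymm
    · apply len_le_of_le
      rw [he1', he2']
      exact a05_span_le a' b' e'
    · apply len_le_of_le
      rw [he1, he2]
      exact a05_span_le a b e
  have hlow : ∀ u : L, ∃ a b : R, IsRelPrime a b ∧ (b : L) ≠ 0 ∧ u * b = a := by
    intro u
    obtain ⟨a, b, hb, hu⟩ := hR.frac u
    obtain ⟨a', b', c', hab, ha, hb'⟩ :=
      UniqueFactorizationMonoid.exists_reduced_factors' a b ((hne b).1 hb)
    have hc0 : (c' : L) ≠ 0 := by
      intro h0
      apply hb
      rw [← hb']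
      change (c' : L) * b' = 0
      rw [h0, zero_mul]
    have hb0 : (b' : L) ≠ 0 := by
      intro h0
      apply hb
      rw [← hb']
      change (c' : L) * b' = 0
      rw [h0, mul_zero]
    refine ⟨a', b', hab, hb0, ?_⟩
    apply mul_left_cancel₀ hc0
    rw [← ha, ← hb'] at hu
    change u * ((c' : L) * b') = (c' : L) * a' at hu
    rw [← hu]
    ring
  refine ⟨hlow, fun u a b hab hb hu => ⟨hlen a b hab, hdl u a b hab hb hu⟩, ?_, ?_⟩
  · intro u c d hd hu htop
    obtain ⟨a, b, hab, hb, hu'⟩ := hlow u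
    rw [hdl u a b hab hb hu']
    obtain ⟨e, he1, he2⟩ := key u a b hab hb hu' c d hd hu
    apply ENat.toNat_le_toNat _ htop
    apply len_le_of_le
    rw [he1, he2]
    exact a05_span_le a b e
  · intro u hu0
    obtain ⟨a, b, hab, hb, hu⟩ := hlow u
    rw [hdl u a b hab hb hu] at hu0
    have h0 : len a b = 0 := by
      rcases ENat.toNat_eq_zero.1 hu0 with h | h
      · exact h
      · exact absurd h (hlen a b hab)
    have htop : Ideal.span {a, b} = (⊤ : Ideal R) := by
      unfold len at h0
      rw [Module.length_eq_zero_iff] at h0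
      exact Ideal.Quotient.subsingleton_iff.1 h0
    have hunit : IsUnit a ∨ IsUnit b := by
      by_contra hcon
      push Not at hcon
      have hle : Ideal.span {a, b} ≤ IsLocalRing.maximalIdeal R := by
        rw [Ideal.span_le]
        rintro x (rfl | rfl)
        · exact (IsLocalRing.mem_maximalIdeal _).2 hcon.1
        · exact (IsLocalRing.mem_maximalIdeal _).2 hcon.2
      rw [htop] at hle
      exact (IsLocalRing.maximalIdeal.isMaximal R).ne_top (top_le_iff.1 hle)
    rcases hunit with h | h
    · right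
      obtain ⟨v, hv⟩ := h.exists_right_inv
      have hv' : (a : L) * v = 1 := congrArg Subtype.val hv
      have : u⁻¹ = ((b * v : R) : L) := by
        change u⁻¹ = (b : L) * v
        apply inv_eq_of_mul_eq_one_right
        rw [← mul_assoc, hu, hv']
      rw [this]
      exact (b * v).2
    · left
      obtain ⟨v, hv⟩ := h.exists_right_inv
      have hv' : (b : L) * v = 1 := congrArg Subtype.val hv
      have : u = ((a * v : R) : L) := by
        change u = (a : L) * v
        rw [← hu, mul_assoc, hv', mul_one]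
      rw [this]
      exact (a * v).2

end Pool.Agent.H19.UT
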