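import Pool.Agent.H19.UT.SpA

/-!
Project UT, A17: the numbers `dl` drop (helper2).
-/

set_option autoImplicit false
set_option maxHeartbeats 400000

open Polynomial Pool.Agent.K1

namespace Pool.Agent.H19.UT

theorem a17_memB {L : Type} [Field L] {R : Subring L} (bl : Blow R) {π : bl.κ[X]}
    (hp : bl.Pt π) {R' : Subring L} (hl : bl.IsLoc π R') (z : bl.B) : (z : L) ∈ R' := by
  rw [hl]
  refine ⟨z, 1, ?_, ?_⟩
  · rw [map_one]
    intro h
    exact hp.2.not_isUnit (isUnit_of_dvd_one h)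
  · simp

theorem a17_unit_len {O : Type} [CommRing O] {a b : O} (h : IsUnit a ∨ IsUnit b) :
    len a b = 0 := by
  rcases h with h | h
  · rw [len_symm]
    exact len_unit b h
  · exact len_unit a h

theorem dl_lt (h5 : SpDl) (ho : SpOrd) (h9 : SpLoc) (h14 : SpDecomp) (h16 : SpColen) :
    SpDlLt := by
  intro k L _ _ _ R hR bl u a b r hab hb hu ha1 hb1 hg π hπ
  obtain ⟨_, h5b, _, _⟩ := h5 k L R hR
  obtain ⟨hlen, hdl⟩ := h5b u a b hab hb hu
  obtain ⟨hloc, hreg⟩ := h9 k L R hR bl π hπ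
  obtain ⟨_, _, h5c, _⟩ := h5 k L (bl.loc π) hreg
  have hmemB : ∀ z : bl.B, (z : L) ∈ bl.loc π := fun z => a17_memB bl hπ hloc z
  rcases Nat.eq_zero_or_pos r with hr | hr
  · -- order zero: one of `a`, `b` is a unit
    subst hr
    have hun : ∀ f : R, bl.Good f 0 → IsUnit f := by
      rintro f ⟨c, hc, hu⟩
      rw [hc]
      simpa using hu
    have hcase : IsUnit a ∨ IsUnit b := by
      rcases hg with h | h
      · exact Or.inl (hun a h)
      · exact Or.inr (hun b h)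
    have h0 : dl R u = 0 := by
      rw [hdl, a17_unit_len hcase]
      rfl
    have hRm : ∀ z : R, (z : L) ∈ bl.loc π := fun z => hmemB ⟨z, bl.RB z⟩
    let ι : R →+* bl.loc π :=
      { toFun := fun z => ⟨z, hRm z⟩
        map_one' := rfl
        map_mul' := fun _ _ => rfl
        map_zero' := rfl
        map_add' := fun _ _ => rfl }
    have hcase' : IsUnit (ι a) ∨ IsUnit (ι b) := by
      rcases hcase with h | h
      · exact Or.inl (h.map ι)
      · exact Or.inr (h.map ι)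
    have hl0 : len (ι a) (ι b) = 0 := a17_unit_len hcase'
    have h1 : dl (bl.loc π) u ≤ (len (ι a) (ι b)).toNat :=
      h5c u (ι a) (ι b) hb hu (by rw [hl0]; exact ENat.zero_ne_top)
    rw [hl0] at h1
    have h2 : dl (bl.loc π) u = 0 := by simpa using h1
    rw [h2, h0]
    exact ⟨le_rfl, fun h => absurd rfl h⟩
  · obtain ⟨_, ho2, _, _⟩ := ho k L R hR bl
    obtain ⟨a', ha'⟩ := (ho2 a r).1 ha1
    obtain ⟨b', hb'⟩ := (ho2 b r).1 hb1
    obtain ⟨hN, hlt⟩ := h16 k L R hR bl a b r a' b' hr hlen ha' hb' hg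
    have htop : bl.lenB a' b' ≠ ⊤ := ne_top_of_lt hlt
    obtain ⟨hd, _, _⟩ := h14 k L R hR bl a' b' hN htop
    obtain ⟨hd1, hd2⟩ := hd π hπ
    have hmem : (a' : L) ∈ bl.loc π ∧ (b' : L) ∈ bl.loc π := ⟨hmemB a', hmemB b'⟩
    have hS : lenS (bl.loc π) (a' : L) (b' : L) =
        len (⟨a', hmem.1⟩ : bl.loc π) ⟨b', hmem.2⟩ := by
      unfold lenS
      rw [dif_pos hmem]
    have hx : (bl.x : L) ^ r ≠ 0 := pow_ne_zero _ bl.x0
    have hb'0 : (b' : L) ≠ 0 := by
      intro h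
      apply hb
      rw [hb', h, mul_zero]
    have hu' : u * (b' : L) = a' := by
      have h1 : (bl.x : L) ^ r * (u * (b' : L)) = (bl.x : L) ^ r * a' := by
        rw [← ha', ← hu, hb']
        ring
      exact mul_left_cancel₀ hx h1
    rw [hS] at hd1 hd2
    have h1 : dl (bl.loc π) u ≤ (len (⟨a', hmem.1⟩ : bl.loc π) ⟨b', hmem.2⟩).toNat :=
      h5c u ⟨a', hmem.1⟩ ⟨b', hmem.2⟩ hb'0 hu' hd1
    have h2 : (bl.lenB a' b').toNat < (len a b).toNat := by
      have h4 : ((bl.lenB a' b').toNat : ℕ∞) < ((len a b).toNat : ℕ∞) := by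
        rw [ENat.natCast_toNat htop, ENat.natCast_toNat hlen]
        exact hlt
      exact_mod_cast h4
    have h3 : dl (bl.loc π) u < dl R u := by
      rw [hdl]
      exact lt_of_le_of_lt (h1.trans hd2) h2
    exact ⟨h3.le, fun _ => h3⟩

end Pool.Agent.H19.UT
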