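import Pool.Agent.H19.UT.SpA

/-!
Project UT, row A09: the exceptional divisor (helper39).
-/

set_option autoImplicit false
set_option maxHeartbeats 400000

open Polynomial Pool.Agent.K1

namespace Pool.Agent.H19.UT

namespace Blow

variable {L : Type} [Field L] {R : Subring L}

theorem a09_resx (bl : Blow R) : bl.res bl.x = 0 :=
  (bl.hm bl.x).2 ⟨1, 0, by ring⟩

theorem a09_thx (bl : Blow R) : bl.θ (bl.inc bl.x) = 0 := by
  have h := bl.θR bl.x
  rw [a09_resx, C_0] at h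
  exact h

theorem a09_ker (bl : Blow R) (b : bl.B) : bl.θ b = 0 ↔ bl.inc bl.x ∣ b := by
  rw [bl.θker b]
  constructor
  · rintro ⟨c, hc⟩
    exact ⟨c, Subtype.ext hc⟩
  · rintro ⟨c, hc⟩
    exact ⟨c, by rw [hc]; rfl⟩

theorem a09_nonunit (bl : Blow R) : ¬ IsUnit (bl.inc bl.x) := by
  intro h
  have h1 := h.map bl.θ
  rw [a09_thx] at h1
  exact not_isUnit_zero h1

theorem a09_noeth (bl : Blow R) [IsNoetherianRing R] : IsNoetherianRing bl.B := by
  refine isNoetherianRing_of_surjective R[X] bl.B (eval₂RingHom bl.inc bl.t) ?_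
  intro b
  obtain ⟨P, hP⟩ := bl.gen b
  refine ⟨P, Subtype.ext ?_⟩
  rw [hP]
  change bl.B.subtype (P.eval₂ bl.inc bl.t) = _
  rw [hom_eval₂]
  rfl

theorem a09_factor (bl : Blow R) [IsNoetherianRing R] {b : bl.B} (hb : b ≠ 0) :
    ∃ (n : ℕ) (a : bl.B), bl.θ a ≠ 0 ∧ b = (bl.inc bl.x) ^ n * a := by
  have := a09_noeth bl
  obtain ⟨n, a, h1, h2⟩ := WfDvdMonoid.max_power_factor' hb (a09_nonunit bl)
  exact ⟨n, a, fun h => h1 ((a09_ker bl a).1 h), h2⟩

theorem a09_dec (bl : Blow R) [IsNoetherianRing R]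
    (hfr : ∀ f : L, ∃ a b : R, (b : L) ≠ 0 ∧ f * b = a) {z : L} (hz : z ≠ 0) :
    ∃ (n m : ℕ) (a b : bl.B), bl.θ a ≠ 0 ∧ bl.θ b ≠ 0 ∧
      z * ((bl.x : L) ^ m * b) = (bl.x : L) ^ n * a := by
  obtain ⟨a, b, hb, hab⟩ := hfr z
  have ha : (a : L) ≠ 0 := by rw [← hab]; exact mul_ne_zero hz hb
  obtain ⟨n, a', ha', h1⟩ := a09_factor bl (b := bl.inc a)
    (fun h => ha (congrArg (Subtype.val) h))
  obtain ⟨m, b', hb', h2⟩ := a09_factor bl (b := bl.inc b)
    (fun h => hb (congrArg (Subtype.val) h))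
  refine ⟨n, m, a', b', ha', hb', ?_⟩
  have h3 : (a : L) = (bl.x : L) ^ n * a' := congrArg (Subtype.val) h1
  have h4 : (b : L) = (bl.x : L) ^ m * b' := congrArg (Subtype.val) h2
  rw [← h3, ← h4, hab]

theorem a09_ne (bl : Blow R) {b : bl.B} (hb : bl.θ b ≠ 0) : (b : L) ≠ 0 := by
  intro h
  have h1 : b = 0 := Subtype.ext h
  rw [h1, map_zero] at hb
  exact hb rfl

/-- The exceptional divisor. -/
def a09_E (bl : Blow R) [IsNoetherianRing R]
    (hfr : ∀ f : L, ∃ a b : R, (b : L) ≠ 0 ∧ f * b = a) : ValuationSubring L where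
  carrier := {z | ∃ a b : bl.B, bl.θ b ≠ 0 ∧ z * b = a}
  mul_mem' := by
    rintro z w ⟨a, b, hb, h1⟩ ⟨c, d, hd, h2⟩
    refine ⟨a * c, b * d, by rw [map_mul]; exact mul_ne_zero hb hd, ?_⟩
    rw [Subring.coe_mul, Subring.coe_mul, ← h1, ← h2]
    ring
  one_mem' := ⟨1, 1, by rw [map_one]; exact one_ne_zero, by rw [one_mul]⟩
  add_mem' := by
    rintro z w ⟨a, b, hb, h1⟩ ⟨c, d, hd, h2⟩
    refine ⟨a * d + c * b, b * d, by rw [map_mul]; exact mul_ne_zero hb hd, ?_⟩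
    rw [Subring.coe_add, Subring.coe_mul, Subring.coe_mul, Subring.coe_mul, ← h1, ← h2]
    ring
  zero_mem' := ⟨0, 1, by rw [map_one]; exact one_ne_zero, by rw [zero_mul]; rfl⟩
  neg_mem' := by
    rintro z ⟨a, b, hb, h1⟩
    refine ⟨-a, b, hb, ?_⟩
    rw [Subring.coe_neg, ← h1]
    ring
  mem_or_inv_mem' := by
    intro z
    by_cases hz : z = 0
    · left
      rw [hz]
      exact ⟨0, 1, by rw [map_one]; exact one_ne_zero, by rw [zero_mul]; rfl⟩
    · obtain ⟨n, m, a, b, ha, hb, h⟩ := a09_dec bl hfr hz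
      have hx : (bl.x : L) ≠ 0 := bl.x0
      rcases le_total m n with hmn | hmn
      · left
        refine ⟨(bl.inc bl.x) ^ (n - m) * a, b, hb, ?_⟩
        have h1 : (bl.x : L) ^ n = (bl.x : L) ^ m * (bl.x : L) ^ (n - m) := by
          rw [← pow_add, Nat.add_sub_cancel' hmn]
        have h2 : (bl.x : L) ^ m * (z * b) = (bl.x : L) ^ m * ((bl.x : L) ^ (n - m) * a) := by
          rw [← mul_assoc ((bl.x : L) ^ m) ((bl.x : L) ^ (n - m)), ← h1, ← h]
          ring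
        exact mul_left_cancel₀ (pow_ne_zero m hx) h2
      · right
        refine ⟨(bl.inc bl.x) ^ (m - n) * b, a, ha, ?_⟩
        have h1 : (bl.x : L) ^ m = (bl.x : L) ^ n * (bl.x : L) ^ (m - n) := by
          rw [← pow_add, Nat.add_sub_cancel' hmn]
        have h2 : (bl.x : L) ^ n * (z⁻¹ * a) = (bl.x : L) ^ n * ((bl.x : L) ^ (m - n) * b) := by
          rw [← mul_assoc ((bl.x : L) ^ n) ((bl.x : L) ^ (m - n)), ← h1]
          have h3 : (bl.x : L) ^ n * (z⁻¹ * a) = z⁻¹ * ((bl.x : L) ^ n * a) := by ring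
          rw [h3, ← h, inv_mul_cancel_left₀ hz]
        exact mul_left_cancel₀ (pow_ne_zero n hx) h2

theorem a09_isE (bl : Blow R) [IsNoetherianRing R]
    (hfr : ∀ f : L, ∃ a b : R, (b : L) ≠ 0 ∧ f * b = a) : bl.IsE (a09_E bl hfr) :=
  fun _ => Iff.rfl

theorem a09_memB (bl : Blow R) {E : ValuationSubring L} (hE : bl.IsE E) (b : bl.B) :
    (b : L) ∈ E :=
  (hE _).2 ⟨b, 1, by rw [map_one]; exact one_ne_zero, by
    rw [Subring.coe_one, mul_one]⟩

theorem a09_unit (bl : Blow R) {E : ValuationSubring L} (hE : bl.IsE E) {b : bl.B}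
    (hb : bl.θ b ≠ 0) : ((b : L))⁻¹ ∈ E :=
  (hE _).2 ⟨1, b, hb, by rw [Subring.coe_one]; exact inv_mul_cancel₀ (a09_ne bl hb)⟩

theorem a09_xinv (bl : Blow R) {E : ValuationSubring L} (hE : bl.IsE E) :
    ((bl.x : L))⁻¹ ∉ E := by
  intro h
  obtain ⟨a, b, hb, h1⟩ := (hE _).1 h
  apply hb
  rw [bl.θker]
  refine ⟨a, ?_⟩
  rw [← h1, mul_inv_cancel_left₀ bl.x0]

theorem a09_unif (bl : Blow R) {E : ValuationSubring L} (hE : bl.IsE E) :
    IsUnifV E (bl.x : L) := by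
  refine ⟨bl.x0, fun z => ?_⟩
  rw [tord_nonunits_iff]
  constructor
  · rintro (h | ⟨h1, h2⟩)
    · exact ⟨0, E.zero_mem, by rw [h, mul_zero]⟩
    · obtain ⟨a, b, hb, h3⟩ := (hE z).1 h1
      by_cases ha : bl.θ a = 0
      · obtain ⟨c, hc⟩ := (bl.θker a).1 ha
        refine ⟨(c : L) * (b : L)⁻¹, E.mul_mem _ _ (a09_memB bl hE c) (a09_unit bl hE hb), ?_⟩
        rw [← mul_assoc, ← hc, ← h3, mul_inv_cancel_right₀ (a09_ne bl hb)]
      · exfalso
        apply h2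
        refine (hE _).2 ⟨b, a, ha, ?_⟩
        have hz : z ≠ 0 := by
          rintro rfl
          rw [zero_mul] at h3
          exact a09_ne bl ha h3.symm
        rw [← h3, inv_mul_cancel_left₀ hz]
  · rintro ⟨c, hc, rfl⟩
    by_cases h0 : c = 0
    · left; rw [h0, mul_zero]
    · right
      refine ⟨E.mul_mem _ _ ?_ hc, fun h => ?_⟩
      · exact a09_memB bl hE (bl.inc bl.x)
      · apply a09_xinv bl hE
        have h1 := E.mul_mem _ _ h hc
        rwa [mul_inv, mul_assoc, inv_mul_cancel₀ h0, mul_one] at h1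

theorem a09_disc (bl : Blow R) [IsNoetherianRing R]
    (hfr : ∀ f : L, ∃ a b : R, (b : L) ≠ 0 ∧ f * b = a) {E : ValuationSubring L}
    (hE : bl.IsE E) : IsDiscV E := by
  refine ⟨bl.x, a09_unif bl hE, fun t ht => ?_⟩
  obtain ⟨n, m, a, b, ha, hb, h⟩ := a09_dec bl hfr ht
  have ha0 := a09_ne bl ha
  have hb0 := a09_ne bl hb
  have hx : (bl.x : L) ≠ 0 := bl.x0
  refine ⟨(n : ℤ) - m, Units.mk0 ((a : L) * (b : L)⁻¹) (mul_ne_zero ha0 (inv_ne_zero hb0)),
    ⟨?_, ?_⟩, ?_⟩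
  · exact E.mul_mem _ _ (a09_memB bl hE a) (a09_unit bl hE hb)
  · rw [Units.val_inv_eq_inv_val, Units.val_mk0, mul_inv, inv_inv]
    exact E.mul_mem _ _ (a09_unit bl hE ha) (a09_memB bl hE b)
  · rw [Units.val_mk0, zpow_sub₀ hx, zpow_natCast, zpow_natCast]
    field_simp
    rw [← h]
    ring

theorem a09_dvd (bl : Blow R) {b : bl.B} (hb : bl.θ b ≠ 0) :
    ∀ (r : ℕ) (f : bl.B), (bl.inc bl.x) ^ r ∣ f * b → (bl.inc bl.x) ^ r ∣ f := by
  intro r
  induction r with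
  | zero => intro f _; rw [pow_zero]; exact one_dvd f
  | succ r ih =>
    intro f h
    have h1 : bl.inc bl.x ∣ f := by
      rw [← a09_ker]
      have h2 : bl.inc bl.x ∣ f * b := (Dvd.intro_left _ (pow_succ _ r).symm).trans h
      rw [← a09_ker, map_mul] at h2
      exact (mul_eq_zero.1 h2).resolve_right hb
    obtain ⟨g, rfl⟩ := h1
    have hx : bl.inc bl.x ≠ 0 := fun h => bl.x0 (congrArg (Subtype.val) h)
    rw [pow_succ', mul_assoc] at h
    rw [pow_succ']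
    exact mul_dvd_mul_left _ (ih g ((mul_dvd_mul_iff_left hx).1 h))

theorem a09_mem (bl : Blow R) [IsNoetherianRing R]
    (ho : ∀ (f : R) (r : ℕ), bl.OrdGe f r ↔ ∃ f' : bl.B, (f : L) = (bl.x : L) ^ r * f')
    {E : ValuationSubring L} (hE : bl.IsE E) {z : L} {f g : R} (hg : (g : L) ≠ 0)
    (h : z * g = f) : z ∈ E ↔ ∀ r, bl.OrdGe g r → bl.OrdGe f r := by
  constructor
  · intro hz r hr
    obtain ⟨a, b, hb, h1⟩ := (hE z).1 hz
    obtain ⟨g', hg'⟩ := (ho g r).1 hr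
    rw [ho]
    have h2 : (bl.inc bl.x) ^ r ∣ bl.inc f * b := by
      refine ⟨a * g', Subtype.ext ?_⟩
      change (f : L) * b = (bl.x : L) ^ r * (a * g')
      rw [← h, ← h1, hg']
      ring
    obtain ⟨c, hc⟩ := a09_dvd bl hb r (bl.inc f) h2
    exact ⟨c, congrArg (Subtype.val) hc⟩
  · intro hr
    obtain ⟨m, b, hb, h1⟩ := a09_factor bl (b := bl.inc g)
      (fun h => hg (congrArg (Subtype.val) h))
    have h2 : (g : L) = (bl.x : L) ^ m * b := congrArg (Subtype.val) h1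
    obtain ⟨c, hc⟩ := (ho f m).1 (hr m ((ho g m).2 ⟨b, h2⟩))
    refine (hE z).2 ⟨c, b, hb, ?_⟩
    refine mul_left_cancel₀ (pow_ne_zero m bl.x0) ?_
    rw [← hc, ← h, h2]
    ring

end Blow

theorem e_facts (h1 : SpOnFacts) (ho : SpOrd) : SpE := by
  intro k L _ _ _ R hR bl
  have : IsNoetherianRing R := (h1 k L R hR).2.1
  refine ⟨⟨_, Blow.a09_isE bl hR.frac⟩, fun E hE => ⟨Blow.a09_disc bl hR.frac hE,
    Blow.a09_unif bl hE, Blow.a09_memB bl hE, fun b => ?_⟩, fun bl' E hE z => ?_⟩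
  · constructor
    · intro hb
      by_contra h
      rcases tord_nonunits_iff.1 hb with h2 | ⟨-, h2⟩
      · exact Blow.a09_ne bl h h2
      · exact h2 (Blow.a09_unit bl hE h)
    · intro h
      obtain ⟨c, hc⟩ := (bl.θker b).1 h
      exact ((Blow.a09_unif bl hE).2 _).2 ⟨c, Blow.a09_memB bl hE c, hc⟩
  · obtain ⟨f, g, hg, hfg⟩ := hR.frac z
    have e1 := Blow.a09_mem bl (ho k L R hR bl).2.1 hE hg hfg
    have e2 := Blow.a09_mem bl' (ho k L R hR bl').2.1 (Blow.a09_isE bl' hR.frac) hg hfg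
    have e3 : (∀ r, bl.OrdGe g r → bl.OrdGe f r) ↔ ∀ r, bl'.OrdGe g r → bl'.OrdGe f r :=
      ⟨fun H r hr => (ho k L R hR bl).2.2.2 bl' f r (H r ((ho k L R hR bl').2.2.2 bl g r hr)),
        fun H r hr => (ho k L R hR bl').2.2.2 bl f r (H r ((ho k L R hR bl).2.2.2 bl' g r hr))⟩
    exact (e1.trans (e3.trans e2.symm)).trans (Blow.a09_isE bl' hR.frac z)

end Pool.Agent.H19.UT
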