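import Pool.Agent.H19.UT.SpA

/-!
Project UT, row A03: only finitely many curves carry a nontrivial symbol.
-/

set_option autoImplicit false
set_option maxHeartbeats 400000

open Polynomial Pool.Agent.K1

namespace Pool.Agent.H19.UT

section A03

variable {k L : Type} [Field k] [Field L] [Algebra k L] {R : Subring L}

theorem a03_dom (R : Subring L) : IsDomain R := inferInstance

/-- For all curves off a nonzero element the symbol is trivial. -/
theorem a03_sy (h1 : SpOnFacts) (hR : Reg2 k R) (β : Sy L) :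
    ∃ h : R, h ≠ 0 ∧ ∀ (f : R) (D : ValuationSubring L), OnR R f D → ¬ f ∣ h → sm D β = 1 := by
  obtain ⟨-, -, -, hOn, -⟩ := h1 k L R hR
  -- one unit
  have hu : ∀ u : Lˣ, ∃ h : R, h ≠ 0 ∧ ∀ (f : R) (D : ValuationSubring L), OnR R f D → ¬ f ∣ h →
      ordV D (u : L) = 0 := by
    intro u
    obtain ⟨a, b, hb, hab⟩ := hR.frac (u : L)
    have hb' : b ≠ 0 := fun h => hb (by rw [h]; rfl)
    have ha' : a ≠ 0 := by
      intro h
      rw [h] at hab
      have : (u : L) * b = 0 := by rw [hab]; rfl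
      rcases mul_eq_zero.1 this with h2 | h2
      · exact u.ne_zero h2
      · exact hb h2
    refine ⟨a * b, mul_ne_zero ha' hb', ?_⟩
    intro f D hfD hnd
    obtain ⟨hdisc, -, hRD, hnu⟩ := hOn f D hfD
    have hfa : ¬ f ∣ a := fun h => hnd (h.mul_right b)
    have hfb : ¬ f ∣ b := fun h => hnd (h.mul_left a)
    have hord : ∀ r : R, r ≠ 0 → ¬ f ∣ r → ordV D (r : L) = 0 := by
      intro r hr hfr
      have hr' : (r : L) ≠ 0 := fun h => hr (Subtype.ext h)
      have h2 : 0 ≤ ordV D (r : L) := (mem_iff_ordV hdisc hr').1 (hRD r)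
      have h3 : ¬ 0 < ordV D (r : L) := by
        intro h4
        exact hfr ((hnu r).1 ((nonunits_iff_ordV hdisc hr').2 h4))
      omega
    have h5 : ordV D ((u : L) * b) = ordV D (u : L) + ordV D (b : L) :=
      ordV_mul hdisc u.ne_zero hb
    rw [hab, hord a ha' hfa, hord b hb' hfb] at h5
    omega
  induction β using FreeAbelianGroup.induction_on with
  | zero => exact ⟨1, one_ne_zero, fun f D _ _ => by unfold sm; rw [map_zero]; rfl⟩
  | of p =>
    obtain ⟨u, v⟩ := p
    obtain ⟨a, ha, hau⟩ := hu u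
    obtain ⟨b, hb, hbv⟩ := hu v
    refine ⟨a * b, mul_ne_zero ha hb, ?_⟩
    intro f D hfD hnd
    have e1 := hau f D hfD (fun h => hnd (h.mul_right b))
    have e2 := hbv f D hfD (fun h => hnd (h.mul_left a))
    unfold sm smb
    rw [FreeAbelianGroup.lift_apply_of]
    change u ^ ordV D (v : L) * v ^ (-(ordV D (u : L))) = 1
    rw [e1, e2, neg_zero, zpow_zero, zpow_zero, one_mul]
  | neg p ih =>
    obtain ⟨h, hh, hx⟩ := ih
    refine ⟨h, hh, ?_⟩
    intro f D hfD hnd
    have := hx f D hfD hnd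
    unfold sm at this ⊢
    rw [map_neg, toMul_neg, this, inv_one]
  | add x y ihx ihy =>
    obtain ⟨a, ha, hax⟩ := ihx
    obtain ⟨b, hb, hby⟩ := ihy
    refine ⟨a * b, mul_ne_zero ha hb, ?_⟩
    intro f D hfD hnd
    have e1 := hax f D hfD (fun h => hnd (h.mul_right b))
    have e2 := hby f D hfD (fun h => hnd (h.mul_left a))
    unfold sm at e1 e2 ⊢
    rw [map_add, toMul_add, e1, e2, one_mul]

end A03

theorem fin_support (h0 : SpSm) (h1 : SpOnFacts) : SpFin := by
  intro k L _ _ _ d R hR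
  obtain ⟨hufd, -, hex, hOn, heq⟩ := h1 k L R hR
  obtain ⟨i, -⟩ := d.cover ⊤
  obtain ⟨h, hh, hβ⟩ := a03_sy h1 hR (d.β i)
  have hA : ∃ g : R, g ≠ 0 ∧ ∀ (f : R) (D : ValuationSubring L), OnR R f D → ¬ f ∣ g →
      ∀ a ∈ d.A i, a ∈ D := by
    classical
    induction d.A i using Finset.induction_on with
    | empty => exact ⟨1, one_ne_zero, fun f D _ _ a ha => absurd ha (Finset.notMem_empty a)⟩
    | insert a s _ ih =>
      obtain ⟨g, hg, hgs⟩ := ih
      obtain ⟨x, y, hy, hxy⟩ := hR.frac a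
      have hy' : y ≠ 0 := fun h => hy (by rw [h]; rfl)
      refine ⟨g * y, mul_ne_zero hg hy', ?_⟩
      intro f D hfD hnd b hb
      rcases Finset.mem_insert.1 hb with rfl | hb
      · rw [hfD.2]
        exact ⟨x, y, fun h => hnd (h.mul_left g), hxy⟩
      · exact hgs f D hfD (fun h => hnd (h.mul_right y)) b hb
  obtain ⟨g, hg, hgA⟩ := hA
  have hH : h * g ≠ 0 := mul_ne_zero hh hg
  -- the prime divisors of `h * g`
  classical
  choose! Dof hDof using hex
  refine Set.Finite.subset ((UniqueFactorizationMonoid.factors (h * g)).toFinset.image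
    Dof).finite_toSet ?_
  rintro D ⟨⟨f, hfD⟩, hnt⟩
  have hdvd : f ∣ h * g := by
    by_contra hnd
    apply hnt
    have e1 := hβ f D hfD (fun h' => hnd (h'.mul_right g))
    have e2 := hgA f D hfD (fun h' => hnd (h'.mul_left h))
    rw [((h0 L D (hOn f D hfD).1).2.2.2.2.2.2.2.2 d i e2).2, e1]
    refine ⟨1, one_pos, ?_⟩
    rw [Units.val_one, one_pow, sub_self]
    rw [ValuationSubring.mem_nonunits_iff, map_zero]
    exact zero_lt_one
  obtain ⟨p, hp, hfp⟩ := UniqueFactorizationMonoid.exists_mem_factors_of_dvd hH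
    hfD.1.irreducible hdvd
  have hpp : Prime p := UniqueFactorizationMonoid.prime_of_factor p hp
  rw [Finset.coe_image]
  refine ⟨p, Multiset.mem_toFinset.2 hp, ?_⟩
  exact ((heq f p D (Dof p) hfD (hDof p hpp)).2 hfp).symm

end Pool.Agent.H19.UT
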