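import Pool.Agent.H19.UT.SpA

/-!
Project UT, row A02: orders along the curves of a two-dimensional regular local ring.
-/

set_option autoImplicit false
set_option maxHeartbeats 400000

open Polynomial Pool.Agent.K1

namespace Pool.Agent.H19.UT

/-- lengths are finite in dimension two -/
theorem a02_fin {O : Type*} [CommRing O] [IsDomain O] [IsLocalRing O] [IsNoetherianRing O]
    (hdim : ringKrullDim O = 2) {f a : O} (hf : Prime f) (ha : ¬ f ∣ a) : len f a ≠ ⊤ := by
  have hmax : ∀ P : Ideal O, P.IsPrime → f ∈ P → a ∈ P → P = IsLocalRing.maximalIdeal O := by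
    intro P hP hfP haP
    by_contra hne
    have hPm : P < IsLocalRing.maximalIdeal O :=
      lt_of_le_of_ne (IsLocalRing.le_maximalIdeal hP.ne_top) hne
    have hfI : (Ideal.span {f}).IsPrime := (Ideal.span_singleton_prime hf.ne_zero).2 hf
    have h1 : (⊥ : Ideal O) < Ideal.span {f} := by
      rw [bot_lt_iff_ne_bot, Ne, Ideal.span_singleton_eq_bot]
      exact hf.ne_zero
    have h2 : Ideal.span {f} < P := by
      refine lt_of_le_of_ne ?_ ?_
      · rw [Ideal.span_singleton_le_iff_mem]
        exact hfP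
      · intro h
        apply ha
        rw [← Ideal.mem_span_singleton, h]
        exact haP
    have e1 := Ideal.height_add_one_le_of_lt_of_isPrime h1
    have e2 := Ideal.height_add_one_le_of_lt_of_isPrime h2
    have e3 := Ideal.height_add_one_le_of_lt_of_isPrime hPm
    have e4 : ((IsLocalRing.maximalIdeal O).height : WithBot ℕ∞) = 2 := by
      rw [IsLocalRing.maximalIdeal_height_eq_ringKrullDim, hdim]
    have e5 : (IsLocalRing.maximalIdeal O).height = 2 := WithBot.coe_injective (e4.trans rfl)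
    rw [Ideal.height_bot, zero_add] at e1
    rw [e5] at e3
    have e6 : (1 : ℕ∞) + 1 + 1 ≤ 2 :=
      (add_le_add_left ((add_le_add_left e1 1).trans e2) 1).trans e3
    exact absurd e6 (by decide)
  by_cases htop : Ideal.span {f, a} = ⊤
  · unfold len
    rw [htop]
    rw [Module.length_eq_zero_iff.2 (Ideal.Quotient.subsingleton_iff.2 rfl)]
    exact ENat.zero_ne_top
  have hk : Ring.KrullDimLE 0 (O ⧸ Ideal.span {f, a}) := by
    rw [Ring.krullDimLE_zero_iff]
    intro Q hQ
    have h1 : (Q.comap (Ideal.Quotient.mk (Ideal.span {f, a}))).IsPrime := Ideal.comap_isPrime _ _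
    have hmem : ∀ z ∈ Ideal.span {f, a}, z ∈ Q.comap (Ideal.Quotient.mk (Ideal.span {f, a})) := by
      intro z hz
      rw [Ideal.mem_comap, Ideal.Quotient.eq_zero_iff_mem.2 hz]
      exact Q.zero_mem
    have h2 := hmax _ h1 (hmem f (Ideal.subset_span (by simp)))
      (hmem a (Ideal.subset_span (by simp)))
    have h3 : (Q.comap (Ideal.Quotient.mk (Ideal.span {f, a}))).IsMaximal := by
      rw [h2]
      infer_instance
    have h4 := Ideal.map_eq_top_or_isMaximal_of_surjective
      (Ideal.Quotient.mk (Ideal.span {f, a})) Ideal.Quotient.mk_surjective h3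
    rw [Ideal.map_comap_of_surjective _ Ideal.Quotient.mk_surjective] at h4
    rcases h4 with h4 | h4
    · exact absurd h4 hQ.ne_top
    · exact h4
  have hart : IsArtinianRing (O ⧸ Ideal.span {f, a}) :=
    IsNoetherianRing.isArtinianRing_of_krullDimLE_zero
  unfold len
  rw [Module.length_eq_of_surjective (R := O ⧸ Ideal.span {f, a}) Ideal.Quotient.mk_surjective,
    Module.length_ne_top_iff, isFiniteLength_iff_isNoetherian_isArtinian]
  exact ⟨inferInstance, hart⟩

theorem a02_reg {O : Type*} [CommRing O] {f a : O} (hf : Prime f) (ha : ¬ f ∣ a) : Reg f a := by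
  intro z hz
  exact (hf.dvd_or_dvd hz).resolve_left ha

theorem a02_not_dvd_mul {O : Type*} [CommRing O] {f a b : O} (hf : Prime f) (ha : ¬ f ∣ a)
    (hb : ¬ f ∣ b) : ¬ f ∣ a * b := fun h => (hf.dvd_or_dvd h).elim ha hb

theorem a02_pow {O : Type*} [CommRing O] {f a : O} (hf : Prime f) (ha : ¬ f ∣ a) (n : ℕ) :
    len f (a ^ n) = n * len f a := by
  induction n with
  | zero => rw [pow_zero, len_unit f isUnit_one, Nat.cast_zero, zero_mul]
  | succ n ih =>
    rw [pow_succ', len_mul (a02_reg hf ha), ih, Nat.cast_succ]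
    ring

theorem a02_assoc {O : Type*} [CommRing O] [IsDomain O] {f g a : O} (h : Associated f g) :
    len f a = len g a := by
  unfold len
  have h1 : Ideal.span {f, a} = Ideal.span {g, a} := by
    rw [Ideal.span_insert, Ideal.span_insert, Ideal.span_singleton_eq_span_singleton.2 h]
  rw [h1]

/-- A02 -/
theorem od_facts (h1 : SpOnFacts) : SpOD := by
  intro k L _ _ _ R hR f D hD
  obtain ⟨hufd, hnoe, hex, hon, huniq⟩ := h1 k L R hR
  have hreg := hR.reg
  have hdim := hR.dim
  have hf : Prime f := hD.1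
  have hmem := hD.2
  obtain ⟨hdisc, hunif, hRD, hnon⟩ := hon f D hD
  have fin : ∀ a : R, ¬ f ∣ a → len f a ≠ ⊤ := fun a ha => a02_fin hdim hf ha
  have f1 : ¬ f ∣ 1 := fun h => hf.not_isUnit (isUnit_of_dvd_one h)
  have ne0 : ∀ b : R, ¬ f ∣ b → (b : L) ≠ 0 := by
    intro b hb h
    apply hb
    have h2 : b = 0 := Subtype.ext h
    rw [h2]
    exact dvd_zero f
  -- existence
  have ex : ∀ u : Lˣ, UnitIn D u → ∃ a b : R, ¬ f ∣ a ∧ ¬ f ∣ b ∧ (u : L) * b = a := by
    rintro u ⟨hu1, hu2⟩
    obtain ⟨a, b, hb, hab⟩ := (hmem _).1 hu1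
    obtain ⟨c, d, hd, hcd⟩ := (hmem _).1 hu2
    refine ⟨a, b, ?_, hb, hab⟩
    intro ha
    have h3 : a * c = b * d := by
      apply Subtype.ext
      push_cast
      rw [← hab, ← hcd]
      have h4 : (u : L) * ((u⁻¹ : Lˣ) : L) = 1 := by rw [← Units.val_mul, mul_inv_cancel, Units.val_one]
      linear_combination ((b : L) * d) * h4
    apply a02_not_dvd_mul hf hb hd
    rw [← h3]
    exact ha.mul_right c
  -- well defined
  have wd : ∀ (u : Lˣ) (n : ℤ) (g : R) (n' : ℤ), IsOR R f u n → OnR R g D → IsOR R g u n' →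
      n' = n := by
    rintro u n g n' ⟨a, b, ha, hb, hab, hn⟩ hg ⟨c, d, hc, hd, hcd, hn'⟩
    have hfg : Associated f g := (huniq f g D D hD hg).1 rfl
    have hc' : ¬ f ∣ c := fun h => hc (hfg.symm.dvd.trans h)
    have hd' : ¬ f ∣ d := fun h => hd (hfg.symm.dvd.trans h)
    rw [← a02_assoc hfg, ← a02_assoc hfg] at hn'
    have h3 : a * d = c * b := by
      apply Subtype.ext
      push_cast
      rw [← hab, ← hcd]
      ring
    have h4 : len f a + len f d = len f c + len f b := by
      rw [← len_mul (a02_reg hf ha), ← len_mul (a02_reg hf hc'), h3]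
    have h5 : (len f a).toNat + (len f d).toNat = (len f c).toNat + (len f b).toNat := by
      rw [← ENat.toNat_add (fin a ha) (fin d hd'), ← ENat.toNat_add (fin c hc') (fin b hb), h4]
    rw [hn, hn']
    omega
  have val : ∀ (u : Lˣ) (n : ℤ), IsOR R f u n → oD R D u = n := by
    intro u n hn
    have hx : ∃ (n : ℤ) (f : R), OnR R f D ∧ IsOR R f u n := ⟨n, f, hD, hn⟩
    unfold oD
    rw [dif_pos hx]
    obtain ⟨g, hg, hg'⟩ := hx.choose_spec
    exact wd u n g _ hn hg hg'
  refine ⟨fin, ?_, val, ?_, ?_⟩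
  · intro u hu
    obtain ⟨a, b, ha, hb, hab⟩ := ex u hu
    exact ⟨_, a, b, ha, hb, hab, rfl⟩
  · intro u v hu hv
    obtain ⟨a, b, ha, hb, hab⟩ := ex u hu
    obtain ⟨c, d, hc, hd, hcd⟩ := ex v hv
    have hac := a02_not_dvd_mul hf ha hc
    have hbd := a02_not_dvd_mul hf hb hd
    rw [val u _ ⟨a, b, ha, hb, hab, rfl⟩, val v _ ⟨c, d, hc, hd, hcd, rfl⟩,
      val (u * v) _ ⟨a * c, b * d, hac, hbd, ?_, rfl⟩]
    · rw [len_mul (a02_reg hf ha), len_mul (a02_reg hf hb),
        ENat.toNat_add (fin a ha) (fin c hc), ENat.toNat_add (fin b hb) (fin d hd)]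
      push_cast
      ring
    · push_cast
      rw [← hab, ← hcd]
      ring
  · rintro u ⟨n, hn, hu⟩
    -- `u ^ n` is a unit of `D`
    have h2 : (u : L) ^ n ∈ D := by
      have h3 : (u : L) ^ n - 1 ∈ D := D.nonunits_le hu
      have h4 := D.add_mem _ _ h3 D.one_mem
      rwa [sub_add_cancel] at h4
    have h3 : ((u : L) ^ n)⁻¹ ∈ D := by
      by_contra h4
      have h5 : (u : L) ^ n ∈ D.nonunits := (tord_nonunits_iff (v := D)).2 (Or.inr ⟨h2, h4⟩)
      have h6 : (1 : L) ∈ D.nonunits := by
        rw [ValuationSubring.mem_nonunits_iff] at hu h5 ⊢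
        have h7 : (1 : L) = (u : L) ^ n - ((u : L) ^ n - 1) := by ring
        rw [h7]
        exact lt_of_le_of_lt (D.valuation.map_sub _ _) (max_lt h5 hu)
      rw [ValuationSubring.mem_nonunits_iff, map_one] at h6
      exact lt_irrefl _ h6
    have hu0 : (u : L) ≠ 0 := u.ne_zero
    obtain ⟨m, rfl⟩ : ∃ m, n = m + 1 := ⟨n - 1, by omega⟩
    have hU : UnitIn D u := by
      constructor
      · rcases D.mem_or_inv_mem (u : L) with h | h
        · exact h
        · have h4 : (u : L) = (u : L) ^ (m + 1) * ((u : L)⁻¹) ^ m := by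
            rw [inv_pow, pow_succ']
            field_simp
          rw [h4]
          exact D.mul_mem _ _ h2 (pow_mem h m)
      · rw [Units.val_inv_eq_inv_val]
        rcases D.mem_or_inv_mem (u : L) with h | h
        · have h4 : ((u : L))⁻¹ = ((u : L) ^ (m + 1))⁻¹ * (u : L) ^ m := by
            rw [pow_succ']
            field_simp
          rw [h4]
          exact D.mul_mem _ _ h3 (pow_mem h m)
        · exact h
    obtain ⟨a, b, ha, hb, hab⟩ := ex u hU
    have h4 : f ∣ a ^ (m + 1) - b ^ (m + 1) := by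
      rw [← hnon]
      have h5 : ((a ^ (m + 1) - b ^ (m + 1) : R) : L) =
          ((u : L) ^ (m + 1) - 1) * (b : L) ^ (m + 1) := by
        push_cast
        rw [← hab]
        ring
      rw [h5, ValuationSubring.mem_nonunits_iff, map_mul]
      rw [ValuationSubring.mem_nonunits_iff] at hu
      have h6 : D.valuation ((b : L) ^ (m + 1)) ≤ 1 := by
        rw [ValuationSubring.valuation_le_one_iff]
        exact pow_mem (hRD b) _
      exact mul_lt_one_of_lt_of_le hu h6
    obtain ⟨c, hc⟩ := h4
    have h5 : a ^ (m + 1) = b ^ (m + 1) + c * f := by linear_combination hc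
    have h6 : len f (a ^ (m + 1)) = len f (b ^ (m + 1)) := by rw [h5, len_add]
    rw [a02_pow hf ha, a02_pow hf hb] at h6
    have h7 : (m + 1) * (len f a).toNat = (m + 1) * (len f b).toNat := by
      have h8 := congrArg ENat.toNat h6
      rw [ENat.toNat_mul, ENat.toNat_mul] at h8
      simpa using h8
    have h8 : (len f a).toNat = (len f b).toNat := Nat.eq_of_mul_eq_mul_left (Nat.succ_pos m) h7
    rw [val u _ ⟨a, b, ha, hb, hab, rfl⟩, h8, sub_self]

end Pool.Agent.H19.UT
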