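import Pool.Agent.H19.UT.SpA

/-!
Project UT, row A12: orders along the exceptional divisor (helper30).
-/

set_option autoImplicit false
set_option maxHeartbeats 400000

open Polynomial Pool.Agent.K1

namespace Pool.Agent.H19.UT

section oe

variable {L : Type} [Field L] {R : Subring L}

/-- `θ` is surjective. -/
theorem a12_surj (bl : Blow R) : Function.Surjective bl.θ := by
  have h1 : ∀ p : bl.κ[X], p ∈ bl.θ.range := by
    intro p
    induction p using Polynomial.induction_on' with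
    | add p q hp hq => exact add_mem hp hq
    | monomial n c =>
      obtain ⟨r, rfl⟩ := bl.surj c
      rw [← C_mul_X_pow_eq_monomial]
      have h2 : C (bl.res r) ∈ bl.θ.range := ⟨⟨r, bl.RB r⟩, bl.θR r⟩
      have h3 : (X : bl.κ[X]) ∈ bl.θ.range := ⟨bl.t, bl.θt⟩
      exact mul_mem h2 (pow_mem h3 n)
  intro p
  exact h1 p

/-- valuation of an element of `B` which does not vanish on the exceptional divisor -/
theorem a12_val (bl : Blow R) (E : ValuationSubring L)
    (hE1 : ∀ b : bl.B, (b : L) ∈ E) (hE2 : ∀ b : bl.B, (b : L) ∈ E.nonunits ↔ bl.θ b = 0)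
    (b : bl.B) (hb : bl.θ b ≠ 0) : E.valuation (b : L) = 1 := by
  have h1 : E.valuation (b : L) ≤ 1 := (E.valuation_le_one_iff _).2 (hE1 b)
  have h2 : ¬ E.valuation (b : L) < 1 := by
    intro h
    exact hb ((hE2 b).1 (E.mem_nonunits_iff.2 h))
  exact le_antisymm h1 (not_lt.1 h2)

theorem a12_coe_ne (bl : Blow R) (b : bl.B) (hb : bl.θ b ≠ 0) : (b : L) ≠ 0 := by
  intro h
  apply hb
  have h1 : b = 0 := Subtype.ext h
  rw [h1, map_zero]

/-- the value of the length function on `B` in the local ring -/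
theorem a12_len (bl : Blow R) (π : bl.κ[X]) (hπ : bl.Pt π) (R' : Subring L)
    (hR' : bl.IsLoc π R') (hB : ∀ b : bl.B, (b : L) ∈ R')
    (x' : R') (hx' : (x' : L) = bl.x) (hxp : Prime x')
    (hxd : ∀ b : bl.B, x' ∣ (⟨b, hB b⟩ : R') → bl.θ b = 0)
    (c : bl.B) (hc : bl.θ c ≠ 0) :
    len x' (⟨c, hB c⟩ : R') = (multiplicity π (bl.θ c) : ℕ∞) := by
  have hirr : Irreducible π := hπ.2
  have hpr : Prime π := hirr.prime
  -- the inclusion of `B`
  let ι : bl.B →+* R' :=
    { toFun := fun b => ⟨b, hB b⟩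
      map_one' := rfl
      map_mul' := fun _ _ => rfl
      map_zero' := rfl
      map_add' := fun _ _ => rfl }
  have hι : ∀ b : bl.B, ((ι b : R') : L) = b := fun b => rfl
  have hx0 : (bl.x : L) ≠ 0 := bl.x0
  -- elements with nonvanishing value are units
  have hunit : ∀ b : bl.B, ¬ π ∣ bl.θ b → IsUnit (ι b) := by
    intro b hb
    have hb0 : bl.θ b ≠ 0 := fun h => hb (h ▸ dvd_zero π)
    have hbL : (b : L) ≠ 0 := a12_coe_ne bl b hb0
    have h1 : (b : L)⁻¹ ∈ R' := by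
      rw [hR']
      refine ⟨1, b, hb, ?_⟩
      rw [inv_mul_cancel₀ hbL]; rfl
    refine IsUnit.of_mul_eq_one (⟨(b : L)⁻¹, h1⟩ : R') ?_
    apply Subtype.ext
    change (b : L) * (b : L)⁻¹ = 1
    exact mul_inv_cancel₀ hbL
  -- the kernel of `θ`
  have hker : ∀ b : bl.B, bl.θ b = 0 → ∃ e : bl.B, ι b = x' * ι e := by
    intro b hb
    obtain ⟨e, he⟩ := (bl.θker b).1 hb
    refine ⟨e, Subtype.ext ?_⟩
    rw [hι, he]
    change (bl.x : L) * (e : L) = (x' : L) * (e : L)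
    rw [hx']
  -- a lift of `π`
  obtain ⟨p, hp⟩ := a12_surj bl π
  -- the length of `R' / (x, p)` is one
  have hlen1 : len x' (ι p) = 1 := by
    unfold len
    rw [Module.length_eq_one_iff]
    apply isSimpleModule_iff_isCoatom.2
    rw [← Ideal.isMaximal_def]
    have hne : (Ideal.span {x', ι p} : Ideal R') ≠ ⊤ := by
      intro htop
      have h1 : (1 : R') ∈ Ideal.span {x', ι p} := by rw [htop]; trivial
      rw [Ideal.mem_span_pair] at h1
      obtain ⟨r, s, hrs⟩ := h1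
      obtain ⟨a1, b1, hb1, hr⟩ := (hR' r).1 r.2
      obtain ⟨a2, b2, hb2, hs⟩ := (hR' s).1 s.2
      have h2 : (r : L) * (bl.x : L) + (s : L) * (p : L) = 1 := by
        have h2a : ((r * x' + s * ι p : R') : L) = ((1 : R') : L) := by rw [hrs]
        change (r : L) * (x' : L) + (s : L) * (p : L) = 1 at h2a
        rw [hx'] at h2a
        exact h2a
      have h3 : ((b1 * b2 : bl.B) : L) =
          ((a1 * b2 : bl.B) : L) * (bl.x : L) + ((a2 * b1 * p : bl.B) : L) := by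
        push_cast
        rw [← hr, ← hs]
        linear_combination (-(b1 : L) * (b2 : L)) * h2
      have h4 : bl.θ (b1 * b2 - a2 * b1 * p) = 0 := by
        rw [bl.θker]
        refine ⟨a1 * b2, ?_⟩
        push_cast at h3 ⊢
        rw [h3]; ring
      rw [map_sub, map_mul, map_mul, map_mul, hp, sub_eq_zero] at h4
      have h5 : π ∣ bl.θ b1 * bl.θ b2 := by
        rw [h4]; exact dvd_mul_left _ _
      rcases hpr.dvd_or_dvd h5 with h | h
      · exact hb1 h
      · exact hb2 h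
    refine ⟨⟨hne, ?_⟩⟩
    intro J hJ
    obtain ⟨r, hrJ, hrI⟩ := SetLike.exists_of_lt hJ
    obtain ⟨a1, b1, hb1, hr⟩ := (hR' r).1 r.2
    have hr' : r * ι b1 = ι a1 := Subtype.ext hr
    have hub : IsUnit (ι b1) := hunit b1 hb1
    by_cases ha : π ∣ bl.θ a1
    · exfalso
      apply hrI
      obtain ⟨w, hw⟩ := ha
      obtain ⟨W, hW⟩ := a12_surj bl w
      have h6 : bl.θ (a1 - p * W) = 0 := by
        rw [map_sub, map_mul, hp, hW, hw, sub_self]
      obtain ⟨e, he⟩ := hker _ h6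
      have h7 : ι a1 = x' * ι e + ι p * ι W := by
        rw [← he, map_sub, map_mul]; ring
      have h8 : ι a1 ∈ Ideal.span {x', ι p} := by
        rw [h7]
        exact Ideal.add_mem _ (Ideal.mul_mem_right _ _ (Ideal.subset_span (by simp)))
          (Ideal.mul_mem_right _ _ (Ideal.subset_span (by simp)))
      rw [← hr'] at h8
      exact (Ideal.mul_unit_mem_iff_mem _ hub).1 h8
    · have h9 : ι a1 ∈ J := hr' ▸ Ideal.mul_mem_right _ _ hrJ
      exact Ideal.eq_top_of_isUnit_mem _ h9 (hunit a1 ha)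
  -- regularity
  have hreg : ∀ b : bl.B, bl.θ b ≠ 0 → Reg x' (ι b) := by
    intro b hb z hz
    rcases hxp.dvd_or_dvd hz with h | h
    · exact absurd (hxd b h) hb
    · exact h
  have hπ0 : bl.θ p ≠ 0 := by rw [hp]; exact hirr.ne_zero
  -- powers
  have hpow : ∀ (n : ℕ) (W : bl.B), ¬ π ∣ bl.θ W → len x' (ι (p ^ n * W)) = (n : ℕ∞) := by
    intro n W hW
    induction n with
    | zero =>
      rw [pow_zero, one_mul]
      simpa using len_unit x' (hunit W hW)
    | succ n ih =>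
      have h1 : ι (p ^ (n + 1) * W) = ι p * ι (p ^ n * W) := by
        rw [← map_mul]; congr 1; ring
      rw [h1, len_mul (hreg p hπ0), ih, hlen1]
      push_cast
      rw [add_comm]
  -- the factorization
  have hfin : FiniteMultiplicity π (bl.θ c) := FiniteMultiplicity.of_not_isUnit hirr.not_isUnit hc
  obtain ⟨w, hw, hnd⟩ := hfin.exists_eq_pow_mul_and_not_dvd
  obtain ⟨W, hW⟩ := a12_surj bl w
  have h1 : bl.θ (c - p ^ multiplicity π (bl.θ c) * W) = 0 := by
    rw [map_sub, map_mul, map_pow, hp, hW, ← hw, sub_self]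
  obtain ⟨e, he⟩ := hker _ h1
  have h2 : ι c = ι (p ^ multiplicity π (bl.θ c) * W) + ι e * x' := by
    rw [map_sub] at he
    linear_combination he
  change len x' (ι c) = _
  rw [h2, len_add, hpow _ W (by rw [hW]; exact hnd)]

end oe

theorem oe_facts (h1 : SpOnFacts) (h2 : SpOD) (h8 : SpE) (h9 : SpLoc) (h10 : SpCl) : SpOE := by
  intro k L _ _ _ R hR bl π hπ E hE a b u ha hb hu
  obtain ⟨hloc, hreg⟩ := h9 k L R hR bl π hπ
  obtain ⟨hEd, hEu, hE1, hE2⟩ := (h8 k L R hR bl).2.1 E hE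
  obtain ⟨f, hf⟩ := ((h10 k L R hR bl π hπ E).2 hE).1
  obtain ⟨-, -, -, honf, -⟩ := h1 k L (bl.loc π) hreg
  obtain ⟨-, -, hfm, hfn⟩ := honf f E hf
  have hirr : Irreducible π := hπ.2
  have hB : ∀ c : bl.B, (c : L) ∈ bl.loc π := by
    intro c
    rw [hloc]
    refine ⟨c, 1, ?_, ?_⟩
    · rw [map_one]
      intro h
      exact hirr.not_isUnit (isUnit_of_dvd_one h)
    · push_cast; ring
  have hxB : (bl.x : L) ∈ bl.loc π := hB ⟨bl.x, bl.RB bl.x⟩
  have hmem : ∀ r : bl.loc π, (⟨bl.x, hxB⟩ : bl.loc π) ∣ r ↔ (r : L) ∈ E.nonunits := by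
    intro r
    constructor
    · rintro ⟨s, rfl⟩
      have hx : (bl.x : L) ∈ E.nonunits := tord_unif_nonunit hEu
      rw [E.mem_nonunits_iff] at hx ⊢
      change E.valuation ((bl.x : L) * (s : L)) < 1
      rw [map_mul]
      exact mul_lt_one_of_lt_of_le hx ((E.valuation_le_one_iff _).2 (hfm s))
    · intro hr
      obtain ⟨a1, b1, hb1, hr1⟩ := (hloc r).1 r.2
      have hb10 : bl.θ b1 ≠ 0 := fun h => hb1 (h ▸ dvd_zero π)
      have hv := a12_val bl E hE1 hE2 b1 hb10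
      have hbL : (b1 : L) ≠ 0 := a12_coe_ne bl b1 hb10
      have ha1 : bl.θ a1 = 0 := by
        rw [← hE2, E.mem_nonunits_iff, ← hr1, map_mul, hv, mul_one]
        exact E.mem_nonunits_iff.1 hr
      obtain ⟨e, he⟩ := (bl.θker a1).1 ha1
      have hs : (e : L) / (b1 : L) ∈ bl.loc π := by
        rw [hloc]
        exact ⟨e, b1, hb1, div_mul_cancel₀ _ hbL⟩
      refine ⟨⟨_, hs⟩, Subtype.ext ?_⟩
      change (r : L) = (bl.x : L) * ((e : L) / (b1 : L))
      rw [eq_comm, ← mul_div_assoc, div_eq_iff hbL, hr1, he]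
  have hdd : ∀ r : bl.loc π, (⟨bl.x, hxB⟩ : bl.loc π) ∣ r ↔ f ∣ r := fun r => by
    rw [hmem, hfn]
  have hxf : Associated f (⟨bl.x, hxB⟩ : bl.loc π) :=
    associated_of_dvd_dvd ((hdd _).1 dvd_rfl) ((hdd _).2 dvd_rfl)
  have hxp : Prime (⟨bl.x, hxB⟩ : bl.loc π) := hxf.prime hf.1
  have hxon : OnR (bl.loc π) (⟨bl.x, hxB⟩ : bl.loc π) E := by
    refine ⟨hxp, fun z => ?_⟩
    rw [hf.2 z]
    constructor
    · rintro ⟨a1, b1, hb1, hz⟩
      exact ⟨a1, b1, fun h => hb1 ((hdd _).1 h), hz⟩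
    · rintro ⟨a1, b1, hb1, hz⟩
      exact ⟨a1, b1, fun h => hb1 ((hdd _).2 h), hz⟩
  have hxd : ∀ c : bl.B, (⟨bl.x, hxB⟩ : bl.loc π) ∣ (⟨c, hB c⟩ : bl.loc π) → bl.θ c = 0 := by
    intro c hc
    rw [hmem] at hc
    exact (hE2 c).1 hc
  obtain ⟨-, -, hod, -, -⟩ := h2 k L (bl.loc π) hreg _ E hxon
  apply hod
  refine ⟨⟨a, hB a⟩, ⟨b, hB b⟩, fun h => ha (hxd a h), fun h => hb (hxd b h), hu, ?_⟩
  rw [a12_len bl π hπ _ hloc hB _ rfl hxp hxd a ha, a12_len bl π hπ _ hloc hB _ rfl hxp hxd b hb]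
  simp

end Pool.Agent.H19.UT
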