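import Pool.Agent.H19.UT.SpA
import Pool.Agent.K1.Ufd2

/-!
Project UT, row A01: the curves on a two-dimensional regular local ring.
-/

set_option autoImplicit false
set_option maxHeartbeats 400000

open Polynomial Pool.Agent.K1

namespace Pool.Agent.H19.UT

theorem a01_ne {L : Type} [Field L] {R : Subring L} {b : R} (h : b ≠ 0) : (b : L) ≠ 0 := by
  intro h'
  exact h (Subtype.ext h')

theorem a01_ne0 {L : Type} [Field L] {R : Subring L} {f b : R} (h : ¬ f ∣ b) : (b : L) ≠ 0 := by
  apply a01_ne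
  intro h'
  rw [h'] at h
  exact h (dvd_zero f)

/-- every nonzero element is a power of `f` times a unit of the local ring -/
theorem a01_dec {k L : Type} [Field k] [Field L] [Algebra k L] {R : Subring L} (h : Reg2 k R)
    [WfDvdMonoid R] {f : R} (hf : Prime f) {t : L} (ht : t ≠ 0) :
    ∃ (m n : ℕ) (a b : R), ¬ f ∣ a ∧ ¬ f ∣ b ∧ t * ((f : L) ^ n * b) = (f : L) ^ m * a := by
  obtain ⟨A, B, hB, hAB⟩ := h.frac t
  have hA : A ≠ 0 := by
    intro h'
    rw [h'] at hAB
    rw [Subring.coe_zero] at hAB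
    exact (mul_ne_zero ht hB) hAB
  have hB' : B ≠ 0 := by
    intro h'
    rw [h'] at hB
    exact hB (Subring.coe_zero R)
  obtain ⟨m, a, ha, hA1⟩ := WfDvdMonoid.max_power_factor hA hf.irreducible
  obtain ⟨n, b, hb, hB1⟩ := WfDvdMonoid.max_power_factor hB' hf.irreducible
  refine ⟨m, n, a, b, ha, hb, ?_⟩
  have h1 : (A : L) = (f : L) ^ m * a := by
    rw [hA1]
    push_cast
    rfl
  have h2 : (B : L) = (f : L) ^ n * b := by
    rw [hB1]
    push_cast
    rfl
  rw [← h1, ← h2]
  exact hAB

/-- the localization at `f` -/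
def a01_val {k L : Type} [Field k] [Field L] [Algebra k L] {R : Subring L} (h : Reg2 k R)
    [WfDvdMonoid R] {f : R} (hf : Prime f) : ValuationSubring L where
  carrier := {x | ∃ a b : R, ¬ f ∣ b ∧ x * b = a}
  mul_mem' := by
    rintro x y ⟨a, b, hb, hx⟩ ⟨c, d, hd, hy⟩
    refine ⟨a * c, b * d, fun h' => (hf.dvd_or_dvd h').elim hb hd, ?_⟩
    push_cast
    rw [← hx, ← hy]
    ring
  one_mem' := ⟨1, 1, fun h' => hf.not_isUnit (isUnit_of_dvd_one h'), by push_cast; ring⟩
  add_mem' := by
    rintro x y ⟨a, b, hb, hx⟩ ⟨c, d, hd, hy⟩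
    refine ⟨a * d + c * b, b * d, fun h' => (hf.dvd_or_dvd h').elim hb hd, ?_⟩
    push_cast
    rw [← hx, ← hy]
    ring
  zero_mem' := ⟨0, 1, fun h' => hf.not_isUnit (isUnit_of_dvd_one h'), by push_cast; ring⟩
  neg_mem' := by
    rintro x ⟨a, b, hb, hx⟩
    refine ⟨-a, b, hb, ?_⟩
    push_cast
    rw [← hx]
    ring
  mem_or_inv_mem' := by
    intro x
    by_cases hx : x = 0
    · left
      exact ⟨0, 1, fun h' => hf.not_isUnit (isUnit_of_dvd_one h'), by rw [hx]; push_cast; ring⟩
    · obtain ⟨m, n, a, b, ha, hb, hab⟩ := a01_dec h hf hx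
      have hfL : (f : L) ≠ 0 := a01_ne hf.ne_zero
      rcases le_total n m with hnm | hnm
      · left
        refine ⟨f ^ (m - n) * a, b, hb, ?_⟩
        have h1 : (f : L) ^ m = (f : L) ^ n * (f : L) ^ (m - n) := by
          rw [← pow_add, Nat.add_sub_cancel' hnm]
        have h2 : (f : L) ^ n * (x * b) = (f : L) ^ n * ((f : L) ^ (m - n) * a) := by
          rw [h1] at hab
          linear_combination hab
        push_cast
        exact mul_left_cancel₀ (pow_ne_zero n hfL) h2
      · right
        refine ⟨f ^ (n - m) * b, a, ha, ?_⟩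
        have h1 : (f : L) ^ n = (f : L) ^ m * (f : L) ^ (n - m) := by
          rw [← pow_add, Nat.add_sub_cancel' hnm]
        have h2 : (f : L) ^ m * a = (f : L) ^ m * (x * ((f : L) ^ (n - m) * b)) := by
          rw [h1] at hab
          linear_combination -hab
        have h3 := mul_left_cancel₀ (pow_ne_zero m hfL) h2
        push_cast
        rw [h3]
        field_simp

theorem on_facts : SpOnFacts := by
  intro k L _ _ _ R h
  have := h.reg
  have hU : UniqueFactorizationMonoid R := ufd_of_regular2 h.dim.le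
  have hone : ∀ f : R, Prime f → ¬ f ∣ 1 := fun f hf h' => hf.not_isUnit (isUnit_of_dvd_one h')
  have key : ∀ (f : R) (D : ValuationSubring L), OnR R f D → IsUnifV D (f : L) ∧
      (∀ r : R, (r : L) ∈ D) ∧ (∀ r : R, (r : L) ∈ D.nonunits ↔ f ∣ r) := by
    intro f D hD
    obtain ⟨hf, hmem⟩ := hD
    have hfL : (f : L) ≠ 0 := a01_ne hf.ne_zero
    have hR : ∀ r : R, (r : L) ∈ D := fun r =>
      (hmem r).2 ⟨r, 1, hone f hf, by push_cast; ring⟩
    have hun : IsUnifV D (f : L) := by
      refine ⟨hfL, fun x => ?_⟩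
      rw [tord_nonunits_iff]
      constructor
      · rintro (hx | ⟨hx, hx'⟩)
        · exact ⟨0, D.zero_mem, by rw [hx, mul_zero]⟩
        · obtain ⟨a, b, hb, hab⟩ := (hmem x).1 hx
          have hbL : (b : L) ≠ 0 := a01_ne0 hb
          have hfa : f ∣ a := by
            by_contra ha
            apply hx'
            have hx0 : x ≠ 0 := by
              intro h0
              rw [h0, zero_mul] at hab
              exact a01_ne0 ha hab.symm
            refine (hmem _).2 ⟨b, a, ha, ?_⟩
            rw [← hab]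
            field_simp
          obtain ⟨c, rfl⟩ := hfa
          refine ⟨(c : L) / b, (hmem _).2 ⟨c, b, hb, by field_simp⟩, ?_⟩
          push_cast at hab
          field_simp
          exact hab
      · rintro ⟨c, hc, rfl⟩
        by_cases h0 : (f : L) * c = 0
        · exact Or.inl h0
        · right
          refine ⟨D.mul_mem _ _ (hR f) hc, fun hx' => ?_⟩
          obtain ⟨a, b, hb, hab⟩ := (hmem c).1 hc
          obtain ⟨a', b', hb', hab'⟩ := (hmem _).1 hx'
          have h1 : b' * b = f * (a * a') := by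
            apply Subtype.ext
            push_cast
            have h2 : (b' : L) = f * c * a' := by
              rw [← hab', mul_inv_cancel_left₀ h0]
            rw [h2, ← hab]
            ring
          exact (hf.dvd_or_dvd (Dvd.intro _ h1.symm)).elim hb' hb
    refine ⟨hun, hR, fun r => ?_⟩
    rw [hun.2]
    constructor
    · rintro ⟨c, hc, hr⟩
      obtain ⟨a, b, hb, hab⟩ := (hmem c).1 hc
      have h1 : r * b = f * a := by
        apply Subtype.ext
        push_cast
        rw [hr, ← hab]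
        ring
      exact (hf.dvd_or_dvd (Dvd.intro _ h1.symm)).elim id (fun h' => absurd h' hb)
    · rintro ⟨c, rfl⟩
      exact ⟨c, hR c, by push_cast; ring⟩
  refine ⟨hU, inferInstance, ?_, ?_, ?_⟩
  · intro f hf
    exact ⟨a01_val h hf, hf, fun x => Iff.rfl⟩
  · intro f D hD
    obtain ⟨hun, hR, hnu⟩ := key f D hD
    refine ⟨⟨(f : L), hun, fun t ht => ?_⟩, hun, hR, hnu⟩
    obtain ⟨m, n, a, b, ha, hb, hab⟩ := a01_dec h hD.1 ht
    have haL : (a : L) ≠ 0 := a01_ne0 ha
    have hbL : (b : L) ≠ 0 := a01_ne0 hb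
    have hfL : (f : L) ≠ 0 := hun.1
    refine ⟨(m : ℤ) - n, Units.mk0 ((a : L) / b) (div_ne_zero haL hbL), ⟨?_, ?_⟩, ?_⟩
    · exact (hD.2 _).2 ⟨a, b, hb, by rw [Units.val_mk0]; field_simp⟩
    · refine (hD.2 _).2 ⟨b, a, ha, ?_⟩
      rw [Units.val_inv_eq_inv_val, Units.val_mk0]
      field_simp
    · rw [Units.val_mk0, zpow_sub₀ hfL, zpow_natCast, zpow_natCast]
      field_simp
      linear_combination hab
  · intro f g D D' hD hD'
    constructor
    · intro hDD
      subst hDD
      obtain ⟨hun, hR, hnu⟩ := key f D hD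
      obtain ⟨hun', hR', hnu'⟩ := key g D hD'
      exact associated_of_dvd_dvd ((hnu g).1 ((hnu' g).2 (dvd_refl g)) )
        ((hnu' f).1 ((hnu f).2 (dvd_refl f)))
    · intro hfg
      ext x
      rw [hD.2, hD'.2]
      constructor
      · rintro ⟨a, b, hb, hab⟩
        exact ⟨a, b, fun h' => hb (hfg.dvd_iff_dvd_left.2 h'), hab⟩
      · rintro ⟨a, b, hb, hab⟩
        exact ⟨a, b, fun h' => hb (hfg.dvd_iff_dvd_left.1 h'), hab⟩

end Pool.Agent.H19.UT
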