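import Pool.Agent.H19.UT.SpA

/-!
Project UT, row A08: orders at the closed point (helper1).
-/

set_option autoImplicit false
set_option maxHeartbeats 400000

open Polynomial Pool.Agent.K1

namespace Pool.Agent.H19.UT

namespace Blow

variable {L : Type} [Field L] {R : Subring L}

theorem a08_zero (bl : Blow R) (f : R) : bl.OrdGe f 0 := ⟨fun _ => f, by simp⟩

theorem a08_add (bl : Blow R) {f g : R} {r : ℕ} (hf : bl.OrdGe f r) (hg : bl.OrdGe g r) :
    bl.OrdGe (f + g) r := by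
  obtain ⟨c, hc⟩ := hf
  obtain ⟨e, he⟩ := hg
  refine ⟨fun i => c i + e i, ?_⟩
  rw [hc, he, ← Finset.sum_add_distrib]
  exact Finset.sum_congr rfl fun i _ => by ring

theorem a08_smul (bl : Blow R) {f : R} {r : ℕ} (a : R) (hf : bl.OrdGe f r) :
    bl.OrdGe (a * f) r := by
  obtain ⟨c, hc⟩ := hf
  refine ⟨fun i => a * c i, ?_⟩
  rw [hc, Finset.mul_sum]
  exact Finset.sum_congr rfl fun i _ => by ring

theorem a08_x (bl : Blow R) {f : R} {r : ℕ} (hf : bl.OrdGe f r) :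
    bl.OrdGe (bl.x * f) (r + 1) := by
  obtain ⟨c, hc⟩ := hf
  refine ⟨fun i => if i ≤ r then c i else 0, ?_⟩
  rw [Finset.sum_range_succ]
  beta_reduce
  rw [if_neg (by omega), zero_mul, zero_mul, add_zero, hc, Finset.mul_sum]
  refine Finset.sum_congr rfl fun i hi => ?_
  have hi' : i ≤ r := Nat.lt_succ_iff.1 (Finset.mem_range.1 hi)
  rw [if_pos hi', show r + 1 - i = (r - i) + 1 by omega]
  ring

theorem a08_y (bl : Blow R) {f : R} {r : ℕ} (hf : bl.OrdGe f r) :
    bl.OrdGe (bl.y * f) (r + 1) := by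
  obtain ⟨c, hc⟩ := hf
  refine ⟨fun i => if i = 0 then 0 else c (i - 1), ?_⟩
  rw [Finset.sum_range_succ']
  beta_reduce
  rw [if_pos rfl, zero_mul, zero_mul, add_zero, hc, Finset.mul_sum]
  refine Finset.sum_congr rfl fun i hi => ?_
  rw [if_neg (Nat.succ_ne_zero i), Nat.add_sub_cancel, Nat.add_sub_add_right]
  ring

theorem a08_succ (bl : Blow R) (f : R) (r : ℕ) : bl.OrdGe f (r + 1) ↔
    ∃ a b : R, bl.OrdGe a r ∧ bl.OrdGe b r ∧ f = bl.x * a + bl.y * b := by
  constructor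
  · rintro ⟨c, hc⟩
    refine ⟨∑ i ∈ Finset.range (r + 1), c i * bl.x ^ (r - i) * bl.y ^ i, c (r + 1) * bl.y ^ r,
      ⟨c, rfl⟩, ⟨fun i => if i = r then c (r + 1) else 0, ?_⟩, ?_⟩
    · rw [Finset.sum_eq_single r]
      · simp
      · intro i _ hi
        beta_reduce
        rw [if_neg hi, zero_mul, zero_mul]
      · intro h
        exact absurd (Finset.mem_range.2 (Nat.lt_succ_self r)) h
    · rw [hc, Finset.sum_range_succ, Finset.mul_sum, Nat.sub_self, pow_zero]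
      congr 1
      · refine Finset.sum_congr rfl fun i hi => ?_
        have hi' : i ≤ r := Nat.lt_succ_iff.1 (Finset.mem_range.1 hi)
        rw [show r + 1 - i = (r - i) + 1 by omega]
        ring
      · ring
  · rintro ⟨a, b, ha, hb, rfl⟩
    exact bl.a08_add (bl.a08_x ha) (bl.a08_y hb)

theorem a08_pred (bl : Blow R) {f : R} {r : ℕ} (h : bl.OrdGe f (r + 1)) : bl.OrdGe f r := by
  obtain ⟨a, b, ha, hb, rfl⟩ := (bl.a08_succ f r).1 h
  exact bl.a08_add (bl.a08_smul _ ha) (bl.a08_smul _ hb)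

theorem a08_mono (bl : Blow R) {f : R} {r s : ℕ} (hs : s ≤ r) (h : bl.OrdGe f r) :
    bl.OrdGe f s := by
  induction r, hs using Nat.le_induction with
  | base => exact h
  | succ n _ ih => exact ih (bl.a08_pred h)

/-- The polynomial with the coefficients `c`, at `t`. -/
noncomputable def a08F (bl : Blow R) (c : ℕ → R) (r : ℕ) : bl.B :=
  ∑ i ∈ Finset.range (r + 1), bl.inc (c i) * bl.t ^ i

theorem a08_coe (bl : Blow R) (c : ℕ → R) (r : ℕ) :
    ((∑ i ∈ Finset.range (r + 1), c i * bl.x ^ (r - i) * bl.y ^ i : R) : L) =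
      (bl.x : L) ^ r * (bl.a08F c r : L) := by
  unfold a08F
  push_cast
  rw [Finset.mul_sum]
  refine Finset.sum_congr rfl fun i hi => ?_
  have hi' : i ≤ r := Nat.lt_succ_iff.1 (Finset.mem_range.1 hi)
  have h1 : ((bl.inc (c i) : bl.B) : L) = (c i : L) := rfl
  rw [h1, ← bl.ht, mul_pow]
  calc (c i : L) * (bl.x : L) ^ (r - i) * ((bl.x : L) ^ i * (bl.t : L) ^ i)
      = (c i : L) * ((bl.x : L) ^ (r - i) * (bl.x : L) ^ i) * (bl.t : L) ^ i := by ring
    _ = _ := by rw [← pow_add, Nat.sub_add_cancel hi']; ring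

theorem a08_theta (bl : Blow R) (c : ℕ → R) (r : ℕ) :
    bl.θ (bl.a08F c r) = ∑ i ∈ Finset.range (r + 1), C (bl.res (c i)) * X ^ i := by
  unfold a08F
  rw [map_sum]
  refine Finset.sum_congr rfl fun i _ => ?_
  rw [map_mul, map_pow, bl.θt]
  congr 1
  exact bl.θR (c i)

theorem a08_coeff (bl : Blow R) (c : ℕ → R) (r j : ℕ) (hj : j ≤ r) :
    (bl.θ (bl.a08F c r)).coeff j = bl.res (c j) := by
  rw [bl.a08_theta, finsetSum_coeff, Finset.sum_eq_single j]
  · simp
  · intro i _ hi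
    rw [coeff_C_mul, coeff_X_pow, if_neg (Ne.symm hi), mul_zero]
  · intro h
    exact absurd (Finset.mem_range.2 (Nat.lt_succ_iff.2 hj)) h

theorem a08_of_eq (bl : Blow R) (f : R) (r : ℕ) (f' : bl.B)
    (h : (f : L) = (bl.x : L) ^ r * f') : bl.OrdGe f r := by
  induction r generalizing f' with
  | zero => exact bl.a08_zero f
  | succ r ih =>
    have h1 : (f : L) = (bl.x : L) ^ r * ((bl.inc bl.x * f' : bl.B) : L) := by
      rw [h, pow_succ, Subring.coe_mul]
      change _ = (bl.x : L) ^ r * ((bl.x : L) * (f' : L))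
      ring
    obtain ⟨c, hc⟩ := ih _ h1
    have h2 : (bl.a08F c r : L) = (bl.x : L) * f' := by
      have h3 := bl.a08_coe c r
      rw [← hc, h, pow_succ, mul_assoc] at h3
      exact (mul_left_cancel₀ (pow_ne_zero r bl.x0) h3).symm
    have h4 : bl.θ (bl.a08F c r) = 0 := (bl.θker _).2 ⟨f', h2⟩
    have h5 : ∀ i : ℕ, ∃ a b : R, i ≤ r → c i = a * bl.x + b * bl.y := by
      intro i
      by_cases hi : i ≤ r
      · have h6 : bl.res (c i) = 0 := by rw [← bl.a08_coeff c r i hi, h4, coeff_zero]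
        obtain ⟨a, b, hab⟩ := (bl.hm (c i)).1 h6
        exact ⟨a, b, fun _ => hab⟩
      · exact ⟨0, 0, fun h => absurd h hi⟩
    choose a b hab using h5
    rw [bl.a08_succ]
    refine ⟨_, _, ⟨a, rfl⟩, ⟨b, rfl⟩, ?_⟩
    rw [hc, Finset.mul_sum, Finset.mul_sum, ← Finset.sum_add_distrib]
    refine Finset.sum_congr rfl fun i hi => ?_
    rw [hab i (Nat.lt_succ_iff.1 (Finset.mem_range.1 hi))]
    ring

theorem a08_iff (bl : Blow R) (f : R) (r : ℕ) :
    bl.OrdGe f r ↔ ∃ f' : bl.B, (f : L) = (bl.x : L) ^ r * f' := by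
  constructor
  · rintro ⟨c, rfl⟩
    exact ⟨_, bl.a08_coe c r⟩
  · rintro ⟨f', h⟩
    exact bl.a08_of_eq f r f' h

theorem a08_good (bl : Blow R) (f : R) (r : ℕ) (f' : bl.B) (hg : bl.Good f r)
    (h : (f : L) = (bl.x : L) ^ r * f') :
    bl.θ f' ≠ 0 ∧ (bl.θ f').natDegree = r := by
  obtain ⟨c, hc, hu⟩ := hg
  have h1 : f' = bl.a08F c r := by
    apply Subtype.ext
    have h3 := bl.a08_coe c r
    rw [← hc, h] at h3
    exact mul_left_cancel₀ (pow_ne_zero r bl.x0) h3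
  have h2 : (bl.θ f').coeff r ≠ 0 := by
    rw [h1, bl.a08_coeff c r r le_rfl]
    exact (bl.unit _).1 hu
  refine ⟨fun h0 => h2 (by rw [h0, coeff_zero]), ?_⟩
  refine natDegree_eq_of_le_of_coeff_ne_zero ?_ h2
  rw [h1, bl.a08_theta]
  refine natDegree_sum_le_of_forall_le _ _ fun i hi => ?_
  exact (natDegree_C_mul_X_pow_le _ _).trans (Nat.lt_succ_iff.1 (Finset.mem_range.1 hi))

theorem a08_res (bl bl' : Blow R) (r : R) (h : bl.res r = 0) : bl'.res r = 0 := by
  by_contra h'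
  exact (bl.unit r).1 ((bl'.unit r).2 h') h

theorem a08_change (bl bl' : Blow R) (f : R) (r : ℕ) (h : bl.OrdGe f r) : bl'.OrdGe f r := by
  induction r generalizing f with
  | zero => exact bl'.a08_zero f
  | succ r ih =>
    obtain ⟨a, b, ha, hb, rfl⟩ := (bl.a08_succ f r).1 h
    obtain ⟨α, β, hx⟩ := (bl'.hm bl.x).1
      (a08_res bl bl' _ ((bl.hm bl.x).2 ⟨1, 0, by ring⟩))
    obtain ⟨γ, δ, hy⟩ := (bl'.hm bl.y).1
      (a08_res bl bl' _ ((bl.hm bl.y).2 ⟨0, 1, by ring⟩))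
    rw [bl'.a08_succ]
    refine ⟨α * a + γ * b, β * a + δ * b,
      bl'.a08_add (bl'.a08_smul _ (ih _ ha)) (bl'.a08_smul _ (ih _ hb)),
      bl'.a08_add (bl'.a08_smul _ (ih _ ha)) (bl'.a08_smul _ (ih _ hb)), ?_⟩
    rw [hx, hy]
    ring

end Blow

theorem ord_facts : SpOrd := by
  intro k L _ _ _ R _ bl
  exact ⟨fun f r s hs h => bl.a08_mono hs h, fun f r => bl.a08_iff f r,
    fun f r f' hg h => bl.a08_good f r f' hg h, fun bl' f r h => Blow.a08_change bl bl' f r h⟩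

end Pool.Agent.H19.UT
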