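import Pool.Agent.H19.UT.SpA

/-!
Project UT, row A15: orders are sums of orders on the blow-up (helper27).
-/

set_option autoImplicit false
set_option maxHeartbeats 400000

open Polynomial Pool.Agent.K1

namespace Pool.Agent.H19.UT

section aux

variable {L : Type} [Field L]

theorem a15_nonunit_mul {D : ValuationSubring L} {a b : L} (hb : b ∈ D)
    (h : a ∈ D.nonunits) : a * b ∈ D.nonunits := by
  rw [ValuationSubring.mem_nonunits_iff] at h ⊢
  rw [map_mul]
  have hb' : D.valuation b ≤ 1 := (D.valuation_le_one_iff b).2 hb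
  calc D.valuation a * D.valuation b ≤ D.valuation a * 1 := by gcongr
    _ < 1 := by rw [mul_one]; exact h

theorem a15_nonunit_prime {D : ValuationSubring L} {a b : L} (ha : a ∈ D) (hb : b ∈ D)
    (h : a * b ∈ D.nonunits) : a ∈ D.nonunits ∨ b ∈ D.nonunits := by
  rw [ValuationSubring.mem_nonunits_iff] at h ⊢
  rw [ValuationSubring.mem_nonunits_iff]
  rw [map_mul] at h
  have ha' : D.valuation a ≤ 1 := (D.valuation_le_one_iff a).2 ha
  have hb' : D.valuation b ≤ 1 := (D.valuation_le_one_iff b).2 hb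
  by_contra hc
  push Not at hc
  have h1 : D.valuation a = 1 := le_antisymm ha' hc.1
  have h2 : D.valuation b = 1 := le_antisymm hb' hc.2
  rw [h1, h2] at h
  simp at h

theorem a15_one_not {D : ValuationSubring L} : (1 : L) ∉ D.nonunits := by
  rw [ValuationSubring.mem_nonunits_iff]
  simp

theorem a15_inv_mem {D : ValuationSubring L} {a : L} (ha : a ∈ D) (h : a ∉ D.nonunits) :
    a⁻¹ ∈ D := by
  rw [ValuationSubring.mem_nonunits_iff] at h
  have ha' : D.valuation a ≤ 1 := (D.valuation_le_one_iff a).2 ha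
  have h1 : D.valuation a = 1 := le_antisymm ha' (not_lt.1 h)
  rw [← D.valuation_le_one_iff, map_inv₀, h1, inv_one]

theorem a15_nonunit_not_inv {D : ValuationSubring L} {a b : L} (hab : a * b = 1) (hb : b ∈ D) :
    a ∉ D.nonunits := fun h => a15_one_not (hab ▸ a15_nonunit_mul hb h)

variable {R : Subring L}

/-- `B` is contained in the local rings of the blow-up. -/
theorem a15_B_loc (bl : Blow R) {π : bl.κ[X]} (hπ : bl.Pt π) (hl : bl.IsLoc π (bl.loc π))
    (b : bl.B) : (b : L) ∈ bl.loc π := by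
  rw [hl]
  refine ⟨b, 1, ?_, by simp⟩
  rw [map_one]
  exact fun h => hπ.2.not_isUnit (isUnit_of_dvd_one h)

/-- Elements of `B` not vanishing at the point are units of the local ring. -/
theorem a15_inv_loc (bl : Blow R) {π : bl.κ[X]} (hl : bl.IsLoc π (bl.loc π)) {b : bl.B}
    (hb : ¬ π ∣ bl.θ b) : ∃ c ∈ bl.loc π, (b : L) * c = 1 := by
  have hb0 : (b : L) ≠ 0 := by
    intro h
    apply hb
    have : b = 0 := Subtype.ext h
    rw [this, map_zero]
    exact dvd_zero _
  refine ⟨(b : L)⁻¹, ?_, mul_inv_cancel₀ hb0⟩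
  rw [hl]
  exact ⟨1, b, hb, by simp [hb0]⟩

/-- Elements of `B` vanishing at the point are not units of the local ring. -/
theorem a15_not_unit (bl : Blow R) {π : bl.κ[X]} (hl : bl.IsLoc π (bl.loc π))
    (hπ : bl.Pt π) {b : bl.B} (hb : π ∣ bl.θ b) {c : L} (hc : c ∈ bl.loc π) :
    (b : L) * c ≠ 1 := by
  intro h
  obtain ⟨p, q, hq, hpq⟩ := (hl c).1 hc
  apply hq
  have h1 : q = b * p := by
    apply Subtype.ext
    change (q : L) = (b : L) * (p : L)
    rw [← hpq]
    calc (q : L) = ((b : L) * c) * q := by rw [h, one_mul]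
      _ = _ := by ring
  rw [h1, map_mul]
  exact hb.mul_right _

end aux

section main

variable {L : Type} [Field L] {R : Subring L}

theorem a15_on_dvd (bl : Blow R) {π : bl.κ[X]} (hl : bl.IsLoc π (bl.loc π))
    {D : ValuationSubring L} {f' : bl.B} (hf' : (f' : L) ∈ D.nonunits)
    (hon : On (bl.loc π) D) : π ∣ bl.θ f' := by
  by_contra hc
  obtain ⟨c, hcm, hc1⟩ := a15_inv_loc bl hl hc
  obtain ⟨g, hg, hgD⟩ := hon
  have hcD : c ∈ D := by
    rw [hgD]
    exact ⟨⟨c, hcm⟩, 1, fun h => hg.not_isUnit (isUnit_of_dvd_one h), by simp⟩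
  exact a15_nonunit_not_inv hc1 hcD hf'

theorem a15_loc_mem (bl : Blow R) {π : bl.κ[X]} (hπ : bl.Pt π) (hl : bl.IsLoc π (bl.loc π))
    {D : ValuationSubring L} {f' : bl.B}
    (hD : ∀ b : bl.B, (b : L) ∈ D ∧ ((b : L) ∈ D.nonunits ↔ f' ∣ b))
    (hd : π ∣ bl.θ f') (w : bl.loc π) :
    (w : L) ∈ D ∧ ((w : L) ∈ D.nonunits ↔
      (⟨(f' : L), a15_B_loc bl hπ hl f'⟩ : bl.loc π) ∣ w) := by
  obtain ⟨w, hw⟩ := w
  obtain ⟨a, b, hb, hab⟩ := (hl w).1 hw
  have hbn : (b : L) ∉ D.nonunits := by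
    intro h
    apply hb
    obtain ⟨c, hc⟩ := (hD b).2.1 h
    rw [hc, map_mul]
    exact hd.mul_right _
  have hb0 : (b : L) ≠ 0 := by
    intro h
    apply hb
    have : b = 0 := Subtype.ext h
    rw [this, map_zero]
    exact dvd_zero _
  have hbi : (b : L)⁻¹ ∈ D := a15_inv_mem (hD b).1 hbn
  have hw' : w = (a : L) * (b : L)⁻¹ := by
    rw [← hab]
    field_simp
  have hwD : w ∈ D := by
    rw [hw']
    exact D.mul_mem _ _ (hD a).1 hbi
  refine ⟨hwD, ?_, ?_⟩
  · intro h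
    have ha : (a : L) ∈ D.nonunits := by
      rw [← hab]
      exact a15_nonunit_mul (hD b).1 h
    obtain ⟨c, hc⟩ := (hD a).2.1 ha
    refine ⟨⟨(c : L) * (b : L)⁻¹, ?_⟩, ?_⟩
    · rw [hl]
      exact ⟨c, b, hb, by field_simp⟩
    · apply Subtype.ext
      change w = (f' : L) * ((c : L) * (b : L)⁻¹)
      rw [hw', hc]
      change (f' : L) * (c : L) * (b : L)⁻¹ = _
      ring
  · rintro ⟨v, hv⟩
    have hv' : w = (f' : L) * (v : L) := congrArg Subtype.val hv
    have hvD : (v : L) ∈ D := by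
      obtain ⟨a₂, b₂, hb₂, hab₂⟩ := (hl (v : L)).1 v.2
      have hbn₂ : (b₂ : L) ∉ D.nonunits := by
        intro h
        apply hb₂
        obtain ⟨c, hc⟩ := (hD b₂).2.1 h
        rw [hc, map_mul]
        exact hd.mul_right _
      have hb₀ : (b₂ : L) ≠ 0 := by
        intro h
        apply hb₂
        have : b₂ = 0 := Subtype.ext h
        rw [this, map_zero]
        exact dvd_zero _
      have : (v : L) = (a₂ : L) * (b₂ : L)⁻¹ := by
        rw [← hab₂]
        field_simp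
      rw [this]
      exact D.mul_mem _ _ (hD a₂).1 (a15_inv_mem (hD b₂).1 hbn₂)
    change w ∈ D.nonunits
    rw [hv']
    exact a15_nonunit_mul hvD ((hD f').2.2 (dvd_refl _))

theorem a15_onR (bl : Blow R) {π : bl.κ[X]} (hπ : bl.Pt π) (hl : bl.IsLoc π (bl.loc π))
    {D : ValuationSubring L} {f : R} {f' : bl.B} (hf0 : (f' : L) ≠ 0)
    (hD : ∀ b : bl.B, (b : L) ∈ D ∧ ((b : L) ∈ D.nonunits ↔ f' ∣ b))
    (hR : OnR R f D) (hRn : ∀ r : R, (r : L) ∈ D.nonunits ↔ f ∣ r)
    (hd : π ∣ bl.θ f') :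
    OnR (bl.loc π) (⟨(f' : L), a15_B_loc bl hπ hl f'⟩ : bl.loc π) D := by
  have key := a15_loc_mem bl hπ hl hD hd
  refine ⟨⟨?_, ?_, ?_⟩, ?_⟩
  · intro h
    exact hf0 (congrArg Subtype.val h)
  · intro h
    have h1 : (⟨(f' : L), a15_B_loc bl hπ hl f'⟩ : bl.loc π) ∣ 1 := h.dvd
    have h2 := (key 1).2.2 h1
    exact a15_one_not h2
  · intro v w h
    have h1 : (v : L) * (w : L) ∈ D.nonunits := (key (v * w)).2.2 h
    rcases a15_nonunit_prime (key v).1 (key w).1 h1 with h2 | h2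
    · exact Or.inl ((key v).2.1 h2)
    · exact Or.inr ((key w).2.1 h2)
  · intro z
    constructor
    · intro hz
      obtain ⟨a, b, hb, hab⟩ := (hR.2 z).1 hz
      refine ⟨⟨(a : L), a15_B_loc bl hπ hl ⟨(a : L), bl.RB a⟩⟩,
        ⟨(b : L), a15_B_loc bl hπ hl ⟨(b : L), bl.RB b⟩⟩, ?_, hab⟩
      intro h
      exact hb ((hRn b).1 ((key _).2.2 h))
    · rintro ⟨a, b, hb, hab⟩
      have hbn : (b : L) ∉ D.nonunits := fun h => hb ((key b).2.1 h)
      have hb0 : (b : L) ≠ 0 := by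
        intro h
        apply hb
        have : b = 0 := Subtype.ext h
        rw [this]
        exact dvd_zero _
      have : z = (a : L) * (b : L)⁻¹ := by
        rw [← hab]
        field_simp
      rw [this]
      exact D.mul_mem _ _ (key a).1 (a15_inv_mem (key b).1 hbn)

/-- The power of `x` which lies in an ideal of finite colength. -/
theorem a15_pow_mem [IsNoetherianRing R] [IsLocalRing R] (bl : Blow R) (p q : bl.B)
    (hfin : bl.lenB p q ≠ ⊤) : ∃ N : ℕ, (bl.inc bl.x) ^ N ∈ Ideal.span {p, q} := by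
  letI := bl.inc.toAlgebra
  have hx : bl.x ∈ IsLocalRing.maximalIdeal R := by
    rw [IsLocalRing.mem_maximalIdeal, mem_nonunits_iff, bl.unit, not_not, bl.hm]
    exact ⟨1, 0, by simp⟩
  have hfin' : Module.length R (bl.B ⧸ Ideal.span {p, q}) ≠ ⊤ := hfin
  have hfl : IsFiniteLength R (bl.B ⧸ Ideal.span {p, q}) :=
    Module.length_ne_top_iff.1 hfin'
  rw [isFiniteLength_iff_isNoetherian_isArtinian] at hfl
  obtain ⟨hN, hA⟩ := hfl
  -- the chain `x ^ n M`
  let M := bl.B ⧸ Ideal.span {p, q}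
  let I : Ideal R := Ideal.span {bl.x}
  have hanti : Antitone fun n : ℕ => (I ^ n • (⊤ : Submodule R M)) := by
    intro m n hmn
    exact Submodule.smul_mono_left (Ideal.pow_le_pow_right hmn)
  obtain ⟨n, hn⟩ := IsArtinian.monotone_stabilizes (R := R) (M := M)
    (⟨fun n => OrderDual.toDual (I ^ n • (⊤ : Submodule R M)), fun _ _ h => hanti h⟩)
  have h1 : I ^ n • (⊤ : Submodule R M) = I ^ (n + 1) • (⊤ : Submodule R M) := hn (n + 1) (by omega)
  have h2 : I ^ n • (⊤ : Submodule R M) = ⊥ := by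
    apply Submodule.eq_bot_of_le_smul_of_le_jacobson_bot I
    · exact IsNoetherian.noetherian _
    · rw [← Submodule.mul_smul, ← pow_succ']
      exact h1.le
    · rw [Ideal.span_singleton_le_iff_mem, IsLocalRing.jacobson_eq_maximalIdeal ⊥ bot_ne_top]
      exact hx
  refine ⟨n, ?_⟩
  have h3 : (bl.x ^ n) • (Ideal.Quotient.mk (Ideal.span {p, q}) 1 : M) ∈
      I ^ n • (⊤ : Submodule R M) :=
    Submodule.smul_mem_smul (Ideal.pow_mem_pow (Ideal.mem_span_singleton_self _) n) trivial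
  rw [h2, Submodule.mem_bot] at h3
  have h4 : (bl.x ^ n) • (Ideal.Quotient.mk (Ideal.span {p, q}) 1 : M) =
      Ideal.Quotient.mk (Ideal.span {p, q}) ((bl.inc bl.x) ^ n) := by
    change Ideal.Quotient.mk (Ideal.span {p, q}) ((bl.x ^ n) • (1 : bl.B)) = _
    rw [Algebra.smul_def, mul_one]
    exact congrArg _ (map_pow bl.inc bl.x n)
  rw [h4] at h3
  exact Ideal.Quotient.eq_zero_iff_mem.1 h3

end main

theorem sum_facts (h1 : SpOnFacts) (h2 : SpOD) (h9 : SpLoc) (h13 : SpTrans)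
    (h14 : SpDecomp) : SpSum := by
  intro k L _ _ _ R hR bl f r hgood D hfD u huD
  have hOn := h1 k L R hR
  have hnoeth : IsNoetherianRing R := hOn.2.1
  have hloc : IsLocalRing R := by
    have := hR.reg
    infer_instance
  have hfprime : Prime f := hfD.1
  have hf0 : (f : L) ≠ 0 := by
    intro h
    exact hfprime.ne_zero (Subtype.ext h)
  obtain ⟨hDdisc, hDunif, hDR, hRn⟩ := hOn.2.2.2.1 f D hfD
  obtain ⟨f', hff', hD', hlen⟩ := h13 k L R hR bl f r hfprime hgood
  have hD := hD' D hfD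
  have hf'0 : (f' : L) ≠ 0 := by
    intro h
    apply hf0
    rw [hff', h, mul_zero]
  have hf'n : (f' : L) ∈ D.nonunits := (hD f').2.2 (dvd_refl _)
  -- `f` does not divide `x`
  have hfx : ¬ f ∣ bl.x := by
    rintro ⟨g, hg⟩
    have hgL : (bl.x : L) = (bl.x : L) ^ r * f' * g := by
      rw [← hff']
      exact congrArg Subtype.val hg
    rcases Nat.eq_zero_or_pos r with hr | hr
    · subst hr
      obtain ⟨c, hc, hcu⟩ := hgood
      simp only [zero_add, Finset.range_one, Finset.sum_singleton, Nat.sub_zero, pow_zero,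
        mul_one] at hc
      rw [hc] at hfprime
      exact hfprime.not_isUnit hcu
    · obtain ⟨r, rfl⟩ := Nat.exists_eq_succ_of_ne_zero hr.ne'
      have h3 : (f' : L) * ((bl.x : L) ^ r * g) = 1 := by
        have h4 : (bl.x : L) * ((f' : L) * ((bl.x : L) ^ r * g)) = bl.x * 1 := by
          rw [mul_one]
          conv_rhs => rw [hgL]
          rw [pow_succ]
          ring
        exact mul_left_cancel₀ bl.x0 h4
      refine a15_nonunit_not_inv h3 ?_ hf'n
      exact D.mul_mem _ _ (pow_mem (hDR bl.x) r) (hDR g)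
  obtain ⟨hod1, hod2, hod3, hod4, hod5⟩ := h2 k L R hR f D hfD
  -- the local statement
  have hloc1 : ∀ π, bl.Pt π → (On (bl.loc π) D ↔ π ∣ bl.θ f') := by
    intro π hπ
    obtain ⟨hl, hreg⟩ := h9 k L R hR bl π hπ
    constructor
    · exact a15_on_dvd bl hl hf'n
    · intro hd
      exact ⟨_, a15_onR bl hπ hl hf'0 hD hfD hRn hd⟩
  have hdec : ∀ a : R, ¬ f ∣ a → (∀ π, bl.Pt π → lenS (bl.loc π) f' (bl.inc a) ≠ ⊤ ∧
      (lenS (bl.loc π) f' (bl.inc a)).toNat ≤ (bl.lenB f' (bl.inc a)).toNat) ∧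
      {π : bl.κ[X] | bl.Pt π ∧ lenS (bl.loc π) f' (bl.inc a) ≠ 0}.Finite ∧
      (bl.lenB f' (bl.inc a)).toNat =
        ∑ᶠ (π : bl.κ[X]) (_ : bl.Pt π),
          π.natDegree * (lenS (bl.loc π) f' (bl.inc a)).toNat := by
    intro a ha
    have hfin : bl.lenB f' (bl.inc a) ≠ ⊤ := by
      rw [← hlen a ha]
      exact hod1 a ha
    exact h14 k L R hR bl f' (bl.inc a) (a15_pow_mem bl _ _ hfin) hfin
  have hlenS : ∀ π (hπ : bl.Pt π) (a : R), lenS (bl.loc π) f' (bl.inc a) =
      len (⟨(f' : L), a15_B_loc bl hπ (h9 k L R hR bl π hπ).1 f'⟩ : bl.loc π)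
        ⟨(a : L), a15_B_loc bl hπ (h9 k L R hR bl π hπ).1 (bl.inc a)⟩ := by
    intro π hπ a
    unfold lenS
    rw [dif_pos ⟨a15_B_loc bl hπ (h9 k L R hR bl π hπ).1 f',
      a15_B_loc bl hπ (h9 k L R hR bl π hπ).1 (bl.inc a)⟩]
    rfl
  -- the points not on the curve
  have hlen0 : ∀ π, bl.Pt π → ¬ On (bl.loc π) D → ∀ a : R,
      lenS (bl.loc π) f' (bl.inc a) = 0 := by
    intro π hπ hno a
    rw [hlenS π hπ a]
    have hnd : ¬ π ∣ bl.θ f' := fun h => hno ((hloc1 π hπ).2 h)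
    obtain ⟨c, hc, hc1⟩ := a15_inv_loc bl (h9 k L R hR bl π hπ).1 hnd
    rw [len_symm]
    apply len_unit
    exact IsUnit.of_mul_eq_one ⟨c, hc⟩ (Subtype.ext hc1)
  have hfinOn : {π : bl.κ[X] | bl.Pt π ∧ On (bl.loc π) D}.Finite := by
    apply (hdec bl.x hfx).2.1.subset
    rintro π ⟨hπ, hon⟩
    refine ⟨hπ, ?_⟩
    rw [hlenS π hπ, len, Ne, Module.length_eq_zero_iff, Ideal.Quotient.subsingleton_iff]
    obtain ⟨hl, hreg⟩ := h9 k L R hR bl π hπ
    have hlocπ : IsLocalRing (bl.loc π) := by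
      have := hreg.reg
      infer_instance
    intro htop
    have hle : Ideal.span {(⟨(f' : L), a15_B_loc bl hπ hl f'⟩ : bl.loc π),
        ⟨(bl.x : L), a15_B_loc bl hπ hl (bl.inc bl.x)⟩} ≤
        IsLocalRing.maximalIdeal (bl.loc π) := by
      rw [Ideal.span_le]
      rintro z (rfl | rfl)
      · rw [SetLike.mem_coe, IsLocalRing.mem_maximalIdeal, mem_nonunits_iff]
        intro hu
        obtain ⟨v, hv⟩ := hu.exists_right_inv
        exact a15_not_unit bl hl hπ ((hloc1 π hπ).1 hon) v.2 (congrArg Subtype.val hv)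
      · rw [SetLike.mem_coe, IsLocalRing.mem_maximalIdeal, mem_nonunits_iff]
        intro hu
        obtain ⟨v, hv⟩ := hu.exists_right_inv
        have hx0 : π ∣ bl.θ (bl.inc bl.x) := by
          have : bl.θ (bl.inc bl.x) = 0 := (bl.θker _).2 ⟨1, by simp [Blow.inc]⟩
          rw [this]
          exact dvd_zero _
        exact a15_not_unit bl hl hπ hx0 v.2 (congrArg Subtype.val hv)
    rw [htop] at hle
    exact (IsLocalRing.maximalIdeal.isMaximal (bl.loc π)).ne_top (top_le_iff.1 hle)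
  refine ⟨hfinOn, ?_⟩
  obtain ⟨n, hn⟩ := hod2 u huD
  have hodn := hod3 u n hn
  obtain ⟨a, b, ha, hb, hab, hnab⟩ := hn
  -- the local orders
  have hloc2 : ∀ π, bl.Pt π → oD (bl.loc π) D u =
      ((lenS (bl.loc π) f' (bl.inc a)).toNat : ℤ) -
        ((lenS (bl.loc π) f' (bl.inc b)).toNat : ℤ) := by
    intro π hπ
    by_cases hon : On (bl.loc π) D
    · have hd := (hloc1 π hπ).1 hon
      obtain ⟨hl, hreg⟩ := h9 k L R hR bl π hπ
      have hOR := a15_onR bl hπ hl hf'0 hD hfD hRn hd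
      have key := a15_loc_mem bl hπ hl hD hd
      obtain ⟨-, -, hod3', -⟩ := h2 k L (bl.loc π) hreg _ D hOR
      apply hod3'
      refine ⟨⟨(a : L), a15_B_loc bl hπ hl (bl.inc a)⟩,
        ⟨(b : L), a15_B_loc bl hπ hl (bl.inc b)⟩, ?_, ?_, hab, ?_⟩
      · intro h
        exact ha ((hRn a).1 ((key _).2.2 h))
      · intro h
        exact hb ((hRn b).1 ((key _).2.2 h))
      · rw [hlenS π hπ a, hlenS π hπ b]
    · rw [hlen0 π hπ hon a, hlen0 π hπ hon b]
      unfold oD
      rw [dif_neg]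
      · simp
      · rintro ⟨n', g, hg, -⟩
        exact hon ⟨g, hg⟩
  have hsum : ∀ c : R, ¬ f ∣ c → (((len f c).toNat : ℕ) : ℤ) =
      ∑ᶠ (π : bl.κ[X]) (_ : bl.Pt π),
        (π.natDegree : ℤ) * ((lenS (bl.loc π) f' (bl.inc c)).toNat : ℤ) := by
    intro c hc
    rw [hlen c hc, (hdec c hc).2.2]
    have hs : (Function.support fun π : bl.κ[X] => ∑ᶠ (_ : bl.Pt π),
        π.natDegree * (lenS (bl.loc π) f' (bl.inc c)).toNat).Finite := by
      apply (hdec c hc).2.1.subset
      intro π hπ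
      rw [Function.mem_support] at hπ
      by_cases hp : bl.Pt π
      · refine ⟨hp, ?_⟩
        intro h0
        apply hπ
        simp [hp, h0]
      · exact absurd (by simp [hp]) hπ
    have := (Nat.castAddMonoidHom ℤ).map_finsum hs
    simp only [Nat.coe_castAddMonoidHom] at this
    rw [this]
    apply finsum_congr
    intro π
    by_cases hp : bl.Pt π
    · simp [hp]
    · simp [hp]
  rw [hodn, hnab, hsum a ha, hsum b hb]
  have hs : ∀ c : R, ¬ f ∣ c → (Function.support fun π : bl.κ[X] => ∑ᶠ (_ : bl.Pt π),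
        (π.natDegree : ℤ) * ((lenS (bl.loc π) f' (bl.inc c)).toNat : ℤ)).Finite := by
    intro c hc
    apply (hdec c hc).2.1.subset
    intro π hπ
    rw [Function.mem_support] at hπ
    by_cases hp : bl.Pt π
    · refine ⟨hp, ?_⟩
      intro h0
      apply hπ
      simp [hp, h0]
    · exact absurd (by simp [hp]) hπ
  rw [← finsum_sub_distrib (hs a ha) (hs b hb)]
  apply finsum_congr
  intro π
  by_cases hp : bl.Pt π
  · simp only [hp, finsum_true]
    rw [hloc2 π hp]
    ring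
  · simp [hp]

end Pool.Agent.H19.UT
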