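import Pool.Agent.H19.UT.SpA
import Pool.Agent.K1.TOrdSum

/-!
Project UT, row A13: the strict transform.
-/

set_option autoImplicit false
set_option maxHeartbeats 400000

open Polynomial Pool.Agent.K1

namespace Pool.Agent.H19.UT

section A13gen

variable {R : Type} [CommRing R]

theorem a13_span {N : Type} [AddCommGroup N] [Module R N] (J : Ideal R)
    (hJ : Module.length R (R ⧸ J) ≠ ⊤) (n : ℕ) (g : Fin n → N)
    (hg : Submodule.span R (Set.range g) = ⊤) (hk : ∀ i, ∀ c ∈ J, c • g i = 0) :
    Module.length R N ≠ ⊤ := by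
  have hle : ∀ i, J ≤ LinearMap.ker (LinearMap.toSpanSingleton R N (g i)) := by
    intro i c hc
    rw [LinearMap.mem_ker, LinearMap.toSpanSingleton_apply]
    exact hk i c hc
  let ψ : (Fin n → R ⧸ J) →ₗ[R] N :=
    ∑ i, (Submodule.liftQ J (LinearMap.toSpanSingleton R N (g i)) (hle i)) ∘ₗ LinearMap.proj i
  have hψ : ∀ i, ψ (Pi.single i (Submodule.Quotient.mk 1)) = g i := by
    intro i
    change (∑ j, (Submodule.liftQ J (LinearMap.toSpanSingleton R N (g j)) (hle j)) ∘ₗ
      LinearMap.proj j) (Pi.single i (Submodule.Quotient.mk 1)) = g i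
    rw [LinearMap.sum_apply, Finset.sum_eq_single i]
    · rw [LinearMap.comp_apply, LinearMap.proj_apply, Pi.single_eq_same, Submodule.liftQ_apply,
        LinearMap.toSpanSingleton_apply, one_smul]
    · intro j _ hji
      rw [LinearMap.comp_apply, LinearMap.proj_apply, Pi.single_eq_of_ne hji, map_zero]
    · intro h
      exact absurd (Finset.mem_univ i) h
  have hsurj : Function.Surjective ψ := by
    rw [← LinearMap.range_eq_top, eq_top_iff, ← hg, Submodule.span_le]
    rintro _ ⟨i, rfl⟩
    exact ⟨_, hψ i⟩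
  have h1 := Module.length_le_of_surjective ψ hsurj
  refine ne_top_of_le_ne_top ?_ h1
  rw [Module.length_pi_of_fintype]
  obtain ⟨a, ha⟩ := ENat.ne_top_iff_exists.1 hJ
  rw [Finset.sum_const, Finset.card_univ, Fintype.card_fin, nsmul_eq_mul, ← ha, ← Nat.cast_mul]
  exact ENat.natCast_ne_top _

theorem a13_fl [IsLocalRing R] [IsNoetherianRing R] (n : ℕ) :
    ∀ (N : Type) [AddCommGroup N] [Module R N] [Module.Finite R N],
    (∀ c ∈ IsLocalRing.maximalIdeal R ^ n, ∀ z : N, c • z = 0) → Module.length R N ≠ ⊤ := by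
  induction n with
  | zero =>
    intro N _ _ _ h
    have h1 : Subsingleton N := by
      refine ⟨fun a b => ?_⟩
      have h2 : ∀ z : N, z = 0 := by
        intro z
        have h3 := h 1 (by rw [pow_zero, Ideal.one_eq_top]; exact Submodule.mem_top) z
        rwa [one_smul] at h3
      rw [h2 a, h2 b]
    rw [Module.length_eq_zero_iff.2 h1]
    exact ENat.zero_ne_top
  | succ n ih =>
    intro N _ _ _ h
    set N' : Submodule R N := IsLocalRing.maximalIdeal R • (⊤ : Submodule R N) with hN'
    have h1 := Module.length_eq_add_of_exact N'.subtype N'.mkQ N'.subtype_injective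
      N'.mkQ_surjective (LinearMap.exact_subtype_mkQ N')
    rw [h1]
    have h2 : Module.length R N' ≠ ⊤ := by
      have : IsNoetherian R N := isNoetherian_of_isNoetherianRing_of_finite R N
      have : Module.Finite R N' := Module.IsNoetherian.finite R N'
      apply ih
      rintro c hc ⟨z, hz⟩
      apply Subtype.ext
      rw [Submodule.coe_smul_of_tower, Submodule.coe_zero]
      change c • z = 0
      refine Submodule.smul_induction_on hz ?_ ?_
      · intro r hr w _
        rw [smul_smul]
        apply h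
        rw [pow_succ]
        exact Ideal.mul_mem_mul hc hr
      · intro u v hu hv
        rw [smul_add, hu, hv, add_zero]
    have h3 : Module.length R (N ⧸ N') ≠ ⊤ := by
      have : Module.Finite R (N ⧸ N') := Module.Finite.quotient R N'
      obtain ⟨m, g, hg⟩ := Module.Finite.exists_fin (R := R) (M := N ⧸ N')
      apply a13_span (IsLocalRing.maximalIdeal R) ?_ m g hg ?_
      · have : IsSimpleModule R (R ⧸ IsLocalRing.maximalIdeal R) :=
          isSimpleModule_iff_isCoatom.2 (Ideal.isMaximal_def.1 inferInstance)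
        rw [Module.length_eq_one R (R ⧸ IsLocalRing.maximalIdeal R)]
        exact ENat.one_ne_top
      · intro i c hc
        obtain ⟨z, hz⟩ := N'.mkQ_surjective (g i)
        rw [← hz, ← map_smul, Submodule.mkQ_apply, Submodule.Quotient.mk_eq_zero, hN']
        exact Submodule.smul_mem_smul hc Submodule.mem_top
    intro h4
    rcases WithTop.add_eq_top.1 h4 with h5 | h5
    · exact h2 h5
    · exact h3 h5

end A13gen

section A13

variable {L : Type} [Field L] {R : Subring L}

theorem a13_res_x (bl : Blow R) : bl.res bl.x = 0 :=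
  (bl.hm bl.x).2 ⟨1, 0, by ring⟩

theorem a13_inc (bl : Blow R) (c : R) : ((bl.inc c : bl.B) : L) = (c : L) := rfl

theorem a13_θinc (bl : Blow R) (c : R) : bl.θ (bl.inc c) = C (bl.res c) := bl.θR c

theorem a13_θx (bl : Blow R) : bl.θ (bl.inc bl.x) = 0 := by
  rw [a13_θinc, a13_res_x, C_0]

theorem a13_xt (bl : Blow R) : bl.inc bl.x * bl.t = bl.inc bl.y :=
  Subtype.ext bl.ht

theorem a13_dvd_x (bl : Blow R) (b : bl.B) (h : bl.θ b = 0) : ∃ c, b = bl.inc bl.x * c := by
  obtain ⟨c, hc⟩ := (bl.θker b).1 h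
  exact ⟨c, Subtype.ext hc⟩

theorem a13_incx0 (bl : Blow R) : bl.inc bl.x ≠ 0 := by
  intro h
  apply bl.x0
  have := congrArg (fun z : bl.B => (z : L)) h
  exact this

/-- `f'` and the exceptional divisor are coprime. -/
theorem a13_cop (bl : Blow R) (f' : bl.B) (hf' : bl.θ f' ≠ 0) (n : ℕ) :
    ∀ b : bl.B, f' ∣ bl.inc bl.x ^ n * b → f' ∣ b := by
  induction n with
  | zero =>
    intro b h
    rwa [pow_zero, one_mul] at h
  | succ n ih =>
    rintro b ⟨g, hg⟩
    have h1 : bl.θ f' * bl.θ g = 0 := by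
      rw [← map_mul, ← hg, map_mul, map_pow, a13_θx, zero_pow (Nat.succ_ne_zero n), zero_mul]
    have h2 : bl.θ g = 0 := (mul_eq_zero.1 h1).resolve_left hf'
    obtain ⟨g1, hg1⟩ := a13_dvd_x bl g h2
    apply ih
    refine ⟨g1, mul_left_cancel₀ (a13_incx0 bl) ?_⟩
    rw [← mul_assoc, ← pow_succ', hg, hg1]
    ring

/-- Every element of the chart is a fraction with denominator a power of `x`. -/
theorem a13_den (bl : Blow R) (b : bl.B) : ∃ (n : ℕ) (a : R), bl.inc bl.x ^ n * b = bl.inc a := by
  obtain ⟨P, hP⟩ := bl.gen b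
  refine ⟨P.natDegree, ∑ i ∈ Finset.range (P.natDegree + 1),
    P.coeff i * bl.x ^ (P.natDegree - i) * bl.y ^ i, ?_⟩
  apply Subtype.ext
  push_cast
  rw [a13_inc, a13_inc, hP, eval₂_eq_sum_range, Finset.mul_sum]
  push_cast
  apply Finset.sum_congr rfl
  intro i hi
  rw [Finset.mem_range] at hi
  rw [← bl.ht, mul_pow]
  have h3 : (bl.x : L) ^ P.natDegree = (bl.x : L) ^ (P.natDegree - i) * (bl.x : L) ^ i := by
    rw [← pow_add]
    congr 1
    omega
  rw [h3]
  change _ * ((P.coeff i : L) * _) = _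
  ring

/-- The strict transform of a good element. -/
theorem a13_strict (bl : Blow R) (f : R) (r : ℕ) (c : ℕ → R)
    (hc : f = ∑ i ∈ Finset.range (r + 1), c i * bl.x ^ (r - i) * bl.y ^ i) :
    (f : L) = (bl.x : L) ^ r *
      ((∑ i ∈ Finset.range (r + 1), bl.inc (c i) * bl.t ^ i : bl.B) : L) := by
  have h2 := congrArg (fun z : R => (z : L)) hc
  rw [h2]
  push_cast
  rw [Finset.mul_sum]
  apply Finset.sum_congr rfl
  intro i hi
  rw [Finset.mem_range] at hi
  rw [a13_inc, ← bl.ht, mul_pow]
  have h3 : (bl.x : L) ^ r = (bl.x : L) ^ (r - i) * (bl.x : L) ^ i := by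
    rw [← pow_add]
    congr 1
    omega
  rw [h3]
  ring

theorem a13_pow (bl : Blow R) (hloc : IsLocalRing R) (n : ℕ) :
    ∀ e ∈ IsLocalRing.maximalIdeal R ^ n, ∃ β : bl.B, bl.inc e = bl.inc bl.x ^ n * β := by
  induction n with
  | zero =>
    intro e _
    exact ⟨bl.inc e, by rw [pow_zero, one_mul]⟩
  | succ n ih =>
    intro e he
    rw [pow_succ] at he
    refine Submodule.mul_induction_on he ?_ ?_
    · intro u hu v hv
      obtain ⟨β, hβ⟩ := ih u hu
      have h1 : bl.res v = 0 := by
        by_contra hcon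
        rw [IsLocalRing.mem_maximalIdeal] at hv
        exact hv ((bl.unit v).2 hcon)
      obtain ⟨p, q, hpq⟩ := (bl.hm v).1 h1
      refine ⟨β * (bl.inc p + bl.inc q * bl.t), ?_⟩
      rw [map_mul, hβ, hpq, map_add, map_mul, map_mul, ← a13_xt]
      ring
    · rintro u v ⟨β, hβ⟩ ⟨γ, hγ⟩
      exact ⟨β + γ, by rw [map_add, hβ, hγ]; ring⟩

theorem a13_main {k : Type} [Field k] [Algebra k L] (h1 : SpOnFacts) (ho : SpOrd)
    (hR : Reg2 k R) (bl : Blow R) (f : R) (r : ℕ) (hf : Prime f) (hgood : bl.Good f r) :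
    ∃ f' : bl.B, (f : L) = (bl.x : L) ^ r * f' ∧
    (∀ D : ValuationSubring L, OnR R f D →
      ∀ b : bl.B, (b : L) ∈ D ∧ ((b : L) ∈ D.nonunits ↔ f' ∣ b)) ∧
    (∀ a : R, ¬ f ∣ a → len f a = bl.lenB f' (bl.inc a)) := by
  obtain ⟨c, hc, hcu⟩ := hgood
  set f' : bl.B := ∑ i ∈ Finset.range (r + 1), bl.inc (c i) * bl.t ^ i with hf'
  have hff' : (f : L) = (bl.x : L) ^ r * f' := a13_strict bl f r c hc
  have hinf : bl.inc f = bl.inc bl.x ^ r * f' := Subtype.ext (by
    push_cast
    exact hff')
  obtain ⟨hθ0, hθd⟩ := (ho k L R hR bl).2.2.1 f r f' ⟨c, hc, hcu⟩ hff'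
  obtain ⟨-, hnoeth, hex, hOn, -⟩ := h1 k L R hR
  have hr : 1 ≤ r := by
    rcases Nat.eq_zero_or_pos r with h0 | h0
    · exfalso
      subst h0
      apply hf.not_isUnit
      rw [hc]
      simpa using hcu
    · exact h0
  -- `x` is not divisible by `f`
  have hfx : ¬ f ∣ bl.x := by
    rintro ⟨g, hg⟩
    have h2 : (1 : bl.B) = bl.inc bl.x ^ (r - 1) * f' * bl.inc g := by
      apply mul_left_cancel₀ (a13_incx0 bl)
      have h3 : bl.inc bl.x = bl.inc bl.x ^ r * f' * bl.inc g := by
        rw [← hinf, ← map_mul, ← hg]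
      have h4 : bl.inc bl.x ^ r = bl.inc bl.x * bl.inc bl.x ^ (r - 1) := by
        rw [← pow_succ']
        congr 1
        omega
      rw [mul_one]
      conv_lhs => rw [h3, h4]
      ring
    have h3 : (1 : bl.κ[X]) = bl.θ (bl.inc bl.x) ^ (r - 1) * bl.θ f' * bl.θ (bl.inc g) := by
      rw [← map_one bl.θ, h2, map_mul, map_mul, map_pow]
    rcases Nat.lt_or_ge 1 r with h4 | h4
    · rw [a13_θx, zero_pow (by omega), zero_mul, zero_mul] at h3
      exact one_ne_zero h3
    · have h5 : r = 1 := by omega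
      rw [h5, Nat.sub_self, pow_zero, one_mul] at h3
      have h6 : IsUnit (bl.θ f') := IsUnit.of_mul_eq_one _ h3.symm
      have h7 := natDegree_eq_zero_of_isUnit h6
      omega
  have hD : ∀ D : ValuationSubring L, OnR R f D →
      ∀ b : bl.B, (b : L) ∈ D ∧ ((b : L) ∈ D.nonunits ↔ f' ∣ b) := by
    intro D hfD
    obtain ⟨-, -, hRD, hnu⟩ := hOn f D hfD
    have hxi : ((bl.x : L))⁻¹ ∈ D := by
      by_contra hcon
      apply hfx
      rw [← hnu, tord_nonunits_iff]
      exact Or.inr ⟨hRD _, hcon⟩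
    have hvx : D.valuation (bl.x : L) = 1 := by
      apply le_antisymm ((ValuationSubring.valuation_le_one_iff _ _).2 (hRD _))
      have h2 := (ValuationSubring.valuation_le_one_iff D _).2 hxi
      rw [map_inv₀] at h2
      have h3 : D.valuation (bl.x : L) ≠ 0 := (Valuation.ne_zero_iff _).2 bl.x0
      calc (1 : D.ValueGroup) = (D.valuation (bl.x : L))⁻¹ * D.valuation (bl.x : L) :=
            (inv_mul_cancel₀ h3).symm
        _ ≤ 1 * D.valuation (bl.x : L) := mul_le_mul_left h2 _
        _ = _ := one_mul _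
    have hval : ∀ (b : bl.B) (n : ℕ) (a : R), bl.inc bl.x ^ n * b = bl.inc a →
        D.valuation (b : L) = D.valuation (a : L) := by
      intro b n a hab
      have h2 : (bl.x : L) ^ n * (b : L) = (a : L) := by
        have h3 := congrArg (fun z : bl.B => (z : L)) hab
        have h4 : ((bl.inc bl.x ^ n * b : bl.B) : L) = (bl.x : L) ^ n * (b : L) := by
          push_cast
          rfl
        rw [← h4]
        exact h3
      rw [← h2, map_mul, map_pow, hvx, one_pow, one_mul]
    have hBD : ∀ b : bl.B, (b : L) ∈ D := by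
      intro b
      obtain ⟨n, a, hab⟩ := a13_den bl b
      rw [← ValuationSubring.valuation_le_one_iff, hval b n a hab,
        ValuationSubring.valuation_le_one_iff]
      exact hRD a
    intro b
    refine ⟨hBD b, ?_, ?_⟩
    · intro hb
      obtain ⟨n, a, hab⟩ := a13_den bl b
      have h2 : (a : L) ∈ D.nonunits := by
        rw [ValuationSubring.mem_nonunits_iff, ← hval b n a hab]
        exact (ValuationSubring.mem_nonunits_iff D).1 hb
      obtain ⟨g, hg⟩ := (hnu a).1 h2
      apply a13_cop bl f' hθ0 n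
      rw [hab, hg, map_mul, hinf]
      exact ⟨bl.inc bl.x ^ r * bl.inc g, by ring⟩
    · rintro ⟨g, hg⟩
      rw [ValuationSubring.mem_nonunits_iff, hg]
      push_cast
      rw [map_mul, hval f' r f (by rw [hinf])]
      have h2 : D.valuation (f : L) < 1 :=
        (ValuationSubring.mem_nonunits_iff D).1 ((hnu f).2 dvd_rfl)
      have h3 : D.valuation (g : L) ≤ 1 := (ValuationSubring.valuation_le_one_iff _ _).2 (hBD g)
      exact mul_lt_one_of_lt_of_le h2 h3
  refine ⟨f', hff', hD, ?_⟩
  intro a hfa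
  obtain ⟨D, hfD⟩ := hex f hf
  obtain ⟨-, -, hRD, hnu⟩ := hOn f D hfD
  have hincf : ∀ g : R, f' ∣ bl.inc g ↔ f ∣ g := by
    intro g
    rw [← (hD D hfD (bl.inc g)).2, ← hnu g]
    rfl
  have hprime : ∀ b : bl.B, f' ∣ bl.inc a * b → f' ∣ b := by
    intro b hb
    rw [← (hD D hfD _).2] at hb ⊢
    have h2 : (a : L) ∉ D.nonunits := fun h => hfa ((hnu a).1 h)
    rw [ValuationSubring.mem_nonunits_iff] at hb h2 ⊢
    have h3 : D.valuation (a : L) = 1 :=
      le_antisymm ((ValuationSubring.valuation_le_one_iff _ _).2 (hRD a)) (not_lt.1 h2)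
    have h4 : ((bl.inc a * b : bl.B) : L) = (a : L) * (b : L) := rfl
    rw [h4, map_mul, h3, one_mul] at hb
    exact hb
  have hloc : IsLocalRing R := hR.reg.toIsLocalRing
  letI alg := bl.inc.toAlgebra
  change _ = Module.length R (bl.B ⧸ Ideal.span {f', bl.inc a})
  have hsm : ∀ (c : R) (z : bl.B), c • z = bl.inc c * z := fun c z => Algebra.smul_def c z
  set I : Ideal bl.B := Ideal.span {f'} with hI
  set K : Ideal bl.B := Ideal.span {f', bl.inc a} with hK
  have hIK : I ≤ K := by
    rw [hI, hK, Ideal.span_singleton_le_iff_mem]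
    exact Ideal.subset_span (by simp)
  have hsmk : ∀ (c : R) (z : bl.B), c • (Ideal.Quotient.mk I z) =
      Ideal.Quotient.mk I (bl.inc c * z) := fun c z => by
    rw [← hsm]
    rfl
  let φ : R →ₗ[R] (bl.B ⧸ I) := LinearMap.toSpanSingleton R (bl.B ⧸ I) (Ideal.Quotient.mk I 1)
  have hφ : ∀ c : R, φ c = Ideal.Quotient.mk I (bl.inc c) := by
    intro c
    change c • (Ideal.Quotient.mk I 1) = _
    rw [hsmk, mul_one]
  have hker : LinearMap.ker φ = Ideal.span {f} := by
    ext g
    rw [LinearMap.mem_ker, hφ, Ideal.Quotient.eq_zero_iff_mem, hI, Ideal.mem_span_singleton,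
      Ideal.mem_span_singleton]
    exact hincf g
  have hinj : ∀ z : bl.B ⧸ I, a • z = 0 → z = 0 := by
    intro z
    obtain ⟨z, rfl⟩ := Ideal.Quotient.mk_surjective z
    rw [hsmk, Ideal.Quotient.eq_zero_iff_mem, Ideal.Quotient.eq_zero_iff_mem, hI,
      Ideal.mem_span_singleton, Ideal.mem_span_singleton]
    exact hprime z
  have hfin : Module.length R ((bl.B ⧸ I) ⧸ LinearMap.range φ) ≠ ⊤ := by
    have hS : ∀ n : ℕ, Ideal.Quotient.mk I (bl.t ^ n) ∈
        Submodule.span R (Set.range fun i : Fin r => Ideal.Quotient.mk I (bl.t ^ (i : ℕ))) := by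
      intro n
      induction n using Nat.strong_induction_on with
      | _ n ih =>
      by_cases hn : n < r
      · exact Submodule.subset_span ⟨⟨n, hn⟩, rfl⟩
      · obtain ⟨d, hd⟩ := hcu.exists_left_inv
        have htn : bl.t ^ n = bl.inc d * (bl.t ^ (n - r) * f') -
            ∑ i ∈ Finset.range r, (d * c i) • (bl.t ^ (n - r + i)) := by
          have h4 : bl.t ^ n = bl.t ^ (n - r) * bl.t ^ r := by
            rw [← pow_add]
            congr 1
            omega
          have h5 : bl.inc d * bl.inc (c r) = 1 := by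
            rw [← map_mul, hd, map_one]
          have h6 : ∑ i ∈ Finset.range r, (d * c i) • (bl.t ^ (n - r + i)) =
              bl.inc d * (bl.t ^ (n - r) * ∑ i ∈ Finset.range r, bl.inc (c i) * bl.t ^ i) := by
            rw [Finset.mul_sum, Finset.mul_sum]
            apply Finset.sum_congr rfl
            intro i _
            rw [hsm, map_mul, pow_add]
            ring
          rw [h6, hf', Finset.sum_range_succ, h4]
          linear_combination (-(bl.t ^ (n - r) * bl.t ^ r)) * h5
        rw [htn, map_sub, map_sum]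
        apply Submodule.sub_mem
        · have h7 : Ideal.Quotient.mk I (bl.inc d * (bl.t ^ (n - r) * f')) = 0 := by
            rw [Ideal.Quotient.eq_zero_iff_mem]
            exact Ideal.mul_mem_left _ _ (Ideal.mul_mem_left _ _
              (Ideal.mem_span_singleton_self f'))
          rw [h7]
          exact Submodule.zero_mem _
        · apply Submodule.sum_mem
          intro i hi
          rw [Finset.mem_range] at hi
          have h8 : Ideal.Quotient.mk I ((d * c i) • bl.t ^ (n - r + i)) =
              (d * c i) • Ideal.Quotient.mk I (bl.t ^ (n - r + i)) := rfl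
          rw [h8]
          exact Submodule.smul_mem _ _ (ih _ (by omega))
    have hST : Submodule.span R (Set.range fun i : Fin r =>
        Ideal.Quotient.mk I (bl.t ^ (i : ℕ))) = ⊤ := by
      rw [eq_top_iff]
      intro z _
      obtain ⟨z, rfl⟩ := Ideal.Quotient.mk_surjective z
      obtain ⟨P, hP⟩ := bl.gen z
      have hz : z = ∑ i ∈ P.support, (P.coeff i) • bl.t ^ i := by
        apply Subtype.ext
        rw [hP, eval₂_eq_sum, Polynomial.sum_def]
        push_cast
        apply Finset.sum_congr rfl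
        intro i _
        rw [hsm]
        push_cast
        rw [a13_inc]
        rfl
      rw [hz, map_sum]
      apply Submodule.sum_mem
      intro i _
      have h8 : Ideal.Quotient.mk I ((P.coeff i) • bl.t ^ i) =
          (P.coeff i) • Ideal.Quotient.mk I (bl.t ^ i) := rfl
      rw [h8]
      exact Submodule.smul_mem _ _ (hS i)
    have hfinite : Module.Finite R (bl.B ⧸ I) :=
      ⟨⟨(Set.finite_range fun i : Fin r => Ideal.Quotient.mk I (bl.t ^ (i : ℕ))).toFinset, by
        rw [Set.Finite.coe_toFinset]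
        exact hST⟩⟩
    have : Module.Finite R ((bl.B ⧸ I) ⧸ LinearMap.range φ) :=
      Module.Finite.quotient R (LinearMap.range φ)
    apply a13_fl (r - 1)
    intro e he z
    obtain ⟨z, rfl⟩ := Submodule.mkQ_surjective _ z
    obtain ⟨z, rfl⟩ := Ideal.Quotient.mk_surjective z
    obtain ⟨β, hβ⟩ := a13_pow bl hloc (r - 1) e he
    rw [← map_smul, hsmk, hβ, Submodule.mkQ_apply, Submodule.Quotient.mk_eq_zero, mul_assoc]
    have hz : Ideal.Quotient.mk I (β * z) ∈ Submodule.span R (Set.range fun i : Fin r =>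
        Ideal.Quotient.mk I (bl.t ^ (i : ℕ))) := by
      rw [hST]
      exact Submodule.mem_top
    have hx : Ideal.Quotient.mk I (bl.inc bl.x ^ (r - 1) * (β * z)) =
        (bl.x ^ (r - 1)) • Ideal.Quotient.mk I (β * z) := by
      rw [hsmk, map_pow]
    rw [hx]
    refine Submodule.span_induction ?_ ?_ ?_ ?_ hz
    · rintro _ ⟨i, rfl⟩
      refine ⟨bl.x ^ (r - 1 - i) * bl.y ^ (i : ℕ), ?_⟩
      rw [hφ]
      beta_reduce
      rw [hsmk]
      congr 1
      have h9 : bl.inc bl.x ^ (r - 1) = bl.inc bl.x ^ (r - 1 - i) * bl.inc bl.x ^ (i : ℕ) := by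
        rw [← pow_add]
        congr 1
        omega
      rw [map_mul, map_pow, map_pow, map_pow, ← a13_xt, h9]
      ring
    · rw [smul_zero]
      exact Submodule.zero_mem _
    · intro u v _ _ hu hv
      rw [smul_add]
      exact Submodule.add_mem _ hu hv
    · intro e u _ hu
      rw [smul_comm]
      exact Submodule.smul_mem _ _ hu
  have h5 := tos_length φ a hinj hfin
  rw [hker] at h5
  have h6 : len f a = Module.length R (R ⧸ (Ideal.span {f} ⊔ Submodule.span R {a})) := by
    unfold len
    rw [Ideal.span_insert]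
  rw [h6, h5]
  -- the double quotient
  let g : (bl.B ⧸ I) →ₗ[R] (bl.B ⧸ K) := (Ideal.Quotient.factorₐ R hIK).toLinearMap
  have hg : ∀ z : bl.B, g (Ideal.Quotient.mk I z) = Ideal.Quotient.mk K z := fun _ => rfl
  have hgs : Function.Surjective g := by
    intro z
    obtain ⟨z, rfl⟩ := Ideal.Quotient.mk_surjective z
    exact ⟨Ideal.Quotient.mk I z, hg z⟩
  have hgk : LinearMap.range (LinearMap.lsmul R (bl.B ⧸ I) a) = LinearMap.ker g := by
    ext z
    obtain ⟨z, rfl⟩ := Ideal.Quotient.mk_surjective z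
    rw [LinearMap.mem_ker, hg, Ideal.Quotient.eq_zero_iff_mem, hK, Ideal.mem_span_pair]
    constructor
    · rintro ⟨w, hw⟩
      obtain ⟨w, rfl⟩ := Ideal.Quotient.mk_surjective w
      rw [LinearMap.lsmul_apply, hsmk, Ideal.Quotient.eq, hI, Ideal.mem_span_singleton'] at hw
      obtain ⟨u, hu⟩ := hw
      exact ⟨-u, w, by linear_combination -hu⟩
    · rintro ⟨u, w, huw⟩
      refine ⟨Ideal.Quotient.mk I w, ?_⟩
      rw [LinearMap.lsmul_apply, hsmk, Ideal.Quotient.eq, hI, Ideal.mem_span_singleton']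
      exact ⟨-u, by linear_combination -huw⟩
  exact ((Submodule.quotEquivOfEq _ _ hgk).trans (g.quotKerEquivOfSurjective hgs)).length_eq

end A13

theorem trans_facts (h1 : SpOnFacts) (ho : SpOrd) : SpTrans := by
  intro k L _ _ _ R hR bl f r hf hgood
  exact a13_main h1 ho hR bl f r hf hgood

end Pool.Agent.H19.UT
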