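import Pool.Agent.H19.UT.Basic
import Pool.Agent.H19.UT.OnF
import Pool.Agent.H19.UT.OdF
import Pool.Agent.H19.UT.FinF
import Pool.Agent.H19.UT.BaseF
import Pool.Agent.H19.UT.DlF
import Pool.Agent.H19.UT.ChartF
import Pool.Agent.H19.UT.BlowX
import Pool.Agent.H19.UT.BlowF
import Pool.Agent.H19.UT.OrdF
import Pool.Agent.H19.UT.EF
import Pool.Agent.H19.UT.LocF
import Pool.Agent.H19.UT.ClF
import Pool.Agent.H19.UT.OeF
import Pool.Agent.H19.UT.TransF
import Pool.Agent.H19.UT.DecF
import Pool.Agent.H19.UT.SumF
import Pool.Agent.H19.UT.ColF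
import Pool.Agent.H19.UT.DlLtF
import Pool.Agent.H19.UT.DegF
import Pool.Agent.H19.UT.CycF

/-!
Project UT, block A: the cycle condition on two-dimensional regular local rings (assembly of the
rows A01 to A19).
-/

set_option autoImplicit false
set_option maxHeartbeats 400000

namespace Pool.Agent.H19.UT

theorem sp_od : SpOD := od_facts on_facts

theorem sp_fin : SpFin := fin_support sp_sm on_facts

theorem sp_base : SpBase := base_cycle sp_sm on_facts sp_od

theorem sp_dl : SpDl := dl_facts on_facts

theorem sp_chart : SpChart := chart_in sp_dl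

theorem sp_blowX : SpBlowX := blow_exists on_facts

theorem sp_blow : SpBlow := blow_generic sp_blowX on_facts

theorem sp_e : SpE := e_facts on_facts ord_facts

theorem sp_cl : SpCl := cl_facts on_facts sp_e loc_facts

theorem sp_oe : SpOE := oe_facts on_facts sp_od sp_e loc_facts sp_cl

theorem sp_trans : SpTrans := trans_facts on_facts ord_facts

theorem sp_decomp : SpDecomp := decomp loc_facts

theorem sp_sum : SpSum := sum_facts on_facts sp_od loc_facts sp_trans sp_decomp

theorem sp_colen : SpColen := colen ord_facts

theorem sp_dlLt : SpDlLt := dl_lt sp_dl ord_facts loc_facts sp_decomp sp_colen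

/-- The cycle condition, without hypotheses. -/
theorem sp_cycle : SpCycle :=
  cycle_all sp_sm on_facts sp_od sp_fin sp_base sp_dl sp_chart sp_blow ord_facts sp_e loc_facts
    sp_cl sp_oe sp_sum sp_dlLt deg_facts

end Pool.Agent.H19.UT
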