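import Pool.Agent.K1.TDefs
import Pool.Agent.K1.TOrd
import Pool.Agent.K1.LocalLength
import Pool.Agent.KM.MilnorDef

/-!
Project UT (Parshin's conjecture for K_1 of uniruled threefolds): definitions (helper19).
-/

set_option autoImplicit false
set_option maxHeartbeats 400000

open Polynomial Pool.Agent.K1

namespace Pool.Agent.H19.UT

section symbols

/-- Formal sums of pairs of units of a field. -/
abbrev Sy (L : Type) [Field L] : Type := FreeAbelianGroup (Lˣ × Lˣ)

/-- The tame symbol (up to sign) at `D`, as a unit of `D` in `L`. -/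
noncomputable def smb {L : Type} [Field L] (D : ValuationSubring L) : Sy L →+ Additive Lˣ :=
  FreeAbelianGroup.lift fun p =>
    Additive.ofMul (p.1 ^ ordV D (p.2 : L) * p.2 ^ (-(ordV D (p.1 : L))))

/-- The tame symbol (up to sign) at `D`, as a unit of `D` in `L`. -/
noncomputable def sm {L : Type} [Field L] (D : ValuationSubring L) (β : Sy L) : Lˣ :=
  Additive.toMul (smb D β)

/-- The residue of `u` at `D` is a root of unity. -/
def TorsV {L : Type} [Field L] (D : ValuationSubring L) (u : Lˣ) : Prop :=
  ∃ n : ℕ, 0 < n ∧ ((u : L) ^ n - 1) ∈ D.nonunits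

/-- Functoriality of `Sy`. -/
noncomputable def Sy.map {L L' : Type} [Field L] [Field L'] (φ : L →+* L') : Sy L →+ Sy L' :=
  FreeAbelianGroup.map (Prod.map (Units.map (φ : L →* L')) (Units.map (φ : L →* L')))

/-- Local data: a section of `K_2(L)/K_2` on the Zariski-Riemann space of `L`, modulo torsion. -/
structure Dat (L : Type) [Field L] where
  m : ℕ
  A : Fin m → Finset L
  β : Fin m → Sy L
  cover : ∀ V : ValuationSubring L, ∃ i, ∀ a ∈ A i, a ∈ V
  compat : ∀ D : ValuationSubring L, IsDiscV D → ∀ i j, (∀ a ∈ A i, a ∈ D) →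
    (∀ a ∈ A j, a ∈ D) → TorsV D (sm D (β i - β j))

namespace Dat

variable {L : Type} [Field L]

/-- An index whose chart contains `V`. -/
noncomputable def idx (d : Dat L) (V : ValuationSubring L) : Fin d.m := (d.cover V).choose

theorem idx_spec (d : Dat L) (V : ValuationSubring L) : ∀ a ∈ d.A (d.idx V), a ∈ V :=
  (d.cover V).choose_spec

/-- The tame symbol of the data at `D` (a unit of `D`). -/
noncomputable def val (d : Dat L) (D : ValuationSubring L) : Lˣ := sm D (d.β (d.idx D))

/-- The tame symbol of the data at `D` is torsion. -/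
def Triv (d : Dat L) (D : ValuationSubring L) : Prop := TorsV D (d.val D)

end Dat

end symbols

section rings

/-- `R` is a two-dimensional regular local subring of `L` with fraction field `L`, which contains
`k`. -/
structure Reg2 (k : Type) {L : Type} [Field k] [Field L] [Algebra k L] (R : Subring L) :
    Prop where
  k_mem : ∀ c : k, algebraMap k L c ∈ R
  frac : ∀ f : L, ∃ a b : R, (b : L) ≠ 0 ∧ f * b = a
  reg : IsRegularLocalRing R
  dim : ringKrullDim R = 2

/-- `D` is the localization of `R` at the prime element `f`. -/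
def OnR {L : Type} [Field L] (R : Subring L) (f : R) (D : ValuationSubring L) : Prop :=
  Prime f ∧ ∀ x : L, x ∈ D ↔ ∃ a b : R, ¬ f ∣ b ∧ x * b = a

/-- `D` is the local ring of a curve of `R`. -/
def On {L : Type} [Field L] (R : Subring L) (D : ValuationSubring L) : Prop :=
  ∃ f : R, OnR R f D

/-- `n` is the order of `u` along the curve `f` of `R`. -/
def IsOR {L : Type} [Field L] (R : Subring L) (f : R) (u : Lˣ) (n : ℤ) : Prop :=
  ∃ a b : R, ¬ f ∣ a ∧ ¬ f ∣ b ∧ (u : L) * b = a ∧
    n = ((len f a).toNat : ℤ) - ((len f b).toNat : ℤ)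

open Classical in
/-- The order of `u` along the curve `D` of `R` (zero if `D` is not on `R`). -/
noncomputable def oD {L : Type} [Field L] (R : Subring L) (D : ValuationSubring L) (u : Lˣ) : ℤ :=
  if h : ∃ (n : ℤ) (f : R), OnR R f D ∧ IsOR R f u n then h.choose else 0

open Classical in
/-- The length of `R / (a, b)`, where `u = a / b` in lowest terms. -/
noncomputable def dl {L : Type} [Field L] (R : Subring L) (u : L) : ℕ :=
  if h : ∃ (n : ℕ) (a b : R), IsRelPrime a b ∧ (b : L) ≠ 0 ∧ u * b = a ∧ n = (len a b).toNat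
    then h.choose else 0

/-- A chart of the blow-up of the closed point of a two-dimensional regular local ring `R` with
parameters `x`, `y`: the ring `B = R[y/x]`, with `B / x = κ[X]`. -/
structure Blow {L : Type} [Field L] (R : Subring L) where
  κ : Type
  fκ : Field κ
  res : R →+* κ
  surj : Function.Surjective res
  unit : ∀ r : R, IsUnit r ↔ res r ≠ 0
  x : R
  y : R
  x0 : (x : L) ≠ 0
  hm : ∀ r : R, res r = 0 ↔ ∃ a b : R, r = a * x + b * y
  B : Subring L
  RB : ∀ r : R, (r : L) ∈ B
  t : B
  ht : (x : L) * (t : L) = y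
  gen : ∀ b : B, ∃ P : R[X], (b : L) = P.eval₂ R.subtype (t : L)
  θ : B →+* κ[X]
  θR : ∀ r : R, θ ⟨r, RB r⟩ = C (res r)
  θt : θ t = X
  θker : ∀ b : B, θ b = 0 ↔ ∃ c : B, (b : L) = x * c

attribute [instance] Blow.fκ

namespace Blow

variable {L : Type} [Field L] {R : Subring L}

/-- `E` is the exceptional divisor. -/
def IsE (bl : Blow R) (E : ValuationSubring L) : Prop :=
  ∀ z : L, z ∈ E ↔ ∃ a b : bl.B, bl.θ b ≠ 0 ∧ z * b = a

/-- `R'` is the local ring of the point `π = 0` of the exceptional divisor. -/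
def IsLoc (bl : Blow R) (π : bl.κ[X]) (R' : Subring L) : Prop :=
  ∀ z : L, z ∈ R' ↔ ∃ a b : bl.B, ¬ π ∣ bl.θ b ∧ z * b = a

/-- The local ring of the point `π = 0` of the exceptional divisor. -/
noncomputable def loc (bl : Blow R) (π : bl.κ[X]) : Subring L :=
  Subring.closure {z : L | ∃ a b : bl.B, ¬ π ∣ bl.θ b ∧ z * b = a}

/-- The monic irreducible polynomials: the points of the chart. -/
def Pt (bl : Blow R) (π : bl.κ[X]) : Prop := π.Monic ∧ Irreducible π

/-- `f` has order `r` at the closed point, and the curve `f` does not meet the exceptional divisor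
at infinity. -/
def Good (bl : Blow R) (f : R) (r : ℕ) : Prop :=
  ∃ c : ℕ → R, f = ∑ i ∈ Finset.range (r + 1), c i * bl.x ^ (r - i) * bl.y ^ i ∧ IsUnit (c r)

/-- `f` has order at least `r` at the closed point. -/
def OrdGe (bl : Blow R) (f : R) (r : ℕ) : Prop :=
  ∃ c : ℕ → R, f = ∑ i ∈ Finset.range (r + 1), c i * bl.x ^ (r - i) * bl.y ^ i

end Blow

end rings

section fields

/-- `τ` is a coordinate of the rational function field `L` over `K`. -/
def Coord (K L : Type) [Field K] [Field L] [Algebra K L] (τ : L) : Prop :=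
  Transcendental K τ ∧ ∀ f : L, ∃ P Q : K[X], aeval τ Q ≠ 0 ∧ f * aeval τ Q = aeval τ P

/-- `E` is the Gauss valuation ring over the valuation ring `s` for the coordinate `τ`. -/
def IsGauss {K L : Type} [Field K] [Field L] [Algebra K L] (s : ValuationSubring K) (τ : L)
    (E : ValuationSubring L) : Prop :=
  ∀ P : K[X], (∀ n, P.coeff n ∈ s) →
    aeval τ P ∈ E ∧ (aeval τ P ∈ E.nonunits ↔ ∀ n, P.coeff n ∈ s.nonunits)

/-- All finite horizontal divisors are trivial for the data `d`. -/
def HDat {K L : Type} [Field K] [Field L] [Algebra K L] (τ : L) (d : Dat L) : Prop :=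
  ∀ D : ValuationSubring L, IsDiscV D → (∀ a : K, algebraMap K L a ∈ D) → τ ∈ D → d.Triv D

/-- `g` is the value of the data at the Gauss valuation over `s` for the coordinate `τ`. -/
def IsG {K L : Type} [Field K] [Field L] [Algebra K L] (d : Dat L) (τ : L)
    (s : ValuationSubring K) (g : Kˣ) : Prop :=
  UnitIn s g ∧ ∀ E : ValuationSubring L, IsGauss s τ E →
    TorsV E (d.val E * (Units.map (algebraMap K L : K →* L) g)⁻¹)

end fields

end Pool.Agent.H19.UT
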