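import Pool.Agent.H19.UT.SpB

/-!
Project UT, row B03: Gauss valuations (helper33).
-/

set_option autoImplicit false
set_option maxHeartbeats 400000

open Polynomial Pool.Agent.K1

namespace Pool.Agent.H19.UT

section b03

variable {K L : Type} [Field K] [Field L] [Algebra K L]

theorem b03_evR (s : ValuationSubring K) (τ : L) (P : (s.toSubring)[X]) :
    evR s.toSubring τ P = aeval τ (P.map s.toSubring.subtype) := by
  unfold evR
  rw [coe_eval₂RingHom, aeval_def, eval₂_map]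

theorem b03_inj {τ : L} (hτ : Coord K L τ) (s : ValuationSubring K) :
    Function.Injective (evR s.toSubring τ) := by
  intro P Q h
  rw [b03_evR, b03_evR] at h
  have h1 := (transcendental_iff_injective.1 hτ.1) h
  exact Polynomial.map_injective _ Subtype.val_injective h1

theorem b03_ne {τ : L} (hτ : Coord K L τ) (s : ValuationSubring K) {Q : (s.toSubring)[X]}
    (hQ : redP s Q ≠ 0) : evR s.toSubring τ Q ≠ 0 := by
  intro h
  apply hQ
  have h1 : Q = 0 := b03_inj hτ s (by rw [h, map_zero])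
  rw [h1, map_zero]

theorem b03_red_coeff (s : ValuationSubring K) (P : (s.toSubring)[X]) :
    redP s P = 0 ↔ ∀ n, ((P.coeff n : s.toSubring) : K) ∈ s.nonunits := by
  rw [Polynomial.ext_iff]
  refine forall_congr' fun n => ?_
  have h1 : (redP s P).coeff n = IsLocalRing.residue s (P.coeff n) := by
    unfold redP
    rw [coe_mapRingHom, coeff_map]
  rw [h1, coeff_zero, IsLocalRing.residue_eq_zero_iff]
  exact (s.coe_mem_nonunits_iff (a := P.coeff n)).symm

/-- a nonzero polynomial is a power of the uniformizer times a polynomial with nonzero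
reduction -/
theorem b03_prim {s : ValuationSubring K} {ϖ : K} (hϖ : IsUnifV s ϖ)
    (hs : ∀ t : K, t ≠ 0 → ∃ (n : ℤ) (u : Kˣ), UnitIn s u ∧ t = ϖ ^ n * u) {P : K[X]}
    (hP : P ≠ 0) :
    ∃ (n : ℤ) (P' : (s.toSubring)[X]), redP s P' ≠ 0 ∧
      P = C (ϖ ^ n) * P'.map s.toSubring.subtype := by
  classical
  have hd : IsDiscV s := ⟨ϖ, hϖ, hs⟩
  obtain ⟨i, hi, him⟩ := Finset.exists_min_image P.support (fun i => ordV s (P.coeff i))
    (by rwa [Finset.nonempty_iff_ne_empty, Ne, Polynomial.support_eq_empty])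
  have hci : P.coeff i ≠ 0 := mem_support_iff.1 hi
  have hne : ∀ n : ℤ, ϖ ^ n ≠ 0 := fun n => zpow_ne_zero n hϖ.1
  have hord : ∀ n : ℤ, ordV s (ϖ ^ n) = n := by
    intro n
    have h1 : UnitIn s (1 : Kˣ) := ⟨by rw [Units.val_one]; exact s.one_mem,
      by rw [inv_one, Units.val_one]; exact s.one_mem⟩
    have h2 := ordV_eq (n := n) hϖ h1
    rwa [Units.val_one, mul_one] at h2
  set m := ordV s (P.coeff i) with hm
  have hmem : ∀ j, (C (ϖ ^ (-m)) * P).coeff j ∈ s := by
    intro j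
    rw [coeff_C_mul]
    by_cases hj : P.coeff j = 0
    · rw [hj, mul_zero]; exact s.zero_mem
    · rw [mem_iff_ordV hd (mul_ne_zero (hne _) hj), ordV_mul hd (hne _) hj, hord]
      have := him j (mem_support_iff.2 hj)
      omega
  have hsub : (↑(C (ϖ ^ (-m)) * P).coeffs : Set K) ⊆ s.toSubring := by
    intro x hx
    obtain ⟨j, hj, rfl⟩ := mem_coeffs_iff.1 (Finset.mem_coe.1 hx)
    exact hmem j
  refine ⟨m, (C (ϖ ^ (-m)) * P).toSubring s.toSubring hsub, ?_, ?_⟩
  · intro h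
    rw [b03_red_coeff] at h
    have h1 := h i
    rw [coeff_toSubring, coeff_C_mul, nonunits_iff_ordV hd (mul_ne_zero (hne _) hci),
      ordV_mul hd (hne _) hci, hord] at h1
    omega
  · rw [show (C (ϖ ^ (-m)) * P).toSubring s.toSubring hsub = _ from rfl]
    have h1 : ((C (ϖ ^ (-m)) * P).toSubring s.toSubring hsub).map s.toSubring.subtype =
        C (ϖ ^ (-m)) * P := by
      ext j
      rw [coeff_map]
      exact coeff_toSubring _ _ hsub
    rw [h1, ← mul_assoc, ← C_mul, ← zpow_add₀ hϖ.1, add_neg_cancel, zpow_zero, C_1, one_mul]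

theorem b03_mul {s : ValuationSubring K} {P Q : (s.toSubring)[X]} (hP : redP s P ≠ 0)
    (hQ : redP s Q ≠ 0) : redP s (P * Q) ≠ 0 := by
  rw [map_mul]
  exact mul_ne_zero hP hQ

/-- the Gauss valuation ring -/
noncomputable def gaussV {τ : L} (hτ : Coord K L τ) {s : ValuationSubring K} (hs : IsDiscV s) :
    ValuationSubring L where
  carrier := {z | ∃ P Q : (s.toSubring)[X], redP s Q ≠ 0 ∧
    z * evR s.toSubring τ Q = evR s.toSubring τ P}
  mul_mem' := by
    rintro x y ⟨P, Q, hQ, h⟩ ⟨P', Q', hQ', h'⟩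
    refine ⟨P * P', Q * Q', b03_mul hQ hQ', ?_⟩
    rw [map_mul, map_mul, ← h, ← h']
    ring
  one_mem' := ⟨1, 1, by rw [map_one]; exact one_ne_zero, by rw [map_one, one_mul]⟩
  add_mem' := by
    rintro x y ⟨P, Q, hQ, h⟩ ⟨P', Q', hQ', h'⟩
    refine ⟨P * Q' + P' * Q, Q * Q', b03_mul hQ hQ', ?_⟩
    rw [map_mul, map_add, map_mul, map_mul, ← h, ← h']
    ring
  zero_mem' := ⟨0, 1, by rw [map_one]; exact one_ne_zero, by rw [map_zero, zero_mul]⟩
  neg_mem' := by
    rintro x ⟨P, Q, hQ, h⟩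
    refine ⟨-P, Q, hQ, ?_⟩
    rw [map_neg, ← h]
    ring
  mem_or_inv_mem' := by
    intro z
    by_cases hz : z = 0
    · left
      rw [hz]
      exact ⟨0, 1, by rw [map_one]; exact one_ne_zero, by rw [map_zero, zero_mul]⟩
    obtain ⟨ϖ, hϖ, hs'⟩ := hs
    obtain ⟨P, Q, hQ, h⟩ := hτ.2 z
    have hQ0 : Q ≠ 0 := by
      rintro rfl
      exact hQ (map_zero _)
    have hP0 : P ≠ 0 := by
      rintro rfl
      rw [map_zero] at h
      exact (mul_ne_zero hz hQ) h
    obtain ⟨a, P', hP', rfl⟩ := b03_prim hϖ hs' hP0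
    obtain ⟨b, Q', hQ', rfl⟩ := b03_prim hϖ hs' hQ0
    rw [map_mul, map_mul, aeval_C, aeval_C, ← b03_evR, ← b03_evR] at h
    have hinj : Function.Injective (algebraMap K L) := (algebraMap K L).injective
    have h0 : algebraMap K L ϖ ≠ 0 := (_root_.map_ne_zero _).2 hϖ.1
    have hpm : ∀ n : ℕ, ϖ ^ n ∈ s := fun n => s.pow_mem (tord_unif_mem hϖ).1 n
    rw [map_zpow₀, map_zpow₀] at h
    rcases le_total b a with hab | hab
    · left
      obtain ⟨n, hn⟩ := Int.le.dest hab
      refine ⟨C ⟨ϖ ^ n, hpm n⟩ * P', Q', hQ', ?_⟩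
      have h1 : evR s.toSubring τ (C ⟨ϖ ^ n, hpm n⟩) = (algebraMap K L ϖ) ^ n := by
        rw [b03_evR, map_C, aeval_C]
        change algebraMap K L (ϖ ^ n) = _
        rw [map_pow]
      rw [map_mul, h1]
      have h2 : (algebraMap K L ϖ) ^ b ≠ 0 := zpow_ne_zero _ h0
      apply mul_left_cancel₀ h2
      have h3 : (algebraMap K L ϖ) ^ b * ((algebraMap K L ϖ) ^ n) = (algebraMap K L ϖ) ^ a := by
        rw [← hn, zpow_add₀ h0, zpow_natCast]
      rw [← mul_assoc ((algebraMap K L ϖ) ^ b) ((algebraMap K L ϖ) ^ n), h3, ← h]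
      ring
    · right
      obtain ⟨n, hn⟩ := Int.le.dest hab
      refine ⟨C ⟨ϖ ^ n, hpm n⟩ * Q', P', hP', ?_⟩
      have h1 : evR s.toSubring τ (C ⟨ϖ ^ n, hpm n⟩) = (algebraMap K L ϖ) ^ n := by
        rw [b03_evR, map_C, aeval_C]
        change algebraMap K L (ϖ ^ n) = _
        rw [map_pow]
      rw [map_mul, h1, inv_mul_eq_iff_eq_mul₀ hz]
      have h2 : (algebraMap K L ϖ) ^ a ≠ 0 := zpow_ne_zero _ h0
      apply mul_left_cancel₀ h2
      have h3 : (algebraMap K L ϖ) ^ a * ((algebraMap K L ϖ) ^ n) = (algebraMap K L ϖ) ^ b := by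
        rw [← hn, zpow_add₀ h0, zpow_natCast]
      rw [← h]
      have h4 : (algebraMap K L ϖ) ^ a * (z * ((algebraMap K L ϖ) ^ n *
          evR s.toSubring τ Q')) = z * (((algebraMap K L ϖ) ^ a * (algebraMap K L ϖ) ^ n) *
          evR s.toSubring τ Q') := by ring
      rw [h4, h3]

theorem mem_gaussV {τ : L} (hτ : Coord K L τ) {s : ValuationSubring K} (hs : IsDiscV s) (z : L) :
    z ∈ gaussV hτ hs ↔ ∃ P Q : (s.toSubring)[X], redP s Q ≠ 0 ∧
      z * evR s.toSubring τ Q = evR s.toSubring τ P := Iff.rfl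

/-- the Gauss property for polynomials over the valuation ring -/
theorem b03_isGauss_iff (s : ValuationSubring K) (τ : L) (E : ValuationSubring L) :
    IsGauss s τ E ↔ ∀ P : (s.toSubring)[X], evR s.toSubring τ P ∈ E ∧
      (evR s.toSubring τ P ∈ E.nonunits ↔ redP s P = 0) := by
  constructor
  · intro h P
    have h1 := h (P.map s.toSubring.subtype) (fun n => by
      rw [coeff_map]; exact (P.coeff n).2)
    rw [← b03_evR] at h1
    refine ⟨h1.1, h1.2.trans ?_⟩
    rw [b03_red_coeff]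
    refine forall_congr' fun n => ?_
    rw [coeff_map]
    rfl
  · intro h P hP
    have hsub : (↑P.coeffs : Set K) ⊆ s.toSubring := by
      intro x hx
      obtain ⟨j, hj, rfl⟩ := mem_coeffs_iff.1 (Finset.mem_coe.1 hx)
      exact hP j
    have h1 : (P.toSubring s.toSubring hsub).map s.toSubring.subtype = P := by
      ext j
      rw [coeff_map]
      exact coeff_toSubring _ _ hsub
    have h2 := h (P.toSubring s.toSubring hsub)
    rw [b03_evR, h1, b03_red_coeff] at h2
    refine ⟨h2.1, h2.2.trans ?_⟩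
    refine forall_congr' fun n => ?_
    rw [coeff_toSubring]

theorem b03_ev_mem {τ : L} (hτ : Coord K L τ) {s : ValuationSubring K} (hs : IsDiscV s)
    (P : (s.toSubring)[X]) : evR s.toSubring τ P ∈ gaussV hτ hs :=
  ⟨P, 1, by rw [map_one]; exact one_ne_zero, by rw [map_one, mul_one]⟩

theorem b03_nonunits {τ : L} (hτ : Coord K L τ) {s : ValuationSubring K} (hs : IsDiscV s)
    (P : (s.toSubring)[X]) :
    evR s.toSubring τ P ∈ (gaussV hτ hs).nonunits ↔ redP s P = 0 := by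
  rw [tord_nonunits_iff]
  constructor
  · rintro (h | ⟨-, h⟩)
    · have h1 : P = 0 := b03_inj hτ s (by rw [h, map_zero])
      rw [h1, map_zero]
    · by_contra hP
      exact h ⟨1, P, hP, by rw [map_one, inv_mul_cancel₀ (b03_ne hτ s hP)]⟩
  · intro h
    by_cases h0 : evR s.toSubring τ P = 0
    · exact Or.inl h0
    right
    refine ⟨b03_ev_mem hτ hs P, ?_⟩
    rintro ⟨P1, Q1, hQ1, h1⟩
    rw [inv_mul_eq_iff_eq_mul₀ h0, ← map_mul] at h1
    have h2 := b03_inj hτ s h1
    apply hQ1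
    rw [h2, map_mul, h, zero_mul]

theorem b03_gauss {τ : L} (hτ : Coord K L τ) {s : ValuationSubring K} (hs : IsDiscV s) :
    IsGauss s τ (gaussV hτ hs) := by
  rw [b03_isGauss_iff]
  exact fun P => ⟨b03_ev_mem hτ hs P, b03_nonunits hτ hs P⟩

theorem b03_inv_mem {E : ValuationSubring L} {x : L} (hx : x ∈ E) (hn : x ∉ E.nonunits) :
    x⁻¹ ∈ E := by
  by_contra h
  exact hn (tord_nonunits_iff.2 (Or.inr ⟨hx, h⟩))

theorem b03_unique {τ : L} (hτ : Coord K L τ) {s : ValuationSubring K} (hs : IsDiscV s)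
    {E : ValuationSubring L} (hE : IsGauss s τ E) : E = gaussV hτ hs := by
  rw [b03_isGauss_iff] at hE
  have h1 : ∀ z ∈ gaussV hτ hs, z ∈ E := by
    rintro z ⟨P, Q, hQ, h⟩
    have h2 : (evR s.toSubring τ Q)⁻¹ ∈ E :=
      b03_inv_mem (hE Q).1 (fun h => hQ ((hE Q).2.1 h))
    have h3 : z = evR s.toSubring τ P * (evR s.toSubring τ Q)⁻¹ := by
      rw [← h, mul_assoc, mul_inv_cancel₀ (b03_ne hτ s hQ), mul_one]
    rw [h3]
    exact E.mul_mem _ _ (hE P).1 h2
  ext z
  refine ⟨fun hz => ?_, h1 z⟩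
  by_contra hz'
  rcases (gaussV hτ hs).mem_or_inv_mem z with h2 | h2
  · exact hz' h2
  · obtain ⟨P, Q, hQ, h⟩ := h2
    have hz0 : z ≠ 0 := by
      rintro rfl
      exact hz' (gaussV hτ hs).zero_mem
    have hP : redP s P = 0 := by
      by_contra hP
      apply hz'
      refine ⟨Q, P, hP, ?_⟩
      rw [← h, ← mul_assoc, mul_inv_cancel₀ hz0, one_mul]
    have h3 : evR s.toSubring τ Q = z * evR s.toSubring τ P := by
      rw [← h, ← mul_assoc, mul_inv_cancel₀ hz0, one_mul]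
    apply hQ
    rw [← (hE Q).2, h3]
    exact nonunits_mul hz ((hE P).2.2 hP)

theorem b03_algMap {τ : L} (s : ValuationSubring K) {a : K} (ha : a ∈ s) :
    evR s.toSubring τ (C ⟨a, ha⟩) = algebraMap K L a := by
  rw [b03_evR, map_C, aeval_C]
  rfl

theorem b03_red_C (s : ValuationSubring K) {a : K} (ha : a ∈ s) :
    redP s (C ⟨a, ha⟩) = 0 ↔ a ∈ s.nonunits := by
  rw [b03_red_coeff]
  constructor
  · intro h
    have := h 0
    rwa [coeff_C_zero] at this
  · intro h n
    rw [coeff_C]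
    split_ifs
    · exact h
    · exact s.nonunits.zero_mem

theorem b03_disc {τ : L} (hτ : Coord K L τ) {s : ValuationSubring K} (hs : IsDiscV s) {ϖ : K}
    (hϖ : IsUnifV s ϖ) : IsUnifV (gaussV hτ hs) (algebraMap K L ϖ) := by
  have hm := (tord_unif_mem hϖ).1
  refine ⟨(_root_.map_ne_zero _).2 hϖ.1, fun x => ⟨fun hx => ?_, ?_⟩⟩
  · obtain ⟨P, Q, hQ, h⟩ := ValuationSubring.nonunits_subset hx
    have hP : redP s P = 0 := by
      rw [← b03_nonunits hτ hs, ← h, mul_comm]
      exact nonunits_mul (b03_ev_mem hτ hs Q) hx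
    rw [b03_red_coeff] at hP
    choose c hc hc' using fun n => (hϖ.2 _).1 (hP n)
    have hP1 : P = C ⟨ϖ, hm⟩ * (∑ n ∈ P.support, monomial n (⟨c n, hc n⟩ : s.toSubring)) := by
      ext n
      rw [coeff_C_mul, finsetSum_coeff]
      simp only [coeff_monomial]
      rw [Finset.sum_ite_eq']
      by_cases hn : n ∈ P.support
      · rw [if_pos hn]
        exact hc' n
      · rw [if_neg hn, mul_zero, notMem_support_iff.1 hn]
    refine ⟨evR s.toSubring τ (∑ n ∈ P.support, monomial n (⟨c n, hc n⟩ : s.toSubring)) *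
      (evR s.toSubring τ Q)⁻¹, ?_, ?_⟩
    · exact ⟨_, Q, hQ, by rw [mul_assoc, inv_mul_cancel₀ (b03_ne hτ s hQ), mul_one]⟩
    · rw [← mul_assoc, ← b03_algMap (τ := τ) s hm, ← map_mul, ← hP1, ← h, mul_assoc,
        mul_inv_cancel₀ (b03_ne hτ s hQ), mul_one]
  · rintro ⟨c, hc, rfl⟩
    rw [mul_comm]
    refine nonunits_mul hc ?_
    rw [← b03_algMap (τ := τ) s hm, b03_nonunits, b03_red_C]
    exact tord_unif_nonunit hϖ

theorem b03_comap {τ : L} (hτ : Coord K L τ) {s : ValuationSubring K} (hs : IsDiscV s) :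
    (gaussV hτ hs).comap (algebraMap K L) = s := by
  ext a
  rw [ValuationSubring.mem_comap]
  have h1 : ∀ b ∈ s, algebraMap K L b ∈ gaussV hτ hs := by
    intro b hb
    rw [← b03_algMap (τ := τ) s hb]
    exact b03_ev_mem hτ hs _
  refine ⟨fun h => ?_, h1 a⟩
  by_contra ha
  rcases s.mem_or_inv_mem a with h2 | h2
  · exact ha h2
  · have ha0 : a ≠ 0 := by
      rintro rfl
      exact ha s.zero_mem
    have h3 : a⁻¹ ∈ s.nonunits := tord_nonunits_iff.2 (Or.inr ⟨h2, by rwa [inv_inv]⟩)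
    have h4 : algebraMap K L a⁻¹ ∈ (gaussV hτ hs).nonunits := by
      rw [← b03_algMap (τ := τ) s h2, b03_nonunits, b03_red_C]
      exact h3
    rcases tord_nonunits_iff.1 h4 with h5 | h5
    · exact (inv_ne_zero ha0) ((map_eq_zero _).1 h5)
    · apply h5.2
      rwa [map_inv₀, inv_inv]

theorem b03_unit {τ : L} (hτ : Coord K L τ) {s : ValuationSubring K} (hs : IsDiscV s) {u : Kˣ}
    (hu : UnitIn s u) : UnitIn (gaussV hτ hs) (Units.map (algebraMap K L : K →* L) u) := by
  have h1 : ∀ b ∈ s, algebraMap K L b ∈ gaussV hτ hs := by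
    intro b hb
    rw [← b03_algMap (τ := τ) s hb]
    exact b03_ev_mem hτ hs _
  refine ⟨h1 _ hu.1, ?_⟩
  rw [← map_inv]
  exact h1 _ hu.2

theorem b03_isDisc {τ : L} (hτ : Coord K L τ) {s : ValuationSubring K} (hs : IsDiscV s) :
    IsDiscV (gaussV hτ hs) := by
  obtain ⟨ϖ, hϖ, hs'⟩ := id hs
  refine ⟨algebraMap K L ϖ, b03_disc hτ hs hϖ, fun z hz => ?_⟩
  obtain ⟨P, Q, hQ, h⟩ := hτ.2 z
  have hQ0 : Q ≠ 0 := by
    rintro rfl
    exact hQ (map_zero _)
  have hP0 : P ≠ 0 := by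
    rintro rfl
    rw [map_zero] at h
    exact (mul_ne_zero hz hQ) h
  obtain ⟨a, P', hP', rfl⟩ := b03_prim hϖ hs' hP0
  obtain ⟨b, Q', hQ', rfl⟩ := b03_prim hϖ hs' hQ0
  rw [map_mul, map_mul, aeval_C, aeval_C, ← b03_evR, ← b03_evR, map_zpow₀, map_zpow₀] at h
  have h0 : algebraMap K L ϖ ≠ 0 := (_root_.map_ne_zero _).2 hϖ.1
  have hP1 := b03_ne hτ s hP'
  have hQ1 := b03_ne hτ s hQ'
  refine ⟨a - b, Units.mk0 (evR s.toSubring τ P' * (evR s.toSubring τ Q')⁻¹)
    (mul_ne_zero hP1 (inv_ne_zero hQ1)), ⟨?_, ?_⟩, ?_⟩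
  · exact ⟨P', Q', hQ', by rw [Units.val_mk0, mul_assoc, inv_mul_cancel₀ hQ1, mul_one]⟩
  · refine ⟨Q', P', hP', ?_⟩
    rw [Units.val_inv_eq_inv_val, Units.val_mk0, mul_inv, inv_inv, mul_comm _⁻¹, mul_assoc,
      inv_mul_cancel₀ hP1, mul_one]
  · rw [Units.val_mk0, zpow_sub₀ h0]
    field_simp
    have h2 : z * (algebraMap K L ϖ ^ b * evR s.toSubring τ Q') =
      algebraMap K L ϖ ^ a * evR s.toSubring τ P' := h
    rw [← h2]
    ring

theorem b03_ord {τ : L} (hτ : Coord K L τ) {s : ValuationSubring K} (hs : IsDiscV s) (f : Kˣ) :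
    ordV (gaussV hτ hs) (algebraMap K L f) = ordV s (f : K) := by
  obtain ⟨ϖ, hϖ, hs'⟩ := id hs
  obtain ⟨n, u, hu, h⟩ := hs' f (Units.ne_zero f)
  rw [h, ordV_eq hϖ hu, map_mul, map_zpow₀]
  exact ordV_eq (b03_disc hτ hs hϖ) (b03_unit hτ hs hu)

/-- affine changes of the coordinate -/
theorem b03_affine {τ : L} {s : ValuationSubring K} {E : ValuationSubring L}
    (hE : IsGauss s τ E) {a c : K} (ha : a ∈ s) (hc0 : c ≠ 0) (hc : c ∈ s) (hci : c⁻¹ ∈ s) :
    IsGauss s ((τ - algebraMap K L a) / algebraMap K L c) E := by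
  rw [b03_isGauss_iff] at hE ⊢
  intro P
  set q : (s.toSubring)[X] := C ⟨c⁻¹, hci⟩ * (X - C ⟨a, ha⟩) with hq
  have h1 : evR s.toSubring ((τ - algebraMap K L a) / algebraMap K L c) P =
      evR s.toSubring τ (P.comp q) := by
    have h2 : evR s.toSubring τ q = (τ - algebraMap K L a) / algebraMap K L c := by
      rw [hq, map_mul, map_sub, b03_algMap, b03_algMap, map_inv₀]
      have h3 : evR s.toSubring τ X = τ := by
        unfold evR
        rw [coe_eval₂RingHom, eval₂_X]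
      rw [h3, mul_comm, div_eq_mul_inv]
    rw [← h2]
    unfold evR
    rw [coe_eval₂RingHom, coe_eval₂RingHom, eval₂_comp]
  have h2 : redP s (P.comp q) = (redP s P).comp (redP s q) := by
    unfold redP
    rw [coe_mapRingHom, map_comp]
  have h3 : redP s q = C (IsLocalRing.residue s ⟨c⁻¹, hci⟩) *
      (X - C (IsLocalRing.residue s ⟨a, ha⟩)) := by
    unfold redP
    rw [hq, coe_mapRingHom, Polynomial.map_mul, Polynomial.map_sub, map_C, map_C, map_X]
  have h4 : IsLocalRing.residue s ⟨c⁻¹, hci⟩ ≠ 0 := by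
    intro h
    have h5 : IsLocalRing.residue s (⟨c⁻¹, hci⟩ * ⟨c, hc⟩) = 0 := by
      rw [map_mul, h, zero_mul]
    have h6 : (⟨c⁻¹, hci⟩ * ⟨c, hc⟩ : s) = 1 := Subtype.ext (inv_mul_cancel₀ hc0)
    rw [h6, map_one] at h5
    exact one_ne_zero h5
  have h5 : redP s (P.comp q) = 0 ↔ redP s P = 0 := by
    rw [h2]
    constructor
    · intro h
      rcases comp_eq_zero_iff.1 h with h6 | ⟨-, h6⟩
      · exact h6
      · exfalso
        have h7 := congrArg (fun f => coeff f 1) h6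
        simp only [coeff_C_succ] at h7
        rw [h3, coeff_C_mul, coeff_sub, coeff_X_one, coeff_C_succ, sub_zero, mul_one] at h7
        exact h4 h7
    · intro h
      rw [h, zero_comp]
  rw [h1, ← h5]
  exact hE _

/-- inversion of the coordinate -/
theorem b03_inv {τ : L} (hτ : Coord K L τ) {s : ValuationSubring K} {E : ValuationSubring L}
    (hE : IsGauss s τ E) : IsGauss s τ⁻¹ E := by
  rw [b03_isGauss_iff] at hE ⊢
  have hX : evR s.toSubring τ X = τ := by
    unfold evR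
    rw [coe_eval₂RingHom, eval₂_X]
  have hXr : redP s (X : (s.toSubring)[X]) = X := by
    unfold redP
    rw [coe_mapRingHom, map_X]
  have hτE : τ ∈ E := by
    have := (hE X).1
    rwa [hX] at this
  have hτn : τ ∉ E.nonunits := by
    intro h
    have h1 := (hE X).2.1 (by rwa [hX])
    rw [hXr] at h1
    exact X_ne_zero h1
  have hτ0 : τ ≠ 0 := by
    rintro rfl
    exact hτn E.nonunits.zero_mem
  have hτi : τ⁻¹ ∈ E := b03_inv_mem hτE hτn
  intro P
  have hinv : Invertible τ := invertibleOfNonzero hτ0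
  set N := P.natDegree with hN
  have h1 : evR s.toSubring τ⁻¹ P * τ ^ N = evR s.toSubring τ (reflect N P) := by
    have h2 := eval₂_reflect_mul_pow ((algebraMap K L).comp s.toSubring.subtype) τ N
      (reflect N P) (by
        rw [natDegree_le_iff_coeff_eq_zero]
        intro j hj
        rw [coeff_reflect]
        have h3 : revAt N j = j := by
          rw [revAt_eq_self_of_lt hj]
        rw [h3]
        exact coeff_eq_zero_of_natDegree_lt (by rw [← hN]; exact hj))
    rw [reflect_reflect, invOf_eq_inv] at h2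
    unfold evR
    rw [coe_eval₂RingHom, coe_eval₂RingHom]
    exact h2
  have h2 : evR s.toSubring τ⁻¹ P = (τ⁻¹) ^ N * evR s.toSubring τ (reflect N P) := by
    rw [← h1, inv_pow, mul_comm (evR s.toSubring τ⁻¹ P), ← mul_assoc,
      inv_mul_cancel₀ (pow_ne_zero _ hτ0), one_mul]
  have h3 : redP s (reflect N P) = 0 ↔ redP s P = 0 := by
    unfold redP
    rw [coe_mapRingHom, ← reflect_map, reflect_eq_zero_iff]
  refine ⟨?_, ?_⟩
  · rw [h2]
    exact E.mul_mem _ _ (E.pow_mem hτi N) (hE _).1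
  · rw [← h3, ← (hE (reflect N P)).2]
    constructor
    · intro h
      rw [← h1, mul_comm]
      exact nonunits_mul (E.pow_mem hτE N) h
    · intro h
      rw [h2]
      exact nonunits_mul (E.pow_mem hτi N) h

end b03

theorem sp_gauss : SpGauss := by
  intro K L _ _ _ τ hτ s hs
  refine ⟨⟨gaussV hτ hs, b03_gauss hτ hs⟩, fun E E' hE hE' =>
    (b03_unique hτ hs hE).trans (b03_unique hτ hs hE').symm, fun E hE => ?_⟩
  have hE' := b03_unique hτ hs hE
  refine ⟨hE' ▸ b03_isDisc hτ hs, hE' ▸ b03_comap hτ hs, fun f => ?_, fun z => ?_, fun P => ?_,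
    fun a c ha hc0 hc hci => b03_affine hE ha hc0 hc hci, b03_inv hτ hE⟩
  · rw [hE']
    exact b03_ord hτ hs f
  · rw [hE']
    exact mem_gaussV hτ hs z
  · rw [hE']
    exact b03_nonunits hτ hs P

end Pool.Agent.H19.UT
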