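import Pool.Agent.H19.UT.SpC

/-!
Project UT, row D05: Gauss valuations restrict to Gauss valuations (helper84).
-/

set_option autoImplicit false
set_option maxHeartbeats 400000

open Polynomial Pool.Agent.K1

namespace Pool.Agent.H19.UT

theorem D05_nonunits {F : Type} [Field F] (A : ValuationSubring F) (x : F) :
    x ∈ A.nonunits ↔ x = 0 ∨ x⁻¹ ∉ A := by
  rw [ValuationSubring.mem_nonunits_iff]
  by_cases hx : x = 0
  · simp [hx]
  · have h0 : A.valuation x ≠ 0 := (Valuation.ne_zero_iff _).2 hx
    rw [← ValuationSubring.valuation_le_one_iff, map_inv₀, inv_le_one₀ (zero_lt_iff.2 h0), not_le]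
    simp [hx]

theorem D05_comap {F F' : Type} [Field F] [Field F'] (A : ValuationSubring F') (φ : F →+* F')
    (x : F) : x ∈ (A.comap φ).nonunits ↔ φ x ∈ A.nonunits := by
  rw [D05_nonunits, D05_nonunits, ValuationSubring.mem_comap, map_inv₀, map_eq_zero]

theorem sp_gaussres : SpGaussRes := by
  intro K L K2 L2 _ _ _ _ _ _ _ φ τ hφ s E h P hP
  have hev : φ (aeval τ P) = aeval (φ τ) (P.map (algebraMap K K2)) := by
    have h0 : φ.comp (algebraMap K L) = (algebraMap K2 L2).comp (algebraMap K K2) :=
      RingHom.ext hφ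
    rw [aeval_def, aeval_def, hom_eval₂, eval₂_map, h0]
  have h1 := h (P.map (algebraMap K K2)) (fun n => by
    rw [coeff_map]
    exact ValuationSubring.mem_comap.1 (hP n))
  refine ⟨?_, ?_⟩
  · rw [ValuationSubring.mem_comap, hev]
    exact h1.1
  · rw [D05_comap, hev, h1.2]
    refine forall_congr' (fun n => ?_)
    rw [coeff_map, D05_comap]

end Pool.Agent.H19.UT
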