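import Pool.Agent.H19.UT.SpC

/-!
Project UT, row C05: finiteness on a surface (helper64).
-/

set_option autoImplicit false
set_option maxHeartbeats 400000

open Polynomial Pool.Agent.K1

namespace Pool.Agent.H19.UT

section c05

variable {K L : Type} [Field K] [Field L] [Algebra K L]

/-- the nonzero coefficients of a polynomial, as units -/
def c05_co (P : K[X]) : Set Kˣ := {c : Kˣ | (c : K) ∈ P.coeff '' (P.support : Set ℕ)}

theorem c05_co_fin (P : K[X]) : (c05_co P).Finite :=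
  Set.Finite.preimage (Units.val_injective.injOn) ((P.support.finite_toSet).image _)

theorem c05_not_nonunit {v : ValuationSubring K} {c : Kˣ} (h : UnitIn v c) :
    (c : K) ∉ v.nonunits := by
  rw [tord_nonunits_iff]
  rintro (h1 | ⟨_, h2⟩)
  · exact c.ne_zero h1
  · apply h2
    have h3 := h.2
    rwa [Units.val_inv_eq_inv_val] at h3

theorem c05_poly {s : ValuationSubring K} {τ : L} {E : ValuationSubring L}
    (hE : IsGauss s τ E) {P : K[X]} (hP : P ≠ 0) (h : ∀ c ∈ c05_co P, UnitIn s c) :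
    aeval τ P ∈ E ∧ aeval τ P ∉ E.nonunits := by
  have h1 : ∀ n, P.coeff n ≠ 0 → ∃ c : Kˣ, (c : K) = P.coeff n ∧ UnitIn s c := fun n hn =>
    ⟨Units.mk0 _ hn, rfl, h _ ⟨n, by simpa using hn, rfl⟩⟩
  have h2 : ∀ n, P.coeff n ∈ s := by
    intro n
    by_cases hn : P.coeff n = 0
    · rw [hn]; exact s.zero_mem
    · obtain ⟨c, hc, hc'⟩ := h1 n hn
      rw [← hc]
      exact hc'.1
  obtain ⟨h3, h4⟩ := hE P h2
  refine ⟨h3, fun h5 => ?_⟩
  have h6 := h4.1 h5
  obtain ⟨c, hc, hc'⟩ := h1 P.natDegree (by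
    rw [coeff_natDegree]
    exact leadingCoeff_ne_zero.2 hP)
  apply c05_not_nonunit hc'
  rw [hc]
  exact h6 _

theorem c05_unit (τ : L) (hτ : Coord K L τ) (f : Lˣ) : ∃ C : Set Kˣ, C.Finite ∧
    ∀ (s : ValuationSubring K) (E : ValuationSubring L), IsGauss s τ E →
      (∀ c ∈ C, UnitIn s c) → UnitIn E f := by
  obtain ⟨P, Q, hQ, hf⟩ := hτ.2 (f : L)
  have hP : aeval τ P ≠ 0 := by
    rw [← hf]
    exact mul_ne_zero f.ne_zero hQ
  have hP0 : P ≠ 0 := by
    rintro rfl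
    exact hP (map_zero _)
  have hQ0 : Q ≠ 0 := by
    rintro rfl
    exact hQ (map_zero _)
  refine ⟨c05_co P ∪ c05_co Q, (c05_co_fin P).union (c05_co_fin Q), fun s E hE h => ?_⟩
  have h1 := c05_poly hE hP0 fun c hc => h c (Or.inl hc)
  have h2 := c05_poly hE hQ0 fun c hc => h c (Or.inr hc)
  have h3 : (aeval τ P)⁻¹ ∈ E := by
    by_contra h4
    exact h1.2 (tord_nonunits_iff.2 (Or.inr ⟨h1.1, h4⟩))
  have h4 : (aeval τ Q)⁻¹ ∈ E := by
    by_contra h5
    exact h2.2 (tord_nonunits_iff.2 (Or.inr ⟨h2.1, h5⟩))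
  have h5 : (f : L) = aeval τ P * (aeval τ Q)⁻¹ := by
    rw [← hf, mul_assoc, mul_inv_cancel₀ hQ, mul_one]
  refine ⟨?_, ?_⟩
  · rw [h5]
    exact E.mul_mem _ _ h1.1 h4
  · rw [Units.val_inv_eq_inv_val, h5, mul_inv, inv_inv]
    exact E.mul_mem _ _ h3 h2.1

theorem c05_sm (τ : L) (hτ : Coord K L τ) (β : Sy L) : ∃ C : Set Kˣ, C.Finite ∧
    ∀ (s : ValuationSubring K) (E : ValuationSubring L), IsGauss s τ E → IsDiscV E →
      (∀ c ∈ C, UnitIn s c) → sm E β = 1 := by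
  induction β using FreeAbelianGroup.induction_on with
  | zero => exact ⟨∅, Set.finite_empty, fun s E _ _ _ => sm_zero E⟩
  | of p =>
    obtain ⟨f, g⟩ := p
    obtain ⟨C, hC, h1⟩ := c05_unit (K := K) τ hτ f
    obtain ⟨C', hC', h2⟩ := c05_unit (K := K) τ hτ g
    refine ⟨C ∪ C', hC.union hC', fun s E hE hd h => ?_⟩
    have h3 := (unitIn_iff_ordV hd f).1 (h1 s E hE fun c hc => h c (Or.inl hc))
    have h4 := (unitIn_iff_ordV hd g).1 (h2 s E hE fun c hc => h c (Or.inr hc))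
    rw [sm_of, h3, h4]
    simp
  | neg p hp =>
    obtain ⟨C, hC, h1⟩ := hp
    refine ⟨C, hC, fun s E hE hd h => ?_⟩
    rw [sm_neg, h1 s E hE hd h, inv_one]
  | add x y hx hy =>
    obtain ⟨C, hC, h1⟩ := hx
    obtain ⟨C', hC', h2⟩ := hy
    refine ⟨C ∪ C', hC.union hC', fun s E hE hd h => ?_⟩
    rw [sm_add, h1 s E hE hd fun c hc => h c (Or.inl hc),
      h2 s E hE hd fun c hc => h c (Or.inr hc), one_mul]

end c05

theorem sp_gffin (h3 : SpGauss) : SpGfFin := by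
  intro p k K L _ _ _ _ _ _ _ hb S τ hτ d g hg
  choose C hC h1 using fun i : Fin d.m => c05_sm (K := K) τ hτ (d.β i)
  have hfin : (⋃ i, C i).Finite := Set.finite_iUnion hC
  have hfin2 : (⋃ f ∈ ⋃ i, C i, {s : ValuationSubring K | s ∈ S.S1 ∧ ¬ UnitIn s f}).Finite :=
    hfin.biUnion fun f _ => S.fin f
  refine hfin2.subset ?_
  rintro s ⟨hs, hs'⟩
  by_contra hcon
  apply hs'
  have hunit : ∀ i, ∀ c ∈ C i, UnitIn s c := by
    intro i c hc
    by_contra h4
    apply hcon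
    exact Set.mem_biUnion (Set.mem_iUnion.2 ⟨i, hc⟩) ⟨hs, h4⟩
  obtain ⟨⟨E, hE⟩, _, h4⟩ := h3 K L τ hτ s (S.disc s hs)
  obtain ⟨hd, hcomap, _⟩ := h4 E hE
  have h5 : d.val E = 1 := h1 (d.idx E) s E hE hd (hunit _)
  have h6 := (hg s (S.disc s hs)).2 E hE
  rw [h5, one_mul] at h6
  have h7 := torsV_inv h6
  rw [inv_inv, torsV_map, hcomap] at h7
  exact h7

end Pool.Agent.H19.UT
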