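import Pool.Agent.H19.UT.SpB

/-!
Project UT, block B: base change and change of coordinate (B09).
-/

set_option autoImplicit false
set_option maxHeartbeats 400000

open Polynomial Pool.Agent.K1

namespace Pool.Agent.H19.UT

theorem sp_hmap : SpHMap := by
  intro K L K2 L2 _ _ _ _ _ _ _ φ τ hφ d hd a c hc D' hD' hK hτ
  have hcK : algebraMap K2 L2 c ∈ D' := hK c
  have hc0 : algebraMap K2 L2 c ≠ 0 := (_root_.map_ne_zero _).2 hc
  have hτ' : φ τ ∈ D' := by
    have h1 : φ τ = (φ τ - algebraMap K2 L2 a) / algebraMap K2 L2 c * algebraMap K2 L2 c +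
        algebraMap K2 L2 a := by
      rw [div_mul_cancel₀ _ hc0]
      ring
    rw [h1]
    exact D'.add_mem _ _ (D'.mul_mem _ _ hτ hcK) (hK a)
  rcases ram φ hD' with h | ⟨h, _⟩
  · refine d.triv_map_of_le φ hD' fun f => ?_
    by_cases hf : f = 0
    · rw [hf, map_zero]
      exact D'.zero_mem
    · have h1 := h (Units.mk0 f hf)
      rw [Units.val_mk0] at h1
      rw [mem_iff_ordV hD' ((_root_.map_ne_zero φ).2 hf), h1]
  · rw [d.triv_map φ hD' h]
    refine hd _ h (fun b => ?_) ?_
    · rw [ValuationSubring.mem_comap, hφ]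
      exact hK _
    · rw [ValuationSubring.mem_comap]
      exact hτ'

end Pool.Agent.H19.UT
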