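import Pool.Agent.H19.UT.SpB

/-!
Project UT, row B02: the finite horizontal divisors.
-/

set_option autoImplicit false
set_option maxHeartbeats 400000

open Polynomial Pool.Agent.K1

namespace Pool.Agent.H19.UT

variable {K L : Type} [Field K] [Field L] [Algebra K L] {τ : L}

theorem b02_ne (hτ : Coord K L τ) {P : K[X]} (hP : P ≠ 0) : aeval τ P ≠ 0 := fun h =>
  hP ((transcendental_iff.1 hτ.1) P h)

theorem b02_ne_of {π P : K[X]} (h : ¬ π ∣ P) : P ≠ 0 := fun h0 => h (h0 ▸ dvd_zero π)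

theorem b02_inj (hτ : Coord K L τ) {P Q : K[X]} (h : aeval τ P = aeval τ Q) : P = Q :=
  transcendental_iff_injective.1 hτ.1 h

/-- Every element is a power of `π(τ)` times a quotient without `π`. -/
theorem b02_dec (hτ : Coord K L τ) {π : K[X]} (hπ : Irreducible π) {f : L} (hf : f ≠ 0) :
    ∃ (n : ℤ) (P Q : K[X]), ¬ π ∣ P ∧ ¬ π ∣ Q ∧
      f = (aeval τ π) ^ n * (aeval τ P / aeval τ Q) := by
  obtain ⟨P0, Q0, hQ0, h⟩ := hτ.2 f
  have hQ1 : Q0 ≠ 0 := fun h0 => hQ0 (by rw [h0, map_zero])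
  have hP1 : P0 ≠ 0 := by
    intro h0
    rw [h0, map_zero] at h
    exact (mul_ne_zero hf hQ0) h
  obtain ⟨a, P, hP, hPe⟩ := WfDvdMonoid.max_power_factor hP1 hπ
  obtain ⟨b, Q, hQ, hQe⟩ := WfDvdMonoid.max_power_factor hQ1 hπ
  refine ⟨(a : ℤ) - b, P, Q, hP, hQ, ?_⟩
  have hπ0 : aeval τ π ≠ 0 := b02_ne hτ hπ.ne_zero
  have hQ2 : aeval τ Q ≠ 0 := b02_ne hτ (b02_ne_of hQ)
  rw [hPe, hQe, map_mul, map_mul, map_pow, map_pow] at h
  rw [zpow_sub₀ hπ0, zpow_natCast, zpow_natCast]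
  field_simp
  linear_combination h

theorem b02_aeval_mem {D : ValuationSubring L} (hK : ∀ a : K, algebraMap K L a ∈ D)
    (hτD : τ ∈ D) (P : K[X]) : aeval τ P ∈ D := by
  rw [aeval_eq_sum_range]
  refine D.toSubring.sum_mem fun i _ => ?_
  rw [Algebra.smul_def]
  exact D.mul_mem _ _ (hK _) (pow_mem hτD i)

theorem b02_nonunit_mul {D : ValuationSubring L} {x y : L} (hx : x ∈ D.nonunits) (hy : y ∈ D) :
    x * y ∈ D.nonunits := by
  rw [ValuationSubring.mem_nonunits_iff] at hx ⊢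
  rw [map_mul]
  have hy' := (D.valuation_le_one_iff y).2 hy
  calc D.valuation x * D.valuation y ≤ D.valuation x * 1 := mul_le_mul_right hy' _
    _ < 1 := by rw [mul_one]; exact hx

theorem b02_nonunit_add {D : ValuationSubring L} {x y : L} (hx : x ∈ D.nonunits)
    (hy : y ∈ D.nonunits) : x + y ∈ D.nonunits := by
  rw [ValuationSubring.mem_nonunits_iff] at hx hy ⊢
  exact lt_of_le_of_lt (D.valuation.map_add x y) (max_lt hx hy)

theorem b02_one {D : ValuationSubring L} : (1 : L) ∉ D.nonunits := by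
  rw [ValuationSubring.mem_nonunits_iff, map_one]
  exact lt_irrefl _

/-- The polynomials that vanish on the divisor. -/
theorem b02_nonunit_iff {D : ValuationSubring L} (hK : ∀ a : K, algebraMap K L a ∈ D)
    (hτD : τ ∈ D) {π : K[X]} (hπ : Irreducible π) (hu : aeval τ π ∈ D.nonunits) (P : K[X]) :
    aeval τ P ∈ D.nonunits ↔ π ∣ P := by
  constructor
  · intro h
    by_contra hn
    obtain ⟨a, b, hab⟩ := (hπ.coprime_iff_not_dvd.2 hn : IsCoprime π P)
    apply b02_one (D := D)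
    have h1 : (1 : L) = aeval τ π * aeval τ a + aeval τ P * aeval τ b := by
      rw [← map_mul, ← map_mul, ← map_add, mul_comm π a, mul_comm P b, hab, map_one]
    rw [h1]
    exact b02_nonunit_add (b02_nonunit_mul hu (b02_aeval_mem hK hτD a))
      (b02_nonunit_mul h (b02_aeval_mem hK hτD b))
  · rintro ⟨Q, rfl⟩
    rw [map_mul]
    exact b02_nonunit_mul hu (b02_aeval_mem hK hτD Q)

/-- Polynomials prime to `π` have inverses. -/
theorem b02_inv_mem {D : ValuationSubring L} (hK : ∀ a : K, algebraMap K L a ∈ D)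
    (hτD : τ ∈ D) {π : K[X]} (hπ : Irreducible π) (hu : aeval τ π ∈ D.nonunits) {Q : K[X]}
    (hQ : ¬ π ∣ Q) : (aeval τ Q)⁻¹ ∈ D := by
  by_contra hn
  exact hQ ((b02_nonunit_iff hK hτD hπ hu Q).1
    (tord_nonunits_iff.2 (Or.inr ⟨b02_aeval_mem hK hτD Q, hn⟩)))

theorem b02_mem_iff (hτ : Coord K L τ) {D : ValuationSubring L}
    (hK : ∀ a : K, algebraMap K L a ∈ D)
    (hτD : τ ∈ D) {π : K[X]} (hπ : Irreducible π) (hu : aeval τ π ∈ D.nonunits) (z : L) :
    z ∈ D ↔ ∃ P Q : K[X], ¬ π ∣ Q ∧ z * aeval τ Q = aeval τ P := by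
  constructor
  · intro hz
    by_cases hz0 : z = 0
    · exact ⟨0, 1, fun h => hπ.not_isUnit (isUnit_of_dvd_one h), by rw [hz0, zero_mul, map_zero]⟩
    obtain ⟨n, P, Q, hP, hQ, hf⟩ := b02_dec hτ hπ hz0
    have hπ0 : aeval τ π ≠ 0 := b02_ne hτ hπ.ne_zero
    have hQ2 : aeval τ Q ≠ 0 := b02_ne hτ (b02_ne_of hQ)
    rcases n with n | n
    · refine ⟨π ^ n * P, Q, hQ, ?_⟩
      rw [hf, map_mul, map_pow, Int.ofNat_eq_natCast, zpow_natCast]
      field_simp
    · exfalso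
      apply hP
      rw [← b02_nonunit_iff hK hτD hπ hu P]
      have h1 : aeval τ P = aeval τ π * (z * aeval τ Q * (aeval τ π) ^ n) := by
        rw [hf, zpow_negSucc, pow_succ]
        field_simp
      rw [h1]
      exact b02_nonunit_mul hu (D.mul_mem _ _ (D.mul_mem _ _ hz (b02_aeval_mem hK hτD Q))
        (pow_mem (b02_aeval_mem hK hτD π) n))
  · rintro ⟨P, Q, hQ, h⟩
    have hQ2 : aeval τ Q ≠ 0 := b02_ne hτ (b02_ne_of hQ)
    have h1 : z = aeval τ P * (aeval τ Q)⁻¹ := by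
      rw [← h]
      field_simp
    rw [h1]
    exact D.mul_mem _ _ (b02_aeval_mem hK hτD P) (b02_inv_mem hK hτD hπ hu hQ)

theorem b02_unif (hτ : Coord K L τ) {D : ValuationSubring L}
    (hK : ∀ a : K, algebraMap K L a ∈ D)
    (hτD : τ ∈ D) {π : K[X]} (hπ : Irreducible π) (hu : aeval τ π ∈ D.nonunits) :
    IsUnifV D (aeval τ π) := by
  refine ⟨b02_ne hτ hπ.ne_zero, fun x => ⟨fun hx => ?_, ?_⟩⟩
  · have hxD : x ∈ D := by
      rcases tord_nonunits_iff.1 hx with h | h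
      · rw [h]; exact D.zero_mem
      · exact h.1
    obtain ⟨P, Q, hQ, h⟩ := (b02_mem_iff hτ hK hτD hπ hu x).1 hxD
    have hQ2 : aeval τ Q ≠ 0 := b02_ne hτ (b02_ne_of hQ)
    have h1 : aeval τ P ∈ D.nonunits := by
      rw [← h]
      exact b02_nonunit_mul hx (b02_aeval_mem hK hτD Q)
    obtain ⟨P1, hP1⟩ := (b02_nonunit_iff hK hτD hπ hu P).1 h1
    refine ⟨aeval τ P1 * (aeval τ Q)⁻¹, D.mul_mem _ _ (b02_aeval_mem hK hτD P1)
      (b02_inv_mem hK hτD hπ hu hQ), ?_⟩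
    rw [hP1, map_mul] at h
    field_simp
    linear_combination h
  · rintro ⟨c, hc, rfl⟩
    exact b02_nonunit_mul hu hc

/-- The divisor `π = 0`. -/
def b02_D (hτ : Coord K L τ) {π : K[X]} (hπ : Irreducible π) : ValuationSubring L where
  carrier := {z : L | ∃ P Q : K[X], ¬ π ∣ Q ∧ z * aeval τ Q = aeval τ P}
  mul_mem' := by
    rintro x y ⟨P, Q, hQ, h⟩ ⟨P', Q', hQ', h'⟩
    refine ⟨P * P', Q * Q', fun hd => (hπ.prime.dvd_or_dvd hd).elim hQ hQ', ?_⟩
    rw [map_mul, map_mul, ← h, ← h']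
    ring
  one_mem' := ⟨1, 1, fun h => hπ.not_isUnit (isUnit_of_dvd_one h), by rw [one_mul]⟩
  add_mem' := by
    rintro x y ⟨P, Q, hQ, h⟩ ⟨P', Q', hQ', h'⟩
    refine ⟨P * Q' + P' * Q, Q * Q', fun hd => (hπ.prime.dvd_or_dvd hd).elim hQ hQ', ?_⟩
    rw [map_add, map_mul, map_mul, map_mul, ← h, ← h']
    ring
  zero_mem' := ⟨0, 1, fun h => hπ.not_isUnit (isUnit_of_dvd_one h), by
    rw [zero_mul, map_zero]⟩
  neg_mem' := by
    rintro x ⟨P, Q, hQ, h⟩
    refine ⟨-P, Q, hQ, ?_⟩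
    rw [map_neg, ← h]
    ring
  mem_or_inv_mem' := by
    intro x
    by_cases hx : x = 0
    · left
      exact ⟨0, 1, fun h => hπ.not_isUnit (isUnit_of_dvd_one h), by rw [hx, zero_mul, map_zero]⟩
    obtain ⟨n, P, Q, hP, hQ, hf⟩ := b02_dec hτ hπ hx
    have hπ0 : aeval τ π ≠ 0 := b02_ne hτ hπ.ne_zero
    have hQ2 : aeval τ Q ≠ 0 := b02_ne hτ (b02_ne_of hQ)
    have hP2 : aeval τ P ≠ 0 := b02_ne hτ (b02_ne_of hP)
    rcases n with n | n
    · left
      refine ⟨π ^ n * P, Q, hQ, ?_⟩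
      rw [hf, map_mul, map_pow, Int.ofNat_eq_natCast, zpow_natCast]
      field_simp
    · right
      refine ⟨π ^ (n + 1) * Q, P, hP, ?_⟩
      rw [hf, map_mul, map_pow, zpow_negSucc]
      field_simp

theorem b02_mem_D (hτ : Coord K L τ) {π : K[X]} (hπ : Irreducible π) (z : L) :
    z ∈ b02_D hτ hπ ↔ ∃ P Q : K[X], ¬ π ∣ Q ∧ z * aeval τ Q = aeval τ P := Iff.rfl

theorem b02_D_poly (hτ : Coord K L τ) {π : K[X]} (hπ : Irreducible π) (P : K[X]) :
    aeval τ P ∈ b02_D hτ hπ :=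
  ⟨P, 1, fun h => hπ.not_isUnit (isUnit_of_dvd_one h), by rw [map_one, mul_one]⟩

theorem b02_D_nonunit (hτ : Coord K L τ) {π : K[X]} (hπ : Irreducible π) :
    aeval τ π ∈ (b02_D hτ hπ).nonunits := by
  rw [tord_nonunits_iff]
  refine Or.inr ⟨b02_D_poly hτ hπ π, ?_⟩
  rintro ⟨P, Q, hQ, h⟩
  apply hQ
  have hπ0 : aeval τ π ≠ 0 := b02_ne hτ hπ.ne_zero
  refine ⟨P, b02_inj hτ ?_⟩
  rw [map_mul, ← h]
  field_simp

theorem sp_hor : SpHor := by
  intro K L _ _ _ τ hτ
  refine ⟨fun D hD => ?_, fun π _ hπ => ?_, fun π _ hπ D hD hu => ?_⟩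
  · obtain ⟨⟨ϖ, hϖ, -⟩, hK, hτD⟩ := hD
    -- the polynomials with a value in the maximal ideal
    let p : Ideal K[X] :=
      { carrier := {P : K[X] | aeval τ P ∈ D.nonunits}
        add_mem' := by
          intro P Q hP hQ
          change aeval τ (P + Q) ∈ D.nonunits
          rw [map_add]
          exact b02_nonunit_add hP hQ
        zero_mem' := by
          change aeval τ (0 : K[X]) ∈ D.nonunits
          rw [map_zero]
          exact tord_nonunits_iff.2 (Or.inl rfl)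
        smul_mem' := by
          intro P Q hQ
          change aeval τ (P • Q) ∈ D.nonunits
          rw [smul_eq_mul, map_mul, mul_comm]
          exact b02_nonunit_mul hQ (b02_aeval_mem hK hτD P) }
    have hpm : ∀ P : K[X], P ∈ p ↔ aeval τ P ∈ D.nonunits := fun P => Iff.rfl
    have hunit : ∀ P : K[X], P ∉ p → (aeval τ P)⁻¹ ∈ D := by
      intro P hP
      by_contra hn
      exact hP ((hpm P).2 (tord_nonunits_iff.2 (Or.inr ⟨b02_aeval_mem hK hτD P, hn⟩)))
    have hprime : p.IsPrime := by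
      refine ⟨?_, ?_⟩
      · rw [Ideal.ne_top_iff_one, hpm, map_one]
        exact b02_one
      · intro P Q hPQ
        by_contra hn
        push Not at hn
        rw [hpm, map_mul] at hPQ
        rcases tord_nonunits_iff.1 hPQ with h | h
        · rcases mul_eq_zero.1 h with h1 | h1
          · exact hn.1 ((hpm P).2 (tord_nonunits_iff.2 (Or.inl h1)))
          · exact hn.2 ((hpm Q).2 (tord_nonunits_iff.2 (Or.inl h1)))
        · apply h.2
          rw [mul_inv]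
          exact D.mul_mem _ _ (hunit P hn.1) (hunit Q hn.2)
    have hne : p ≠ ⊥ := by
      intro hbot
      obtain ⟨h1, h2⟩ := tord_unif_mem hϖ
      obtain ⟨P, Q, hQ, h⟩ := hτ.2 ϖ
      have hP0 : aeval τ P ≠ 0 := by
        rw [← h]
        exact mul_ne_zero hϖ.1 hQ
      have hP : P ∉ p := by
        rw [hbot, Ideal.mem_bot]
        rintro rfl
        exact hP0 (map_zero _)
      apply h2
      have h3 : ϖ⁻¹ = aeval τ Q * (aeval τ P)⁻¹ := by
        rw [← h]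
        have := hϖ.1
        field_simp
      rw [h3]
      exact D.mul_mem _ _ (b02_aeval_mem hK hτD Q) (hunit P hP)
    set g := Submodule.IsPrincipal.generator p with hg
    have hgp : Prime g := Submodule.IsPrincipal.prime_generator_of_isPrime p hne
    have hgm : g ∈ p := Submodule.IsPrincipal.generator_mem p
    have hirr : Irreducible (g * C g.leadingCoeff⁻¹) :=
      irreducible_mul_leadingCoeff_inv.2 hgp.irreducible
    have hnm : g * C g.leadingCoeff⁻¹ ∈ p := p.mul_mem_right _ hgm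
    exact ⟨g * C g.leadingCoeff⁻¹, monic_mul_leadingCoeff_inv hgp.ne_zero, hirr,
      b02_unif hτ hK hτD hirr ((hpm _).1 hnm)⟩
  · have hK : ∀ a : K, algebraMap K L a ∈ b02_D hτ hπ := by
      intro a
      have := b02_D_poly hτ hπ (C a)
      rwa [aeval_C] at this
    have hτD : τ ∈ b02_D hτ hπ := by
      have := b02_D_poly hτ hπ X
      rwa [aeval_X] at this
    have hu := b02_D_nonunit hτ hπ
    have hunif := b02_unif hτ hK hτD hπ hu
    refine ⟨b02_D hτ hπ, ⟨⟨aeval τ π, hunif, fun t ht => ?_⟩, hK, hτD⟩, hunif⟩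
    obtain ⟨n, P, Q, hP, hQ, hf⟩ := b02_dec hτ hπ ht
    have hQ2 : aeval τ Q ≠ 0 := b02_ne hτ (b02_ne_of hQ)
    have hP2 : aeval τ P ≠ 0 := b02_ne hτ (b02_ne_of hP)
    refine ⟨n, Units.mk0 (aeval τ P / aeval τ Q) (div_ne_zero hP2 hQ2), ⟨?_, ?_⟩, hf⟩
    · exact ⟨P, Q, hQ, by rw [Units.val_mk0]; field_simp⟩
    · exact ⟨Q, P, hP, by rw [Units.val_inv_eq_inv_val, Units.val_mk0]; field_simp⟩
  · have hu' := tord_unif_nonunit hu
    exact ⟨fun z => b02_mem_iff hτ hD.2.1 hD.2.2 hπ hu' z,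
      fun P => b02_nonunit_iff hD.2.1 hD.2.2 hπ hu' P⟩

end Pool.Agent.H19.UT
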