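import Pool.Agent.H19.UT.SpB

/-!
Project UT, row B08: the divisor at infinity is trivial.
-/

set_option autoImplicit false
set_option maxHeartbeats 400000

open Polynomial Pool.Agent.K1

namespace Pool.Agent.H19.UT

section b08

variable {K L : Type} [Field K] [Field L] [Algebra K L]

/-- `τ` is a uniformizer of the horizontal divisor `τ = 0` -/
theorem b08_unif (hh : SpHor) {τ : L} (hτ : Coord K L τ) {D : ValuationSubring L}
    (hD : Hor K τ D) (hn : τ ∈ D.nonunits) : IsUnifV D τ := by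
  obtain ⟨h1, -, h3⟩ := hh K L τ hτ
  obtain ⟨π, hm, hi, hu⟩ := h1 D hD
  have h4 := (h3 π hm hi D hD hu).2 X
  rw [aeval_X] at h4
  have h5 : π ∣ X := h4.1 hn
  have h6 : π = X :=
    eq_of_monic_of_associated hm monic_X (hi.associated_of_dvd irreducible_X h5)
  rw [h6, aeval_X] at hu
  exact hu

/-- the horizontal divisor `τ = 0` is unique -/
theorem b08_uniq (hh : SpHor) {τ : L} (hτ : Coord K L τ) {D D' : ValuationSubring L}
    (hD : Hor K τ D) (hu : IsUnifV D τ) (hD' : Hor K τ D') (hu' : IsUnifV D' τ) : D = D' := by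
  obtain ⟨-, -, h3⟩ := hh K L τ hτ
  have h4 := (h3 X monic_X irreducible_X D hD (by rwa [aeval_X])).1
  have h5 := (h3 X monic_X irreducible_X D' hD' (by rwa [aeval_X])).1
  ext z
  rw [h4, h5]

/-- an element which is not in the maximal ideal has its inverse in `D` -/
theorem b08_inv {D : ValuationSubring L} {a : L} (h : a ∉ D.nonunits) : a⁻¹ ∈ D := by
  rcases D.mem_or_inv_mem a with h1 | h1
  · by_contra h2
    exact h (tord_nonunits_iff.2 (Or.inr ⟨h1, h2⟩))
  · exact h1

/-- the residue field of the horizontal divisor `τ = 0` is `K` -/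
theorem b08_const (hh : SpHor) {τ : L} (hτ : Coord K L τ) {D : ValuationSubring L}
    (hD : Hor K τ D) (hu : IsUnifV D τ) (u : Lˣ) (hu' : UnitIn D u) :
    ∃ v : Kˣ, TorsV D (u * (Units.map (algebraMap K L : K →* L) v)⁻¹) := by
  obtain ⟨-, -, h3⟩ := hh K L τ hτ
  obtain ⟨h4, h5⟩ := h3 X monic_X irreducible_X D hD (by rwa [aeval_X])
  obtain ⟨P, Q, hQ, hPQ⟩ := (h4 (u : L)).1 hu'.1
  have hQ' : aeval τ Q ∉ D.nonunits := fun h => hQ ((h5 Q).1 h)
  have hP : ¬ X ∣ P := by
    intro h
    apply hQ'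
    have h6 := nonunits_mul hu'.2 ((h5 P).2 h)
    rw [← hPQ, ← mul_assoc, Units.inv_mul, one_mul] at h6
    exact h6
  rw [X_dvd_iff] at hQ hP
  have hA : (aeval τ Q : L) ≠ 0 := fun h => hQ' (by rw [h]; exact D.nonunits.zero_mem)
  refine ⟨Units.mk0 (P.coeff 0) hP * (Units.mk0 (Q.coeff 0) hQ)⁻¹, 1, one_pos, ?_⟩
  have hp : algebraMap K L (P.coeff 0) ≠ 0 := (_root_.map_ne_zero _).2 hP
  have hq : algebraMap K L (Q.coeff 0) ≠ 0 := (_root_.map_ne_zero _).2 hQ
  have h7 : aeval τ (C (Q.coeff 0) * P - C (P.coeff 0) * Q) ∈ D.nonunits := by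
    rw [h5, X_dvd_iff, coeff_sub, coeff_C_mul, coeff_C_mul]
    ring
  rw [map_sub, map_mul, map_mul, aeval_C, aeval_C, ← hPQ] at h7
  have h8 : (algebraMap K L (P.coeff 0))⁻¹ * (aeval τ Q)⁻¹ ∈ D := by
    rw [← map_inv₀]
    exact D.mul_mem _ _ (hD.2.1 _) (b08_inv hQ')
  have h9 := nonunits_mul h8 h7
  have h10 : ((u * (Units.map (algebraMap K L : K →* L)
      (Units.mk0 (P.coeff 0) hP * (Units.mk0 (Q.coeff 0) hQ)⁻¹))⁻¹ : Lˣ) : L) =
      u * (algebraMap K L (P.coeff 0) * (algebraMap K L (Q.coeff 0))⁻¹)⁻¹ := by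
    rw [Units.val_mul, Units.val_inv_eq_inv_val]
    congr 2
    change algebraMap K L (((Units.mk0 (P.coeff 0) hP * (Units.mk0 (Q.coeff 0) hQ)⁻¹ : Kˣ)) : K) = _
    rw [Units.val_mul, Units.val_inv_eq_inv_val, Units.val_mk0, Units.val_mk0, map_mul, map_inv₀]
  rw [pow_one, h10]
  have h11 : (u : L) * (algebraMap K L (P.coeff 0) * (algebraMap K L (Q.coeff 0))⁻¹)⁻¹ - 1 =
      (algebraMap K L (P.coeff 0))⁻¹ * (aeval τ Q)⁻¹ *
      (algebraMap K L (Q.coeff 0) * (↑u * aeval τ Q) -
        algebraMap K L (P.coeff 0) * aeval τ Q) := by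
    field_simp
  rw [h11]
  exact h9

end b08

/-- orders of units which agree up to torsion -/
theorem b08_oD {k L : Type} [Field k] [Field L] [Algebra k L] (h2 : SpOD) {R : Subring L}
    (hR : Reg2 k R) {D : ValuationSubring L} (hD : On R D) {u w : Lˣ}
    (h : TorsV D (u * w⁻¹)) (hw : UnitIn D w) : oD R D u = oD R D w := by
  obtain ⟨f, hf⟩ := hD
  obtain ⟨-, -, -, h3, h4⟩ := h2 k L R hR f D hf
  have h5 := h3 (u * w⁻¹) w (torsV_unitIn h) hw
  rw [inv_mul_cancel_right, h4 _ h, zero_add] at h5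
  exact h5

/-- B08: the divisor at infinity is trivial -/
theorem sp_inf (hc : SpCycle) (h2 : SpOD) (h3 : SpGauss) (hco : SpCoord) (h4 : SpRingP)
    (h5 : SpRingPD) (hx : SpRingPX) (hk : SpConst) (hh : SpHor) : SpInf := by
  classical
  intro k K L _ _ _ _ _ _ _ _ τ hτ hkp d hd D hD hKD hn
  have hτ' : Coord K L τ⁻¹ := (hco K L τ hτ).2
  have hHor : Hor K τ⁻¹ D := ⟨hD, hKD, ValuationSubring.nonunits_subset hn⟩
  have hu := b08_unif hh hτ' hHor hn
  have hval : UnitIn D (d.val D) := unitIn_sm hD _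
  obtain ⟨v, hv⟩ := b08_const hh hτ' hHor hu _ hval
  have key : ∀ s : ValuationSubring K, IsDiscV s → (∀ c : k, algebraMap k K c ∈ s) →
      UnitIn s v := by
    intro s hs hks
    obtain ⟨hR1, hR⟩ := h4 k K L τ⁻¹ hτ' s hs hks X monic_X irreducible_X
    obtain ⟨hR2, hR3⟩ := h5 k K L τ⁻¹ hτ' s hs hks X monic_X irreducible_X
    obtain ⟨hDR, hDv⟩ := hx k K L τ⁻¹ hτ' s hs hks D hHor hu
    have hsum := hc k L d (ringP s τ⁻¹ X) hR
    have h6 : ∀ D' : ValuationSubring L, D' ≠ D →
        (∑ᶠ (_ : On (ringP s τ⁻¹ X) D'), oD (ringP s τ⁻¹ X) D' (d.val D')) = 0 := by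
      intro D' hne
      rw [finsum_eq_if]
      split_ifs with hon
      · rcases hR2 D' hon with hG | hH
        · -- the Gauss valuation
          obtain ⟨⟨E, hE⟩, -, hE3⟩ := h3 K L τ hτ s hs
          obtain ⟨-, hcom, -, -, -, -, hE'⟩ := hE3 E hE
          obtain ⟨-, huniq, -⟩ := h3 K L τ⁻¹ hτ' s hs
          have hEq : D' = E := huniq D' E hG hE'
          subst hEq
          obtain ⟨g, hg1, hg2⟩ := hk k K L τ hτ d hd s hs hks
          have hgE : UnitIn D' (Units.map (algebraMap K L : K →* L) g) := by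
            rw [← hcom] at hg1
            exact ⟨hg1.1, by
              have := hg1.2
              rw [ValuationSubring.mem_comap] at this
              rw [← map_inv]
              exact this⟩
          rw [b08_oD h2 hR hon (hg2 D' hE) hgE]
          have hgu : IsUnit (⟨(g : K), hg1.1⟩ : s) := by
            rw [tord_isUnit_iff]
            refine ⟨g.ne_zero, ?_⟩
            have := hg1.2
            rwa [Units.val_inv_eq_inv_val] at this
          have h7 : redP s (C ⟨(g : K), hg1.1⟩) = C (IsLocalRing.residue s ⟨(g : K), hg1.1⟩) := by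
            unfold redP
            rw [coe_mapRingHom]
            exact map_C _
          have h8 : IsLocalRing.residue s ⟨(g : K), hg1.1⟩ ≠ 0 :=
            (IsLocalRing.residue_ne_zero_iff_isUnit _).2 hgu
          have h9 := (hR3 D' hG).2 (Units.map (algebraMap K L : K →* L) g)
            (C ⟨(g : K), hg1.1⟩) 1 (by rw [h7]; exact (C_ne_zero).2 h8)
            (by rw [map_one]; exact one_ne_zero) (by
              rw [map_one, mul_one]
              unfold evR
              rw [coe_eval₂RingHom, eval₂_C]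
              rfl)
          rw [h9, h7, map_one, multiplicity_eq_zero.2, multiplicity_eq_zero.2]
          · simp
          · rw [X_dvd_iff]; simp
          · rw [X_dvd_iff, coeff_C_zero]; exact h8
        · by_cases hn' : τ⁻¹ ∈ D'.nonunits
          · exact absurd (b08_uniq hh hτ' hH (b08_unif hh hτ' hH hn') hHor hu) hne
          · have h7 := b08_inv hn'
            rw [inv_inv] at h7
            have h8 := hd D' hH.1 hH.2.1 h7
            obtain ⟨f, hf⟩ := hon
            exact (h2 k L _ hR f D' hf).2.2.2.2 _ h8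
      · rfl
    rw [finsum_eq_single _ D h6, finsum_eq_if, if_pos hDR,
      b08_oD h2 hR hDR hv (hDv v).1, (hDv v).2] at hsum
    exact (unitIn_iff_ordV hs v).2 hsum
  obtain ⟨n, hn0, hvn⟩ := hkp v key
  have htv : TorsV D (Units.map (algebraMap K L : K →* L) v) := by
    refine ⟨n, hn0, ?_⟩
    have h7 : (((Units.map (algebraMap K L : K →* L) v : Lˣ) : L)) ^ n - 1 = 0 := by
      rw [← Units.val_pow_eq_pow_val, ← map_pow, hvn, map_one, Units.val_one, sub_self]
    rw [h7]
    exact D.nonunits.zero_mem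
  exact torsV_of_div hv htv

end Pool.Agent.H19.UT
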