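import Pool.Agent.H19.UT.Ops

/-!
Project UT, block F (norms as existence statements, rank two valuations): statements (helper19).
-/

set_option autoImplicit false
set_option maxHeartbeats 400000

open Polynomial Pool.Agent.K1

namespace Pool.Agent.H19.UT

/-- A valuation with values in `ℚ × ℚ`, lexicographically ordered. -/
structure TwoVal (Ω : Type) [Field Ω] where
  w1 : Ωˣ → ℚ
  w2 : Ωˣ → ℚ
  mul1 : ∀ a b, w1 (a * b) = w1 a + w1 b
  mul2 : ∀ a b, w2 (a * b) = w2 a + w2 b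
  add : ∀ a b c : Ωˣ, (a : Ω) + b = c →
    (w1 a < w1 c ∨ (w1 a = w1 c ∧ w2 a ≤ w2 c)) ∨ (w1 b < w1 c ∨ (w1 b = w1 c ∧ w2 b ≤ w2 c))

namespace TwoVal

variable {Ω : Type} [Field Ω]

/-- The determinant of the values. -/
def det (w : TwoVal Ω) (a b : Ωˣ) : ℚ := w.w1 a * w.w2 b - w.w1 b * w.w2 a

open Classical in
/-- The determinant of the values, for elements of the field. -/
noncomputable def det0 (w : TwoVal Ω) (a b : Ω) : ℚ :=
  if h : a ≠ 0 ∧ b ≠ 0 then w.det (Units.mk0 a h.1) (Units.mk0 b h.2) else 0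

/-- The additive form of `det` on `Sy`. -/
noncomputable def psi (w : TwoVal Ω) : Sy Ω →+ ℚ :=
  FreeAbelianGroup.lift fun p => w.det p.1 p.2

/-- Restriction. -/
def comap {L : Type} [Field L] (w : TwoVal Ω) (φ : L →+* Ω) : TwoVal L where
  w1 a := w.w1 (Units.map (φ : L →* Ω) a)
  w2 a := w.w2 (Units.map (φ : L →* Ω) a)
  mul1 a b := by rw [map_mul, w.mul1]
  mul2 a b := by rw [map_mul, w.mul2]
  add a b c h := w.add _ _ _ (by
    change φ a + φ b = φ c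
    rw [← map_add, h])

end TwoVal

/-- F01: the determinant kills the Steinberg relation. -/
def SpSt : Prop := ∀ (Ω : Type) [Field Ω] (w : TwoVal Ω),
  (∀ a b c : Ωˣ, (a : Ω) + b + c = 0 → w.det a b + w.det b c + w.det c a = 0) ∧
  (∀ a b : Ωˣ, w.det (-a) b = w.det a b) ∧ (∀ a b : Ωˣ, w.det a b = - w.det b a) ∧
  (∀ a b c : Ωˣ, w.det (a * b) c = w.det a c + w.det b c) ∧
  (∀ a : Ωˣ, (∃ n : ℕ, 0 < n ∧ a ^ n = 1) → w.w1 a = 0 ∧ w.w2 a = 0)

/-- F02: the norm of the symbols `{f(θ), g(θ)}`, `θ` a root of `P`. -/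
def SpNormPoly : Prop := ∀ (E Ω : Type) [Field E] [Field Ω] [Algebra E Ω] [IsAlgClosed Ω]
  (P : E[X]), P.Monic → Irreducible P → ∀ f g : E[X], ¬ P ∣ f → ¬ P ∣ g →
  ∃ β : Sy E, ∀ w : TwoVal Ω, w.psi (Sy.map (algebraMap E Ω) β) =
    (((P.map (algebraMap E Ω)).roots).map fun r => w.det0 (aeval r f) (aeval r g)).sum

/-- F03: simple extensions. -/
def SpNormSimple : Prop := ∀ (E E' Ω : Type) [Field E] [Field E'] [Field Ω] [Algebra E E']
  [Algebra E Ω] [Algebra E' Ω] [IsScalarTower E E' Ω] [IsAlgClosed Ω]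
  [Algebra.IsAlgebraic E Ω] (θ : E'), IsIntegral E θ →
  IntermediateField.adjoin E {θ} = ⊤ → ∀ β' : Sy E',
  ∃ (β : Sy E) (n : ℕ) (τ : Fin n → (Ω ≃ₐ[E] Ω)), 0 < n ∧
    ∀ w : TwoVal Ω, w.psi (Sy.map (algebraMap E Ω) β) =
      ∑ i, w.psi (Sy.map (((τ i : Ω ≃ₐ[E] Ω) : Ω →+* Ω).comp (algebraMap E' Ω)) β')

/-- F04: finite extensions. -/
def SpNorm : Prop := ∀ (E E' Ω : Type) [Field E] [Field E'] [Field Ω] [Algebra E E']
  [Algebra E Ω] [Algebra E' Ω] [IsScalarTower E E' Ω] [IsAlgClosed Ω]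
  [Algebra.IsAlgebraic E Ω] [FiniteDimensional E E'] (β' : Sy E'),
  ∃ (β : Sy E) (n : ℕ) (τ : Fin n → (Ω ≃ₐ[E] Ω)), 0 < n ∧
    ∀ w : TwoVal Ω, w.psi (Sy.map (algebraMap E Ω) β) =
      ∑ i, w.psi (Sy.map (((τ i : Ω ≃ₐ[E] Ω) : Ω →+* Ω).comp (algebraMap E' Ω)) β')

/-- F05: the determinant and the tame symbol. -/
def SpPsi : Prop := ∀ (L : Type) [Field L] (D : ValuationSubring L), IsDiscV D →
  ∀ (w : TwoVal L) (e : ℚ), 0 < e → (∀ f : Lˣ, w.w1 f = e * (ordV D (f : L) : ℚ)) →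
  (∀ γ : Sy L, w.psi γ = - e * w.w2 (sm D γ)) ∧
  (∀ u : Lˣ, TorsV D u → w.w1 u = 0 ∧ w.w2 u = 0)

/-- F06: a rational valuation on a finite extension of a discretely valued field is discrete. -/
def SpExtDisc : Prop := ∀ (F E : Type) [Field F] [Field E] [Algebra F E]
  [FiniteDimensional F E] (D : ValuationSubring F), IsDiscV D → ∀ w : TwoVal E,
  (∀ f : Fˣ, w.w1 (Units.map (algebraMap F E : F →* E) f) = (ordV D (f : F) : ℚ)) →
  ∃ (D' : ValuationSubring E) (e : ℚ), IsDiscV D' ∧ D'.comap (algebraMap F E) = D ∧ 0 < e ∧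
    ∀ f : Eˣ, w.w1 f = e * (ordV D' (f : E) : ℚ)

/-- F07: extension of a discrete valuation to an algebraic extension, with rational values. -/
def SpExtQ : Prop := ∀ (M N : Type) [Field M] [Field N] [Algebra M N]
  [Algebra.IsAlgebraic M N] (D : ValuationSubring M), IsDiscV D →
  ∃ (V : ValuationSubring N) (v : Nˣ → ℚ), V.comap (algebraMap M N) = D ∧
    (∀ a b, v (a * b) = v a + v b) ∧ (∀ a : Nˣ, (a : N) ∈ V ↔ 0 ≤ v a) ∧
    ∀ m : Mˣ, v (Units.map (algebraMap M N : M →* N) m) = (ordV D (m : M) : ℚ)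

/-- F08: an element which is not a root of unity is seen by a rational valuation. -/
def SpResVal : Prop := ∀ (p : ℕ) [Fact p.Prime] (κ : Type) [Field κ] [CharP κ p] (u : κˣ),
  (∀ n : ℕ, 0 < n → u ^ n ≠ 1) →
  ∃ b : κˣ → ℚ, (∀ x y, b (x * y) = b x + b y) ∧
    (∀ x y z : κˣ, (x : κ) + y = z → b x ≤ b z ∨ b y ≤ b z) ∧ b u ≠ 0

/-- F09: composition of valuations. -/
def SpComp : Prop := ∀ (Ω : Type) [Field Ω] (V : ValuationSubring Ω) (v : Ωˣ → ℚ),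
  (∀ a b, v (a * b) = v a + v b) → (∀ a : Ωˣ, (a : Ω) ∈ V ↔ 0 ≤ v a) →
  ∀ b : (IsLocalRing.ResidueField V)ˣ → ℚ, (∀ x y, b (x * y) = b x + b y) →
  (∀ x y z : (IsLocalRing.ResidueField V)ˣ, (x : IsLocalRing.ResidueField V) + y = z →
    b x ≤ b z ∨ b y ≤ b z) →
  ∃ w : TwoVal Ω, w.w1 = v ∧ ∀ (a : Ωˣ) (a' : Vˣ), (a : Ω) = ((a' : V) : Ω) →
    w.w2 a = b (Units.map (IsLocalRing.residue V : V →* IsLocalRing.ResidueField V) a')

/-- F10: a two-valuation over `D` which sees a unit that is not torsion. -/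
def SpW : Prop := ∀ (p : ℕ) [Fact p.Prime] (F Ω : Type) [Field F] [Field Ω] [Algebra F Ω]
  [CharP F p] [Algebra.IsAlgebraic F Ω] (D : ValuationSubring F), IsDiscV D → ∀ u : Fˣ,
  UnitIn D u → ¬ TorsV D u →
  ∃ w : TwoVal Ω, (∀ f : Fˣ, w.w1 (Units.map (algebraMap F Ω : F →* Ω) f) =
    (ordV D (f : F) : ℚ)) ∧ w.w2 (Units.map (algebraMap F Ω : F →* Ω) u) ≠ 0

/-- F11: norm down. -/
def SpNormDown : Prop := ∀ (p : ℕ) [Fact p.Prime] (F E : Type) [Field F] [Field E]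
  [Algebra F E] [FiniteDimensional F E] [CharP F p] (β' : Sy E),
  ∃ (β : Sy F) (n : ℕ), 0 < n ∧ ∀ D : ValuationSubring F, IsDiscV D →
    ∀ (βD : Sy F) (N : ℕ),
    (∀ D' : ValuationSubring E, IsDiscV D' → D'.comap (algebraMap F E) = D →
      TorsV D' (sm D' (β' - N • Sy.map (algebraMap F E) βD))) →
    TorsV D (sm D (β - (N * n) • βD))

end Pool.Agent.H19.UT
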