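import Pool.Agent.H19.UT.SpB
import Pool.Agent.H19.UT.SpF
import Pool.Agent.K1.TPlaces

/-!
Project UT, row B10: functions without zeros and poles are roots of unity.
-/

set_option autoImplicit false
set_option maxHeartbeats 400000

open Polynomial Pool.Agent.K1

namespace Pool.Agent.H19.UT

/-- `K` is a finite extension of a rational function field `F0(u)` with `k ⊆ F0`. -/
theorem b10_tower (k K : Type) [Field k] [Field K] [Algebra k K] (u : K)
    (hu : Transcendental k u) (S : Finset K)
    (hS : ∀ E : Subfield K, (∀ c : k, algebraMap k K c ∈ E) → (∀ a ∈ S, a ∈ E) → E = ⊤) :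
    ∃ (F0 : IntermediateField k K) (φ : RatFunc F0 →+* K),
      (∀ c : F0, φ (RatFunc.C c) = c) ∧ φ RatFunc.X = u ∧
      letI := φ.toAlgebra
      FiniteDimensional (RatFunc F0) K := by
  have h1 : AlgebraicIndepOn k id ({u} : Set K) := by
    have h2 : AlgebraicIndependent k (fun x : ({u} : Set K) => (x : K)) := by
      rw [algebraicIndependent_singleton_iff ⟨u, rfl⟩]
      exact hu
    exact h2
  obtain ⟨B, huB, hB⟩ := exists_isTranscendenceBasis_superset h1
  have huB' : u ∈ B := huB rfl
  let F0 : IntermediateField k K := IntermediateField.adjoin k (B \ {u})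
  have hut : Transcendental F0 u := by
    rw [IntermediateField.transcendental_adjoin_iff]
    have h3 := hB.1.transcendental_adjoin (s := {x : B | (x : K) ≠ u}) (i := ⟨u, huB'⟩)
      (by simp)
    have h4 : ((↑) : B → K) '' {x : B | (x : K) ≠ u} = B \ {u} := by
      ext x
      simp only [Set.mem_image, Set.mem_setOf_eq, Subtype.exists, Set.mem_sdiff,
        Set.mem_singleton_iff]
      constructor
      · rintro ⟨y, hy, hyu, rfl⟩
        exact ⟨hy, hyu⟩
      · rintro ⟨hx, hxu⟩
        exact ⟨x, hx, hxu, rfl⟩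
    rw [h4] at h3
    exact h3
  let M : IntermediateField F0 K := IntermediateField.adjoin F0 {u}
  have hMalg : Algebra.IsAlgebraic M K := by
    have h5 : Algebra.IsAlgebraic (IntermediateField.adjoin k (Set.range ((↑) : B → K))) K :=
      hB.isAlgebraic_field
    have h6 : M.restrictScalars k = IntermediateField.adjoin k (Set.range ((↑) : B → K)) := by
      change (IntermediateField.adjoin F0 {u}).restrictScalars k = _
      rw [IntermediateField.adjoin_adjoin_left, Subtype.range_coe]
      congr 1
      rw [Set.sdiff_union_self]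
      exact Set.union_eq_self_of_subset_right huB
    have h7 : Algebra.IsAlgebraic (M.restrictScalars k) K := by
      rw [h6]
      exact h5
    exact h7
  let e : RatFunc F0 ≃ₐ[F0] M := RatFunc.algEquivOfTranscendental u hut
  let φ : RatFunc F0 →+* K := (algebraMap M K).comp (e : RatFunc F0 →+* M)
  have hφC : ∀ c : F0, φ (RatFunc.C c) = c := by
    intro c
    change ((e (RatFunc.C c) : M) : K) = c
    have h8 : (RatFunc.C c : RatFunc F0) = algebraMap F0 (RatFunc F0) c := rfl
    rw [h8, e.commutes]
    rfl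
  have hφX : φ RatFunc.X = u := by
    change ((e RatFunc.X : M) : K) = u
    exact RatFunc.algEquivOfTranscendental_X u hut
  refine ⟨F0, φ, hφC, hφX, ?_⟩
  letI alg1 : Algebra (RatFunc F0) K := φ.toAlgebra
  letI alg2 : Algebra (RatFunc F0) M := (e : RatFunc F0 →+* M).toAlgebra
  haveI tow : IsScalarTower (RatFunc F0) M K := IsScalarTower.of_algebraMap_eq' rfl
  haveI hRM : Algebra.IsAlgebraic (RatFunc F0) M := by
    constructor
    intro m
    have h9 : m = algebraMap (RatFunc F0) M (e.symm m) := (e.apply_symm_apply m).symm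
    rw [h9]
    exact isAlgebraic_algebraMap _
  haveI hRK : Algebra.IsAlgebraic (RatFunc F0) K := Algebra.IsAlgebraic.trans (RatFunc F0) M K
  have hfin : FiniteDimensional (RatFunc F0)
      (IntermediateField.adjoin (RatFunc F0) (S : Set K)) :=
    IntermediateField.finiteDimensional_adjoin
      (fun x _ => (Algebra.IsAlgebraic.isAlgebraic (R := RatFunc F0) x).isIntegral)
  have htop : (IntermediateField.adjoin (RatFunc F0) (S : Set K)).toSubfield = ⊤ := by
    apply hS
    · intro c
      have h10 : algebraMap k K c = algebraMap (RatFunc F0) K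
          (RatFunc.C (algebraMap k F0 c)) := (hφC (algebraMap k F0 c)).symm
      rw [h10]
      exact (IntermediateField.adjoin (RatFunc F0) (S : Set K)).algebraMap_mem _
    · intro a ha
      exact IntermediateField.subset_adjoin (RatFunc F0) (S : Set K) ha
  have htop' : IntermediateField.adjoin (RatFunc F0) (S : Set K) = ⊤ := by
    rw [eq_top_iff]
    intro x _
    have h11 : x ∈ (IntermediateField.adjoin (RatFunc F0) (S : Set K)).toSubfield := by
      rw [htop]
      exact Subfield.mem_top x
    exact h11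
  rw [htop'] at hfin
  exact Module.Finite.equiv (IntermediateField.topEquiv (F := RatFunc F0) (E := K)).toLinearEquiv

theorem b10_add {K : Type} [Field K] (V : ValuationSubring K) (v : Kˣ → ℚ)
    (h1 : ∀ a b, v (a * b) = v a + v b) (h2 : ∀ a : Kˣ, (a : K) ∈ V ↔ 0 ≤ v a)
    (a b c : Kˣ) (h : (a : K) + b = c) : v a ≤ v c ∨ v b ≤ v c := by
  by_contra hcon
  push Not at hcon
  obtain ⟨ha, hb⟩ := hcon
  have hone : v 1 = 0 := by
    have := h1 1 1
    rw [mul_one] at this
    linarith
  have hinv : ∀ x : Kˣ, v x⁻¹ = - v x := by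
    intro x
    have := h1 x x⁻¹
    rw [mul_inv_cancel, hone] at this
    linarith
  have key : ∀ x : Kˣ, v c < v x → V.valuation ((x * c⁻¹ : Kˣ) : K) < 1 := by
    intro x hx
    have h3 : 0 < v (x * c⁻¹) := by
      rw [h1, hinv]
      linarith
    rw [← ValuationSubring.mem_nonunits_iff, ValuationSubring.mem_nonunits_iff_exists_mem_maximalIdeal]
    refine ⟨(h2 _).2 h3.le, ?_⟩
    rw [IsLocalRing.mem_maximalIdeal, mem_nonunits_iff]
    intro hunit
    obtain ⟨y, hy⟩ := hunit.exists_right_inv
    have h4 : ((x * c⁻¹ : Kˣ) : K) * (y : K) = 1 := congrArg Subtype.val hy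
    have h5 : (((x * c⁻¹)⁻¹ : Kˣ) : K) = (y : K) := by
      rw [Units.val_inv_eq_inv_val]
      exact (eq_inv_of_mul_eq_one_right h4).symm
    have h6 : (((x * c⁻¹)⁻¹ : Kˣ) : K) ∈ V := by
      rw [h5]
      exact y.2
    have h7 := (h2 _).1 h6
    rw [hinv] at h7
    linarith
  have h8 := key a ha
  have h9 := key b hb
  have h10 : ((a * c⁻¹ : Kˣ) : K) + ((b * c⁻¹ : Kˣ) : K) = 1 := by
    rw [Units.val_mul, Units.val_mul, ← add_mul, h, ← Units.val_mul, mul_inv_cancel,
      Units.val_one]
  have h11 := V.valuation.map_add_lt h8 h9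
  rw [h10, map_one] at h11
  exact lt_irrefl _ h11

theorem sp_kpl (hq : SpExtQ) (hd : SpExtDisc) : SpKPl := by
  intro p _ k K _ _ _ _ _ hk S hS u hu
  by_contra hroot
  -- `u` is transcendental
  have htr : Transcendental k (u : K) := by
    intro halg
    have hint : IsIntegral k (u : K) := halg.isIntegral
    obtain ⟨c, hc⟩ := minpoly.mem_range_of_degree_eq_one k (u : K)
      (IsAlgClosed.degree_eq_one_of_irreducible k (minpoly.irreducible hint))
    have hc0 : c ≠ 0 := by
      rintro rfl
      rw [map_zero] at hc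
      exact u.ne_zero hc.symm
    obtain ⟨n, hn, hcn⟩ := hk c hc0
    apply hroot
    refine ⟨n, hn, ?_⟩
    apply Units.ext
    rw [Units.val_pow_eq_pow_val, ← hc, ← map_pow, hcn, map_one, Units.val_one]
  obtain ⟨F0, φ, hφC, hφX, hfin⟩ := b10_tower k K u htr S hS
  letI := φ.toAlgebra
  haveI : FiniteDimensional (RatFunc F0) K := hfin
  let P := Polynomial.idealX F0
  let D0 : ValuationSubring (RatFunc F0) := (P.valuation (RatFunc F0)).valuationSubring
  have hD0 : IsDiscV D0 := tpl_disc P
  obtain ⟨V, v, -, hv1, hv2, hv3⟩ := hq (RatFunc F0) K D0 hD0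
  let w : TwoVal K :=
    { w1 := v
      w2 := fun _ => 0
      mul1 := hv1
      mul2 := fun _ _ => by simp
      add := by
        intro a b c h
        rcases b10_add V v hv1 hv2 a b c h with h' | h'
        · left
          rcases h'.lt_or_eq with h'' | h''
          · exact Or.inl h''
          · exact Or.inr ⟨h'', le_refl _⟩
        · right
          rcases h'.lt_or_eq with h'' | h''
          · exact Or.inl h''
          · exact Or.inr ⟨h'', le_refl _⟩ }
  obtain ⟨D', e, hD', hcomap, -, -⟩ := hd (RatFunc F0) K D0 hD0 w (fun f => hv3 f)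
  have hmem : ∀ z : RatFunc F0, z ∈ D0 ↔ φ z ∈ D' := by
    intro z
    rw [← hcomap]
    rfl
  have hk' : ∀ c : k, algebraMap k K c ∈ D' := by
    intro c
    have h1 : algebraMap k K c = φ (RatFunc.C (algebraMap k F0 c)) :=
      (hφC (algebraMap k F0 c)).symm
    rw [h1, ← hmem]
    have h2 : (RatFunc.C (algebraMap k F0 c) : RatFunc F0) =
        algebraMap F0[X] (RatFunc F0) (Polynomial.C (algebraMap k F0 c)) :=
      (RatFunc.algebraMap_C _).symm
    rw [h2]
    exact tpl_alg_mem P _
  obtain ⟨-, h3⟩ := hu D' hD' hk'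
  have h4 : (RatFunc.X : RatFunc F0)⁻¹ ∈ D0 := by
    rw [hmem, map_inv₀, hφX, ← Units.val_inv_eq_inv_val]
    exact h3
  have h5 : P.valuation (RatFunc F0) RatFunc.X < 1 := by
    have h6 : (RatFunc.X : RatFunc F0) = algebraMap F0[X] (RatFunc F0) Polynomial.X :=
      RatFunc.algebraMap_X.symm
    rw [← tpl_nonunit, h6, tpl_alg_nonunit]
    change Polynomial.X ∈ Ideal.span {Polynomial.X}
    exact Ideal.subset_span rfl
  have h7 : P.valuation (RatFunc F0) (RatFunc.X)⁻¹ ≤ 1 := (tpl_mem P _).1 h4
  rw [map_inv₀] at h7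
  have h8 : P.valuation (RatFunc F0) RatFunc.X ≠ 0 :=
    (Valuation.ne_zero_iff _).2 RatFunc.X_ne_zero
  rw [inv_le_one₀ (zero_lt_iff.2 h8)] at h7
  exact absurd h5 (not_lt.2 h7)

end Pool.Agent.H19.UT
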