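import Pool.Agent.H19.UT.SpC

/-!
Project UT, row C06: the theorem on surfaces applied to the data.
-/

set_option autoImplicit false
set_option maxHeartbeats 400000

open Polynomial Pool.Agent.K1

namespace Pool.Agent.H19.UT

/-- The order of a constant at a discrete valuation ring which contains all constants. -/
theorem c06_ord {K L : Type} [Field K] [Field L] (φ : K →+* L) {D : ValuationSubring L}
    (hD : IsDiscV D) (h : ∀ a : K, φ a ∈ D) (f : Kˣ) : ordV D (φ f) = 0 := by
  have hne : ∀ f : Kˣ, φ (f : K) ≠ 0 := fun f => (_root_.map_ne_zero φ).2 (Units.ne_zero f)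
  have h2 := (mem_iff_ordV hD (hne f)).1 (h f)
  have h3 := (mem_iff_ordV hD (hne f⁻¹)).1 (h _)
  rw [Units.val_inv_eq_inv_val, map_inv₀, ordV_inv hD (hne f)] at h3
  omega

theorem sp_kill (h3 : SpGauss) (h4 : SpGf) (h5 : SpGfFin) : SpKill := by
  intro p k K L _ _ _ _ _ _ _ hB S τ hτ d hd
  obtain ⟨⟨g₀, hg₀⟩, hcyc⟩ := h4 p k K L hB τ hτ d hd
  have hc := hcyc g₀ hg₀
  obtain ⟨N, γ, hN, hγ⟩ := S.kill g₀ (fun s hs => hc.unit s (S.disc s hs))
    (h5 p k K L hB S τ hτ d g₀ hg₀) (fun R hR => hc.sum R (S.reg R hR))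
  refine ⟨N, γ, hN, ?_, ?_⟩
  · intro D hD hK hτD
    change TorsV D ((d.tw N (Sy.map (algebraMap K L) γ)).val D)
    rw [Dat.val_tw, sm_map_one (algebraMap K L) (c06_ord (algebraMap K L) hD hK), inv_one,
      mul_one]
    exact torsV_pow (hd D hD hK hτD) N
  · intro g hg s hs
    have hsd := S.disc s hs
    obtain ⟨⟨E, hE⟩, -, hprop⟩ := h3 K L τ hτ s hsd
    obtain ⟨-, hEs, hord, -⟩ := hprop E hE
    have h1 := (hg s hsd).2 E hE
    have h2 := (hg₀ s hsd).2 E hE
    have hsm : sm E (Sy.map (algebraMap K L) γ) =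
        Units.map (algebraMap K L : K →* L) (sm s γ) := by
      have h6 := sm_map_pow (algebraMap K L) (D' := E) 1 (fun f => by
        rw [hEs, hord, Nat.cast_one, one_mul]) γ
      rw [hEs, pow_one] at h6
      exact h6
    rw [Dat.val_tw, hsm] at h1
    have h7 : TorsV E (Units.map (algebraMap K L : K →* L) (sm s γ * (g₀ s ^ N)⁻¹)) := by
      rw [torsV_map, hEs]
      exact hγ s hs
    have h10 : TorsV E (Units.map (algebraMap K L : K →* L) (g s)) → TorsV s (g s) := by
      intro h11
      rw [torsV_map, hEs] at h11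
      exact h11
    apply h10
    have h8 := torsV_mul (torsV_mul (torsV_inv h1) (torsV_pow h2 N)) (torsV_inv h7)
    have h9 : (d.val E ^ N * (Units.map (algebraMap K L : K →* L) (sm s γ))⁻¹ *
        (Units.map (algebraMap K L : K →* L) (g s))⁻¹)⁻¹ *
        (d.val E * (Units.map (algebraMap K L : K →* L) (g₀ s))⁻¹) ^ N *
        (Units.map (algebraMap K L : K →* L) (sm s γ * (g₀ s ^ N)⁻¹))⁻¹ =
        Units.map (algebraMap K L : K →* L) (g s) := by
      rw [map_mul, map_inv, map_pow, mul_pow, inv_pow]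
      generalize d.val E ^ N = a
      generalize Units.map (algebraMap K L : K →* L) (sm s γ) = b
      generalize Units.map (algebraMap K L : K →* L) (g s) = c
      generalize (Units.map (algebraMap K L : K →* L) (g₀ s)) ^ N = e
      rw [mul_inv, mul_inv, mul_inv, inv_inv, inv_inv, inv_inv]
      calc a⁻¹ * b * c * (a * e⁻¹) * (b⁻¹ * e) = (a⁻¹ * a) * (b * b⁻¹) * (e⁻¹ * e) * c := by
            ac_rfl
        _ = c := by simp
    rwa [h9] at h8

end Pool.Agent.H19.UT
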