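import Pool.Agent.H19.UT.SpC

/-!
Project UT, row M01: the main theorem for `K(t)`.
-/

set_option autoImplicit false
set_option maxHeartbeats 400000

open Polynomial Pool.Agent.K1

namespace Pool.Agent.H19.UT

theorem sp_main (h3 : SpGauss) (ht : SpTate) (hi : SpInf) (hk : SpKPl) (h4 : SpGf)
    (h6 : SpKill) (h7 : SpAllK) (hct : SpCT) (he : SpAllDiv) : SpMain := by
  intro p k K L _ _ _ _ _ _ _ hB hF S τ hτ d
  have := hB.closed
  have := hB.char
  have : Fact p.Prime := ⟨hB.prime⟩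
  have : Infinite k := IsAlgClosed.instInfinite
  obtain ⟨α, hα⟩ := ht K L τ hτ d
  have hd1 : HDat (K := K) τ (d.tw 1 α) := by
    intro D hD hK hτD
    have h1 := hα D ⟨hD, hK, hτD⟩
    change TorsV D ((d.tw 1 α).val D)
    rw [Dat.val_tw, pow_one]
    exact h1
  obtain ⟨N, γ, hN, hd2, hs⟩ := h6 p k K L hB S τ hτ (d.tw 1 α) hd1
  obtain ⟨g, hg⟩ := (h4 p k K L hB τ hτ _ hd2).1
  have hall := h7 p k K L hB S τ hτ _ hd2 g hg (hs g hg)
  have hE : ∀ s : ValuationSubring K, IsDiscV s → Tr1 k s → ∀ E : ValuationSubring L,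
      IsGauss s τ E → ((d.tw 1 α).tw N (Sy.map (algebraMap K L) γ)).Triv E := by
    intro s hsd htr E hEg
    have h1 := (hg s hsd).2 E hEg
    have h2 := hall s hsd htr
    have h5 := ((h3 K L τ hτ s hsd).2.2 E hEg).2.1
    have h2' : TorsV E (Units.map (algebraMap K L : K →* L) (g s)) := by
      rw [torsV_map, h5]
      exact h2
    have h8 := torsV_mul h1 h2'
    rw [inv_mul_cancel_right] at h8
    exact h8
  obtain ⟨S0, hS0⟩ := hF.fg
  have hkp : KPl k K := hk p k K hB.tors S0 hS0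
  have hinf := hi k K L τ hτ hkp _ hd2
  have hct' := hct p k K L hB hF τ hτ _ hd2 hE
  have hfin := he p k K L hB hF τ hτ _ hd2 hinf hct'
  refine ⟨N, N • α + Sy.map (algebraMap K L) γ, hN, fun W hW htr => ?_⟩
  have h1 := hfin W hW htr
  change TorsV W (((d.tw 1 α).tw N (Sy.map (algebraMap K L) γ)).val W) at h1
  rw [Dat.val_tw, Dat.val_tw, pow_one] at h1
  have h2 := torsV_inv h1
  rw [sm_add, sm_nsmul]
  have h9 : ((d.val W * (sm W α)⁻¹) ^ N * (sm W (Sy.map (algebraMap K L) γ))⁻¹)⁻¹ =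
      sm W α ^ N * sm W (Sy.map (algebraMap K L) γ) * (d.val W ^ N)⁻¹ := by
    rw [mul_inv, inv_inv, mul_pow, inv_pow, mul_inv, inv_inv]
    rw [mul_comm (d.val W ^ N)⁻¹, mul_assoc, mul_comm (d.val W ^ N)⁻¹, ← mul_assoc]
  rw [← h9]
  exact h2

end Pool.Agent.H19.UT
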