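import Pool.Agent.H19.UT.SpC
import Pool.Agent.H19.UT.SpF

/-!
Project UT, row M02: the main theorem for subfields of `K(t)`.
-/

set_option autoImplicit false
set_option maxHeartbeats 400000

open Polynomial Pool.Agent.K1

namespace Pool.Agent.H19.UT

section m02

theorem M02_charP {k L F : Type} [Field k] [Field L] [Field F] [Algebra k L] [Algebra F L]
    (p : ℕ) (h : CharP k p) : CharP F p := by
  have := h
  have : CharP L p := charP_of_injective_algebraMap (algebraMap k L).injective p
  exact (algebraMap F L).charP (algebraMap F L).injective p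

theorem sp_mainF (hm : SpMain) (hn : SpNormDown) : SpMainF := by
  intro p k K L F _ _ _ _ _ _ _ _ _ _ hb hfg S τ hτ d
  have : Fact p.Prime := ⟨hb.prime⟩
  have : CharP F p := M02_charP (k := k) (L := L) p hb.char
  obtain ⟨N, β', hN, h1⟩ := hm p k K L hb hfg S τ hτ (d.map (algebraMap F L))
  obtain ⟨β, n, hn0, h2⟩ := hn p F L β'
  refine ⟨N * n, β, Nat.mul_pos hN hn0, fun D hD hT => ?_⟩
  have h3 := h2 D hD (d.β (d.idx D)) N ?_
  · rw [sm_sub, sm_nsmul] at h3
    exact h3
  · intro D' hD' hc
    have h4 := h1 D' hD' (hT D' hD' hc)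
    have h5 := val_tors hD' (d.map (algebraMap F L)) (d.idx D) (fun a ha => by
      classical
      obtain ⟨b, hb', rfl⟩ := Finset.mem_image.1 ha
      have h6 := d.idx_spec D b hb'
      rw [← hc] at h6
      exact h6)
    change TorsV D' ((d.map (algebraMap F L)).val D' *
      (sm D' (Sy.map (algebraMap F L) (d.β (d.idx D))))⁻¹) at h5
    rw [sm_sub, sm_nsmul]
    have h7 := torsV_mul h4 (torsV_pow h5 N)
    have h8 : sm D' β' * ((d.map (algebraMap F L)).val D' ^ N)⁻¹ *
        ((d.map (algebraMap F L)).val D' *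
          (sm D' (Sy.map (algebraMap F L) (d.β (d.idx D))))⁻¹) ^ N =
        sm D' β' * (sm D' (Sy.map (algebraMap F L) (d.β (d.idx D))) ^ N)⁻¹ := by
      rw [mul_pow, inv_pow]
      group
    rwa [h8] at h7

end m02

end Pool.Agent.H19.UT
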