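import Pool.Agent.H19.UT.SpF

/-!
Project UT, row F04: the norm of symbols for finite extensions.
-/

set_option autoImplicit false
set_option maxHeartbeats 400000

open Polynomial Pool.Agent.K1

namespace Pool.Agent.H19.UT

/-- Functoriality of `Sy.map`. -/
theorem f04_map_comp {A B C : Type} [Field A] [Field B] [Field C] (φ : A →+* B) (ψ : B →+* C)
    (β : Sy A) : Sy.map ψ (Sy.map φ β) = Sy.map (ψ.comp φ) β := by
  induction β using FreeAbelianGroup.induction_on with
  | zero => simp only [map_zero]
  | of p =>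
    obtain ⟨f, g⟩ := p
    rw [Sy.map_of, Sy.map_of, Sy.map_of]
    rfl
  | neg p hp => simp only [map_neg, hp]
  | add x y hx hy => simp only [map_add, hx, hy]

/-- The identity. -/
theorem f04_map_id {A : Type} [Field A] (β : Sy A) : Sy.map (RingHom.id A) β = β := by
  induction β using FreeAbelianGroup.induction_on with
  | zero => simp only [map_zero]
  | of p =>
    obtain ⟨f, g⟩ := p
    rw [Sy.map_of]
    rfl
  | neg p hp => simp only [map_neg, hp]
  | add x y hx hy => simp only [map_add, hx, hy]

/-- `psi` of the restriction. -/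
theorem f04_comap {A B : Type} [Field A] [Field B] (w : TwoVal B) (φ : A →+* B) (β : Sy A) :
    w.psi (Sy.map φ β) = (w.comap φ).psi β := by
  induction β using FreeAbelianGroup.induction_on with
  | zero => simp only [map_zero]
  | of p =>
    obtain ⟨f, g⟩ := p
    rw [Sy.map_of]
    exact (FreeAbelianGroup.lift_apply_of _ _).trans (FreeAbelianGroup.lift_apply_of _ _).symm
  | neg p hp => simp only [map_neg, hp]
  | add x y hx hy => simp only [map_add, hx, hy]

/-- The norm property of an extension. -/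
def F04NP (E E' Ω : Type) [Field E] [Field E'] [Field Ω] [Algebra E Ω] [Algebra E' Ω] : Prop :=
  ∀ β' : Sy E', ∃ (β : Sy E) (n : ℕ) (τ : Fin n → (Ω ≃ₐ[E] Ω)), 0 < n ∧
    ∀ w : TwoVal Ω, w.psi (Sy.map (algebraMap E Ω) β) =
      ∑ i, w.psi (Sy.map (((τ i : Ω ≃ₐ[E] Ω) : Ω →+* Ω).comp (algebraMap E' Ω)) β')

/-- The norm property is transitive. -/
theorem f04_trans (E E1 E' Ω : Type) [Field E] [Field E1] [Field E'] [Field Ω] [Algebra E E1]
    [Algebra E Ω] [Algebra E1 Ω] [Algebra E' Ω] [IsScalarTower E E1 Ω]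
    (hA : F04NP E E1 Ω) (hB : F04NP E1 E' Ω) : F04NP E E' Ω := by
  intro β'
  obtain ⟨β1, n1, τ1, hn1, h1⟩ := hB β'
  obtain ⟨β, n2, τ2, hn2, h2⟩ := hA β1
  refine ⟨β, n2 * n1, fun k =>
    ((τ1 (finProdFinEquiv.symm k).2).restrictScalars E).trans (τ2 (finProdFinEquiv.symm k).1),
    Nat.mul_pos hn2 hn1, fun w => ?_⟩
  rw [h2 w]
  have e1 : ∀ j : Fin n2, w.psi (Sy.map (((τ2 j : Ω ≃ₐ[E] Ω) : Ω →+* Ω).comp
      (algebraMap E1 Ω)) β1) =
      ∑ i, w.psi (Sy.map (((((τ1 i).restrictScalars E).trans (τ2 j) : Ω ≃ₐ[E] Ω) :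
        Ω →+* Ω).comp (algebraMap E' Ω)) β') := by
    intro j
    rw [← f04_map_comp, f04_comap, h1]
    refine Finset.sum_congr rfl fun i _ => ?_
    rw [← f04_comap, f04_map_comp]
    rfl
  rw [Finset.sum_congr rfl fun j _ => e1 j, ← Fintype.sum_prod_type']
  exact Fintype.sum_equiv finProdFinEquiv _ _ fun x => by
    simp only [Equiv.symm_apply_apply]

/-- The trivial case. -/
theorem f04_triv (E E' Ω : Type) [Field E] [Field E'] [Field Ω] [Algebra E E']
    [Algebra E Ω] [Algebra E' Ω] [IsScalarTower E E' Ω]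
    (h : ∀ x : E', ∃ y : E, algebraMap E E' y = x) : F04NP E E' Ω := by
  have hbij : Function.Bijective (algebraMap E E') := ⟨(algebraMap E E').injective, h⟩
  set e : E ≃+* E' := RingEquiv.ofBijective (algebraMap E E') hbij with he
  intro β'
  refine ⟨Sy.map (e.symm : E' →+* E) β', 1, fun _ => AlgEquiv.refl, one_pos, fun w => ?_⟩
  rw [f04_map_comp, Fin.sum_univ_one]
  have h2 : (algebraMap E Ω).comp (e.symm : E' →+* E) =
      ((AlgEquiv.refl : Ω ≃ₐ[E] Ω) : Ω →+* Ω).comp (algebraMap E' Ω) := by
    refine RingHom.ext fun x => ?_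
    change algebraMap E Ω (e.symm x) = algebraMap E' Ω x
    have h1 : algebraMap E E' (e.symm x) = x := e.apply_symm_apply x
    rw [IsScalarTower.algebraMap_apply E E' Ω, h1]
  rw [h2]

theorem norm_all (h3 : SpNormSimple) : SpNorm := by
  have key : ∀ (m : ℕ) (E E' Ω : Type) [Field E] [Field E'] [Field Ω] [Algebra E E']
      [Algebra E Ω] [Algebra E' Ω] [IsScalarTower E E' Ω] [IsAlgClosed Ω]
      [Algebra.IsAlgebraic E Ω] [FiniteDimensional E E'], Module.finrank E E' = m →
      F04NP E E' Ω := by
    intro m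
    induction m using Nat.strong_induction_on with
    | _ m ih =>
      intro E E' Ω _ _ _ _ _ _ _ _ _ _ hm
      by_cases ht : ∀ x : E', ∃ y : E, algebraMap E E' y = x
      · exact f04_triv E E' Ω ht
      · push Not at ht
        obtain ⟨θ, hθ⟩ := ht
        have hint : IsIntegral E θ := Algebra.IsIntegral.isIntegral θ
        let E1 : IntermediateField E E' := IntermediateField.adjoin E {θ}
        have hθ1 : θ ∈ E1 := IntermediateField.mem_adjoin_simple_self E θ
        have a1 : Algebra.IsAlgebraic E1 Ω := Algebra.IsAlgebraic.tower_top (K := E) E1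
        have hne : Module.finrank E E1 ≠ 1 := by
          intro h1
          have h2 : E1 = ⊥ := IntermediateField.finrank_eq_one_iff.1 h1
          rw [h2, IntermediateField.mem_bot] at hθ1
          obtain ⟨y, hy⟩ := hθ1
          exact hθ y hy
        have hmul : Module.finrank E E1 * Module.finrank E1 E' = Module.finrank E E' :=
          Module.finrank_mul_finrank E E1 E'
        have hpos1 : 0 < Module.finrank E E1 := Module.finrank_pos
        have hpos2 : 0 < Module.finrank E1 E' := Module.finrank_pos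
        have hlt : Module.finrank E1 E' < m := by
          rw [← hm, ← hmul]
          have h2 : 2 ≤ Module.finrank E E1 := by omega
          nlinarith
        refine f04_trans E E1 E' Ω ?_ (ih _ hlt E1 E' Ω rfl)
        have htop : IntermediateField.adjoin E {(⟨θ, hθ1⟩ : E1)} = ⊤ := by
          apply IntermediateField.lift_injective E1
          rw [IntermediateField.lift_adjoin_simple, IntermediateField.lift_top]
        exact h3 E E1 Ω ⟨θ, hθ1⟩ (Algebra.IsIntegral.isIntegral _) htop
  intro E E' Ω _ _ _ _ _ _ _ _ _ _ β'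
  exact key _ E E' Ω rfl β'

end Pool.Agent.H19.UT
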