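import Pool.Agent.H19.UT.SpF

/-!
Project UT, row F11: norm down (helper53).
-/

set_option autoImplicit false
set_option maxHeartbeats 400000

open Polynomial Pool.Agent.K1

namespace Pool.Agent.H19.UT

section f11

variable {L L' L'' : Type} [Field L] [Field L'] [Field L'']

theorem f11_psi_of (w : TwoVal L) (p : Lˣ × Lˣ) :
    w.psi (FreeAbelianGroup.of p) = w.det p.1 p.2 := by
  unfold TwoVal.psi
  rw [FreeAbelianGroup.lift_apply_of]

/-- `psi` of a restriction. -/
theorem f11_psi_comap (w : TwoVal L') (φ : L →+* L') (β : Sy L) :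
    (w.comap φ).psi β = w.psi (Sy.map φ β) := by
  have h : (w.comap φ).psi = w.psi.comp (Sy.map φ) := by
    refine FreeAbelianGroup.lift_ext _ _ fun p => ?_
    rw [f11_psi_of, AddMonoidHom.comp_apply]
    obtain ⟨f, g⟩ := p
    rw [Sy.map_of, f11_psi_of]
    rfl
  rw [h]
  rfl

theorem f11_map_comp (φ : L →+* L') (ψ : L' →+* L'') (β : Sy L) :
    Sy.map (ψ.comp φ) β = Sy.map ψ (Sy.map φ β) := by
  have h : Sy.map (ψ.comp φ) = (Sy.map ψ).comp (Sy.map φ) := by
    refine FreeAbelianGroup.lift_ext _ _ fun p => ?_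
    obtain ⟨f, g⟩ := p
    rw [AddMonoidHom.comp_apply, Sy.map_of, Sy.map_of, Sy.map_of]
    congr 1
  rw [h]
  rfl

end f11

/-- F11: norm down. -/
theorem norm_down (h4 : SpNorm) (h5 : SpPsi) (h6 : SpExtDisc) (h10 : SpW) : SpNormDown := by
  intro p _ F E _ _ _ _ _ β'
  haveI : Algebra.IsAlgebraic F E := Algebra.IsAlgebraic.of_finite F E
  haveI : Algebra.IsAlgebraic F (AlgebraicClosure E) :=
    Algebra.IsAlgebraic.trans F E (AlgebraicClosure E)
  obtain ⟨β, n, τ, hn, hβ⟩ := h4 F E (AlgebraicClosure E) β'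
  refine ⟨β, n, hn, fun D hD βD N hyp => ?_⟩
  by_contra hnt
  obtain ⟨w, hw1, hw2⟩ := h10 p F (AlgebraicClosure E) D hD _
    (unitIn_sm hD (β - (N * n) • βD)) hnt
  set γ : Sy F := β - (N * n) • βD with hγ
  set j : F →+* AlgebraicClosure E := algebraMap F (AlgebraicClosure E) with hj
  have hF := (h5 F D hD (w.comap j) 1 one_pos (fun f => by
    rw [one_mul]; exact hw1 f)).1 γ
  have hne : (w.comap j).psi γ ≠ 0 := by
    rw [hF]
    have h1 : (w.comap j).w2 (sm D γ) ≠ 0 := hw2
    intro h2
    apply h1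
    linarith
  apply hne
  rw [f11_psi_comap, hγ, map_sub, map_nsmul, map_sub, map_nsmul, hβ]
  have hcomp : ∀ i, (((τ i : AlgebraicClosure E ≃ₐ[F] AlgebraicClosure E) :
      AlgebraicClosure E →+* AlgebraicClosure E).comp
        (algebraMap E (AlgebraicClosure E))).comp (algebraMap F E) = j := by
    intro i
    ext x
    change τ i (algebraMap E (AlgebraicClosure E) (algebraMap F E x)) = j x
    rw [← IsScalarTower.algebraMap_apply F E (AlgebraicClosure E)]
    exact (τ i).commutes x
  have hzero : ∀ i, w.psi (Sy.map (((τ i : AlgebraicClosure E ≃ₐ[F] AlgebraicClosure E) :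
      AlgebraicClosure E →+* AlgebraicClosure E).comp
        (algebraMap E (AlgebraicClosure E))) β') = N * w.psi (Sy.map j βD) := by
    intro i
    set φ : E →+* AlgebraicClosure E :=
      ((τ i : AlgebraicClosure E ≃ₐ[F] AlgebraicClosure E) :
      AlgebraicClosure E →+* AlgebraicClosure E).comp
        (algebraMap E (AlgebraicClosure E)) with hφ
    obtain ⟨D', e, hD', hcom, he, hval⟩ := h6 F E D hD (w.comap φ) (fun f => by
      have h1 : (w.comap φ).w1 (Units.map (algebraMap F E : F →* E) f) =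
          w.w1 (Units.map (j : F →* AlgebraicClosure E) f) := by
        change w.w1 (Units.map (φ : E →* AlgebraicClosure E)
          (Units.map (algebraMap F E : F →* E) f)) = _
        congr 1
        ext
        change φ (algebraMap F E f) = j f
        rw [← hcomp i]
        rfl
      rw [h1]
      exact hw1 f)
    obtain ⟨h7, h8⟩ := h5 E D' hD' (w.comap φ) e he hval
    have h9 := h7 (β' - N • Sy.map (algebraMap F E) βD)
    rw [(h8 _ (hyp D' hD' hcom)).2, mul_zero, f11_psi_comap, map_sub, map_sub, map_nsmul,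
      map_nsmul, ← f11_map_comp, hcomp i, nsmul_eq_mul] at h9
    linarith
  rw [Finset.sum_congr rfl (fun i _ => hzero i), Finset.sum_const, Finset.card_univ,
    Fintype.card_fin, nsmul_eq_mul, nsmul_eq_mul]
  push_cast
  ring

end Pool.Agent.H19.UT
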