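import Pool.Agent.H19.UT.SpF

/-!
Project UT, row F02 (helper92): the norm of the symbols `{f(θ), g(θ)}`, `θ` a root of `P`.
-/

set_option autoImplicit false
set_option maxHeartbeats 400000

open Polynomial Pool.Agent.K1

namespace Pool.Agent.H19.UT

section f02

variable {Ω : Type} [Field Ω]

/-- The formal properties of the determinant of the values. -/
structure F02Det (D : Ω → Ω → ℚ) : Prop where
  mul : ∀ a b c : Ω, a ≠ 0 → b ≠ 0 → c ≠ 0 → D (a * b) c = D a c + D b c
  neg : ∀ a b : Ω, a ≠ 0 → b ≠ 0 → D (-a) b = D a b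
  anti : ∀ a b : Ω, a ≠ 0 → b ≠ 0 → D a b = - D b a
  st : ∀ a b c : Ω, a ≠ 0 → b ≠ 0 → c ≠ 0 → a + b + c = 0 → D a b + D b c + D c a = 0

theorem f02_det0 (w : TwoVal Ω) {a b : Ω} (ha : a ≠ 0) (hb : b ≠ 0) :
    w.det0 a b = w.det (Units.mk0 a ha) (Units.mk0 b hb) := by
  unfold TwoVal.det0
  rw [dif_pos ⟨ha, hb⟩]

theorem f02_isDet (h1 : SpSt) (w : TwoVal Ω) : F02Det w.det0 := by
  obtain ⟨hst, hneg, hanti, hmul, -⟩ := h1 Ω w
  refine ⟨?_, ?_, ?_, ?_⟩
  · intro a b c ha hb hc
    have h2 : Units.mk0 (a * b) (mul_ne_zero ha hb) = Units.mk0 a ha * Units.mk0 b hb :=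
      Units.ext rfl
    rw [f02_det0 w (mul_ne_zero ha hb) hc, f02_det0 w ha hc, f02_det0 w hb hc, ← hmul, h2]
  · intro a b ha hb
    have h2 : Units.mk0 (-a) (neg_ne_zero.2 ha) = - Units.mk0 a ha := Units.ext rfl
    rw [f02_det0 w (neg_ne_zero.2 ha) hb, f02_det0 w ha hb, h2, hneg]
  · intro a b ha hb
    rw [f02_det0 w ha hb, f02_det0 w hb ha, hanti]
  · intro a b c ha hb hc h
    rw [f02_det0 w ha hb, f02_det0 w hb hc, f02_det0 w hc ha]
    exact hst _ _ _ h

namespace F02Det

variable {D : Ω → Ω → ℚ}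

theorem mul' (hD : F02Det D) {a b c : Ω} (ha : a ≠ 0) (hb : b ≠ 0) (hc : c ≠ 0) :
    D c (a * b) = D c a + D c b := by
  rw [hD.anti c (a * b) hc (mul_ne_zero ha hb), hD.mul a b c ha hb hc, hD.anti c a hc ha,
    hD.anti c b hc hb]
  ring

theorem neg' (hD : F02Det D) {a b : Ω} (ha : a ≠ 0) (hb : b ≠ 0) : D a (-b) = D a b := by
  rw [hD.anti a (-b) ha (neg_ne_zero.2 hb), hD.neg b a hb ha, hD.anti a b ha hb]

theorem one (hD : F02Det D) {c : Ω} (hc : c ≠ 0) : D 1 c = 0 := by
  have h := hD.mul 1 1 c one_ne_zero one_ne_zero hc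
  rw [mul_one] at h
  linarith

theorem self (hD : F02Det D) {c : Ω} (hc : c ≠ 0) : D c c = 0 := by
  have h := hD.anti c c hc hc
  linarith

theorem prod (hD : F02Det D) {c : Ω} (hc : c ≠ 0) (f : Ω → Ω) (m : Multiset Ω)
    (hm : ∀ x ∈ m, f x ≠ 0) : D (m.map f).prod c = (m.map fun x => D (f x) c).sum := by
  induction m using Multiset.induction_on with
  | empty => simpa using hD.one hc
  | cons a s ih =>
    have ha : f a ≠ 0 := hm a (Multiset.mem_cons_self a s)
    have hs : ∀ x ∈ s, f x ≠ 0 := fun x hx => hm x (Multiset.mem_cons_of_mem hx)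
    have hp : (s.map f).prod ≠ 0 := by
      rw [Ne, Multiset.prod_eq_zero_iff, Multiset.mem_map]
      rintro ⟨x, hx, h0⟩
      exact hs x hx h0
    rw [Multiset.map_cons, Multiset.prod_cons, hD.mul _ _ _ ha hp hc, ih hs, Multiset.map_cons,
      Multiset.sum_cons]

theorem prod' (hD : F02Det D) {c : Ω} (hc : c ≠ 0) (f : Ω → Ω) (m : Multiset Ω)
    (hm : ∀ x ∈ m, f x ≠ 0) : D c (m.map f).prod = (m.map fun x => D c (f x)).sum := by
  have hp : (m.map f).prod ≠ 0 := by
    rw [Ne, Multiset.prod_eq_zero_iff, Multiset.mem_map]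
    rintro ⟨x, hx, h0⟩
    exact hm x hx h0
  rw [hD.anti c _ hc hp, hD.prod hc f m hm, ← Multiset.sum_map_neg]
  refine congrArg Multiset.sum (Multiset.map_congr rfl fun x hx => ?_)
  rw [hD.anti c _ hc (hm x hx)]

/-- Reciprocity with a constant. -/
theorem recip_const (hD : F02Det D) {c : Ω} (hc : c ≠ 0) (R T : Multiset Ω)
    (h : ∀ r ∈ R, ∀ t ∈ T, r ≠ t) :
    (R.map fun r => D c (T.map fun t => r - t).prod).sum =
      (T.map fun t => D c (R.map fun r => t - r).prod).sum := by
  have h1 : (R.map fun r => D c (T.map fun t => r - t).prod) =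
      R.map fun r => (T.map fun t => D c (r - t)).sum :=
    Multiset.map_congr rfl fun r hr =>
      hD.prod' hc (fun t => r - t) T fun t ht => sub_ne_zero.2 (h r hr t ht)
  have h2 : (T.map fun t => D c (R.map fun r => t - r).prod) =
      T.map fun t => (R.map fun r => D c (t - r)).sum :=
    Multiset.map_congr rfl fun t ht =>
      hD.prod' hc (fun r => t - r) R fun r hr => sub_ne_zero.2 (h r hr t ht).symm
  rw [h1, h2, Multiset.sum_map_sum_map]
  refine congrArg Multiset.sum (Multiset.map_congr rfl fun t ht => ?_)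
  refine congrArg Multiset.sum (Multiset.map_congr rfl fun r hr => ?_)
  rw [← hD.neg' hc (sub_ne_zero.2 (h r hr t ht)), neg_sub]

/-- Reciprocity for three multisets. -/
theorem recip (hD : F02Det D) (R S T : Multiset Ω) (hRS : ∀ r ∈ R, ∀ s ∈ S, r ≠ s)
    (hRT : ∀ r ∈ R, ∀ t ∈ T, r ≠ t) (hST : ∀ s ∈ S, ∀ t ∈ T, s ≠ t) :
    (R.map fun r => D (S.map fun s => r - s).prod (T.map fun t => r - t).prod).sum =
      (S.map fun s => D (R.map fun r => s - r).prod (T.map fun t => s - t).prod).sum +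
      (T.map fun t => D (S.map fun s => t - s).prod (R.map fun r => t - r).prod).sum := by
  have key : ∀ (c : Ω) (A B : Multiset Ω), (∀ a ∈ A, c ≠ a) → (∀ b ∈ B, c ≠ b) →
      D (A.map fun a => c - a).prod (B.map fun b => c - b).prod =
        (A.map fun a => (B.map fun b => D (c - a) (c - b)).sum).sum := by
    intro c A B hA hB
    have hp : (B.map fun b => c - b).prod ≠ 0 := by
      rw [Ne, Multiset.prod_eq_zero_iff, Multiset.mem_map]
      rintro ⟨x, hx, h0⟩
      exact hB x hx (sub_eq_zero.1 h0)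
    rw [hD.prod hp (fun a => c - a) A fun a ha => sub_ne_zero.2 (hA a ha)]
    refine congrArg Multiset.sum (Multiset.map_congr rfl fun a ha => ?_)
    exact hD.prod' (sub_ne_zero.2 (hA a ha)) (fun b => c - b) B fun b hb =>
      sub_ne_zero.2 (hB b hb)
  have h1 : (R.map fun r => D (S.map fun s => r - s).prod (T.map fun t => r - t).prod) =
      R.map fun r => (S.map fun s => (T.map fun t => D (r - s) (r - t)).sum).sum :=
    Multiset.map_congr rfl fun r hr => key r S T (hRS r hr) (hRT r hr)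
  have h2 : (S.map fun s => D (R.map fun r => s - r).prod (T.map fun t => s - t).prod) =
      S.map fun s => (R.map fun r => (T.map fun t => D (s - r) (s - t)).sum).sum :=
    Multiset.map_congr rfl fun s hs => key s R T (fun r hr => (hRS r hr s hs).symm) (hST s hs)
  have h3 : (T.map fun t => D (S.map fun s => t - s).prod (R.map fun r => t - r).prod) =
      T.map fun t => (S.map fun s => (R.map fun r => D (t - s) (t - r)).sum).sum :=
    Multiset.map_congr rfl fun t ht => key t S R (fun s hs => (hST s hs t ht).symm)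
      fun r hr => (hRT r hr t ht).symm
  have h2' : (S.map fun s => (R.map fun r => (T.map fun t => D (s - r) (s - t)).sum).sum).sum =
      (R.map fun r => (S.map fun s => (T.map fun t => D (s - r) (s - t)).sum).sum).sum :=
    Multiset.sum_map_sum_map S R
  have h3' : (T.map fun t => (S.map fun s => (R.map fun r => D (t - s) (t - r)).sum).sum).sum =
      (R.map fun r => (S.map fun s => (T.map fun t => D (t - s) (t - r)).sum).sum).sum := by
    have h4 : (T.map fun t => (S.map fun s => (R.map fun r => D (t - s) (t - r)).sum).sum) =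
        T.map fun t => (R.map fun r => (S.map fun s => D (t - s) (t - r)).sum).sum :=
      Multiset.map_congr rfl fun t _ => Multiset.sum_map_sum_map S R
    rw [h4, Multiset.sum_map_sum_map]
    refine congrArg Multiset.sum (Multiset.map_congr rfl fun r _ => ?_)
    exact Multiset.sum_map_sum_map T S
  rw [h1, h2, h3, h2', h3', ← Multiset.sum_map_add]
  refine congrArg Multiset.sum (Multiset.map_congr rfl fun r hr => ?_)
  rw [← Multiset.sum_map_add]
  refine congrArg Multiset.sum (Multiset.map_congr rfl fun s hs => ?_)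
  rw [← Multiset.sum_map_add]
  refine congrArg Multiset.sum (Multiset.map_congr rfl fun t ht => ?_)
  have hrs : r - s ≠ 0 := sub_ne_zero.2 (hRS r hr s hs)
  have hrt : r - t ≠ 0 := sub_ne_zero.2 (hRT r hr t ht)
  have hst : s - t ≠ 0 := sub_ne_zero.2 (hST s hs t ht)
  have htr : t - r ≠ 0 := sub_ne_zero.2 (hRT r hr t ht).symm
  have e1 : D (s - r) (s - t) = D (r - s) (s - t) := by
    rw [← hD.neg _ _ hrs hst, neg_sub]
  have e2 : D (t - s) (t - r) = D (s - t) (t - r) := by
    rw [← hD.neg _ _ hst htr, neg_sub]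
  have e3 : D (r - s) (r - t) = D (r - s) (t - r) := by
    rw [← hD.neg' hrs hrt, neg_sub]
  have e4 := hD.anti (r - s) (t - r) hrs htr
  have e5 := hD.st (r - s) (s - t) (t - r) hrs hst htr (by ring)
  rw [e1, e2, e3]
  linarith

end F02Det

end f02

section main

variable {E Ω : Type} [Field E] [Field Ω] [Algebra E Ω]

/-- A function of the valuation which comes from a symbol over `E`. -/
def F02Im (E : Type) {Ω : Type} [Field E] [Field Ω] [Algebra E Ω] (Φ : TwoVal Ω → ℚ) : Prop :=
  ∃ β : Sy E, ∀ w : TwoVal Ω, w.psi (Sy.map (algebraMap E Ω) β) = Φ w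

theorem F02Im.add {Φ Ψ : TwoVal Ω → ℚ} (h : F02Im E Φ) (h' : F02Im E Ψ) :
    F02Im E fun w => Φ w + Ψ w := by
  obtain ⟨β, hβ⟩ := h
  obtain ⟨β', hβ'⟩ := h'
  exact ⟨β + β', fun w => by rw [map_add, map_add, hβ, hβ']⟩

theorem F02Im.neg {Φ : TwoVal Ω → ℚ} (h : F02Im E Φ) : F02Im E fun w => - Φ w := by
  obtain ⟨β, hβ⟩ := h
  exact ⟨-β, fun w => by rw [map_neg, map_neg, hβ]⟩

theorem F02Im.zero : F02Im E fun _ : TwoVal Ω => (0 : ℚ) :=
  ⟨0, fun w => by rw [map_zero, map_zero]⟩

theorem F02Im.congr {Φ Ψ : TwoVal Ω → ℚ} (h : F02Im E Φ) (h' : ∀ w, Ψ w = Φ w) :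
    F02Im E Ψ := by
  obtain ⟨β, hβ⟩ := h
  exact ⟨β, fun w => by rw [hβ, h']⟩

/-- The sum over the roots. -/
noncomputable def f02S (P f g : E[X]) (w : TwoVal Ω) : ℚ :=
  (((P.map (algebraMap E Ω)).roots).map fun r => w.det0 (aeval r f) (aeval r g)).sum

theorem f02_ne {P f : E[X]} (hP : Irreducible P) (hf : ¬ P ∣ f) {r : Ω}
    (hr : r ∈ (P.map (algebraMap E Ω)).roots) : aeval r f ≠ 0 := by
  intro h0
  have hr' : aeval r P = 0 := by
    have h2 := (mem_roots'.1 hr).2
    rwa [IsRoot.def, eval_map_algebraMap] at h2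
  have hco : IsCoprime P f := (hP.coprime_iff_not_dvd).2 hf
  obtain ⟨a, b, hab⟩ := hco
  have h3 := congrArg (aeval r) hab
  rw [map_add, map_mul, map_mul, hr', h0, mul_zero, mul_zero, add_zero, map_one] at h3
  exact zero_ne_one h3

theorem f02_roots_ne {P f : E[X]} (hP : Irreducible P) (hf : ¬ P ∣ f) {r s : Ω}
    (hr : r ∈ (P.map (algebraMap E Ω)).roots) (hs : s ∈ (f.map (algebraMap E Ω)).roots) :
    r ≠ s := by
  rintro rfl
  refine f02_ne hP hf hr ?_
  have h2 := (mem_roots'.1 hs).2
  rwa [IsRoot.def, eval_map_algebraMap] at h2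

theorem f02_aeval [IsAlgClosed Ω] {f : E[X]} (hf : f.Monic) (x : Ω) :
    aeval x f = ((f.map (algebraMap E Ω)).roots.map fun t => x - t).prod :=
  Splits.aeval_eq_prod_aroots_of_monic (IsAlgClosed.splits _) hf x

theorem f02_mul (h1 : SpSt) {P f f' g : E[X]} (hP : Irreducible P) (hf : ¬ P ∣ f)
    (hf' : ¬ P ∣ f') (hg : ¬ P ∣ g) (w : TwoVal Ω) :
    f02S P (f * f') g w = f02S P f g w + f02S P f' g w := by
  unfold f02S
  rw [← Multiset.sum_map_add]
  refine congrArg Multiset.sum (Multiset.map_congr rfl fun r hr => ?_)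
  rw [map_mul]
  exact (f02_isDet h1 w).mul _ _ _ (f02_ne hP hf hr) (f02_ne hP hf' hr) (f02_ne hP hg hr)

theorem f02_anti (h1 : SpSt) {P f g : E[X]} (hP : Irreducible P) (hf : ¬ P ∣ f)
    (hg : ¬ P ∣ g) (w : TwoVal Ω) : f02S P f g w = - f02S P g f w := by
  unfold f02S
  rw [← Multiset.sum_map_neg]
  refine congrArg Multiset.sum (Multiset.map_congr rfl fun r hr => ?_)
  exact (f02_isDet h1 w).anti _ _ (f02_ne hP hf hr) (f02_ne hP hg hr)

theorem f02_mod {P f g : E[X]} (w : TwoVal Ω) :
    f02S P (f %ₘ P) g w = f02S P f g w := by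
  unfold f02S
  refine congrArg Multiset.sum (Multiset.map_congr rfl fun r hr => ?_)
  have hr' : aeval r P = 0 := by
    have h2 := (mem_roots'.1 hr).2
    rwa [IsRoot.def, eval_map_algebraMap] at h2
  have h3 : aeval r (f %ₘ P) = aeval r f := by
    rw [modByMonic_eq_sub_mul_div, map_sub, map_mul, hr', zero_mul, sub_zero]
  rw [h3]

theorem f02_not_dvd {P f : E[X]} (hf : f ≠ 0) (hd : f.natDegree < P.natDegree) : ¬ P ∣ f :=
  fun h => absurd (natDegree_le_of_dvd h hf) (not_le.2 hd)

/-- It is enough to treat constants and monic irreducible polynomials of smaller degree. -/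
theorem f02_red (h1 : SpSt) {P g : E[X]} (hPm : P.Monic) (hP : Irreducible P) (hg : ¬ P ∣ g)
    (hc : ∀ c : E, c ≠ 0 → F02Im E (f02S (Ω := Ω) P (C c) g))
    (hq : ∀ q : E[X], q.Monic → Irreducible q → q.natDegree < P.natDegree →
      F02Im E (f02S (Ω := Ω) P q g)) :
    ∀ f : E[X], ¬ P ∣ f → F02Im E (f02S (Ω := Ω) P f g) := by
  have hP1 : P ≠ 1 := fun h => hP.not_isUnit (by rw [h]; exact isUnit_one)
  have hPd : 0 < P.natDegree := hP.natDegree_pos
  have hcc : ∀ c : E, c ≠ 0 → ¬ P ∣ C c := fun c hc0 =>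
    f02_not_dvd (C_ne_zero.2 hc0) (by rw [natDegree_C]; exact hPd)
  have key : ∀ f : E[X], f ≠ 0 → f.natDegree < P.natDegree →
      F02Im E (f02S (Ω := Ω) P f g) := by
    intro f
    induction f using WfDvdMonoid.induction_on_irreducible with
    | zero => intro h; exact absurd rfl h
    | unit u hu =>
      intro hu0 _
      obtain ⟨c, hcu, hc'⟩ := Polynomial.isUnit_iff.1 hu
      rw [← hc']
      exact hc c hcu.ne_zero
    | mul a i ha hi ih =>
      intro h0 hd
      have hi0 : i ≠ 0 := hi.ne_zero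
      rw [natDegree_mul hi0 ha] at hd
      have hl : i.leadingCoeff ≠ 0 := leadingCoeff_ne_zero.2 hi0
      have hli : (i.leadingCoeff)⁻¹ ≠ 0 := inv_ne_zero hl
      have hq1 : (i * C (i.leadingCoeff)⁻¹).Monic := monic_mul_leadingCoeff_inv hi0
      have hq2 : Irreducible (i * C (i.leadingCoeff)⁻¹) := by
        have h4 : Associated i (i * C (i.leadingCoeff)⁻¹) := by
          refine ⟨(isUnit_C.2 hli.isUnit).unit, rfl⟩
        exact h4.irreducible hi
      have hq3 : (i * C (i.leadingCoeff)⁻¹).natDegree = i.natDegree :=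
        natDegree_mul_leadingCoeff_inv i hi0
      have hi' : i = C i.leadingCoeff * (i * C (i.leadingCoeff)⁻¹) := by
        rw [mul_comm i, ← mul_assoc, ← C_mul, mul_inv_cancel₀ hl, C_1, one_mul]
      have hin : ¬ P ∣ i := f02_not_dvd hi0 (by omega)
      have han : ¬ P ∣ a := f02_not_dvd ha (by omega)
      have hqn : ¬ P ∣ (i * C (i.leadingCoeff)⁻¹) :=
        f02_not_dvd hq1.ne_zero (by rw [hq3]; omega)
      have hI : F02Im E (f02S (Ω := Ω) P i g) := by
        refine ((hc _ hl).add (hq _ hq1 hq2 (by rw [hq3]; omega))).congr fun w => ?_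
        conv_lhs => rw [hi']
        exact f02_mul h1 hP (hcc _ hl) hqn hg w
      exact (hI.add (ih ha (by omega))).congr fun w => f02_mul h1 hP hin han hg w
  intro f hf
  have h0 : f %ₘ P ≠ 0 := fun h => hf ((modByMonic_eq_zero_iff_dvd hPm).1 h)
  exact (key (f %ₘ P) h0 (natDegree_modByMonic_lt f hPm hP1)).congr fun w =>
    (f02_mod w).symm

theorem f02_main (h1 : SpSt) [IsAlgClosed Ω] : ∀ (n : ℕ) (P : E[X]), P.natDegree = n →
    P.Monic → Irreducible P → ∀ f g : E[X], ¬ P ∣ f → ¬ P ∣ g →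
    F02Im E (f02S (Ω := Ω) P f g) := by
  intro n
  induction n using Nat.strong_induction_on with
  | _ n ih =>
    intro P hn hPm hP
    have hPd : 0 < P.natDegree := hP.natDegree_pos
    have hcc : ∀ c : E, c ≠ 0 → ¬ P ∣ C c := fun c hc0 =>
      f02_not_dvd (C_ne_zero.2 hc0) (by rw [natDegree_C]; exact hPd)
    have hccq : ∀ (q : E[X]), Irreducible q → ∀ c : E, c ≠ 0 → ¬ q ∣ C c := fun q hq c hc0 =>
      f02_not_dvd (C_ne_zero.2 hc0) (by rw [natDegree_C]; exact hq.natDegree_pos)
    -- distinct monic irreducible polynomials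
    have hdist : ∀ q q' : E[X], q.Monic → q'.Monic → Irreducible q → Irreducible q' →
        q ≠ q' → ¬ q ∣ q' := by
      intro q q' hq hq' hi hi' hne hd
      exact hne (eq_of_monic_of_associated hq hq' (hi.associated_of_dvd hi' hd))
    -- (i)
    have c1 : ∀ c c' : E, c ≠ 0 → c' ≠ 0 → F02Im E (f02S (Ω := Ω) P (C c) (C c')) := by
      intro c c' hc hc'
      refine ⟨Multiset.card (P.map (algebraMap E Ω)).roots •
        FreeAbelianGroup.of (Units.mk0 c hc, Units.mk0 c' hc'), fun w => ?_⟩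
      have hmap : Sy.map (algebraMap E Ω)
          (FreeAbelianGroup.of (Units.mk0 c hc, Units.mk0 c' hc')) =
          FreeAbelianGroup.of (Units.map (algebraMap E Ω : E →* Ω) (Units.mk0 c hc),
            Units.map (algebraMap E Ω : E →* Ω) (Units.mk0 c' hc')) := by
        unfold Sy.map
        rw [FreeAbelianGroup.map_of_apply]
        rfl
      have hpsi : w.psi (FreeAbelianGroup.of
          (Units.map (algebraMap E Ω : E →* Ω) (Units.mk0 c hc),
            Units.map (algebraMap E Ω : E →* Ω) (Units.mk0 c' hc'))) =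
          w.det0 (algebraMap E Ω c) (algebraMap E Ω c') := by
        unfold TwoVal.psi
        rw [FreeAbelianGroup.lift_apply_of, f02_det0 w
          ((map_ne_zero (algebraMap E Ω)).2 hc) ((map_ne_zero (algebraMap E Ω)).2 hc')]
        congr 1 <;> exact Units.ext rfl
      rw [map_nsmul, map_nsmul, hmap, hpsi]
      unfold f02S
      simp only [aeval_C]
      rw [Multiset.map_const', Multiset.sum_replicate]
    -- (ii)
    have c2 : ∀ (c : E) (q : E[X]), c ≠ 0 → q.Monic → Irreducible q →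
        q.natDegree < P.natDegree → F02Im E (f02S (Ω := Ω) P (C c) q) := by
      intro c q hc hqm hq hd
      have hne : P ≠ q := fun h => by rw [h] at hd; exact lt_irrefl _ hd
      have hPq : ¬ P ∣ q := hdist P q hPm hqm hP hq hne
      have hqP : ¬ q ∣ P := hdist q P hqm hPm hq hP hne.symm
      refine (ih q.natDegree (by omega) q rfl hqm hq (C c) P (hccq q hq c hc) hqP).congr
        fun w => ?_
      unfold f02S
      simp only [aeval_C, f02_aeval hqm, f02_aeval hPm]
      exact (f02_isDet h1 w).recip_const ((map_ne_zero (algebraMap E Ω)).2 hc) _ _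
        fun r hr t ht => f02_roots_ne hP hPq hr ht
    -- (iii), (iv)
    have c3 : ∀ (q q' : E[X]), q.Monic → Irreducible q → q.natDegree < P.natDegree →
        q'.Monic → Irreducible q' → q'.natDegree < P.natDegree →
        F02Im E (f02S (Ω := Ω) P q q') := by
      intro q q' hqm hq hd hqm' hq' hd'
      have hne : P ≠ q := fun h => by rw [h] at hd; exact lt_irrefl _ hd
      have hPq : ¬ P ∣ q := hdist P q hPm hqm hP hq hne
      have hqP : ¬ q ∣ P := hdist q P hqm hPm hq hP hne.symm
      have hne' : P ≠ q' := fun h => by rw [h] at hd'; exact lt_irrefl _ hd'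
      have hPq' : ¬ P ∣ q' := hdist P q' hPm hqm' hP hq' hne'
      have hqP' : ¬ q' ∣ P := hdist q' P hqm' hPm hq' hP hne'.symm
      by_cases hqq : q = q'
      · subst hqq
        refine F02Im.zero.congr fun w => ?_
        unfold f02S
        refine Multiset.sum_eq_zero fun x hx => ?_
        obtain ⟨r, hr, rfl⟩ := Multiset.mem_map.1 hx
        exact (f02_isDet h1 w).self (f02_ne hP hPq hr)
      · have hqq1 : ¬ q ∣ q' := hdist q q' hqm hqm' hq hq' hqq
        have hqq2 : ¬ q' ∣ q := hdist q' q hqm' hqm hq' hq (Ne.symm hqq)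
        refine ((ih q.natDegree (by omega) q rfl hqm hq P q' hqP hqq1).add
          (ih q'.natDegree (by omega) q' rfl hqm' hq' q P hqq2 hqP')).congr fun w => ?_
        unfold f02S
        simp only [f02_aeval hqm, f02_aeval hPm, f02_aeval hqm']
        exact (f02_isDet h1 w).recip _ _ _ (fun r hr s hs => f02_roots_ne hP hPq hr hs)
          (fun r hr t ht => f02_roots_ne hP hPq' hr ht)
          (fun s hs t ht => f02_roots_ne hq hqq1 hs ht)
    -- second argument monic irreducible or constant, first argument arbitrary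
    have d1 : ∀ c' : E, c' ≠ 0 → ∀ f : E[X], ¬ P ∣ f → F02Im E (f02S (Ω := Ω) P f (C c')) := by
      intro c' hc'
      refine f02_red h1 hPm hP (hcc c' hc') (fun c hc => c1 c c' hc hc') ?_
      intro q hqm hq hd
      exact ((c2 c' q hc' hqm hq hd).neg).congr fun w =>
        f02_anti h1 hP (f02_not_dvd hq.ne_zero hd) (hcc c' hc') w
    have d2 : ∀ q' : E[X], q'.Monic → Irreducible q' → q'.natDegree < P.natDegree →
        ∀ f : E[X], ¬ P ∣ f → F02Im E (f02S (Ω := Ω) P f q') := by
      intro q' hqm' hq' hd'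
      refine f02_red h1 hPm hP (f02_not_dvd hq'.ne_zero hd')
        (fun c hc => c2 c q' hc hqm' hq' hd') ?_
      intro q hqm hq hd
      exact c3 q q' hqm hq hd hqm' hq' hd'
    intro f g hf hg
    have e1 : F02Im E (f02S (Ω := Ω) P g f) := by
      refine f02_red h1 hPm hP hf (fun c hc => ?_) (fun q hqm hq hd => ?_) g hg
      · exact ((d1 c hc f hf).neg).congr fun w => f02_anti h1 hP (hcc c hc) hf w
      · exact ((d2 q hqm hq hd f hf).neg).congr fun w =>
          f02_anti h1 hP (f02_not_dvd hq.ne_zero hd) hf w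
    exact (e1.neg).congr fun w => f02_anti h1 hP hf hg w

end main

/-- F02. -/
theorem norm_poly (h1 : SpSt) : SpNormPoly := by
  intro E Ω _ _ _ _ P hPm hP f g hf hg
  exact f02_main h1 P.natDegree P rfl hPm hP f g hf hg

end Pool.Agent.H19.UT
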