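import Pool.Agent.H19.UT.SpF

/-!
Project UT, row F03 (helper25): the norm of symbols for simple extensions.
-/

set_option autoImplicit false
set_option maxHeartbeats 400000

open Polynomial Pool.Agent.K1

namespace Pool.Agent.H19.UT

section f03

variable {E E' Ω : Type} [Field E] [Field E'] [Field Ω] [Algebra E E'] [Algebra E Ω]
  [Algebra E' Ω] [IsScalarTower E E' Ω]

theorem f03_lift [IsAlgClosed Ω] [Algebra.IsAlgebraic E Ω] (θ : E') (r : Ω)
    (hr : aeval r (minpoly E θ) = 0) : ∃ τ : Ω ≃ₐ[E] Ω, τ (algebraMap E' Ω θ) = r := by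
  have : IsAlgClosure E Ω := ⟨inferInstance, inferInstance⟩
  have : Normal E Ω := IsAlgClosure.normal E Ω
  have h1 : minpoly E (algebraMap E' Ω θ) = minpoly E θ :=
    minpoly.algebraMap_eq (algebraMap E' Ω).injective θ
  refine minpoly.exists_algEquiv_of_root' (Algebra.IsAlgebraic.isAlgebraic _) ?_
  rw [h1]
  exact hr

theorem f03_repr (θ : E') (hθ : IsIntegral E θ) (htop : IntermediateField.adjoin E {θ} = ⊤)
    (a : E') : ∃ f : E[X], aeval θ f = a := by
  have h1 : a ∈ IntermediateField.adjoin E {θ} := by rw [htop]; trivial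
  have h2 : (IntermediateField.adjoin E {θ}).toSubalgebra = Algebra.adjoin E {θ} :=
    IntermediateField.adjoin_simple_toSubalgebra_of_isAlgebraic hθ.isAlgebraic
  have h3 : a ∈ Algebra.adjoin E {θ} := by
    rw [← h2]; exact h1
  rw [Algebra.adjoin_singleton_eq_range_aeval] at h3
  exact h3

omit [Algebra E Ω] in
theorem f03_comap (w : TwoVal Ω) (φ : E →+* Ω) (f g : Eˣ) :
    w.psi (Sy.map φ (FreeAbelianGroup.of (f, g))) =
      w.det (Units.map (φ : E →* Ω) f) (Units.map (φ : E →* Ω) g) := by
  rw [Sy.map_of]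
  exact FreeAbelianGroup.lift_apply_of _ _

end f03

theorem norm_simple (h2 : SpNormPoly) : SpNormSimple := by
  intro E E' Ω _ _ _ _ _ _ _ _ _ θ hθ htop
  classical
  have hmon := minpoly.monic hθ
  have hirr := minpoly.irreducible hθ
  have hne : (minpoly E θ).map (algebraMap E Ω) ≠ 0 := (hmon.map _).ne_zero
  set l : List Ω := (((minpoly E θ).map (algebraMap E Ω)).roots).toList with hl
  have hroot : ∀ i : Fin l.length, aeval (l[i.1]) (minpoly E θ) = 0 := by
    intro i
    have h1 : l[i.1] ∈ ((minpoly E θ).map (algebraMap E Ω)).roots := by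
      rw [← Multiset.mem_toList]
      exact List.getElem_mem _
    rw [mem_roots hne, IsRoot.def, eval_map_algebraMap] at h1
    exact h1
  choose τ hτ using fun i : Fin l.length => f03_lift (Ω := Ω) θ (l[i.1]) (hroot i)
  have hlen : 0 < l.length := by
    rw [hl, Multiset.length_toList, ← (IsAlgClosed.splits _).natDegree_eq_card_roots,
      natDegree_map]
    exact minpoly.natDegree_pos hθ
  have key : ∀ β' : Sy E', ∃ β : Sy E, ∀ w : TwoVal Ω, w.psi (Sy.map (algebraMap E Ω) β) =
      ∑ i, w.psi (Sy.map (((τ i : Ω ≃ₐ[E] Ω) : Ω →+* Ω).comp (algebraMap E' Ω)) β') := by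
    intro β'
    induction β' using FreeAbelianGroup.induction_on with
    | zero =>
      refine ⟨0, fun w => ?_⟩
      simp only [map_zero, Finset.sum_const_zero]
    | of p =>
      obtain ⟨a, b⟩ := p
      obtain ⟨f, hf⟩ := f03_repr θ hθ htop (a : E')
      obtain ⟨g, hg⟩ := f03_repr θ hθ htop (b : E')
      have hPf : ¬ minpoly E θ ∣ f := by
        intro h
        rw [minpoly.dvd_iff, hf] at h
        exact a.ne_zero h
      have hPg : ¬ minpoly E θ ∣ g := by
        intro h
        rw [minpoly.dvd_iff, hg] at h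
        exact b.ne_zero h
      obtain ⟨β, hβ⟩ := h2 E Ω (minpoly E θ) hmon hirr f g hPf hPg
      refine ⟨β, fun w => ?_⟩
      rw [hβ w, ← Multiset.coe_toList ((minpoly E θ).map (algebraMap E Ω)).roots, ← hl,
        Multiset.map_coe, Multiset.sum_coe, ← Fin.sum_univ_fun_getElem]
      refine Finset.sum_congr rfl fun i _ => ?_
      rw [f03_comap]
      have e1 : ∀ (q : E[X]) (c : E'), aeval θ q = c →
          aeval (l[i.1]) q = (τ i) (algebraMap E' Ω c) := by
        intro q c hc
        rw [← hτ i, ← hc]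
        rw [← aeval_algebraMap_apply, ← aeval_algHom_apply]
      have ha := e1 f a hf
      have hb := e1 g b hg
      have ha0 : (τ i) (algebraMap E' Ω a) ≠ 0 := by
        intro h
        exact a.ne_zero ((algebraMap E' Ω).injective ((τ i).injective (by rw [h, map_zero, map_zero])))
      have hb0 : (τ i) (algebraMap E' Ω b) ≠ 0 := by
        intro h
        exact b.ne_zero ((algebraMap E' Ω).injective ((τ i).injective (by rw [h, map_zero, map_zero])))
      rw [ha, hb]
      unfold TwoVal.det0
      rw [dif_pos ⟨ha0, hb0⟩]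
      congr 1
      · ext; rfl
      · ext; rfl
    | neg p hp =>
      obtain ⟨β, hβ⟩ := hp
      refine ⟨-β, fun w => ?_⟩
      simp only [map_neg, hβ w, Finset.sum_neg_distrib]
    | add x y hx hy =>
      obtain ⟨β, hβ⟩ := hx
      obtain ⟨γ, hγ⟩ := hy
      refine ⟨β + γ, fun w => ?_⟩
      simp only [map_add, hβ w, hγ w, Finset.sum_add_distrib]
  intro β'
  obtain ⟨β, hβ⟩ := key β'
  exact ⟨β, l.length, τ, hlen, hβ⟩

end Pool.Agent.H19.UT
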