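import Pool.Agent.H19.UT.SpF

/-!
Project UT, row F05: the determinant and the tame symbol.
-/

set_option autoImplicit false
set_option maxHeartbeats 400000

open Polynomial Pool.Agent.K1

namespace Pool.Agent.H19.UT

/-- the second value as an additive homomorphism -/
noncomputable def f05_w2 {L : Type} [Field L] (w : TwoVal L) : Additive Lˣ →+ ℚ :=
  AddMonoidHom.mk' (fun u => w.w2 (Additive.toMul u)) (fun _ _ => w.mul2 _ _)

theorem f05_w2_zpow {L : Type} [Field L] (w : TwoVal L) (u : Lˣ) (n : ℤ) :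
    w.w2 (u ^ n) = n * w.w2 u := by
  have h := map_zsmul (f05_w2 w) n (Additive.ofMul u)
  rw [zsmul_eq_mul] at h
  exact h

theorem f05_w2_pow {L : Type} [Field L] (w : TwoVal L) (u : Lˣ) (n : ℕ) :
    w.w2 (u ^ n) = n * w.w2 u := by
  have h := f05_w2_zpow w u n
  rw [zpow_natCast] at h
  rw [h, Int.cast_natCast]

theorem f05_w1_one {L : Type} [Field L] (w : TwoVal L) : w.w1 1 = 0 := by
  have h := w.mul1 1 1
  rw [mul_one] at h
  linarith

theorem f05_w2_one {L : Type} [Field L] (w : TwoVal L) : w.w2 1 = 0 := by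
  have h := w.mul2 1 1
  rw [mul_one] at h
  linarith

theorem f05_w1_pow {L : Type} [Field L] (w : TwoVal L) (u : Lˣ) (n : ℕ) :
    w.w1 (u ^ n) = n * w.w1 u := by
  induction n with
  | zero => rw [pow_zero, f05_w1_one, Nat.cast_zero, zero_mul]
  | succ n ih => rw [pow_succ, w.mul1, ih]; push_cast; ring

/-- F05: the determinant and the tame symbol. -/
theorem sp_psi (h1 : SpSt) : SpPsi := by
  intro L _ D hD w e he hw
  obtain ⟨-, -, -, -, htors⟩ := h1 L w
  constructor
  · intro γ
    have h2 : w.psi = (-e) • ((f05_w2 w).comp (smb D)) := by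
      refine FreeAbelianGroup.lift_ext _ _ fun p => ?_
      have h3 : w.psi (FreeAbelianGroup.of p) = w.det p.1 p.2 := by
        unfold TwoVal.psi
        rw [FreeAbelianGroup.lift_apply_of]
      have h4 : smb D (FreeAbelianGroup.of p) =
          Additive.ofMul (p.1 ^ ordV D (p.2 : L) * p.2 ^ (-(ordV D (p.1 : L)))) := by
        unfold smb
        rw [FreeAbelianGroup.lift_apply_of]
      rw [h3]
      change _ = (-e) • ((f05_w2 w) (smb D (FreeAbelianGroup.of p)))
      rw [h4]
      change _ = (-e) • w.w2 (p.1 ^ ordV D (p.2 : L) * p.2 ^ (-(ordV D (p.1 : L))))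
      rw [w.mul2, f05_w2_zpow, f05_w2_zpow, TwoVal.det, hw, hw, smul_eq_mul]
      push_cast
      ring
    rw [h2]
    change (-e) • w.w2 (sm D γ) = _
    rw [smul_eq_mul]
  · rintro u ⟨n, hn, hu⟩
    have hn' : (0 : ℚ) < (n : ℚ) := by exact_mod_cast hn
    have key : w.w1 (u ^ n) = 0 ∧ w.w2 (u ^ n) = 0 := by
      by_cases hm : (u : L) ^ n - 1 = 0
      · have h3 : u ^ n = 1 := by
          ext
          rw [Units.val_pow_eq_pow_val, Units.val_one]
          exact sub_eq_zero.1 hm
        rw [h3]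
        exact ⟨f05_w1_one w, f05_w2_one w⟩
      · set m : Lˣ := Units.mk0 ((u : L) ^ n - 1) hm with hmdef
        have hmv : (m : L) = (u : L) ^ n - 1 := rfl
        have hm0 : 0 < w.w1 m := by
          rw [hw, hmv]
          have h3 := (nonunits_iff_ordV hD hm).1 hu
          have h4 : (0 : ℚ) < (ordV D ((u : L) ^ n - 1) : ℚ) := by
            exact_mod_cast h3
          exact mul_pos he h4
        have hneg : w.w1 (-m) = w.w1 m := by
          have h3 : (-m : Lˣ) = (-1) * m := by rw [neg_one_mul]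
          have h4 := (htors (-1) ⟨2, by norm_num, by rw [neg_one_sq]⟩).1
          rw [h3, w.mul1, h4, zero_add]
        have ha := w.add 1 m (u ^ n) (by
          rw [Units.val_one, hmv, Units.val_pow_eq_pow_val]; ring)
        have hb := w.add (u ^ n) (-m) 1 (by
          rw [Units.val_one, Units.val_neg, hmv, Units.val_pow_eq_pow_val]; ring)
        rw [f05_w1_one, f05_w2_one] at ha hb
        rw [hneg] at hb
        have hge : 0 ≤ w.w1 (u ^ n) ∧ (w.w1 (u ^ n) = 0 → 0 ≤ w.w2 (u ^ n)) := by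
          rcases ha with (h | ⟨h, h'⟩) | (h | ⟨h, h'⟩)
          · exact ⟨h.le, fun h5 => absurd h5 h.ne'⟩
          · exact ⟨h.le, fun _ => h'⟩
          · exact ⟨(hm0.trans h).le, fun h5 => absurd h5 (hm0.trans h).ne'⟩
          · exact ⟨h ▸ hm0.le, fun h5 => absurd h5 (h ▸ hm0).ne'⟩
        have hle : w.w1 (u ^ n) ≤ 0 ∧ (w.w1 (u ^ n) = 0 → w.w2 (u ^ n) ≤ 0) := by
          rcases hb with (h | ⟨h, h'⟩) | (h | ⟨h, h'⟩)
          · exact ⟨h.le, fun h5 => absurd h5 h.ne⟩
          · exact ⟨h.le, fun _ => h'⟩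
          · exact absurd h (not_lt.2 hm0.le)
          · exact absurd h hm0.ne'
        have h0 : w.w1 (u ^ n) = 0 := le_antisymm hle.1 hge.1
        exact ⟨h0, le_antisymm (hle.2 h0) (hge.2 h0)⟩
    obtain ⟨k1, k2⟩ := key
    rw [f05_w1_pow] at k1
    rw [f05_w2_pow] at k2
    exact ⟨(mul_eq_zero.1 k1).resolve_left hn'.ne', (mul_eq_zero.1 k2).resolve_left hn'.ne'⟩

end Pool.Agent.H19.UT
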