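import Pool.Agent.H19.UT.SpR
import Pool.Agent.H19.UT.RelS

/-!
Project UT, row R03: a finitely generated ring with fraction field `K`, integral over `k[c, u]`.
-/

set_option autoImplicit false
set_option maxHeartbeats 400000

open Polynomial Pool.Agent.K1

namespace Pool.Agent.H19.UT

section r03

variable {k K : Type} [Field k] [Field K] [Algebra k K]

/-- every element is algebraic over `k[c, u]` -/
theorem r03_alg (hF : Fg2 k K) {c u : K}
    (h : ∀ P : MvPolynomial (Fin 2) k, P ≠ 0 → MvPolynomial.aeval ![c, u] P ≠ 0) (z : K) :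
    IsAlgebraic (Algebra.adjoin k ({c, u} : Set K)) z := by
  obtain ⟨P, hP, hz⟩ := hF.dim ![z, c, u]
  have hz' : MvPolynomial.aeval (Fin.cons z ![c, u] : Fin 3 → K) P = 0 := hz
  rw [e03_eval] at hz'
  have hc : c ∈ Algebra.adjoin k ({c, u} : Set K) := Algebra.subset_adjoin (by simp)
  have hu : u ∈ Algebra.adjoin k ({c, u} : Set K) := Algebra.subset_adjoin (by simp)
  let φ : MvPolynomial (Fin 2) k →ₐ[k] Algebra.adjoin k ({c, u} : Set K) :=
    MvPolynomial.aeval ![⟨c, hc⟩, ⟨u, hu⟩]
  have hφ : ∀ Q : MvPolynomial (Fin 2) k, ((φ Q : Algebra.adjoin k ({c, u} : Set K)) : K) =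
      MvPolynomial.aeval ![c, u] Q := by
    intro Q
    have h1 : ((Algebra.adjoin k ({c, u} : Set K)).val.comp φ) =
        (MvPolynomial.aeval ![c, u] : MvPolynomial (Fin 2) k →ₐ[k] K) := by
      apply MvPolynomial.algHom_ext
      intro i
      fin_cases i <;> simp [φ]
    exact congrArg (fun f => f Q) h1
  have hφi : Function.Injective φ.toRingHom := by
    rw [injective_iff_map_eq_zero]
    intro Q hQ
    by_contra hne
    apply h Q hne
    rw [← hφ Q]
    have h2 : φ Q = 0 := hQ
    rw [h2]
    rfl
  refine ⟨(MvPolynomial.finSuccEquiv k 2 P).map φ.toRingHom, ?_, ?_⟩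
  · rw [Ne, Polynomial.map_eq_zero_iff hφi]
    exact fun h0 => hP ((map_eq_zero_iff _ (MvPolynomial.finSuccEquiv k 2).injective).1 h0)
  · rw [aeval_def, eval₂_map]
    have h3 : (algebraMap (Algebra.adjoin k ({c, u} : Set K)) K).comp φ.toRingHom =
        ((MvPolynomial.aeval ![c, u] : MvPolynomial (Fin 2) k →ₐ[k] K) :
          MvPolynomial (Fin 2) k →+* K) :=
      RingHom.ext fun Q => hφ Q
    rw [h3]
    exact hz'

end r03

/-- R03: a finitely generated ring with fraction field `K`, integral over `k[c, u]` -/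
theorem sp_ra0 : SpRA0 := by
  classical
  intro k K _ _ _ hF c u h
  obtain ⟨S, hS⟩ := hF.fg
  have hc : c ∈ Algebra.adjoin k ({c, u} : Set K) := Algebra.subset_adjoin (by simp)
  have hu : u ∈ Algebra.adjoin k ({c, u} : Set K) := Algebra.subset_adjoin (by simp)
  have hex : ∀ z : K, ∃ y : Algebra.adjoin k ({c, u} : Set K), y ≠ 0 ∧
      IsIntegral (Algebra.adjoin k ({c, u} : Set K)) ((y : K) * z) := by
    intro z
    obtain ⟨y, hy, hi⟩ := (r03_alg hF h z).exists_integral_multiple
    exact ⟨y, hy, hi⟩
  choose y hy hi using hex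
  set T : Finset K := {c, u} ∪ S.image (fun z => (y z : K) * z) with hT
  set A : Subalgebra k K := Algebra.adjoin k (T : Set K) with hA
  have hB : Algebra.adjoin k ({c, u} : Set K) ≤ A := by
    apply Algebra.adjoin_mono
    intro x hx
    rw [hT]
    simp only [Set.mem_insert_iff, Set.mem_singleton_iff] at hx
    simp only [Finset.coe_union, Finset.coe_insert, Finset.coe_singleton, Set.mem_union,
      Set.mem_insert_iff, Set.mem_singleton_iff]
    exact Or.inl hx
  have hyS : ∀ z ∈ S, (y z : K) * z ∈ A := by
    intro z hz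
    apply Algebra.subset_adjoin
    rw [hT]
    simp only [Finset.coe_union, Set.mem_union]
    right
    exact Finset.mem_coe.2 (Finset.mem_image_of_mem _ hz)
  refine ⟨A, ⟨T, rfl⟩, hB hc, hB hu, ?_, ?_⟩
  · have hcl : Subring.closure (A : Set K) = A.toSubring := by
      exact Subring.closure_eq A.toSubring
    have htop : Subfield.closure (A : Set K) = ⊤ := by
      apply hS
      · intro a
        exact Subfield.subset_closure (A.algebraMap_mem a)
      · intro z hz
        have h1 : (y z : K) * z ∈ Subfield.closure (A : Set K) :=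
          Subfield.subset_closure (hyS z hz)
        have h2 : (y z : K) ∈ Subfield.closure (A : Set K) :=
          Subfield.subset_closure (hB (y z).2)
        have h3 : (y z : K) ≠ 0 := fun h0 => hy z (Subtype.ext h0)
        have h4 := (Subfield.closure (A : Set K)).mul_mem
          ((Subfield.closure (A : Set K)).inv_mem h2) h1
        rwa [← mul_assoc, inv_mul_cancel₀ h3, one_mul] at h4
    intro z
    have hz : z ∈ Subfield.closure (A : Set K) := by rw [htop]; trivial
    rw [Subfield.mem_closure_iff, hcl] at hz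
    obtain ⟨a, ha, d, hd, rfl⟩ := hz
    by_cases hd0 : d = 0
    · exact ⟨0, A.zero_mem, 1, A.one_mem, one_ne_zero, by rw [hd0]; simp⟩
    · exact ⟨a, ha, d, hd, hd0, div_mul_cancel₀ a hd0⟩
  · intro a ha
    have hle : A ≤ (integralClosure (Algebra.adjoin k ({c, u} : Set K)) K).restrictScalars k := by
      rw [hA]
      apply Algebra.adjoin_le
      intro x hx
      rw [hT] at hx
      simp only [Finset.coe_union, Finset.coe_insert, Finset.coe_singleton, Set.mem_union,
        Set.mem_insert_iff, Set.mem_singleton_iff] at hx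
      rcases hx with (rfl | rfl) | hx
      · exact isIntegral_algebraMap (x := (⟨x, hc⟩ : Algebra.adjoin k ({x, u} : Set K)))
      · exact isIntegral_algebraMap (x := (⟨x, hu⟩ : Algebra.adjoin k ({c, x} : Set K)))
      · obtain ⟨z, -, rfl⟩ := Finset.mem_image.1 (Finset.mem_coe.1 hx)
        exact hi z
    exact hle ha

end Pool.Agent.H19.UT
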