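import Pool.Agent.H19.UT.SpR

/-!
Project UT, row R13: adjoining elements of the maximal ideal (helper76).
-/

set_option autoImplicit false
set_option maxHeartbeats 400000

open Polynomial Pool.Agent.K1

namespace Pool.Agent.H19.UT

section r13

variable {K : Type} [Field K]

/-- fractions with denominators in `M` -/
def r13_loc (B : Subring K) (M : Submonoid K) (hM : ∀ d ∈ M, d ∈ B) : Subring K where
  carrier := {z : K | ∃ a ∈ B, ∃ d ∈ M, z * d = a}
  mul_mem' := by
    rintro z w ⟨a, ha, b, hb, h⟩ ⟨a', ha', b', hb', h'⟩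
    refine ⟨a * a', B.mul_mem ha ha', b * b', M.mul_mem hb hb', ?_⟩
    rw [← h, ← h']
    ring
  one_mem' := ⟨1, B.one_mem, 1, M.one_mem, mul_one 1⟩
  add_mem' := by
    rintro z w ⟨a, ha, b, hb, h⟩ ⟨a', ha', b', hb', h'⟩
    refine ⟨a * b' + a' * b, B.add_mem (B.mul_mem ha (hM _ hb')) (B.mul_mem ha' (hM _ hb)),
      b * b', M.mul_mem hb hb', ?_⟩
    rw [← h, ← h']
    ring
  zero_mem' := ⟨0, B.zero_mem, 1, M.one_mem, mul_one 0⟩
  neg_mem' := by
    rintro z ⟨a, ha, b, hb, h⟩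
    exact ⟨-a, B.neg_mem ha, b, hb, by rw [← h]; ring⟩

theorem r13_mem {B : Subring K} {M : Submonoid K} {hM : ∀ d ∈ M, d ∈ B} {z : K} :
    z ∈ r13_loc B M hM ↔ ∃ a ∈ B, ∃ d ∈ M, z * d = a := Iff.rfl

theorem r13_le (B : Subring K) (M : Submonoid K) (hM : ∀ d ∈ M, d ∈ B) : B ≤ r13_loc B M hM :=
  fun z hz => ⟨z, hz, 1, M.one_mem, mul_one z⟩

theorem r13_noeth (B : Subring K) (hB : IsNoetherianRing B) (M : Submonoid K)
    (hM : ∀ d ∈ M, d ∈ B) (h0 : (0 : K) ∉ M) : IsNoetherianRing (r13_loc B M hM) := by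
  letI : Algebra B (r13_loc B M hM) := (Subring.inclusion (r13_le B M hM)).toAlgebra
  have hmap : ∀ b : B, ((algebraMap B (r13_loc B M hM) b : r13_loc B M hM) : K) = b :=
    fun b => rfl
  have : IsLocalization (M.comap B.subtype.toMonoidHom) (r13_loc B M hM) := by
    refine (isLocalization_iff _ _).mpr ⟨?_, ?_, ?_⟩
    · rintro ⟨b, hb⟩
      have hb' : (b : K) ∈ M := hb
      have hb0 : (b : K) ≠ 0 := fun h => h0 (h ▸ hb')
      have hinv : (b : K)⁻¹ ∈ r13_loc B M hM :=
        ⟨1, B.one_mem, b, hb', inv_mul_cancel₀ hb0⟩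
      refine IsUnit.of_mul_eq_one ⟨(b : K)⁻¹, hinv⟩ ?_
      apply Subtype.ext
      change (b : K) * (b : K)⁻¹ = 1
      exact mul_inv_cancel₀ hb0
    · rintro ⟨z, hz⟩
      obtain ⟨a, ha, b, hb, h⟩ := hz
      refine ⟨(⟨a, ha⟩, ⟨⟨b, hM b hb⟩, hb⟩), ?_⟩
      apply Subtype.ext
      exact h
    · intro x y h
      refine ⟨1, ?_⟩
      have h' : (x : K) = y := by
        rw [← hmap x, ← hmap y, h]
      have : x = y := Subtype.ext h'
      rw [this]
  exact IsLocalization.isNoetherianRing (M.comap B.subtype.toMonoidHom) _ hB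

theorem r13_denom (B : Subring K) (M : Submonoid K) (hM : ∀ d ∈ M, d ∈ B) {l : ℕ}
    (h : Fin l → K) (hh : ∀ j, h j ∈ r13_loc B M hM) : ∃ d ∈ M, ∀ j, h j * d ∈ B := by
  choose a ha d hd had using hh
  refine ⟨∏ j, d j, M.prod_mem (fun j _ => hd j), fun j => ?_⟩
  rw [← Finset.mul_prod_erase Finset.univ d (Finset.mem_univ j), ← mul_assoc, had j]
  exact B.mul_mem (ha j) (B.prod_mem (fun i _ => hM _ (hd i)))

end r13

/-- R13 -/
theorem sp_radj : SpRAdj := by
  intro K _ s A ϖ hA hAs hϖ hproper hloc l x hx hgen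
  classical
  -- sums are in the maximal ideal
  have hsum : ∀ h : Fin l → K, (∀ j, h j ∈ s) → ∑ j, h j * x j ∈ s.nonunits := by
    intro h hh
    rw [ValuationSubring.mem_nonunits_iff]
    refine Valuation.map_sum_lt _ one_ne_zero (fun j _ => ?_)
    rw [map_mul]
    have h1 := (ValuationSubring.mem_nonunits_iff (A := s)).1 (hx j)
    have h2 := (s.valuation_le_one_iff _).2 (hh j)
    calc s.valuation (h j) * s.valuation (x j) ≤ 1 * s.valuation (x j) := by gcongr
      _ < 1 := by rw [one_mul]; exact h1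
  have hxs : ∀ j, x j ∈ s := fun j => by
    have h1 := (ValuationSubring.mem_nonunits_iff (A := s)).1 (hx j)
    exact (s.valuation_le_one_iff _).1 h1.le
  -- the ring generated by `A` and the `x j`
  set B : Subring K := (Algebra.adjoin A (Set.range x)).toSubring with hB
  have hBN : IsNoetherianRing B := by
    have h1 : (Algebra.adjoin A (Set.range x)).FG :=
      ⟨(Set.finite_range x).toFinset, by rw [Set.Finite.coe_toFinset]⟩
    exact isNoetherianRing_of_fg h1
  have hAB : ∀ a ∈ A, a ∈ B := fun a ha =>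
    (Algebra.adjoin A (Set.range x)).algebraMap_mem (⟨a, ha⟩ : A)
  have hxB : ∀ j, x j ∈ B := fun j => Algebra.subset_adjoin (Set.mem_range_self j)
  have hBs : ∀ b ∈ B, b ∈ s := by
    intro b hb
    have hb' : b ∈ Algebra.adjoin A (Set.range x) := hb
    induction hb' using Algebra.adjoin_induction with
    | mem y hy =>
      obtain ⟨j, rfl⟩ := hy
      exact hxs j
    | algebraMap r => exact hAs _ r.2
    | add y z hy hz ihy ihz => exact s.add_mem _ _ (ihy hy) (ihz hz)
    | mul y z hy hz ihy ihz => exact s.mul_mem _ _ (ihy hy) (ihz hz)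
  have hdec : ∀ b ∈ B, ∃ b0 ∈ A, ∃ h : Fin l → K, (∀ j, h j ∈ B) ∧ b = b0 + ∑ j, h j * x j := by
    intro b hb
    have hb' : b ∈ Algebra.adjoin A (Set.range x) := hb
    induction hb' using Algebra.adjoin_induction with
    | mem y hy =>
      obtain ⟨j, rfl⟩ := hy
      refine ⟨0, A.zero_mem, fun i => if i = j then 1 else 0, fun i => ?_, ?_⟩
      · beta_reduce
        split_ifs
        · exact B.one_mem
        · exact B.zero_mem
      · simp
    | algebraMap r =>
      refine ⟨r, r.2, fun _ => 0, fun _ => B.zero_mem, ?_⟩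
      simp only [zero_mul, Finset.sum_const_zero, add_zero]
      rfl
    | add y z hy hz ihy ihz =>
      obtain ⟨y0, hy0, h, hh, e⟩ := ihy hy
      obtain ⟨z0, hz0, h', hh', e'⟩ := ihz hz
      refine ⟨y0 + z0, A.add_mem hy0 hz0, fun j => h j + h' j,
        fun j => B.add_mem (hh j) (hh' j), ?_⟩
      rw [e, e']
      simp only [add_mul, Finset.sum_add_distrib]
      ring
    | mul y z hy hz ihy ihz =>
      obtain ⟨y0, hy0, h, hh, e⟩ := ihy hy
      obtain ⟨z0, hz0, h', hh', e'⟩ := ihz hz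
      refine ⟨y0 * z0, A.mul_mem hy0 hz0, fun j => y0 * h' j + z * h j,
        fun j => B.add_mem (B.mul_mem (hAB _ hy0) (hh' j)) (B.mul_mem hz (hh j)), ?_⟩
      have h1 : ∑ j, (y0 * h' j + z * h j) * x j = y0 * ∑ j, h' j * x j +
          z * ∑ j, h j * x j := by
        rw [Finset.mul_sum, Finset.mul_sum, ← Finset.sum_add_distrib]
        apply Finset.sum_congr rfl
        intro j _
        ring
      rw [h1, e]
      have h2 : z = z0 + ∑ j, h' j * x j := e'
      linear_combination y0 * h2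
  -- the ideal
  set N : K → Prop := fun z => ∃ a ∈ B, ∃ h : Fin l → K, (∀ j, h j ∈ B) ∧
    z = ϖ * a + ∑ j, h j * x j with hN
  have hNsum : ∀ h : Fin l → K, (∀ j, h j ∈ B) → N (∑ j, h j * x j) := fun h hh =>
    ⟨0, B.zero_mem, h, hh, by rw [mul_zero, zero_add]⟩
  have hNadd : ∀ y z, N y → N z → N (y + z) := by
    rintro y z ⟨a, ha, h, hh, rfl⟩ ⟨a', ha', h', hh', rfl⟩
    refine ⟨a + a', B.add_mem ha ha', fun j => h j + h' j, fun j => B.add_mem (hh j) (hh' j), ?_⟩
    simp only [add_mul, Finset.sum_add_distrib]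
    ring
  have hNmul : ∀ y ∈ B, ∀ z, N z → N (y * z) := by
    rintro y hy z ⟨a, ha, h, hh, rfl⟩
    refine ⟨y * a, B.mul_mem hy ha, fun j => y * h j, fun j => B.mul_mem hy (hh j), ?_⟩
    rw [mul_add, Finset.mul_sum]
    congr 1
    · ring
    · apply Finset.sum_congr rfl
      intro j _
      ring
  have hN1 : ¬ N 1 := by
    rintro ⟨a, ha, h, hh, e⟩
    obtain ⟨a0, ha0, g, hg, rfl⟩ := hdec a ha
    have h1 : ∑ j, (ϖ * g j + h j) * x j = ϖ * ∑ j, g j * x j + ∑ j, h j * x j := by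
      rw [Finset.mul_sum, ← Finset.sum_add_distrib]
      apply Finset.sum_congr rfl
      intro j _
      ring
    have h2 : ∑ j, (ϖ * g j + h j) * x j = 1 - ϖ * a0 := by
      rw [h1]
      linear_combination -e
    have h3 : ∑ j, (ϖ * g j + h j) * x j ∈ s.nonunits :=
      hsum _ (fun j => s.add_mem _ _ (s.mul_mem _ _ (hAs _ hϖ) (hBs _ (hg j))) (hBs _ (hh j)))
    refine hproper a0 ha0 (1 - ϖ * a0) (A.sub_mem A.one_mem (A.mul_mem hϖ ha0)) ?_ ?_
    · rw [← h2]
      exact h3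
    · ring
  have hNinv : ∀ z ∈ B, N z ∨ ∃ b ∈ B, ∃ n, N n ∧ z * b = 1 + n := by
    intro z hz
    obtain ⟨z0, hz0, h, hh, e⟩ := hdec z hz
    rcases hloc z0 hz0 with ⟨b, hb, hb1⟩ | ⟨b, hb, q, hq, hqs, hq1⟩
    · right
      refine ⟨b, hAB b hb, ∑ j, (b * h j) * x j, hNsum _ (fun j => B.mul_mem (hAB b hb) (hh j)), ?_⟩
      have h1 : ∑ j, (b * h j) * x j = b * ∑ j, h j * x j := by
        rw [Finset.mul_sum]
        apply Finset.sum_congr rfl
        intro j _
        ring
      rw [h1, e, ← hb1]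
      ring
    · left
      obtain ⟨g, hg, hg1⟩ := hgen q hq hqs
      rw [e, hq1, hg1]
      refine hNadd _ _ (hNadd _ _ ?_ (hNsum g (fun j => hAB _ (hg j)))) (hNsum h hh)
      exact ⟨b, hAB b hb, fun _ => 0, fun _ => B.zero_mem, by simp⟩
  have hNns : ∀ z ∈ B, z ∈ s.nonunits → N z := by
    intro z hz hzs
    obtain ⟨z0, hz0, h, hh, e⟩ := hdec z hz
    have h1 := hsum h (fun j => hBs _ (hh j))
    have h2 : z0 ∈ s.nonunits := by
      have h3 : z0 = z + -(∑ j, h j * x j) := by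
        rw [e]
        ring
      rw [ValuationSubring.mem_nonunits_iff] at hzs h1 ⊢
      rw [h3]
      refine Valuation.map_add_lt _ hzs ?_
      rw [Valuation.map_neg]
      exact h1
    obtain ⟨g, hg, hg1⟩ := hgen z0 hz0 h2
    rw [e, hg1]
    exact hNadd _ _ (hNsum g (fun j => hAB _ (hg j))) (hNsum h hh)
  -- the denominators
  let M : Submonoid K :=
    { carrier := {d | d ∈ B ∧ ¬ N d}
      one_mem' := ⟨B.one_mem, hN1⟩
      mul_mem' := by
        rintro d d' ⟨hd, hdN⟩ ⟨hd', hdN'⟩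
        refine ⟨B.mul_mem hd hd', fun hN' => ?_⟩
        rcases hNinv d hd with h | ⟨b, hb, n, hn, hb1⟩
        · exact hdN h
        · apply hdN'
          have h1 : d' = b * (d * d') + (-d') * n := by
            linear_combination -(d' * hb1)
          rw [h1]
          exact hNadd _ _ (hNmul b hb _ hN') (hNmul _ (B.neg_mem hd') _ hn) }
  have hMB : ∀ d ∈ M, d ∈ B := fun d hd => hd.1
  have hN0 : N 0 := ⟨0, B.zero_mem, fun _ => 0, fun _ => B.zero_mem, by simp⟩
  have hM0 : (0 : K) ∉ M := fun h => h.2 hN0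
  refine ⟨r13_loc B M hMB, r13_noeth B hBN M hMB hM0, fun a ha => r13_le B M hMB (hAB a ha),
    fun j => r13_le B M hMB (hxB j), ?_, ?_, ?_⟩
  · rintro r ⟨a, ha, d, hd, e⟩
    have hd0 : d ≠ 0 := fun h => hM0 (h ▸ hd)
    have h1 : d ∉ s.nonunits := fun h => hd.2 (hNns d hd.1 h)
    have h2 : d⁻¹ ∈ s := by
      by_contra h3
      exact h1 (tord_nonunits_iff.2 (Or.inr ⟨hBs d hd.1, h3⟩))
    have h3 : r = a * d⁻¹ := by
      rw [← e, mul_assoc, mul_inv_cancel₀ hd0, mul_one]
    rw [h3]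
    exact s.mul_mem _ _ (hBs a ha) h2
  · rintro r ⟨a, ha, d, hd, e⟩
    have hd0 : d ≠ 0 := fun h => hM0 (h ▸ hd)
    by_cases haN : N a
    · right
      obtain ⟨a', ha', h, hh, e'⟩ := haN
      refine ⟨a' * d⁻¹, ⟨a', ha', d, hd, by field_simp⟩, fun j => h j * d⁻¹,
        fun j => ⟨h j, hh j, d, hd, by field_simp⟩, ?_⟩
      have h1 : ∑ j, h j * d⁻¹ * x j = d⁻¹ * ∑ j, h j * x j := by
        rw [Finset.mul_sum]
        apply Finset.sum_congr rfl
        intro j _
        ring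
      have h3 : r = a * d⁻¹ := by
        rw [← e, mul_assoc, mul_inv_cancel₀ hd0, mul_one]
      rw [h1, h3, e']
      ring
    · left
      have ha0 : a ≠ 0 := fun h => haN (h ▸ hN0)
      refine ⟨d * a⁻¹, ⟨d, hd.1, a, ⟨ha, haN⟩, by field_simp⟩, ?_⟩
      rw [← mul_assoc, e, mul_inv_cancel₀ ha0]
  · intro a ha h hh e
    obtain ⟨a', ha', d, hd, e'⟩ := ha
    obtain ⟨d', hd', hdd⟩ := r13_denom B M hMB h hh
    have h1 : N (d * d') := by
      refine ⟨a' * d', B.mul_mem ha' (hMB _ hd'), fun j => (h j * d') * d,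
        fun j => B.mul_mem (hdd j) (hMB _ hd), ?_⟩
      have h2 : ∑ j, h j * d' * d * x j = d' * d * ∑ j, h j * x j := by
        rw [Finset.mul_sum]
        apply Finset.sum_congr rfl
        intro j _
        ring
      rw [h2, ← e']
      linear_combination -(d * d' * e)
    exact (M.mul_mem hd hd').2 h1

end Pool.Agent.H19.UT
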