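import Pool.Agent.H19.UT.SpR
import Pool.Agent.H19.UT.RAdj

/-!
Project UT, row R10: lifting the chart at a point of the curve.
-/

set_option autoImplicit false
set_option maxHeartbeats 400000

open Polynomial Pool.Agent.K1

namespace Pool.Agent.H19.UT

section r10

variable {K : Type} [Field K] {s : ValuationSubring K}

theorem r10_res (z : K) (h : z ∈ s) :
    IsLocalRing.residue s ⟨z, h⟩ = 0 ↔ z ∈ s.nonunits := by
  rw [IsLocalRing.residue_eq_zero_iff, ValuationSubring.mem_nonunits_iff_exists_mem_maximalIdeal]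
  exact ⟨fun h1 => ⟨h, h1⟩, fun ⟨_, h1⟩ => h1⟩

theorem r10_inv {z : K} (h : z ∈ s) (hn : z ∉ s.nonunits) : z⁻¹ ∈ s := by
  rcases s.mem_or_inv_mem z with _ | h1
  · by_contra h2
    apply hn
    rw [ValuationSubring.mem_nonunits_iff_exists_mem_maximalIdeal]
    refine ⟨h, ?_⟩
    rw [IsLocalRing.mem_maximalIdeal, mem_nonunits_iff]
    intro hu
    obtain ⟨v, hv⟩ := hu.exists_right_inv
    apply h2
    have h3 : z * (v : K) = 1 := congrArg Subtype.val hv
    rw [inv_eq_of_mul_eq_one_right h3]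
    exact v.2
  · exact h1

theorem r10_mul_nonunits {x y : K} (hx : x ∈ s) (hy : y ∈ s.nonunits) : x * y ∈ s.nonunits := by
  rw [ValuationSubring.mem_nonunits_iff_exists_mem_maximalIdeal] at hy ⊢
  obtain ⟨h1, h2⟩ := hy
  exact ⟨mul_mem hx h1, Ideal.mul_mem_left _ (⟨x, hx⟩ : s) h2⟩

theorem r10_not_mul {x y : K} (hx : x ∈ s) (hx' : x ∉ s.nonunits) (hy' : y ∉ s.nonunits) :
    x * y ∉ s.nonunits := by
  intro h
  apply hy'
  have h1 := r10_mul_nonunits (r10_inv hx hx') h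
  have hx0 : x ≠ 0 := by
    rintro rfl
    apply hx'
    rw [ValuationSubring.mem_nonunits_iff_exists_mem_maximalIdeal]
    exact ⟨zero_mem _, zero_mem _⟩
  rwa [← mul_assoc, inv_mul_cancel₀ hx0, one_mul] at h1

theorem r10_zero : (0 : K) ∈ s.nonunits := by
  rw [ValuationSubring.mem_nonunits_iff_exists_mem_maximalIdeal]
  exact ⟨zero_mem _, zero_mem _⟩

theorem r10_one : (1 : K) ∉ s.nonunits := by
  intro h
  rw [ValuationSubring.mem_nonunits_iff_exists_mem_maximalIdeal] at h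
  obtain ⟨h1, h2⟩ := h
  exact (IsLocalRing.mem_maximalIdeal _).1 h2 isUnit_one

end r10

/-- Row R10. -/
theorem sp_rlift : SpRLift := by
  intro k K _ _ _ s _ hk hs hkres A C b u hAfg hAs hAfrac huA hCfg hAC hb hCb hub hbfrac
  classical
  -- the elements of `K` with a residue in `C`
  let S' : Subalgebra k K :=
    { carrier := {z | ∃ h : z ∈ s, IsLocalRing.residue s ⟨z, h⟩ ∈ C}
      mul_mem' := by
        rintro x y ⟨hx, hx'⟩ ⟨hy, hy'⟩
        refine ⟨mul_mem hx hy, ?_⟩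
        have : (⟨x * y, mul_mem hx hy⟩ : s) = ⟨x, hx⟩ * ⟨y, hy⟩ := rfl
        rw [this, map_mul]
        exact mul_mem hx' hy'
      add_mem' := by
        rintro x y ⟨hx, hx'⟩ ⟨hy, hy'⟩
        refine ⟨add_mem hx hy, ?_⟩
        have : (⟨x + y, add_mem hx hy⟩ : s) = ⟨x, hx⟩ + ⟨y, hy⟩ := rfl
        rw [this, map_add]
        exact add_mem hx' hy'
      algebraMap_mem' := by
        intro c
        refine ⟨hk c, ?_⟩
        rw [← hkres c]
        exact C.algebraMap_mem c }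
  obtain ⟨TA, hTA⟩ := hAfg
  obtain ⟨TC, hTC⟩ := hCfg
  have hlift : ∀ c : IsLocalRing.ResidueField s, ∃ z : s, IsLocalRing.residue s z = c :=
    fun c => IsLocalRing.residue_surjective c
  choose l hl using hlift
  let T' : Finset K := TC.image fun c => ((l c : s) : K)
  let A2 : Subalgebra k K := Algebra.adjoin k ((TA ∪ T' : Finset K) : Set K)
  have hA2S : A2 ≤ S' := by
    apply Algebra.adjoin_le
    intro z hz
    rw [Finset.mem_coe, Finset.mem_union] at hz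
    rcases hz with hz | hz
    · have hzA : z ∈ A := by
        rw [← hTA]
        exact Algebra.subset_adjoin hz
      exact ⟨hAs z hzA, hAC ⟨z, hAs z hzA⟩ hzA⟩
    · obtain ⟨c, hc, rfl⟩ := Finset.mem_image.1 hz
      refine ⟨(l c).2, ?_⟩
      change IsLocalRing.residue s (l c) ∈ C
      rw [hl, ← hTC]
      exact Algebra.subset_adjoin hc
  have hAA2 : A ≤ A2 := by
    rw [← hTA]
    apply Algebra.adjoin_mono
    intro z hz
    rw [Finset.mem_coe, Finset.mem_union]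
    exact Or.inl hz
  let D' : Subalgebra k (IsLocalRing.ResidueField s) :=
    { carrier := {c | ∃ z ∈ A2, ∃ h : z ∈ s, IsLocalRing.residue s ⟨z, h⟩ = c}
      mul_mem' := by
        rintro _ _ ⟨x, hx, hxs, rfl⟩ ⟨y, hy, hys, rfl⟩
        exact ⟨x * y, mul_mem hx hy, mul_mem hxs hys, rfl⟩
      add_mem' := by
        rintro _ _ ⟨x, hx, hxs, rfl⟩ ⟨y, hy, hys, rfl⟩
        exact ⟨x + y, add_mem hx hy, add_mem hxs hys, rfl⟩
      algebraMap_mem' := by
        intro c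
        exact ⟨algebraMap k K c, A2.algebraMap_mem c, hk c, (hkres c).symm⟩ }
  have hCD : ∀ c ∈ C, ∃ z ∈ A2, ∃ h : z ∈ s, IsLocalRing.residue s ⟨z, h⟩ = c := by
    have : C ≤ D' := by
      rw [← hTC]
      apply Algebra.adjoin_le
      intro c hc
      refine ⟨((l c : s) : K), Algebra.subset_adjoin ?_, (l c).2, hl c⟩
      rw [Finset.mem_coe, Finset.mem_union]
      exact Or.inr (Finset.mem_image_of_mem _ hc)
    exact this
  have hA2s : ∀ z ∈ A2, z ∈ s := fun z hz => (hA2S hz).1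
  have hA2C : ∀ z (_ : z ∈ A2) (h : z ∈ s), IsLocalRing.residue s ⟨z, h⟩ ∈ C :=
    fun z hz _ => (hA2S hz).2
  -- the denominators
  let M : Submonoid K :=
    { carrier := {d | d ∈ A2 ∧ ∃ h : d ∈ s, IsLocalRing.residue s ⟨d, h⟩ ∉ b.nonunits}
      mul_mem' := by
        rintro x y ⟨hx, hxs, hx'⟩ ⟨hy, hys, hy'⟩
        refine ⟨mul_mem hx hy, mul_mem hxs hys, ?_⟩
        have : (⟨x * y, mul_mem hxs hys⟩ : s) = ⟨x, hxs⟩ * ⟨y, hys⟩ := rfl
        rw [this, map_mul]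
        exact r10_not_mul (hCb _ (hA2C x hx hxs)) hx' hy'
      one_mem' := by
        refine ⟨one_mem _, one_mem _, ?_⟩
        have : (⟨1, one_mem _⟩ : s) = 1 := rfl
        rw [this, map_one]
        exact r10_one }
  have hM : ∀ d ∈ M, d ∈ A2.toSubring := fun d hd => hd.1
  have hMs : ∀ d ∈ M, d ∉ s.nonunits := by
    rintro d ⟨h1, h2, h3⟩ h4
    apply h3
    rw [(r10_res d h2).2 h4]
    exact r10_zero
  have hM0 : ∀ d ∈ M, d ≠ 0 := by
    rintro d hd rfl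
    exact hMs 0 hd r10_zero
  have hMi : ∀ d ∈ M, d⁻¹ ∈ s := fun d hd => r10_inv (hA2s d hd.1) (hMs d hd)
  let A' : Subring K := r13_loc A2.toSubring M hM
  have hA2A' : ∀ z ∈ A2, z ∈ A' := fun z hz => r13_le A2.toSubring M hM hz
  have hmk : ∀ a ∈ A2, ∀ d ∈ M, a * d⁻¹ ∈ A' := by
    intro a ha d hd
    refine ⟨a, ha, d, hd, ?_⟩
    rw [mul_assoc, inv_mul_cancel₀ (hM0 d hd), mul_one]
  have hA's : ∀ z ∈ A', z ∈ s := by
    rintro z ⟨a, ha, d, hd, e⟩
    have : z = a * d⁻¹ := by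
      rw [← e, mul_assoc, mul_inv_cancel₀ (hM0 d hd), mul_one]
    rw [this]
    exact mul_mem (hA2s a ha) (hMi d hd)
  -- the uniformizer
  obtain ⟨π, hπ, -⟩ := hb
  have hπb : π ∈ b.nonunits := (hπ.2 π).2 ⟨1, one_mem _, (mul_one π).symm⟩
  have hπm : π ∈ b := b.nonunits_subset hπb
  obtain ⟨a0, ha0, d0, hd0, hd0', e0⟩ := hbfrac π hπm
  obtain ⟨ϖ, hϖA, hϖs, hϖr⟩ := hCD a0 ha0
  have ha0n : a0 ∈ b.nonunits := by
    rw [← e0, mul_comm]
    exact r10_mul_nonunits (hCb _ hd0) hπb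
  have hd00 : d0 ≠ 0 := by
    rintro rfl
    exact hd0' r10_zero
  have hdiv : ∀ x ∈ b.nonunits, ∃ c ∈ b, x = a0 * c := by
    intro x hx
    obtain ⟨c, hc, rfl⟩ := (hπ.2 x).1 hx
    refine ⟨d0⁻¹ * c, mul_mem (r10_inv (hCb _ hd0) hd0') hc, ?_⟩
    rw [← e0, mul_assoc, ← mul_assoc d0, mul_inv_cancel₀ hd00, one_mul]
  have ha00 : a0 ≠ 0 := by
    rw [← e0]
    exact mul_ne_zero hπ.1 hd00
  have key : ∀ a (_ : a ∈ A2) (h : a ∈ s), IsLocalRing.residue s ⟨a, h⟩ ∈ b.nonunits →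
      ∀ d ∈ M, ∃ b' ∈ A', ∃ q ∈ A', q ∈ s.nonunits ∧ a * d⁻¹ = ϖ * b' + q := by
    intro a ha has hres d hd
    obtain ⟨c, hc, ec⟩ := hdiv _ hres
    obtain ⟨e, he, f, hf, hf', eef⟩ := hbfrac c hc
    obtain ⟨e', he', hes, her⟩ := hCD e he
    obtain ⟨f', hf'A, hfs, hfr⟩ := hCD f hf
    have hf'M : f' ∈ M := ⟨hf'A, hfs, by rw [hfr]; exact hf'⟩
    have hfd : f' * d ∈ M := M.mul_mem hf'M hd
    have hq0A : a * f' - ϖ * e' ∈ A2 := sub_mem (mul_mem ha hf'A) (mul_mem hϖA he')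
    have hq0 : a * f' - ϖ * e' ∈ s.nonunits := by
      rw [← r10_res _ (hA2s _ hq0A)]
      have : (⟨a * f' - ϖ * e', hA2s _ hq0A⟩ : s) =
        ⟨a, has⟩ * ⟨f', hfs⟩ - ⟨ϖ, hϖs⟩ * ⟨e', hes⟩ := rfl
      rw [this, map_sub, map_mul, map_mul, her, hfr, hϖr, ec, ← eef]
      ring
    refine ⟨e' * (f' * d)⁻¹, hmk e' he' _ hfd, (a * f' - ϖ * e') * (f' * d)⁻¹,
      hmk _ hq0A _ hfd, ?_, ?_⟩
    · rw [mul_comm]
      exact r10_mul_nonunits (hMi _ hfd) hq0
    · have h1 := hM0 _ hf'M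
      have h2 := hM0 _ hd
      field_simp
      ring
  refine ⟨ϖ, A', ?_⟩
  refine
    { k_mem := fun c => hA2A' _ (A2.algebraMap_mem c)
      noeth := ?_
      le := hA's
      frac := ?_
      pi_mem := hA2A' _ hϖA
      pi_unit := ?_
      proper := ?_
      loc := ?_
      u_mem := ?_ }
  · apply r13_noeth
    · have : Algebra.FiniteType k A2 :=
        (Subalgebra.fg_iff_finiteType A2).1 ⟨TA ∪ T', rfl⟩
      have : IsNoetherianRing A2 := Algebra.FiniteType.isNoetherianRing k A2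
      exact this
    · intro h
      exact hM0 0 h rfl
  · intro z hz
    obtain ⟨a, ha, d, hd, hd', e⟩ := hAfrac z hz
    exact ⟨a, hA2A' _ (hAA2 ha), d, hA2A' _ (hAA2 hd), hd', e⟩
  · intro h
    rw [← r10_res _ hϖs, hϖr] at h
    exact ha00 h
  · rintro z ⟨a, ha, d, hd, e⟩ q hq hqs h1
    obtain ⟨hdA, hds, hdn⟩ := id hd
    apply hdn
    have h2 : q * d = d - ϖ * a := by
      have h6 : q = 1 - ϖ * z := by rw [← h1]; ring
      rw [← e, h6]
      ring
    have h3 : d - ϖ * a ∈ s.nonunits := by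
      rw [← h2, mul_comm]
      exact r10_mul_nonunits hds hqs
    have h4 : (d - ϖ * a) ∈ s := s.nonunits_subset h3
    rw [← r10_res _ h4] at h3
    have h5 : (⟨d - ϖ * a, h4⟩ : s) = ⟨d, hds⟩ - ⟨ϖ, hϖs⟩ * ⟨a, hA2s a ha⟩ := rfl
    rw [h5, map_sub, map_mul, sub_eq_zero, hϖr] at h3
    rw [h3, mul_comm]
    exact r10_mul_nonunits (hCb _ (hA2C a ha _)) ha0n
  · rintro z ⟨a, ha, d, hd, e⟩
    by_cases haM : IsLocalRing.residue s ⟨a, hA2s a ha⟩ ∈ b.nonunits
    · right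
      have : z = a * d⁻¹ := by
        rw [← e, mul_assoc, mul_inv_cancel₀ (hM0 d hd), mul_one]
      rw [this]
      exact key a ha (hA2s a ha) haM d hd
    · left
      have haM' : a ∈ M := ⟨ha, hA2s a ha, haM⟩
      refine ⟨d * a⁻¹, hmk d hd.1 a haM', ?_⟩
      rw [← mul_assoc, e, mul_inv_cancel₀ (hM0 a haM')]
  · obtain ⟨b', hb', q, hq, hqs, e⟩ := key u (hAA2 huA) u.2 hub 1 M.one_mem
    refine ⟨b', hb', q, hq, hqs, ?_⟩
    rw [← e, inv_one, mul_one]

end Pool.Agent.H19.UT
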