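import Pool.Agent.H19.UT.SpR
import Pool.Agent.H19.UT.RAdj
import Pool.Agent.H19.UT.RLift

/-!
Project UT, row R05: localisations of normal noetherian rings at minimal nonzero primes.
-/

set_option autoImplicit false
set_option maxHeartbeats 400000

open Polynomial Pool.Agent.K1

namespace Pool.Agent.H19.UT

/-- Row R05. -/
theorem sp_rdvr : SpRDvr := by
  intro K _ A hN hint hfr Q hQ hQ0 hmin
  classical
  let M : Submonoid K :=
    { carrier := {d | ∃ h : d ∈ A, (⟨d, h⟩ : A) ∉ Q}
      mul_mem' := by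
        rintro x y ⟨hx, hx'⟩ ⟨hy, hy'⟩
        refine ⟨mul_mem hx hy, ?_⟩
        intro h
        have : (⟨x * y, mul_mem hx hy⟩ : A) = ⟨x, hx⟩ * ⟨y, hy⟩ := rfl
        rw [this] at h
        rcases hQ.mem_or_mem h with h | h
        · exact hx' h
        · exact hy' h
      one_mem' := ⟨one_mem _, fun h => hQ.ne_top ((Ideal.eq_top_iff_one _).2 h)⟩ }
  have hM : ∀ d ∈ M, d ∈ A := fun d hd => hd.1
  have hM0' : (0 : K) ∉ M := by
    rintro ⟨h, h'⟩
    exact h' (Q.zero_mem)
  have hM0 : ∀ d ∈ M, d ≠ 0 := by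
    rintro d hd rfl
    exact hM0' hd
  let R : Subring K := r13_loc A M hM
  have hAR : A ≤ R := r13_le A M hM
  have hRN : IsNoetherianRing R := r13_noeth A hN M hM hM0'
  letI : Algebra A R := (Subring.inclusion hAR).toAlgebra
  have hmap : ∀ b : A, ((algebraMap A R b : R) : K) = b := fun b => rfl
  have hmk : ∀ a ∈ A, ∀ d ∈ M, a * d⁻¹ ∈ R := by
    intro a ha d hd
    refine ⟨a, ha, d, hd, ?_⟩
    rw [mul_assoc, inv_mul_cancel₀ (hM0 d hd), mul_one]
  have hloc : IsLocalization.AtPrime R Q := by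
    refine (isLocalization_iff _ _).mpr ⟨?_, ?_, ?_⟩
    · rintro ⟨b, hb⟩
      have hbM : (b : K) ∈ M := ⟨b.2, hb⟩
      have h1 := hmk 1 (one_mem _) _ hbM
      rw [one_mul] at h1
      rw [isUnit_iff_exists_inv]
      exact ⟨⟨_, h1⟩, Subtype.ext (mul_inv_cancel₀ (hM0 _ hbM))⟩
    · rintro ⟨z, a, ha, d, hd, e⟩
      refine ⟨(⟨a, ha⟩, ⟨⟨d, hd.1⟩, hd.2⟩), Subtype.ext e⟩
    · intro x y h
      refine ⟨1, ?_⟩
      have h1 : (x : K) = y := by rw [← hmap x, ← hmap y, h]
      rw [Subtype.ext h1]
  have hlr : IsLocalRing R := IsLocalization.AtPrime.isLocalRing R Q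
  have hfR : IsFractionRing R K := by
    refine (isLocalization_iff _ _).mpr ⟨?_, ?_, ?_⟩
    · rintro ⟨b, hb⟩
      rw [isUnit_iff_ne_zero]
      intro h
      have h1 : (b : K) = 0 := h
      exact nonZeroDivisors.ne_zero hb (Subtype.ext h1)
    · intro z
      obtain ⟨a, ha, d, hd, hd0, e⟩ := hfr z
      refine ⟨(⟨a, hAR ha⟩, ⟨⟨d, hAR hd⟩, ?_⟩), e⟩
      rw [mem_nonZeroDivisors_iff_ne_zero]
      intro h
      exact hd0 (congrArg Subtype.val h)
    · intro x y h
      refine ⟨1, ?_⟩
      have h1 : (x : K) = y := h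
      rw [Subtype.ext h1]
  have : IsScalarTower A R K := IsScalarTower.of_algebraMap_eq (fun _ => rfl)
  have hic : IsIntegrallyClosed R := by
    rw [isIntegrallyClosed_iff K]
    intro z hz
    obtain ⟨⟨m, hm⟩, h1⟩ :=
      IsIntegral.exists_multiple_integral_of_isLocalization Q.primeCompl z hz
    have h2 := hint _ h1
    have hmM : (m : K) ∈ M := ⟨m.2, hm⟩
    have h3 : ((⟨m, hm⟩ : Q.primeCompl) • z : K) = (m : K) * z := rfl
    rw [h3] at h2
    refine ⟨⟨z, (m : K) * z, h2, (m : K), hmM, mul_comm _ _⟩, rfl⟩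
  have hmax : ∀ a : A, algebraMap A R a ∈ IsLocalRing.maximalIdeal R ↔ a ∈ Q :=
    fun a => IsLocalization.AtPrime.to_map_mem_maximal_iff R Q a
  have hprime : ∀ P : Ideal R, P ≠ ⊥ → P.IsPrime → P = IsLocalRing.maximalIdeal R := by
    intro P hP hPp
    apply le_antisymm (IsLocalRing.le_maximalIdeal hPp.ne_top)
    have h1 : P.comap (algebraMap A R) = Q := by
      apply hmin _ (Ideal.comap_isPrime _ _)
      · intro h
        apply hP
        rw [eq_bot_iff]
        rintro ⟨z, a, ha, d, hd, e⟩ hz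
        have h2 : (⟨a, ha⟩ : A) ∈ P.comap (algebraMap A R) := by
          rw [Ideal.mem_comap]
          have h3 : algebraMap A R ⟨a, ha⟩ = (⟨z, a, ha, d, hd, e⟩ : R) * ⟨d, hAR hd.1⟩ :=
            Subtype.ext e.symm
          rw [h3]
          exact Ideal.mul_mem_right _ _ hz
        rw [h, Ideal.mem_bot] at h2
        have h3 : a = 0 := congrArg Subtype.val h2
        rw [Ideal.mem_bot]
        apply Subtype.ext
        change z = 0
        rw [h3] at e
        exact (mul_eq_zero.1 e).resolve_right (hM0 d hd)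
      · intro a ha
        rw [← hmax]
        exact IsLocalRing.le_maximalIdeal hPp.ne_top ha
    rintro ⟨z, a, ha, d, hd, e⟩ hz
    have h2 : (⟨a, ha⟩ : A) ∈ Q := by
      rw [← hmax]
      have h3 : algebraMap A R ⟨a, ha⟩ = (⟨z, a, ha, d, hd, e⟩ : R) * ⟨d, hAR hd.1⟩ :=
        Subtype.ext e.symm
      rw [h3]
      exact Ideal.mul_mem_right _ _ hz
    rw [← h1, Ideal.mem_comap] at h2
    have hdi : d⁻¹ ∈ R := by
      have := hmk 1 (one_mem _) d hd
      rwa [one_mul] at this
    have h4 : (⟨z, a, ha, d, hd, e⟩ : R) = algebraMap A R ⟨a, ha⟩ * ⟨d⁻¹, hdi⟩ := by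
      apply Subtype.ext
      change z = a * d⁻¹
      rw [← e, mul_assoc, mul_inv_cancel₀ (hM0 d hd), mul_one]
    rw [h4]
    exact Ideal.mul_mem_right _ _ h2
  have hval0 : (IsIntegrallyClosed R ∧
      ∀ P : Ideal R, P ≠ ⊥ → P.IsPrime → P = IsLocalRing.maximalIdeal R) ↔ ValuationRing R :=
    (tfae_of_isNoetherianRing_of_isLocalRing_of_isDomain (R := R)).out 3 1
  have hpid0 : (IsIntegrallyClosed R ∧
      ∀ P : Ideal R, P ≠ ⊥ → P.IsPrime → P = IsLocalRing.maximalIdeal R) ↔
      IsPrincipalIdealRing R :=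
    (tfae_of_isNoetherianRing_of_isLocalRing_of_isDomain (R := R)).out 3 0
  have hval : ValuationRing R := hval0.1 ⟨hic, hprime⟩
  have hpid : IsPrincipalIdealRing R := hpid0.1 ⟨hic, hprime⟩
  have hmb : IsLocalRing.maximalIdeal R ≠ ⊥ := by
    intro h
    apply hQ0
    rw [eq_bot_iff]
    intro a ha
    rw [← hmax, h, Ideal.mem_bot] at ha
    have h1 : (a : K) = 0 := congrArg Subtype.val ha
    rw [Ideal.mem_bot]
    exact Subtype.ext h1
  have hdvr : IsDiscreteValuationRing R := { hpid with not_a_field' := hmb }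
  let D : ValuationSubring K :=
    { R with
      mem_or_inv_mem' := by
        intro z
        obtain ⟨a, ha, d, hd, hd0, e⟩ := hfr z
        obtain ⟨c, hc⟩ := ValuationRing.cond (⟨a, hAR ha⟩ : R) ⟨d, hAR hd⟩
        rcases hc with hc | hc
        · right
          have h1 : a * (c : K) = d := congrArg Subtype.val hc
          have h2 : z⁻¹ = c := by
            have ha0 : a ≠ 0 := by
              rintro rfl
              rw [zero_mul] at h1
              exact hd0 h1.symm
            have hz0 : z ≠ 0 := by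
              rintro rfl
              rw [zero_mul] at e
              exact ha0 e.symm
            rw [← e] at h1
            have h3 : d * (z * (c : K) - 1) = 0 := by
              linear_combination h1
            have h4 := (mul_eq_zero.1 h3).resolve_left hd0
            exact inv_eq_of_mul_eq_one_right (sub_eq_zero.1 h4)
          rw [h2]
          exact c.2
        · left
          have h1 : d * (c : K) = a := congrArg Subtype.val hc
          have h2 : z = c := by
            rw [← e] at h1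
            have h3 : d * (z - c) = 0 := by linear_combination -h1
            exact sub_eq_zero.1 ((mul_eq_zero.1 h3).resolve_left hd0)
          rw [h2]
          exact c.2 }
  have hDR : ∀ z, z ∈ D ↔ z ∈ R := fun z => Iff.rfl
  refine ⟨D, ?_, fun a => hAR a.2, ?_, ?_⟩
  · rw [isDiscV_iff]
    exact hdvr
  · intro a
    constructor
    · intro h
      by_contra h1
      have haM : (a : K) ∈ M := ⟨a.2, h1⟩
      have h2 : (a : K)⁻¹ ∈ D := by
        have := hmk 1 (one_mem _) _ haM
        rwa [one_mul] at this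
      have h3 := r10_mul_nonunits h2 h
      rw [inv_mul_cancel₀ (hM0 _ haM)] at h3
      exact r10_one h3
    · intro h
      by_contra h1
      have h2 : (a : K)⁻¹ ∈ D := r10_inv (hAR a.2) h1
      have ha0 : (a : K) ≠ 0 := by
        intro h3
        rw [h3] at h1
        exact h1 r10_zero
      obtain ⟨e, he, d, hd, h3⟩ := h2
      have h4 : d = e * a := by
        rw [← h3]
        field_simp
      obtain ⟨hd1, hd2⟩ := hd
      apply hd2
      have h5 : (⟨d, hd1⟩ : A) = ⟨e, he⟩ * a := Subtype.ext h4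
      rw [h5]
      exact Ideal.mul_mem_left _ _ h
  · rintro z ⟨a, ha, d, hd, e⟩
    exact ⟨⟨a, ha⟩, ⟨d, hd.1⟩, hd.2, e⟩

end Pool.Agent.H19.UT
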