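import Pool.Agent.H19.UT.SpR

/-!
Project UT, row R12: factorisation modulo the maximal ideal of `s`.
-/

set_option autoImplicit false
set_option maxHeartbeats 400000

open Polynomial Pool.Agent.K1

namespace Pool.Agent.H19.UT

/-- Row R12. -/
theorem sp_rfac : SpRFac := by
  intro k K _ _ _ s u ϖ A hA a ha has
  classical
  let P : Ideal A := (IsLocalRing.maximalIdeal s).comap
    ((Subring.inclusion (show A ≤ s.toSubring from fun x hx => hA.le x hx)) : A →+* s)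
  have hP : ∀ x : A, x ∈ P ↔ (x : K) ∈ s.nonunits := by
    intro x
    rw [ValuationSubring.mem_nonunits_iff_exists_mem_maximalIdeal]
    constructor
    · intro h
      exact ⟨hA.le _ x.2, h⟩
    · rintro ⟨h1, h2⟩
      exact h2
  haveI hPp : P.IsPrime := Ideal.comap_isPrime _ _
  haveI := hA.noeth
  let ϖ' : A := ⟨ϖ, hA.pi_mem⟩
  let I : Ideal (A ⧸ P) := Ideal.span {Ideal.Quotient.mk P ϖ'}
  have hI : I ≠ ⊤ := by
    intro h
    have h1 : (1 : A ⧸ P) ∈ I := by rw [h]; trivial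
    obtain ⟨c, hc⟩ := Ideal.mem_span_singleton'.1 h1
    obtain ⟨c, rfl⟩ := Ideal.Quotient.mk_surjective c
    rw [← map_mul, ← map_one (Ideal.Quotient.mk P), Ideal.Quotient.eq, hP] at hc
    refine hA.proper (c : K) c.2 (-(((c * ϖ' - 1 : A)) : K)) (neg_mem (c * ϖ' - 1 : A).2) ?_ ?_
    · rw [ValuationSubring.mem_nonunits_iff_exists_mem_maximalIdeal] at hc ⊢
      obtain ⟨h2, h3⟩ := hc
      exact ⟨neg_mem h2, neg_mem h3⟩
    · change ϖ * (c : K) + -((c : K) * ϖ - 1) = 1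
      ring
  have hinf := Ideal.iInf_pow_eq_bot_of_isDomain I hI
  have hex : ∃ n : ℕ, ¬ ∃ w ∈ A, ∃ q ∈ A, q ∈ s.nonunits ∧ a = ϖ ^ (n + 1) * w + q := by
    by_contra hcon
    push Not at hcon
    apply has
    have h1 : Ideal.Quotient.mk P ⟨a, ha⟩ ∈ (⨅ i : ℕ, I ^ i) := by
      rw [Ideal.mem_iInf]
      intro i
      obtain ⟨w, hw, q, hq, hqs, e⟩ := hcon i
      have e1 : (⟨a, ha⟩ : A) = ϖ' ^ (i + 1) * ⟨w, hw⟩ + ⟨q, hq⟩ := Subtype.ext e
      have e2 : Ideal.Quotient.mk P ⟨q, hq⟩ = 0 := by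
        rw [Ideal.Quotient.eq_zero_iff_mem, hP]
        exact hqs
      rw [e1, map_add, map_mul, map_pow, e2, add_zero, pow_succ, mul_assoc]
      apply Ideal.mul_mem_right
      exact Ideal.pow_mem_pow (Ideal.mem_span_singleton_self _) i
    rw [hinf, Ideal.mem_bot, Ideal.Quotient.eq_zero_iff_mem, hP] at h1
    exact h1
  let n := Nat.find hex
  have hn : ¬ ∃ w ∈ A, ∃ q ∈ A, q ∈ s.nonunits ∧ a = ϖ ^ (n + 1) * w + q := Nat.find_spec hex
  have hn' : ∃ w ∈ A, ∃ q ∈ A, q ∈ s.nonunits ∧ a = ϖ ^ n * w + q := by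
    rcases Nat.eq_zero_or_pos n with h | h
    · refine ⟨a, ha, 0, zero_mem _, ?_, ?_⟩
      · rw [ValuationSubring.mem_nonunits_iff_exists_mem_maximalIdeal]
        exact ⟨zero_mem _, zero_mem _⟩
      · rw [h, pow_zero, one_mul, add_zero]
    · have h1 := Nat.find_min hex (m := n - 1) (Nat.sub_lt h one_pos)
      have h2 : n - 1 + 1 = n := Nat.sub_add_cancel h
      rw [not_not, h2] at h1
      exact h1
  obtain ⟨w, hw, q, hq, hqs, e⟩ := hn'
  rcases hA.loc w hw with ⟨w', hw', h1⟩ | ⟨b, hb, q', hq', hqs', e'⟩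
  · exact ⟨n, w, w', q, hw, hw', h1, hq, hqs, e⟩
  · exfalso
    refine hn ⟨b, hb, ϖ ^ n * q' + q, add_mem (mul_mem (pow_mem hA.pi_mem n) hq') hq, ?_, ?_⟩
    · rw [ValuationSubring.mem_nonunits_iff_exists_mem_maximalIdeal] at hqs hqs' ⊢
      obtain ⟨h2, h3⟩ := hqs
      obtain ⟨h4, h5⟩ := hqs'
      have h6 : ϖ ^ n ∈ s := pow_mem (hA.le _ hA.pi_mem) n
      exact ⟨add_mem (mul_mem h6 h4) h2,
        add_mem (Ideal.mul_mem_left _ (⟨ϖ ^ n, h6⟩ : s) h5) h3⟩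
    · rw [e, e', pow_succ]
      ring

end Pool.Agent.H19.UT
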