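import Pool.Agent.H19.UT.SpR
import Pool.Agent.H19.UT.OnF
import Pool.Agent.H19.UT.OdF
import Pool.Agent.H19.UT.Basic

/-!
Project UT, row R15: the local ring is regular, and the order of the unit is not zero (helper79).
-/

set_option autoImplicit false
set_option maxHeartbeats 400000

open Polynomial Pool.Agent.K1

namespace Pool.Agent.H19.UT

/-- a unit of the valuation ring is not in the maximal ideal -/
theorem r15_unit {K : Type} [Field K] {s : ValuationSubring K} {u : Kˣ} (hu : UnitIn s u) :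
    (u : K) ∉ s.nonunits := by
  intro h
  rcases tord_nonunits_iff.1 h with h | h
  · exact u.ne_zero h
  · apply h.2
    have h3 := hu.2
    rwa [Units.val_inv_eq_inv_val] at h3

/-- the contraction of the maximal ideal -/
def r15_P {K : Type} [Field K] (s : ValuationSubring K) (R : Subring K)
    (hle : ∀ r ∈ R, r ∈ s) : Ideal R where
  carrier := {r | (r : K) ∈ s.nonunits}
  zero_mem' := by
    change ((0 : R) : K) ∈ s.nonunits
    rw [Subring.coe_zero]
    exact tord_nonunits_iff.2 (Or.inl rfl)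
  add_mem' := by
    intro a b ha hb
    change ((a + b : R) : K) ∈ s.nonunits
    rw [Subring.coe_add]
    exact s.nonunits.add_mem ha hb
  smul_mem' := by
    intro c a ha
    change ((c * a : R) : K) ∈ s.nonunits
    rw [Subring.coe_mul]
    exact nonunits_mul (hle c c.2) ha

theorem r15_mem {K : Type} [Field K] {s : ValuationSubring K} {R : Subring K}
    {hle : ∀ r ∈ R, r ∈ s} (r : R) : r ∈ r15_P s R hle ↔ (r : K) ∈ s.nonunits := Iff.rfl

theorem r15_inv {K : Type} [Field K] {s : ValuationSubring K} {b : K} (hb : b ∈ s)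
    (hb1 : b ∉ s.nonunits) : b ≠ 0 ∧ b⁻¹ ∈ s := by
  rw [tord_nonunits_iff] at hb1
  push Not at hb1
  exact ⟨hb1.1, hb1.2 hb⟩

theorem r15_prime {K : Type} [Field K] {s : ValuationSubring K} {R : Subring K}
    {hle : ∀ r ∈ R, r ∈ s} : (r15_P s R hle).IsPrime := by
  refine ⟨?_, ?_⟩
  · rw [Ne, Ideal.eq_top_iff_one, r15_mem, Subring.coe_one, tord_nonunits_iff]
    rintro (h | h)
    · exact one_ne_zero h
    · apply h.2
      rw [inv_one]
      exact s.one_mem
  · intro a b hab
    by_contra hc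
    push Not at hc
    obtain ⟨ha, hb⟩ := hc
    rw [r15_mem] at ha hb hab
    obtain ⟨ha0, ha1⟩ := r15_inv (hle a a.2) ha
    obtain ⟨hb0, hb1⟩ := r15_inv (hle b b.2) hb
    rw [Subring.coe_mul, tord_nonunits_iff] at hab
    rcases hab with h | h
    · exact mul_ne_zero ha0 hb0 h
    · apply h.2
      rw [mul_inv]
      exact s.mul_mem _ _ ha1 hb1

theorem sp_rfin (h1 : SpOnFacts) (h2 : SpOD) : SpRFin := by
  intro k K _ _ _ s hs u hu R hR
  obtain ⟨x, y, hxy⟩ := hR.two
  have := hR.noeth
  have hloc : IsLocalRing R := by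
    refine IsLocalRing.of_nonunits_add ?_
    intro a b ha hb
    obtain ⟨a1, a2, ha'⟩ := (hxy a).1 ha
    obtain ⟨b1, b2, hb'⟩ := (hxy b).1 hb
    exact (hxy (a + b)).2 ⟨a1 + b1, a2 + b2, by rw [ha', hb']; ring⟩
  have hm : IsLocalRing.maximalIdeal R = Ideal.span {x, y} := by
    ext r
    rw [IsLocalRing.mem_maximalIdeal, mem_nonunits_iff, hxy, Ideal.mem_span_pair]
    constructor
    · rintro ⟨a, b, h⟩
      exact ⟨a, b, h.symm⟩
    · rintro ⟨a, b, h⟩
      exact ⟨a, b, h.symm⟩
  have hPp : (r15_P s R hR.le).IsPrime := r15_prime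
  have huP : (⟨(u : K), hR.u_mem⟩ : R) ∉ r15_P s R hR.le := by
    rw [r15_mem]
    exact r15_unit hu
  have hum : (⟨(u : K), hR.u_mem⟩ : R) ∈ IsLocalRing.maximalIdeal R := by
    rw [IsLocalRing.mem_maximalIdeal, mem_nonunits_iff]
    intro h
    obtain ⟨v, hv⟩ := h.exists_right_inv
    apply hR.u_nonunit (v : K) v.2
    have h3 := congrArg (Subtype.val : R → K) hv
    rwa [Subring.coe_mul, Subring.coe_one] at h3
  have hP0 : r15_P s R hR.le ≠ ⊥ := by
    obtain ⟨π, hπ, -⟩ := hs
    obtain ⟨a, b, hb, hab⟩ := hR.frac π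
    intro h
    have ha : a ∈ r15_P s R hR.le := by
      rw [r15_mem, ← hab, mul_comm]
      exact nonunits_mul (hR.le b b.2) (tord_unif_nonunit hπ)
    rw [h, Ideal.mem_bot] at ha
    rw [ha, Subring.coe_zero] at hab
    exact mul_ne_zero hπ.1 hb hab
  have hPm : r15_P s R hR.le < IsLocalRing.maximalIdeal R := by
    refine lt_of_le_of_ne (IsLocalRing.le_maximalIdeal hPp.ne_top) ?_
    intro h
    rw [h] at huP
    exact huP hum
  have hht : (2 : WithBot ℕ∞) ≤ ringKrullDim R := by
    rw [← IsLocalRing.maximalIdeal_height_eq_ringKrullDim]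
    have e1 := Ideal.height_add_one_le_of_lt_of_isPrime (bot_lt_iff_ne_bot.2 hP0)
    have e2 := Ideal.height_add_one_le_of_lt_of_isPrime hPm
    rw [Ideal.height_bot, zero_add] at e1
    have e3 : (2 : ℕ∞) ≤ (IsLocalRing.maximalIdeal R).height := by
      refine le_trans ?_ e2
      have e4 : (1 : ℕ∞) + 1 ≤ (r15_P s R hR.le).height + 1 := add_le_add_left e1 1
      exact le_trans (by decide) e4
    exact WithBot.coe_le_coe.2 e3
  have hfr : (IsLocalRing.maximalIdeal R).spanFinrank ≤ 2 := by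
    rw [hm]
    refine le_trans (Submodule.spanFinrank_span_le_ncard_of_finite (by simp)) ?_
    refine le_trans (Set.ncard_insert_le _ _) ?_
    rw [Set.ncard_singleton]
  have hreg : IsRegularLocalRing R := by
    apply IsRegularLocalRing.of_spanFinrank_maximalIdeal_le
    refine le_trans ?_ hht
    exact_mod_cast hfr
  have hdim : ringKrullDim R = 2 := by
    refine le_antisymm ?_ hht
    rw [← IsRegularLocalRing.spanFinrank_maximalIdeal (R := R)]
    exact_mod_cast hfr
  have hR2 : Reg2 k R := ⟨hR.k_mem, hR.frac, hreg, hdim⟩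
  refine ⟨hR2, ?_⟩
  -- the prime is principal
  have hpr : (r15_P s R hR.le).IsPrincipal := by
    by_cases hx : x ∈ r15_P s R hR.le
    · by_cases hy : y ∈ r15_P s R hR.le
      · exfalso
        apply not_le_of_gt hPm
        rw [hm, Ideal.span_le]
        rintro z (rfl | rfl)
        · exact hx
        · exact hy
      · refine isPrincipal_of_two y x ?_ _ hy
        rw [hm, Set.pair_comm]
    · exact isPrincipal_of_two x y hm _ hx
  obtain ⟨f, hf⟩ := hpr
  have hf' : r15_P s R hR.le = Ideal.span {f} := hf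
  have hfdvd : ∀ r : R, (r : K) ∈ s.nonunits ↔ f ∣ r := by
    intro r
    rw [← r15_mem (hle := hR.le), hf', Ideal.mem_span_singleton]
  have hfp : Prime f := by
    have hf0 : f ≠ 0 := by
      intro h
      apply hP0
      rw [hf', h, Ideal.span_singleton_eq_bot]
    rw [← Ideal.span_singleton_prime hf0, ← hf']
    exact hPp
  obtain ⟨-, -, hex, hon, -⟩ := h1 k K R hR2
  obtain ⟨D, hD⟩ := hex f hfp
  have hDd := (hon f D hD).1
  have hle : ∀ z ∈ D, z ∈ s := by
    intro z hz
    obtain ⟨a, b, hb, hab⟩ := (hD.2 z).1 hz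
    obtain ⟨hb0, hbi⟩ := r15_inv (hR.le b b.2) (fun h => hb ((hfdvd b).1 h))
    have hza : z = (b : K)⁻¹ * a := by
      rw [← hab]
      field_simp
    rw [hza]
    exact s.mul_mem _ _ hbi (hR.le a a.2)
  have hsD : s = D := by
    rcases discV_maximal hDd hle with h | h
    · exact h
    · exact absurd h (discV_ne_top hs)
  refine ⟨f, ?_, ?_⟩
  · rw [hsD]
    exact hD
  · obtain ⟨hfin, -, hval, -, -⟩ := h2 k K R hR2 f D hD
    have hfu : ¬ f ∣ (⟨(u : K), hR.u_mem⟩ : R) := by
      intro h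
      exact r15_unit hu ((hfdvd _).2 h)
    have hf1 : ¬ f ∣ 1 := fun h => hfp.not_isUnit (isUnit_of_dvd_one h)
    have hor : IsOR R f u (((len f (⟨(u : K), hR.u_mem⟩ : R)).toNat : ℤ) -
        ((len f (1 : R)).toNat : ℤ)) :=
      ⟨⟨(u : K), hR.u_mem⟩, 1, hfu, hf1, by rw [Subring.coe_one, mul_one], rfl⟩
    rw [hsD, hval u _ hor, len_unit f isUnit_one]
    have h3 := hfin _ hfu
    have h4 : len f (⟨(u : K), hR.u_mem⟩ : R) ≠ 0 := by
      unfold len
      rw [Ne, Module.length_eq_zero_iff, Ideal.Quotient.subsingleton_iff]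
      intro h
      apply (IsLocalRing.maximalIdeal.isMaximal R).ne_top
      rw [eq_top_iff, ← h, Ideal.span_le]
      rintro z (rfl | rfl)
      · exact IsLocalRing.le_maximalIdeal hPp.ne_top (by rw [hf']; exact Ideal.mem_span_singleton_self _)
      · exact hum
    have h5 : (len f (⟨(u : K), hR.u_mem⟩ : R)).toNat ≠ 0 := by
      rw [Ne, ENat.toNat_eq_zero]
      push Not
      exact ⟨h4, h3⟩
    simpa using h5

end Pool.Agent.H19.UT
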