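import Pool.Agent.H19.UT.SpR
import Pool.Agent.K1.UFin

/-!
Project UT, row R04: the integral closure of a finitely generated ring is finitely generated
(helper72).
-/

set_option autoImplicit false
set_option maxHeartbeats 400000

open Polynomial Pool.Agent.K1

namespace Pool.Agent.H19.UT

theorem r04_fraction {k K : Type} [Field k] [Field K] [Algebra k K] (A : Subalgebra k K)
    (h : ∀ z : K, ∃ a ∈ A, ∃ d ∈ A, d ≠ 0 ∧ z * d = a) : IsFractionRing A K := by
  refine ⟨?_, ?_, ?_⟩
  · intro y
    refine IsUnit.mk0 _ ?_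
    intro h0
    have hy := nonZeroDivisors.coe_ne_zero y
    exact hy (Subtype.ext h0)
  · intro z
    obtain ⟨a, ha, d, hd, hd0, hz⟩ := h z
    refine ⟨(⟨a, ha⟩, ⟨⟨d, hd⟩, ?_⟩), hz⟩
    exact mem_nonZeroDivisors_of_ne_zero (fun h0 => hd0 (congrArg Subtype.val h0))
  · intro x y hxy
    exact ⟨1, by rw [Subtype.ext (hxy : (x : K) = (y : K))]⟩

theorem sp_ric : SpRIC := by
  intro k K _ _ _ _ A hA h
  have hfr : IsFractionRing A K := r04_fraction A h
  have hft : Algebra.FiniteType k A := (Subalgebra.fg_iff_finiteType A).1 hA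
  have hfin : Module.Finite A (integralClosure A K) := finite_integralClosure_perfect (k := k)
  have hft2 : Algebra.FiniteType A (integralClosure A K) := inferInstance
  have hft3 : Algebra.FiniteType k (integralClosure A K) := Algebra.FiniteType.trans hft hft2
  refine ⟨(integralClosure A K).restrictScalars k, ?_, ?_⟩
  · exact (Subalgebra.fg_iff_finiteType _).2 hft3
  · intro z
    rfl

end Pool.Agent.H19.UT
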