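import Pool.Agent.H19.UT.SpR

/-!
Project UT, row R02: algebraic independence of a uniformizer and a unit with transcendental residue.
-/

set_option autoImplicit false
set_option maxHeartbeats 400000

open Polynomial Pool.Agent.K1

namespace Pool.Agent.H19.UT

/-- `P = X₀ P₁ + P₀(X₁)` -/
theorem r02_dec {k : Type} [Field k] (P : MvPolynomial (Fin 2) k) :
    ∃ (P₁ : MvPolynomial (Fin 2) k) (P₀ : k[X]),
      P = MvPolynomial.X 0 * P₁ + Polynomial.aeval (MvPolynomial.X 1) P₀ := by
  induction P using MvPolynomial.induction_on with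
  | C a =>
    refine ⟨0, Polynomial.C a, ?_⟩
    rw [mul_zero, zero_add, Polynomial.aeval_C]
    rfl
  | add p q hp hq =>
    obtain ⟨p₁, p₀, hp⟩ := hp
    obtain ⟨q₁, q₀, hq⟩ := hq
    refine ⟨p₁ + q₁, p₀ + q₀, ?_⟩
    rw [map_add]
    conv_lhs => rw [hp, hq]
    ring
  | mul_X p i hp =>
    obtain ⟨p₁, p₀, hp⟩ := hp
    fin_cases i
    · refine ⟨p, 0, ?_⟩
      rw [map_zero, add_zero, mul_comm]
      rfl
    · refine ⟨p₁ * MvPolynomial.X 1, p₀ * Polynomial.X, ?_⟩
      rw [map_mul, Polynomial.aeval_X]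
      conv_lhs => rw [hp]
      change (_ : MvPolynomial (Fin 2) k) * MvPolynomial.X 1 = _
      ring

theorem r02_mem {k K : Type} [Field k] [Field K] [Algebra k K] (s : ValuationSubring K)
    (hk : ∀ a : k, algebraMap k K a ∈ s) (c u : K) (hc : c ∈ s) (hu : u ∈ s)
    (P : MvPolynomial (Fin 2) k) : MvPolynomial.aeval ![c, u] P ∈ s := by
  induction P using MvPolynomial.induction_on with
  | C a =>
    rw [MvPolynomial.aeval_C]
    exact hk a
  | add p q hp hq =>
    rw [map_add]
    exact s.add_mem _ _ hp hq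
  | mul_X p i hp =>
    rw [map_mul, MvPolynomial.aeval_X]
    refine s.mul_mem _ _ hp ?_
    fin_cases i
    · exact hc
    · exact hu

/-- R02 -/
theorem sp_rind : SpRInd := by
  intro k K _ _ _ s hs hk c u hc hu hP
  have hcs : c ∈ s := (tord_unif_mem (v := s) hc).1
  have key : ∀ P : MvPolynomial (Fin 2) k, MvPolynomial.aeval ![c, u] P ∈ s.nonunits →
      MvPolynomial.X 0 ∣ P := by
    intro P h
    obtain ⟨P₁, P₀, hdec⟩ := r02_dec P
    have h1 : MvPolynomial.aeval ![c, u] P =
        c * MvPolynomial.aeval ![c, u] P₁ + Polynomial.aeval u P₀ := by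
      conv_lhs => rw [hdec]
      rw [map_add, map_mul, MvPolynomial.aeval_X, ← Polynomial.aeval_algHom_apply,
        MvPolynomial.aeval_X]
      rfl
    have h2 : Polynomial.aeval u P₀ ∈ s.nonunits := by
      obtain ⟨d, hd, hd'⟩ := (hc.2 _).1 h
      refine (hc.2 _).2 ⟨d - MvPolynomial.aeval ![c, u] P₁, ?_, ?_⟩
      · exact sub_mem hd (r02_mem s hk c u hcs hu P₁)
      · rw [mul_sub, ← hd', h1]
        ring
    have h3 : P₀ = 0 := by
      by_contra h4
      exact hP P₀ h4 h2
    rw [h3, map_zero, add_zero] at hdec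
    exact ⟨P₁, hdec⟩
  refine ⟨?_, key⟩
  intro P hP0 h0
  obtain ⟨n, P', hP', hP2⟩ := WfDvdMonoid.max_power_factor' hP0
    (x := (MvPolynomial.X 0 : MvPolynomial (Fin 2) k)) (by
      intro hu
      have h1 : MvPolynomial.eval (fun _ => (0 : k)) (MvPolynomial.X 0 : MvPolynomial (Fin 2) k)
          = 0 := MvPolynomial.eval_X _
      have h2 := hu.map (MvPolynomial.eval (fun _ : Fin 2 => (0 : k)))
      rw [h1] at h2
      exact not_isUnit_zero h2)
  rw [hP2, map_mul, map_pow, MvPolynomial.aeval_X] at h0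
  rcases mul_eq_zero.1 h0 with h1 | h1
  · have h2 : ![c, u] 0 = 0 := by
      rcases Nat.eq_zero_or_pos n with rfl | hn
      · exact absurd h1 (by simp)
      · exact (pow_eq_zero_iff hn.ne').1 h1
    exact hc.1 h2
  · apply hP'
    apply key
    rw [h1]
    exact (tord_nonunits_iff (v := s)).2 (Or.inl rfl)

end Pool.Agent.H19.UT
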