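import Pool.Agent.H19.UT.SpR

/-!
Project UT, row R07: integral equations modulo the maximal ideal of `s`.
-/

set_option autoImplicit false
set_option maxHeartbeats 400000

open Polynomial Pool.Agent.K1

namespace Pool.Agent.H19.UT

/-- every element of `k[c, u]` is a polynomial in `u` modulo the maximal ideal of `s` -/
theorem r07_mod {k K : Type} [Field k] [Field K] [Algebra k K] (s : ValuationSubring K)
    (hk : ∀ a : k, algebraMap k K a ∈ s) {c u : K} (hc : c ∈ s.nonunits) (hu : u ∈ s)
    {w : K} (hw : w ∈ Algebra.adjoin k ({c, u} : Set K)) :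
    w ∈ s ∧ ∃ P : k[X], w - aeval u P ∈ s.nonunits := by
  induction hw using Algebra.adjoin_induction with
  | mem x hx =>
    rcases hx with rfl | hx
    · refine ⟨ValuationSubring.nonunits_subset hc, 0, ?_⟩
      rw [map_zero, sub_zero]
      exact hc
    · rw [Set.mem_singleton_iff] at hx
      subst hx
      refine ⟨hu, X, ?_⟩
      rw [aeval_X, sub_self]
      exact s.nonunits.zero_mem
  | algebraMap r =>
    refine ⟨hk r, C r, ?_⟩
    rw [aeval_C, sub_self]
    exact s.nonunits.zero_mem
  | add x y _ _ hx hy =>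
    obtain ⟨hx1, P, hP⟩ := hx
    obtain ⟨hy1, Q, hQ⟩ := hy
    refine ⟨s.add_mem _ _ hx1 hy1, P + Q, ?_⟩
    have h1 : x + y - aeval u (P + Q) = (x - aeval u P) + (y - aeval u Q) := by
      rw [map_add]
      ring
    rw [h1]
    exact s.nonunits.add_mem hP hQ
  | mul x y _ _ hx hy =>
    obtain ⟨hx1, P, hP⟩ := hx
    obtain ⟨hy1, Q, hQ⟩ := hy
    refine ⟨s.mul_mem _ _ hx1 hy1, P * Q, ?_⟩
    have hQs : aeval u Q ∈ s := by
      have h2 : (aeval u Q : K) = y + -(y - aeval u Q) := by ring
      rw [h2]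
      exact s.add_mem _ _ hy1 (s.neg_mem _ (ValuationSubring.nonunits_subset hQ))
    have h1 : x * y - aeval u (P * Q) = x * (y - aeval u Q) + aeval u Q * (x - aeval u P) := by
      rw [map_mul]
      ring
    rw [h1]
    exact s.nonunits.add_mem (nonunits_mul hx1 hQ) (nonunits_mul hQs hP)

theorem sp_rint : SpRInt := by
  intro k K _ _ _ s hk c u hc hu a ha hint
  obtain ⟨p, hp, hp0⟩ := hint
  have h1 : ∀ i : ℕ, ∃ P : k[X], ((p.coeff i : Algebra.adjoin k ({c, u} : Set K)) : K) -
      aeval u P ∈ s.nonunits := fun i => (r07_mod s hk hc hu (p.coeff i).2).2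
  choose P hP using h1
  set n := p.natDegree with hn
  refine ⟨X ^ n + ∑ i ∈ Finset.range n, C (P i) * X ^ i, ?_, ?_⟩
  · refine monic_X_pow_add ?_
    rw [← mem_degreeLT]
    refine Submodule.sum_mem _ fun i hi => ?_
    rw [mem_degreeLT]
    refine lt_of_le_of_lt (degree_C_mul_X_pow_le i (P i)) ?_
    exact_mod_cast Finset.mem_range.1 hi
  · have h2 : a ^ n + ∑ i ∈ Finset.range n,
        ((p.coeff i : Algebra.adjoin k ({c, u} : Set K)) : K) * a ^ i = 0 := by
      rw [eval₂_eq_sum_range, Finset.sum_range_succ, ← hn] at hp0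
      have h3 : p.coeff n = 1 := hp
      rw [h3, map_one, one_mul, add_comm] at hp0
      exact hp0
    have h4 : (X ^ n + ∑ i ∈ Finset.range n, C (P i) * X ^ i : k[X][X]).eval₂
        ((aeval u : k[X] →ₐ[k] K) : k[X] →+* K) a =
        -∑ i ∈ Finset.range n, a ^ i *
          (((p.coeff i : Algebra.adjoin k ({c, u} : Set K)) : K) - aeval u (P i)) := by
      rw [eval₂_add, eval₂_X_pow, eval₂_finsetSum]
      have h5 : ∀ i ∈ Finset.range n, (C (P i) * X ^ i : k[X][X]).eval₂
          ((aeval u : k[X] →ₐ[k] K) : k[X] →+* K) a = aeval u (P i) * a ^ i := by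
        intro i _
        rw [eval₂_mul, eval₂_C, eval₂_X_pow]
        rfl
      rw [Finset.sum_congr rfl h5]
      have h6 : ∑ i ∈ Finset.range n, a ^ i *
          (((p.coeff i : Algebra.adjoin k ({c, u} : Set K)) : K) - aeval u (P i)) =
          ∑ i ∈ Finset.range n, ((p.coeff i : Algebra.adjoin k ({c, u} : Set K)) : K) * a ^ i -
          ∑ i ∈ Finset.range n, aeval u (P i) * a ^ i := by
        rw [← Finset.sum_sub_distrib]
        refine Finset.sum_congr rfl fun i _ => ?_
        ring
      rw [h6]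
      linear_combination h2
    rw [h4]
    refine s.nonunits.neg_mem (s.nonunits.sum_mem fun i _ => ?_)
    exact nonunits_mul (s.pow_mem ha i) (hP i)

end Pool.Agent.H19.UT
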