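import Pool.Agent.H19.UT.SpR

/-!
Project UT, row R06: the contraction of the maximal ideal of `s` is a minimal nonzero prime.
-/

set_option autoImplicit false
set_option maxHeartbeats 400000

open Polynomial Pool.Agent.K1

namespace Pool.Agent.H19.UT

theorem r06_range {K : Type} (c u : K) : ({c, u} : Set K) = Set.range ![c, u] := by
  simp [Set.pair_comm]

theorem r06_mem_adjoin {k K : Type} [Field k] [Field K] [Algebra k K] (c u : K) (z : K) :
    z ∈ Algebra.adjoin k ({c, u} : Set K) ↔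
      ∃ P : MvPolynomial (Fin 2) k, MvPolynomial.aeval ![c, u] P = z := by
  rw [r06_range, Algebra.adjoin_range_eq_range_aeval]
  exact Iff.rfl

theorem sp_rmin : SpRMin := by
  intro k K _ _ _ s c u hc hind hdvd A hk hcA huA hle hint Q hQ Q' hQ'p hQ'0 hQQ'
  -- the inclusion
  have hsub : ∀ b : Algebra.adjoin k ({c, u} : Set K), (b : K) ∈ A := by
    intro b
    refine Algebra.adjoin_induction (p := fun x _ => x ∈ A) ?_ hk ?_ ?_ b.2
    · rintro x (rfl | rfl)
      · exact hcA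
      · exact huA
    · intro x y _ _ hx hy
      exact A.add_mem hx hy
    · intro x y _ _ hx hy
      exact A.mul_mem hx hy
  let ι : Algebra.adjoin k ({c, u} : Set K) →+* A :=
    { toFun := fun b => ⟨b, hsub b⟩
      map_one' := rfl
      map_mul' := fun _ _ => rfl
      map_zero' := rfl
      map_add' := fun _ _ => rfl }
  let _ : Algebra (Algebra.adjoin k ({c, u} : Set K)) A := ι.toAlgebra
  let j : A →ₐ[Algebra.adjoin k ({c, u} : Set K)] K := ⟨A.subtype, fun _ => rfl⟩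
  have hj : Function.Injective j := Subtype.val_injective
  have hint' : ∀ a : A, IsIntegral (Algebra.adjoin k ({c, u} : Set K)) a := fun a =>
    (isIntegral_algHom_iff j hj).1 (hint a a.2)
  -- polynomials in `c` and `u`
  have key : ∀ P : MvPolynomial (Fin 2) k, ∃ b : A,
      (b : K) = MvPolynomial.aeval ![c, u] P := by
    intro P
    refine ⟨⟨MvPolynomial.aeval ![c, u] P, ?_⟩, rfl⟩
    exact hsub ⟨_, (r06_mem_adjoin c u _).2 ⟨P, rfl⟩⟩
  -- `c` is in `Q'`
  have hcQ : (⟨c, hcA⟩ : A) ∈ Q' := by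
    obtain ⟨a, haQ, ha0⟩ := Submodule.exists_mem_ne_zero_of_ne_bot hQ'0
    have h1 := Ideal.comap_ne_bot_of_integral_mem ha0 haQ (hint' a)
    obtain ⟨b, hbQ, hb0⟩ := Submodule.exists_mem_ne_zero_of_ne_bot h1
    obtain ⟨P, hP⟩ := (r06_mem_adjoin c u _).1 b.2
    have hP0 : P ≠ 0 := by
      rintro rfl
      rw [map_zero] at hP
      exact hb0 (Subtype.ext hP.symm)
    obtain ⟨n, P', hP', hPP'⟩ := WfDvdMonoid.max_power_factor hP0
      (MvPolynomial.X_prime (R := k) (i := (0 : Fin 2))).irreducible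
    obtain ⟨d, hd⟩ := key P'
    have hdQ : d ∉ Q' := fun h => hP' (hdvd _ (hd ▸ (hQ d).1 (hQQ' h)))
    have h2 : (ι b : A) = (⟨c, hcA⟩ : A) ^ n * d := by
      apply Subtype.ext
      show (b : K) = c ^ n * (d : K)
      rw [← hP, hPP', map_mul, map_pow, MvPolynomial.aeval_X, hd]
      rfl
    have h3 : (⟨c, hcA⟩ : A) ^ n * d ∈ Q' := h2 ▸ hbQ
    exact hQ'p.mem_of_pow_mem _ ((hQ'p.mem_or_mem h3).resolve_right hdQ)
  refine le_antisymm hQQ' fun a ha => ?_
  by_contra haQ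
  have h1 := Ideal.comap_lt_comap_of_integral_mem_sdiff hQQ' ⟨ha, haQ⟩ (hint' a)
  obtain ⟨b, hbQ, hbQ'⟩ := SetLike.exists_of_lt h1
  apply hbQ'
  obtain ⟨P, hP⟩ := (r06_mem_adjoin c u _).1 b.2
  obtain ⟨P', rfl⟩ := hdvd P (by
    rw [hP]
    exact (hQ (ι b)).1 hbQ)
  obtain ⟨d, hd⟩ := key P'
  have h2 : (ι b : A) = (⟨c, hcA⟩ : A) * d := by
    apply Subtype.ext
    show (b : K) = c * (d : K)
    rw [← hP, map_mul, MvPolynomial.aeval_X, hd]
    rfl
  show ι b ∈ Q'
  rw [h2]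
  exact Q'.mul_mem_right _ hcQ

end Pool.Agent.H19.UT
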