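import Pool.Agent.H19.UT.SpR
import Pool.Agent.H19.UT.Basic

/-!
Project UT, row R01: the residue of `u` is transcendental over `k` (helper89).
-/

set_option autoImplicit false
set_option maxHeartbeats 400000

open Polynomial Pool.Agent.K1

namespace Pool.Agent.H19.UT

theorem r01_val_one {K : Type} [Field K] (s : ValuationSubring K) {x : K} {n : ℕ} (hn : 0 < n)
    (h : x ^ n = 1) : s.valuation x = 1 := by
  have h4 : s.valuation x ^ n = 1 := by rw [← map_pow, h, map_one]
  rcases lt_trichotomy (s.valuation x) 1 with h6 | h6 | h6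
  · exact absurd h4 (pow_lt_one₀ zero_le h6 hn.ne').ne
  · exact h6
  · exact absurd h4 (one_lt_pow₀ h6 hn.ne').ne'

theorem sp_rtr : SpRTr := by
  intro p k K _ _ _ hB s
  have hval : ∀ c : k, c ≠ 0 → s.valuation (algebraMap k K c) = 1 := by
    intro c hc
    obtain ⟨n, hn, h1⟩ := hB.tors c hc
    exact r01_val_one s hn (by rw [← map_pow, h1, map_one])
  have hk : ∀ c : k, algebraMap k K c ∈ s := by
    intro c
    by_cases hc : c = 0
    · rw [hc, map_zero]; exact s.zero_mem
    · exact (s.valuation_le_one_iff _).1 (hval c hc).le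
  refine ⟨hk, fun u hu hT P hP => ⟨?_, ?_⟩⟩
  · rw [aeval_eq_sum_range]
    refine s.toSubring.sum_mem (fun i _ => ?_)
    rw [Algebra.smul_def]
    exact s.mul_mem _ _ (hk _) (s.toSubring.pow_mem hu.1 i)
  · intro hlt
    rw [s.mem_nonunits_iff] at hlt
    have := hB.closed
    have hsp : P.Splits := IsAlgClosed.splits P
    have hfac : aeval (u : K) P = algebraMap k K P.leadingCoeff *
        (P.roots.map (fun a => (u : K) - algebraMap k K a)).prod := by
      conv_lhs => rw [hsp.eq_prod_roots]
      rw [map_mul, aeval_C, map_multiset_prod, Multiset.map_map]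
      congr 3
      funext a
      simp
    rw [hfac, map_mul, hval _ (leadingCoeff_ne_zero.2 hP), one_mul, map_multiset_prod,
      Multiset.map_map] at hlt
    have hle : ∀ a : k, s.valuation ((u : K) - algebraMap k K a) ≤ 1 := fun a =>
      (s.valuation_le_one_iff _).2 (s.toSubring.sub_mem hu.1 (hk a))
    obtain ⟨a, -, ha⟩ : ∃ a ∈ P.roots, s.valuation ((u : K) - algebraMap k K a) < 1 := by
      by_contra hcon
      push Not at hcon
      have h1 : (P.roots.map (s.valuation ∘ fun a => (u : K) - algebraMap k K a)).prod = 1 := by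
        apply Multiset.prod_eq_one
        intro x hx
        obtain ⟨a, ha, rfl⟩ := Multiset.mem_map.1 hx
        exact le_antisymm (hle a) (hcon a ha)
      rw [h1] at hlt
      exact lt_irrefl _ hlt
    have ha0 : a ≠ 0 := by
      rintro rfl
      rw [map_zero, sub_zero] at ha
      have h2 : s.valuation (((u⁻¹ : Kˣ) : K)) ≤ 1 := (s.valuation_le_one_iff _).2 hu.2
      have h3 : s.valuation (u : K) * s.valuation (((u⁻¹ : Kˣ) : K)) = 1 := by
        rw [← map_mul, Units.mul_inv, map_one]
      have h4 : s.valuation (u : K) * s.valuation (((u⁻¹ : Kˣ) : K)) < 1 :=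
        lt_of_le_of_lt (mul_le_of_le_one_right' h2) ha
      rw [h3] at h4
      exact lt_irrefl _ h4
    obtain ⟨n, hn, hn1⟩ := hB.tors a ha0
    apply hT
    refine ⟨n, hn, ?_⟩
    have h5 : (u : K) ^ n - 1 = (∑ i ∈ Finset.range n, (u : K) ^ i *
        (algebraMap k K a) ^ (n - 1 - i)) * ((u : K) - algebraMap k K a) := by
      rw [geom_sum₂_mul, ← map_pow, hn1, map_one]
    rw [h5]
    refine nonunits_mul ?_ ((s.mem_nonunits_iff).2 ha)
    refine s.toSubring.sum_mem (fun i _ => ?_)
    exact s.mul_mem _ _ (s.toSubring.pow_mem hu.1 i) (s.toSubring.pow_mem (hk a) _)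

end Pool.Agent.H19.UT
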