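import Pool.Agent.H19.UT.RB
import Pool.Agent.H19.UT.OnF
import Pool.Agent.H19.UT.OdF
import Pool.Agent.H19.UT.RTr
import Pool.Agent.H19.UT.RInd
import Pool.Agent.H19.UT.RA0
import Pool.Agent.H19.UT.RIC
import Pool.Agent.H19.UT.RDvr
import Pool.Agent.H19.UT.RMin
import Pool.Agent.H19.UT.RInt
import Pool.Agent.H19.UT.RA1
import Pool.Agent.H19.UT.RCur
import Pool.Agent.H19.UT.RLift
import Pool.Agent.H19.UT.RPre
import Pool.Agent.H19.UT.RFac
import Pool.Agent.H19.UT.RAdj
import Pool.Agent.H19.UT.RReg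
import Pool.Agent.H19.UT.RFin

/-!
Project UT: the RB lemma, without hypotheses (helper3).
-/

set_option autoImplicit false
set_option maxHeartbeats 400000

namespace Pool.Agent.H19.UT

/-- The RB lemma. -/
theorem sp_rb_all : SpRB :=
  sp_rb sp_rtr
    (sp_rpre sp_rtr (sp_ra1 sp_rtr sp_rind sp_ra0 sp_ric sp_rdvr sp_rmin sp_rint)
      (sp_rcur sp_ric sp_rdvr) sp_rlift)
    (sp_rreg sp_rfac sp_radj) (sp_rfin on_facts (od_facts on_facts))

end Pool.Agent.H19.UT
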