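import Pool.Agent.H19.UT.SpR

/-!
Project UT, row R16: the RB lemma from its parts (helper3).
-/

set_option autoImplicit false
set_option maxHeartbeats 400000

open Polynomial Pool.Agent.K1

namespace Pool.Agent.H19.UT

/-- Row R16. -/
theorem sp_rb (h1 : SpRTr) (h11 : SpRPre) (h14 : SpRReg) (h15 : SpRFin) : SpRB := by
  intro p k K _ _ _ hb hf s hs _ u hu ht
  obtain ⟨-, htr⟩ := h1 p k K hb s
  obtain ⟨ϖ, A, hA⟩ := h11 p k K hb hf s hs (u : K) hu.1 (fun P hP => (htr u hu ht P hP).2)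
  obtain ⟨R, hR⟩ := h14 k K s hs _ _ _ hA
  obtain ⟨hreg, f, hon, hod⟩ := h15 k K s hs u hu R hR
  exact ⟨R, f, hreg, hon, hod⟩

end Pool.Agent.H19.UT
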