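import Pool.Agent.H19.UT.SpR

/-!
Project UT, row R14: a local ring whose maximal ideal is generated by two elements (helper39).
-/

set_option autoImplicit false
set_option maxHeartbeats 400000

open Polynomial Pool.Agent.K1

namespace Pool.Agent.H19.UT

theorem r14_inv {K : Type} [Field K] {s : ValuationSubring K} {a : K} (h : a ∉ s.nonunits) :
    a ≠ 0 ∧ a⁻¹ ∈ s := by
  rw [ValuationSubring.mem_nonunits_iff_or, not_or, not_not] at h
  exact h

/-- The ideal of the elements of `A` in the maximal ideal of `s`. -/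
def r14_P {K : Type} [Field K] (s : ValuationSubring K) (A : Subring K)
    (hA : ∀ a ∈ A, a ∈ s) : Ideal A where
  carrier := {a | (a : K) ∈ s.nonunits}
  add_mem' := by
    intro a b ha hb
    change ((a + b : A) : K) ∈ s.nonunits
    rw [Subring.coe_add]
    exact add_mem ha hb
  zero_mem' := by
    change ((0 : A) : K) ∈ s.nonunits
    rw [Subring.coe_zero]
    exact zero_mem _
  smul_mem' := by
    intro c a ha
    change ((c * a : A) : K) ∈ s.nonunits
    rw [Subring.coe_mul]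
    exact nonunits_mul (hA c c.2) ha

theorem r14_gen {K : Type} [Field K] (s : ValuationSubring K) (A : Subring K)
    [IsNoetherianRing A] (hA : ∀ a ∈ A, a ∈ s) : ∃ (r : ℕ) (g : Fin r → K),
      (∀ i, g i ∈ A) ∧ (∀ i, g i ∈ s.nonunits) ∧
      ∀ q ∈ A, q ∈ s.nonunits → ∃ b : Fin r → K, (∀ i, b i ∈ A) ∧ q = ∑ i, b i * g i := by
  obtain ⟨r, g, hg⟩ := Submodule.fg_iff_exists_fin_generating_family.1
    (IsNoetherian.noetherian (r14_P s A hA))
  refine ⟨r, fun i => (g i : K), fun i => (g i).2, fun i => ?_, fun q hq hqs => ?_⟩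
  · have h1 : g i ∈ r14_P s A hA := by
      rw [← hg]
      exact Submodule.subset_span ⟨i, rfl⟩
    exact h1
  · have h1 : (⟨q, hq⟩ : A) ∈ r14_P s A hA := hqs
    rw [← hg, Submodule.mem_span_range_iff_exists_fun] at h1
    obtain ⟨b, hb⟩ := h1
    refine ⟨fun i => (b i : K), fun i => (b i).2, ?_⟩
    have h2 := congrArg (A.subtype) hb
    rw [map_sum] at h2
    change _ = q at h2
    rw [← h2]
    rfl

theorem sp_rreg (h12 : SpRFac) (h13 : SpRAdj) : SpRReg := by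
  intro k K _ _ _ s hs u ϖ A hA
  have hAn := hA.noeth
  obtain ⟨r, g, hgA, hgs, hgen⟩ := r14_gen s A hA.le
  obtain ⟨π, hπ, -⟩ := id hs
  obtain ⟨c, hcA, d0, hd0A, hd0, hcd⟩ := hA.frac π (tord_unif_mem hπ).1
  obtain ⟨hd00, hd0i⟩ := r14_inv hd0
  obtain ⟨hϖ0, hϖi⟩ := r14_inv hA.pi_unit
  have hcs : c ∈ s.nonunits := by
    rw [← hcd, mul_comm]
    exact nonunits_mul (hA.le _ hd0A) (tord_unif_nonunit hπ)
  -- the relations
  have key : ∀ i, ∃ (a w w' : K) (n : ℕ) (b : Fin r → K), a ∈ A ∧ w ∈ A ∧ w' ∈ A ∧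
      w * w' = 1 ∧ (∀ j, b j ∈ A) ∧ g i * (ϖ ^ n * w + ∑ j, b j * g j) = c * a := by
    intro i
    obtain ⟨e, he, h1⟩ := (hπ.2 (g i)).1 (hgs i)
    obtain ⟨a, haA, d, hdA, hd, h2⟩ := hA.frac (e * d0⁻¹) (s.mul_mem _ _ he hd0i)
    obtain ⟨n, w, w', q, hw, hw', hww, hqA, hqs, h3⟩ := h12 k K s u ϖ A hA d hdA hd
    obtain ⟨b, hb, h4⟩ := hgen q hqA hqs
    refine ⟨a, w, w', n, b, haA, hw, hw', hww, hb, ?_⟩
    rw [← h4, ← h3, ← h2, ← hcd, h1]
    field_simp
  choose a w w' n b ha hw hw' hww hb hrel using key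
  set m : ℕ := ∑ i, n i with hm
  have hnm : ∀ i, n i ≤ m := fun i =>
    Finset.single_le_sum (fun j _ => Nat.zero_le (n j)) (Finset.mem_univ i)
  have hpi : ∀ l : ℕ, (ϖ ^ l)⁻¹ ∈ s := fun l => by
    rw [← inv_pow]; exact pow_mem hϖi l
  set x0 : K := (ϖ ^ (2 * m))⁻¹ * c with hx0
  set x : Fin r → K := fun i => (ϖ ^ m)⁻¹ * g i with hx
  obtain ⟨R, hRn, hAR, hxR, hRs, hdich, hno⟩ := h13 K s A ϖ hA.noeth hA.le hA.pi_mem hA.proper
    hA.loc (r + 1) (Fin.cons x0 x) (by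
      intro j
      refine Fin.cases ?_ (fun i => ?_) j
      · rw [Fin.cons_zero]
        exact nonunits_mul (hpi _) hcs
      · rw [Fin.cons_succ]
        exact nonunits_mul (hpi _) (hgs i)) (by
      intro q hqA hqs
      obtain ⟨e, he, h1⟩ := hgen q hqA hqs
      refine ⟨Fin.cons 0 (fun i => e i * ϖ ^ m), ?_, ?_⟩
      · intro j
        refine Fin.cases ?_ (fun i => ?_) j
        · rw [Fin.cons_zero]; exact A.zero_mem
        · rw [Fin.cons_succ]; exact A.mul_mem (he i) (pow_mem hA.pi_mem m)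
      · rw [Fin.sum_univ_succ, h1]
        simp only [Fin.cons_zero, Fin.cons_succ, zero_mul, zero_add]
        refine Finset.sum_congr rfl fun i _ => ?_
        rw [hx]
        field_simp)
  have hx0R : x0 ∈ R := by
    have := hxR 0
    rwa [Fin.cons_zero] at this
  have hxiR : ∀ i, x i ∈ R := fun i => by
    have := hxR i.succ
    rwa [Fin.cons_succ] at this
  have hϖR : ϖ ∈ R := hAR _ hA.pi_mem
  -- the simplified last property
  have hno' : ∀ a ∈ R, ∀ h0 ∈ R, ∀ h : Fin r → K, (∀ j, h j ∈ R) →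
      ϖ * a + (h0 * x0 + ∑ j, h j * x j) ≠ 1 := by
    intro a ha h0 hh0 h hh
    have h1 := hno a ha (Fin.cons h0 h) (fun j => by
      refine Fin.cases ?_ (fun i => ?_) j
      · rw [Fin.cons_zero]; exact hh0
      · rw [Fin.cons_succ]; exact hh i)
    rw [Fin.sum_univ_succ] at h1
    simpa only [Fin.cons_zero, Fin.cons_succ] using h1
  -- units
  have hunit : ∀ i, ∃ v ∈ R, (w i + ϖ ^ (m - n i) * ∑ j, b i j * x j) * v = 1 := by
    intro i
    have hmem : w i + ϖ ^ (m - n i) * ∑ j, b i j * x j ∈ R :=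
      R.add_mem (hAR _ (hw i)) (R.mul_mem (pow_mem hϖR _)
        (R.sum_mem fun j _ => R.mul_mem (hAR _ (hb i j)) (hxiR j)))
    rcases hdich _ hmem with ⟨v, hv, h⟩ | ⟨a', ha', h, hh, h1⟩
    · exact ⟨v, hv, h⟩
    · exfalso
      rw [Fin.sum_univ_succ] at h1
      simp only [Fin.cons_zero, Fin.cons_succ] at h1
      refine hno' (a' * w' i) (R.mul_mem ha' (hAR _ (hw' i))) (h 0 * w' i)
        (R.mul_mem (hh 0) (hAR _ (hw' i)))
        (fun j => (h j.succ - ϖ ^ (m - n i) * b i j) * w' i) (fun j => R.mul_mem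
          (R.sub_mem (hh _) (R.mul_mem (pow_mem hϖR _) (hAR _ (hb i j)))) (hAR _ (hw' i))) ?_
      have h2 : ∑ j, (h j.succ - ϖ ^ (m - n i) * b i j) * w' i * x j =
          (∑ j, h j.succ * x j - ϖ ^ (m - n i) * ∑ j, b i j * x j) * w' i := by
        rw [Finset.mul_sum, ← Finset.sum_sub_distrib, Finset.sum_mul]
        exact Finset.sum_congr rfl fun j _ => by ring
      rw [h2, ← hww i]
      linear_combination (w' i) * (-h1)
  -- the generators are multiples of `x0`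
  have hmul : ∀ i, ∃ e ∈ R, x i = e * x0 := by
    intro i
    obtain ⟨v, hv, h1⟩ := hunit i
    refine ⟨ϖ ^ (m - n i) * a i * v, R.mul_mem (R.mul_mem (pow_mem hϖR _) (hAR _ (ha i))) hv, ?_⟩
    have h2 : ϖ ^ (n i) * (w i + ϖ ^ (m - n i) * ∑ j, b i j * x j) =
        ϖ ^ (n i) * w i + ∑ j, b i j * g j := by
      have h3 : ϖ ^ (n i) * ϖ ^ (m - n i) = ϖ ^ m := by
        rw [← pow_add, Nat.add_sub_cancel' (hnm i)]
      have h4 : ϖ ^ m * ∑ j, b i j * x j = ∑ j, b i j * g j := by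
        rw [Finset.mul_sum]
        refine Finset.sum_congr rfl fun j _ => ?_
        rw [hx]
        field_simp
      rw [mul_add, ← mul_assoc, h3, h4]
    have h5 : ϖ ^ (n i) * (x i * (w i + ϖ ^ (m - n i) * ∑ j, b i j * x j)) =
        ϖ ^ (n i) * (ϖ ^ (m - n i) * a i * x0) := by
      have h6 : ϖ ^ (n i) * ϖ ^ (m - n i) = ϖ ^ m := by
        rw [← pow_add, Nat.add_sub_cancel' (hnm i)]
      have h7 : ϖ ^ (n i) * (x i * (w i + ϖ ^ (m - n i) * ∑ j, b i j * x j)) =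
          (ϖ ^ m)⁻¹ * (g i * (ϖ ^ (n i) * w i + ∑ j, b i j * g j)) := by
        rw [← h2, hx]
        ring
      have h8 : ϖ ^ (n i) * (ϖ ^ (m - n i) * a i * x0) = ϖ ^ m * a i * x0 := by
        rw [← h6]; ring
      rw [h7, h8, hrel i, hx0, two_mul, pow_add]
      field_simp
    have h9 := mul_left_cancel₀ (pow_ne_zero (n i) hϖ0) h5
    calc x i = x i * ((w i + ϖ ^ (m - n i) * ∑ j, b i j * x j) * v) := by rw [h1, mul_one]
      _ = (x i * (w i + ϖ ^ (m - n i) * ∑ j, b i j * x j)) * v := by ring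
      _ = ϖ ^ (m - n i) * a i * v * x0 := by rw [h9]; ring
  choose e heR hex using hmul
  have hAu := hA.u_mem
  refine ⟨R, ⟨fun c => hAR _ (hA.k_mem c), hRn, hRs, ?_, ?_, ?_, ?_⟩⟩
  · intro z
    by_cases hz : z ∈ s
    · obtain ⟨a1, h1, d, h2, h3, h4⟩ := hA.frac z hz
      exact ⟨⟨a1, hAR _ h1⟩, ⟨d, hAR _ h2⟩, (r14_inv h3).1, h4⟩
    · have hz' : z⁻¹ ∈ s := (s.mem_or_inv_mem z).resolve_left hz
      obtain ⟨a1, h1, d, h2, h3, h4⟩ := hA.frac z⁻¹ hz'
      have hz0 : z ≠ 0 := by rintro rfl; exact hz s.zero_mem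
      refine ⟨⟨d, hAR _ h2⟩, ⟨a1, hAR _ h1⟩, ?_, ?_⟩
      · change a1 ≠ 0
        rw [← h4]
        exact mul_ne_zero (inv_ne_zero hz0) (r14_inv h3).1
      · change z * a1 = d
        rw [← h4, mul_inv_cancel_left₀ hz0]
  · refine ⟨⟨x0, hx0R⟩, ⟨ϖ, hϖR⟩, fun t => ⟨fun ht => ?_, ?_⟩⟩
    · rcases hdich t t.2 with ⟨v, hv, h⟩ | ⟨a', ha', h, hh, h1⟩
      · exact absurd (IsUnit.of_mul_eq_one (⟨v, hv⟩ : R) (Subtype.ext h)) ht
      · rw [Fin.sum_univ_succ] at h1
        simp only [Fin.cons_zero, Fin.cons_succ] at h1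
        refine ⟨⟨h 0 + ∑ j, h j.succ * e j, R.add_mem (hh 0) (R.sum_mem fun j _ =>
          R.mul_mem (hh _) (heR j))⟩, ⟨a', ha'⟩, Subtype.ext ?_⟩
        change (t : K) = (h 0 + ∑ j, h j.succ * e j) * x0 + a' * ϖ
        have h2 : ∑ j, h j.succ * x j = (∑ j, h j.succ * e j) * x0 := by
          rw [Finset.sum_mul]
          refine Finset.sum_congr rfl fun j _ => ?_
          rw [hex j]; ring
        rw [h1, h2]
        ring
    · rintro ⟨a1, a2, h1⟩ hu
      obtain ⟨v, hv⟩ := hu.exists_right_inv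
      refine hno' ((a2 : K) * v) (R.mul_mem a2.2 v.2) ((a1 : K) * v) (R.mul_mem a1.2 v.2)
        (fun _ => 0) (fun _ => R.zero_mem) ?_
      have h2 : (t : K) * v = 1 := congrArg (Subtype.val) hv
      have h3 : (t : K) = a1 * x0 + a2 * ϖ := congrArg (Subtype.val) h1
      simp only [zero_mul, Finset.sum_const_zero, add_zero]
      rw [← h2, h3]
      ring
  · obtain ⟨b1, hb1, q, hq, -, h1⟩ := hAu
    rw [h1]
    exact R.add_mem (R.mul_mem hϖR (hAR _ hb1)) (hAR _ hq)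
  · intro v hv h
    obtain ⟨b1, hb1, q, hq, hqs, h1⟩ := hAu
    obtain ⟨e1, he1, h2⟩ := hgen q hq hqs
    refine hno' (b1 * v) (R.mul_mem (hAR _ hb1) hv) 0 R.zero_mem
      (fun j => e1 j * ϖ ^ m * v) (fun j => R.mul_mem (R.mul_mem (hAR _ (he1 j))
        (pow_mem hϖR _)) hv) ?_
    have h3 : ∑ j, e1 j * ϖ ^ m * v * x j = q * v := by
      rw [h2, Finset.sum_mul]
      refine Finset.sum_congr rfl fun j _ => ?_
      rw [hx]
      field_simp
    rw [h3, ← h, h1]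
    ring

end Pool.Agent.H19.UT
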