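import Pool.Agent.H19.UT.SpF

/-!
Project UT, row F08: an element which is not a root of unity is seen by a rational valuation
(helper30).
-/

set_option autoImplicit false
set_option maxHeartbeats 400000

open Polynomial Pool.Agent.K1

namespace Pool.Agent.H19.UT

section disc

variable {A M : Type} [CommRing A] [IsDomain A] [WfDvdMonoid A] [Field M] [Algebra A M]
  [IsFractionRing A M]

/-- Every nonzero fraction is a power of the prime times a fraction of elements which are not
divisible by the prime. -/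
theorem f08_decomp {f : A} (hf : Prime f) {t : M} (ht : t ≠ 0) :
    ∃ (n : ℤ) (a b : A), ¬ f ∣ a ∧ ¬ f ∣ b ∧
      t = algebraMap A M f ^ n * (algebraMap A M a / algebraMap A M b) := by
  obtain ⟨c, d, hd, rfl⟩ := IsFractionRing.div_surjective (A := A) t
  have hd0 : d ≠ 0 := nonZeroDivisors.ne_zero hd
  have hinj : Function.Injective (algebraMap A M) := IsFractionRing.injective A M
  have hc0 : c ≠ 0 := by
    rintro rfl
    apply ht
    rw [map_zero, zero_div]
  obtain ⟨n, a, ha, rfl⟩ := WfDvdMonoid.max_power_factor' hc0 hf.not_isUnit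
  obtain ⟨m, b, hb, rfl⟩ := WfDvdMonoid.max_power_factor' hd0 hf.not_isUnit
  have hfM : algebraMap A M f ≠ 0 := by
    rw [Ne, map_eq_zero_iff _ hinj]; exact hf.ne_zero
  refine ⟨(n : ℤ) - m, a, b, ha, hb, ?_⟩
  rw [zpow_sub₀ hfM, zpow_natCast, zpow_natCast, map_mul, map_mul, map_pow, map_pow]
  rw [div_mul_div_comm]

theorem f08_disc (f : A) (hf : Prime f) :
    ∃ D : ValuationSubring M, IsDiscV D ∧ IsUnifV D (algebraMap A M f) := by
  have hinj : Function.Injective (algebraMap A M) := IsFractionRing.injective A M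
  have hne : ∀ b : A, ¬ f ∣ b → algebraMap A M b ≠ 0 := by
    intro b hb h
    rw [map_eq_zero_iff _ hinj] at h
    exact hb (h ▸ dvd_zero f)
  have hfM : algebraMap A M f ≠ 0 := by
    rw [Ne, map_eq_zero_iff _ hinj]; exact hf.ne_zero
  have h1f : ¬ f ∣ 1 := fun h => hf.not_isUnit (isUnit_of_dvd_one h)
  let D : ValuationSubring M :=
    { carrier := {x : M | ∃ a b : A, ¬ f ∣ b ∧ x * algebraMap A M b = algebraMap A M a}
      mul_mem' := by
        rintro x y ⟨a, b, hb, hx⟩ ⟨c, d, hd, hy⟩
        refine ⟨a * c, b * d, fun h => (hf.dvd_or_dvd h).elim hb hd, ?_⟩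
        rw [map_mul, map_mul, ← hx, ← hy]; ring
      one_mem' := ⟨1, 1, h1f, one_mul _⟩
      add_mem' := by
        rintro x y ⟨a, b, hb, hx⟩ ⟨c, d, hd, hy⟩
        refine ⟨a * d + c * b, b * d, fun h => (hf.dvd_or_dvd h).elim hb hd, ?_⟩
        rw [map_mul, map_add, map_mul, map_mul, ← hx, ← hy]; ring
      zero_mem' := ⟨0, 1, h1f, by rw [zero_mul, map_zero]⟩
      neg_mem' := by
        rintro x ⟨a, b, hb, hx⟩
        exact ⟨-a, b, hb, by rw [map_neg, ← hx]; ring⟩
      mem_or_inv_mem' := by
        intro x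
        by_cases hx : x = 0
        · left
          exact ⟨0, 1, h1f, by rw [hx, zero_mul, map_zero]⟩
        · obtain ⟨n, a, b, ha, hb, rfl⟩ := f08_decomp hf hx
          rcases le_total 0 n with hn | hn
          · left
            obtain ⟨m, rfl⟩ := Int.eq_ofNat_of_zero_le hn
            refine ⟨f ^ m * a, b, hb, ?_⟩
            rw [zpow_natCast, mul_assoc, div_mul_cancel₀ _ (hne b hb), map_mul, map_pow]
          · right
            obtain ⟨m, hm⟩ := Int.eq_ofNat_of_zero_le (neg_nonneg.2 hn)
            have hn' : n = -(m : ℤ) := by omega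
            refine ⟨f ^ m * b, a, ha, ?_⟩
            rw [hn', mul_inv, zpow_neg, inv_inv, zpow_natCast, inv_div, mul_assoc,
              div_mul_cancel₀ _ (hne a ha), map_mul, map_pow] }
  have hD : ∀ x : M, x ∈ D ↔ ∃ a b : A, ¬ f ∣ b ∧ x * algebraMap A M b = algebraMap A M a :=
    fun x => Iff.rfl
  have hU : IsUnifV D (algebraMap A M f) := by
    refine ⟨hfM, fun x => ?_⟩
    rw [tord_nonunits_iff]
    constructor
    · rintro (rfl | ⟨⟨a, b, hb, hx⟩, h2⟩)
      · exact ⟨0, D.zero_mem, (mul_zero _).symm⟩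
      · by_cases hx0 : x = 0
        · exact ⟨0, D.zero_mem, by rw [hx0, mul_zero]⟩
        by_cases ha : f ∣ a
        · obtain ⟨a', rfl⟩ := ha
          refine ⟨algebraMap A M a' / algebraMap A M b,
            ⟨a', b, hb, div_mul_cancel₀ _ (hne b hb)⟩, ?_⟩
          rw [← mul_div_assoc, eq_div_iff (hne b hb), hx, map_mul]
        · exfalso
          apply h2
          refine ⟨b, a, ha, ?_⟩
          rw [← hx, ← mul_assoc, inv_mul_cancel₀ hx0, one_mul]
    · rintro ⟨c, ⟨a, b, hb, hc⟩, rfl⟩
      by_cases hc0 : c = 0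
      · left
        rw [hc0, mul_zero]
      right
      refine ⟨⟨f * a, b, hb, by rw [mul_assoc, hc, map_mul]⟩, ?_⟩
      rintro ⟨a', b', hb', hc'⟩
      have h3 : algebraMap A M (f * (a * a')) = algebraMap A M (b * b') := by
        rw [map_mul, map_mul, map_mul, ← hc, ← hc']
        field_simp
      have h4 : f ∣ b * b' := ⟨a * a', (hinj h3).symm⟩
      exact (hf.dvd_or_dvd h4).elim hb hb'
  refine ⟨D, ⟨algebraMap A M f, hU, ?_⟩, hU⟩
  intro t ht
  obtain ⟨n, a, b, ha, hb, rfl⟩ := f08_decomp hf ht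
  refine ⟨n, Units.mk0 (algebraMap A M a / algebraMap A M b)
    (div_ne_zero (hne a ha) (hne b hb)), ⟨?_, ?_⟩, rfl⟩
  · exact ⟨a, b, hb, div_mul_cancel₀ _ (hne b hb)⟩
  · refine ⟨b, a, ha, ?_⟩
    rw [Units.val_inv_eq_inv_val, Units.val_mk0, inv_div, div_mul_cancel₀ _ (hne a ha)]

end disc

/-- A unit which is not a root of unity is transcendental over the prime field. -/
theorem f08_transc (p : ℕ) [Fact p.Prime] (κ : Type) [Field κ] [Algebra (ZMod p) κ] (u : κˣ)
    (hu : ∀ n : ℕ, 0 < n → u ^ n ≠ 1) : Transcendental (ZMod p) (u : κ) := by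
  intro halg
  have hint : IsIntegral (ZMod p) (u : κ) := halg.isIntegral
  have hfd : FiniteDimensional (ZMod p) (IntermediateField.adjoin (ZMod p) {(u : κ)}) :=
    IntermediateField.adjoin.finiteDimensional hint
  have hfin : Finite (IntermediateField.adjoin (ZMod p) {(u : κ)}) :=
    Module.finite_of_finite (ZMod p)
  have hmem : (u : κ) ∈ IntermediateField.adjoin (ZMod p) {(u : κ)} :=
    IntermediateField.mem_adjoin_simple_self _ _
  let u' : IntermediateField.adjoin (ZMod p) {(u : κ)} := ⟨u, hmem⟩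
  have hu0 : u' ≠ 0 := by
    intro h
    exact u.ne_zero (congrArg Subtype.val h)
  have hof : IsOfFinOrder (Units.mk0 u' hu0) := isOfFinOrder_of_finite _
  obtain ⟨n, hn, h1⟩ := hof.exists_pow_eq_one
  apply hu n hn
  apply Units.ext
  have h2 := congrArg (fun z : (IntermediateField.adjoin (ZMod p) {(u : κ)})ˣ =>
    ((z : IntermediateField.adjoin (ZMod p) {(u : κ)}) : κ)) h1
  simpa using h2

open scoped IntermediateField.algebraAdjoinAdjoin in
theorem res_val (h7 : SpExtQ) : SpResVal := by
  intro p _ κ _ _ u hu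
  let _ : Algebra (ZMod p) κ := ZMod.algebra κ p
  have htr : Transcendental (ZMod p) (u : κ) := f08_transc p κ u hu
  have hind : AlgebraicIndepOn (ZMod p) id ({(u : κ)} : Set κ) := by
    have := (algebraicIndependent_singleton_iff (R := ZMod p)
      (x := fun i : ({(u : κ)} : Set κ) => id (i : κ)) ⟨(u : κ), rfl⟩).2 htr
    exact this
  obtain ⟨t, hut, ht⟩ := exists_isTranscendenceBasis_superset hind
  have hu_t : (u : κ) ∈ t := hut rfl
  let x : t → κ := (↑)
  let A := Algebra.adjoin (ZMod p) (Set.range x)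
  let M := IntermediateField.adjoin (ZMod p) (Set.range x)
  have halg : Algebra.IsAlgebraic M κ := ht.isAlgebraic_field
  let e : MvPolynomial t (ZMod p) ≃ₐ[ZMod p] A := ht.1.aevalEquiv
  have : UniqueFactorizationMonoid A :=
    MulEquiv.uniqueFactorizationMonoid e.toMulEquiv inferInstance
  let f : A := e (MvPolynomial.X ⟨(u : κ), hu_t⟩)
  have hf : Prime f := by
    have := (MulEquiv.prime_iff e).2
      (MvPolynomial.X_prime (R := ZMod p) (i := (⟨(u : κ), hu_t⟩ : t)))
    exact this
  have hfu : (f : κ) = u := by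
    have h1 := ht.1.algebraMap_aevalEquiv (MvPolynomial.X ⟨(u : κ), hu_t⟩)
    rw [MvPolynomial.aeval_X] at h1
    exact h1
  obtain ⟨D, hD, hDf⟩ := f08_disc (A := A) (M := M) f hf
  obtain ⟨V, v, hV, hmul, hmem, hv⟩ := h7 M κ D hD
  refine ⟨v, hmul, ?_, ?_⟩
  · -- ultrametric inequality
    have key : ∀ a b c : κˣ, (a : κ) + b = c → v a ≤ v b → v a ≤ v c := by
      intro a b c habc hab
      have h1 : v (b * a⁻¹) = v b - v a := by
        have h2 := hmul (b * a⁻¹) a
        rw [inv_mul_cancel_right] at h2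
        linarith
      have h3 : ((b * a⁻¹ : κˣ) : κ) ∈ V := by
        rw [hmem, h1]; linarith
      have h4 : ((c * a⁻¹ : κˣ) : κ) ∈ V := by
        have h5 : ((c * a⁻¹ : κˣ) : κ) = 1 + ((b * a⁻¹ : κˣ) : κ) := by
          rw [Units.val_mul, Units.val_mul, ← habc, add_mul, Units.mul_inv]
        rw [h5]
        exact V.add_mem _ _ V.one_mem h3
      rw [hmem] at h4
      have h6 : v (c * a⁻¹) = v c - v a := by
        have h2 := hmul (c * a⁻¹) a
        rw [inv_mul_cancel_right] at h2
        linarith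
      rw [h6] at h4
      linarith
    intro a b c habc
    rcases le_total (v a) (v b) with h | h
    · left; exact key a b c habc h
    · right; exact key b a c (by rw [add_comm]; exact habc) h
  · have hfM : algebraMap A M f ≠ 0 := hDf.1
    have h1 := hv (Units.mk0 (algebraMap A M f) hfM)
    have h2 : Units.map (algebraMap M κ : M →* κ) (Units.mk0 (algebraMap A M f) hfM) = u := by
      apply Units.ext
      exact hfu
    rw [h2] at h1
    rw [h1, Units.val_mk0, (isUnifV_iff hD hfM).1 hDf]
    norm_num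

end Pool.Agent.H19.UT
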