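import Pool.Agent.H19.UT.SpB

/-!
Project UT, row B04a: the local rings at the closed points of the line over a discrete valuation
ring.
-/

set_option autoImplicit false
set_option maxHeartbeats 400000

open Polynomial Pool.Agent.K1

namespace Pool.Agent.H19.UT

section B04a

variable {K L : Type} [Field K] [Field L] [Algebra K L]

/-- Evaluation at a transcendental element is injective. -/
theorem b04a_evR_inj {R : Subring K} {τ : L} (hτ : Transcendental K τ) :
    Function.Injective (evR R τ) := by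
  intro P Q h
  have h1 : ∀ P : R[X], evR R τ P = aeval τ (P.map R.subtype) := by
    intro P
    rw [evR, coe_eval₂RingHom, aeval_def, eval₂_map]
  rw [h1, h1] at h
  have h2 := (transcendental_iff_injective.1 hτ) h
  exact map_injective _ (Subtype.val_injective) h2

/-- The localization at a prime, inside of a field. -/
theorem b04a_loc {S L : Type} [CommRing S] [Field L] {g : S →+* L}
    (hinj : Function.Injective g) (p : Ideal S) [hp : p.IsPrime] :
    ∃ A : Subring L, (∀ z : L, z ∈ A ↔ ∃ P Q : S, Q ∉ p ∧ z * g Q = g P) ∧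
      Nonempty (Localization.AtPrime p ≃+* A) := by
  have hne : ∀ Q : S, Q ∉ p → g Q ≠ 0 := by
    intro Q hQ h0
    apply hQ
    have : Q = 0 := hinj (by rw [h0, map_zero])
    rw [this]
    exact p.zero_mem
  have hu : ∀ y : p.primeCompl, IsUnit (g y) := fun y => (hne y.1 y.2).isUnit
  let φ : Localization.AtPrime p →+* L := IsLocalization.lift (M := p.primeCompl) hu
  have hφ : ∀ (P : S) (Q : p.primeCompl),
      φ (IsLocalization.mk' (Localization.AtPrime p) P Q) * g Q = g P := by
    intro P Q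
    have h := IsLocalization.lift_mk'_spec (S := Localization.AtPrime p) (g := g) (hg := hu)
      (x := P) (v := φ (IsLocalization.mk' (Localization.AtPrime p) P Q)) (y := Q)
    rw [mul_comm]
    exact (h.1 rfl).symm
  have hφi : Function.Injective φ := by
    rw [injective_iff_map_eq_zero]
    intro a ha
    obtain ⟨P, Q, rfl⟩ := IsLocalization.exists_mk'_eq p.primeCompl a
    have h1 := hφ P Q
    rw [ha, zero_mul] at h1
    have h2 : P = 0 := hinj (by rw [← h1, map_zero])
    rw [h2, IsLocalization.mk'_zero]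
  refine ⟨φ.range, ?_, ⟨RingEquiv.ofBijective φ.rangeRestrict
    ⟨fun a b hab => hφi (congrArg Subtype.val hab), φ.rangeRestrict_surjective⟩⟩⟩
  intro z
  constructor
  · rintro ⟨a, rfl⟩
    obtain ⟨P, Q, rfl⟩ := IsLocalization.exists_mk'_eq p.primeCompl a
    exact ⟨P, Q, Q.2, hφ P Q⟩
  · rintro ⟨P, Q, hQ, h⟩
    refine ⟨IsLocalization.mk' (Localization.AtPrime p) P (⟨Q, hQ⟩ : p.primeCompl), ?_⟩
    have h1 := hφ P (⟨Q, hQ⟩ : p.primeCompl)
    exact mul_right_cancel₀ (hne Q hQ) (h1.trans h.symm)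

/-- Regularity and dimension. -/
theorem b04a_reg {R : Type} [CommRing R] [IsDomain R] [IsDiscreteValuationRing R] (p : Ideal R[X])
    [hp : p.IsMaximal] (hc : p.comap C = IsLocalRing.maximalIdeal R) :
    IsRegularLocalRing (Localization.AtPrime p) ∧ ringKrullDim (Localization.AtPrime p) = 2 := by
  refine ⟨isRegularLocalRing_localization_atPrime_of_comap_eq_maximalIdeal R p hc, ?_⟩
  rw [IsLocalization.AtPrime.ringKrullDim_eq_height p (Localization.AtPrime p)]
  have : p.LiesOver (IsLocalRing.maximalIdeal R) := ⟨by rw [Ideal.under_def, algebraMap_eq, hc]⟩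
  rw [Polynomial.height_eq_height_add_one (IsLocalRing.maximalIdeal R) p, WithBot.coe_add,
    IsLocalRing.maximalIdeal_height_eq_ringKrullDim,
    IsDiscreteValuationRing.ringKrullDim_eq_one]
  norm_num

/-- Common denominators. -/
theorem b04a_den (s : ValuationSubring K) (P : K[X]) :
    ∃ (c : s.toSubring) (P' : (s.toSubring)[X]), (c : K) ≠ 0 ∧
      P'.map s.toSubring.subtype = C (c : K) * P := by
  classical
  have h1 : ∀ x : K, ∃ c : K, c ∈ s ∧ c ≠ 0 ∧ c * x ∈ s := by
    intro x
    rcases s.mem_or_inv_mem x with hx | hx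
    · exact ⟨1, s.one_mem, one_ne_zero, by rwa [one_mul]⟩
    · by_cases h0 : x = 0
      · exact ⟨1, s.one_mem, one_ne_zero, by rw [h0, mul_zero]; exact s.zero_mem⟩
      · exact ⟨x⁻¹, hx, inv_ne_zero h0, by rw [inv_mul_cancel₀ h0]; exact s.one_mem⟩
  choose c hc hc0 hcx using h1
  let d : K := ∏ i ∈ P.support, c (P.coeff i)
  have hd : d ∈ s := prod_mem (fun i _ => hc _)
  have hd0 : d ≠ 0 := Finset.prod_ne_zero_iff.mpr (fun i _ => hc0 _)
  have hdx : ∀ n, d * P.coeff n ∈ s := by
    intro n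
    by_cases hn : n ∈ P.support
    · have h2 : d * P.coeff n = (∏ i ∈ P.support.erase n, c (P.coeff i)) *
          (c (P.coeff n) * P.coeff n) := by
        rw [← mul_assoc, Finset.prod_erase_mul _ _ hn]
      rw [h2]
      exact s.mul_mem _ _ (prod_mem (fun i _ => hc _)) (hcx _)
    · rw [notMem_support_iff.mp hn, mul_zero]
      exact s.zero_mem
  have hco : (↑(C d * P).coeffs : Set K) ⊆ s.toSubring := by
    intro x hx
    obtain ⟨n, -, rfl⟩ := mem_coeffs_iff.mp (Finset.mem_coe.mp hx)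
    rw [coeff_C_mul]
    exact hdx n
  exact ⟨⟨d, hd⟩, (C d * P).toSubring s.toSubring hco, hd0, map_toSubring _ _ hco⟩

theorem b04a_ev_C (R : Subring K) (τ : L) (c : R) (P : R[X]) :
    evR R τ (C c * P) = algebraMap K L c * evR R τ P := by
  rw [map_mul, evR, coe_eval₂RingHom, eval₂_C]
  rfl

theorem b04a_ev (R : Subring K) (τ : L) (P : R[X]) :
    evR R τ P = aeval τ (P.map R.subtype) := by
  rw [evR, coe_eval₂RingHom, aeval_def, eval₂_map]

/-- Fractions of polynomials over `s`. -/
theorem b04a_frac (s : ValuationSubring K) {τ : L} (hτ : Coord K L τ) (f : L) :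
    ∃ P Q : (s.toSubring)[X], evR s.toSubring τ Q ≠ 0 ∧
      f * evR s.toSubring τ Q = evR s.toSubring τ P := by
  obtain ⟨P, Q, hQ, h⟩ := hτ.2 f
  obtain ⟨c, P', hc, hP'⟩ := b04a_den s P
  obtain ⟨d, Q', hd, hQ'⟩ := b04a_den s Q
  have h1 : evR s.toSubring τ P' = algebraMap K L c * aeval τ P := by
    rw [b04a_ev, hP', map_mul, aeval_C]
  have h2 : evR s.toSubring τ Q' = algebraMap K L d * aeval τ Q := by
    rw [b04a_ev, hQ', map_mul, aeval_C]
  have hc' : algebraMap K L (c : K) ≠ 0 := (_root_.map_ne_zero _).mpr hc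
  have hd' : algebraMap K L (d : K) ≠ 0 := (_root_.map_ne_zero _).mpr hd
  refine ⟨C d * P', C c * Q', ?_, ?_⟩
  · rw [b04a_ev_C, h2]
    exact mul_ne_zero hc' (mul_ne_zero hd' hQ)
  · rw [b04a_ev_C, b04a_ev_C, h1, h2]
    linear_combination (algebraMap K L (c : K)) * (algebraMap K L (d : K)) * h

end B04a

/-- Row B04a. -/
theorem sp_ringP : SpRingP := by
  intro k K L _ _ _ _ _ _ _ τ hτ s hs hk ρ hρm hρ
  have hdvr : IsDiscreteValuationRing s := isDiscV_iff.mp hs
  let R : Subring K := s.toSubring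
  have hdom : IsDomain R := inferInstance
  have hdvr' : IsDiscreteValuationRing R := hdvr
  -- the prime ideal
  let I : Ideal (IsLocalRing.ResidueField s)[X] := Ideal.span {ρ}
  have hI : I.IsMaximal := PrincipalIdealRing.isMaximal_of_irreducible hρ
  have hsurj : Function.Surjective (redP s) :=
    map_surjective _ (IsLocalRing.residue_surjective)
  let p : Ideal R[X] := I.comap (redP s)
  have hp : p.IsMaximal := Ideal.comap_isMaximal_of_surjective _ hsurj
  have hmem : ∀ Q : R[X], Q ∉ p ↔ ¬ ρ ∣ redP s Q := by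
    intro Q
    rw [Ideal.mem_comap, Ideal.mem_span_singleton]
  have hcomap : p.comap C = IsLocalRing.maximalIdeal R := by
    ext c
    rw [Ideal.mem_comap, Ideal.mem_comap, Ideal.mem_span_singleton]
    have h1 : redP s (C c) = C (IsLocalRing.residue s c) := by
      rw [redP, coe_mapRingHom, map_C]
    rw [h1]
    have h2 : c ∈ IsLocalRing.maximalIdeal R ↔ IsLocalRing.residue s c = 0 :=
      (IsLocalRing.residue_eq_zero_iff (R := s) c).symm
    rw [h2]
    constructor
    · intro h
      by_contra h0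
      exact hρ.not_isUnit (isUnit_of_dvd_unit h (isUnit_C.mpr (Ne.isUnit h0)))
    · intro h
      rw [h, C_0]
      exact dvd_zero _
  obtain ⟨A, hA, ⟨e⟩⟩ := b04a_loc (b04a_evR_inj (R := R) hτ.1) p
  have hAeq : ringP s τ ρ = A := by
    have h1 : {z : L | ∃ P Q : (s.toSubring)[X], ¬ ρ ∣ redP s Q ∧
        z * evR s.toSubring τ Q = evR s.toSubring τ P} = (A : Set L) := by
      ext z
      rw [SetLike.mem_coe, hA]
      constructor
      · rintro ⟨P, Q, hQ, h⟩
        exact ⟨P, Q, (hmem Q).mpr hQ, h⟩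
      · rintro ⟨P, Q, hQ, h⟩
        exact ⟨P, Q, (hmem Q).mp hQ, h⟩
    rw [ringP, h1, Subring.closure_eq]
  have hspec : ∀ z : L, z ∈ ringP s τ ρ ↔ ∃ P Q : (s.toSubring)[X], ¬ ρ ∣ redP s Q ∧
      z * evR s.toSubring τ Q = evR s.toSubring τ P := by
    intro z
    rw [hAeq, hA]
    constructor
    · rintro ⟨P, Q, hQ, h⟩
      exact ⟨P, Q, (hmem Q).mp hQ, h⟩
    · rintro ⟨P, Q, hQ, h⟩
      exact ⟨P, Q, (hmem Q).mpr hQ, h⟩
  have h1n : ¬ ρ ∣ redP s (1 : (s.toSubring)[X]) := by
    rw [map_one]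
    intro h
    exact hρ.not_isUnit (isUnit_of_dvd_one h)
  have hev : ∀ P : (s.toSubring)[X], evR s.toSubring τ P ∈ ringP s τ ρ := by
    intro P
    rw [hspec]
    exact ⟨P, 1, h1n, by rw [map_one, mul_one]⟩
  obtain ⟨hreg, hdim⟩ := b04a_reg p hcomap
  refine ⟨hspec, ?_, ?_, ?_, ?_⟩
  · intro c
    have h2 := hev (C ⟨algebraMap k K c, hk c⟩)
    rw [b04a_ev, map_C, aeval_C] at h2
    rw [IsScalarTower.algebraMap_apply k K L]
    exact h2
  · intro f
    obtain ⟨P, Q, hQ, h⟩ := b04a_frac s hτ f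
    exact ⟨⟨_, hev P⟩, ⟨_, hev Q⟩, hQ, h⟩
  · rw [hAeq]
    exact IsRegularLocalRing.of_ringEquiv e
  · rw [hAeq, ← ringKrullDim_eq_of_ringEquiv e]
    exact hdim

end Pool.Agent.H19.UT
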