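import Pool.Agent.H19.UT.SpB

/-!
Project UT, row B04b (helper34): the curves on the local rings of the line over a discrete
valuation ring.
-/

set_option autoImplicit false
set_option maxHeartbeats 400000

open Polynomial Pool.Agent.K1

namespace Pool.Agent.H19.UT

section b04b_len

/-- The value of the length function, abstract form. -/
theorem b04b_len {B R' κ : Type} [CommRing B] [CommRing R'] [Field κ] (ι : B →+* R')
    (θ : B →+* κ[X]) (hθ : Function.Surjective θ) (π : κ[X]) (hirr : Irreducible π)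
    (x' : R') (hxp : Prime x')
    (hker : ∀ b : B, θ b = 0 → ∃ e : B, ι b = x' * ι e)
    (hrep : ∀ r : R', ∃ a b : B, ¬ π ∣ θ b ∧ r * ι b = ι a)
    (hunit : ∀ b : B, ¬ π ∣ θ b → IsUnit (ι b))
    (hxd : ∀ b : B, x' ∣ ι b → θ b = 0)
    (c : B) (hc : θ c ≠ 0) :
    len x' (ι c) = (multiplicity π (θ c) : ℕ∞) := by
  have hpr : Prime π := hirr.prime
  obtain ⟨p, hp⟩ := hθ π
  have hlen1 : len x' (ι p) = 1 := by
    unfold len
    rw [Module.length_eq_one_iff]
    apply isSimpleModule_iff_isCoatom.2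
    rw [← Ideal.isMaximal_def]
    have hne : (Ideal.span {x', ι p} : Ideal R') ≠ ⊤ := by
      intro htop
      have h1 : (1 : R') ∈ Ideal.span {x', ι p} := by rw [htop]; trivial
      rw [Ideal.mem_span_pair] at h1
      obtain ⟨r, s, hrs⟩ := h1
      obtain ⟨a1, b1, hb1, hr⟩ := hrep r
      obtain ⟨a2, b2, hb2, hs⟩ := hrep s
      have h3 : ι (b1 * b2 - a2 * b1 * p) = x' * ι (a1 * b2) := by
        rw [map_sub, map_mul, map_mul, map_mul, map_mul, ← hr, ← hs]
        linear_combination (-(ι b1 * ι b2)) * hrs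
      have h4 : θ (b1 * b2 - a2 * b1 * p) = 0 := hxd _ ⟨_, h3⟩
      rw [map_sub, map_mul, map_mul, map_mul, hp, sub_eq_zero] at h4
      have h5 : π ∣ θ b1 * θ b2 := by
        rw [h4]; exact dvd_mul_left _ _
      rcases hpr.dvd_or_dvd h5 with h | h
      · exact hb1 h
      · exact hb2 h
    refine ⟨⟨hne, ?_⟩⟩
    intro J hJ
    obtain ⟨r, hrJ, hrI⟩ := SetLike.exists_of_lt hJ
    obtain ⟨a1, b1, hb1, hr'⟩ := hrep r
    have hub : IsUnit (ι b1) := hunit b1 hb1
    by_cases ha : π ∣ θ a1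
    · exfalso
      apply hrI
      obtain ⟨w, hw⟩ := ha
      obtain ⟨W, hW⟩ := hθ w
      have h6 : θ (a1 - p * W) = 0 := by
        rw [map_sub, map_mul, hp, hW, hw, sub_self]
      obtain ⟨e, he⟩ := hker _ h6
      have h7 : ι a1 = x' * ι e + ι p * ι W := by
        rw [← he, map_sub, map_mul]; ring
      have h8 : ι a1 ∈ Ideal.span {x', ι p} := by
        rw [h7]
        exact Ideal.add_mem _ (Ideal.mul_mem_right _ _ (Ideal.subset_span (by simp)))
          (Ideal.mul_mem_right _ _ (Ideal.subset_span (by simp)))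
      rw [← hr'] at h8
      exact (Ideal.mul_unit_mem_iff_mem _ hub).1 h8
    · have h9 : ι a1 ∈ J := hr' ▸ Ideal.mul_mem_right _ _ hrJ
      exact Ideal.eq_top_of_isUnit_mem _ h9 (hunit a1 ha)
  have hreg : ∀ b : B, θ b ≠ 0 → Reg x' (ι b) := by
    intro b hb z hz
    rcases hxp.dvd_or_dvd hz with h | h
    · exact absurd (hxd b h) hb
    · exact h
  have hπ0 : θ p ≠ 0 := by rw [hp]; exact hirr.ne_zero
  have hpow : ∀ (n : ℕ) (W : B), ¬ π ∣ θ W → len x' (ι (p ^ n * W)) = (n : ℕ∞) := by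
    intro n W hW
    induction n with
    | zero =>
      rw [pow_zero, one_mul]
      simpa using len_unit x' (hunit W hW)
    | succ n ih =>
      have h1 : ι (p ^ (n + 1) * W) = ι p * ι (p ^ n * W) := by
        rw [← map_mul]; congr 1; ring
      rw [h1, len_mul (hreg p hπ0), ih, hlen1]
      push_cast
      rw [add_comm]
  have hfin : FiniteMultiplicity π (θ c) := FiniteMultiplicity.of_not_isUnit hirr.not_isUnit hc
  obtain ⟨w, hw, hnd⟩ := hfin.exists_eq_pow_mul_and_not_dvd
  obtain ⟨W, hW⟩ := hθ w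
  have h1 : θ (c - p ^ multiplicity π (θ c) * W) = 0 := by
    rw [map_sub, map_mul, map_pow, hp, hW, ← hw, sub_self]
  obtain ⟨e, he⟩ := hker _ h1
  have h2 : ι c = ι (p ^ multiplicity π (θ c) * W) + ι e * x' := by
    rw [map_sub] at he
    linear_combination he
  rw [h2, len_add, hpow _ W (by rw [hW]; exact hnd)]

end b04b_len

section b04b

variable {K L : Type} [Field K] [Field L] [Algebra K L]

theorem b04b_ev_C (R : Subring K) (τ : L) (a : R) : evR R τ (C a) = algebraMap K L (a : K) := by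
  simp [evR]

theorem b04b_ev_X (R : Subring K) (τ : L) : evR R τ X = τ := by
  simp [evR]

/-- A polynomial with vanishing reduction is a multiple of the uniformizer. -/
theorem b04b_red_zero {s : ValuationSubring K} {ϖ : K} (hϖ : IsUnifV s ϖ) (hϖs : ϖ ∈ s)
    (P : (s.toSubring)[X]) (h : redP s P = 0) :
    ∃ P1 : (s.toSubring)[X], P = C (⟨ϖ, hϖs⟩ : s.toSubring) * P1 := by
  have h1 : C (⟨ϖ, hϖs⟩ : s.toSubring) ∣ P := by
    rw [C_dvd_iff_dvd_coeff]
    intro n
    have h2 : IsLocalRing.residue s (P.coeff n) = 0 := by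
      have h3 : (redP s P).coeff n = IsLocalRing.residue s (P.coeff n) := by
        unfold redP
        rw [coe_mapRingHom, coeff_map]
      rw [← h3, h, coeff_zero]
    have h4 : ((P.coeff n : s.toSubring) : K) ∈ s.nonunits := by
      rw [IsLocalRing.residue_eq_zero_iff (R := s)] at h2
      have h5 : ¬ IsUnit (P.coeff n : s) := (IsLocalRing.mem_maximalIdeal (R := s) _).1 h2
      rw [tord_nonunits_iff]
      by_cases h6 : ((P.coeff n : s.toSubring) : K) = 0
      · exact Or.inl h6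
      · refine Or.inr ⟨(P.coeff n).2, fun h7 => h5 ?_⟩
        exact tord_isUnit_iff.2 ⟨h6, h7⟩
    obtain ⟨c, hc, h7⟩ := (hϖ.2 _).1 h4
    exact ⟨⟨c, hc⟩, Subtype.ext h7⟩
  obtain ⟨P1, hP1⟩ := h1
  exact ⟨P1, hP1⟩

end b04b

theorem sp_ringPD (h1 : SpOnFacts) (h2 : SpOD) (h3 : SpGauss) (h4 : SpRingP) : SpRingPD := by
  intro k K L _ _ _ _ _ _ _ τ hτ s hs hk ρ hρm hρ
  obtain ⟨hR, hReg⟩ := h4 k K L τ hτ s hs hk ρ hρm hρ
  set R := ringP s τ ρ with hRdef
  have := hReg.reg
  obtain ⟨hEx, -, hGs⟩ := h3 K L τ hτ s hs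
  obtain ⟨ϖ, hϖ, hdec⟩ := id hs
  have hϖs : ϖ ∈ s := (tord_unif_mem hϖ).1
  have hρ1 : ¬ ρ ∣ redP s (1 : (s.toSubring)[X]) := by
    rw [map_one]
    exact fun h => hρ.not_isUnit (isUnit_of_dvd_one h)
  have hev : ∀ P : (s.toSubring)[X], evR s.toSubring τ P ∈ R := by
    intro P
    rw [hR]
    exact ⟨P, 1, hρ1, by rw [map_one, mul_one]⟩
  -- the inclusion
  let ι : (s.toSubring)[X] →+* R :=
    { toFun := fun P => ⟨evR s.toSubring τ P, hev P⟩
      map_one' := Subtype.ext (map_one _)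
      map_mul' := fun a b => Subtype.ext (map_mul _ a b)
      map_zero' := Subtype.ext (map_zero _)
      map_add' := fun a b => Subtype.ext (map_add _ a b) }
  have hι : ∀ P, ((ι P : R) : L) = evR s.toSubring τ P := fun _ => rfl
  have hcR : ∀ c : K, c ∈ s → algebraMap K L c ∈ R := by
    intro c hc
    have h5 := hev (C (⟨c, hc⟩ : s.toSubring))
    rwa [b04b_ev_C] at h5
  set x' : R := ⟨algebraMap K L ϖ, hcR _ hϖs⟩ with hx'
  have hιϖ : ι (C (⟨ϖ, hϖs⟩ : s.toSubring)) = x' := Subtype.ext (b04b_ev_C _ _ _)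
  have hsurj : Function.Surjective (redP s) :=
    map_surjective _ (IsLocalRing.residue_surjective (R := s))
  -- the Gauss valuation ring is on `R`
  have key : ∀ E : ValuationSubring L, IsGauss s τ E → OnR R x' E ∧
      (∀ P : (s.toSubring)[X], redP s P ≠ 0 →
        len x' (ι P) = (multiplicity ρ (redP s P) : ℕ∞) ∧ ¬ x' ∣ ι P) := by
    intro E hE
    obtain ⟨hEd, hEc, hEo, hEm, hEn, -, -⟩ := hGs E hE
    have hevE : ∀ P : (s.toSubring)[X], evR s.toSubring τ P ∈ E := by
      intro P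
      rw [hEm]
      refine ⟨P, 1, ?_, by rw [map_one, mul_one]⟩
      rw [map_one]
      exact one_ne_zero
    have hev0 : ∀ Q : (s.toSubring)[X], redP s Q ≠ 0 → evR s.toSubring τ Q ≠ 0 ∧
        (evR s.toSubring τ Q)⁻¹ ∈ E := by
      intro Q hQ
      have h5 : evR s.toSubring τ Q ∉ E.nonunits := fun h => hQ ((hEn Q).1 h)
      rw [tord_nonunits_iff] at h5
      push Not at h5
      exact ⟨h5.1, h5.2 (hevE Q)⟩
    have hRE : ∀ z ∈ R, z ∈ E := by
      intro z hz
      obtain ⟨P, Q, hQ, h5⟩ := (hR z).1 hz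
      rw [hEm]
      exact ⟨P, Q, fun h => hQ (h ▸ dvd_zero _), h5⟩
    have hxn : (x' : L) ∈ E.nonunits := by
      rw [← hιϖ, hι, hEn]
      have h5 : IsLocalRing.residue s (⟨ϖ, hϖs⟩ : s) = 0 := by
        rw [IsLocalRing.residue_eq_zero_iff (R := s), IsLocalRing.mem_maximalIdeal (R := s),
          mem_nonunits_iff]
        intro h6
        exact (tord_unif_mem hϖ).2 (tord_isUnit_iff.1 h6).2
      unfold redP
      rw [coe_mapRingHom, map_C]
      have h6 : (IsLocalRing.residue s) (⟨ϖ, hϖs⟩ : s.toSubring) = 0 := h5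
      rw [h6, C_0]
    have hdvd : ∀ r : R, x' ∣ r ↔ (r : L) ∈ E.nonunits := by
      intro r
      constructor
      · rintro ⟨c, rfl⟩
        change (x' : L) * (c : L) ∈ E.nonunits
        rw [mul_comm]
        exact nonunits_mul (hRE _ c.2) hxn
      · intro h5
        obtain ⟨P, Q, hQ, h6⟩ := (hR r).1 r.2
        have hQ0 : redP s Q ≠ 0 := fun h => hQ (h ▸ dvd_zero _)
        obtain ⟨hq0, hqE⟩ := hev0 Q hQ0
        have h7 : evR s.toSubring τ P ∈ E.nonunits := by
          rw [← h6, mul_comm]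
          exact nonunits_mul (hevE Q) h5
        rw [hEn] at h7
        obtain ⟨P1, hP1⟩ := b04b_red_zero hϖ hϖs P h7
        have h8 : evR s.toSubring τ P1 * (evR s.toSubring τ Q)⁻¹ ∈ R := by
          rw [hR]
          refine ⟨P1, Q, hQ, ?_⟩
          rw [mul_assoc, inv_mul_cancel₀ hq0, mul_one]
        refine ⟨⟨_, h8⟩, Subtype.ext ?_⟩
        change (r : L) = algebraMap K L ϖ * (evR s.toSubring τ P1 * (evR s.toSubring τ Q)⁻¹)
        rw [← mul_assoc, eq_mul_inv_iff_mul_eq₀ hq0, h6, hP1, map_mul, b04b_ev_C]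
    have hprime : Prime x' := by
      refine ⟨fun h5 => ?_, ?_, ?_⟩
      · have h6 : algebraMap K L ϖ = 0 := congrArg Subtype.val h5
        exact hϖ.1 ((map_eq_zero (algebraMap K L)).1 h6)
      · intro h5
        have h6 := (hdvd 1).1 (h5.dvd)
        have h7 := (E.mem_nonunits_iff).1 h6
        have h8 : ((1 : R) : L) = 1 := rfl
        rw [h8, map_one] at h7
        exact lt_irrefl _ h7
      · intro a b hab
        rw [hdvd, hdvd]
        rw [hdvd] at hab
        by_contra h5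
        push Not at h5
        obtain ⟨h6, h7⟩ := h5
        rw [E.mem_nonunits_iff] at h6 h7 hab
        have h8 : ((a * b : R) : L) = a * b := rfl
        rw [h8, map_mul] at hab
        have h9 : E.valuation (a : L) = 1 :=
          le_antisymm ((E.valuation_le_one_iff _).2 (hRE _ a.2)) (not_lt.1 h6)
        have h10 : E.valuation (b : L) = 1 :=
          le_antisymm ((E.valuation_le_one_iff _).2 (hRE _ b.2)) (not_lt.1 h7)
        rw [h9, h10, one_mul] at hab
        exact lt_irrefl _ hab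
    have hxd : ∀ P : (s.toSubring)[X], x' ∣ ι P → redP s P = 0 := by
      intro P hP
      rw [hdvd, hι, hEn] at hP
      exact hP
    have hunit : ∀ Q : (s.toSubring)[X], ¬ ρ ∣ redP s Q → IsUnit (ι Q) := by
      intro Q hQ
      have hQ0 : redP s Q ≠ 0 := fun h => hQ (h ▸ dvd_zero _)
      obtain ⟨hq0, -⟩ := hev0 Q hQ0
      have h5 : (evR s.toSubring τ Q)⁻¹ ∈ R := by
        rw [hR]
        exact ⟨1, Q, hQ, by rw [map_one, inv_mul_cancel₀ hq0]⟩
      refine IsUnit.of_mul_eq_one (⟨(evR s.toSubring τ Q)⁻¹, h5⟩ : R) ?_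
      apply Subtype.ext
      change evR s.toSubring τ Q * (evR s.toSubring τ Q)⁻¹ = 1
      exact mul_inv_cancel₀ hq0
    refine ⟨⟨hprime, fun z => ?_⟩, fun P hP => ⟨?_, fun h => hP (hxd P h)⟩⟩
    · constructor
      · intro hz
        obtain ⟨P, Q, hQ, h5⟩ := (hEm z).1 hz
        exact ⟨ι P, ι Q, fun h => hQ (hxd Q h), h5⟩
      · rintro ⟨a, b, hb, h5⟩
        rw [hdvd] at hb
        rw [tord_nonunits_iff] at hb
        push Not at hb
        have h6 := hb.2 (hRE _ b.2)
        have h7 : z = (a : L) * (b : L)⁻¹ := by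
          rw [eq_mul_inv_iff_mul_eq₀ hb.1, h5]
        rw [h7]
        exact E.mul_mem _ _ (hRE _ a.2) h6
    · refine b04b_len ι (redP s) hsurj ρ hρ x' hprime ?_ ?_ hunit hxd P hP
      · intro b hb
        obtain ⟨P1, hP1⟩ := b04b_red_zero hϖ hϖs b hb
        exact ⟨P1, by rw [← hιϖ, ← map_mul, ← hP1]⟩
      · intro r
        obtain ⟨P, Q, hQ, h6⟩ := (hR r).1 r.2
        exact ⟨P, Q, hQ, Subtype.ext h6⟩
  obtain ⟨-, -, -, honf, hass⟩ := h1 k L R hReg
  refine ⟨?_, ?_⟩
  · rintro D ⟨f, hf⟩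
    obtain ⟨hDd, hDu, hRD, hDn⟩ := honf f D hf
    by_cases hK : ∀ a : K, algebraMap K L a ∈ D
    · right
      refine ⟨hDd, hK, ?_⟩
      have h5 := hRD (ι X)
      rwa [hι, b04b_ev_X] at h5
    · left
      push Not at hK
      obtain ⟨a, ha⟩ := hK
      have hxn : (x' : L) ∈ D.nonunits := by
        by_contra h5
        rw [tord_nonunits_iff] at h5
        push Not at h5
        have h6 := h5.2 (hRD x')
        have ha0 : a ≠ 0 := by
          rintro rfl
          apply ha
          rw [map_zero]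
          exact D.zero_mem
        obtain ⟨n, u, hu, rfl⟩ := hdec a ha0
        apply ha
        rw [map_mul, map_zpow₀]
        have h7 : algebraMap K L (u : K) ∈ D := hRD ⟨_, hcR _ hu.1⟩
        refine D.mul_mem _ _ ?_ h7
        cases n with
        | ofNat m => rw [Int.ofNat_eq_natCast, zpow_natCast]; exact D.pow_mem (hRD x') m
        | negSucc m => rw [zpow_negSucc, ← inv_pow]; exact D.pow_mem h6 (m + 1)
      obtain ⟨E, hE⟩ := hEx
      obtain ⟨hon, -⟩ := key E hE
      have h5 : f ∣ x' := (hDn x').1 hxn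
      have h6 : Associated f x' := hf.1.associated_of_dvd hon.1 h5
      have h7 : D = E := (hass _ _ _ _ hf hon).2 h6
      rw [h7]
      exact hE
  · intro E hE
    obtain ⟨hon, hlen⟩ := key E hE
    refine ⟨⟨_, hon⟩, ?_⟩
    intro u P Q hP hQ hu
    obtain ⟨-, -, hod, -, -⟩ := h2 k L R hReg _ E hon
    apply hod
    refine ⟨ι P, ι Q, (hlen P hP).2, (hlen Q hQ).2, hu, ?_⟩
    rw [(hlen P hP).1, (hlen Q hQ).1]
    simp

end Pool.Agent.H19.UT
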