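import Pool.Agent.H19.UT.SpB

/-!
Project UT, row B04c: the section at zero of the line over a discrete valuation ring.
-/

set_option autoImplicit false
set_option maxHeartbeats 400000

open Polynomial Pool.Agent.K1

namespace Pool.Agent.H19.UT

section b04c

variable {K L : Type} [Field K] [Field L] [Algebra K L]

theorem b04c_ev_C (R : Subring K) (τ : L) (a : R) : evR R τ (C a) = algebraMap K L (a : K) := by
  simp [evR]

theorem b04c_ev_X (R : Subring K) (τ : L) : evR R τ X = τ := by
  simp [evR]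

theorem b04c_split (R : Subring K) (P : R[X]) : P = C (P.coeff 0) + X * P.divX := by
  have h := divX_mul_X_add P
  rw [mul_comm] at h
  rw [add_comm]
  exact h.symm

theorem b04c_ndvd (s : ValuationSubring K) (Q : (s.toSubring)[X]) :
    ¬ X ∣ redP s Q ↔ IsUnit (Q.coeff 0) := by
  rw [X_dvd_iff]
  have h1 : (redP s Q).coeff 0 = IsLocalRing.residue s (Q.coeff 0) := by
    unfold redP
    rw [coe_mapRingHom, coeff_map]
  rw [h1]
  exact IsLocalRing.residue_ne_zero_iff_isUnit _

theorem b04c_alg_unit {D : ValuationSubring L} (hK : ∀ a : K, algebraMap K L a ∈ D) {c : K}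
    (hc : c ≠ 0) : algebraMap K L c ∉ D.nonunits := by
  intro h
  rcases tord_nonunits_iff.1 h with h1 | ⟨_, h2⟩
  · exact hc ((map_eq_zero (algebraMap K L)).1 h1)
  · apply h2
    rw [← map_inv₀]
    exact hK _

theorem b04c_ev_mem {D : ValuationSubring L} (hK : ∀ a : K, algebraMap K L a ∈ D) {τ : L}
    (hτ : τ ∈ D) (R : Subring K) (P : R[X]) : evR R τ P ∈ D := by
  induction P using Polynomial.induction_on' with
  | add p q hp hq => rw [map_add]; exact D.add_mem _ _ hp hq
  | monomial n a =>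
    rw [← C_mul_X_pow_eq_monomial, map_mul, map_pow, b04c_ev_C, b04c_ev_X]
    exact D.mul_mem _ _ (hK _) (D.pow_mem hτ n)

theorem b04c_ev_nonunit {D : ValuationSubring L} (hK : ∀ a : K, algebraMap K L a ∈ D) {τ : L}
    (hτ : τ ∈ D.nonunits) (R : Subring K) (P : R[X]) :
    evR R τ P - algebraMap K L ((P.coeff 0 : R) : K) ∈ D.nonunits := by
  have hτ' : τ ∈ D := ValuationSubring.nonunits_subset hτ
  have h1 : evR R τ P - algebraMap K L ((P.coeff 0 : R) : K) = evR R τ P.divX * τ := by
    conv_lhs => rw [b04c_split R P]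
    rw [map_add, map_mul, b04c_ev_C, b04c_ev_X]
    simp only [coeff_add, coeff_C_zero, mul_coeff_zero, coeff_X_zero, zero_mul, add_zero]
    ring
  rw [h1]
  exact nonunits_mul (b04c_ev_mem hK hτ' R _) hτ

theorem b04c_ev_nonunit_iff {D : ValuationSubring L} (hK : ∀ a : K, algebraMap K L a ∈ D) {τ : L}
    (hτ : τ ∈ D.nonunits) (R : Subring K) (P : R[X]) :
    evR R τ P ∈ D.nonunits ↔ P.coeff 0 = 0 := by
  have h1 := b04c_ev_nonunit hK hτ R P
  constructor
  · intro h2
    by_contra h3
    have h4 : algebraMap K L ((P.coeff 0 : R) : K) ∈ D.nonunits := by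
      have h5 := D.nonunits.sub_mem h2 h1
      rwa [sub_sub_cancel] at h5
    refine b04c_alg_unit hK (fun h6 => h3 ?_) h4
    exact Subtype.ext h6
  · intro h2
    rw [h2] at h1
    simpa using h1

end b04c

theorem sp_ringPX (h1 : SpOnFacts) (h2 : SpOD) (h4 : SpRingP) : SpRingPX := by
  intro k K L _ _ _ _ _ _ _ τ hco s hs hk D hD huτ
  obtain ⟨hDd, hK, hτD⟩ := hD
  obtain ⟨hR, hReg⟩ := h4 k K L τ hco s hs hk X monic_X irreducible_X
  set R := ringP s τ X with hRdef
  have := hReg.reg
  have hτn : τ ∈ D.nonunits := tord_unif_nonunit huτ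
  -- the elements of `R`
  have hev : ∀ P : (s.toSubring)[X], evR s.toSubring τ P ∈ R := by
    intro P
    rw [hR]
    refine ⟨P, 1, ?_, by rw [map_one, mul_one]⟩
    rw [b04c_ndvd, coeff_one_zero]
    exact isUnit_one
  have hun : ∀ Q : (s.toSubring)[X], IsUnit (Q.coeff 0) → evR s.toSubring τ Q ≠ 0 ∧
      (evR s.toSubring τ Q)⁻¹ ∈ R ∧ evR s.toSubring τ Q ∉ D.nonunits := by
    intro Q hQ
    have h5 : evR s.toSubring τ Q ∉ D.nonunits := by
      rw [b04c_ev_nonunit_iff hK hτn]
      exact hQ.ne_zero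
    have h6 : evR s.toSubring τ Q ≠ 0 := by
      intro h
      apply h5
      rw [h]
      exact D.nonunits.zero_mem
    refine ⟨h6, ?_, h5⟩
    rw [hR]
    refine ⟨1, Q, (b04c_ndvd s Q).2 hQ, ?_⟩
    rw [map_one, inv_mul_cancel₀ h6]
  have hform : ∀ z ∈ R, ∃ P Q : (s.toSubring)[X], IsUnit (Q.coeff 0) ∧
      z = evR s.toSubring τ P * (evR s.toSubring τ Q)⁻¹ := by
    intro z hz
    obtain ⟨P, Q, hQ, h5⟩ := (hR z).1 hz
    have h6 := (b04c_ndvd s Q).1 hQ
    refine ⟨P, Q, h6, ?_⟩
    rw [← h5, mul_assoc, mul_inv_cancel₀ (hun Q h6).1, mul_one]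
  have hinvD : ∀ Q : (s.toSubring)[X], IsUnit (Q.coeff 0) →
      (evR s.toSubring τ Q)⁻¹ ∈ D := by
    intro Q hQ
    by_contra h5
    apply (hun Q hQ).2.2
    rw [tord_nonunits_iff]
    exact Or.inr ⟨b04c_ev_mem hK hτD _ Q, h5⟩
  have hRD : ∀ z ∈ R, z ∈ D := by
    intro z hz
    obtain ⟨P, Q, hQ, rfl⟩ := hform z hz
    exact D.mul_mem _ _ (b04c_ev_mem hK hτD _ P) (hinvD Q hQ)
  have hτR : τ ∈ R := by
    have h5 := hev X
    rwa [b04c_ev_X] at h5
  -- divisibility by `τ`
  have hdvd : ∀ r : R, (⟨τ, hτR⟩ : R) ∣ r ↔ (r : L) ∈ D.nonunits := by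
    intro r
    constructor
    · rintro ⟨c, rfl⟩
      change τ * (c : L) ∈ D.nonunits
      rw [mul_comm]
      exact nonunits_mul (hRD _ c.2) hτn
    · intro h5
      obtain ⟨P, Q, hQ, h6⟩ := hform r r.2
      have h7 : evR s.toSubring τ P ∈ D.nonunits := by
        have h8 : evR s.toSubring τ P = evR s.toSubring τ Q * (r : L) := by
          rw [h6, mul_comm, mul_assoc, inv_mul_cancel₀ (hun Q hQ).1, mul_one]
        rw [h8]
        exact nonunits_mul (b04c_ev_mem hK hτD _ Q) h5
      rw [b04c_ev_nonunit_iff hK hτn] at h7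
      have h9 : evR s.toSubring τ P = τ * evR s.toSubring τ P.divX := by
        conv_lhs => rw [b04c_split s.toSubring P]
        rw [h7, C_0, zero_add, map_mul, b04c_ev_X]
      refine ⟨⟨evR s.toSubring τ P.divX * (evR s.toSubring τ Q)⁻¹,
        R.mul_mem (hev _) (hun Q hQ).2.1⟩, Subtype.ext ?_⟩
      change (r : L) = τ * (evR s.toSubring τ P.divX * (evR s.toSubring τ Q)⁻¹)
      rw [h6, h9, mul_assoc]
  have hprime : Prime (⟨τ, hτR⟩ : R) := by
    refine ⟨fun h5 => huτ.1 (congrArg Subtype.val h5), ?_, ?_⟩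
    · intro h5
      have h6 := (hdvd 1).1 (h5.dvd)
      have h7 := (D.mem_nonunits_iff).1 h6
      have h8 : ((1 : R) : L) = 1 := rfl
      rw [h8, map_one] at h7
      exact lt_irrefl _ h7
    · intro a b hab
      rw [hdvd, hdvd]
      rw [hdvd] at hab
      by_contra h5
      push Not at h5
      obtain ⟨h6, h7⟩ := h5
      rw [D.mem_nonunits_iff] at h6 h7 hab
      have h8 : ((a * b : R) : L) = a * b := rfl
      rw [h8, map_mul] at hab
      have h9 : D.valuation (a : L) = 1 :=
        le_antisymm ((D.valuation_le_one_iff _).2 (hRD _ a.2)) (not_lt.1 h6)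
      have h10 : D.valuation (b : L) = 1 :=
        le_antisymm ((D.valuation_le_one_iff _).2 (hRD _ b.2)) (not_lt.1 h7)
      rw [h9, h10, one_mul] at hab
      exact lt_irrefl _ hab
  -- `D` is the localization
  obtain ⟨-, -, hex, hfacts, -⟩ := h1 k L R hReg
  obtain ⟨D', hD'⟩ := hex _ hprime
  have hDD : D' = D := by
    obtain ⟨-, hu', hRD', -⟩ := hfacts _ _ hD'
    have hle : ∀ x ∈ D', x ∈ D := by
      intro x hx
      obtain ⟨a, b, hb, h5⟩ := (hD'.2 x).1 hx
      rw [hdvd] at hb
      have hb0 : (b : L) ≠ 0 := by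
        intro h
        apply hb
        rw [h]
        exact D.nonunits.zero_mem
      have h6 : (b : L)⁻¹ ∈ D := by
        by_contra h7
        apply hb
        rw [tord_nonunits_iff]
        exact Or.inr ⟨hRD _ b.2, h7⟩
      have h8 : x = (a : L) * (b : L)⁻¹ := by
        rw [← h5, mul_assoc, mul_inv_cancel₀ hb0, mul_one]
      rw [h8]
      exact D.mul_mem _ _ (hRD _ a.2) h6
    ext x
    constructor
    · exact hle x
    · intro hx
      by_contra h5
      have hx0 : x ≠ 0 := by
        rintro rfl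
        exact h5 D'.zero_mem
      have h6 : x⁻¹ ∈ D' := (D'.mem_or_inv_mem x).resolve_left h5
      have h7 : x⁻¹ ∈ D'.nonunits := by
        rw [tord_nonunits_iff]
        refine Or.inr ⟨h6, ?_⟩
        rwa [inv_inv]
      obtain ⟨c, hc, h8⟩ := (hu'.2 _).1 h7
      have h9 : (1 : L) ∈ D.nonunits := by
        have h10 : (1 : L) = (x * c) * τ := by
          have h11 : x * x⁻¹ = 1 := mul_inv_cancel₀ hx0
          rw [← h11, h8]
          change x * (τ * c) = x * c * τ
          ring
        rw [h10]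
        exact nonunits_mul (D.mul_mem _ _ hx (hle c hc)) hτn
      have h7 := (D.mem_nonunits_iff).1 h9
      rw [map_one] at h7
      exact lt_irrefl _ h7
  subst hDD
  refine ⟨⟨_, hD'⟩, ?_⟩
  obtain ⟨-, -, hIs, hmul, -⟩ := h2 k L R hReg _ _ hD'
  -- constants are units
  have hunit : ∀ v : Kˣ, UnitIn D' (Units.map (algebraMap K L : K →* L) v) := by
    intro v
    refine ⟨hK _, ?_⟩
    have h5 : (((Units.map (algebraMap K L : K →* L) v)⁻¹ : Lˣ) : L) =
        algebraMap K L ((v⁻¹ : Kˣ) : K) := by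
      rw [← map_inv]
      rfl
    rw [h5]
    exact hK _
  -- constants of the ring
  have hsR : ∀ c : K, c ∈ s → algebraMap K L c ∈ R := by
    intro c hc
    have h5 := hev (C (⟨c, hc⟩ : s.toSubring))
    rwa [b04c_ev_C] at h5
  -- units of `s`
  have hoU : ∀ v : Kˣ, UnitIn s v →
      oD R D' (Units.map (algebraMap K L : K →* L) v) = 0 := by
    intro v hv
    apply hIs
    have hvu : IsUnit (⟨algebraMap K L (v : K), hsR _ hv.1⟩ : R) := by
      refine ⟨⟨⟨algebraMap K L (v : K), hsR _ hv.1⟩,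
        ⟨algebraMap K L ((v⁻¹ : Kˣ) : K), hsR _ hv.2⟩, Subtype.ext ?_, Subtype.ext ?_⟩, rfl⟩
      · change algebraMap K L (v : K) * algebraMap K L ((v⁻¹ : Kˣ) : K) = 1
        rw [← map_mul, Units.mul_inv, map_one]
      · change algebraMap K L ((v⁻¹ : Kˣ) : K) * algebraMap K L (v : K) = 1
        rw [← map_mul, Units.inv_mul, map_one]
    refine ⟨⟨algebraMap K L (v : K), hsR _ hv.1⟩, 1, ?_, ?_, ?_, ?_⟩
    · exact fun h => hprime.not_isUnit (isUnit_of_dvd_unit h hvu)
    · exact fun h => hprime.not_isUnit (isUnit_of_dvd_unit h isUnit_one)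
    · change algebraMap K L (v : K) * 1 = algebraMap K L (v : K)
      rw [mul_one]
    · rw [len_unit _ hvu, len_unit _ isUnit_one]
      simp
  -- the uniformizer
  obtain ⟨ϖ, hϖ, hdec⟩ := hs
  have hϖ0 := hϖ.1
  have hϖs : ϖ ∈ s := (tord_unif_mem hϖ).1
  have hmax : IsLocalRing.maximalIdeal R =
      Ideal.span {(⟨τ, hτR⟩ : R), ⟨algebraMap K L ϖ, hsR _ hϖs⟩} := by
    apply le_antisymm
    · intro z hz
      rw [IsLocalRing.mem_maximalIdeal, mem_nonunits_iff] at hz
      obtain ⟨P, Q, hQ, h6⟩ := hform z z.2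
      have hP : ¬ IsUnit (P.coeff 0) := by
        intro hP
        apply hz
        have h7 := hun P hP
        refine ⟨⟨z, ⟨evR s.toSubring τ Q * (evR s.toSubring τ P)⁻¹,
          R.mul_mem (hev _) h7.2.1⟩, Subtype.ext ?_, Subtype.ext ?_⟩, rfl⟩
        · change (z : L) * (evR s.toSubring τ Q * (evR s.toSubring τ P)⁻¹) = 1
          rw [h6]
          have h8 := (hun Q hQ).1
          have h9 := h7.1
          field_simp
        · change evR s.toSubring τ Q * (evR s.toSubring τ P)⁻¹ * (z : L) = 1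
          rw [h6]
          have h8 := (hun Q hQ).1
          have h9 := h7.1
          field_simp
      -- the constant coefficient is a multiple of the uniformizer
      have hP2 : ((P.coeff 0 : s.toSubring) : K) ∈ s.nonunits := by
        rw [tord_nonunits_iff]
        by_cases h7 : ((P.coeff 0 : s.toSubring) : K) = 0
        · exact Or.inl h7
        · refine Or.inr ⟨(P.coeff 0).2, fun h8 => hP ?_⟩
          refine ⟨⟨P.coeff 0, ⟨_, h8⟩, Subtype.ext ?_, Subtype.ext ?_⟩, rfl⟩
          · change ((P.coeff 0 : s.toSubring) : K) * ((P.coeff 0 : s.toSubring) : K)⁻¹ = 1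
            exact mul_inv_cancel₀ h7
          · change ((P.coeff 0 : s.toSubring) : K)⁻¹ * ((P.coeff 0 : s.toSubring) : K) = 1
            exact inv_mul_cancel₀ h7
      obtain ⟨c, hc, h7⟩ := (hϖ.2 _).1 hP2
      rw [Ideal.mem_span_pair]
      refine ⟨⟨evR s.toSubring τ P.divX * (evR s.toSubring τ Q)⁻¹,
        R.mul_mem (hev _) (hun Q hQ).2.1⟩, ⟨algebraMap K L c * (evR s.toSubring τ Q)⁻¹,
        R.mul_mem (hsR _ hc) (hun Q hQ).2.1⟩, Subtype.ext ?_⟩
      change evR s.toSubring τ P.divX * (evR s.toSubring τ Q)⁻¹ * τ +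
        algebraMap K L c * (evR s.toSubring τ Q)⁻¹ * algebraMap K L ϖ = (z : L)
      rw [h6]
      have h9 : evR s.toSubring τ P = algebraMap K L (ϖ * c) + τ * evR s.toSubring τ P.divX := by
        conv_lhs => rw [b04c_split s.toSubring P]
        rw [map_add, map_mul, b04c_ev_C, b04c_ev_X, h7]
      rw [h9, map_mul]
      ring
    · rw [Ideal.span_le]
      rintro z (rfl | rfl)
      · rw [SetLike.mem_coe, IsLocalRing.mem_maximalIdeal, mem_nonunits_iff]
        exact hprime.not_isUnit
      · rw [SetLike.mem_coe, IsLocalRing.mem_maximalIdeal, mem_nonunits_iff]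
        intro h5
        obtain ⟨w, hw⟩ := h5.exists_right_inv
        obtain ⟨P, Q, hQ, h6⟩ := hform w w.2
        have h7 : algebraMap K L ϖ * (w : L) = 1 := congrArg Subtype.val hw
        have h8 : algebraMap K L ϖ * evR s.toSubring τ P = evR s.toSubring τ Q := by
          have h9 := (hun Q hQ).1
          rw [h6] at h7
          field_simp at h7
          exact h7
        have h9 := b04c_ev_nonunit hK hτn s.toSubring P
        have h10 := b04c_ev_nonunit hK hτn s.toSubring Q
        have h11 : algebraMap K L (((Q.coeff 0 : s.toSubring) : K) -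
            ϖ * ((P.coeff 0 : s.toSubring) : K)) ∈ D'.nonunits := by
          have h12 := D'.nonunits.sub_mem (nonunits_mul (hK ϖ) h9) h10
          rw [← h8] at h12
          have h13 : algebraMap K L ϖ * (evR s.toSubring τ P -
              algebraMap K L ((P.coeff 0 : s.toSubring) : K)) -
              (algebraMap K L ϖ * evR s.toSubring τ P -
                algebraMap K L ((Q.coeff 0 : s.toSubring) : K)) =
              algebraMap K L (((Q.coeff 0 : s.toSubring) : K) -
                ϖ * ((P.coeff 0 : s.toSubring) : K)) := by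
            rw [map_sub, map_mul]
            ring
          rwa [h13] at h12
        have h14 : ((Q.coeff 0 : s.toSubring) : K) - ϖ * ((P.coeff 0 : s.toSubring) : K) = 0 := by
          by_contra h15
          exact b04c_alg_unit hK h15 h11
        have h15 : ((Q.coeff 0 : s.toSubring) : K) ∈ s.nonunits :=
          (hϖ.2 _).2 ⟨_, (P.coeff 0).2, sub_eq_zero.1 h14⟩
        obtain ⟨q, hq⟩ := hQ.exists_right_inv
        have h16 : ((Q.coeff 0 : s.toSubring) : K) * (q : K) = 1 := congrArg Subtype.val hq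
        have h17 : (1 : K) ∈ s.nonunits := by
          rw [← h16, mul_comm]
          exact nonunits_mul q.2 h15
        have h18 := (s.mem_nonunits_iff).1 h17
        rw [map_one] at h18
        exact lt_irrefl _ h18
  have hoϖ : oD R D' (Units.map (algebraMap K L : K →* L) (Units.mk0 ϖ hϖ0)) = 1 := by
    apply hIs
    refine ⟨⟨algebraMap K L ϖ, hsR _ hϖs⟩, 1, ?_, ?_, ?_, ?_⟩
    · rw [hdvd]
      exact b04c_alg_unit hK hϖ0
    · exact fun h => hprime.not_isUnit (isUnit_of_dvd_unit h isUnit_one)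
    · change algebraMap K L ϖ * 1 = algebraMap K L ϖ
      rw [mul_one]
    · rw [len_unit _ isUnit_one, len_SY hmax]
      simp
  intro v
  refine ⟨hunit v, ?_⟩
  obtain ⟨n, u, hu, hv⟩ := hdec (v : K) (Units.ne_zero v)
  have hv' : v = (Units.mk0 ϖ hϖ0) ^ n * u := by
    apply Units.ext
    rw [hv, Units.val_mul, Units.val_zpow_eq_zpow_val, Units.val_mk0]
  rw [hv, ordV_eq hϖ hu, hv', map_mul, map_zpow]
  -- powers
  set p : Lˣ := Units.map (algebraMap K L : K →* L) (Units.mk0 ϖ hϖ0) with hp
  have hpu : UnitIn D' p := hunit _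
  have hone : oD R D' (1 : Lˣ) = 0 := by
    have h5 : UnitIn D' (1 : Lˣ) := by
      have := hunit 1
      rwa [map_one] at this
    have h6 := hmul 1 1 h5 h5
    rw [mul_one] at h6
    omega
  have hpow : ∀ m : ℕ, oD R D' (p ^ m) = m := by
    intro m
    induction m with
    | zero => rw [pow_zero, hone]; rfl
    | succ m ih =>
      have h5 : UnitIn D' (p ^ m) := by
        have := tord_unitIn_zpow hpu (m : ℤ)
        rwa [zpow_natCast] at this
      rw [pow_succ, hmul _ _ h5 hpu, ih, hoϖ]
      push_cast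
      ring
  have hzpow : oD R D' (p ^ n) = n := by
    cases n with
    | ofNat m => rw [Int.ofNat_eq_natCast, zpow_natCast]; exact hpow m
    | negSucc m =>
      have h5 : UnitIn D' (p ^ (m + 1)) := by
        have := tord_unitIn_zpow hpu ((m + 1 : ℕ) : ℤ)
        rwa [zpow_natCast] at this
      have h6 := hmul _ _ h5 (tord_unitIn_inv h5)
      rw [mul_inv_cancel, hone, hpow] at h6
      rw [zpow_negSucc, Int.negSucc_eq]
      push_cast at h6
      linarith
  rw [hmul _ _ (tord_unitIn_zpow hpu n) (hunit u), hzpow, hoU u hu, add_zero]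

end Pool.Agent.H19.UT
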