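import Pool.Agent.H19.UT.SpB
import Mathlib

/-!
Project UT, row B06a: the rings `R(τ)` (helper57).
-/

set_option autoImplicit false
set_option maxHeartbeats 400000

open Polynomial Pool.Agent.K1

namespace Pool.Agent.H19.UT

section b06a

variable {K L : Type} [Field K] [Field L] [Algebra K L]

theorem b06a_evR_eq (R : Subring K) (τ : L) (P : R[X]) :
    evR R τ P = aeval τ (P.map R.subtype) := by
  rw [evR, coe_eval₂RingHom, aeval_def, eval₂_map]

theorem b06a_evR_C (R : Subring K) (τ : L) (r : R) :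
    evR R τ (C r) = algebraMap K L (r : K) := by
  rw [evR, coe_eval₂RingHom, eval₂_C]
  rfl

theorem b06a_evR_inj (R : Subring K) (τ : L) (hτ : Transcendental K τ) (P : R[X])
    (h : evR R τ P = 0) : P = 0 := by
  rw [b06a_evR_eq] at h
  have h1 := (transcendental_iff.1 hτ) _ h
  exact (Polynomial.map_injective _ Subtype.val_injective) (by rw [h1, Polynomial.map_zero])

theorem b06a_clear (R : Subring K) (hR : ∀ f : K, ∃ a b : R, (b : K) ≠ 0 ∧ f * b = a)
    (P : K[X]) : ∃ r : R, r ≠ 0 ∧ ∃ P' : R[X], P'.map R.subtype = C (r : K) * P := by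
  induction P using Polynomial.induction_on' with
  | add P Q hP hQ =>
    obtain ⟨r, hr, P', hP'⟩ := hP
    obtain ⟨s, hs, Q', hQ'⟩ := hQ
    refine ⟨r * s, mul_ne_zero hr hs, C s * P' + C r * Q', ?_⟩
    rw [Polynomial.map_add, Polynomial.map_mul, Polynomial.map_mul, hP', hQ', map_C, map_C,
      Subring.subtype_apply, Subring.subtype_apply, Subring.coe_mul, C_mul]
    ring
  | monomial n a =>
    obtain ⟨x, y, hy, h⟩ := hR a
    refine ⟨y, fun h0 => hy (by rw [h0]; rfl), monomial n x, ?_⟩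
    rw [map_monomial, C_mul_monomial, mul_comm (y : K) a, h]
    rfl

/-- the prime `m[X]` -/
theorem b06a_mem (R : Type) [CommRing R] [IsLocalRing R] (Q : R[X]) :
    Q ∉ (IsLocalRing.maximalIdeal R).map (C : R →+* R[X]) ↔ ∃ n, IsUnit (Q.coeff n) := by
  rw [Ideal.mem_map_C_iff]
  push Not
  refine exists_congr fun n => ?_
  rw [IsLocalRing.mem_maximalIdeal, mem_nonunits_iff, not_not]

theorem b06a_map_mul (R : Subring K) (τ : L) (P Q : R[X]) :
    evR R τ (P * Q) = evR R τ P * evR R τ Q := map_mul _ _ _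

theorem b06a_equiv (A : Type) [CommRing A] (R : Subring K) (τ : L) (hτ : Transcendental K τ)
    (p : Ideal R[X]) [p.IsPrime]
    (hmem : ∀ Q : R[X], Q ∉ p ↔ ∃ n, IsUnit (Q.coeff n))
    [Algebra R[X] A] [IsLocalization.AtPrime A p] :
    ∃ S : Subring L, Nonempty (A ≃+* S) ∧ ∀ z : L, z ∈ S ↔
      ∃ P Q : R[X], (∃ n, IsUnit (Q.coeff n)) ∧ z * evR R τ Q = evR R τ P := by
  have hinj := b06a_evR_inj R τ hτ
  have hne : ∀ Q : R[X], Q ∉ p → evR R τ Q ≠ 0 := by
    intro Q hQ h0
    exact hQ (by rw [hinj Q h0]; exact p.zero_mem)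
  have hu : ∀ y : p.primeCompl, IsUnit (evR R τ y) := fun y =>
    isUnit_iff_ne_zero.2 (hne y y.2)
  let φ : A →+* L := IsLocalization.lift hu
  have hφmk : ∀ (P : R[X]) (Q : p.primeCompl) (z : L),
      φ (IsLocalization.mk' _ P Q) = z ↔ evR R τ P = evR R τ Q * z := fun P Q z =>
    IsLocalization.lift_mk'_spec _ _ _ _
  have hφinj : Function.Injective φ := by
    rw [injective_iff_map_eq_zero]
    intro x hx
    obtain ⟨P, Q, rfl⟩ := IsLocalization.exists_mk'_eq p.primeCompl x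
    rw [hφmk, mul_zero] at hx
    rw [hinj P hx, IsLocalization.mk'_zero]
  refine ⟨φ.range, ⟨RingEquiv.ofBijective φ.rangeRestrict
    ⟨fun a b h => hφinj (congrArg Subtype.val h), φ.rangeRestrict_surjective⟩⟩, ?_⟩
  · intro z
    constructor
    · rintro ⟨x, rfl⟩
      obtain ⟨P, Q, rfl⟩ := IsLocalization.exists_mk'_eq p.primeCompl x
      refine ⟨P, Q, (hmem _).1 Q.2, ?_⟩
      rw [(hφmk P Q _).1 rfl, mul_comm]
    · rintro ⟨P, Q, hQ, h⟩
      refine ⟨IsLocalization.mk' A P (⟨Q, (hmem Q).2 hQ⟩ : p.primeCompl), ?_⟩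
      rw [hφmk, mul_comm]
      exact h.symm

end b06a

theorem sp_ringT : SpRingT := by
  intro k K L _ _ _ _ _ _ _ τ hτ R hR
  have hreg : IsRegularLocalRing R := hR.reg
  let p : Ideal R[X] := (IsLocalRing.maximalIdeal R).map (C : R →+* R[X])
  have hp : p.IsPrime := Ideal.isPrime_map_C_of_isPrime
  have hmem : ∀ Q : R[X], Q ∉ p ↔ ∃ n, IsUnit (Q.coeff n) := fun Q => b06a_mem R Q
  obtain ⟨S, ⟨e⟩, hrange⟩ :=
    b06a_equiv (Localization.AtPrime p) R τ hτ.1 p hmem
  have hring : ringT R τ = S := by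
    have h1 : {z : L | ∃ P Q : R[X], (∃ n, IsUnit (Q.coeff n)) ∧
        z * evR R τ Q = evR R τ P} = (S : Set L) := by
      ext z
      exact (hrange z).symm
    rw [ringT, h1, Subring.closure_eq]
  have hone : ∃ n, IsUnit ((1 : R[X]).coeff n) := ⟨0, by rw [coeff_one_zero]; exact isUnit_one⟩
  have hcoe : ∀ P : R[X], evR R τ P ∈ S := fun P =>
    (hrange _).2 ⟨P, 1, hone, by rw [map_one, mul_one]⟩
  have hcomap : p.comap C = IsLocalRing.maximalIdeal R := by
    ext r
    rw [Ideal.mem_comap, Ideal.mem_map_C_iff]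
    constructor
    · intro h
      have h1 := h 0
      rwa [coeff_C_zero] at h1
    · intro h n
      rw [coeff_C]
      split_ifs
      · exact h
      · exact Ideal.zero_mem _
  have hloc : IsRegularLocalRing (Localization.AtPrime p) :=
    Polynomial.isRegularLocalRing_localization_atPrime_of_comap_eq_maximalIdeal R p hcomap
  rw [hring]
  refine ⟨hrange, ?_, ?_, ?_, ?_⟩
  · intro c
    have h1 := hcoe (C ⟨algebraMap k K c, hR.k_mem c⟩)
    rw [b06a_evR_C] at h1
    rw [IsScalarTower.algebraMap_apply k K L]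
    exact h1
  · intro f
    obtain ⟨P, Q, hQ, h⟩ := hτ.2 f
    obtain ⟨r, hr, P', hP'⟩ := b06a_clear R hR.frac P
    obtain ⟨s, hs, Q', hQ'⟩ := b06a_clear R hR.frac Q
    have hr0 : algebraMap K L (r : K) ≠ 0 := by
      rw [Ne, map_eq_zero]
      intro h0
      exact hr (Subtype.ext h0)
    have hs0 : algebraMap K L (s : K) ≠ 0 := by
      rw [Ne, map_eq_zero]
      intro h0
      exact hs (Subtype.ext h0)
    refine ⟨⟨_, hcoe (C s * P')⟩, ⟨_, hcoe (C r * Q')⟩, ?_, ?_⟩
    · change evR R τ (C r * Q') ≠ 0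
      rw [b06a_map_mul, b06a_evR_C, b06a_evR_eq, hQ', map_mul, aeval_C]
      exact mul_ne_zero hr0 (mul_ne_zero hs0 hQ)
    · change f * evR R τ (C r * Q') = evR R τ (C s * P')
      rw [b06a_map_mul, b06a_map_mul, b06a_evR_C, b06a_evR_C, b06a_evR_eq, b06a_evR_eq, hQ', hP',
        map_mul, map_mul, aeval_C, aeval_C, ← h]
      ring
  · exact IsRegularLocalRing.of_ringEquiv e
  · have h1 := IsLocalization.AtPrime.ringKrullDim_eq_height p (Localization.AtPrime p)
    rw [Polynomial.height_map_C, IsLocalRing.maximalIdeal_height_eq_ringKrullDim, hR.dim] at h1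
    exact (ringKrullDim_eq_of_ringEquiv e).symm.trans h1

end Pool.Agent.H19.UT
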