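import Pool.Agent.H19.UT.SpB

/-!
Project UT, row B06b (helper25): the curves on `R(τ)`.
-/

set_option autoImplicit false
set_option maxHeartbeats 400000
set_option linter.unusedSectionVars false
set_option linter.style.haveILetI false

open Polynomial Pool.Agent.K1

namespace Pool.Agent.H19.UT

section b06b_abs

variable {R S : Type} [CommRing R] [IsLocalRing R] [CommRing S]

/-- The polynomials with a unit coefficient. -/
def b06b_U (Q : R[X]) : Prop := ∃ n, IsUnit (Q.coeff n)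

theorem b06b_U_iff (Q : R[X]) : b06b_U Q ↔ Q.map (IsLocalRing.residue R) ≠ 0 := by
  rw [Ne, Polynomial.ext_iff, not_forall]
  unfold b06b_U
  refine exists_congr fun n => ?_
  rw [coeff_map, coeff_zero, ← Ne, IsLocalRing.residue_ne_zero_iff_isUnit]

theorem b06b_U_mul {P Q : R[X]} (hP : b06b_U P) (hQ : b06b_U Q) : b06b_U (P * Q) := by
  rw [b06b_U_iff] at *
  rw [Polynomial.map_mul]
  exact mul_ne_zero hP hQ

theorem b06b_U_one : b06b_U (1 : R[X]) := ⟨0, by simp⟩

theorem b06b_U_C {b : R} (hb : IsUnit b) : b06b_U (C b : R[X]) := ⟨0, by simpa using hb⟩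

theorem b06b_not_dvd {f : R} (hf : ¬ IsUnit f) {Q : R[X]} (hQ : b06b_U Q) : ¬ C f ∣ Q := by
  intro h
  rw [C_dvd_iff_dvd_coeff] at h
  obtain ⟨n, hn⟩ := hQ
  exact hf (isUnit_of_dvd_unit (h n) hn)

/-- `S` is the localization of `R[X]` at the polynomials with a unit coefficient. -/
structure b06b_Ext (φ : R[X] →+* S) : Prop where
  inj : Function.Injective φ
  unit : ∀ Q, b06b_U Q → IsUnit (φ Q)
  surj : ∀ z : S, ∃ P Q : R[X], b06b_U Q ∧ z * φ Q = φ P

theorem b06b_dvd [IsDomain R] {φ : R[X] →+* S} (h : b06b_Ext φ) {f : R} (hf : Prime f)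
    (P : R[X]) : φ (C f) ∣ φ P ↔ C f ∣ P := by
  refine ⟨?_, fun h1 => map_dvd φ h1⟩
  rintro ⟨z, hz⟩
  obtain ⟨P', Q', hQ', h1⟩ := h.surj z
  have h2 : φ (P * Q') = φ (C f * P') := by
    rw [map_mul, map_mul, hz, ← h1, mul_assoc]
  have h3 : C f ∣ P * Q' := ⟨P', h.inj h2⟩
  rcases (prime_C_iff.2 hf).dvd_or_dvd h3 with h4 | h4
  · exact h4
  · exact absurd h4 (b06b_not_dvd hf.not_isUnit hQ')

theorem b06b_prime [IsDomain R] {φ : R[X] →+* S} (h : b06b_Ext φ) {f : R} (hf : Prime f) :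
    Prime (φ (C f)) := by
  refine ⟨?_, ?_, ?_⟩
  · intro h0
    rw [← map_zero φ] at h0
    exact hf.ne_zero (C_eq_zero.1 (h.inj h0))
  · intro hu
    have h1 : φ (C f) ∣ φ 1 := by
      rw [map_one]; exact hu.dvd
    exact b06b_not_dvd hf.not_isUnit b06b_U_one ((b06b_dvd h hf 1).1 h1)
  · intro a b hab
    obtain ⟨P, Q, hQ, h1⟩ := h.surj a
    obtain ⟨P', Q', hQ', h2⟩ := h.surj b
    have h3 : φ (C f) ∣ φ (P * P') := by
      rw [map_mul, ← h1, ← h2]
      have h4 : a * φ Q * (b * φ Q') = a * b * (φ Q * φ Q') := by ring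
      rw [h4]
      exact hab.mul_right _
    rw [b06b_dvd h hf] at h3
    rcases (prime_C_iff.2 hf).dvd_or_dvd h3 with h4 | h4
    · left
      have h5 : φ (C f) ∣ φ P := map_dvd φ h4
      rw [← h1] at h5
      exact (h.unit Q hQ).dvd_mul_right.1 h5
    · right
      have h5 : φ (C f) ∣ φ P' := map_dvd φ h4
      rw [← h2] at h5
      exact (h.unit Q' hQ').dvd_mul_right.1 h5

theorem b06b_len [IsLocalRing S] {φ : R[X] →+* S} (h : b06b_Ext φ) (f a : R) :
    len (φ (C f)) (φ (C a)) = len f a := by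
  letI i1 : Algebra R[X] S := φ.toAlgebra
  letI i2 : Algebra R S := (φ.comp C).toAlgebra
  haveI i3 : IsScalarTower R R[X] S := IsScalarTower.of_algebraMap_eq fun x => rfl
  let U' : Submonoid R[X] :=
    { carrier := {Q | b06b_U Q}
      mul_mem' := fun ha hb => b06b_U_mul ha hb
      one_mem' := b06b_U_one }
  haveI i4 : IsLocalization U' S := by
    refine ⟨?_, ?_, ?_⟩
    · rintro ⟨Q, hQ⟩
      exact h.unit Q hQ
    · intro z
      obtain ⟨P, Q, hQ, h1⟩ := h.surj z
      exact ⟨(P, ⟨Q, hQ⟩), h1⟩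
    · intro x y hxy
      exact ⟨1, by rw [h.inj hxy]⟩
  haveI i5 : Module.Flat R[X] S := IsLocalization.flat S U'
  haveI i6 : Module.Flat R S := Module.Flat.trans R R[X] S
  have key : ∀ r : R, IsUnit (φ (C r)) → IsUnit r := by
    intro r hr
    by_contra h0
    obtain ⟨z, hz⟩ := hr.exists_right_inv
    obtain ⟨P, Q, hQ, h1⟩ := h.surj z
    have h2 : φ Q = φ (C r * P) := by
      rw [map_mul, ← h1, ← mul_assoc, hz, one_mul]
    have h3 : Q = C r * P := h.inj h2
    exact b06b_not_dvd h0 hQ ⟨P, h3⟩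
  haveI i7 : IsLocalHom (algebraMap R S) := ⟨fun r hr => key r hr⟩
  have hmax : (IsLocalRing.maximalIdeal R).map (algebraMap R S) =
      IsLocalRing.maximalIdeal S := by
    apply le_antisymm
    · rw [Ideal.map_le_iff_le_comap]
      intro r hr
      rw [Ideal.mem_comap, IsLocalRing.mem_maximalIdeal, mem_nonunits_iff]
      intro hu
      exact ((IsLocalRing.mem_maximalIdeal r).1 hr) (key r hu)
    · intro z hz
      obtain ⟨P, Q, hQ, h1⟩ := h.surj z
      obtain ⟨v, hv⟩ := (h.unit Q hQ).exists_right_inv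
      have hP : P ∈ (IsLocalRing.maximalIdeal R).map (C : R →+* R[X]) := by
        rw [Ideal.mem_map_C_iff]
        intro n
        rw [IsLocalRing.mem_maximalIdeal, mem_nonunits_iff]
        intro hn
        have hu : IsUnit (z * φ Q) := by rw [h1]; exact h.unit P ⟨n, hn⟩
        exact ((IsLocalRing.mem_maximalIdeal z).1 hz) (isUnit_of_mul_isUnit_left hu)
      have h2 : φ P ∈ (IsLocalRing.maximalIdeal R).map (algebraMap R S) := by
        have h3 := Ideal.mem_map_of_mem φ hP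
        rw [Ideal.map_map] at h3
        exact h3
      have h3 : z = φ P * v := by
        rw [← h1, mul_assoc, hv, mul_one]
      rw [h3]
      exact Ideal.mul_mem_right _ _ h2
  have h1 : (Ideal.span {f, a}).map (algebraMap R S) = Ideal.span {φ (C f), φ (C a)} := by
    rw [Ideal.map_span, Set.image_pair]
    rfl
  unfold len
  rw [← h1]
  rw [(Algebra.TensorProduct.quotIdealMapEquivTensorQuot S (Ideal.span {f, a})).toLinearEquiv.length_eq,
    IsLocalRing.length_baseChange R S (R ⧸ Ideal.span {f, a}), hmax]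
  haveI : IsSimpleModule S (S ⧸ IsLocalRing.maximalIdeal S) :=
    isSimpleModule_iff_quot_maximal.2 ⟨_, IsLocalRing.maximalIdeal.isMaximal S,
      ⟨LinearEquiv.refl _ _⟩⟩
  rw [Module.length_eq_one S (S ⧸ IsLocalRing.maximalIdeal S), mul_one]

end b06b_abs

section b06b_con

variable {k K L : Type} [Field k] [Field K] [Field L] [Algebra k K] [Algebra k L] [Algebra K L]
  [IsScalarTower k K L]

theorem b06b_ev_eq (R : Subring K) (τ : L) (P : R[X]) :
    evR R τ P = aeval τ (P.map R.subtype) := by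
  unfold evR
  rw [coe_eval₂RingHom, aeval_def, eval₂_map]

theorem b06b_ev_inj {τ : L} (hτ : Coord K L τ) (R : Subring K) :
    Function.Injective (evR R τ) := by
  rw [injective_iff_map_eq_zero]
  intro P hP
  rw [b06b_ev_eq] at hP
  have h1 := (transcendental_iff.1 hτ.1) _ hP
  exact (Polynomial.map_eq_zero_iff (Subtype.val_injective)).1 h1

theorem b06b_ev_mem (R : Subring K) (τ : L) (P : R[X]) : evR R τ P ∈ ringT R τ := by
  refine Subring.subset_closure ⟨P, 1, ⟨0, by simp⟩, ?_⟩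
  rw [map_one, mul_one]

/-- Evaluation, with values in `R(τ)`. -/
noncomputable def b06b_phi (R : Subring K) (τ : L) : R[X] →+* ringT R τ :=
  (evR R τ).codRestrict (ringT R τ) (b06b_ev_mem R τ)

theorem b06b_phi_val (R : Subring K) (τ : L) (P : R[X]) :
    ((b06b_phi R τ P : ringT R τ) : L) = evR R τ P := rfl

theorem b06b_phi_C (R : Subring K) (τ : L) (r : R) :
    ((b06b_phi R τ (C r) : ringT R τ) : L) = algebraMap K L r := by
  rw [b06b_phi_val]
  unfold evR
  rw [coe_eval₂RingHom, eval₂_C]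
  rfl

theorem b06b_ext {τ : L} (hτ : Coord K L τ) (R : Subring K) [IsLocalRing R]
    (hz : ∀ z : L, z ∈ ringT R τ ↔ ∃ P Q : R[X], (∃ n, IsUnit (Q.coeff n)) ∧
      z * evR R τ Q = evR R τ P) : b06b_Ext (b06b_phi R τ) := by
  refine ⟨?_, ?_, ?_⟩
  · intro P Q h
    apply b06b_ev_inj hτ R
    rw [← b06b_phi_val, ← b06b_phi_val, h]
  · intro Q hQ
    have hQ0 : evR R τ Q ≠ 0 := by
      intro h0
      rw [← map_zero (evR R τ)] at h0
      have h1 := b06b_ev_inj hτ R h0
      obtain ⟨n, hn⟩ := hQ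
      rw [h1, coeff_zero] at hn
      exact not_isUnit_zero hn
    have h1 : (evR R τ Q)⁻¹ ∈ ringT R τ := by
      rw [hz]
      exact ⟨1, Q, hQ, by rw [inv_mul_cancel₀ hQ0, map_one]⟩
    refine IsUnit.of_mul_eq_one ⟨_, h1⟩ ?_
    apply Subtype.ext
    change evR R τ Q * (evR R τ Q)⁻¹ = 1
    exact mul_inv_cancel₀ hQ0
  · rintro ⟨z, h⟩
    obtain ⟨P, Q, hQ, h1⟩ := (hz z).1 h
    exact ⟨P, Q, hQ, Subtype.ext h1⟩

/-- The inclusion of polynomial rings. -/
noncomputable def b06b_inc {R : Subring K} {s : ValuationSubring K} (hR : ∀ r : R, (r : K) ∈ s) :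
    R →+* s.toSubring where
  toFun r := ⟨r, hR r⟩
  map_one' := rfl
  map_mul' _ _ := rfl
  map_zero' := rfl
  map_add' _ _ := rfl

theorem b06b_ev_inc {R : Subring K} {s : ValuationSubring K} (hR : ∀ r : R, (r : K) ∈ s) (τ : L)
    (P : R[X]) : evR s.toSubring τ (P.map (b06b_inc hR)) = evR R τ P := by
  unfold evR
  rw [coe_eval₂RingHom, coe_eval₂RingHom, eval₂_map]
  rfl

theorem b06b_red {R : Subring K} {s : ValuationSubring K} (hR : ∀ r : R, (r : K) ∈ s) {f : R}
    (hf : ∀ r : R, (r : K) ∈ s.nonunits ↔ f ∣ r) (P : R[X]) :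
    redP s (P.map (b06b_inc hR)) = 0 ↔ C f ∣ P := by
  rw [C_dvd_iff_dvd_coeff, Polynomial.ext_iff]
  refine forall_congr' fun n => ?_
  unfold redP
  rw [coe_mapRingHom, coeff_map, coeff_map, coeff_zero, ← hf]
  have h1 : (IsLocalRing.residue s) (b06b_inc hR (P.coeff n)) = 0 ↔
      (b06b_inc hR (P.coeff n)) ∈ IsLocalRing.maximalIdeal s :=
    IsLocalRing.residue_eq_zero_iff _
  rw [h1, ← ValuationSubring.coe_mem_nonunits_iff]
  rfl

theorem b06b_den {R : Subring K} {s : ValuationSubring K} (hR : ∀ r : R, (r : K) ∈ s) {f : R}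
    (hfp : Prime f) (hs : ∀ x : K, x ∈ s ↔ ∃ a b : R, ¬ f ∣ b ∧ x * b = a)
    (P : (s.toSubring)[X]) : ∃ (b : R) (P0 : R[X]), ¬ f ∣ b ∧
      C (b06b_inc hR b) * P = P0.map (b06b_inc hR) := by
  induction P using Polynomial.induction_on' with
  | add P Q hP hQ =>
    obtain ⟨b, P0, hb, h1⟩ := hP
    obtain ⟨c, Q0, hc, h2⟩ := hQ
    refine ⟨b * c, C c * P0 + C b * Q0, fun h => (hfp.dvd_or_dvd h).elim hb hc, ?_⟩
    rw [Polynomial.map_add, Polynomial.map_mul, Polynomial.map_mul, ← h1, ← h2, map_C, map_C,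
      map_mul, C_mul]
    ring
  | monomial n a =>
    obtain ⟨a0, b, hb, h1⟩ := (hs a).1 a.2
    refine ⟨b, monomial n a0, hb, ?_⟩
    rw [map_monomial, C_mul_monomial]
    congr 1
    apply Subtype.ext
    change (b : K) * a = a0
    rw [← h1]
    ring

theorem b06b_onR {τ : L} (hτ : Coord K L τ) (R : Subring K) [IsLocalRing R]
    (hz : ∀ z : L, z ∈ ringT R τ ↔ ∃ P Q : R[X], (∃ n, IsUnit (Q.coeff n)) ∧
      z * evR R τ Q = evR R τ P)
    {s : ValuationSubring K} (hR : ∀ r : R, (r : K) ∈ s) {f : R} (hfp : Prime f)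
    (hf : ∀ r : R, (r : K) ∈ s.nonunits ↔ f ∣ r)
    (hs : ∀ x : K, x ∈ s ↔ ∃ a b : R, ¬ f ∣ b ∧ x * b = a)
    {E : ValuationSubring L}
    (hE : ∀ z : L, z ∈ E ↔ ∃ P Q : (s.toSubring)[X], redP s Q ≠ 0 ∧
      z * evR s.toSubring τ Q = evR s.toSubring τ P) :
    OnR (ringT R τ) (b06b_phi R τ (C f)) E := by
  have hext := b06b_ext hτ R hz
  refine ⟨b06b_prime hext hfp, fun z => ?_⟩
  rw [hE]
  constructor
  · rintro ⟨P, Q, hQ, h1⟩
    obtain ⟨b, P0, hb, h2⟩ := b06b_den hR hfp hs P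
    obtain ⟨c, Q0, hc, h3⟩ := b06b_den hR hfp hs Q
    refine ⟨b06b_phi R τ (C c * P0), b06b_phi R τ (C b * Q0), ?_, ?_⟩
    · rw [b06b_dvd hext hfp]
      intro h4
      rcases (prime_C_iff.2 hfp).dvd_or_dvd h4 with h5 | h5
      · rw [C_dvd_iff_dvd_coeff] at h5
        have h6 := h5 0
        rw [coeff_C_zero] at h6
        exact hb h6
      · rw [← b06b_red hR hf, ← h3, map_mul] at h5
        rcases mul_eq_zero.1 h5 with h6 | h6
        · have h7 : redP s ((C c : R[X]).map (b06b_inc hR)) = 0 := by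
            rw [map_C]; exact h6
          rw [b06b_red hR hf, C_dvd_iff_dvd_coeff] at h7
          have h8 := h7 0
          rw [coeff_C_zero] at h8
          exact hc h8
        · exact hQ h6
    · rw [b06b_phi_val, b06b_phi_val, map_mul, map_mul, ← b06b_ev_inc hR τ P0,
        ← b06b_ev_inc hR τ Q0, ← h2, ← h3, map_mul, map_mul, ← h1,
        ← b06b_ev_inc hR τ (C b), ← b06b_ev_inc hR τ (C c), map_C, map_C]
      ring
  · rintro ⟨a, b, hb, h1⟩
    obtain ⟨P1, Q1, hQ1, h2⟩ := hext.surj a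
    obtain ⟨P2, Q2, hQ2, h3⟩ := hext.surj b
    have h4 : ¬ C f ∣ P2 := by
      intro h5
      apply hb
      have h6 : b06b_phi R τ (C f) ∣ b06b_phi R τ P2 := map_dvd _ h5
      rw [← h3] at h6
      exact (hext.unit Q2 hQ2).dvd_mul_right.1 h6
    refine ⟨(P1 * Q2).map (b06b_inc hR), (P2 * Q1).map (b06b_inc hR), ?_, ?_⟩
    · rw [Ne, b06b_red hR hf]
      intro h5
      rcases (prime_C_iff.2 hfp).dvd_or_dvd h5 with h6 | h6
      · exact h4 h6
      · exact b06b_not_dvd hfp.not_isUnit hQ1 h6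
    · rw [b06b_ev_inc, b06b_ev_inc, map_mul, map_mul]
      have h5 : (a : L) * evR R τ Q1 = evR R τ P1 := congrArg Subtype.val h2
      have h6 : (b : L) * evR R τ Q2 = evR R τ P2 := congrArg Subtype.val h3
      rw [← h5, ← h6, ← h1]
      ring

end b06b_con

theorem sp_ringTD (h1 : SpOnFacts) (h2 : SpOD) (h3 : SpGauss) (h6 : SpRingT) : SpRingTD := by
  intro k K L _ _ _ _ _ _ _ τ hτ R hR
  obtain ⟨hz, hS⟩ := h6 k K L τ hτ R hR
  haveI := hR.reg
  haveI := hS.reg
  have hext := b06b_ext hτ R hz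
  obtain ⟨hufd, hnoe, hex, hfac, hass⟩ := h1 k K R hR
  obtain ⟨-, -, -, hfacS, hassS⟩ := h1 k L (ringT R τ) hS
  have key : ∀ (f : R) (s : ValuationSubring K) (E : ValuationSubring L), OnR R f s →
      IsGauss s τ E → OnR (ringT R τ) (b06b_phi R τ (C f)) E := by
    intro f s E hfs hE
    obtain ⟨hsd, -, hRs, hfn⟩ := hfac f s hfs
    obtain ⟨-, -, hG⟩ := h3 K L τ hτ s hsd
    obtain ⟨-, -, -, hEz, -, -, -⟩ := hG E hE
    exact b06b_onR hτ R hz hRs hfs.1 hfn hfs.2 hEz
  refine ⟨?_, ?_⟩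
  · rintro D ⟨F, hFD⟩
    obtain ⟨hDd, -, hSD, hFn⟩ := hfacS F D hFD
    by_cases hK : ∀ a : K, algebraMap K L a ∈ D
    · right
      refine ⟨hDd, hK, ?_⟩
      have h4 := hSD (b06b_phi R τ X)
      have h5 : ((b06b_phi R τ X : ringT R τ) : L) = τ := by
        rw [b06b_phi_val]
        unfold evR
        rw [coe_eval₂RingHom, eval₂_X]
      rwa [h5] at h4
    · left
      push Not at hK
      obtain ⟨x, hx⟩ := hK
      obtain ⟨a, b, hb0, hab⟩ := hR.frac x
      have hb0' : b ≠ 0 := fun h => hb0 (by rw [h]; rfl)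
      -- `F` divides `b`
      have hFb : F ∣ b06b_phi R τ (C b) := by
        rw [← hFn, b06b_phi_C]
        by_contra h4
        apply hx
        have h5 : algebraMap K L (b : K) ∈ D := by
          have h6 := hSD (b06b_phi R τ (C b))
          rwa [b06b_phi_C] at h6
        have h6 : (algebraMap K L (b : K))⁻¹ ∈ D := by
          by_contra h7
          exact h4 (tord_nonunits_iff.2 (Or.inr ⟨h5, h7⟩))
        have h7 : algebraMap K L x = algebraMap K L (a : K) * (algebraMap K L (b : K))⁻¹ := by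
          rw [← hab, map_mul, mul_assoc, mul_inv_cancel₀, mul_one]
          intro h8
          exact hb0 ((algebraMap K L).injective (by rw [h8, map_zero]))
        rw [h7]
        have h8 := hSD (b06b_phi R τ (C a))
        rw [b06b_phi_C] at h8
        exact D.mul_mem _ _ h8 h6
      -- so it divides a prime of `R`
      have hprime : ∀ b : R, b ≠ 0 → F ∣ b06b_phi R τ (C b) →
          ∃ f : R, Prime f ∧ F ∣ b06b_phi R τ (C f) := by
        intro b
        induction b using UniqueFactorizationMonoid.induction_on_prime with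
        | h₁ => intro h; exact absurd rfl h
        | h₂ u hu =>
          intro _ h4
          exact absurd (isUnit_of_dvd_unit h4 (hext.unit _ (b06b_U_C hu))) hFD.1.not_isUnit
        | h₃ c p hc hp ih =>
          intro _ h4
          rw [C_mul, map_mul] at h4
          rcases hFD.1.dvd_or_dvd h4 with h5 | h5
          · exact ⟨p, hp, h5⟩
          · exact ih hc h5
      obtain ⟨f, hf, hFf⟩ := hprime b hb0' hFb
      obtain ⟨s, hs⟩ := hex f hf
      obtain ⟨hsd, -, -, -⟩ := hfac f s hs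
      obtain ⟨⟨E, hE⟩, -, -⟩ := h3 K L τ hτ s hsd
      have h4 := key f s E hs hE
      have h5 : Associated F (b06b_phi R τ (C f)) :=
        hFD.1.associated_of_dvd h4.1 hFf
      have h6 : D = E := (hassS _ _ _ _ hFD h4).2 h5
      exact ⟨s, ⟨f, hs⟩, by rw [h6]; exact hE⟩
  · rintro s E ⟨f, hfs⟩ hE
    have h4 := key f s E hfs hE
    refine ⟨⟨_, h4⟩, fun g hg => ?_⟩
    obtain ⟨hfin, hexn, hoD, -, -⟩ := h2 k K R hR f s hfs
    obtain ⟨-, -, hoDS, -, -⟩ := h2 k L (ringT R τ) hS _ E h4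
    obtain ⟨n, hn⟩ := hexn g hg
    rw [hoD g n hn]
    apply hoDS
    obtain ⟨a, b, ha, hb, h5, h6⟩ := hn
    refine ⟨b06b_phi R τ (C a), b06b_phi R τ (C b), ?_, ?_, ?_, ?_⟩
    · rw [b06b_dvd hext hfs.1, C_dvd_iff_dvd_coeff]
      intro h7
      have h8 := h7 0
      rw [coeff_C_zero] at h8
      exact ha h8
    · rw [b06b_dvd hext hfs.1, C_dvd_iff_dvd_coeff]
      intro h7
      have h8 := h7 0
      rw [coeff_C_zero] at h8
      exact hb h8
    · rw [b06b_phi_C, b06b_phi_C, ← h5, map_mul]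
      rfl
    · rw [b06b_len hext, b06b_len hext]
      exact h6


end Pool.Agent.H19.UT
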