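import Pool.Agent.H19.UT.Defs

/-!
Project UT, block A: statements (helper19).
-/

set_option autoImplicit false
set_option maxHeartbeats 400000

open Polynomial Pool.Agent.K1

namespace Pool.Agent.H19.UT

section more

open Classical in
/-- The length of `R / (p, q)`, for elements `p`, `q` of `L` in `R`. -/
noncomputable def lenS {L : Type} [Field L] (R : Subring L) (p q : L) : ℕ∞ :=
  if h : p ∈ R ∧ q ∈ R then len (⟨p, h.1⟩ : R) ⟨q, h.2⟩ else 0

namespace Blow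

variable {L : Type} [Field L] {R : Subring L}

/-- The inclusion of `R` in `B`. -/
def inc (bl : Blow R) : R →+* bl.B where
  toFun r := ⟨r, bl.RB r⟩
  map_one' := rfl
  map_mul' _ _ := rfl
  map_zero' := rfl
  map_add' _ _ := rfl

/-- The length of `B / (p, q)` as an `R`-module. -/
noncomputable def lenB (bl : Blow R) (p q : bl.B) : ℕ∞ :=
  letI := bl.inc.toAlgebra
  Module.length R (bl.B ⧸ Ideal.span {p, q})

end Blow

end more

/-- A00: the units `sm D β`, torsion, and the data. -/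
def SpSm : Prop := ∀ (L : Type) [Field L] (D : ValuationSubring L), IsDiscV D →
  (∀ β : Sy L, UnitIn D (sm D β)) ∧
  (∀ β β' : Sy L, sm D (β + β') = sm D β * sm D β') ∧
  (∀ β : Sy L, sm D (-β) = (sm D β)⁻¹) ∧
  (∀ (n : ℕ) (β : Sy L), sm D (n • β) = sm D β ^ n) ∧
  (∀ u v : Lˣ, TorsV D u → TorsV D v → TorsV D (u * v)) ∧
  (∀ u : Lˣ, TorsV D u → TorsV D u⁻¹) ∧
  (∀ u : Lˣ, TorsV D u → UnitIn D u) ∧
  (∀ (u : Lˣ) (n : ℕ), 0 < n → (TorsV D (u ^ n) ↔ TorsV D u)) ∧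
  (∀ d : Dat L, ∀ i, (∀ a ∈ d.A i, a ∈ D) →
    TorsV D (d.val D * (sm D (d.β i))⁻¹) ∧ (d.Triv D ↔ TorsV D (sm D (d.β i))))

/-- A01: the curves on a two-dimensional regular local ring. -/
def SpOnFacts : Prop := ∀ (k L : Type) [Field k] [Field L] [Algebra k L] (R : Subring L),
  Reg2 k R →
  UniqueFactorizationMonoid R ∧ IsNoetherianRing R ∧
  (∀ f : R, Prime f → ∃ D, OnR R f D) ∧
  (∀ (f : R) (D : ValuationSubring L), OnR R f D → IsDiscV D ∧ IsUnifV D (f : L) ∧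
    (∀ r : R, (r : L) ∈ D) ∧ (∀ r : R, (r : L) ∈ D.nonunits ↔ f ∣ r)) ∧
  (∀ (f g : R) (D D' : ValuationSubring L), OnR R f D → OnR R g D' →
    (D = D' ↔ Associated f g))

/-- A02: orders along the curves. -/
def SpOD : Prop := ∀ (k L : Type) [Field k] [Field L] [Algebra k L] (R : Subring L),
  Reg2 k R → ∀ (f : R) (D : ValuationSubring L), OnR R f D →
  (∀ a : R, ¬ f ∣ a → len f a ≠ ⊤) ∧
  (∀ u : Lˣ, UnitIn D u → ∃ n, IsOR R f u n) ∧
  (∀ (u : Lˣ) (n : ℤ), IsOR R f u n → oD R D u = n) ∧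
  (∀ u v : Lˣ, UnitIn D u → UnitIn D v → oD R D (u * v) = oD R D u + oD R D v) ∧
  (∀ u : Lˣ, TorsV D u → oD R D u = 0)

/-- A03: only finitely many curves carry a nontrivial symbol. -/
def SpFin : Prop := ∀ (k L : Type) [Field k] [Field L] [Algebra k L] (d : Dat L)
  (R : Subring L), Reg2 k R → {D : ValuationSubring L | On R D ∧ ¬ d.Triv D}.Finite

/-- A04: the cycle condition if `R` contains a chart. -/
def SpBase : Prop := ∀ (k L : Type) [Field k] [Field L] [Algebra k L] (d : Dat L)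
  (R : Subring L), Reg2 k R → ∀ i, (∀ a ∈ d.A i, a ∈ R) →
  ∑ᶠ (D : ValuationSubring L) (_ : On R D), oD R D (d.val D) = 0

/-- A05: fractions in lowest terms. -/
def SpDl : Prop := ∀ (k L : Type) [Field k] [Field L] [Algebra k L] (R : Subring L),
  Reg2 k R →
  (∀ u : L, ∃ a b : R, IsRelPrime a b ∧ (b : L) ≠ 0 ∧ u * b = a) ∧
  (∀ (u : L) (a b : R), IsRelPrime a b → (b : L) ≠ 0 → u * b = a →
    len a b ≠ ⊤ ∧ dl R u = (len a b).toNat) ∧
  (∀ (u : L) (a b : R), (b : L) ≠ 0 → u * b = a → len a b ≠ ⊤ → dl R u ≤ (len a b).toNat) ∧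
  (∀ u : L, dl R u = 0 → u ∈ R ∨ u⁻¹ ∈ R)

/-- A06: if all fractions of the charts are principal, then `R` contains a chart. -/
def SpChart : Prop := ∀ (k L : Type) [Field k] [Field L] [Algebra k L] (d : Dat L)
  (R : Subring L), Reg2 k R → (∀ i, ∀ a ∈ d.A i, dl R a = 0) → ∃ i, ∀ a ∈ d.A i, a ∈ R

/-- A07a: blow-up charts exist for all parameters. -/
def SpBlowX : Prop := ∀ (k L : Type) [Field k] [Field L] [Algebra k L]
  (R : Subring L), Reg2 k R → ∀ x y : R, (∀ r : R, ¬ IsUnit r ↔ ∃ a b : R, r = a * x + b * y) →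
  ∃ bl : Blow R, bl.x = x ∧ bl.y = y

/-- A07: blow-up in general coordinates. -/
def SpBlow : Prop := ∀ (k L : Type) [Field k] [Infinite k] [Field L] [Algebra k L]
  (R : Subring L), Reg2 k R → ∀ F : Finset R, (∀ f ∈ F, f ≠ 0) →
  ∃ bl : Blow R, ∀ f ∈ F, ∃ r, bl.Good f r

/-- A07b: every nonzero element of `R` has an order. -/
def SpOrd : Prop := ∀ (k L : Type) [Field k] [Field L] [Algebra k L]
  (R : Subring L), Reg2 k R → ∀ bl : Blow R,
  (∀ (f : R) (r s : ℕ), s ≤ r → bl.OrdGe f r → bl.OrdGe f s) ∧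
  (∀ (f : R) (r : ℕ), bl.OrdGe f r ↔ ∃ f' : bl.B, (f : L) = (bl.x : L) ^ r * f') ∧
  (∀ (f : R) (r : ℕ) (f' : bl.B), bl.Good f r → (f : L) = (bl.x : L) ^ r * f' →
    bl.θ f' ≠ 0 ∧ (bl.θ f').natDegree = r) ∧
  (∀ bl' : Blow R, ∀ (f : R) (r : ℕ), bl.OrdGe f r → bl'.OrdGe f r)

/-- A08: the exceptional divisor. -/
def SpE : Prop := ∀ (k L : Type) [Field k] [Field L] [Algebra k L]
  (R : Subring L), Reg2 k R → ∀ bl : Blow R,
  (∃ E, bl.IsE E) ∧
  (∀ E : ValuationSubring L, bl.IsE E → IsDiscV E ∧ IsUnifV E (bl.x : L) ∧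
    (∀ b : bl.B, (b : L) ∈ E) ∧ (∀ b : bl.B, (b : L) ∈ E.nonunits ↔ bl.θ b = 0)) ∧
  (∀ (bl' : Blow R) (E : ValuationSubring L), bl.IsE E → bl'.IsE E)

/-- A09: the local rings of the blow-up. -/
def SpLoc : Prop := ∀ (k L : Type) [Field k] [Field L] [Algebra k L]
  (R : Subring L), Reg2 k R → ∀ (bl : Blow R) (π : bl.κ[X]), bl.Pt π →
  bl.IsLoc π (bl.loc π) ∧ Reg2 k (bl.loc π)

/-- A10: the curves on the local rings of the blow-up. -/
def SpCl : Prop := ∀ (k L : Type) [Field k] [Field L] [Algebra k L]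
  (R : Subring L), Reg2 k R → ∀ (bl : Blow R) (π : bl.κ[X]), bl.Pt π →
  ∀ D : ValuationSubring L,
    (On (bl.loc π) D → bl.IsE D ∨ On R D) ∧ (bl.IsE D → On (bl.loc π) D ∧ ¬ On R D)

/-- A11: orders along the exceptional divisor. -/
def SpOE : Prop := ∀ (k L : Type) [Field k] [Field L] [Algebra k L]
  (R : Subring L), Reg2 k R → ∀ (bl : Blow R) (π : bl.κ[X]), bl.Pt π →
  ∀ (E : ValuationSubring L), bl.IsE E → ∀ (a b : bl.B) (u : Lˣ), bl.θ a ≠ 0 → bl.θ b ≠ 0 →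
    (u : L) * b = a →
    oD (bl.loc π) E u = (multiplicity π (bl.θ a) : ℤ) - (multiplicity π (bl.θ b) : ℤ)

/-- A12a: the strict transform. -/
def SpTrans : Prop := ∀ (k L : Type) [Field k] [Field L] [Algebra k L]
  (R : Subring L), Reg2 k R → ∀ (bl : Blow R) (f : R) (r : ℕ), Prime f → bl.Good f r →
  ∃ f' : bl.B, (f : L) = (bl.x : L) ^ r * f' ∧
    (∀ D : ValuationSubring L, OnR R f D →
      ∀ b : bl.B, (b : L) ∈ D ∧ ((b : L) ∈ D.nonunits ↔ f' ∣ b)) ∧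
    (∀ a : R, ¬ f ∣ a → len f a = bl.lenB f' (bl.inc a))

/-- A12b: lengths are sums of local lengths. -/
def SpDecomp : Prop := ∀ (k L : Type) [Field k] [Field L] [Algebra k L]
  (R : Subring L), Reg2 k R → ∀ (bl : Blow R) (p q : bl.B),
  (∃ N : ℕ, (bl.inc bl.x) ^ N ∈ Ideal.span {p, q}) → bl.lenB p q ≠ ⊤ →
  (∀ π, bl.Pt π → lenS (bl.loc π) p q ≠ ⊤ ∧ (lenS (bl.loc π) p q).toNat ≤ (bl.lenB p q).toNat) ∧
  {π : bl.κ[X] | bl.Pt π ∧ lenS (bl.loc π) p q ≠ 0}.Finite ∧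
  (bl.lenB p q).toNat =
    ∑ᶠ (π : bl.κ[X]) (_ : bl.Pt π), π.natDegree * (lenS (bl.loc π) p q).toNat

/-- A12c: orders are sums of orders on the blow-up. -/
def SpSum : Prop := ∀ (k L : Type) [Field k] [Field L] [Algebra k L]
  (R : Subring L), Reg2 k R → ∀ (bl : Blow R) (f : R) (r : ℕ), bl.Good f r →
  ∀ (D : ValuationSubring L), OnR R f D → ∀ u : Lˣ, UnitIn D u →
    {π : bl.κ[X] | bl.Pt π ∧ On (bl.loc π) D}.Finite ∧
    oD R D u = ∑ᶠ (π : bl.κ[X]) (_ : bl.Pt π), (π.natDegree : ℤ) * oD (bl.loc π) D u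

/-- A13a: the colength drops. -/
def SpColen : Prop := ∀ (k L : Type) [Field k] [Field L] [Algebra k L]
  (R : Subring L), Reg2 k R → ∀ (bl : Blow R) (a b : R) (r : ℕ) (a' b' : bl.B), 1 ≤ r →
  len a b ≠ ⊤ → (a : L) = (bl.x : L) ^ r * a' → (b : L) = (bl.x : L) ^ r * b' →
  (bl.Good a r ∨ bl.Good b r) →
  (∃ N : ℕ, (bl.inc bl.x) ^ N ∈ Ideal.span {a', b'}) ∧ bl.lenB a' b' < len a b

/-- A13b: the numbers `dl` drop. -/
def SpDlLt : Prop := ∀ (k L : Type) [Field k] [Field L] [Algebra k L]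
  (R : Subring L), Reg2 k R → ∀ (bl : Blow R) (u : L) (a b : R) (r : ℕ), IsRelPrime a b →
  (b : L) ≠ 0 → u * b = a → bl.OrdGe a r → bl.OrdGe b r → (bl.Good a r ∨ bl.Good b r) →
  ∀ π, bl.Pt π → dl (bl.loc π) u ≤ dl R u ∧ (dl R u ≠ 0 → dl (bl.loc π) u < dl R u)

/-- A14: the degree of a polynomial. -/
def SpDeg : Prop := ∀ (κ : Type) [Field κ] (p : κ[X]), p ≠ 0 →
  {π : κ[X] | (π.Monic ∧ Irreducible π) ∧ multiplicity π p ≠ 0}.Finite ∧
  (p.natDegree : ℤ) = ∑ᶠ (π : κ[X]) (_ : π.Monic ∧ Irreducible π),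
    (π.natDegree : ℤ) * (multiplicity π p : ℤ)

/-- A15: the cycle condition. -/
def SpCycle : Prop := ∀ (k L : Type) [Field k] [Infinite k] [Field L] [Algebra k L]
  (d : Dat L) (R : Subring L), Reg2 k R →
  ∑ᶠ (D : ValuationSubring L) (_ : On R D), oD R D (d.val D) = 0

end Pool.Agent.H19.UT
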