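import Pool.Agent.H19.UT.Ops

/-!
Project UT, block B (the projective line over a field): statements (helper19).
-/

set_option autoImplicit false
set_option maxHeartbeats 400000

open Polynomial Pool.Agent.K1

namespace Pool.Agent.H19.UT

section defs

variable {K L : Type} [Field K] [Field L] [Algebra K L]

/-- Evaluation at `τ` of polynomials over the subring `R` of `K`. -/
noncomputable def evR (R : Subring K) (τ : L) : R[X] →+* L :=
  eval₂RingHom ((algebraMap K L).comp R.subtype) τ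

/-- Reduction of polynomials over the valuation ring `s`. -/
noncomputable def redP (s : ValuationSubring K) :
    (s.toSubring)[X] →+* (IsLocalRing.ResidueField s)[X] :=
  mapRingHom (IsLocalRing.residue s)

/-- The local ring of `Spec s[τ]` at the point `ρ = 0` of the special fibre. -/
noncomputable def ringP (s : ValuationSubring K) (τ : L)
    (ρ : (IsLocalRing.ResidueField s)[X]) : Subring L :=
  Subring.closure {z : L | ∃ P Q : (s.toSubring)[X], ¬ ρ ∣ redP s Q ∧
    z * evR s.toSubring τ Q = evR s.toSubring τ P}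

/-- The ring `R(τ)`, for a local ring `R` in `K`. -/
noncomputable def ringT (R : Subring K) (τ : L) : Subring L :=
  Subring.closure {z : L | ∃ P Q : R[X], (∃ n, IsUnit (Q.coeff n)) ∧
    z * evR R τ Q = evR R τ P}

/-- `D` is a finite horizontal divisor. -/
def Hor (K : Type) {L : Type} [Field K] [Field L] [Algebra K L] (τ : L)
    (D : ValuationSubring L) : Prop :=
  IsDiscV D ∧ (∀ a : K, algebraMap K L a ∈ D) ∧ τ ∈ D

/-- The units of `K` without zeros and poles are roots of unity. -/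
def KPl (k K : Type) [Field k] [Field K] [Algebra k K] : Prop :=
  ∀ u : Kˣ, (∀ s : ValuationSubring K, IsDiscV s → (∀ c : k, algebraMap k K c ∈ s) →
    UnitIn s u) → ∃ n : ℕ, 0 < n ∧ u ^ n = 1

end defs

/-- B02: the finite horizontal divisors. -/
def SpHor : Prop := ∀ (K L : Type) [Field K] [Field L] [Algebra K L] (τ : L), Coord K L τ →
  (∀ D : ValuationSubring L, Hor K τ D → ∃ π : K[X], π.Monic ∧ Irreducible π ∧
    IsUnifV D (aeval τ π)) ∧
  (∀ π : K[X], π.Monic → Irreducible π → ∃ D : ValuationSubring L, Hor K τ D ∧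
    IsUnifV D (aeval τ π)) ∧
  (∀ π : K[X], π.Monic → Irreducible π → ∀ D : ValuationSubring L, Hor K τ D →
    IsUnifV D (aeval τ π) →
    (∀ z : L, z ∈ D ↔ ∃ P Q : K[X], ¬ π ∣ Q ∧ z * aeval τ Q = aeval τ P) ∧
    (∀ P : K[X], aeval τ P ∈ D.nonunits ↔ π ∣ P))

/-- B01: every family of symbols is, on the finite horizontal divisors, the family of tame symbols
of one element. -/
def SpTate : Prop := ∀ (K L : Type) [Field K] [Field L] [Algebra K L] (τ : L), Coord K L τ →
  ∀ d : Dat L, ∃ α : Sy L, ∀ D : ValuationSubring L, Hor K τ D →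
    TorsV D (d.val D * (sm D α)⁻¹)

/-- B03: Gauss valuations. -/
def SpGauss : Prop := ∀ (K L : Type) [Field K] [Field L] [Algebra K L] (τ : L), Coord K L τ →
  ∀ s : ValuationSubring K, IsDiscV s →
  (∃ E : ValuationSubring L, IsGauss s τ E) ∧
  (∀ E E' : ValuationSubring L, IsGauss s τ E → IsGauss s τ E' → E = E') ∧
  (∀ E : ValuationSubring L, IsGauss s τ E → IsDiscV E ∧ E.comap (algebraMap K L) = s ∧
    (∀ f : Kˣ, ordV E (algebraMap K L f) = ordV s (f : K)) ∧
    (∀ z : L, z ∈ E ↔ ∃ P Q : (s.toSubring)[X], redP s Q ≠ 0 ∧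
      z * evR s.toSubring τ Q = evR s.toSubring τ P) ∧
    (∀ P : (s.toSubring)[X], evR s.toSubring τ P ∈ E.nonunits ↔ redP s P = 0) ∧
    (∀ (a c : K), a ∈ s → c ≠ 0 → c ∈ s → c⁻¹ ∈ s →
      IsGauss s ((τ - algebraMap K L a) / algebraMap K L c) E) ∧ IsGauss s τ⁻¹ E)

/-- B03b: affine changes of the coordinate. -/
def SpCoord : Prop := ∀ (K L : Type) [Field K] [Field L] [Algebra K L] (τ : L), Coord K L τ →
  (∀ a c : K, c ≠ 0 → Coord K L ((τ - algebraMap K L a) / algebraMap K L c)) ∧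
  Coord K L τ⁻¹

/-- B04a: the local rings at the closed points of the line over a discrete valuation ring. -/
def SpRingP : Prop := ∀ (k K L : Type) [Field k] [Field K] [Field L] [Algebra k K]
  [Algebra k L] [Algebra K L] [IsScalarTower k K L] (τ : L), Coord K L τ →
  ∀ s : ValuationSubring K, IsDiscV s → (∀ c : k, algebraMap k K c ∈ s) →
  ∀ ρ : (IsLocalRing.ResidueField s)[X], ρ.Monic → Irreducible ρ →
  (∀ z : L, z ∈ ringP s τ ρ ↔ ∃ P Q : (s.toSubring)[X], ¬ ρ ∣ redP s Q ∧
    z * evR s.toSubring τ Q = evR s.toSubring τ P) ∧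
  Reg2 k (ringP s τ ρ)

/-- B04b: the curves on these rings. -/
def SpRingPD : Prop := ∀ (k K L : Type) [Field k] [Field K] [Field L] [Algebra k K]
  [Algebra k L] [Algebra K L] [IsScalarTower k K L] (τ : L), Coord K L τ →
  ∀ s : ValuationSubring K, IsDiscV s → (∀ c : k, algebraMap k K c ∈ s) →
  ∀ ρ : (IsLocalRing.ResidueField s)[X], ρ.Monic → Irreducible ρ →
  (∀ D : ValuationSubring L, On (ringP s τ ρ) D → IsGauss s τ D ∨ Hor K τ D) ∧
  (∀ E : ValuationSubring L, IsGauss s τ E → On (ringP s τ ρ) E ∧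
    ∀ (u : Lˣ) (P Q : (s.toSubring)[X]), redP s P ≠ 0 → redP s Q ≠ 0 →
      (u : L) * evR s.toSubring τ Q = evR s.toSubring τ P →
      oD (ringP s τ ρ) E u = (multiplicity ρ (redP s P) : ℤ) - (multiplicity ρ (redP s Q) : ℤ))

/-- B04c: the section at infinity. -/
def SpRingPX : Prop := ∀ (k K L : Type) [Field k] [Field K] [Field L] [Algebra k K]
  [Algebra k L] [Algebra K L] [IsScalarTower k K L] (τ : L), Coord K L τ →
  ∀ s : ValuationSubring K, IsDiscV s → (∀ c : k, algebraMap k K c ∈ s) →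
  ∀ D : ValuationSubring L, Hor K τ D → IsUnifV D τ →
    On (ringP s τ X) D ∧
    ∀ v : Kˣ, UnitIn D (Units.map (algebraMap K L : K →* L) v) ∧
      oD (ringP s τ X) D (Units.map (algebraMap K L : K →* L) v) = ordV s (v : K)

/-- B05: the symbol at a Gauss valuation is constant. -/
def SpConst : Prop := ∀ (k K L : Type) [Field k] [Infinite k] [Field K] [Field L]
  [Algebra k K] [Algebra k L] [Algebra K L] [IsScalarTower k K L] (τ : L), Coord K L τ →
  ∀ d : Dat L, HDat (K := K) τ d → ∀ s : ValuationSubring K, IsDiscV s →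
  (∀ c : k, algebraMap k K c ∈ s) → ∃ g : Kˣ, IsG d τ s g

/-- B06a: the rings `R(τ)`. -/
def SpRingT : Prop := ∀ (k K L : Type) [Field k] [Field K] [Field L] [Algebra k K]
  [Algebra k L] [Algebra K L] [IsScalarTower k K L] (τ : L), Coord K L τ →
  ∀ R : Subring K, Reg2 k R →
  (∀ z : L, z ∈ ringT R τ ↔ ∃ P Q : R[X], (∃ n, IsUnit (Q.coeff n)) ∧
    z * evR R τ Q = evR R τ P) ∧
  Reg2 k (ringT R τ)

/-- B06b: the curves on `R(τ)`. -/
def SpRingTD : Prop := ∀ (k K L : Type) [Field k] [Field K] [Field L] [Algebra k K]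
  [Algebra k L] [Algebra K L] [IsScalarTower k K L] (τ : L), Coord K L τ →
  ∀ R : Subring K, Reg2 k R →
  (∀ D : ValuationSubring L, On (ringT R τ) D →
    (∃ s : ValuationSubring K, On R s ∧ IsGauss s τ D) ∨ Hor K τ D) ∧
  (∀ (s : ValuationSubring K) (E : ValuationSubring L), On R s → IsGauss s τ E →
    On (ringT R τ) E ∧ ∀ g : Kˣ, UnitIn s g →
      oD (ringT R τ) E (Units.map (algebraMap K L : K →* L) g) = oD R s g)

/-- B07: the values at the Gauss valuations form a cycle on `K`. -/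
def SpCycK : Prop := ∀ (k K L : Type) [Field k] [Infinite k] [Field K] [Field L]
  [Algebra k K] [Algebra k L] [Algebra K L] [IsScalarTower k K L] (τ : L), Coord K L τ →
  ∀ d : Dat L, HDat (K := K) τ d → ∀ g : ValuationSubring K → Kˣ, ∀ R : Subring K, Reg2 k R →
  (∀ s : ValuationSubring K, On R s → IsG d τ s (g s)) →
  {s : ValuationSubring K | On R s ∧ ¬ TorsV s (g s)}.Finite ∧
  ∑ᶠ (s : ValuationSubring K) (_ : On R s), oD R s (g s) = 0

/-- B08: the divisor at infinity is trivial. -/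
def SpInf : Prop := ∀ (k K L : Type) [Field k] [Infinite k] [Field K] [Field L]
  [Algebra k K] [Algebra k L] [Algebra K L] [IsScalarTower k K L] (τ : L), Coord K L τ →
  KPl k K → ∀ d : Dat L, HDat (K := K) τ d → ∀ D : ValuationSubring L, IsDiscV D →
  (∀ a : K, algebraMap K L a ∈ D) → τ⁻¹ ∈ D.nonunits → d.Triv D

/-- B09: base change and change of coordinate. -/
def SpHMap : Prop := ∀ (K L K2 L2 : Type) [Field K] [Field L] [Field K2] [Field L2]
  [Algebra K L] [Algebra K K2] [Algebra K2 L2] (φ : L →+* L2) (τ : L),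
  (∀ a : K, φ (algebraMap K L a) = algebraMap K2 L2 (algebraMap K K2 a)) →
  ∀ d : Dat L, HDat (K := K) τ d → ∀ a c : K2, c ≠ 0 →
  HDat (K := K2) ((φ τ - algebraMap K2 L2 a) / algebraMap K2 L2 c) (d.map φ)

/-- B10: functions without zeros and poles. -/
def SpKPl : Prop := ∀ (p : ℕ) [Fact p.Prime] (k K : Type) [Field k] [Field K] [Algebra k K]
  [CharP k p] [IsAlgClosed k] (_ : ∀ c : k, c ≠ 0 → ∃ n : ℕ, 0 < n ∧ c ^ n = 1)
  (S : Finset K), (∀ E : Subfield K, (∀ c : k, algebraMap k K c ∈ E) → (∀ a ∈ S, a ∈ E) →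
    E = ⊤) → KPl k K

end Pool.Agent.H19.UT
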