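import Pool.Agent.H19.UT.SpC

/-!
Project UT, block R (charts adapted to a curve and to a unit on it): statements (helper3).
-/

set_option autoImplicit false
set_option maxHeartbeats 400000

open Polynomial Pool.Agent.K1

namespace Pool.Agent.H19.UT

section defs

/-- `A` is a noetherian local ring inside the valuation ring `s`; its maximal ideal is generated by
`ϖ`, a unit of `s`, and by the intersection with the maximal ideal of `s`; and it contains `u`. -/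
structure PreR (k : Type) {K : Type} [Field k] [Field K] [Algebra k K] (s : ValuationSubring K)
    (u ϖ : K) (A : Subring K) : Prop where
  k_mem : ∀ c : k, algebraMap k K c ∈ A
  noeth : IsNoetherianRing A
  le : ∀ a ∈ A, a ∈ s
  frac : ∀ z ∈ s, ∃ a ∈ A, ∃ d ∈ A, d ∉ s.nonunits ∧ z * d = a
  pi_mem : ϖ ∈ A
  pi_unit : ϖ ∉ s.nonunits
  proper : ∀ a ∈ A, ∀ q ∈ A, q ∈ s.nonunits → ϖ * a + q ≠ 1
  loc : ∀ a ∈ A, (∃ b ∈ A, a * b = 1) ∨ ∃ b ∈ A, ∃ q ∈ A, q ∈ s.nonunits ∧ a = ϖ * b + q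
  u_mem : ∃ b ∈ A, ∃ q ∈ A, q ∈ s.nonunits ∧ u = ϖ * b + q

/-- `R` is a noetherian local ring inside the valuation ring `s`, with fraction field `K`, whose
maximal ideal is generated by two elements and contains `u`. -/
structure PreReg (k : Type) {K : Type} [Field k] [Field K] [Algebra k K] (s : ValuationSubring K)
    (u : K) (R : Subring K) : Prop where
  k_mem : ∀ c : k, algebraMap k K c ∈ R
  noeth : IsNoetherianRing R
  le : ∀ r ∈ R, r ∈ s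
  frac : ∀ z : K, ∃ a b : R, (b : K) ≠ 0 ∧ z * b = a
  two : ∃ x y : R, ∀ r : R, ¬ IsUnit r ↔ ∃ a b : R, r = a * x + b * y
  u_mem : u ∈ R
  u_nonunit : ∀ v ∈ R, u * v ≠ 1

end defs

/-- R01: the residue of `u` is transcendental over `k`. -/
def SpRTr : Prop := ∀ (p : ℕ) (k K : Type) [Field k] [Field K] [Algebra k K], Base p k →
  ∀ s : ValuationSubring K, (∀ c : k, algebraMap k K c ∈ s) ∧
  ∀ u : Kˣ, UnitIn s u → ¬ TorsV s u → ∀ P : k[X], P ≠ 0 →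
    aeval (u : K) P ∈ s ∧ aeval (u : K) P ∉ s.nonunits

/-- R02: `c` and `u` are algebraically independent. -/
def SpRInd : Prop := ∀ (k K : Type) [Field k] [Field K] [Algebra k K]
  (s : ValuationSubring K), IsDiscV s → (∀ a : k, algebraMap k K a ∈ s) → ∀ c u : K,
  IsUnifV s c → u ∈ s → (∀ P : k[X], P ≠ 0 → aeval u P ∉ s.nonunits) →
  (∀ P : MvPolynomial (Fin 2) k, P ≠ 0 → MvPolynomial.aeval ![c, u] P ≠ 0) ∧
  ∀ P : MvPolynomial (Fin 2) k, MvPolynomial.aeval ![c, u] P ∈ s.nonunits →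
    MvPolynomial.X 0 ∣ P

/-- R03: a finitely generated ring with fraction field `K`, integral over `k[c, u]`. -/
def SpRA0 : Prop := ∀ (k K : Type) [Field k] [Field K] [Algebra k K], Fg2 k K →
  ∀ c u : K, (∀ P : MvPolynomial (Fin 2) k, P ≠ 0 → MvPolynomial.aeval ![c, u] P ≠ 0) →
  ∃ A : Subalgebra k K, A.FG ∧ c ∈ A ∧ u ∈ A ∧
    (∀ z : K, ∃ a ∈ A, ∃ d ∈ A, d ≠ 0 ∧ z * d = a) ∧
    ∀ a ∈ A, IsIntegral (Algebra.adjoin k ({c, u} : Set K)) a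

/-- R04: the integral closure is finitely generated. -/
def SpRIC : Prop := ∀ (k K : Type) [Field k] [PerfectField k] [Field K] [Algebra k K]
  (A : Subalgebra k K), A.FG → (∀ z : K, ∃ a ∈ A, ∃ d ∈ A, d ≠ 0 ∧ z * d = a) →
  ∃ A1 : Subalgebra k K, A1.FG ∧ ∀ z : K, z ∈ A1 ↔ IsIntegral A z

/-- R05: localisations of normal noetherian rings at minimal nonzero primes. -/
def SpRDvr : Prop := ∀ (K : Type) [Field K] (A : Subring K), IsNoetherianRing A →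
  (∀ z : K, IsIntegral A z → z ∈ A) → (∀ z : K, ∃ a ∈ A, ∃ d ∈ A, d ≠ 0 ∧ z * d = a) →
  ∀ Q : Ideal A, Q.IsPrime → Q ≠ ⊥ →
  (∀ Q' : Ideal A, Q'.IsPrime → Q' ≠ ⊥ → Q' ≤ Q → Q' = Q) →
  ∃ D : ValuationSubring K, IsDiscV D ∧ (∀ a : A, (a : K) ∈ D) ∧
    (∀ a : A, (a : K) ∈ D.nonunits ↔ a ∈ Q) ∧
    ∀ z ∈ D, ∃ a d : A, d ∉ Q ∧ z * d = a

/-- R06: the contraction of the maximal ideal of `s` is a minimal nonzero prime. -/
def SpRMin : Prop := ∀ (k K : Type) [Field k] [Field K] [Algebra k K]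
  (s : ValuationSubring K) (c u : K), c ∈ s.nonunits →
  (∀ P : MvPolynomial (Fin 2) k, P ≠ 0 → MvPolynomial.aeval ![c, u] P ≠ 0) →
  (∀ P : MvPolynomial (Fin 2) k, MvPolynomial.aeval ![c, u] P ∈ s.nonunits →
    MvPolynomial.X 0 ∣ P) →
  ∀ A : Subring K, (∀ a : k, algebraMap k K a ∈ A) → c ∈ A → u ∈ A → (∀ a ∈ A, a ∈ s) →
  (∀ a ∈ A, IsIntegral (Algebra.adjoin k ({c, u} : Set K)) a) →
  ∀ Q : Ideal A, (∀ a : A, a ∈ Q ↔ (a : K) ∈ s.nonunits) →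
  ∀ Q' : Ideal A, Q'.IsPrime → Q' ≠ ⊥ → Q' ≤ Q → Q' = Q

/-- R07: integral equations modulo the maximal ideal of `s`. -/
def SpRInt : Prop := ∀ (k K : Type) [Field k] [Field K] [Algebra k K]
  (s : ValuationSubring K), (∀ a : k, algebraMap k K a ∈ s) → ∀ c u : K, c ∈ s.nonunits →
  u ∈ s → ∀ a ∈ s, IsIntegral (Algebra.adjoin k ({c, u} : Set K)) a →
  ∃ F : k[X][X], F.Monic ∧
    F.eval₂ ((aeval u : k[X] →ₐ[k] K) : k[X] →+* K) a ∈ s.nonunits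

/-- R08: the valuation ring `s` is a localisation of a finitely generated ring. -/
def SpRA1 : Prop := ∀ (p : ℕ) (k K : Type) [Field k] [Field K] [Algebra k K], Base p k →
  Fg2 k K → ∀ s : ValuationSubring K, IsDiscV s → ∀ u : K, u ∈ s →
  (∀ P : k[X], P ≠ 0 → aeval u P ∉ s.nonunits) →
  ∃ A : Subalgebra k K, A.FG ∧ u ∈ A ∧ (∀ a ∈ A, a ∈ s) ∧
    (∀ z ∈ s, ∃ a ∈ A, ∃ d ∈ A, d ∉ s.nonunits ∧ z * d = a) ∧
    ∀ a ∈ A, ∃ F : k[X][X], F.Monic ∧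
      F.eval₂ ((aeval u : k[X] →ₐ[k] K) : k[X] →+* K) a ∈ s.nonunits

/-- R09: points of curves. -/
def SpRCur : Prop := ∀ (k κ : Type) [Field k] [PerfectField k] [Field κ] [Algebra k κ]
  (D : Subalgebra k κ), D.FG → (∀ z : κ, ∃ a ∈ D, ∃ d ∈ D, d ≠ 0 ∧ z * d = a) →
  ∀ t ∈ D, Transcendental k t →
  (∀ a ∈ D, ∃ F : k[X][X], F.Monic ∧
    F.eval₂ ((aeval t : k[X] →ₐ[k] κ) : k[X] →+* κ) a = 0) →
  ∃ (C : Subalgebra k κ) (b : ValuationSubring κ), C.FG ∧ D ≤ C ∧ IsDiscV b ∧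
    (∀ c ∈ C, c ∈ b) ∧ t ∈ b.nonunits ∧
    ∀ z ∈ b, ∃ a ∈ C, ∃ d ∈ C, d ∉ b.nonunits ∧ z * d = a

/-- R10: lifting the chart at a point of the curve. -/
def SpRLift : Prop := ∀ (k K : Type) [Field k] [Field K] [Algebra k K]
  (s : ValuationSubring K) [Algebra k (IsLocalRing.ResidueField s)]
  (hk : ∀ a : k, algebraMap k K a ∈ s), IsDiscV s →
  (∀ a : k, algebraMap k (IsLocalRing.ResidueField s) a =
    IsLocalRing.residue s ⟨algebraMap k K a, hk a⟩) →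
  ∀ (A : Subalgebra k K) (C : Subalgebra k (IsLocalRing.ResidueField s))
    (b : ValuationSubring (IsLocalRing.ResidueField s)) (u : s),
  A.FG → (∀ a ∈ A, a ∈ s) → (∀ z ∈ s, ∃ a ∈ A, ∃ d ∈ A, d ∉ s.nonunits ∧ z * d = a) →
  (u : K) ∈ A → C.FG → (∀ a : s, (a : K) ∈ A → IsLocalRing.residue s a ∈ C) →
  IsDiscV b → (∀ c ∈ C, c ∈ b) → IsLocalRing.residue s u ∈ b.nonunits →
  (∀ z ∈ b, ∃ a ∈ C, ∃ d ∈ C, d ∉ b.nonunits ∧ z * d = a) →
  ∃ (ϖ : K) (A' : Subring K), PreR k s (u : K) ϖ A'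

/-- R11: the local ring of a point on the curve. -/
def SpRPre : Prop := ∀ (p : ℕ) (k K : Type) [Field k] [Field K] [Algebra k K], Base p k →
  Fg2 k K → ∀ s : ValuationSubring K, IsDiscV s → ∀ u : K, u ∈ s →
  (∀ P : k[X], P ≠ 0 → aeval u P ∉ s.nonunits) →
  ∃ (ϖ : K) (A : Subring K), PreR k s u ϖ A

/-- R12: factorisation modulo the maximal ideal of `s`. -/
def SpRFac : Prop := ∀ (k K : Type) [Field k] [Field K] [Algebra k K]
  (s : ValuationSubring K) (u ϖ : K) (A : Subring K), PreR k s u ϖ A →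
  ∀ a ∈ A, a ∉ s.nonunits → ∃ (n : ℕ) (w w' q : K), w ∈ A ∧ w' ∈ A ∧ w * w' = 1 ∧ q ∈ A ∧
    q ∈ s.nonunits ∧ a = ϖ ^ n * w + q

/-- R13: adjoining elements of the maximal ideal of `s`. -/
def SpRAdj : Prop := ∀ (K : Type) [Field K] (s : ValuationSubring K) (A : Subring K) (ϖ : K),
  IsNoetherianRing A → (∀ a ∈ A, a ∈ s) → ϖ ∈ A →
  (∀ a ∈ A, ∀ q ∈ A, q ∈ s.nonunits → ϖ * a + q ≠ 1) →
  (∀ a ∈ A, (∃ b ∈ A, a * b = 1) ∨ ∃ b ∈ A, ∃ q ∈ A, q ∈ s.nonunits ∧ a = ϖ * b + q) →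
  ∀ (l : ℕ) (x : Fin l → K), (∀ j, x j ∈ s.nonunits) →
  (∀ q ∈ A, q ∈ s.nonunits → ∃ h : Fin l → K, (∀ j, h j ∈ A) ∧ q = ∑ j, h j * x j) →
  ∃ R : Subring K, IsNoetherianRing R ∧ (∀ a ∈ A, a ∈ R) ∧ (∀ j, x j ∈ R) ∧
    (∀ r ∈ R, r ∈ s) ∧
    (∀ r ∈ R, (∃ r' ∈ R, r * r' = 1) ∨ ∃ a ∈ R, ∃ h : Fin l → K, (∀ j, h j ∈ R) ∧
      r = ϖ * a + ∑ j, h j * x j) ∧
    ∀ a ∈ R, ∀ h : Fin l → K, (∀ j, h j ∈ R) → ϖ * a + ∑ j, h j * x j ≠ 1

/-- R14: a local ring whose maximal ideal is generated by two elements. -/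
def SpRReg : Prop := ∀ (k K : Type) [Field k] [Field K] [Algebra k K]
  (s : ValuationSubring K), IsDiscV s → ∀ (u ϖ : K) (A : Subring K), PreR k s u ϖ A →
  ∃ R : Subring K, PreReg k s u R

/-- R15: such a ring is regular, and the order of `u` along `s` is not zero. -/
def SpRFin : Prop := ∀ (k K : Type) [Field k] [Field K] [Algebra k K]
  (s : ValuationSubring K), IsDiscV s → ∀ u : Kˣ, UnitIn s u → ∀ R : Subring K,
  PreReg k s (u : K) R → Reg2 k R ∧ ∃ f : R, OnR R f s ∧ oD R s u ≠ 0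

end Pool.Agent.H19.UT
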