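import Pool.Agent.H19.UT.SpF

/-!
Project UT, row F01: the determinant of a two-valuation kills the Steinberg relation (helper14).
-/

set_option autoImplicit false
set_option maxHeartbeats 400000

open Polynomial Pool.Agent.K1

namespace Pool.Agent.H19.UT

/-- If the minimum of three elements of `ℚ × ℚ` is attained twice, two of them are equal. -/
theorem f01_lex3 (a1 a2 b1 b2 c1 c2 : ℚ)
    (h1 : (a1 < c1 ∨ (a1 = c1 ∧ a2 ≤ c2)) ∨ (b1 < c1 ∨ (b1 = c1 ∧ b2 ≤ c2)))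
    (h2 : (b1 < a1 ∨ (b1 = a1 ∧ b2 ≤ a2)) ∨ (c1 < a1 ∨ (c1 = a1 ∧ c2 ≤ a2)))
    (h3 : (c1 < b1 ∨ (c1 = b1 ∧ c2 ≤ b2)) ∨ (a1 < b1 ∨ (a1 = b1 ∧ a2 ≤ b2))) :
    (a1 = b1 ∧ a2 = b2) ∨ (b1 = c1 ∧ b2 = c2) ∨ (a1 = c1 ∧ a2 = c2) := by
  rcases h1 with (h1 | ⟨h1, h1'⟩) | (h1 | ⟨h1, h1'⟩) <;>
  rcases h2 with (h2 | ⟨h2, h2'⟩) | (h2 | ⟨h2, h2'⟩) <;>
  rcases h3 with (h3 | ⟨h3, h3'⟩) | (h3 | ⟨h3, h3'⟩) <;>
  first
    | (exfalso; linarith)
    | (left; constructor <;> linarith)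
    | (right; left; constructor <;> linarith)
    | (right; right; constructor <;> linarith)

/-- A homomorphism from the units to `ℚ` vanishes at `1`. -/
theorem f01_one {Ω : Type} [Field Ω] (v : Ωˣ → ℚ) (hv : ∀ a b, v (a * b) = v a + v b) :
    v 1 = 0 := by
  have h := hv 1 1
  rw [mul_one] at h
  linarith

theorem f01_pow {Ω : Type} [Field Ω] (v : Ωˣ → ℚ) (hv : ∀ a b, v (a * b) = v a + v b)
    (a : Ωˣ) (n : ℕ) : v (a ^ n) = n * v a := by
  induction n with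
  | zero => simp [f01_one v hv]
  | succ n ih =>
    rw [pow_succ, hv, ih]
    push_cast
    ring

theorem f01_tors {Ω : Type} [Field Ω] (v : Ωˣ → ℚ) (hv : ∀ a b, v (a * b) = v a + v b)
    (a : Ωˣ) (n : ℕ) (hn : 0 < n) (ha : a ^ n = 1) : v a = 0 := by
  have h := f01_pow v hv a n
  rw [ha, f01_one v hv] at h
  have hn' : (n : ℚ) ≠ 0 := by exact_mod_cast hn.ne'
  rcases mul_eq_zero.mp h.symm with h | h
  · exact absurd h hn'
  · exact h

theorem f01_neg {Ω : Type} [Field Ω] (v : Ωˣ → ℚ) (hv : ∀ a b, v (a * b) = v a + v b)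
    (a : Ωˣ) : v (-a) = v a := by
  have h1 : v (-1) = 0 := f01_tors v hv (-1) 2 (by norm_num) (by simp)
  have h2 : (-a : Ωˣ) = (-1) * a := by simp
  rw [h2, hv, h1, zero_add]

/-- F01: the determinant kills the Steinberg relation. -/
theorem sp_st : SpSt := by
  intro Ω _ w
  refine ⟨?_, ?_, ?_, ?_, ?_⟩
  · intro a b c habc
    have n1 := f01_neg w.w1 w.mul1
    have n2 := f01_neg w.w2 w.mul2
    have h1 := w.add a b (-c) (by
      rw [Units.val_neg]; linear_combination habc)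
    have h2 := w.add b c (-a) (by
      rw [Units.val_neg]; linear_combination habc)
    have h3 := w.add c a (-b) (by
      rw [Units.val_neg]; linear_combination habc)
    rw [n1, n2] at h1 h2 h3
    simp only [TwoVal.det]
    rcases f01_lex3 _ _ _ _ _ _ h1 h2 h3 with ⟨e1, e2⟩ | ⟨e1, e2⟩ | ⟨e1, e2⟩ <;>
      rw [e1, e2] <;> ring
  · intro a b
    simp only [TwoVal.det]
    rw [f01_neg w.w1 w.mul1, f01_neg w.w2 w.mul2]
  · intro a b
    simp only [TwoVal.det]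
    ring
  · intro a b c
    simp only [TwoVal.det]
    rw [w.mul1, w.mul2]
    ring
  · rintro a ⟨n, hn, ha⟩
    exact ⟨f01_tors w.w1 w.mul1 a n hn ha, f01_tors w.w2 w.mul2 a n hn ha⟩

end Pool.Agent.H19.UT
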