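import Pool.Agent.H19.UT.SpB

/-!
Project UT, row B01: symbols on the finite horizontal divisors of the projective line (helper37).
-/

set_option autoImplicit false
set_option maxHeartbeats 400000

open Polynomial Pool.Agent.K1

namespace Pool.Agent.H19.UT

section b01

variable {K L : Type} [Field K] [Field L] [Algebra K L] {τ : L}

theorem b01_mem {D : ValuationSubring L} (hD : Hor K τ D) (P : K[X]) : aeval τ P ∈ D := by
  induction P using Polynomial.induction_on' with
  | add p q hp hq => rw [map_add]; exact D.add_mem _ _ hp hq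
  | monomial n a =>
    rw [aeval_monomial]
    exact D.mul_mem _ _ (hD.2.1 a) (D.pow_mem hD.2.2 n)

theorem b01_ne (hτ : Coord K L τ) {P : K[X]} (hP : P ≠ 0) : aeval τ P ≠ 0 := fun h =>
  hP ((transcendental_iff.1 hτ.1) P h)

theorem b01_ord (h : SpHor) (hτ : Coord K L τ) {π : K[X]} (hm : π.Monic) (hi : Irreducible π)
    {D : ValuationSubring L} (hD : Hor K τ D) (hu : IsUnifV D (aeval τ π)) {P : K[X]}
    (hP : ¬ π ∣ P) : ordV D (aeval τ P) = 0 := by
  have h1 := ((h K L τ hτ).2.2 π hm hi D hD hu).2 P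
  have hP0 : P ≠ 0 := fun h0 => hP (h0 ▸ dvd_zero π)
  have h2 := (mem_iff_ordV hD.1 (b01_ne hτ hP0)).1 (b01_mem hD P)
  have h3 : ¬ 0 < ordV D (aeval τ P) := fun h4 =>
    hP (h1.1 ((nonunits_iff_ordV hD.1 (b01_ne hτ hP0)).2 h4))
  omega

theorem b01_fin {P : K[X]} (hP : P ≠ 0) :
    ∃ S : Finset K[X], ∀ π : K[X], π.Monic → Irreducible π → π ∣ P → π ∈ S := by
  classical
  refine ⟨(UniqueFactorizationMonoid.normalizedFactors P).toFinset, fun π hm hi hd => ?_⟩
  obtain ⟨q, hq, ha⟩ := UniqueFactorizationMonoid.exists_mem_normalizedFactors_of_dvd hP hi hd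
  have h1 : normalize π = π := hm.normalize_eq_self
  have h2 : normalize q = q := UniqueFactorizationMonoid.normalize_normalized_factor q hq
  have h3 : π = q := by
    rw [← h1, ← h2]
    exact normalize_eq_normalize_iff_associated.2 ha
  rw [Multiset.mem_toFinset, h3]
  exact hq

/-- the divisors where a unit of `L` has a zero or a pole -/
theorem b01_supp (h : SpHor) (hτ : Coord K L τ) (f : Lˣ) :
    ∃ S : Finset K[X], ∀ (π : K[X]) (D : ValuationSubring L), π.Monic → Irreducible π →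
      Hor K τ D → IsUnifV D (aeval τ π) → π ∉ S → ordV D (f : L) = 0 := by
  classical
  obtain ⟨P, Q, hQ, hf⟩ := hτ.2 f
  have hQ0 : Q ≠ 0 := fun h0 => hQ (by rw [h0, map_zero])
  have hP0 : P ≠ 0 := by
    intro h0
    rw [h0, map_zero] at hf
    exact (mul_ne_zero f.ne_zero hQ) hf
  obtain ⟨S1, hS1⟩ := b01_fin hP0
  obtain ⟨S2, hS2⟩ := b01_fin hQ0
  refine ⟨S1 ∪ S2, fun π D hm hi hD hu hS => ?_⟩
  rw [Finset.mem_union, not_or] at hS
  have h1 := b01_ord h hτ hm hi hD hu (fun hd => hS.1 (hS1 π hm hi hd))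
  have h2 := b01_ord h hτ hm hi hD hu (fun hd => hS.2 (hS2 π hm hi hd))
  have h3 := ordV_mul hD.1 f.ne_zero hQ
  rw [hf, h1, h2] at h3
  omega

/-- the bad divisors of a symbol -/
theorem b01_bad (h : SpHor) (hτ : Coord K L τ) (β : Sy L) :
    ∃ S : Finset K[X], ∀ (π : K[X]) (D : ValuationSubring L), π.Monic → Irreducible π →
      Hor K τ D → IsUnifV D (aeval τ π) → π ∉ S → sm D β = 1 := by
  classical
  induction β using FreeAbelianGroup.induction_on with
  | zero => exact ⟨∅, fun π D _ _ _ _ _ => sm_zero D⟩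
  | of p =>
    obtain ⟨f, g⟩ := p
    obtain ⟨S1, hS1⟩ := b01_supp h hτ f
    obtain ⟨S2, hS2⟩ := b01_supp h hτ g
    refine ⟨S1 ∪ S2, fun π D hm hi hD hu hS => ?_⟩
    rw [Finset.mem_union, not_or] at hS
    rw [sm_of, hS1 π D hm hi hD hu hS.1, hS2 π D hm hi hD hu hS.2]
    simp
  | neg p hp =>
    obtain ⟨S, hS⟩ := hp
    refine ⟨S, fun π D hm hi hD hu hS' => ?_⟩
    rw [sm_neg, hS π D hm hi hD hu hS', inv_one]
  | add x y hx hy =>
    obtain ⟨S1, hS1⟩ := hx
    obtain ⟨S2, hS2⟩ := hy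
    refine ⟨S1 ∪ S2, fun π D hm hi hD hu hS => ?_⟩
    rw [Finset.mem_union, not_or] at hS
    rw [sm_add, hS1 π D hm hi hD hu hS.1, hS2 π D hm hi hD hu hS.2, one_mul]

/-- one divisor is corrected, up to divisors of smaller degree -/
theorem b01_step (h : SpHor) (hτ : Coord K L τ) {π : K[X]} (hm : π.Monic) (hi : Irreducible π)
    {D₀ : ValuationSubring L} (hD₀ : Hor K τ D₀) (hu₀ : IsUnifV D₀ (aeval τ π)) (w : Lˣ)
    (hw : UnitIn D₀ w) :
    ∃ (β : Sy L) (S : Finset K[X]), TorsV D₀ (w * (sm D₀ β)⁻¹) ∧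
      (∀ q ∈ S, q.natDegree < π.natDegree) ∧
      ∀ (q : K[X]) (D : ValuationSubring L), q.Monic → Irreducible q → Hor K τ D →
        IsUnifV D (aeval τ q) → q ∉ S → q ≠ π → sm D β = 1 := by
  classical
  obtain ⟨hmem, hnon⟩ := (h K L τ hτ).2.2 π hm hi D₀ hD₀ hu₀
  obtain ⟨P, Q, hQ, hPQ⟩ := (hmem w).1 hw.1
  have hQ0 : Q ≠ 0 := fun h0 => hQ (h0 ▸ dvd_zero π)
  have hQu : ordV D₀ (aeval τ Q) = 0 := b01_ord h hτ hm hi hD₀ hu₀ hQ
  have hwu : ordV D₀ (w : L) = 0 := (unitIn_iff_ordV hD₀.1 w).1 hw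
  have hP0 : aeval τ P ≠ 0 := by
    rw [← hPQ]
    exact mul_ne_zero w.ne_zero (b01_ne hτ hQ0)
  have hP : ¬ π ∣ P := by
    intro hd
    have h1 := (nonunits_iff_ordV hD₀.1 hP0).1 ((hnon P).2 hd)
    rw [← hPQ, ordV_mul hD₀.1 w.ne_zero (b01_ne hτ hQ0), hQu, hwu] at h1
    omega
  have hcop : IsCoprime Q π := ((hi.coprime_iff_not_dvd).2 hQ).symm
  obtain ⟨x, y, hxy⟩ := hcop
  set a : K[X] := (P * x) %ₘ π with ha
  have hdiv : P * x = a + π * ((P * x) /ₘ π) := (modByMonic_add_div (P * x) π).symm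
  have haQ : π ∣ a * Q - P := by
    refine ⟨-(((P * x) /ₘ π) * Q) - P * y, ?_⟩
    have h1 : a = P * x - π * ((P * x) /ₘ π) := by linear_combination -hdiv
    have h2 : x * Q = 1 - y * π := by rw [← hxy]; ring
    calc a * Q - P = P * (x * Q) - π * ((P * x) /ₘ π) * Q - P := by rw [h1]; ring
      _ = π * (-(((P * x) /ₘ π) * Q) - P * y) := by rw [h2]; ring
  have hπa : ¬ π ∣ a := by
    intro hd
    apply hP
    have h1 : P = a * Q - (a * Q - P) := by ring
    rw [h1]
    exact dvd_sub (hd.mul_right Q) haQ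
  have ha0 : a ≠ 0 := fun h0 => hπa (h0 ▸ dvd_zero π)
  have hdeg : a.natDegree < π.natDegree := by
    refine natDegree_lt_natDegree ha0 ?_
    exact degree_modByMonic_lt (P * x) hm
  have haτ : aeval τ a ≠ 0 := b01_ne hτ ha0
  have hπτ : aeval τ π ≠ 0 := hu₀.1
  obtain ⟨S, hS⟩ := b01_fin ha0
  refine ⟨FreeAbelianGroup.of (Units.mk0 (aeval τ a) haτ, Units.mk0 (aeval τ π) hπτ),
    S.filter (fun q => q.natDegree < π.natDegree), ?_, ?_, ?_⟩
  · have hau : ordV D₀ (aeval τ a) = 0 := b01_ord h hτ hm hi hD₀ hu₀ hπa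
    have hπ1 : ordV D₀ (aeval τ π) = 1 := (isUnifV_iff hD₀.1 hπτ).1 hu₀
    rw [sm_of, Units.val_mk0, Units.val_mk0, hau, hπ1]
    refine ⟨1, one_pos, ?_⟩
    have h1 : aeval τ (a * Q - P) ∈ D₀.nonunits := (hnon _).2 haQ
    have hQinv : (aeval τ Q)⁻¹ ∈ D₀ := by
      rw [mem_iff_ordV hD₀.1 (inv_ne_zero (b01_ne hτ hQ0)), ordV_inv hD₀.1 (b01_ne hτ hQ0), hQu]
      simp
    have hainv : (aeval τ a)⁻¹ ∈ D₀ := by
      rw [mem_iff_ordV hD₀.1 (inv_ne_zero haτ), ordV_inv hD₀.1 haτ, hau]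
      simp
    have hQτ := b01_ne hτ hQ0
    have h2 : (((w * ((Units.mk0 (aeval τ a) haτ) ^ (1 : ℤ) *
        (Units.mk0 (aeval τ π) hπτ) ^ (-(0 : ℤ)))⁻¹ : Lˣ) : L)) ^ 1 - 1 =
        (-(aeval τ a)⁻¹ * (aeval τ Q)⁻¹) * aeval τ (a * Q - P) := by
      rw [pow_one, neg_zero, zpow_zero, mul_one, zpow_one, Units.val_mul,
        Units.val_inv_eq_inv_val, Units.val_mk0, map_sub, map_mul, ← hPQ]
      field_simp
      ring
    rw [h2]
    exact nonunits_mul (D₀.mul_mem _ _ (D₀.neg_mem _ hainv) hQinv) h1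
  · intro q hq
    exact (Finset.mem_filter.1 hq).2
  · intro q D hqm hqi hD hqu hqS hqπ
    have hqa : ¬ q ∣ a := by
      intro hd
      apply hqS
      rw [Finset.mem_filter]
      refine ⟨hS q hqm hqi hd, ?_⟩
      exact lt_of_le_of_lt (natDegree_le_of_dvd hd ha0) hdeg
    have hqp : ¬ q ∣ π := by
      intro hd
      apply hqπ
      exact eq_of_monic_of_associated hqm hm (hqi.associated_of_dvd hi hd)
    rw [sm_of, Units.val_mk0, Units.val_mk0, b01_ord h hτ hqm hqi hD hqu hqa,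
      b01_ord h hτ hqm hqi hD hqu hqp]
    simp

theorem b01_main (h : SpHor) (hτ : Coord K L τ) : ∀ (n c : ℕ) (S : Finset K[X])
    (u : ValuationSubring L → Lˣ), (∀ π ∈ S, π.natDegree < n + 1) →
    (S.filter (fun π => π.natDegree = n)).card = c →
    (∀ D, Hor K τ D → UnitIn D (u D)) →
    (∀ (π : K[X]) (D : ValuationSubring L), π.Monic → Irreducible π → Hor K τ D →
      IsUnifV D (aeval τ π) → π ∉ S → TorsV D (u D)) →
    ∃ α : Sy L, ∀ D, Hor K τ D → TorsV D (u D * (sm D α)⁻¹) := by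
  classical
  have hH := h K L τ hτ
  intro n
  induction n with
  | zero =>
    intro c S u hdeg _ _ hbad
    refine ⟨0, fun D hD => ?_⟩
    rw [sm_zero, inv_one, mul_one]
    obtain ⟨π, hm, hi, hu⟩ := hH.1 D hD
    refine hbad π D hm hi hD hu (fun hS => ?_)
    have h1 := hdeg π hS
    have h2 := hi.natDegree_pos
    omega
  | succ n ihn =>
    intro c
    induction c with
    | zero =>
      intro S u hdeg hc hU hbad
      refine ihn _ S u (fun π hπ => ?_) rfl hU hbad
      have h1 := hdeg π hπ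
      rw [Finset.card_eq_zero, Finset.filter_eq_empty_iff] at hc
      have h2 := hc hπ
      omega
    | succ c ihc =>
      intro S u hdeg hc hU hbad
      obtain ⟨π, hπ⟩ : (S.filter (fun π => π.natDegree = n + 1)).Nonempty := by
        rw [← Finset.card_pos, hc]
        omega
      rw [Finset.mem_filter] at hπ
      have hcard : ((S.erase π).filter (fun q => q.natDegree = n + 1)).card = c := by
        rw [Finset.filter_erase, Finset.card_erase_of_mem (Finset.mem_filter.2 hπ), hc]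
        omega
      by_cases hmi : π.Monic ∧ Irreducible π
      · obtain ⟨hm, hi⟩ := hmi
        obtain ⟨D₀, hD₀, hu₀⟩ := hH.2.1 π hm hi
        obtain ⟨β, S', ht, hS'deg, hS'⟩ := b01_step h hτ hm hi hD₀ hu₀ (u D₀) (hU D₀ hD₀)
        obtain ⟨α, hα⟩ := ihc (S.erase π ∪ S') (fun D => u D * (sm D β)⁻¹) (by
            intro q hq
            rcases Finset.mem_union.1 hq with hq | hq
            · exact hdeg q (Finset.mem_of_mem_erase hq)
            · have h1 := hS'deg q hq
              omega) (by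
            rw [Finset.filter_union]
            have h1 : S'.filter (fun q => q.natDegree = n + 1) = ∅ := by
              rw [Finset.filter_eq_empty_iff]
              intro q hq
              have h1 := hS'deg q hq
              omega
            rw [h1, Finset.union_empty]
            exact hcard) (fun D hD => tord_unitIn_mul (hU D hD)
              (tord_unitIn_inv (unitIn_sm hD.1 β))) (by
            intro q D hqm hqi hD hqu hqS
            rw [Finset.mem_union, not_or] at hqS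
            by_cases hqπ : q = π
            · subst hqπ
              have hDD : D = D₀ := by
                ext z
                rw [(hH.2.2 q hqm hqi D hD hqu).1 z, (hH.2.2 q hqm hqi D₀ hD₀ hu₀).1 z]
              subst hDD
              exact ht
            · have h1 : q ∉ S := fun h2 => hqS.1 (Finset.mem_erase.2 ⟨hqπ, h2⟩)
              have h3 := hbad q D hqm hqi hD hqu h1
              rw [hS' q D hqm hqi hD hqu hqS.2 hqπ, inv_one, mul_one]
              exact h3)
        refine ⟨β + α, fun D hD => ?_⟩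
        have h1 := hα D hD
        rw [sm_add, mul_inv, ← mul_assoc]
        exact h1
      · refine ihc (S.erase π) u (fun q hq => hdeg q (Finset.mem_of_mem_erase hq)) hcard hU ?_
        intro q D hqm hqi hD hqu hqS
        refine hbad q D hqm hqi hD hqu (fun h1 => hqS (Finset.mem_erase.2 ⟨?_, h1⟩))
        rintro rfl
        exact hmi ⟨hqm, hqi⟩

end b01

theorem sp_tate (h : SpHor) : SpTate := by
  classical
  intro K L _ _ _ τ hτ d
  choose S hS using fun i => b01_bad h hτ (d.β i)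
  set T : Finset K[X] := Finset.univ.biUnion S with hT
  obtain ⟨N, hN⟩ : ∃ N, ∀ π ∈ T, π.natDegree < N + 1 :=
    ⟨T.sup natDegree, fun π hπ => Nat.lt_succ_of_le (Finset.le_sup (f := natDegree) hπ)⟩
  refine b01_main h hτ N _ T (fun D => d.val D) hN rfl (fun D hD => unitIn_sm hD.1 _) ?_
  intro π D hm hi hD hu hπ
  have h1 : sm D (d.β (d.idx D)) = 1 := hS (d.idx D) π D hm hi hD hu (fun h2 =>
    hπ (Finset.mem_biUnion.2 ⟨d.idx D, Finset.mem_univ _, h2⟩))
  change TorsV D (sm D (d.β (d.idx D)))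
  rw [h1]
  exact torsV_one

end Pool.Agent.H19.UT
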