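import Pool.Agent.H19.UT.SpF

/-!
Project UT, row F10: a rank two valuation which sees a unit that is not torsion (helper62).
-/

set_option autoImplicit false
set_option maxHeartbeats 400000

open Polynomial Pool.Agent.K1

namespace Pool.Agent.H19.UT

/-- A member of a valuation ring, whose inverse is a member, is a unit of the ring. -/
def f10_unit {N : Type} [Field N] (V : ValuationSubring N) (a : Nˣ) (h1 : (a : N) ∈ V)
    (h2 : ((a⁻¹ : Nˣ) : N) ∈ V) : Vˣ where
  val := ⟨(a : N), h1⟩
  inv := ⟨((a⁻¹ : Nˣ) : N), h2⟩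
  val_inv := Subtype.ext (by simp)
  inv_val := Subtype.ext (by simp)

/-- A unit whose residue is a root of unity is torsion. -/
theorem f10_tors {N : Type} [Field N] (V : ValuationSubring N) (a : Nˣ) (h1 : (a : N) ∈ V)
    (h2 : ((a⁻¹ : Nˣ) : N) ∈ V) (n : ℕ) (hn : 0 < n)
    (h : (Units.map (IsLocalRing.residue V : V →* IsLocalRing.ResidueField V)
      (f10_unit V a h1 h2)) ^ n = 1) : TorsV V a := by
  refine ⟨n, hn, ?_⟩
  have h3 : IsLocalRing.residue V ((⟨(a : N), h1⟩ : V) ^ n - 1) = 0 := by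
    have h4 := congrArg (fun z : (IsLocalRing.ResidueField V)ˣ => (z : IsLocalRing.ResidueField V)) h
    simp only [Units.val_pow_eq_pow_val, Units.coe_map, Units.val_one] at h4
    rw [map_sub, map_pow, map_one]
    exact sub_eq_zero.2 h4
  rw [IsLocalRing.residue_eq_zero_iff] at h3
  have h5 := (ValuationSubring.mem_nonunits_iff_exists_mem_maximalIdeal
    (A := V) (a := (a : N) ^ n - 1)).2 ⟨_, h3⟩
  exact h5

/-- The residue field of a valuation ring of a field of characteristic `p`. -/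
theorem f10_char (p : ℕ) [Fact p.Prime] {N : Type} [Field N] [CharP N p]
    (V : ValuationSubring N) : CharP (IsLocalRing.ResidueField V) p := by
  have h1 : ((p : V)) = 0 := by
    apply Subtype.ext
    push_cast
    exact CharP.cast_eq_zero N p
  have h2 : ((p : ℕ) : IsLocalRing.ResidueField V) = 0 := by
    have h3 := congrArg (IsLocalRing.residue V) h1
    rwa [map_natCast, map_zero] at h3
  obtain ⟨q, hq⟩ := CharP.exists (IsLocalRing.ResidueField V)
  have h4 : q ∣ p := (CharP.cast_eq_zero_iff (IsLocalRing.ResidueField V) q p).1 h2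
  rcases (Nat.dvd_prime (Fact.out : p.Prime)).1 h4 with h5 | h5
  · subst h5
    exact absurd rfl (CharP.char_ne_one (IsLocalRing.ResidueField V) 1)
  · rwa [h5] at hq

theorem w_exists (h7 : SpExtQ) (h8 : SpResVal) (h9 : SpComp) : SpW := by
  intro p _ F Ω _ _ _ _ _ D hD u hu ht
  obtain ⟨V, v, hV, hv1, hv2, hv3⟩ := h7 F Ω D hD
  have hc : CharP Ω p := charP_of_injective_algebraMap (algebraMap F Ω).injective p
  have hc' := f10_char p V
  set a : Ωˣ := Units.map (algebraMap F Ω : F →* Ω) u with ha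
  have h1 : (a : Ω) ∈ V := by
    have h2 : (u : F) ∈ V.comap (algebraMap F Ω) := by rw [hV]; exact hu.1
    exact h2
  have h2 : ((a⁻¹ : Ωˣ) : Ω) ∈ V := by
    have h3 : ((u⁻¹ : Fˣ) : F) ∈ V.comap (algebraMap F Ω) := by rw [hV]; exact hu.2
    rw [ValuationSubring.mem_comap] at h3
    rw [ha, ← map_inv]
    exact h3
  have hnt : ¬ TorsV V a := by
    intro h3
    apply ht
    have h4 := (torsV_map (algebraMap F Ω) V u).1 h3
    rwa [hV] at h4
  obtain ⟨b, hb1, hb2, hb3⟩ := h8 p (IsLocalRing.ResidueField V)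
    (Units.map (IsLocalRing.residue V : V →* IsLocalRing.ResidueField V)
      (f10_unit V a h1 h2)) (fun n hn h => hnt (f10_tors V a h1 h2 n hn h))
  obtain ⟨w, hw1, hw2⟩ := h9 Ω V v hv1 hv2 b hb1 hb2
  refine ⟨w, fun f => ?_, ?_⟩
  · rw [hw1]; exact hv3 f
  · rw [hw2 a (f10_unit V a h1 h2) rfl]
    exact hb3

end Pool.Agent.H19.UT
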